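import Pool.Agent.Lib.H37N.ADefs

/-!
# H37N A01 (size M, pure analysis): mean value property for two segments
-/

open Set Filter Topology
open scoped ContDiff

namespace Pool.Agent.Lib.H37N

open MeasureTheory in
theorem a01_cont {O K : Set Pt} (hO : IsOpen O) (hK : Convex ℝ K) (hKO : K ⊆ O) {g : Pt → Pt}
    (hg : ContDiffOn ℝ ∞ g O) {z0 z1 : Pt} (h0 : z0 ∈ K) (h1 : z1 ∈ K) :
    ContinuousOn (fun t : ℝ => fderiv ℝ g (z0 + t • (z1 - z0))) (Icc 0 1) := by
  have h := hg.continuousOn_fderiv_of_isOpen hO (by norm_num)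
  refine h.comp (Continuous.continuousOn (by fun_prop)) ?_
  intro t ht
  exact hKO (hK.add_smul_sub_mem h0 h1 ht)

open MeasureTheory in
theorem a01_one {O K : Set Pt} (hO : IsOpen O) (hK : Convex ℝ K) (hKO : K ⊆ O) {g : Pt → Pt}
    (hg : ContDiffOn ℝ ∞ g O)
    {C : Set (Pt →L[ℝ] Pt)} (hC : Convex ℝ C) (hC' : IsClosed C) (hgC : ∀ z ∈ K, fderiv ℝ g z ∈ C)
    {z0 z1 : Pt} (h0 : z0 ∈ K) (h1 : z1 ∈ K) :
    (∫ t in (0 : ℝ)..1, fderiv ℝ g (z0 + t • (z1 - z0))) ∈ C ∧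
      g z1 - g z0 = (∫ t in (0 : ℝ)..1, fderiv ℝ g (z0 + t • (z1 - z0))) (z1 - z0) := by
  have hcont := a01_cont hO hK hKO hg h0 h1
  have hii : IntervalIntegrable (fun t : ℝ => fderiv ℝ g (z0 + t • (z1 - z0))) volume 0 1 :=
    ContinuousOn.intervalIntegrable (by rwa [uIcc_of_le zero_le_one])
  constructor
  · rw [intervalIntegral.integral_of_le zero_le_one]
    have hprob : IsProbabilityMeasure (volume.restrict (Ioc (0 : ℝ) 1)) := by
      constructor
      rw [Measure.restrict_apply_univ, Real.volume_Ioc]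
      norm_num
    refine hC.integral_mem hC' ?_ hii.1
    refine (ae_restrict_iff' measurableSet_Ioc).2 (Eventually.of_forall fun t ht => ?_)
    exact hgC _ (hK.add_smul_sub_mem h0 h1 ⟨ht.1.le, ht.2⟩)
  · rw [ContinuousLinearMap.intervalIntegral_apply hii]
    have hderiv : ∀ t ∈ uIcc (0 : ℝ) 1, HasDerivAt (fun t : ℝ => g (z0 + t • (z1 - z0)))
        (fderiv ℝ g (z0 + t • (z1 - z0)) (z1 - z0)) t := by
      intro t ht
      rw [uIcc_of_le zero_le_one] at ht
      have hmem := hKO (hK.add_smul_sub_mem h0 h1 ht)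
      have hd : HasFDerivAt g (fderiv ℝ g (z0 + t • (z1 - z0))) (z0 + t • (z1 - z0)) :=
        ((hg.contDiffAt (hO.mem_nhds hmem)).differentiableAt (by norm_num)).hasFDerivAt
      have hl : HasDerivAt (fun t : ℝ => z0 + t • (z1 - z0)) (z1 - z0) t := by
        simpa using ((hasDerivAt_id t).smul_const (z1 - z0)).const_add z0
      exact hd.comp_hasDerivAt t hl
    rw [intervalIntegral.integral_eq_sub_of_hasDerivAt hderiv]
    · simp
    · refine ContinuousOn.intervalIntegrable ?_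
      rw [uIcc_of_le zero_le_one]
      exact hcont.clm_apply continuousOn_const

/-- Proof. Put `A = ∫ t in 0..1, fderiv ℝ g (z0 + t • (z1 - z0))` and
`A' = ∫ t in 0..1, fderiv ℝ g (z2 + t • (z3 - z2))`. The segments lie in `K ⊆ O` (convexity); `fderiv ℝ g` is
continuous on the open `O` (`hg.continuousOn_fderiv_of_isOpen hO`), so the integrands are continuous on `[0,1]`,
hence interval integrable.
(1) `A ∈ C`: `Convex.integral_mem` (or `Convex.average_mem`) for the probability measure `volume.restrict (Icc 0 1)`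
(closed convex set, integrand in `C` a.e., integrable).
(2) `g z1 - g z0 = A (z1 - z0)`: the function `t ↦ g (z0 + t • (z1 - z0))` has derivative
`fderiv ℝ g (z0 + t • (z1 - z0)) (z1 - z0)` (chain rule; `g` is differentiable at points of the open set `O`);
fundamental theorem (`intervalIntegral.integral_eq_sub_of_hasDerivAt` on `uIcc 0 1`), and
`(∫ φ) v = ∫ φ v` (`ContinuousLinearMap.intervalIntegral_apply`).
(3) `‖A - A'‖ ≤ ∫ ‖...‖ ≤ L * M`, `M = max ‖z2 - z0‖ ‖z3 - z1‖`, because for `t ∈ [0,1]` the difference of the two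
points is `(1 - t) • (z2 - z0) + t • (z3 - z1)`, of norm at most `M`
(`intervalIntegral.norm_integral_le_of_norm_le_const`). -/
theorem mean_two {O K : Set Pt} (hO : IsOpen O) (hK : Convex ℝ K) (hKO : K ⊆ O) {g : Pt → Pt}
    (hg : ContDiffOn ℝ ∞ g O) {L : ℝ} (hL0 : 0 ≤ L)
    (hL : ∀ z ∈ K, ∀ z' ∈ K, ‖fderiv ℝ g z - fderiv ℝ g z'‖ ≤ L * ‖z - z'‖)
    {C : Set (Pt →L[ℝ] Pt)} (hC : Convex ℝ C) (hC' : IsClosed C) (hgC : ∀ z ∈ K, fderiv ℝ g z ∈ C)
    {z0 z1 z2 z3 : Pt} (h0 : z0 ∈ K) (h1 : z1 ∈ K) (h2 : z2 ∈ K) (h3 : z3 ∈ K) :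
    ∃ A ∈ C, ∃ A' ∈ C, g z1 - g z0 = A (z1 - z0) ∧ g z3 - g z2 = A' (z3 - z2) ∧
      ‖A - A'‖ ≤ L * max ‖z2 - z0‖ ‖z3 - z1‖ := by
  obtain ⟨hA1, hA2⟩ := a01_one hO hK hKO hg hC hC' hgC h0 h1
  obtain ⟨hB1, hB2⟩ := a01_one hO hK hKO hg hC hC' hgC h2 h3
  refine ⟨_, hA1, _, hB1, hA2, hB2, ?_⟩
  have hi1 : IntervalIntegrable (fun t : ℝ => fderiv ℝ g (z0 + t • (z1 - z0)))
      MeasureTheory.volume 0 1 :=
    ContinuousOn.intervalIntegrable (by
      rw [uIcc_of_le zero_le_one]; exact a01_cont hO hK hKO hg h0 h1)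
  have hi2 : IntervalIntegrable (fun t : ℝ => fderiv ℝ g (z2 + t • (z3 - z2)))
      MeasureTheory.volume 0 1 :=
    ContinuousOn.intervalIntegrable (by
      rw [uIcc_of_le zero_le_one]; exact a01_cont hO hK hKO hg h2 h3)
  rw [← intervalIntegral.integral_sub hi1 hi2]
  have hb := intervalIntegral.norm_integral_le_of_norm_le_const (a := (0 : ℝ)) (b := 1)
    (f := fun t : ℝ => fderiv ℝ g (z0 + t • (z1 - z0)) - fderiv ℝ g (z2 + t • (z3 - z2)))
    (C := L * max ‖z2 - z0‖ ‖z3 - z1‖) ?_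
  · simpa using hb
  · intro t ht
    rw [uIoc_of_le zero_le_one] at ht
    have ht' : t ∈ Icc (0 : ℝ) 1 := ⟨ht.1.le, ht.2⟩
    refine (hL _ (hK.add_smul_sub_mem h0 h1 ht') _ (hK.add_smul_sub_mem h2 h3 ht')).trans ?_
    refine mul_le_mul_of_nonneg_left ?_ hL0
    have e : z0 + t • (z1 - z0) - (z2 + t • (z3 - z2)) =
        -((1 - t) • (z2 - z0) + t • (z3 - z1)) := by
      module
    rw [e, norm_neg]
    refine (norm_add_le _ _).trans ?_
    rw [norm_smul, norm_smul, Real.norm_of_nonneg (sub_nonneg.2 ht'.2), Real.norm_of_nonneg ht'.1]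
    have m1 := le_max_left ‖z2 - z0‖ ‖z3 - z1‖
    have m2 := le_max_right ‖z2 - z0‖ ‖z3 - z1‖
    have k1 := mul_le_mul_of_nonneg_left m1 (sub_nonneg.2 ht'.2)
    have k2 := mul_le_mul_of_nonneg_left m2 ht'.1
    linarith

end Pool.Agent.Lib.H37N
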