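import Pool.Agent.Lib.H37N.BDefs

/-! # H37N, chunk B01 (M): elementary facts on near maps on the strips -/

open Set Filter Topology
open scoped ContDiff

namespace Pool.Agent.Lib.H37N

/-- PROOF. `interior_prod_eq`, `interior_Icc`; numbers (unfold pw, al, del; cases i). -/
theorem mem_interior_VV {i : Sy} {z : Pt} : z ∈ interior (VV i) ↔
    (al i - del < z.1 ∧ z.1 < al i + pw i + del) ∧ -del < z.2 ∧ z.2 < 1 + del := by
  unfold VV
  rw [interior_prod_eq, interior_Icc, interior_Icc]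
  simp only [mem_prod, mem_Ioo]

theorem mem_VV {i : Sy} {z : Pt} : z ∈ VV i ↔
    (al i - del ≤ z.1 ∧ z.1 ≤ al i + pw i + del) ∧ -del ≤ z.2 ∧ z.2 ≤ 1 + del := by
  unfold VV
  simp only [mem_prod, mem_Icc]

theorem VV_sub_interior_K0 (i : Sy) : VV i ⊆ interior K0 := by
  intro z hz
  rw [mem_VV] at hz
  obtain ⟨⟨h1, h2⟩, h3, h4⟩ := hz
  unfold K0
  rw [interior_prod_eq, interior_Icc]
  simp only [mem_prod, mem_Ioo]
  cases i <;> simp only [al, pw, del] at h1 h2 h3 h4 <;>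
    refine ⟨⟨?_, ?_⟩, ?_, ?_⟩ <;> linarith

theorem not_mem_VV_of_ne {i j : Sy} (hij : i ≠ j) {z : Pt} (hz : z ∈ VV i) : z ∉ VV j := by
  intro hz'
  rw [mem_VV] at hz hz'
  obtain ⟨⟨h1, h2⟩, h3, h4⟩ := hz
  obtain ⟨⟨h1', h2'⟩, h3', h4'⟩ := hz'
  cases i <;> cases j <;> simp only [al, pw, del] at h1 h2 h1' h2' <;>
    first
      | exact hij rfl
      | linarith

/-- PROOF. `hg.smooth` gives an open O; O is a neighbourhood of z and of every w near z; `ContDiffOn.contDiffAt`. -/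
theorem Near.contDiffAt {g : Pt → Pt} (hg : Near g) {i : Sy} {z : Pt} (hz : z ∈ VV i) :
    ∀ᶠ w in 𝓝 z, ContDiffAt ℝ ∞ g w := by
  obtain ⟨O, hO, hsub, hs, -, -⟩ := hg.smooth
  have hzO : z ∈ O := by
    apply hsub
    cases i
    · exact Or.inl (Or.inl hz)
    · exact Or.inl (Or.inr hz)
  filter_upwards [hO.mem_nhds hzO] with w hw
  exact hs.contDiffAt (hO.mem_nhds hw)

theorem Near.jac_pos {g : Pt → Pt} (hg : Near g) {i : Sy} {z : Pt} (hz : z ∈ VV i) : 0 < jac g z := by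
  obtain ⟨O, hO, hsub, hs, -, hj⟩ := hg.smooth
  have hzO : z ∈ O := by
    apply hsub
    cases i
    · exact Or.inl (Or.inl hz)
    · exact Or.inl (Or.inr hz)
  exact hj z hzO

/-- PROOF. w = w.1 • (1,0) + w.2 • (0,1), linearity, `hg.close1`, |w.1|, |w.2| ≤ ‖w‖ (sup norm). -/
theorem Near.deriv_apply {g : Pt → Pt} (hg : Near g) {i : Sy} {z : Pt} (hz : z ∈ VV i) (w : Pt) :
    |(fderiv ℝ g z w).1 - w.1 / pw i| ≤ 2 * e0 * ‖w‖ ∧ |(fderiv ℝ g z w).2 - qw i * w.2| ≤ 2 * e0 * ‖w‖ := by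
  obtain ⟨c1, c2, c3, c4⟩ := hg.close1 i z hz
  have hw : w = w.1 • ((1 : ℝ), (0 : ℝ)) + w.2 • ((0 : ℝ), (1 : ℝ)) := by
    ext <;> simp
  have hL : fderiv ℝ g z w = w.1 • fderiv ℝ g z (1, 0) + w.2 • fderiv ℝ g z (0, 1) := by
    conv_lhs => rw [hw]
    rw [map_add, map_smul, map_smul]
  have n1 : |w.1| ≤ ‖w‖ := by
    have := norm_fst_le w
    rwa [Real.norm_eq_abs] at this
  have n2 : |w.2| ≤ ‖w‖ := by
    have := norm_snd_le w
    rwa [Real.norm_eq_abs] at this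
  have he : (0 : ℝ) ≤ e0 := by unfold e0; positivity
  rw [hL]
  constructor
  · have : (w.1 • fderiv ℝ g z (1, 0) + w.2 • fderiv ℝ g z (0, 1)).1 - w.1 / pw i
        = w.1 * ((fderiv ℝ g z (1, 0)).1 - 1 / pw i) + w.2 * (fderiv ℝ g z (0, 1)).1 := by
      simp only [Prod.fst_add, Prod.smul_fst, smul_eq_mul]
      ring
    rw [this]
    calc |w.1 * ((fderiv ℝ g z (1, 0)).1 - 1 / pw i) + w.2 * (fderiv ℝ g z (0, 1)).1|
        ≤ |w.1 * ((fderiv ℝ g z (1, 0)).1 - 1 / pw i)| + |w.2 * (fderiv ℝ g z (0, 1)).1| :=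
          abs_add_le _ _
      _ = |w.1| * |(fderiv ℝ g z (1, 0)).1 - 1 / pw i| + |w.2| * |(fderiv ℝ g z (0, 1)).1| := by
          rw [abs_mul, abs_mul]
      _ ≤ ‖w‖ * e0 + ‖w‖ * e0 := by
          gcongr
      _ = 2 * e0 * ‖w‖ := by ring
  · have : (w.1 • fderiv ℝ g z (1, 0) + w.2 • fderiv ℝ g z (0, 1)).2 - qw i * w.2
        = w.1 * (fderiv ℝ g z (1, 0)).2 + w.2 * ((fderiv ℝ g z (0, 1)).2 - qw i) := by
      simp only [Prod.snd_add, Prod.smul_snd, smul_eq_mul]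
      ring
    rw [this]
    calc |w.1 * (fderiv ℝ g z (1, 0)).2 + w.2 * ((fderiv ℝ g z (0, 1)).2 - qw i)|
        ≤ |w.1 * (fderiv ℝ g z (1, 0)).2| + |w.2 * ((fderiv ℝ g z (0, 1)).2 - qw i)| :=
          abs_add_le _ _
      _ = |w.1| * |(fderiv ℝ g z (1, 0)).2| + |w.2| * |(fderiv ℝ g z (0, 1)).2 - qw i| := by
          rw [abs_mul, abs_mul]
      _ ≤ ‖w‖ * e0 + ‖w‖ * e0 := by
          gcongr
      _ = 2 * e0 * ‖w‖ := by ring

/-- Mean value estimate on a strip.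

PROOF. VV i is convex (`convex_Icc`, `Convex.prod`).  For h(z) = (g z).1 - z.1 / pw i: differentiable at the points of VV i (`Near.contDiffAt`) with derivative
w ↦ (fderiv g z w).1 - w.1 / pw i of norm ≤ 2 e0 by `Near.deriv_apply` (`ContinuousLinearMap.opNorm_le_bound`); `Convex.norm_image_sub_le_of_norm_hasFDerivWithin_le`.
The same for (g z).2 - qw i * z.2. -/
theorem Near.diff {g : Pt → Pt} (hg : Near g) {i : Sy} {z z' : Pt} (hz : z ∈ VV i) (hz' : z' ∈ VV i) :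
    |(g z).1 - (g z').1 - (z.1 - z'.1) / pw i| ≤ 2 * e0 * ‖z - z'‖ ∧
      |(g z).2 - (g z').2 - qw i * (z.2 - z'.2)| ≤ 2 * e0 * ‖z - z'‖ := by
  have hconv : Convex ℝ (VV i) := (convex_Icc _ _).prod (convex_Icc _ _)
  have he : (0 : ℝ) ≤ 2 * e0 := by unfold e0; positivity
  have hd : ∀ x ∈ VV i, HasFDerivAt g (fderiv ℝ g x) x := by
    intro x hx
    have h1 : ContDiffAt ℝ ∞ g x := (hg.contDiffAt hx).self_of_nhds
    exact (h1.differentiableAt (by simp)).hasFDerivAt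
  constructor
  · have h1 : ∀ x ∈ VV i, HasFDerivWithinAt (fun z : Pt => (g z).1 - (1 / pw i) * z.1)
        ((ContinuousLinearMap.fst ℝ ℝ ℝ).comp (fderiv ℝ g x) -
          (1 / pw i) • ContinuousLinearMap.fst ℝ ℝ ℝ) (VV i) x := by
      intro x hx
      have ha : HasFDerivAt (fun z : Pt => (g z).1)
          ((ContinuousLinearMap.fst ℝ ℝ ℝ).comp (fderiv ℝ g x)) x :=
        (ContinuousLinearMap.fst ℝ ℝ ℝ).hasFDerivAt.comp x (hd x hx)
      have hb : HasFDerivAt (fun z : Pt => (1 / pw i) * z.1)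
          ((1 / pw i) • ContinuousLinearMap.fst ℝ ℝ ℝ) x :=
        (ContinuousLinearMap.fst ℝ ℝ ℝ).hasFDerivAt.const_mul (1 / pw i)
      exact (ha.sub hb).hasFDerivWithinAt
    have h2 : ∀ x ∈ VV i, ‖(ContinuousLinearMap.fst ℝ ℝ ℝ).comp (fderiv ℝ g x) -
          (1 / pw i) • ContinuousLinearMap.fst ℝ ℝ ℝ‖ ≤ 2 * e0 := by
      intro x hx
      apply ContinuousLinearMap.opNorm_le_bound _ he
      intro w
      have h3 := (hg.deriv_apply hx w).1
      have h4 : ((ContinuousLinearMap.fst ℝ ℝ ℝ).comp (fderiv ℝ g x) -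
          (1 / pw i) • ContinuousLinearMap.fst ℝ ℝ ℝ) w = (fderiv ℝ g x w).1 - w.1 / pw i := by
        simp [div_eq_inv_mul]
      rw [h4, Real.norm_eq_abs]
      exact h3
    have h5 := hconv.norm_image_sub_le_of_norm_hasFDerivWithin_le h1 h2 hz' hz
    rw [Real.norm_eq_abs] at h5
    have h6 : (g z).1 - (g z').1 - (z.1 - z'.1) / pw i
        = (g z).1 - (1 / pw i) * z.1 - ((g z').1 - (1 / pw i) * z'.1) := by ring
    rw [h6]
    exact h5
  · have h1 : ∀ x ∈ VV i, HasFDerivWithinAt (fun z : Pt => (g z).2 - qw i * z.2)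
        ((ContinuousLinearMap.snd ℝ ℝ ℝ).comp (fderiv ℝ g x) -
          (qw i) • ContinuousLinearMap.snd ℝ ℝ ℝ) (VV i) x := by
      intro x hx
      have ha : HasFDerivAt (fun z : Pt => (g z).2)
          ((ContinuousLinearMap.snd ℝ ℝ ℝ).comp (fderiv ℝ g x)) x :=
        (ContinuousLinearMap.snd ℝ ℝ ℝ).hasFDerivAt.comp x (hd x hx)
      have hb : HasFDerivAt (fun z : Pt => qw i * z.2)
          ((qw i) • ContinuousLinearMap.snd ℝ ℝ ℝ) x :=
        (ContinuousLinearMap.snd ℝ ℝ ℝ).hasFDerivAt.const_mul (qw i)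
      exact (ha.sub hb).hasFDerivWithinAt
    have h2 : ∀ x ∈ VV i, ‖(ContinuousLinearMap.snd ℝ ℝ ℝ).comp (fderiv ℝ g x) -
          (qw i) • ContinuousLinearMap.snd ℝ ℝ ℝ‖ ≤ 2 * e0 := by
      intro x hx
      apply ContinuousLinearMap.opNorm_le_bound _ he
      intro w
      have h3 := (hg.deriv_apply hx w).2
      have h4 : ((ContinuousLinearMap.snd ℝ ℝ ℝ).comp (fderiv ℝ g x) -
          (qw i) • ContinuousLinearMap.snd ℝ ℝ ℝ) w = (fderiv ℝ g x w).2 - qw i * w.2 := by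
        simp
      rw [h4, Real.norm_eq_abs]
      exact h3
    have h5 := hconv.norm_image_sub_le_of_norm_hasFDerivWithin_le h1 h2 hz' hz
    rw [Real.norm_eq_abs] at h5
    have h6 : (g z).2 - (g z').2 - qw i * (z.2 - z'.2)
        = (g z).2 - qw i * z.2 - ((g z').2 - qw i * z'.2) := by ring
    rw [h6]
    exact h5

end Pool.Agent.Lib.H37N
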