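import Pool.Agent.Lib.H37N.BDefs

/-! # H37N, chunk B10 (M): elementary properties of linear charts -/

open Set Filter Topology
open scoped ContDiff

namespace Pool.Agent.Lib.H37N

variable {g g' : Pt → Pt} {i : Sy} {κ c : Pt → Pt} {lam mu : ℝ}

theorem LinChart.one_lt (h : LinChart g i κ c lam mu) : 1 < mu := by
  have := h.mu_mem
  cases i
  · simp only [muR, mem_Ioo] at this; linarith [this.1]
  · simp only [muR, mem_Ioo] at this; linarith [this.1]

theorem LinChart.lam_pos (h : LinChart g i κ c lam mu) : 0 < lam := by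
  have := h.lam_mem.1
  linarith

theorem b10_mem_Bx {x y : ℝ} : (x, y) ∈ Bx ↔ |x| < 2 ∧ |y| < 2 := by
  simp only [Bx, mem_prod, mem_Ioo, abs_lt]

theorem b10_abs_lam (h : LinChart g i κ c lam mu) {x : ℝ} (hx : |x| < 2) : |lam * x| < 2 := by
  have h1 := h.lam_pos
  have h2 := h.lam_mem.2
  rw [abs_mul, abs_of_pos h1]
  nlinarith [abs_nonneg x]

theorem b10_abs_mu (h : LinChart g i κ c lam mu) {y : ℝ} (hy : |mu * y| < 2) : |y| < 2 := by
  have h1 := h.one_lt
  rw [abs_mul, abs_of_pos (by linarith)] at hy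
  nlinarith [abs_nonneg y]

/-- PROOF. Only `lin` mentions g, and κ (x,y) ∈ interior (VV i) for |x| < 2, |mu y| < 2 (then |y| < 2). -/
theorem LinChart.congr (h : LinChart g i κ c lam mu) (hg : ∀ z ∈ interior (VV i), g' z = g z) :
    LinChart g' i κ c lam mu := by
  refine ⟨h.smooth, h.inj, h.jac_pos, h.isOpen, h.sub, h.smooth_c, h.left, ?_, h.lam_mem, h.mu_mem⟩
  intro x y hx hy
  rw [hg _ (h.sub ⟨(x, y), b10_mem_Bx.2 ⟨hx, b10_abs_mu h hy⟩, rfl⟩)]
  exact h.lin x y hx hy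

/-- PROOF. ψ (g (κ (x,y))) = ψ (κ (lam x, mu y)) = κ (lam x, mu y), because κ (lam x, mu y) ∈ interior (VV i). -/
theorem LinChart.of_comp (h : LinChart g i κ c lam mu) {ψ : Pt → Pt} (hψ : ∀ z ∈ VV i, ψ z = z) :
    LinChart (ψ ∘ g) i κ c lam mu := by
  refine ⟨h.smooth, h.inj, h.jac_pos, h.isOpen, h.sub, h.smooth_c, h.left, ?_, h.lam_mem, h.mu_mem⟩
  intro x y hx hy
  simp only [Function.comp_apply]
  rw [h.lin x y hx hy]
  exact hψ _ (interior_subset (h.sub ⟨(lam * x, mu * y), b10_mem_Bx.2 ⟨b10_abs_lam h hx, hy⟩, rfl⟩))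

theorem b10_neg_mem {v : Pt} (hv : v ∈ Bx) : -v ∈ Bx := by
  obtain ⟨x, y⟩ := v
  rw [b10_mem_Bx] at hv
  change (-x, -y) ∈ Bx
  rw [b10_mem_Bx, abs_neg, abs_neg]
  exact hv

theorem b10_fderiv_neg (h : ContDiff ℝ ∞ κ) (v w : Pt) :
    fderiv ℝ (fun v => κ (-v)) v w = - fderiv ℝ κ (-v) w := by
  have h1 : HasFDerivAt κ (fderiv ℝ κ (-v)) (-v) :=
    (h.differentiable (by simp) (-v)).hasFDerivAt
  have h2 : HasFDerivAt (fun v : Pt => -v) (-(ContinuousLinearMap.id ℝ Pt)) v :=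
    (hasFDerivAt_id v).neg
  have h3 : HasFDerivAt (fun v => κ (-v)) ((fderiv ℝ κ (-v)).comp (-(ContinuousLinearMap.id ℝ Pt))) v :=
    HasFDerivAt.comp v h1 h2
  rw [h3.fderiv]
  simp

/-- PROOF. Bx = -Bx; fderiv (fun v => κ (-v)) v w = - fderiv κ (-v) w, the Jacobian does not change. -/
theorem LinChart.neg (h : LinChart g i κ c lam mu) :
    LinChart g i (fun v => κ (-v)) (fun w => -c w) lam mu := by
  have himg : (fun v => κ (-v)) '' Bx = κ '' Bx := by
    ext w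
    constructor
    · rintro ⟨v, hv, rfl⟩
      exact ⟨-v, b10_neg_mem hv, rfl⟩
    · rintro ⟨v, hv, rfl⟩
      exact ⟨-v, b10_neg_mem hv, by simp⟩
  refine ⟨h.smooth.comp contDiff_neg, ?_, ?_, ?_, ?_, h.smooth_c.neg, ?_, ?_, h.lam_mem, h.mu_mem⟩
  · intro v hv w hw hvw
    have := h.inj (b10_neg_mem hv) (b10_neg_mem hw) hvw
    exact neg_injective this
  · intro v hv
    have h1 := h.jac_pos (-v) (b10_neg_mem hv)
    unfold jac at h1 ⊢
    rw [b10_fderiv_neg h.smooth, b10_fderiv_neg h.smooth]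
    simp only [Prod.fst_neg, Prod.snd_neg]
    linarith
  · rw [himg]; exact h.isOpen
  · rw [himg]; exact h.sub
  · intro v hv
    show -c (κ (-v)) = v
    rw [h.left _ (b10_neg_mem hv), neg_neg]
  · intro x y hx hy
    have h1 := h.lin (-x) (-y) (by rwa [abs_neg]) (by rwa [mul_neg, abs_neg])
    show g (κ (-(x, y))) = κ (-(lam * x, mu * y))
    rw [Prod.neg_mk, Prod.neg_mk, h1, mul_neg, mul_neg]

theorem LinChart.fix (h : LinChart g i κ c lam mu) : g (κ 0) = κ 0 := by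
  have h1 := h.lin 0 0 (by simp) (by simp)
  rw [mul_zero, mul_zero] at h1
  exact h1

theorem LinChart.right (h : LinChart g i κ c lam mu) {w : Pt} (hw : w ∈ κ '' Bx) : κ (c w) = w ∧ c w ∈ Bx := by
  obtain ⟨v, hv, rfl⟩ := hw
  rw [h.left v hv]
  exact ⟨rfl, hv⟩

/-- PROOF. Induction on n (|mu^j y| ≤ |mu^n y| for j ≤ n because mu > 1; |lam^j x| < 2). -/
theorem LinChart.iter (h : LinChart g i κ c lam mu) (n : ℕ) {x y : ℝ} (hx : |x| < 2) (hy : |mu ^ n * y| < 2) :
    g^[n] (κ (x, y)) = κ (lam ^ n * x, mu ^ n * y) := by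
  induction n generalizing x y with
  | zero => simp
  | succ n ih =>
    have h1 := h.one_lt
    have hmy : |mu * y| < 2 := by
      have h2 : |mu * y| ≤ |mu ^ (n + 1) * y| := by
        rw [abs_mul, abs_mul]
        apply mul_le_mul_of_nonneg_right _ (abs_nonneg _)
        rw [abs_of_pos (by linarith), abs_of_pos (by positivity)]
        calc mu = mu ^ 1 := (pow_one mu).symm
          _ ≤ mu ^ (n + 1) := pow_le_pow_right₀ h1.le (by omega)
      linarith
    rw [Function.iterate_succ_apply, h.lin x y hx hmy,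
      ih (b10_abs_lam h hx) (by rw [← mul_assoc, ← pow_succ]; exact hy)]
    congr 1
    rw [pow_succ, pow_succ, mul_assoc, mul_assoc]

/-- PROOF. `LinChart.iter` for j, `sub`. -/
theorem LinChart.iter_mem (h : LinChart g i κ c lam mu) (n : ℕ) {x y : ℝ} (hx : |x| < 2)
    (hy : |mu ^ n * y| < 2) : ∀ j ≤ n, g^[j] (κ (x, y)) ∈ interior (VV i) := by
  intro j hj
  have h1 := h.one_lt
  have h0 := h.lam_pos
  have hj' : |mu ^ j * y| < 2 := by
    have h2 : |mu ^ j * y| ≤ |mu ^ n * y| := by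
      rw [abs_mul, abs_mul]
      apply mul_le_mul_of_nonneg_right _ (abs_nonneg _)
      rw [abs_of_pos (by positivity), abs_of_pos (by positivity)]
      exact pow_le_pow_right₀ h1.le hj
    linarith
  rw [h.iter j hx hj']
  apply h.sub
  refine ⟨_, b10_mem_Bx.2 ⟨?_, hj'⟩, rfl⟩
  rw [abs_mul, abs_of_pos (by positivity)]
  have h3 : lam ^ j ≤ 1 := pow_le_one₀ h0.le (by linarith [h.lam_mem.2])
  nlinarith [abs_nonneg x, pow_pos h0 j]

end Pool.Agent.Lib.H37N
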