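import Pool.Agent.Lib.H37N.B01

/-! # H37N, chunk B16 (M): iterates along orbits in the strips, Jacobians, the horizontal cone -/

open Set Filter Topology
open scoped ContDiff

namespace Pool.Agent.Lib.H37N

theorem b16_lin (L : Pt →L[ℝ] Pt) (v : Pt) : L v = v.1 • L (1, 0) + v.2 • L (0, 1) := by
  have : v = v.1 • ((1 : ℝ), (0 : ℝ)) + v.2 • ((0 : ℝ), (1 : ℝ)) := by
    ext <;> simp
  conv_lhs => rw [this]
  rw [map_add, map_smul, map_smul]

theorem b16_VO {z : Pt} (hz : z ∈ VO) : ∃ i, z ∈ VV i := by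
  rcases hz with h | h
  · exact ⟨_, interior_subset h⟩
  · exact ⟨_, interior_subset h⟩

theorem b16_cd {g : Pt → Pt} (hg : Near g) {z : Pt} (hz : z ∈ VO) : ContDiffAt ℝ ∞ g z := by
  obtain ⟨i, hi⟩ := b16_VO hz
  exact (hg.contDiffAt hi).self_of_nhds

/-- PROOF. Chain rule: fderiv (f ∘ g) z v = fderiv f (g z) (fderiv g z v); the determinant of a product of 2 x 2 matrices (write fderiv g z (1,0) = (a,c) = a • (1,0) + c • (0,1)); `ring`. -/
theorem jac_comp {f g : Pt → Pt} {z : Pt} (hf : DifferentiableAt ℝ f (g z)) (hg : DifferentiableAt ℝ g z) :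
    jac (f ∘ g) z = jac f (g z) * jac g z := by
  have h1 : fderiv ℝ (f ∘ g) z = (fderiv ℝ f (g z)).comp (fderiv ℝ g z) := fderiv_comp z hf hg
  unfold jac
  rw [h1]
  simp only [ContinuousLinearMap.comp_apply]
  rw [b16_lin (fderiv ℝ f (g z)) (fderiv ℝ g z (1, 0)), b16_lin (fderiv ℝ f (g z)) (fderiv ℝ g z (0, 1))]
  simp only [Prod.fst_add, Prod.snd_add, Prod.smul_fst, Prod.smul_snd, smul_eq_mul]
  ring

theorem jac_congr {f g : Pt → Pt} {z : Pt} (h : f =ᶠ[𝓝 z] g) : jac f z = jac g z := by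
  unfold jac
  rw [h.fderiv_eq]

/-- PROOF. `ContDiffAt.fderiv_right`, continuity of evaluation. -/
theorem jac_continuousAt {f : Pt → Pt} {z : Pt} (h : ContDiffAt ℝ ∞ f z) : ContinuousAt (jac f) z := by
  have h1 : ContinuousAt (fderiv ℝ f) z :=
    (h.fderiv_right (m := 0) (by norm_num)).continuousAt
  have h2 : ∀ v : Pt, ContinuousAt (fun w => fderiv ℝ f w v) z :=
    fun v => h1.clm_apply continuousAt_const
  unfold jac
  exact ((h2 _).fst.mul (h2 _).snd).sub ((h2 _).snd.mul (h2 _).fst)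

theorem isOpen_VO : IsOpen VO := by
  exact isOpen_interior.union isOpen_interior

/-- PROOF. Induction on n (`Function.iterate_succ'`: g^[n+1] = g ∘ g^[n]).  For w near z: g^[j] w ∈ VO for j < n+1 (g^[n] is continuous at z, VO is open), g^[n] is smooth at w and g is smooth at
g^[n] w ∈ VO (`Near.contDiffAt`). -/
theorem Near.iter {g : Pt → Pt} (hg : Near g) (n : ℕ) {z : Pt} (hz : ∀ j < n, g^[j] z ∈ VO) :
    ∀ᶠ w in 𝓝 z, ContDiffAt ℝ ∞ (g^[n]) w ∧ ∀ j < n, g^[j] w ∈ VO := by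
  induction n with
  | zero =>
    refine Eventually.of_forall fun w => ⟨?_, fun j hj => absurd hj (Nat.not_lt_zero j)⟩
    exact contDiffAt_id
  | succ n ih =>
    have ih' := ih fun j hj => hz j (hj.trans (Nat.lt_succ_self n))
    have hc : ContinuousAt (g^[n]) z := ih'.self_of_nhds.1.continuousAt
    have hV : ∀ᶠ w in 𝓝 z, g^[n] w ∈ VO :=
      hc.eventually_mem (isOpen_VO.mem_nhds (hz n (Nat.lt_succ_self n)))
    filter_upwards [ih', hV] with w hw hw'
    refine ⟨?_, fun j hj => ?_⟩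
    · rw [Function.iterate_succ']
      exact (b16_cd hg hw').comp w hw.1
    · rcases Nat.lt_succ_iff_lt_or_eq.1 hj with h | rfl
      · exact hw.2 j h
      · exact hw'

/-- PROOF. Induction on n, `jac_comp`, `Near.jac_pos`. -/
theorem Near.jac_iter_pos {g : Pt → Pt} (hg : Near g) (n : ℕ) {z : Pt} (hz : ∀ j < n, g^[j] z ∈ VO) :
    0 < jac (g^[n]) z := by
  induction n with
  | zero =>
    simp only [Function.iterate_zero, jac]
    rw [fderiv_id]
    simp
  | succ n ih =>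
    have hz' : ∀ j < n, g^[j] z ∈ VO := fun j hj => hz j (hj.trans (Nat.lt_succ_self n))
    have h1 := (hg.iter n hz').self_of_nhds.1
    have h2 := hz n (Nat.lt_succ_self n)
    obtain ⟨i, hi⟩ := b16_VO h2
    rw [Function.iterate_succ', jac_comp ((b16_cd hg h2).differentiableAt (by simp))
      (h1.differentiableAt (by simp))]
    exact mul_pos (hg.jac_pos hi) (ih hz')

/-- PROOF. ‖w‖ = |w.1|.  `Near.deriv_apply`: |(Dg w).1| ≥ |w.1| / pw - 2 e0 |w.1| ≥ (5/4 - 2 e0) |w.1|; |(Dg w).2| ≤ qw |w.1|/2 + 2 e0 |w.1| ≤ (1/4 + 2 e0) |w.1| ≤ |(Dg w).1| / 2. -/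
theorem cone_map {g : Pt → Pt} (hg : Near g) {i : Sy} {z : Pt} (hz : z ∈ VV i) {w : Pt} (hw : |w.2| ≤ |w.1| / 2) :
    |(fderiv ℝ g z w).2| ≤ |(fderiv ℝ g z w).1| / 2 ∧ 6 / 5 * |w.1| ≤ |(fderiv ℝ g z w).1| := by
  have hn : ‖w‖ = |w.1| := by
    rw [Prod.norm_def, Real.norm_eq_abs, Real.norm_eq_abs]
    apply max_eq_left
    linarith [abs_nonneg w.1]
  obtain ⟨h1, h2⟩ := hg.deriv_apply hz w
  rw [hn] at h1 h2
  have hw0 := abs_nonneg w.1
  have hp : 0 < pw i ∧ pw i ≤ 4 / 5 := by cases i <;> norm_num [pw]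
  have hq : 0 < qw i ∧ qw i ≤ 1 / 2 := by cases i <;> norm_num [qw]
  have h3 : 5 / 4 * |w.1| ≤ |w.1 / pw i| := by
    rw [abs_div, abs_of_pos hp.1, le_div_iff₀ hp.1]
    nlinarith
  have h4 : |qw i * w.2| ≤ 1 / 4 * |w.1| := by
    rw [abs_mul, abs_of_pos hq.1]
    nlinarith [abs_nonneg w.2]
  have h5 := abs_sub_abs_le_abs_sub (w.1 / pw i) (fderiv ℝ g z w).1
  rw [abs_sub_comm] at h5
  have h6 := abs_sub_abs_le_abs_sub (fderiv ℝ g z w).2 (qw i * w.2)
  simp only [e0] at h1 h2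
  constructor <;> linarith

/-- PROOF. Induction on n: fderiv (g^[n+1]) z w = fderiv g (g^[n] z) (fderiv (g^[n]) z w) (chain rule), `cone_map`. -/
theorem cone_iter {g : Pt → Pt} (hg : Near g) (n : ℕ) {z : Pt} (hz : ∀ j < n, g^[j] z ∈ VO) {w : Pt}
    (hw : |w.2| ≤ |w.1| / 2) :
    |(fderiv ℝ (g^[n]) z w).2| ≤ |(fderiv ℝ (g^[n]) z w).1| / 2 ∧
      (6 / 5) ^ n * |w.1| ≤ |(fderiv ℝ (g^[n]) z w).1| := by
  induction n with
  | zero =>
    simp only [Function.iterate_zero]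
    rw [fderiv_id]
    simpa using hw
  | succ n ih =>
    have hz' : ∀ j < n, g^[j] z ∈ VO := fun j hj => hz j (hj.trans (Nat.lt_succ_self n))
    have h1 := (hg.iter n hz').self_of_nhds.1
    have h2 := hz n (Nat.lt_succ_self n)
    obtain ⟨i, hi⟩ := b16_VO h2
    obtain ⟨a, b⟩ := ih hz'
    have h3 : fderiv ℝ (g^[n + 1]) z w = fderiv ℝ g (g^[n] z) (fderiv ℝ (g^[n]) z w) := by
      rw [Function.iterate_succ', fderiv_comp z ((b16_cd hg h2).differentiableAt (by simp))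
        (h1.differentiableAt (by simp))]
      rfl
    rw [h3]
    obtain ⟨c, d⟩ := cone_map hg hi a
    refine ⟨c, le_trans ?_ d⟩
    rw [pow_succ]
    nlinarith

end Pool.Agent.Lib.H37N
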