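import Pool.Agent.Lib.H37N.CDefs
import Pool.Agent.Lib.H37N.B01
import Pool.Agent.Lib.H37N.B10
import Pool.Agent.Lib.H37N.B16

/-!
# H37N C01 (size M): iterates along orbits in `Om`
-/

open Set Filter Topology Asymptotics
open scoped ContDiff

namespace Pool.Agent.Lib.H37N

variable {g : Pt → Pt}

/-- Proof: the first coordinates: `0.8 + del < xc - u0`, `xc + u0 < 0.801 - del`. -/
theorem VV_FF_disjoint : Disjoint (VV Sy.P ∪ VV Sy.Q) FF := by
  rw [Set.disjoint_left]
  intro z hz hF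
  simp only [FF, mem_prod, mem_Icc] at hF
  obtain ⟨⟨h1, h2⟩, -⟩ := hF
  rcases hz with hz | hz
  · rw [mem_VV] at hz
    obtain ⟨⟨h3, h4⟩, -⟩ := hz
    simp only [al, pw, del, xc, u0] at *
    linarith
  · rw [mem_VV] at hz
    obtain ⟨⟨h3, h4⟩, -⟩ := hz
    simp only [al, pw, del, xc, u0] at *
    linarith

theorem Om_sub : Om ⊆ VV Sy.P ∪ VV Sy.Q ∪ FF :=
  union_subset_union (union_subset_union interior_subset interior_subset) interior_subset

theorem isOpen_Om : IsOpen Om :=
  (isOpen_interior.union isOpen_interior).union isOpen_interior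

/-- Proof. `Om ⊆ O` (`h.smooth`), `O` open. -/
theorem Near.contDiffAt_Om (h : Near g) {z : Pt} (hz : z ∈ Om) : ∀ᶠ w in 𝓝 z, ContDiffAt ℝ ∞ g w := by
  obtain ⟨O, hO, hsub, hs, -, -⟩ := h.smooth
  filter_upwards [hO.mem_nhds (hsub (Om_sub hz))] with w hw
  exact hs.contDiffAt (hO.mem_nhds hw)

theorem Near.jac_pos_Om (h : Near g) {z : Pt} (hz : z ∈ Om) : 0 < jac g z := by
  obtain ⟨O, hO, hsub, hs, -, hj⟩ := h.smooth
  exact hj z (hsub (Om_sub hz))

/-- Proof. Induction on `n` (`Function.iterate_succ'`), as `Near.iter` (B16) with `Om` instead of `VO`. -/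
theorem Near.iter_Om (h : Near g) (n : ℕ) {z : Pt} (hz : ∀ j < n, g^[j] z ∈ Om) :
    ∀ᶠ w in 𝓝 z, ContDiffAt ℝ ∞ (g^[n]) w ∧ ∀ j < n, g^[j] w ∈ Om := by
  induction n with
  | zero =>
    refine Eventually.of_forall fun w => ⟨?_, fun j hj => absurd hj (Nat.not_lt_zero j)⟩
    exact contDiffAt_id
  | succ n ih =>
    have ih' := ih fun j hj => hz j (hj.trans (Nat.lt_succ_self n))
    have hc : ContinuousAt (g^[n]) z := ih'.self_of_nhds.1.continuousAt
    have hV : ∀ᶠ w in 𝓝 z, g^[n] w ∈ Om :=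
      hc.eventually_mem (isOpen_Om.mem_nhds (hz n (Nat.lt_succ_self n)))
    filter_upwards [ih', hV] with w hw hw'
    refine ⟨?_, fun j hj => ?_⟩
    · rw [Function.iterate_succ']
      exact (h.contDiffAt_Om hw').self_of_nhds.comp w hw.1
    · rcases Nat.lt_succ_iff_lt_or_eq.1 hj with h' | rfl
      · exact hw.2 j h'
      · exact hw'

/-- Proof. Induction on `n`, `jac_comp` (B16). -/
theorem Near.jac_iter_Om (h : Near g) (n : ℕ) {z : Pt} (hz : ∀ j < n, g^[j] z ∈ Om) :
    0 < jac (g^[n]) z := by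
  induction n with
  | zero =>
    simp only [Function.iterate_zero, jac]
    rw [fderiv_id]
    simp
  | succ n ih =>
    have hz' : ∀ j < n, g^[j] z ∈ Om := fun j hj => hz j (hj.trans (Nat.lt_succ_self n))
    have h1 := (h.iter_Om n hz').self_of_nhds.1
    have h2 := hz n (Nat.lt_succ_self n)
    rw [Function.iterate_succ', jac_comp ((h.contDiffAt_Om h2).self_of_nhds.differentiableAt
      (by simp)) (h1.differentiableAt (by simp))]
    exact mul_pos (h.jac_pos_Om h2) (ih hz')

end Pool.Agent.Lib.H37N
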