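import Pool.Agent.Lib.H37N.ADefs

/-!
# H37N A02 (size M): the cross system of a near map: existence, uniqueness, values
-/

open Set Filter Topology
open scoped ContDiff

namespace Pool.Agent.Lib.H37N

variable {g : Pt → Pt}

theorem a02_pw (i : Sy) : 0 < pw i ∧ pw i ≤ 4 / 5 := by
  cases i <;> norm_num [pw]

theorem a02_qw (i : Sy) : 0 < qw i ∧ qw i ≤ 1 / 2 := by
  cases i <;> norm_num [qw]

theorem a02_inv (i : Sy) : 0 < 1 / pw i - e0 := by
  cases i <;> norm_num [pw, e0]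

theorem a02_fd (h : Near g) (i : Sy) {z : Pt} (hz : z ∈ VV i) : HasFDerivAt g (fderiv ℝ g z) z := by
  obtain ⟨O, hO, hsub, hc, -, -⟩ := h.smooth
  have hzO : z ∈ O := by
    cases i
    · exact hsub (Or.inl (Or.inl hz))
    · exact hsub (Or.inl (Or.inr hz))
  have h1 : ContDiffAt ℝ ∞ g z := hc.contDiffAt (hO.mem_nhds hzO)
  exact (h1.differentiableAt (by simp)).hasFDerivAt

theorem a02_der (h : Near g) (i : Sy) {x y : ℝ} (hz : (x, y) ∈ VV i) :
    HasDerivAt (fun x => (g (x, y)).1) (fderiv ℝ g (x, y) (1, 0)).1 x := by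
  have h1 : HasDerivAt (fun x : ℝ => ((x, y) : Pt)) ((1, 0) : Pt) x :=
    (hasDerivAt_id x).prodMk (hasDerivAt_const x y)
  have h2 : HasDerivAt (fun x : ℝ => g (x, y)) (fderiv ℝ g (x, y) (1, 0)) x :=
    (a02_fd h i hz).comp_hasDerivAt x h1
  exact (hasFDerivAt_fst (𝕜 := ℝ) (E := ℝ) (F := ℝ) (p := g (x, y))).comp_hasDerivAt x h2

theorem a02_mem {i : Sy} {x0 x1 y x : ℝ} (h0 : (x0, y) ∈ VV i) (h1 : (x1, y) ∈ VV i) (hx : x ∈ Icc x0 x1) :
    (x, y) ∈ VV i :=
  ⟨⟨h0.1.1.trans hx.1, hx.2.trans h1.1.2⟩, h0.2⟩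

/-- the first component is strictly increasing along horizontal segments of `VV i`: for `(x0, y), (x1, y) ∈ VV i`
with `x0 ≤ x1`: `(1 / pw i - e0) (x1 - x0) ≤ g_1(x1,y) - g_1(x0,y)`.
Proof. `φ x = (g (x, y)).1` has derivative `(fderiv ℝ g (x, y) (1, 0)).1 ≥ 1 / pw i - e0` at every point of
`[x0, x1]` (chain rule; `g` is differentiable on the open `O ⊇ VV i`, `h.smooth`, `h.close1`); mean value theorem
(`Convex.mul_sub_le_image_sub_of_le_deriv` or `exists_deriv_eq_slope`). -/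
theorem g1_mono (h : Near g) (i : Sy) {x0 x1 y : ℝ} (h0 : (x0, y) ∈ VV i) (h1 : (x1, y) ∈ VV i)
    (hx : x0 ≤ x1) : (1 / pw i - e0) * (x1 - x0) ≤ (g (x1, y)).1 - (g (x0, y)).1 := by
  have hD : ∀ x ∈ Icc x0 x1, HasDerivAt (fun x => (g (x, y)).1) (fderiv ℝ g (x, y) (1, 0)).1 x :=
    fun x hx => a02_der h i (a02_mem h0 h1 hx)
  refine (convex_Icc x0 x1).mul_sub_le_image_sub_of_le_deriv (f := fun x => (g (x, y)).1)
    (fun x hx => (hD x hx).continuousAt.continuousWithinAt)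
    (fun x hx => (hD x (interior_subset hx)).differentiableAt.differentiableWithinAt) ?_
    x0 ⟨le_rfl, hx⟩ x1 ⟨hx, le_rfl⟩ hx
  intro x hx
  rw [(hD x (interior_subset hx)).deriv]
  have := (h.close1 i (x, y) (a02_mem h0 h1 (interior_subset hx))).1
  linarith [(abs_le.mp this).1]

/-- Proof. `y = z.2 ∈ II`, `x' = z.1 ∈ II`. `φ x = (g (x, y)).1` is continuous on `[al i - del, al i + pw i + del]`. At the
left end `φ ≤ -del / pw i + e0 < -del ≤ x'` (`h.close0`, `Aff`; `del / pw i ≥ 1.25 del` and `e0 < del / 4`), at the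
right end `φ ≥ 1 + del / pw i - e0 > 1 + del ≥ x'`. Intermediate value theorem: some `x` with `φ x = x'`, so
`Classical.epsilon_spec` gives the claim for `XX g i z`. -/
theorem XX_spec (h : Near g) (i : Sy) {z : Pt} (hz : z ∈ NN) :
    (XX g i z, z.2) ∈ VV i ∧ (g (XX g i z, z.2)).1 = z.1 := by
  obtain ⟨hz1, hz2⟩ := mem_NN.mp hz
  have hp := a02_pw i
  have hle : al i - del ≤ al i + pw i + del := by
    have : 0 < del := by norm_num [del]
    linarith
  have hL : (al i - del, z.2) ∈ VV i := ⟨⟨le_rfl, hle⟩, hz2⟩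
  have hR : (al i + pw i + del, z.2) ∈ VV i := ⟨⟨hle, le_rfl⟩, hz2⟩
  have hcont : ContinuousOn (fun x => (g (x, z.2)).1) (Icc (al i - del) (al i + pw i + del)) :=
    fun x hx => (a02_der h i (a02_mem hL hR hx)).continuousAt.continuousWithinAt
  have h1 : (g (al i - del, z.2)).1 ≤ z.1 := by
    have := (h.close0 i _ hL).1
    have h2 : (Aff i (al i - del, z.2)).1 = -del / pw i := by
      simp only [Aff]; congr 1; ring
    rw [h2] at this
    have h3 := (abs_le.mp this).2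
    have h4 : -del / pw i + e0 ≤ -del := by
      cases i <;> norm_num [del, pw, e0]
    linarith [hz1.1]
  have h1' : z.1 ≤ (g (al i + pw i + del, z.2)).1 := by
    have := (h.close0 i _ hR).1
    have h2 : (Aff i (al i + pw i + del, z.2)).1 = (pw i + del) / pw i := by
      simp only [Aff]; congr 1; ring
    rw [h2] at this
    have h3 := (abs_le.mp this).1
    have h4 : 1 + del ≤ (pw i + del) / pw i - e0 := by
      cases i <;> norm_num [del, pw, e0]
    linarith [hz1.2]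
  obtain ⟨x, hx, hxe⟩ := intermediate_value_Icc hle hcont ⟨h1, h1'⟩
  have hex : ∃ x, (x, z.2) ∈ VV i ∧ (g (x, z.2)).1 = z.1 := ⟨x, a02_mem hL hR hx, hxe⟩
  have := Classical.epsilon_spec (p := fun x => (x, z.2) ∈ VV i ∧ (g (x, z.2)).1 = z.1) hex
  unfold XX
  rw [if_pos hz]
  exact this

/-- Proof. Strict monotonicity (`g1_mono`, `1 / pw i - e0 > 0`). -/
theorem XX_unique (h : Near g) (i : Sy) {z : Pt} (hz : z ∈ NN) {x : ℝ} (hx : (x, z.2) ∈ VV i)
    (hgx : (g (x, z.2)).1 = z.1) : x = XX g i z := by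
  obtain ⟨h1, h2⟩ := XX_spec h i hz
  have hi := a02_inv i
  rcases le_total x (XX g i z) with hle | hle
  · have h3 := g1_mono h i hx h1 hle
    rw [h2, hgx, sub_self] at h3
    have : XX g i z - x ≤ 0 := by
      by_contra hc
      push Not at hc
      linarith [mul_pos hi hc]
    linarith
  · have h3 := g1_mono h i h1 hx hle
    rw [h2, hgx, sub_self] at h3
    have : x - XX g i z ≤ 0 := by
      by_contra hc
      push Not at hc
      linarith [mul_pos hi hc]
    linarith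

/-- Proof. `|z.1 - (XX - al i) / pw i| = |g_1 - Aff_1| ≤ e0` (`h.close0` at the point of `XX_spec`); multiply by
`pw i ≤ 1`. -/
theorem XX_val (h : Near g) (i : Sy) {z : Pt} (hz : z ∈ NN) :
    |XX g i z - (al i + pw i * z.1)| ≤ e0 := by
  obtain ⟨h1, h2⟩ := XX_spec h i hz
  have h3 := (h.close0 i _ h1).1
  rw [h2] at h3
  simp only [Aff] at h3
  have hp := a02_pw i
  have e : XX g i z - (al i + pw i * z.1) = -(pw i * (z.1 - (XX g i z - al i) / pw i)) := by
    have := hp.1.ne'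
    field_simp
    ring
  rw [e, abs_neg, abs_mul, abs_of_pos hp.1]
  calc pw i * |z.1 - (XX g i z - al i) / pw i| ≤ 1 * e0 :=
        mul_le_mul (by linarith [hp.2]) h3 (abs_nonneg _) zero_le_one
    _ = e0 := one_mul _

/-- Proof. `h.close0` at the point of `XX_spec`, second component. -/
theorem YY_val (h : Near g) (i : Sy) {z : Pt} (hz : z ∈ NN) :
    |YY g i z - (be i + qw i * z.2)| ≤ e0 := by
  obtain ⟨h1, h2⟩ := XX_spec h i hz
  have h3 := (h.close0 i _ h1).2
  simp only [Aff] at h3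
  unfold YY
  rw [if_pos hz]
  exact h3

/-- the values are interior. Proof. From `XX_val` and `z.1 ∈ II`: `al i + pw i * z.1 ≥ al i - pw i * del`,
`pw i * del + e0 < del` (as `pw i ≤ 4/5`), similarly on the right: `al i + pw i * z.1 ≤ al i + pw i + pw i * del`. -/
theorem XX_int (h : Near g) (i : Sy) {z : Pt} (hz : z ∈ NN) :
    XX g i z ∈ Ioo (al i - del) (al i + pw i + del) := by
  have h1 := abs_le.mp (XX_val h i hz)
  obtain ⟨hz1, -⟩ := mem_NN.mp hz
  have hp := a02_pw i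
  have h2 : pw i * (-del) ≤ pw i * z.1 := mul_le_mul_of_nonneg_left hz1.1 hp.1.le
  have h3 : pw i * z.1 ≤ pw i * (1 + del) := mul_le_mul_of_nonneg_left hz1.2 hp.1.le
  have h4 : pw i * del + e0 < del := by
    cases i <;> norm_num [del, pw, e0]
  constructor <;> linarith [h1.1, h1.2]

/-- Proof. From `YY_val`, `z.2 ∈ II`: `be i + qw i * z.2` lies in `[-qw i * del, 1 + qw i * del]` (for `Q`:
`be Q + qw Q = 1`), and `qw i * del + e0 < del`. -/
theorem YY_int (h : Near g) (i : Sy) {z : Pt} (hz : z ∈ NN) :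
    YY g i z ∈ Ioo (-del) (1 + del) := by
  have h1 := abs_le.mp (YY_val h i hz)
  obtain ⟨-, hz1⟩ := mem_NN.mp hz
  have hp := a02_qw i
  have h2 : qw i * (-del) ≤ qw i * z.2 := mul_le_mul_of_nonneg_left hz1.1 hp.1.le
  have h3 : qw i * z.2 ≤ qw i * (1 + del) := mul_le_mul_of_nonneg_left hz1.2 hp.1.le
  have h4 : qw i * del + e0 < del := by
    cases i <;> norm_num [del, qw, e0]
  have h5 : 0 ≤ be i ∧ be i + qw i ≤ 1 := by
    cases i <;> norm_num [be, qw]
  constructor <;> linarith [h1.1, h1.2, h5.1, h5.2]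

/-- Proof. unfold; `al Q + pw Q = 1`. -/
theorem VV_sub_NN (i : Sy) : VV i ⊆ NN := by
  intro z hz
  obtain ⟨⟨h1, h2⟩, h3⟩ := hz
  have h5 : 0 ≤ al i ∧ al i + pw i ≤ 1 := by
    cases i <;> norm_num [al, pw]
  exact ⟨⟨by linarith [h5.1], by linarith [h5.2]⟩, h3⟩

/-- A point of `VV i` whose image is in `NN` satisfies the cross equations.
Proof. `XX_unique` for `((g z).1, z.2) ∈ NN` (`z.2 ∈ II` since `VV i ⊆ NN`), and the definition of `YY`. -/
theorem cross_of (h : Near g) (i : Sy) {z : Pt} (hz : z ∈ VV i) (hgz : g z ∈ NN) :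
    XX g i ((g z).1, z.2) = z.1 ∧ YY g i ((g z).1, z.2) = (g z).2 := by
  have hz' : ((g z).1, z.2) ∈ NN := mem_NN.mpr ⟨(mem_NN.mp hgz).1, (mem_NN.mp (VV_sub_NN i hz)).2⟩
  have h1 : z.1 = XX g i ((g z).1, z.2) := XX_unique h i hz' (x := z.1) hz rfl
  refine ⟨h1.symm, ?_⟩
  unfold YY
  rw [if_pos hz', ← h1]

/-- Conversely. Proof: `XX_spec`, definition of `YY`. -/
theorem g_cross (h : Near g) (i : Sy) {x' y : ℝ} (hz : (x', y) ∈ NN) :
    g (XX g i (x', y), y) = (x', YY g i (x', y)) := by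
  obtain ⟨h1, h2⟩ := XX_spec h i hz
  refine Prod.ext h2 ?_
  unfold YY
  rw [if_pos hz]

end Pool.Agent.Lib.H37N
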