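import Pool.Agent.Lib.H37N.A03

/-!
# H37N A04 (size M): the cross system of a near map is a `CS`
-/

open Set Filter Topology
open scoped ContDiff

namespace Pool.Agent.Lib.H37N

variable {g : Pt → Pt}

theorem a04_pw (i : Sy) : 0 < pw i ∧ pw i ≤ 4 / 5 ∧ 5 / 4 ≤ 1 / pw i := by
  cases i <;> norm_num [pw]

theorem a04_a {i : Sy} {a : ℝ} (ha : |a - 1 / pw i| ≤ e0) : 12 / 10 ≤ a := by
  have h1 := (a04_pw i).2.2
  have h2 := (abs_le.1 ha).1
  unfold e0 at h2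
  linarith

theorem a04_inv {a : ℝ} (ha : 12 / 10 ≤ a) : 0 < 1 / a ∧ 1 / a ≤ 1 := by
  have h0 : 0 < a := by linarith
  refine ⟨by positivity, ?_⟩
  rw [div_le_one h0]
  linarith

theorem a04_r1 {i : Sy} {a : ℝ} (h : |a - 1 / pw i| ≤ e0) : |1 / a - pw i| ≤ e0 := by
  have ha := a04_a h
  have h0 : 0 < a := by linarith
  obtain ⟨hp0, hp1, -⟩ := a04_pw i
  obtain ⟨hi0, hi1⟩ := a04_inv ha
  have e : 1 / a - pw i = -((1 / a) * pw i * (a - 1 / pw i)) := by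
    field_simp
    ring
  rw [e, abs_neg, abs_mul, abs_of_pos (mul_pos hi0 hp0)]
  have h1 : 1 / a * pw i ≤ 1 * 1 := mul_le_mul hi1 (by linarith) hp0.le (by norm_num)
  have h2 := abs_nonneg (a - 1 / pw i)
  calc 1 / a * pw i * |a - 1 / pw i| ≤ (1 * 1) * |a - 1 / pw i| :=
        mul_le_mul_of_nonneg_right h1 h2
    _ ≤ e0 := by linarith

theorem a04_r2 {a a' t : ℝ} (ha : 12 / 10 ≤ a) (ha' : 12 / 10 ≤ a') (h : |a - a'| ≤ t) :
    |1 / a - 1 / a'| ≤ t := by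
  have h0 : 0 < a := by linarith
  have h0' : 0 < a' := by linarith
  obtain ⟨hi0, hi1⟩ := a04_inv ha
  obtain ⟨hi0', hi1'⟩ := a04_inv ha'
  have e : 1 / a - 1 / a' = -((1 / a) * (1 / a') * (a - a')) := by
    field_simp
    ring
  rw [e, abs_neg, abs_mul, abs_of_pos (mul_pos hi0 hi0')]
  have h1 : 1 / a * (1 / a') ≤ 1 * 1 := mul_le_mul hi1 hi1' hi0'.le (by norm_num)
  have h2 := abs_nonneg (a - a')
  calc 1 / a * (1 / a') * |a - a'| ≤ (1 * 1) * |a - a'| :=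
        mul_le_mul_of_nonneg_right h1 h2
    _ ≤ t := by linarith

theorem a04_r3 {a b t : ℝ} (ha : 12 / 10 ≤ a) (h : |b| ≤ t) : |b * (1 / a)| ≤ t := by
  obtain ⟨hi0, hi1⟩ := a04_inv ha
  rw [abs_mul, abs_of_pos hi0]
  have := mul_le_mul_of_nonneg_left hi1 (abs_nonneg b)
  linarith

theorem a04_r4 {a a' b b' M : ℝ} (hM : 0 ≤ M) (ha : 12 / 10 ≤ a) (ha' : 12 / 10 ≤ a')
    (h : |a - a'| ≤ e0 * M) (hb' : |b'| ≤ e0) (hb : |b - b'| ≤ e0 * M) :
    |b * (1 / a) - b' * (1 / a')| ≤ 2 * e0 * M := by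
  have e : b * (1 / a) - b' * (1 / a') = (b - b') * (1 / a) + b' * (1 / a - 1 / a') := by ring
  have h1 := a04_r3 ha hb
  have h2 := a04_r2 ha ha' h
  have h3 : |b' * (1 / a - 1 / a')| ≤ e0 * (e0 * M) := by
    rw [abs_mul]
    exact mul_le_mul hb' h2 (abs_nonneg _) (by norm_num [e0])
  have h4 := abs_add_le ((b - b') * (1 / a)) (b' * (1 / a - 1 / a'))
  rw [e]
  have h5 : e0 * (e0 * M) ≤ e0 * M := by
    have : 0 ≤ e0 * M := mul_nonneg (by norm_num [e0]) hM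
    have h6 : e0 ≤ 1 := by norm_num [e0]
    nlinarith
  linarith

theorem a04_norm (z w : Pt) : ‖z - w‖ = max |z.1 - w.1| |z.2 - w.2| := by
  rw [Prod.norm_def, Real.norm_eq_abs, Real.norm_eq_abs]
  rfl

theorem a04_M (z0 z1 z2 z3 : Pt) : 0 ≤ max ‖z2 - z0‖ ‖z3 - z1‖ := le_max_of_le_left (norm_nonneg _)

/-- distances do not grow. Proof. `near_mean` for `z0 = (XX g i z, z.2)`, `z1 = (XX g i z', z'.2)` (points of `VV i` by
`XX_spec`, `g_1` there is `z.1`, `z'.1`): `z'.1 - z.1 = a (XX' - XX) + b (z'.2 - z.2)`, `a ≥ 1.2`, `|b| ≤ e0`: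
`|XX' - XX| ≤ (|z'.1 - z.1| + e0 |z'.2 - z.2|) / 1.2 ≤ ‖z' - z‖`; the second component of the difference is
`z'.2 - z.2`. -/
theorem XX_dist (h : Near g) (i : Sy) {z z' : Pt} (hz : z ∈ NN) (hz' : z' ∈ NN) :
    ‖((XX g i z', z'.2) : Pt) - (XX g i z, z.2)‖ ≤ ‖z' - z‖ := by
  obtain ⟨m0, e0'⟩ := XX_spec h i hz
  obtain ⟨m1, e1'⟩ := XX_spec h i hz'
  obtain ⟨a, b, c, d, -, -, -, -, e, -, -, -, ⟨ha, hb, -, -⟩, -, -⟩ := near_mean h i m0 m1 m0 m1
  rw [e0', e1'] at e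
  have ha' := a04_a ha
  rw [a04_norm, a04_norm]
  simp only at e ⊢
  refine max_le ?_ (le_max_right _ _)
  have h1 : |z'.1 - z.1| ≤ max |z'.1 - z.1| |z'.2 - z.2| := le_max_left _ _
  have h2 : |z'.2 - z.2| ≤ max |z'.1 - z.1| |z'.2 - z.2| := le_max_right _ _
  have h3 : 0 ≤ max |z'.1 - z.1| |z'.2 - z.2| := (abs_nonneg _).trans h1
  generalize max |z'.1 - z.1| |z'.2 - z.2| = M at *
  have h4 : a * |XX g i z' - XX g i z| ≤ |z'.1 - z.1| + |b| * |z'.2 - z.2| := by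
    rw [← abs_mul, ← abs_of_nonneg (by linarith : 0 ≤ a), ← abs_mul]
    have e2 : a * (XX g i z' - XX g i z) = (z'.1 - z.1) - b * (z'.2 - z.2) := by
      rw [e]; ring
    rw [e2]
    exact abs_sub _ _
  have h5 : |b| * |z'.2 - z.2| ≤ e0 * M :=
    mul_le_mul hb h2 (abs_nonneg _) (by norm_num [e0])
  have h6 : 12 / 10 * |XX g i z' - XX g i z| ≤ a * |XX g i z' - XX g i z| :=
    mul_le_mul_of_nonneg_right ha' (abs_nonneg _)
  have h7 : e0 * M ≤ 1 / 10 * M := mul_le_mul_of_nonneg_right (by norm_num [e0]) h3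
  linarith

/-- Proof. Given `z0..z3 ∈ NN` put `ζj = (XX g i zj, zj.2) ∈ VV i`, `(g ζj).1 = zj.1`, `(g ζj).2 = YY g i zj`. With the
coefficients of `near_mean` for the `ζj`: `zj`-differences `u = z1.1 - z0.1 = a ξ + b v`, `ξ = ζ1.1 - ζ0.1`,
`v = z1.2 - z0.2`, so `ξ = (1/a) u + (-b/a) v` and `YY z1 - YY z0 = c ξ + d v = (c/a) u + (d - c b / a) v`.
Bounds (`1.2 ≤ a ≤ 5.1`, `|1/a - pw i| = pw i |1/pw i - a| / a ≤ e0`, `|b/a| ≤ e0`, `|c/a| ≤ e0`,
`|d - c b/a - qw i| ≤ e0 + e0^2`), and the differences of the coefficients for the two pairs: with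
`M = max ‖ζ2 - ζ0‖ ‖ζ3 - ζ1‖ ≤ max ‖z2 - z0‖ ‖z3 - z1‖` (`XX_dist`), `|1/a - 1/a'| = |a - a'| / (a a') ≤ e0 M`,
`|b/a - b'/a'| ≤ |b - b'|/a + |b'| |1/a - 1/a'| ≤ 2 e0 M`, `|c b/a - c' b'/a'| ≤ 3 e0 M` and so on: all at most
`5 e0 M ≤ ee M` (`ee = 100 e0`). -/
theorem near_mvX (h : Near g) (i : Sy) : MV (pw i) 0 (XX g i) := by
  intro z0 h0 z1 h1 z2 h2 z3 h3
  obtain ⟨m0, g0⟩ := XX_spec h i h0
  obtain ⟨m1, g1⟩ := XX_spec h i h1
  obtain ⟨m2, g2⟩ := XX_spec h i h2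
  obtain ⟨m3, g3⟩ := XX_spec h i h3
  obtain ⟨a, b, c, d, a', b', c', d', e1, -, e3, -, ⟨ha, hb, -, -⟩, ⟨ha', hb', -, -⟩,
    ⟨haa, hbb, -, -⟩⟩ := near_mean h i m0 m1 m2 m3
  rw [g0, g1] at e1
  rw [g2, g3] at e3
  simp only at e1 e3
  have hM := max_le_max (XX_dist h i h0 h2) (XX_dist h i h1 h3)
  have hM0 := a04_M z0 z1 z2 z3
  have hee : e0 = ee / 100 := by norm_num [e0, ee]
  have hep : 0 < e0 := by norm_num [e0]
  have b1 := a04_a ha
  have b1' := a04_a ha'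
  have p1 : 0 < a := by linarith
  have p1' : 0 < a' := by linarith
  generalize max ‖z2 - z0‖ ‖z3 - z1‖ = M at *
  have haa' := haa.trans (mul_le_mul_of_nonneg_left hM hep.le)
  have hbb' := hbb.trans (mul_le_mul_of_nonneg_left hM hep.le)
  refine ⟨1 / a, -(b * (1 / a)), 1 / a', -(b' * (1 / a')), ?_, ?_, ?_, ?_, ?_, ?_, ?_, ?_⟩
  · rw [e1]; field_simp; ring
  · rw [e3]; field_simp; ring
  · have := a04_r1 ha; rw [hee] at this; linarith [ee_pos]
  · rw [sub_zero, abs_neg]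
    have := a04_r3 b1 hb; rw [hee] at this; linarith [ee_pos]
  · have := a04_r1 ha'; rw [hee] at this; linarith [ee_pos]
  · rw [sub_zero, abs_neg]
    have := a04_r3 b1' hb'; rw [hee] at this; linarith [ee_pos]
  · refine (a04_r2 b1 b1' haa').trans (mul_le_mul_of_nonneg_right ?_ hM0)
    norm_num [e0, ee]
  · have e : -(b * (1 / a)) - -(b' * (1 / a')) = -(b * (1 / a) - b' * (1 / a')) := by ring
    rw [e, abs_neg]
    refine (a04_r4 hM0 b1 b1' haa' hb' hbb').trans (mul_le_mul_of_nonneg_right ?_ hM0)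
    norm_num [e0, ee]

theorem a04_YY {i : Sy} {z : Pt} (hz : z ∈ NN) : YY g i z = (g (XX g i z, z.2)).2 := if_pos hz

/-- Proof: see `near_mvX`. -/
theorem near_mvY (h : Near g) (i : Sy) : MV 0 (qw i) (YY g i) := by
  intro z0 h0 z1 h1 z2 h2 z3 h3
  obtain ⟨m0, g0⟩ := XX_spec h i h0
  obtain ⟨m1, g1⟩ := XX_spec h i h1
  obtain ⟨m2, g2⟩ := XX_spec h i h2
  obtain ⟨m3, g3⟩ := XX_spec h i h3
  obtain ⟨a, b, c, d, a', b', c', d', e1, f1, e3, f3, ⟨ha, hb, hc, hd⟩, ⟨ha', hb', hc', hd'⟩,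
    ⟨haa, hbb, hcc, hdd⟩⟩ := near_mean h i m0 m1 m2 m3
  rw [g0, g1] at e1
  rw [g2, g3] at e3
  rw [← a04_YY h0, ← a04_YY h1] at f1
  rw [← a04_YY h2, ← a04_YY h3] at f3
  simp only at e1 e3 f1 f3
  have hM := max_le_max (XX_dist h i h0 h2) (XX_dist h i h1 h3)
  have hM0 := a04_M z0 z1 z2 z3
  have hep : 0 < e0 := by norm_num [e0]
  have b1 := a04_a ha
  have b1' := a04_a ha'
  have p1 : 0 < a := by linarith
  have p1' : 0 < a' := by linarith
  generalize max ‖z2 - z0‖ ‖z3 - z1‖ = M at *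
  have haa' := haa.trans (mul_le_mul_of_nonneg_left hM hep.le)
  have hbb' := hbb.trans (mul_le_mul_of_nonneg_left hM hep.le)
  have hcc' := hcc.trans (mul_le_mul_of_nonneg_left hM hep.le)
  have hdd' := hdd.trans (mul_le_mul_of_nonneg_left hM hep.le)
  have k1 := a04_r3 b1 hc
  have k1' := a04_r3 b1' hc'
  have k2 := a04_r4 hM0 b1 b1' haa' hc' hcc'
  have k3 : |c * (1 / a) * b| ≤ e0 * e0 := by
    rw [abs_mul]; exact mul_le_mul k1 hb (abs_nonneg _) hep.le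
  have k3' : |c' * (1 / a') * b'| ≤ e0 * e0 := by
    rw [abs_mul]; exact mul_le_mul k1' hb' (abs_nonneg _) hep.le
  have k4 : |c * (1 / a) * b - c' * (1 / a') * b'| ≤ (2 * e0 * M) * e0 + e0 * (e0 * M) := by
    have e : c * (1 / a) * b - c' * (1 / a') * b' =
        (c * (1 / a) - c' * (1 / a')) * b + c' * (1 / a') * (b - b') := by ring
    rw [e]
    refine (abs_add_le _ _).trans (add_le_add ?_ ?_)
    · rw [abs_mul]
      exact mul_le_mul k2 hb (abs_nonneg _) (by positivity)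
    · rw [abs_mul]
      exact mul_le_mul k1' hbb' (abs_nonneg _) hep.le
  have hee : ee = 100 * e0 := by norm_num [e0, ee]
  refine ⟨c * (1 / a), d - c * (1 / a) * b, c' * (1 / a'), d' - c' * (1 / a') * b',
    ?_, ?_, ?_, ?_, ?_, ?_, ?_, ?_⟩
  · rw [f1, e1]; field_simp; ring
  · rw [f3, e3]; field_simp; ring
  · rw [sub_zero]
    rw [hee]; linarith
  · have e : d - c * (1 / a) * b - qw i = (d - qw i) - c * (1 / a) * b := by ring
    rw [e]
    refine (abs_sub _ _).trans ?_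
    have : e0 * e0 ≤ e0 := by norm_num [e0]
    rw [hee]; linarith
  · rw [sub_zero]
    rw [hee]; linarith
  · have e : d' - c' * (1 / a') * b' - qw i = (d' - qw i) - c' * (1 / a') * b' := by ring
    rw [e]
    refine (abs_sub _ _).trans ?_
    have : e0 * e0 ≤ e0 := by norm_num [e0]
    rw [hee]; linarith
  · refine k2.trans (mul_le_mul_of_nonneg_right ?_ hM0)
    norm_num [e0, ee]
  · have e : d - c * (1 / a) * b - (d' - c' * (1 / a') * b') =
        (d - d') - (c * (1 / a) * b - c' * (1 / a') * b') := by ring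
    rw [e]
    refine (abs_sub _ _).trans ((add_le_add hdd' k4).trans ?_)
    have e' : e0 * M + (2 * e0 * M * e0 + e0 * (e0 * M)) = (e0 + 3 * e0 * e0) * M := by ring
    rw [e']
    refine mul_le_mul_of_nonneg_right ?_ hM0
    norm_num [e0, ee]

/-- Proof. `p0`, `q0`, `psum`, `qsum`: numbers. `X0`, `Y0`: `XX_val`, `YY_val`, `off_pw`, `off_qw`, `e0 ≤ ee`. -/
theorem Near.cs (h : Near g) : CS pw qw (XX g) (YY g) where
  p0 := fun i => by cases i <;> norm_num [pw]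
  q0 := fun i => by cases i <;> norm_num [qw]
  psum := by norm_num [pw, gam]
  qsum := by norm_num [qw, gam]
  X0 := fun i z hz => by
    rw [off_pw]
    exact (XX_val h i hz).trans (by norm_num [e0, ee])
  Y0 := fun i z hz => by
    rw [off_qw]
    exact (YY_val h i hz).trans (by norm_num [e0, ee])
  mvX := near_mvX h
  mvY := near_mvY h


end Pool.Agent.Lib.H37N
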