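import Mathlib

/-! # H37N, chunk T3 (S/M): cut-off functions and localisation -/

open Set Filter Topology Asymptotics
open scoped ContDiff

namespace Pool.Agent.Lib.H37N

variable {P E W : Type} [NormedAddCommGroup P] [NormedSpace ℝ P] [FiniteDimensional ℝ P]
  [NormedAddCommGroup E] [NormedSpace ℝ E] [FiniteDimensional ℝ E]
  [NormedAddCommGroup W] [NormedSpace ℝ W] [CompleteSpace W]

omit [CompleteSpace W] in
/-- Cut-off function of a compact set in an open set.

PROOF. Mathlib: `exists_contDiff_tsupport_subset` at every point x of C gives f_x with f_x(x) = 1, tsupport in O, compact support, range in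
[0,1]; finitely many sets {f_x > 1/2} cover C; Φ := Σ f_x has Φ > 1/2 on a neighbourhood of C; χ := τ(Φ) with a smooth τ : ℝ → [0,1], τ = 0 for
t ≤ 0 and τ(t) = 1 for t ≥ 1/2 (`Real.smoothTransition (2 t)`).  tsupport χ ⊆ ∪ tsupport f_x.
(Alternatively `exists_contMDiff_...` of `Mathlib/Geometry/Manifold/PartitionOfUnity` with an intermediate compact set,
`exists_compact_between`, and `contMDiff_iff_contDiff`.) -/
theorem exists_cutoff {C O : Set E} (hC : IsCompact C) (hO : IsOpen O) (h : C ⊆ O) :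
    ∃ χ : E → ℝ, ContDiff ℝ ∞ χ ∧ HasCompactSupport χ ∧ tsupport χ ⊆ O ∧ (∀ x, χ x ∈ Icc (0 : ℝ) 1) ∧
      ∀ᶠ x in 𝓝ˢ C, χ x = 1 := by
  obtain ⟨L, hL, hCL, hLO⟩ := exists_compact_between hC hO h
  obtain ⟨f, h1, h0, h01⟩ := exists_contMDiffMap_one_nhds_of_subset_interior (n := ⊤)
    (modelWithCornersSelf ℝ E) hC.isClosed hCL
  have hsupp : Function.support f ⊆ L := fun x hx => by
    by_contra hxL
    exact hx (h0 x hxL)
  refine ⟨f, f.contMDiff.contDiff, HasCompactSupport.intro hL h0, ?_, h01, h1⟩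
  exact (closure_minimal hsupp hL.isClosed).trans hLO

omit [CompleteSpace W] in
/-- T3. Localisation.

PROOF. g := χ • f with χ from `exists_cutoff`: smooth at the points of O (`ContDiffOn` on an open set) and zero near the points outside tsupport χ
(closed): `contDiff_iff_contDiffAt`.  (The lemma `contDiff_of_tsupport` may help.) -/
theorem localise {C O : Set E} (hC : IsCompact C) (hO : IsOpen O) (h : C ⊆ O) {f : E → W} (hf : ContDiffOn ℝ ∞ f O) :
    ∃ g : E → W, ContDiff ℝ ∞ g ∧ HasCompactSupport g ∧ tsupport g ⊆ O ∧ ∀ᶠ x in 𝓝ˢ C, g x = f x := by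
  obtain ⟨χ, hχ, hcs, hts, -, h1⟩ := exists_cutoff hC hO h
  refine ⟨fun x => χ x • f x, ?_, hcs.smul_right, (tsupport_smul_subset_left χ f).trans hts, ?_⟩
  · rw [contDiff_iff_contDiffAt]
    intro x
    by_cases hx : x ∈ O
    · exact hχ.contDiffAt.smul (hf.contDiffAt (hO.mem_nhds hx))
    · have hx' : x ∉ tsupport χ := fun h' => hx (hts h')
      have h0 : χ =ᶠ[𝓝 x] 0 := notMem_tsupport_iff_eventuallyEq.1 hx'
      have h2 : (fun x => χ x • f x) =ᶠ[𝓝 x] fun _ => (0 : W) := by
        filter_upwards [h0] with y hy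
        simp [hy]
      exact contDiffAt_const.congr_of_eventuallyEq h2
  · filter_upwards [h1] with x hx
    simp [hx]

omit [CompleteSpace W] in
/-- T3 at a point.

PROOF. `localise` with C = {x₀} and O = interior {x | ContDiffAt ℝ ∞ f x} (`nhdsSet_singleton`). -/
theorem localise_at {x₀ : E} {f : E → W} (hf : ∀ᶠ x in 𝓝 x₀, ContDiffAt ℝ ∞ f x) :
    ∃ g : E → W, ContDiff ℝ ∞ g ∧ g =ᶠ[𝓝 x₀] f := by
  have hx : x₀ ∈ interior {x | ContDiffAt ℝ ∞ f x} := mem_interior_iff_mem_nhds.2 hf
  obtain ⟨g, hg, -, -, h1⟩ := localise (f := f) (isCompact_singleton (x := x₀))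
    isOpen_interior (singleton_subset_iff.2 hx)
    (fun x hx => by
      have h' : ContDiffAt ℝ ∞ f x := by simpa using interior_subset hx
      exact h'.contDiffWithinAt)
  rw [nhdsSet_singleton] at h1
  exact ⟨g, hg, h1⟩

end Pool.Agent.Lib.H37N
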