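import Pool.Agent.Lib.H37N.T5a

/-! # H37N, chunk T5b (S/M): O-calculus: vanishing jets -/

open Set Filter Topology Asymptotics
open scoped ContDiff

namespace Pool.Agent.Lib.H37N

variable {P E W : Type} [NormedAddCommGroup P] [NormedSpace ℝ P] [FiniteDimensional ℝ P]
  [NormedAddCommGroup E] [NormedSpace ℝ E] [FiniteDimensional ℝ E]
  [NormedAddCommGroup W] [NormedSpace ℝ W] [CompleteSpace W]

theorem t5b_zero {E W : Type} [NormedAddCommGroup E] [NormedSpace ℝ E]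
    [NormedAddCommGroup W] [NormedSpace ℝ W] (f : E → W) (x : E) :
    iteratedFDeriv ℝ 0 f x = 0 ↔ f x = 0 := by
  rw [← norm_eq_zero, norm_iteratedFDeriv_zero, norm_eq_zero]

theorem t5b_succ {E W : Type} [NormedAddCommGroup E] [NormedSpace ℝ E]
    [NormedAddCommGroup W] [NormedSpace ℝ W] (f : E → W) (x : E) (j : ℕ) :
    iteratedFDeriv ℝ (j + 1) f x = 0 ↔ iteratedFDeriv ℝ j (fderiv ℝ f) x = 0 := by
  rw [← norm_eq_zero, ← norm_iteratedFDeriv_fderiv, norm_eq_zero]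

theorem t5b_fx {E W : Type} [NormedAddCommGroup E] [NormedSpace ℝ E]
    [NormedAddCommGroup W] [NormedSpace ℝ W] {f : E → W} (x₀ : E) (k : ℕ)
    (h : f =O[𝓝 x₀] fun x => ‖x - x₀‖ ^ (k + 1)) : f x₀ = 0 := by
  obtain ⟨C, hC⟩ := h.bound
  have h1 := hC.self_of_nhds
  simpa using h1

theorem t5b_jet (k : ℕ) : ∀ {E W : Type} [NormedAddCommGroup E] [NormedSpace ℝ E] [FiniteDimensional ℝ E]
    [NormedAddCommGroup W] [NormedSpace ℝ W] [CompleteSpace W] {f : E → W}, ContDiff ℝ ∞ f → ∀ x₀ : E,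
    ((f =O[𝓝 x₀] fun x => ‖x - x₀‖ ^ (k + 1)) ↔ ∀ j ≤ k, iteratedFDeriv ℝ j f x₀ = 0) := by
  induction k with
  | zero =>
    intro E W _ _ _ _ _ _ f hf x₀
    constructor
    · intro h j hj
      obtain rfl : j = 0 := by omega
      rw [t5b_zero]
      exact t5b_fx x₀ 0 h
    · intro h
      refine isBigO_of_fderiv hf x₀ 0 ((t5b_zero f x₀).1 (h 0 le_rfl)) ?_
      have h1 : ContinuousAt (fderiv ℝ f) x₀ := (hf.continuous_fderiv (by simp)).continuousAt
      simpa using h1.isBigO_one ℝ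
  | succ k ih =>
    intro E W _ _ _ _ _ _ f hf x₀
    have hf' : ContDiff ℝ ∞ (fderiv ℝ f) := hf.fderiv_right (m := ∞) (by simp)
    constructor
    · intro h j hj
      rcases j with _ | j
      · rw [t5b_zero]
        exact t5b_fx x₀ _ h
      · rw [t5b_succ]
        exact (ih hf' x₀).1 (isBigO_fderiv hf x₀ (k + 1) h) j (by omega)
    · intro h
      refine isBigO_of_fderiv hf x₀ (k + 1) ((t5b_zero f x₀).1 (h 0 (by omega))) ?_
      refine (ih hf' x₀).2 ?_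
      intro j hj
      rw [← t5b_succ]
      exact h (j + 1) (by omega)

/-- PROOF. Induction on k for all f (and W := E →L[ℝ] W).  f x₀ = 0 is the case j = 0 (`iteratedFDeriv_zero_eq_comp` / `norm_iteratedFDeriv_zero`).
(→) f =O(..^(k+1)) gives f x₀ = 0, and fderiv f =O(..^k) by `isBigO_fderiv`; for j+1 ≤ k: iteratedFDeriv (j+1) f x₀ = 0 iff iteratedFDeriv j (fderiv f) x₀ = 0
(`norm_iteratedFDeriv_fderiv`), induction hypothesis for k-1.  (←) the same with `isBigO_of_fderiv`. -/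
theorem isBigO_iff_jet {f : E → W} (hf : ContDiff ℝ ∞ f) (x₀ : E) (k : ℕ) :
    (f =O[𝓝 x₀] fun x => ‖x - x₀‖ ^ (k + 1)) ↔ ∀ j ≤ k, iteratedFDeriv ℝ j f x₀ = 0 :=
  t5b_jet k hf x₀

theorem t5b_it (j : ℕ) : ∀ {E W : Type} [NormedAddCommGroup E] [NormedSpace ℝ E] [FiniteDimensional ℝ E]
    [NormedAddCommGroup W] [NormedSpace ℝ W] [CompleteSpace W] {f : E → W}, ContDiff ℝ ∞ f → ∀ (x₀ : E) (k : ℕ),
    j ≤ k + 1 → (f =O[𝓝 x₀] fun x => ‖x - x₀‖ ^ (k + 1)) →
    (fun x => iteratedFDeriv ℝ j f x) =O[𝓝 x₀] fun x => ‖x - x₀‖ ^ (k + 1 - j) := by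
  induction j with
  | zero =>
    intro E W _ _ _ _ _ _ f hf x₀ k hj h
    rw [← isBigO_norm_left]
    simp only [norm_iteratedFDeriv_zero, Nat.sub_zero]
    exact h.norm_left
  | succ j ih =>
    intro E W _ _ _ _ _ _ f hf x₀ k hj h
    have hf' : ContDiff ℝ ∞ (fderiv ℝ f) := hf.fderiv_right (m := ∞) (by simp)
    have h1 := isBigO_fderiv hf x₀ k h
    rw [← isBigO_norm_left]
    have h2 : (fun x => ‖iteratedFDeriv ℝ (j + 1) f x‖) =
        fun x => ‖iteratedFDeriv ℝ j (fderiv ℝ f) x‖ := by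
      funext x
      rw [norm_iteratedFDeriv_fderiv]
    rw [h2]
    rcases k with _ | k
    · obtain rfl : j = 0 := by omega
      simp only [norm_iteratedFDeriv_zero]
      simpa using h1.norm_left
    · have h3 := ih hf' x₀ k (by omega) h1
      have h4 : k + 1 + 1 - (j + 1) = k + 1 - j := by omega
      rw [h4]
      exact h3.norm_left

/-- PROOF. Induction on j for all f, W and k: j = 0 clear (`norm_iteratedFDeriv_zero`); j+1: ‖iteratedFDeriv (j+1) f x‖ = ‖iteratedFDeriv j (fderiv f) x‖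
(`norm_iteratedFDeriv_fderiv`) and fderiv f =O(..^k) = O(..^((k-1)+1)) by `isBigO_fderiv`. -/
theorem isBigO_iteratedFDeriv {f : E → W} (hf : ContDiff ℝ ∞ f) (x₀ : E) (k j : ℕ) (hj : j ≤ k + 1)
    (h : f =O[𝓝 x₀] fun x => ‖x - x₀‖ ^ (k + 1)) :
    (fun x => iteratedFDeriv ℝ j f x) =O[𝓝 x₀] fun x => ‖x - x₀‖ ^ (k + 1 - j) :=
  t5b_it j hf x₀ k hj h

end Pool.Agent.Lib.H37N
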