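import Pool.Agent.Lib.H37N.T3
import Pool.Agent.Lib.H37N.T5b

/-! # H37N, chunk T6a (M): flat cut-off -/

open Set Filter Topology Asymptotics
open scoped ContDiff

namespace Pool.Agent.Lib.H37N

variable {P E W : Type} [NormedAddCommGroup P] [NormedSpace ℝ P] [FiniteDimensional ℝ P]
  [NormedAddCommGroup E] [NormedSpace ℝ E] [FiniteDimensional ℝ E]
  [NormedAddCommGroup W] [NormedSpace ℝ W] [CompleteSpace W]

omit [FiniteDimensional ℝ E] in
theorem t6a_bound {χ : E → ℝ} (hχ : ContDiff ℝ ∞ χ) (hs : HasCompactSupport χ) (R : ℕ) :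
    ∃ C : ℝ, 0 ≤ C ∧ ∀ j ≤ R, ∀ x, ‖iteratedFDeriv ℝ j χ x‖ ≤ C := by
  have h : ∀ j : ℕ, ∃ C : ℝ, ∀ x, ‖iteratedFDeriv ℝ j χ x‖ ≤ C := fun j =>
    (hχ.continuous_iteratedFDeriv (m := j)
      (by exact_mod_cast le_top)).bounded_above_of_compact_support (hs.iteratedFDeriv j)
  choose C hC using h
  have hC0 : ∀ j, 0 ≤ C j := fun j => (norm_nonneg _).trans (hC j 0)
  refine ⟨∑ j ∈ Finset.range (R + 1), C j, Finset.sum_nonneg fun j _ => hC0 j,
    fun j hj x => (hC j x).trans ?_⟩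
  exact Finset.single_le_sum (f := C) (fun j _ => hC0 j) (Finset.mem_range.2 (by omega))

theorem t6a_loc {f : E → W} (hf : ContDiff ℝ ∞ f) (x₀ : E) (R : ℕ)
    (h : f =O[𝓝 x₀] fun x => ‖x - x₀‖ ^ (R + 1)) :
    ∃ C : ℝ, 0 ≤ C ∧ ∀ᶠ x in 𝓝 x₀, ∀ j ≤ R,
      ‖iteratedFDeriv ℝ j f x‖ ≤ C * ‖x - x₀‖ ^ (R + 1 - j) := by
  have h1 : ∀ j : ℕ, ∃ C : ℝ, 0 ≤ C ∧ (j ≤ R → ∀ᶠ x in 𝓝 x₀,
      ‖iteratedFDeriv ℝ j f x‖ ≤ C * ‖x - x₀‖ ^ (R + 1 - j)) := by
    intro j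
    by_cases hj : j ≤ R
    · obtain ⟨C, hC0, hC⟩ := (isBigO_iteratedFDeriv hf x₀ R j (by omega) h).exists_nonneg
      refine ⟨C, hC0, fun _ => ?_⟩
      filter_upwards [hC.bound] with x hx
      have e : ‖‖x - x₀‖ ^ (R + 1 - j)‖ = ‖x - x₀‖ ^ (R + 1 - j) :=
        Real.norm_of_nonneg (by positivity)
      rw [e] at hx
      exact hx
    · exact ⟨0, le_rfl, fun h => absurd h hj⟩
  choose C hC0 hC using h1
  refine ⟨∑ j ∈ Finset.range (R + 1), C j, Finset.sum_nonneg fun j _ => hC0 j, ?_⟩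
  have : ∀ᶠ x in 𝓝 x₀, ∀ j ∈ Finset.range (R + 1),
      ‖iteratedFDeriv ℝ j f x‖ ≤ C j * ‖x - x₀‖ ^ (R + 1 - j) :=
    (Filter.eventually_all_finset _).2 fun j hj =>
      hC j (by have := Finset.mem_range.1 hj; omega)
  filter_upwards [this] with x hx j hj
  refine (hx j (Finset.mem_range.2 (by omega))).trans ?_
  gcongr
  exact Finset.single_le_sum (f := C) (fun j _ => hC0 j) (Finset.mem_range.2 (by omega))

omit [FiniteDimensional ℝ E] in
theorem t6a_scale {χ : E → ℝ} (hχ : ContDiff ℝ ∞ χ) (x₀ : E) (r : ℝ) (i : ℕ) (x : E) :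
    iteratedFDeriv ℝ i (fun z => χ (r⁻¹ • (z - x₀))) x =
      (r⁻¹) ^ i • iteratedFDeriv ℝ i χ (r⁻¹ • (x - x₀)) := by
  rw [iteratedFDeriv_comp_sub i x₀ x (f := fun z => χ (r⁻¹ • z)),
    iteratedFDeriv_comp_const_smul _ (hχ.of_le (by exact_mod_cast le_top))]

/-- T6, general form: a smooth function with vanishing R-jet at x₀ agrees near x₀ with a smooth function with small support and small derivatives up to order R.

PROOF. Let χ : E → ℝ be a smooth cut-off with support in closedBall 0 1 and χ = 1 near 0 (`exists_cutoff`), C₁ a bound of ‖iteratedFDeriv j χ‖ for j ≤ R (compact support: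
`HasCompactSupport.iteratedFDeriv`, continuity).  By `isBigO_iteratedFDeriv` (k = R) there are C₂, δ with ‖iteratedFDeriv j f x‖ ≤ C₂ ‖x-x₀‖^(R+1-j) for ‖x - x₀‖ ≤ δ, j ≤ R.
For 0 < r ≤ min(δ,1) with closedBall x₀ r ⊆ B put χ_r(x) = χ(r⁻¹ • (x - x₀)), g = χ_r • f.  ‖iteratedFDeriv i χ_r x‖ ≤ r^(-i) C₁ (`iteratedFDeriv_comp_const_smul` or
`ContinuousLinearMap.norm_iteratedFDeriv_comp_right`, translation `iteratedFDeriv_comp_sub`), zero outside closedBall x₀ r.  `norm_iteratedFDeriv_smul_le`: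
‖iteratedFDeriv j g x‖ ≤ Σ_i binom(j,i) r^(-i) C₁ C₂ r^(R+1-(j-i)) = 2^j C₁ C₂ r^(R+1-j) ≤ 2^R C₁ C₂ r for x ∈ closedBall x₀ r, and 0 outside (g vanishes near such x).
Take r with 2^R C₁ C₂ r ≤ ε. -/
theorem flat_cut {f : E → W} (hf : ContDiff ℝ ∞ f) (x₀ : E) (R : ℕ)
    (h : f =O[𝓝 x₀] fun x => ‖x - x₀‖ ^ (R + 1)) {ε : ℝ} (hε : 0 < ε) {B : Set E} (hB : B ∈ 𝓝 x₀) :
    ∃ g : E → W, ContDiff ℝ ∞ g ∧ HasCompactSupport g ∧ tsupport g ⊆ B ∧ g =ᶠ[𝓝 x₀] f ∧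
      ∀ j ≤ R, ∀ x, ‖iteratedFDeriv ℝ j g x‖ ≤ ε := by
  obtain ⟨χ, hχ, hχc, hχs, -, hχ1⟩ := exists_cutoff (E := E) (C := {0}) (O := Metric.ball 0 1)
    isCompact_singleton Metric.isOpen_ball (by simp)
  rw [nhdsSet_singleton] at hχ1
  obtain ⟨C₁, hC₁0, hC₁⟩ := t6a_bound hχ hχc R
  obtain ⟨C₂, hC₂0, hC₂⟩ := t6a_loc hf x₀ R h
  obtain ⟨δ, hδ, hδ'⟩ := Metric.eventually_nhds_iff.1 (hC₂.and hB)
  -- the radius
  obtain ⟨r, hr0, hr1, hrδ, hrε⟩ : ∃ r : ℝ, 0 < r ∧ r ≤ 1 ∧ r < δ ∧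
      2 ^ R * (C₁ * C₂) * r ≤ ε := by
    have hM : 0 < 2 ^ R * (C₁ * C₂) + 1 := by positivity
    refine ⟨min (min 1 (δ / 2)) (ε / (2 ^ R * (C₁ * C₂) + 1)), by positivity,
      (min_le_left _ _).trans (min_le_left _ _), ?_, ?_⟩
    · have : min (min 1 (δ / 2)) (ε / (2 ^ R * (C₁ * C₂) + 1)) ≤ δ / 2 :=
        (min_le_left _ _).trans (min_le_right _ _)
      linarith
    · have h1 : min (min 1 (δ / 2)) (ε / (2 ^ R * (C₁ * C₂) + 1)) ≤
          ε / (2 ^ R * (C₁ * C₂) + 1) := min_le_right _ _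
      have h2 : (2 ^ R * (C₁ * C₂) + 1) * (ε / (2 ^ R * (C₁ * C₂) + 1)) = ε := by
        field_simp
      have h3 : 0 ≤ ε / (2 ^ R * (C₁ * C₂) + 1) := by positivity
      have h4 : 0 ≤ 2 ^ R * (C₁ * C₂) := by positivity
      calc 2 ^ R * (C₁ * C₂) * min (min 1 (δ / 2)) (ε / (2 ^ R * (C₁ * C₂) + 1))
          ≤ 2 ^ R * (C₁ * C₂) * (ε / (2 ^ R * (C₁ * C₂) + 1)) :=
            mul_le_mul_of_nonneg_left h1 h4
        _ ≤ (2 ^ R * (C₁ * C₂) + 1) * (ε / (2 ^ R * (C₁ * C₂) + 1)) := by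
            nlinarith
        _ = ε := h2
  have hχr : ContDiff ℝ ∞ (fun z : E => χ (r⁻¹ • (z - x₀))) :=
    hχ.comp (contDiff_const.smul (contDiff_id.sub contDiff_const))
  have hgd : ContDiff ℝ ∞ (fun z : E => χ (r⁻¹ • (z - x₀)) • f z) := hχr.smul hf
  have hsup : Function.support (fun z : E => χ (r⁻¹ • (z - x₀)) • f z) ⊆
      Metric.closedBall x₀ r := by
    intro z hz
    have h1 : χ (r⁻¹ • (z - x₀)) ≠ 0 := fun h0 => hz (by simp [h0])
    have h2 : r⁻¹ • (z - x₀) ∈ Metric.ball (0 : E) 1 := hχs (subset_tsupport _ h1)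
    rw [mem_ball_zero_iff, norm_smul, norm_inv, Real.norm_of_nonneg hr0.le] at h2
    rw [mem_closedBall_iff_norm]
    have h3 : ‖z - x₀‖ = r * (r⁻¹ * ‖z - x₀‖) := by field_simp
    rw [h3]
    nlinarith
  have htsup : tsupport (fun z : E => χ (r⁻¹ • (z - x₀)) • f z) ⊆ Metric.closedBall x₀ r :=
    closure_minimal hsup Metric.isClosed_closedBall
  refine ⟨fun z => χ (r⁻¹ • (z - x₀)) • f z, hgd, ?_, ?_, ?_, ?_⟩
  · exact HasCompactSupport.of_support_subset_isCompact (isCompact_closedBall x₀ r) hsup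
  · intro z hz
    exact (hδ' (lt_of_le_of_lt (Metric.mem_closedBall.1 (htsup hz)) hrδ)).2
  · have hc : Tendsto (fun z : E => r⁻¹ • (z - x₀)) (𝓝 x₀) (𝓝 0) := by
      have : Continuous (fun z : E => r⁻¹ • (z - x₀)) := by fun_prop
      simpa using this.tendsto x₀
    filter_upwards [hc.eventually hχ1] with z hz
    rw [hz, one_smul]
  · intro j hj x
    by_cases hx : x ∈ Metric.closedBall x₀ r
    · have hxr : ‖x - x₀‖ ≤ r := mem_closedBall_iff_norm.1 hx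
      have hxd : dist x x₀ < δ := by rw [dist_eq_norm]; linarith
      have hb := (hδ' hxd).1
      refine (norm_iteratedFDeriv_smul_le hχr hf x (n := j)
        (by exact_mod_cast le_top)).trans ?_
      have hterm : ∀ i ∈ Finset.range (j + 1), (j.choose i : ℝ) *
          ‖iteratedFDeriv ℝ i (fun z => χ (r⁻¹ • (z - x₀))) x‖ *
          ‖iteratedFDeriv ℝ (j - i) f x‖ ≤ (j.choose i : ℝ) * ((C₁ * C₂) * r) := by
        intro i hi
        have hi' : i ≤ j := by have := Finset.mem_range.1 hi; omega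
        rw [mul_assoc]
        refine mul_le_mul_of_nonneg_left ?_ (by positivity)
        have e1 : ‖iteratedFDeriv ℝ i (fun z => χ (r⁻¹ • (z - x₀))) x‖ ≤ (r⁻¹) ^ i * C₁ := by
          rw [t6a_scale hχ, norm_smul, norm_pow, norm_inv, Real.norm_of_nonneg hr0.le]
          exact mul_le_mul_of_nonneg_left (hC₁ i (by omega) _) (by positivity)
        have e2 : ‖iteratedFDeriv ℝ (j - i) f x‖ ≤ C₂ * r ^ (R + 1 - (j - i)) := by
          refine (hb (j - i) (by omega)).trans ?_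
          gcongr
        have e3 : (r⁻¹) ^ i * r ^ (R + 1 - (j - i)) ≤ r := by
          have : R + 1 - (j - i) = i + (R - j + 1) := by omega
          rw [this, pow_add, ← mul_assoc, ← mul_pow, inv_mul_cancel₀ hr0.ne', one_pow, one_mul]
          calc r ^ (R - j + 1) ≤ r ^ 1 := pow_le_pow_of_le_one hr0.le hr1 (by omega)
            _ = r := pow_one r
        calc ‖iteratedFDeriv ℝ i (fun z => χ (r⁻¹ • (z - x₀))) x‖ *
              ‖iteratedFDeriv ℝ (j - i) f x‖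
            ≤ ((r⁻¹) ^ i * C₁) * (C₂ * r ^ (R + 1 - (j - i))) :=
              mul_le_mul e1 e2 (norm_nonneg _) (by positivity)
          _ = (C₁ * C₂) * ((r⁻¹) ^ i * r ^ (R + 1 - (j - i))) := by ring
          _ ≤ (C₁ * C₂) * r := mul_le_mul_of_nonneg_left e3 (by positivity)
      refine (Finset.sum_le_sum hterm).trans ?_
      rw [← Finset.sum_mul]
      have e4 : ∑ i ∈ Finset.range (j + 1), (j.choose i : ℝ) = 2 ^ j := by
        exact_mod_cast Nat.sum_range_choose j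
      rw [e4]
      refine le_trans ?_ hrε
      rw [← mul_assoc]
      have : (2 : ℝ) ^ j ≤ 2 ^ R := pow_le_pow_right₀ (by norm_num) hj
      gcongr
    · have h0 : iteratedFDeriv ℝ j (fun z => χ (r⁻¹ • (z - x₀)) • f z) x = 0 := by
        by_contra h0
        exact hx (htsup (support_iteratedFDeriv_subset j h0))
      rw [h0, norm_zero]
      exact hε.le

end Pool.Agent.Lib.H37N
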