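import Pool.Agent.Lib.H37N.Defs
import Pool.Agent.Lib.H37N.T6a

/-! # H37N, chunk T6b (S): FC, flat correction by a small perturbation -/

open Set Filter Topology Asymptotics
open scoped ContDiff

namespace Pool.Agent.Lib.H37N

/-- T6 (FC).

PROOF. f := a global smooth function equal to G - id near z₀ (`localise_at`), f =O(‖z-z₀‖^(R+1)) near z₀; g from `flat_cut` with B ∩ interior K0 (a neighbourhood of z₀);
ψ z := z + g z: smooth, ψ z = z for z ∉ tsupport g ⊆ B ∩ K0, ψ - id = g. -/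
theorem flat_corr (R : ℕ) {ε : ℝ} (hε : 0 < ε) {z₀ : Pt} (hz : z₀ ∈ interior K0) {G : Pt → Pt}
    (hG : ∀ᶠ z in 𝓝 z₀, ContDiffAt ℝ ∞ G z)
    (h : (fun z => G z - z) =O[𝓝 z₀] fun z => ‖z - z₀‖ ^ (R + 1)) {B : Set Pt} (hB : B ∈ 𝓝 z₀) :
    ∃ ψ : Pt → Pt, Small R ε ψ ∧ (∀ z, z ∉ B → ψ z = z) ∧ ψ =ᶠ[𝓝 z₀] G := by
  have hG' : ∀ᶠ z in 𝓝 z₀, ContDiffAt ℝ ∞ (fun z => G z - z) z := by
    filter_upwards [hG] with z hz
    exact hz.sub contDiffAt_id
  obtain ⟨f, hf, hfG⟩ := localise_at hG'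
  have hf2 : f =O[𝓝 z₀] fun z => ‖z - z₀‖ ^ (R + 1) := hfG.trans_isBigO h
  have hB2 : B ∩ interior K0 ∈ 𝓝 z₀ := inter_mem hB (isOpen_interior.mem_nhds hz)
  obtain ⟨g, hg, hgc, hgs, hgf, hgb⟩ := flat_cut hf z₀ R hf2 hε hB2
  have h0 : ∀ z, z ∉ B ∩ interior K0 → g z = 0 := by
    intro z hz
    by_contra hne
    exact hz (hgs (subset_tsupport g hne))
  refine ⟨fun z => z + g z, ⟨contDiff_id.add hg, ?_, ?_⟩, ?_, ?_⟩
  · intro z hz
    have h1 : g z = 0 := h0 z (fun h => hz (interior_subset h.2))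
    simp [h1]
  · intro j hj z
    have h1 : (fun z => z + g z - z) = g := by
      funext z
      simp
    rw [h1]
    exact hgb j hj z
  · intro z hz
    have h1 : g z = 0 := h0 z (fun h => hz h.1)
    simp [h1]
  · filter_upwards [hgf, hfG] with z h1 h2
    rw [h1, h2]
    simp

end Pool.Agent.Lib.H37N
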