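import Pool.Agent.Lib.H37N.Defs

/-! # H37N, chunk T7 (S/M): smooth families are small perturbations -/

open Set Filter Topology Asymptotics
open scoped ContDiff

namespace Pool.Agent.Lib.H37N

variable {P E W : Type} [NormedAddCommGroup P] [NormedSpace ℝ P] [FiniteDimensional ℝ P]
  [NormedAddCommGroup E] [NormedSpace ℝ E] [FiniteDimensional ℝ E]
  [NormedAddCommGroup W] [NormedSpace ℝ W] [CompleteSpace W]

omit [FiniteDimensional ℝ P] [FiniteDimensional ℝ E] [CompleteSpace W] in
/-- PROOF. x ↦ h(p,x) is h composed with x ↦ inr x + (p,0); `iteratedFDeriv_comp_add_left` / `iteratedFDeriv_comp_add_right` and `ContinuousLinearMap.iteratedFDeriv_comp_right`: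
iteratedFDeriv j (h(p,·)) x = (iteratedFDeriv j h (p,x)).compContinuousLinearMap (fun _ => inr ℝ P E).  The right side is continuous in (p,x)
(`ContDiff.continuous_iteratedFDeriv`, `ContinuousMultilinearMap.compContinuousLinearMapL`). -/
theorem continuous_partial_iteratedFDeriv {h : P × E → W} (hh : ContDiff ℝ ∞ h) (j : ℕ) :
    Continuous (fun q : P × E => iteratedFDeriv ℝ j (fun x => h (q.1, x)) q.2) := by
  have key : ∀ q : P × E, iteratedFDeriv ℝ j (fun x => h (q.1, x)) q.2 =
      (iteratedFDeriv ℝ j h q).compContinuousLinearMap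
        (fun _ => ContinuousLinearMap.inr ℝ P E) := by
    intro q
    have h1 : (fun x => h (q.1, x)) =
        (fun y : P × E => h ((q.1, 0) + y)) ∘ (ContinuousLinearMap.inr ℝ P E) := by
      funext x
      simp
    have hc : ContDiff ℝ ∞ (fun y : P × E => h ((q.1, 0) + y)) :=
      hh.comp (contDiff_const.add contDiff_id)
    rw [h1, ContinuousLinearMap.iteratedFDeriv_comp_right (ContinuousLinearMap.inr ℝ P E) hc q.2
      (by exact_mod_cast le_top), iteratedFDeriv_comp_add_left]
    simp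
  have h2 : (fun q : P × E => iteratedFDeriv ℝ j (fun x => h (q.1, x)) q.2) =
      fun q => (iteratedFDeriv ℝ j h q).compContinuousLinearMap
        (fun _ => ContinuousLinearMap.inr ℝ P E) := funext key
  rw [h2]
  exact (ContinuousMultilinearMap.compContinuousLinearMapL
    (fun _ : Fin j => ContinuousLinearMap.inr ℝ P E)).continuous.comp
    (hh.continuous_iteratedFDeriv (by exact_mod_cast le_top))

omit [FiniteDimensional ℝ P] in
/-- T7.

PROOF. h(p,z) = Ψ(p,z) - z is smooth.  For j ≤ R the function (p,z) ↦ ‖iteratedFDeriv j (h(p,·)) z‖ is continuous (`continuous_partial_iteratedFDeriv`) and 0 for p = p₀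
(h(p₀,·) = 0).  For every z in C there are neighbourhoods with the value < ε; by compactness of C (tube lemma, `IsCompact.eventually_forall_of_forall_eventually`) for p near p₀ it is
< ε for all z ∈ C.  For z ∉ C (open complement) h(p,·) = 0 near z, so the derivative is 0 ≤ ε.  Finitely many j ≤ R. -/
theorem small_family {Ψ : P × Pt → Pt} (hΨ : ContDiff ℝ ∞ Ψ) (p₀ : P) (h0 : ∀ z, Ψ (p₀, z) = z)
    {C : Set Pt} (hC : IsCompact C) (hCK : C ⊆ K0) (hs : ∀ p z, z ∉ C → Ψ (p, z) = z) (R : ℕ) {ε : ℝ} (hε : 0 < ε) :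
    ∀ᶠ p in 𝓝 p₀, Small R ε (fun z => Ψ (p, z)) := by
  have hh : ContDiff ℝ ∞ (fun q : P × Pt => Ψ q - q.2) := hΨ.sub contDiff_snd
  have h1 : ∀ j : ℕ, ∀ᶠ p in 𝓝 p₀, ∀ z ∈ C,
      ‖iteratedFDeriv ℝ j (fun x => Ψ (p, x) - x) z‖ < ε := by
    intro j
    have hc := continuous_partial_iteratedFDeriv (h := fun q : P × Pt => Ψ q - q.2) hh j
    apply hC.eventually_forall_of_forall_eventually
    intro z _
    have h2 : Continuous (fun q : P × Pt => ‖iteratedFDeriv ℝ j (fun x => Ψ (q.1, x) - x) q.2‖) :=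
      hc.norm
    have h3 : ‖iteratedFDeriv ℝ j (fun x => Ψ (p₀, x) - x) z‖ < ε := by
      have h4 : (fun x => Ψ (p₀, x) - x) = fun _ => (0 : Pt) := by
        funext x
        rw [h0, sub_self]
      rw [h4, iteratedFDeriv_zero_fun]
      simpa using hε
    exact (h2.tendsto (p₀, z)).eventually (gt_mem_nhds h3)
  have h5 : ∀ᶠ p in 𝓝 p₀, ∀ j ∈ Finset.range (R + 1), ∀ z ∈ C,
      ‖iteratedFDeriv ℝ j (fun x => Ψ (p, x) - x) z‖ < ε := by
    rw [Filter.eventually_all_finset]
    intro j _
    exact h1 j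
  filter_upwards [h5] with p hp
  refine ⟨hΨ.comp (contDiff_const.prodMk contDiff_id), fun z hz => hs p z fun h => hz (hCK h), ?_⟩
  intro j hj z
  by_cases hz : z ∈ C
  · exact (hp j (Finset.mem_range.2 (by omega)) z hz).le
  · have h6 : (fun x => Ψ (p, x) - x) =ᶠ[𝓝 z] fun _ => (0 : Pt) := by
      filter_upwards [hC.isClosed.isOpen_compl.mem_nhds hz] with x hx
      rw [hs p x hx, sub_self]
    have h7 := (h6.iteratedFDeriv ℝ j).eq_of_nhds
    show ‖iteratedFDeriv ℝ j (fun x => Ψ (p, x) - x) z‖ ≤ ε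
    rw [h7, iteratedFDeriv_zero_fun]
    simpa using hε.le

end Pool.Agent.Lib.H37N
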