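import Pool.Agent.Lib.H37N.A12

/-!
# H37N A35 (size M): points of transformed leaves lie on cross orbits
-/

open Set Filter Topology

namespace Pool.Agent.Lib.H37N

variable {p q : Sy → ℝ} {X Y : Sy → Pt → ℝ}

/-- Proof. Induction on `w`, generalizing `f`. `w = []`: constant sequences `x`, `f x` (`hf.mem`). `w = j :: w'`: put
`f' = GG X Y j f` (a leaf, `GG_leaf`) and take `xs', ys'` for `w'`, `f'`; `ys' 0 = f' (xs' 0)`, `xs' 0 ∈ II` (`COrb.mx`). Put
`xs 0 = sol X j f (xs' 0)`, `ys 0 = f (xs 0)`, `xs (n+1) = xs' n`, `ys (n+1) = ys' n` (`Nat.casesOn`). The equations at `n = 0`: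
`xs 0 = X j (xs' 0, f (xs 0))` is `sol_spec` (`cl_of_mem`), `ys 1 = ys' 0 = GG X Y j f (xs' 0) = Y j (xs' 0, f (xs 0))` by
definition. -/
theorem leaf_orbit (h : CS p q X Y) (w : List Sy) {f : ℝ → ℝ} (hf : IsLeaf f) {x : ℝ} (hx : x ∈ II) :
    ∃ xs ys : ℕ → ℝ, COrb X Y (fun n => w.getD n Sy.P) w.length xs ys ∧ xs w.length = x ∧
      ys w.length = Gw X Y w f x ∧ ys 0 = f (xs 0) := by
  induction w generalizing f with
  | nil =>
    exact ⟨fun _ => x, fun _ => f x, ⟨fun n _ => hx, fun n _ => hf.mem x,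
      fun n hn => absurd hn (Nat.not_lt_zero _), fun n hn => absurd hn (Nat.not_lt_zero _)⟩,
      rfl, rfl, rfl⟩
  | cons j w ih =>
    obtain ⟨xs, ys, o, h1, h2, h3⟩ := ih (GG_leaf h j hf)
    have hx0 : xs 0 ∈ II := o.mx 0 (Nat.zero_le _)
    refine ⟨fun n => Nat.casesOn n (sol X j f (xs 0)) xs,
      fun n => Nat.casesOn n (f (sol X j f (xs 0))) ys, ⟨?_, ?_, ?_, ?_⟩, ?_, ?_, ?_⟩
    · rintro (_ | n) hn
      · exact Ioo_subset_Icc_self (sol_mem h j hf _)
      · exact o.mx n (Nat.le_of_succ_le_succ hn)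
    · rintro (_ | n) hn
      · exact hf.mem _
      · exact o.my n (Nat.le_of_succ_le_succ hn)
    · rintro (_ | n) hn
      · have := sol_spec h j hf (xs 0)
        rw [cl_of_mem hx0] at this
        exact this
      · exact o.ex n (Nat.lt_of_succ_lt_succ hn)
    · rintro (_ | n) hn
      · show ys 0 = Y j (xs 0, f (sol X j f (xs 0)))
        rw [h3]
        unfold GG
        rw [cl_of_mem hx0]
      · exact o.ey n (Nat.lt_of_succ_lt_succ hn)
    · exact h1
    · exact h2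
    · rfl

end Pool.Agent.Lib.H37N
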