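import Pool.Agent.Lib.H37N.A34
import Pool.Agent.Lib.H37N.A35

/-!
# H37N A36 (size M): distortion for leaves
-/

open Set Filter Topology

namespace Pool.Agent.Lib.H37N

variable {p q : Sy → ℝ} {X Y : Sy → Pt → ℝ}

theorem a36_cl (X Y : Sy → Pt → ℝ) (w : List Sy) (hw : w ≠ []) (f : ℝ → ℝ) (x : ℝ) :
    Gw X Y w f (cl x) = Gw X Y w f x := by
  induction w generalizing f with
  | nil => exact absurd rfl hw
  | cons i w ih =>
    rw [Gw_cons]
    by_cases h : w = []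
    · subst h
      rw [Gw_nil]
      exact GG_cl X Y i f x
    · exact ih h _

theorem a36_real {a b a' b' m m' : ℝ} (ha : 0 < a) (hb : 0 < b) (ha' : 0 < a') (hb' : 0 < b')
    (hm0 : gam / 2 ≤ m) (hm0' : gam / 2 ≤ m') (hbm : |b - m| ≤ 100 * ee)
    (hbm' : |b' - m'| ≤ 100 * ee)
    (h : |Real.log (a / b) - Real.log (a' / b')| ≤ 1000 * ee) :
    a / m ≤ (1 + 1 / 20000) * (a' / m') := by
  have hm : 0 < m := lt_of_lt_of_le (by norm_num [gam]) hm0
  have hm' : 0 < m' := lt_of_lt_of_le (by norm_num [gam]) hm0'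
  have hexp : Real.exp (1000 * ee) ≤ 1 + 2 / 10 ^ 7 := by
    refine (Real.exp_bound_div_one_sub_of_interval (by norm_num [ee]) (by norm_num [ee])).trans ?_
    norm_num [ee]
  have h1 : a / b ≤ (1 + 2 / 10 ^ 7) * (a' / b') := by
    have e1 : Real.log (a / b) ≤ 1000 * ee + Real.log (a' / b') := by
      have := (abs_le.1 h).2
      linarith
    calc a / b = Real.exp (Real.log (a / b)) := (Real.exp_log (div_pos ha hb)).symm
      _ ≤ Real.exp (1000 * ee + Real.log (a' / b')) := Real.exp_le_exp.2 e1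
      _ = Real.exp (1000 * ee) * (a' / b') := by rw [Real.exp_add, Real.exp_log (div_pos ha' hb')]
      _ ≤ (1 + 2 / 10 ^ 7) * (a' / b') :=
        mul_le_mul_of_nonneg_right hexp (div_pos ha' hb').le
  have h2 : b / m ≤ 1 + 2 / 10 ^ 5 := by
    rw [div_le_iff₀ hm]
    have := (abs_le.1 hbm).2
    have e : 100 * ee ≤ 2 / 10 ^ 5 * m := by
      have : 100 * ee ≤ 2 / 10 ^ 5 * (gam / 2) := by norm_num [ee, gam]
      nlinarith
    linarith
  have h3 : (1 - 2 / 10 ^ 5) * m' ≤ b' := by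
    have := (abs_le.1 hbm').1
    have e : 100 * ee ≤ 2 / 10 ^ 5 * m' := by
      have : 100 * ee ≤ 2 / 10 ^ 5 * (gam / 2) := by norm_num [ee, gam]
      nlinarith
    linarith
  have h4 : a' / b' ≤ (a' / m') / (1 - 2 / 10 ^ 5) := by
    rw [div_div, mul_comm m']
    exact div_le_div_of_nonneg_left ha'.le (by positivity) h3
  have hr : 0 < a' / m' := div_pos ha' hm'
  generalize a' / m' = r at *
  have h5 : a / m = a / b * (b / m) := by field_simp
  have h6 : 0 < a / b := div_pos ha hb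
  have h7 : a / b ≤ (1 + 2 / 10 ^ 7) * (r / (1 - 2 / 10 ^ 5)) :=
    h1.trans (mul_le_mul_of_nonneg_left h4 (by norm_num))
  calc a / m = a / b * (b / m) := h5
    _ ≤ (1 + 2 / 10 ^ 7) * (r / (1 - 2 / 10 ^ 5)) * (1 + 2 / 10 ^ 5) :=
      mul_le_mul h7 h2 (div_pos hb hm).le (h6.le.trans h7)
    _ = (1 + 2 / 10 ^ 7) * (1 + 2 / 10 ^ 5) / (1 - 2 / 10 ^ 5) * r := by ring
    _ ≤ (1 + 1 / 20000) * r := mul_le_mul_of_nonneg_right (by norm_num) hr.le

/-- `f0, f1, f2, f3` almost constant leaves with gaps `m` (between `f0`, `f1`) and `m'` (between `f2`, `f3`). The relative gaps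
after the transformation by the word `w` agree up to the factor `1 + 1/20000`.
Proof. Replace `x`, `x'` by `cl x`, `cl x'` (if `w ≠ []` the values `Gw w f` depend on `cl x` only, `GG_cl`; if `w = []` the claim
is immediate from `hm`, `hm'`: `(m + 100 ee)/m ≤ 1 + 2*10^-5`, `(m' - 100 ee)/m' ≥ 1 - 2*10^-5`). `leaf_orbit` for
`f0, f1` at `x` and `f2, f3` at `x'` gives four cross orbits with itinerary `w` and `y_j 0 = f_j (x_j 0)`. By `hm`:
`|D 0 - m| ≤ 100 ee` (for all arguments), `m ≥ gam / 2 = 5*10^-4`, so `D 0 / m ∈ [1 - 2*10^-5, 1 + 2*10^-5]`, positive; the same for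
`D' 0 / m'`. `distortion`: `D k / D 0 ≤ exp (1000 ee) * D' k / D' 0`, `exp (10^-7) ≤ 1 + 2*10^-7`. Product of the factors:
`(1 + 2*10^-5) / (1 - 2*10^-5) * (1 + 2*10^-7) ≤ 1 + 1/20000` (it is `1 + 4.03*10^-5`). -/
theorem leaf_dist (h : CS p q X Y) (w : List Sy) {f0 f1 f2 f3 : ℝ → ℝ} (l0 : IsLeaf f0)
    (l1 : IsLeaf f1) (l2 : IsLeaf f2) (l3 : IsLeaf f3) {m m' : ℝ} (hm0 : gam / 2 ≤ m)
    (hm0' : gam / 2 ≤ m') (hm : ∀ x y, |f1 x - f0 y - m| ≤ 100 * ee)
    (hm' : ∀ x y, |f3 x - f2 y - m'| ≤ 100 * ee) (x x' : ℝ) :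
    (Gw X Y w f1 x - Gw X Y w f0 x) / m ≤
      (1 + 1 / 20000) * ((Gw X Y w f3 x' - Gw X Y w f2 x') / m') := by
  by_cases hw : w = []
  · subst hw
    simp only [Gw_nil]
    have hmp : 0 < m := lt_of_lt_of_le (by norm_num [gam]) hm0
    have hmp' : 0 < m' := lt_of_lt_of_le (by norm_num [gam]) hm0'
    have h1 : (f1 x - f0 x) / m ≤ 1 + 2 / 10 ^ 5 := by
      rw [div_le_iff₀ hmp]
      have := (abs_le.1 (hm x x)).2
      have e : 100 * ee ≤ 2 / 10 ^ 5 * (gam / 2) := by norm_num [ee, gam]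
      nlinarith
    have h2 : 1 - 2 / 10 ^ 5 ≤ (f3 x' - f2 x') / m' := by
      rw [le_div_iff₀ hmp']
      have := (abs_le.1 (hm' x' x')).1
      have e : 100 * ee ≤ 2 / 10 ^ 5 * (gam / 2) := by norm_num [ee, gam]
      nlinarith
    calc (f1 x - f0 x) / m ≤ 1 + 2 / 10 ^ 5 := h1
      _ ≤ (1 + 1 / 20000) * (1 - 2 / 10 ^ 5) := by norm_num
      _ ≤ _ := mul_le_mul_of_nonneg_left h2 (by norm_num)
  · rw [← a36_cl X Y w hw f1 x, ← a36_cl X Y w hw f0 x, ← a36_cl X Y w hw f3 x',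
      ← a36_cl X Y w hw f2 x']
    obtain ⟨x0, y0, o0, p0, q0, r0⟩ := leaf_orbit h w l0 (cl_mem x)
    obtain ⟨x1, y1, o1, p1, q1, r1⟩ := leaf_orbit h w l1 (cl_mem x)
    obtain ⟨x2, y2, o2, p2, q2, r2⟩ := leaf_orbit h w l2 (cl_mem x')
    obtain ⟨x3, y3, o3, p3, q3, r3⟩ := leaf_orbit h w l3 (cl_mem x')
    have hk : x0 w.length = x1 w.length := by rw [p0, p1]
    have hk' : x2 w.length = x3 w.length := by rw [p2, p3]
    have hee : 100 * ee < gam / 2 := by norm_num [ee, gam]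
    have hb : |y1 0 - y0 0 - m| ≤ 100 * ee := by
      rw [r1, r0]
      exact hm _ _
    have hb' : |y3 0 - y2 0 - m'| ≤ 100 * ee := by
      rw [r3, r2]
      exact hm' _ _
    have h0 : y0 0 < y1 0 := by
      have := (abs_le.1 hb).1
      linarith
    have h0' : y2 0 < y3 0 := by
      have := (abs_le.1 hb').1
      linarith
    have hd := distortion h o0 o1 o2 o3 hk hk' h0 h0'
    have hD := (pair_D h o0 o1 hk h0).1
    have hD' := (pair_D h o2 o3 hk' h0').1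
    rw [← q0, ← q1, ← q2, ← q3]
    exact a36_real (hD _ le_rfl) (hD 0 (Nat.zero_le _)) (hD' _ le_rfl) (hD' 0 (Nat.zero_le _))
      hm0 hm0' hb hb' hd

end Pool.Agent.Lib.H37N
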