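import Pool.Agent.Lib.H37N.A15
import Pool.Agent.Lib.H37N.A36

/-!
# H37N A37 (size M): gaps of the leaves of a word (A.4)
-/

open Set Filter Topology

namespace Pool.Agent.Lib.H37N

variable {p q : Sy → ℝ} {X Y : Sy → Pt → ℝ}

noncomputable section

/-- `κ` -/
def kap : ℝ := 1 / 10000

/-- the gap of the word at `x'` -/
def gp (X Y : Sy → Pt → ℝ) (w : List Sy) (x' : ℝ) : ℝ :=
  Gw X Y w (fixL X Y Sy.Q) x' - Gw X Y w (fixL X Y Sy.P) x'

end

/-! The base gaps (for all arguments, by `A14`): `fixL Q x - fixL P y` within `12 ee` of `1`,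
`GG P (fixL Q) x - fixL P y` within `12 ee` of `q P`, `fixL Q x - GG Q (fixL P) y` within `12 ee` of `q Q` (`1 - q P - gam = q Q`),
`GG Q (fixL P) x - GG P (fixL Q) y` within `12 ee` of `gam`. Each pair is compared with the first one (both directions) by
`leaf_dist`; `(1 + 1/20000) q ≤ q + kap`, `q / (1 + 1/20000) ≥ q - kap`. -/

/-- Proof: `Gw_strictMono`, the order of the base leaves (`A15`). -/
theorem gp_pos (h : CS p q X Y) (w : List Sy) (x' : ℝ) : 0 < gp X Y w x' := by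
  unfold gp
  rw [sub_pos]
  exact Gw_strictMono h w (fixL_leaf h _) (fixL_leaf h _)
    (fun x => (fixP_lt_GPQ h x).trans ((GPQ_lt_GQP h x).trans (GQP_lt_fixQ h x))) x'

theorem a37_base (h : CS p q X Y) (x y : ℝ) :
    |fixL X Y Sy.Q x - fixL X Y Sy.P y - 1| ≤ 100 * ee := by
  have h1 := abs_le.1 (fixL_Q_val h x)
  have h2 := abs_le.1 (fixL_P_val h y)
  have h3 := ee_pos
  rw [abs_le]
  constructor <;> linarith [h1.1, h1.2, h2.1, h2.2]

/-- comparison of a pair with the full pair -/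
theorem a37_comp (h : CS p q X Y) (w : List Sy) {a b : ℝ → ℝ} (ha : IsLeaf a) (hb : IsLeaf b)
    {m : ℝ} (hm : gam / 2 ≤ m) (hm1 : m ≤ 1) (hab : ∀ x y, |b x - a y - m| ≤ 100 * ee) (x x' : ℝ) :
    (m - kap) * gp X Y w x' ≤ Gw X Y w b x - Gw X Y w a x ∧
      Gw X Y w b x - Gw X Y w a x ≤ (m + kap) * gp X Y w x' := by
  have hm0 : 0 < m := lt_of_lt_of_le (by norm_num [gam]) hm
  have e1 := leaf_dist h w ha hb (fixL_leaf h Sy.P) (fixL_leaf h Sy.Q) (m := m) (m' := 1) hm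
    (by norm_num [gam]) hab (a37_base h) x x'
  have e2 := leaf_dist h w (fixL_leaf h Sy.P) (fixL_leaf h Sy.Q) ha hb (m := 1) (m' := m)
    (by norm_num [gam]) hm (a37_base h) hab x' x
  have hg := gp_pos h w x'
  change _ ≤ (1 + 1 / 20000) * (gp X Y w x' / 1) at e1
  change gp X Y w x' / 1 ≤ _ at e2
  rw [div_one] at e1 e2
  rw [div_le_iff₀ hm0] at e1
  generalize gp X Y w x' = g at *
  generalize Gw X Y w b x - Gw X Y w a x = d at *
  have e3 : m * g ≤ (1 + 1 / 20000) * d := by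
    have := mul_le_mul_of_nonneg_left e2 hm0.le
    calc m * g ≤ m * ((1 + 1 / 20000) * (d / m)) := this
      _ = (1 + 1 / 20000) * d := by field_simp
  have e4 : m * g ≤ 1 * g := mul_le_mul_of_nonneg_right hm1 hg.le
  have e5 : 0 < m * g := mul_pos hm0 hg
  unfold kap
  constructor
  · nlinarith
  · nlinarith

/-- Proof: `leaf_dist` with both pairs `(fixL P, fixL Q)`, `m = m' = 1`. -/
theorem gap_full (h : CS p q X Y) (w : List Sy) (x x' : ℝ) :
    (1 - kap) * gp X Y w x' ≤ gp X Y w x ∧ gp X Y w x ≤ (1 + kap) * gp X Y w x' :=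
  a37_comp h w (fixL_leaf h _) (fixL_leaf h _) (by norm_num [gam]) le_rfl (a37_base h) x x'

theorem gap_P (h : CS p q X Y) (w : List Sy) (x x' : ℝ) :
    (q Sy.P - kap) * gp X Y w x' ≤
      Gw X Y w (GG X Y Sy.P (fixL X Y Sy.Q)) x - Gw X Y w (fixL X Y Sy.P) x ∧
    Gw X Y w (GG X Y Sy.P (fixL X Y Sy.Q)) x - Gw X Y w (fixL X Y Sy.P) x ≤
      (q Sy.P + kap) * gp X Y w x' := by
  have hq := h.q0 Sy.P
  refine a37_comp h w (fixL_leaf h _) (GG_leaf h _ (fixL_leaf h _)) ?_ ?_ ?_ x x'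
  · unfold gam; linarith [hq.1]
  · linarith [hq.2]
  · intro x y
    have h1 := abs_le.1 (GGPQ_val h x)
    have h2 := abs_le.1 (fixL_P_val h y)
    have h3 := ee_pos
    rw [abs_le]
    constructor <;> linarith [h1.1, h1.2, h2.1, h2.2]

theorem gap_Q (h : CS p q X Y) (w : List Sy) (x x' : ℝ) :
    (q Sy.Q - kap) * gp X Y w x' ≤
      Gw X Y w (fixL X Y Sy.Q) x - Gw X Y w (GG X Y Sy.Q (fixL X Y Sy.P)) x ∧
    Gw X Y w (fixL X Y Sy.Q) x - Gw X Y w (GG X Y Sy.Q (fixL X Y Sy.P)) x ≤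
      (q Sy.Q + kap) * gp X Y w x' := by
  have hq := h.q0 Sy.Q
  refine a37_comp h w (GG_leaf h _ (fixL_leaf h _)) (fixL_leaf h _) ?_ ?_ ?_ x x'
  · unfold gam; linarith [hq.1]
  · linarith [hq.2]
  · intro x y
    have h1 := abs_le.1 (fixL_Q_val h x)
    have h2 := abs_le.1 (GGQP_val h y)
    have h3 := ee_pos
    have h4 := h.qsum
    rw [abs_le]
    constructor <;> linarith [h1.1, h1.2, h2.1, h2.2]

theorem gap_mid (h : CS p q X Y) (w : List Sy) (x x' : ℝ) :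
    0 < Gw X Y w (GG X Y Sy.Q (fixL X Y Sy.P)) x - Gw X Y w (GG X Y Sy.P (fixL X Y Sy.Q)) x ∧
    Gw X Y w (GG X Y Sy.Q (fixL X Y Sy.P)) x - Gw X Y w (GG X Y Sy.P (fixL X Y Sy.Q)) x ≤
      2 * gam * gp X Y w x' := by
  constructor
  · rw [sub_pos]
    exact Gw_strictMono h w (GG_leaf h _ (fixL_leaf h _)) (GG_leaf h _ (fixL_leaf h _))
      (fun x => GPQ_lt_GQP h x) x
  · have := (a37_comp h w (m := gam) (GG_leaf h Sy.P (fixL_leaf h Sy.Q))
      (GG_leaf h Sy.Q (fixL_leaf h Sy.P)) (by norm_num [gam]) (by norm_num [gam]) ?_ x x').2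
    · refine this.trans (mul_le_mul_of_nonneg_right ?_ (gp_pos h w x').le)
      norm_num [gam, kap]
    · intro x y
      have h1 := abs_le.1 (GGQP_val h x)
      have h2 := abs_le.1 (GGPQ_val h y)
      have h3 := ee_pos
      rw [abs_le]
      constructor <;> linarith [h1.1, h1.2, h2.1, h2.2]

end Pool.Agent.Lib.H37N
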