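import Pool.Agent.Lib.H37N.ADefs

/-!
# H37N A32 (size M, pure real inequality): one step of the distortion estimate
-/

open Set Filter Topology

namespace Pool.Agent.Lib.H37N

theorem a32_log {x y m : ℝ} (hm : 0 < m) (hx : m ≤ x) (hy : m ≤ y) :
    |Real.log x - Real.log y| ≤ |x - y| / m := by
  have hx0 : 0 < x := hm.trans_le hx
  have hy0 : 0 < y := hm.trans_le hy
  have key : ∀ x y : ℝ, m ≤ x → m ≤ y → Real.log x - Real.log y ≤ |x - y| / m := by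
    intro x y hx hy
    have hx0 : 0 < x := hm.trans_le hx
    have hy0 : 0 < y := hm.trans_le hy
    rw [← Real.log_div hx0.ne' hy0.ne']
    refine (Real.log_le_sub_one_of_pos (div_pos hx0 hy0)).trans ?_
    have e : x / y - 1 = (x - y) / y := by field_simp
    rw [e]
    refine (div_le_div_of_nonneg_right (le_abs_self _) hy0.le).trans ?_
    exact div_le_div_of_nonneg_left (abs_nonneg _) hm hy
  rw [abs_le]
  constructor
  · have := key y x hy hx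
    rw [abs_sub_comm] at this
    linarith
  · exact key x y hx hy

theorem a32_prod {a a' r1 r1' δ : ℝ} (hδ : 0 ≤ δ)
    (ha' : |a'| ≤ ee) (hr : |r1| ≤ 3 * ee) (hab : |a - a'| ≤ ee * δ) :
    |a * r1 - a' * r1'| ≤ 1 / 10 ^ 5 * (ee * δ) + ee * |r1 - r1'| := by
  have hee : 0 < ee := ee_pos
  have e : a * r1 - a' * r1' = (a - a') * r1 + a' * (r1 - r1') := by ring
  rw [e]
  refine (abs_add_le _ _).trans ?_
  rw [abs_mul, abs_mul]
  have h1 : |a - a'| * |r1| ≤ (ee * δ) * (3 * ee) :=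
    mul_le_mul hab hr (abs_nonneg _) (mul_nonneg hee.le hδ)
  have h2 : |a'| * |r1 - r1'| ≤ ee * |r1 - r1'| :=
    mul_le_mul_of_nonneg_right ha' (abs_nonneg _)
  have h3 : (ee * δ) * (3 * ee) ≤ 1 / 10 ^ 5 * (ee * δ) := by
    have : 3 * ee ≤ 1 / 10 ^ 5 := by norm_num [ee]
    have := mul_le_mul_of_nonneg_left this (mul_nonneg hee.le hδ)
    linarith
  linarith

theorem a32_small {a r1 : ℝ} (ha : |a| ≤ ee) (hr : |r1| ≤ 3 * ee) : |a * r1| ≤ 1 / 10 ^ 5 := by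
  have hee : 0 < ee := ee_pos
  rw [abs_mul]
  have h1 : |a| * |r1| ≤ ee * (3 * ee) := mul_le_mul ha hr (abs_nonneg _) hee.le
  refine h1.trans ?_
  norm_num [ee]

/-- `ρ = b / (1 - a r1)` is the ratio `D (n+1) / D n`, `r0 = c r1 ρ + d`; the primed numbers belong to a second pair.
Proof. `|a r1| ≤ 3 ee^2`. `|log ρ - log ρ'| ≤ |log b - log b'| + |log (1 - a r1) - log (1 - a' r1')|`.
`|log b - log b'| ≤ |b - b'| / min b b' ≤ ee δ / .1899 ≤ 5.3 ee δ` (`Real.log_le_sub_one_of_pos` applied to the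
quotient), `|log (1 - u) - log (1 - u')| ≤ 1.01 |u - u'|` for `|u|, |u'| ≤ 10^-3`, `|a r1 - a' r1'| ≤ |a - a'| |r1| + |a'| |r1 - r1'| ≤
3 ee^2 δ + ee |r1 - r1'|`. -/
theorem step_log {b b' a a' r1 r1' δ q : ℝ} (hδ : 0 ≤ δ) (hq : 19 / 100 ≤ q) (hq' : q ≤ 81 / 100)
    (hb : |b - q| ≤ ee) (hb' : |b' - q| ≤ ee) (ha : |a| ≤ ee) (ha' : |a'| ≤ ee)
    (hr : |r1| ≤ 3 * ee) (hr' : |r1'| ≤ 3 * ee) (hab : |a - a'| ≤ ee * δ) (hbb : |b - b'| ≤ ee * δ) :
    |Real.log (b / (1 - a * r1)) - Real.log (b' / (1 - a' * r1'))| ≤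
      10 * (ee * δ + ee * |r1 - r1'|) := by
  have hee : 0 < ee := ee_pos
  have hee2 : ee ≤ 1 / 10 ^ 5 := by norm_num [ee]
  have hu := a32_small ha hr
  have hu' := a32_small ha' hr'
  have hp := a32_prod (r1' := r1') hδ ha' hr hab
  rw [abs_le] at hb hb' hu hu'
  have hb1 : 18 / 100 ≤ b := by norm_num at hee2; linarith
  have hb1' : 18 / 100 ≤ b' := by norm_num at hee2; linarith
  have hv : 99 / 100 ≤ 1 - a * r1 := by linarith
  have hv' : 99 / 100 ≤ 1 - a' * r1' := by linarith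
  rw [Real.log_div (by linarith) (by linarith), Real.log_div (by linarith) (by linarith)]
  have k1 := a32_log (by norm_num) hb1 hb1'
  have k2 := a32_log (by norm_num) hv hv'
  have e1 : (1 - a * r1) - (1 - a' * r1') = -(a * r1 - a' * r1') := by ring
  rw [e1, abs_neg] at k2
  have e2 : Real.log b - Real.log (1 - a * r1) - (Real.log b' - Real.log (1 - a' * r1')) =
      (Real.log b - Real.log b') - (Real.log (1 - a * r1) - Real.log (1 - a' * r1')) := by ring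
  rw [e2]
  refine (abs_sub _ _).trans ?_
  have hS : 0 ≤ ee * |r1 - r1'| := mul_nonneg hee.le (abs_nonneg _)
  have hM : 0 ≤ ee * δ := mul_nonneg hee.le hδ
  have k3 : |b - b'| / (18 / 100) ≤ (ee * δ) / (18 / 100) :=
    div_le_div_of_nonneg_right hbb (by norm_num)
  have k4 : |a * r1 - a' * r1'| / (99 / 100) ≤
      (1 / 10 ^ 5 * (ee * δ) + ee * |r1 - r1'|) / (99 / 100) :=
    div_le_div_of_nonneg_right hp (by norm_num)
  linarith

/-- Proof. `ρ, ρ' ∈ [.189, .8101]`; `|ρ - ρ'| ≤ ` (direct: `ρ - ρ' = (b (1 - a' r1') - b' (1 - a r1)) / ((1 - a r1)(1 - a' r1'))`)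
`≤ 1.001 (|b - b'| + |a r1 - a' r1'|) ≤ 1.01 ee δ + 1.01 ee |r1 - r1'| + 4 ee^2 δ`. Then
`|c r1 ρ - c' r1' ρ'| ≤ |c - c'| |r1| ρ + |c'| |r1 - r1'| ρ + |c'| |r1'| |ρ - ρ'|
≤ 3 ee^2 δ + (.8101)(.8101) |r1 - r1'| + 3 ee (...)`, `|d - d'| ≤ ee δ`; total `≤ .7 |r1 - r1'| + 10 ee δ`. -/
theorem step_r {b b' a a' c c' d d' r1 r1' δ p q : ℝ} (hδ : 0 ≤ δ) (hq : 19 / 100 ≤ q)
    (hq' : q ≤ 81 / 100) (hp : 19 / 100 ≤ p) (hp' : p ≤ 81 / 100)
    (hb : |b - q| ≤ ee) (hb' : |b' - q| ≤ ee) (ha : |a| ≤ ee) (ha' : |a'| ≤ ee)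
    (hc : |c - p| ≤ ee) (hc' : |c' - p| ≤ ee) (hd : |d| ≤ ee) (hd' : |d'| ≤ ee)
    (hr : |r1| ≤ 3 * ee) (hr' : |r1'| ≤ 3 * ee) (hab : |a - a'| ≤ ee * δ) (hbb : |b - b'| ≤ ee * δ)
    (hcc : |c - c'| ≤ ee * δ) (hdd : |d - d'| ≤ ee * δ) :
    |(c * r1 * (b / (1 - a * r1)) + d) - (c' * r1' * (b' / (1 - a' * r1')) + d')| ≤
      7 / 10 * |r1 - r1'| + 10 * ee * δ := by
  have hee : 0 < ee := ee_pos
  have hee2 : ee ≤ 1 / 10 ^ 5 := by norm_num [ee]
  have hu := a32_small ha hr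
  have hu' := a32_small ha' hr'
  have hP := a32_prod (r1' := r1') hδ ha' hr hab
  have hbA := hb
  have hbA' := hb'
  have hcA' := hc'
  rw [abs_le] at hb hb' hu hu' hc'
  have hv : 99 / 100 ≤ 1 - a * r1 := by linarith
  have hv' : 99 / 100 ≤ 1 - a' * r1' := by linarith
  have hv0 : 0 < 1 - a * r1 := by linarith
  have hv0' : 0 < 1 - a' * r1' := by linarith
  have hS : 0 ≤ |r1 - r1'| := abs_nonneg _
  have hM : 0 ≤ ee * δ := mul_nonneg hee.le hδ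
  have hb1 : |b| ≤ 811 / 1000 := by
    rw [abs_le]; constructor <;> linarith
  have hb1' : |b'| ≤ 811 / 1000 := by
    rw [abs_le]; constructor <;> linarith
  have hc1' : |c'| ≤ 811 / 1000 := by
    rw [abs_le]; constructor <;> linarith
  -- the ratio
  have hinv : |(1 - a * r1)⁻¹| ≤ 1002 / 1000 := by
    rw [abs_of_pos (inv_pos.2 hv0)]
    rw [inv_le_comm₀ hv0 (by norm_num)]
    linarith
  have hinv' : |(1 - a' * r1')⁻¹| ≤ 1002 / 1000 := by
    rw [abs_of_pos (inv_pos.2 hv0')]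
    rw [inv_le_comm₀ hv0' (by norm_num)]
    linarith
  set ρ := b / (1 - a * r1) with hρ
  set ρ' := b' / (1 - a' * r1') with hρ'
  have hρb : |ρ| ≤ 813 / 1000 := by
    rw [hρ, div_eq_mul_inv, abs_mul]
    have := mul_le_mul hb1 hinv (abs_nonneg _) (by norm_num)
    norm_num at this ⊢
    linarith
  have hρρ : |ρ - ρ'| ≤ 2 * (ee * δ) + ee * |r1 - r1'| := by
    have e : ρ - ρ' = (b - b') * (1 - a * r1)⁻¹ +
        b' * ((a * r1 - a' * r1') * ((1 - a * r1)⁻¹ * (1 - a' * r1')⁻¹)) := by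
      rw [hρ, hρ']
      field_simp
      ring
    rw [e]
    refine (abs_add_le _ _).trans ?_
    rw [abs_mul, abs_mul b', abs_mul (a * r1 - a' * r1'), abs_mul (1 - a * r1)⁻¹]
    have f1 : |b - b'| * |(1 - a * r1)⁻¹| ≤ (ee * δ) * (1002 / 1000) :=
      mul_le_mul hbb hinv (abs_nonneg _) hM
    have f2 : |(1 - a * r1)⁻¹| * |(1 - a' * r1')⁻¹| ≤ (1002 / 1000) * (1002 / 1000) :=
      mul_le_mul hinv hinv' (abs_nonneg _) (by norm_num)
    have f3 : |a * r1 - a' * r1'| * (|(1 - a * r1)⁻¹| * |(1 - a' * r1')⁻¹|) ≤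
        (1 / 10 ^ 5 * (ee * δ) + ee * |r1 - r1'|) * ((1002 / 1000) * (1002 / 1000)) :=
      mul_le_mul hP f2 (by positivity) (by positivity)
    have f4 : |b'| * (|a * r1 - a' * r1'| * (|(1 - a * r1)⁻¹| * |(1 - a' * r1')⁻¹|)) ≤
        (811 / 1000) *
          ((1 / 10 ^ 5 * (ee * δ) + ee * |r1 - r1'|) * ((1002 / 1000) * (1002 / 1000))) :=
      mul_le_mul hb1' f3 (by positivity) (by norm_num)
    have hS2 : 0 ≤ ee * |r1 - r1'| := mul_nonneg hee.le hS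
    linarith
  have e : (c * r1 * ρ + d) - (c' * r1' * ρ' + d') =
      (c - c') * (r1 * ρ) + c' * ((r1 - r1') * ρ) + c' * (r1' * (ρ - ρ')) + (d - d') := by ring
  rw [e]
  have g0 := abs_add_le ((c - c') * (r1 * ρ) + c' * ((r1 - r1') * ρ) + c' * (r1' * (ρ - ρ'))) (d - d')
  have g1 := abs_add_le ((c - c') * (r1 * ρ) + c' * ((r1 - r1') * ρ)) (c' * (r1' * (ρ - ρ')))
  have g2 := abs_add_le ((c - c') * (r1 * ρ)) (c' * ((r1 - r1') * ρ))
  rw [abs_mul (c - c'), abs_mul r1, abs_mul c', abs_mul (r1 - r1')] at g2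
  rw [abs_mul c', abs_mul r1'] at g1
  have k1 : |r1| * |ρ| ≤ (3 * ee) * (813 / 1000) :=
    mul_le_mul hr hρb (abs_nonneg _) (by positivity)
  have k2 : |c - c'| * (|r1| * |ρ|) ≤ (ee * δ) * ((3 * ee) * (813 / 1000)) :=
    mul_le_mul hcc k1 (by positivity) hM
  have k3 : |r1 - r1'| * |ρ| ≤ |r1 - r1'| * (813 / 1000) :=
    mul_le_mul_of_nonneg_left hρb hS
  have k4 : |c'| * (|r1 - r1'| * |ρ|) ≤ (811 / 1000) * (|r1 - r1'| * (813 / 1000)) :=
    mul_le_mul hc1' k3 (by positivity) (by norm_num)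
  have k5 : |r1'| * |ρ - ρ'| ≤ (3 * ee) * (2 * (ee * δ) + ee * |r1 - r1'|) :=
    mul_le_mul hr' hρρ (abs_nonneg _) (by positivity)
  have k6 : |c'| * (|r1'| * |ρ - ρ'|) ≤
      (811 / 1000) * ((3 * ee) * (2 * (ee * δ) + ee * |r1 - r1'|)) :=
    mul_le_mul hc1' k5 (by positivity) (by norm_num)
  have k7 : (ee * δ) * ((3 * ee) * (813 / 1000)) ≤ (ee * δ) * 1 :=
    mul_le_mul_of_nonneg_left (by linarith) hM
  have k8 : (3 * ee) * (2 * (ee * δ) + ee * |r1 - r1'|) ≤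
      1 / 100 * (2 * (ee * δ) + ee * |r1 - r1'|) :=
    mul_le_mul_of_nonneg_right (by linarith) (by positivity)
  have k9 : ee * |r1 - r1'| ≤ 1 * |r1 - r1'| := mul_le_mul_of_nonneg_right (by linarith) hS
  linarith

end Pool.Agent.Lib.H37N
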