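import Pool.Agent.Lib.H37N.Defs

/-!
# H37N, section A: definitions (cross systems, leaves, graph transforms, linked pairs, strips)
-/

open Set Filter Topology
open scoped ContDiff

namespace Pool.Agent.Lib.H37N

noncomputable section

/-- closeness of the cross systems -/
def ee : ℝ := 1 / 10 ^ 10

/-- the interval with `NN = II ×ˢ II` -/
def II : Set ℝ := Icc (-del) (1 + del)

/-- clamping to `II` -/
def cl (x : ℝ) : ℝ := max (-del) (min x (1 + del))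

/-- leaves: functions with values in `II` and Lipschitz constant `10 ee` -/
structure IsLeaf (f : ℝ → ℝ) : Prop where
  mem : ∀ x, f x ∈ II
  lip : ∀ x y, |f x - f y| ≤ 10 * ee * |x - y|

/-- offsets of the strips of a system with widths `p` -/
def off (p : Sy → ℝ) : Sy → ℝ
  | Sy.P => 0
  | Sy.Q => p Sy.P + gam

/-- mean value property for two segments in `NN`: partial derivatives close to `s`, `t`, slowly varying -/
def MV (s t : ℝ) (F : Pt → ℝ) : Prop :=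
  ∀ z0 ∈ NN, ∀ z1 ∈ NN, ∀ z2 ∈ NN, ∀ z3 ∈ NN, ∃ a b a' b' : ℝ,
    F z1 - F z0 = a * (z1.1 - z0.1) + b * (z1.2 - z0.2) ∧
    F z3 - F z2 = a' * (z3.1 - z2.1) + b' * (z3.2 - z2.2) ∧
    |a - s| ≤ ee ∧ |b - t| ≤ ee ∧ |a' - s| ≤ ee ∧ |b' - t| ≤ ee ∧
    |a - a'| ≤ ee * max ‖z2 - z0‖ ‖z3 - z1‖ ∧ |b - b'| ≤ ee * max ‖z2 - z0‖ ‖z3 - z1‖

/-- cross systems: `x = X i (x', y)`, `y' = Y i (x', y)` -/
structure CS (p q : Sy → ℝ) (X Y : Sy → Pt → ℝ) : Prop where
  p0 : ∀ i, 19 / 100 ≤ p i ∧ p i ≤ 81 / 100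
  q0 : ∀ i, 19 / 100 ≤ q i ∧ q i ≤ 81 / 100
  psum : p Sy.P + p Sy.Q = 1 - gam
  qsum : q Sy.P + q Sy.Q = 1 - gam
  X0 : ∀ i, ∀ z ∈ NN, |X i z - (off p i + p i * z.1)| ≤ ee
  Y0 : ∀ i, ∀ z ∈ NN, |Y i z - (off q i + q i * z.2)| ≤ ee
  mvX : ∀ i, MV (p i) 0 (X i)
  mvY : ∀ i, MV 0 (q i) (Y i)

/-- exchange of the coordinates -/
def swX (F : Sy → Pt → ℝ) (i : Sy) (z : Pt) : ℝ := F i (z.2, z.1)

/-- the solution `x` of `x = X i (x', f x)` (with `x'` clamped) -/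
def sol (X : Sy → Pt → ℝ) (i : Sy) (f : ℝ → ℝ) (x' : ℝ) : ℝ :=
  Classical.epsilon fun x => x = X i (cl x', f x)

/-- graph transform -/
def GG (X Y : Sy → Pt → ℝ) (i : Sy) (f : ℝ → ℝ) (x' : ℝ) : ℝ :=
  Y i (cl x', f (sol X i f x'))

/-- graph transform of a word (the first letter is applied first) -/
def Gw (X Y : Sy → Pt → ℝ) : List Sy → (ℝ → ℝ) → (ℝ → ℝ)
  | [], f => f
  | i :: w, f => Gw X Y w (GG X Y i f)

/-- the fixed leaf of a letter -/
def fixL (X Y : Sy → Pt → ℝ) (i : Sy) (x : ℝ) : ℝ :=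
  limUnder atTop fun n : ℕ => (GG X Y i)^[n] (fun _ => 0) x

/-- constant leaves -/
def lo : ℝ → ℝ := fun _ => -del
def hi : ℝ → ℝ := fun _ => 1 + del

/-- cross orbits of length `k` with itinerary `i 0, ..., i (k-1)` -/
structure COrb (X Y : Sy → Pt → ℝ) (i : ℕ → Sy) (k : ℕ) (x y : ℕ → ℝ) : Prop where
  mx : ∀ n ≤ k, x n ∈ II
  my : ∀ n ≤ k, y n ∈ II
  ex : ∀ n < k, x n = X (i n) (x (n + 1), y n)
  ey : ∀ n < k, y (n + 1) = Y (i n) (x (n + 1), y n)

open Classical in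
/-- the cross system of `g`: for `(x', y) ∈ NN` the number `x` with `(x, y) ∈ VV i`, `(g (x, y)).1 = x'` -/
def XX (g : Pt → Pt) (i : Sy) (z : Pt) : ℝ :=
  if z ∈ NN then Classical.epsilon fun x => (x, z.2) ∈ VV i ∧ (g (x, z.2)).1 = z.1 else 0

open Classical in
def YY (g : Pt → Pt) (i : Sy) (z : Pt) : ℝ :=
  if z ∈ NN then (g (XX g i z, z.2)).2 else 0

/-- unstable leaf `U_w^b` (graph `y = Uu g b w x`); a new FIRST letter of `w` refines -/
def Uu (g : Pt → Pt) (b : Sy) (w : List Sy) : ℝ → ℝ :=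
  Gw (XX g) (YY g) w (fixL (XX g) (YY g) b)

/-- stable leaf `S_v^b` (graph `x = Ss g b v y`); a new LAST letter of `v` refines -/
def Ss (g : Pt → Pt) (b : Sy) (v : List Sy) : ℝ → ℝ :=
  Gw (swX (YY g)) (swX (XX g)) v.reverse (fixL (swX (YY g)) (swX (XX g)) b)

/-- the projection of the fold region -/
def JJ : Set ℝ := Icc (xc - u0) (xc + u0)

/-- horizontal distance of the image of the point `(x, f x)` from the graph of `s` -/
def hh (g : Pt → Pt) (f s : ℝ → ℝ) (x : ℝ) : ℝ := (g (x, f x)).1 - s (g (x, f x)).2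

def DD (g : Pt → Pt) (f s : ℝ → ℝ) : ℝ := sSup (hh g f s '' JJ)

def hU (g : Pt → Pt) (w : List Sy) : ℝ := Uu g Sy.Q w xc - Uu g Sy.P w xc
def hS (g : Pt → Pt) (v : List Sy) : ℝ := Ss g Sy.Q v yc - Ss g Sy.P v yc
def rr (g : Pt → Pt) (w v : List Sy) : ℝ := cc * hU g w / hS g v

/-- linked pairs -/
def Linked (g : Pt → Pt) (w v : List Sy) : Prop :=
  0 ≤ DD g (Uu g Sy.Q w) (Ss g Sy.P v) ∧ DD g (Uu g Sy.P w) (Ss g Sy.Q v) ≤ 0

/-- linked pairs of comparable sizes -/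
def Ok (g : Pt → Pt) (w v : List Sy) : Prop :=
  Linked g w v ∧ 1 / 100 ≤ rr g w v ∧ rr g w v ≤ 100

/-- open strip of the word `w` over the interior of `JJ` -/
def Zs (g : Pt → Pt) (w : List Sy) : Set Pt :=
  {z | z.1 ∈ Ioo (xc - u0) (xc + u0) ∧ Gw (XX g) (YY g) w lo z.1 < z.2 ∧
    z.2 < Gw (XX g) (YY g) w hi z.1}

/-- compact core of the strip -/
def Cw (g : Pt → Pt) (w : List Sy) : Set Pt :=
  {z | |z.1 - xc| ≤ u0 / 2 ∧ Uu g Sy.P w z.1 ≤ z.2 ∧ z.2 ≤ Uu g Sy.Q w z.1}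

/-- the fixed point of `g` in `VV b` -/
def fixP (g : Pt → Pt) (b : Sy) : Pt :=
  Classical.epsilon fun z => z ∈ VV b ∧ g z = z

/-! ### easy facts -/

theorem ee_pos : 0 < ee := by norm_num [ee]

theorem II_def {x : ℝ} : x ∈ II ↔ -del ≤ x ∧ x ≤ 1 + del := Iff.rfl

theorem mem_NN {z : Pt} : z ∈ NN ↔ z.1 ∈ II ∧ z.2 ∈ II := Iff.rfl

theorem cl_mem (x : ℝ) : cl x ∈ II := by
  refine ⟨le_max_left _ _, max_le ?_ (min_le_right _ _)⟩
  norm_num [del]

theorem cl_of_mem {x : ℝ} (h : x ∈ II) : cl x = x := by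
  rw [cl, min_eq_left h.2, max_eq_right h.1]

theorem cl_cl (x : ℝ) : cl (cl x) = cl x := cl_of_mem (cl_mem x)

theorem cl_lip (x y : ℝ) : |cl x - cl y| ≤ |x - y| := by
  have h1 : |cl x - cl y| ≤ |min x (1 + del) - min y (1 + del)| := by
    unfold cl
    have := abs_max_sub_max_le_max (-del) (min x (1 + del)) (-del) (min y (1 + del))
    simpa using this
  have h2 : |min x (1 + del) - min y (1 + del)| ≤ |x - y| := by
    have := abs_min_sub_min_le_max x (1 + del) y (1 + del)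
    simpa using this
  exact h1.trans h2

theorem leaf_const {c : ℝ} (h : c ∈ II) : IsLeaf fun _ => c :=
  ⟨fun _ => h, fun x y => by
    rw [sub_self, abs_zero]; exact mul_nonneg (by norm_num [ee]) (abs_nonneg _)⟩

theorem del_le : -del ≤ 1 + del := by norm_num [del]
theorem lo_leaf : IsLeaf lo := leaf_const ⟨le_rfl, del_le⟩
theorem hi_leaf : IsLeaf hi := leaf_const ⟨del_le, le_rfl⟩

theorem IsLeaf.continuous {f : ℝ → ℝ} (h : IsLeaf f) : Continuous f := by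
  refine LipschitzWith.continuous (K := ⟨10 * ee, by norm_num [ee]⟩) ?_
  refine LipschitzWith.of_dist_le_mul fun x y => ?_
  rw [Real.dist_eq, Real.dist_eq]
  exact h.lip x y

theorem off_pw (i : Sy) : off pw i = al i := by
  cases i <;> norm_num [off, pw, al, gam]

theorem off_qw (i : Sy) : off qw i = be i := by
  cases i <;> norm_num [off, qw, be, gam]

theorem Gw_nil (X Y : Sy → Pt → ℝ) (f : ℝ → ℝ) : Gw X Y [] f = f := rfl

theorem Gw_cons (X Y : Sy → Pt → ℝ) (i : Sy) (w : List Sy) (f : ℝ → ℝ) :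
    Gw X Y (i :: w) f = Gw X Y w (GG X Y i f) := rfl

theorem Gw_append (X Y : Sy → Pt → ℝ) (w w' : List Sy) (f : ℝ → ℝ) :
    Gw X Y (w ++ w') f = Gw X Y w' (Gw X Y w f) := by
  induction w generalizing f with
  | nil => rfl
  | cons i w ih => exact ih _

/-- the clamped system only uses values on `NN` -/
theorem GG_cl (X Y : Sy → Pt → ℝ) (i : Sy) (f : ℝ → ℝ) (x : ℝ) :
    GG X Y i f (cl x) = GG X Y i f x := by
  unfold GG sol
  rw [cl_cl]

end

end Pool.Agent.Lib.H37N
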