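import Pool.Agent.Lib.H37N.Defs

/-!
# H37N, section B: definitions (linear charts, transversal connection)
-/

open Set Filter Topology
open scoped ContDiff

namespace Pool.Agent.Lib.H37N

noncomputable section

/-- the Jacobian determinant -/
def jac (g : Pt → Pt) (z : Pt) : ℝ :=
  (fderiv ℝ g z (1, 0)).1 * (fderiv ℝ g z (0, 1)).2 -
    (fderiv ℝ g z (1, 0)).2 * (fderiv ℝ g z (0, 1)).1

/-- the box of the linear charts -/
def Bx : Set Pt := Ioo (-2) 2 ×ˢ Ioo (-2) 2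

/-- range of the unstable eigenvalue -/
def muR : Sy → Set ℝ
  | Sy.P => Ioo (124 / 100) (126 / 100)
  | Sy.Q => Ioo 5 (505 / 100)

/-- the fixed points of the affine models are `(fx i, fx i)` -/
def fx : Sy → ℝ
  | Sy.P => 0
  | Sy.Q => 1

/-- the diagonal linear map -/
def dg (lam mu : ℝ) : Pt →L[ℝ] Pt :=
  (lam • ContinuousLinearMap.fst ℝ ℝ ℝ).prod (mu • ContinuousLinearMap.snd ℝ ℝ ℝ)

@[simp] theorem dg_apply (lam mu : ℝ) (v : Pt) : dg lam mu v = (lam * v.1, mu * v.2) := rfl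

/-- `κ` linearises `g` near its fixed point in `VV i`; the first coordinate is the stable one,
the second coordinate is the unstable one; `c` is the inverse of `κ` -/
structure LinChart (g : Pt → Pt) (i : Sy) (κ c : Pt → Pt) (lam mu : ℝ) : Prop where
  smooth : ContDiff ℝ ∞ κ
  inj : InjOn κ Bx
  jac_pos : ∀ v ∈ Bx, 0 < jac κ v
  isOpen : IsOpen (κ '' Bx)
  sub : κ '' Bx ⊆ interior (VV i)
  smooth_c : ContDiff ℝ ∞ c
  left : ∀ v ∈ Bx, c (κ v) = v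
  lin : ∀ x y : ℝ, |x| < 2 → |mu * y| < 2 → g (κ (x, y)) = κ (lam * x, mu * y)
  lam_mem : lam ∈ Ioo (49 / 100 : ℝ) (51 / 100)
  mu_mem : mu ∈ muR i

/-- the domain of the two affine branches -/
def VO : Set Pt := interior (VV Sy.P) ∪ interior (VV Sy.Q)

/-- the transition map from the chart at `P` to the chart at `Q` -/
def SM (g κP cQ : Pt → Pt) (kS : ℕ) (uS : ℝ) (v : Pt) : Pt := cQ (g^[kS] (κP (v.1, uS + v.2)))

/-- a transversal connection of the two fixed points -/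
structure SData (g κP κQ cQ : Pt → Pt) (kS : ℕ) (uS sS : ℝ) : Prop where
  pos : 1 ≤ kS
  u_ne : uS ≠ 0
  u_lt : |uS| < 1
  s_lt : |sS| < 1
  path : ∀ᶠ v in 𝓝 (0 : Pt), ∀ j ≤ kS, g^[j] (κP (v.1, uS + v.2)) ∈ VO
  hit : g^[kS] (κP (0, uS)) = κQ (sS, 0)
  smooth : ∀ᶠ v in 𝓝 (0 : Pt), ContDiffAt ℝ ∞ (SM g κP cQ kS uS) v
  S0 : SM g κP cQ kS uS 0 = (sS, 0)
  back : ∀ᶠ v in 𝓝 (0 : Pt), SM g κP cQ kS uS v ∈ Bx ∧
    κQ (SM g κP cQ kS uS v) = g^[kS] (κP (v.1, uS + v.2))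
  jac_pos : 0 < jac (SM g κP cQ kS uS) 0
  d_pos : 0 < (fderiv ℝ (SM g κP cQ kS uS) 0 (0, 1)).2

/-- the data of the two charts and of the connection -/
structure Fr where
  κ : Sy → Pt → Pt
  c : Sy → Pt → Pt
  lam : Sy → ℝ
  mu : Sy → ℝ
  kS : ℕ
  uS : ℝ
  sS : ℝ

/-- `F` is a frame of `g` -/
structure IsFr (g : Pt → Pt) (F : Fr) : Prop where
  chart : ∀ i, LinChart g i (F.κ i) (F.c i) (F.lam i) (F.mu i)
  irr : Irrational (Real.log (F.lam Sy.P * F.mu Sy.P) / Real.log (F.lam Sy.Q * F.mu Sy.Q))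
  sdata : SData g (F.κ Sy.P) (F.κ Sy.Q) (F.c Sy.Q) F.kS F.uS F.sS

end

end Pool.Agent.Lib.H37N
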