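import Pool.Agent.Lib.H37N.BDefs

/-!
# H37N, section C: tangency data, places (definitions)
-/

open Set Filter Topology Asymptotics
open scoped ContDiff

namespace Pool.Agent.Lib.H37N

noncomputable section

/-- the transition from the unstable axis of `P` to the stable axis of `Q` in the charts -/
def SS (g : Pt → Pt) (s : Fr) (v : Pt) : Pt := SM g (s.κ Sy.P) (s.c Sy.Q) s.kS s.uS v

/-- the map from the chart at `Q` to the point after `k` steps -/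
def InM (g : Pt → Pt) (s : Fr) (b : ℝ) (k : ℕ) (v : Pt) : Pt := g^[k] (s.κ Sy.Q (v.1, b + v.2))

/-- the chart coordinates at `P` after `l` steps -/
def PlM (g : Pt → Pt) (s : Fr) (l : ℕ) (w : Pt) : Pt := s.c Sy.P (g^[l] w)

/-- the transition map from the chart at `Q` to the chart at `P` -/
def TT (g : Pt → Pt) (s : Fr) (b : ℝ) (k l : ℕ) (v : Pt) : Pt :=
  PlM g s l (g (InM g s b k v))

/-- `g' = g` off `Z` -/
def EqOff (Z : Set Pt) (g g' : Pt → Pt) : Prop :=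
  ∀ z ∈ VV Sy.P ∪ VV Sy.Q ∪ FF, z ∉ Z → g' z = g z

/-- a tangency of order (at least) `m` between the unstable manifold of `Q` and the stable manifold of
`P`, which visits the fold region only in the open set `Z` -/
structure TD (g : Pt → Pt) (s : Fr) (Z : Set Pt) (m : ℕ) (b a : ℝ) (k l : ℕ) : Prop where
  openZ : IsOpen Z
  subZ : Z ⊆ interior FF
  b_pos : 0 < |b|
  b_lt : |b| < 1
  a_lt : |a| < 1
  path1 : ∀ i ≤ k, InM g s b i 0 ∈ VO ∪ Z
  memZ : InM g s b k 0 ∈ Z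
  dist : ∀ i < k, InM g s b i 0 ≠ InM g s b k 0
  path2 : ∀ i ≤ l, g^[i] (g (InM g s b k 0)) ∈ VO
  fin : g^[l] (g (InM g s b k 0)) = s.κ Sy.P (a, 0)
  ord : (fun t : ℝ => (TT g s b k l (0, t)).2) =O[𝓝 0] fun t => |t| ^ (m + 1)

/-- a place where the map can be perturbed: the chart coordinates `PlM` identify the open set `D` with
the ball of radius `r` around `(a,0)`; the orbits of the points of `B` in the chart at `Q` enter `D`
exactly at the time `k + 1` -/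
structure Place (g : Pt → Pt) (s : Fr) (Z : Set Pt) (b a : ℝ) (k l : ℕ) (r : ℝ) (D B : Set Pt)
    (Li : Pt → Pt) : Prop where
  r_pos : 0 < r
  r_lt : |a| + r < 1
  openD : IsOpen D
  subD : D ⊆ g '' Z
  compD : ∃ C : Set Pt, IsCompact C ∧ D ⊆ C ∧ C ⊆ K0 ∧ C ⊆ g '' Z
  Pl_mem : ∀ w ∈ D, PlM g s l w ∈ Metric.ball ((a, 0) : Pt) r
  Li_Pl : ∀ w ∈ D, Li (PlM g s l w) = w
  Li_mem : ∀ v ∈ Metric.ball ((a, 0) : Pt) r, Li v ∈ D
  Pl_Li : ∀ v ∈ Metric.ball ((a, 0) : Pt) r, PlM g s l (Li v) = v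
  smLi : ContDiffOn ℝ ∞ Li (Metric.ball ((a, 0) : Pt) r)
  smPl : ContDiffOn ℝ ∞ (PlM g s l) D
  path : ∀ w ∈ D, ∀ i ≤ l, g^[i] w ∈ VO
  land : ∀ w ∈ D, g^[l] w = s.κ Sy.P (PlM g s l w)
  nhB : B ∈ 𝓝 (0 : Pt)
  boxB : ∀ v ∈ B, |v.1| < 1 ∧ |b + v.2| < 1
  pathB : ∀ v ∈ B, ∀ i ≤ k, InM g s b i v ∈ VO ∪ Z
  notD : ∀ v ∈ B, ∀ i < k, g (InM g s b i v) ∉ D
  inD : ∀ v ∈ B, g (InM g s b k v) ∈ D
  TB : ∀ v ∈ B, TT g s b k l v ∈ Metric.ball ((a, 0) : Pt) (r / 2)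

/-- an admissible perturbation at the place -/
def Adm (D : Set Pt) (ψ : Pt → Pt) : Prop := (∀ w ∉ D, ψ w = w) ∧ ∀ w ∈ D, ψ w ∈ D

end

end Pool.Agent.Lib.H37N
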