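import Mathlib

/-! # H37N, chunk T5d (S/M): polynomials of degree at most k which are O(|v|^(k+1)) vanish -/

open Set Filter Topology Asymptotics
open scoped ContDiff

namespace Pool.Agent.Lib.H37N

variable {W : Type} [NormedAddCommGroup W] [NormedSpace ℝ W]

/-- PROOF. Induction on k (or strong induction on n): suppose c m = 0 for m < n; then Σ_{m ≤ k} t^m c m = t^n (c n + O(t)) = O(t^(k+1)), k+1 > n; divide by t^n, let t → 0
(t ≠ 0): c n = 0. -/
theorem poly1_unique (k : ℕ) (c : ℕ → W)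
    (h : (fun t : ℝ => ∑ n ∈ Finset.range (k + 1), t ^ n • c n) =O[𝓝 0] fun t : ℝ => t ^ (k + 1)) :
    ∀ n ≤ k, c n = 0 := by
  intro n
  induction n using Nat.strong_induction_on with
  | _ n ih =>
  intro hn
  set g : ℝ → W := fun t => ∑ m ∈ Finset.range (k + 1), t ^ (m - n) • c m with hg
  have hfg : ∀ t : ℝ, ∑ m ∈ Finset.range (k + 1), t ^ m • c m = t ^ n • g t := by
    intro t
    rw [hg]
    simp only [Finset.smul_sum, smul_smul]
    apply Finset.sum_congr rfl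
    intro m hm
    by_cases h1 : m < n
    · rw [ih m h1 (by omega)]
      simp
    · rw [← pow_add]
      congr 2
      omega
  have hgc : Continuous g := by
    rw [hg]
    fun_prop
  have hg0 : g 0 = c n := by
    rw [hg]
    show ∑ m ∈ Finset.range (k + 1), (0 : ℝ) ^ (m - n) • c m = c n
    rw [Finset.sum_eq_single_of_mem n (Finset.mem_range.2 (by omega))]
    · simp
    · intro m _ hmn
      by_cases h1 : m < n
      · rw [ih m h1 (by omega)]
        simp
      · rw [zero_pow (by omega), zero_smul]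
  have h1 : (fun t : ℝ => t ^ n • g t) =o[𝓝 0] fun t : ℝ => t ^ n := by
    have h2 : (fun t : ℝ => t ^ n • g t) =O[𝓝 0] fun t : ℝ => t ^ (k + 1) := by
      refine h.congr_left fun t => hfg t
    exact h2.trans_isLittleO (isLittleO_pow_pow (by omega))
  have h3 := (h1.mono (nhdsWithin_le_nhds (s := {0}ᶜ))).tendsto_inv_smul_nhds_zero
  have h4 : Tendsto (fun t : ℝ => (t ^ n)⁻¹ • t ^ n • g t) (𝓝[≠] 0) (𝓝 (g 0)) := by
    have h5 : Tendsto g (𝓝[≠] 0) (𝓝 (g 0)) := (hgc.tendsto 0).mono_left nhdsWithin_le_nhds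
    refine h5.congr' ?_
    filter_upwards [self_mem_nhdsWithin] with t ht
    have ht' : t ^ n ≠ 0 := pow_ne_zero _ ht
    rw [smul_smul, inv_mul_cancel₀ ht', one_smul]
  rw [← hg0]
  exact tendsto_nhds_unique h4 h3

/-- PROOF. For fixed (ξ,η) compose with t ↦ (tξ, tη): the sum is Σ_n t^n Q_n(ξ,η), Q_n(ξ,η) = Σ_{a+b=n} ξ^a η^b c a b, and it is O(t^(k+1)); by `poly1_unique` Q_n(ξ,η) = 0 for
n ≤ k.  With η = 1: Σ_{a ≤ n} ξ^a • c a (n-a) = 0 for all ξ ∈ ℝ, so it is O(ξ^(n+1)) and `poly1_unique` (degree n) gives c a (n-a) = 0. -/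
theorem poly2_unique (k : ℕ) (c : ℕ → ℕ → W)
    (h : (fun z : ℝ × ℝ => ∑ n ∈ Finset.range (k + 1), ∑ a ∈ Finset.range (n + 1),
      (z.1 ^ a * z.2 ^ (n - a)) • c a (n - a)) =O[𝓝 0] fun z => ‖z‖ ^ (k + 1)) :
    ∀ a b, a + b ≤ k → c a b = 0 := by
  have h1 : ∀ (ξ η : ℝ), ∀ n ≤ k, ∑ a ∈ Finset.range (n + 1), (ξ ^ a * η ^ (n - a)) • c a (n - a) = 0 := by
    intro ξ η
    apply poly1_unique k (fun n => ∑ a ∈ Finset.range (n + 1), (ξ ^ a * η ^ (n - a)) • c a (n - a))
    have ht : Tendsto (fun t : ℝ => (t * ξ, t * η)) (𝓝 0) (𝓝 (0 : ℝ × ℝ)) := by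
      have h2 : Continuous (fun t : ℝ => (t * ξ, t * η)) := by fun_prop
      have h3 := h2.tendsto 0
      simp only [zero_mul] at h3
      exact h3
    have h4 := h.comp_tendsto ht
    have h5 : (fun t : ℝ => ∑ n ∈ Finset.range (k + 1), t ^ n •
        ∑ a ∈ Finset.range (n + 1), (ξ ^ a * η ^ (n - a)) • c a (n - a)) =
        ((fun z : ℝ × ℝ => ∑ n ∈ Finset.range (k + 1), ∑ a ∈ Finset.range (n + 1),
      (z.1 ^ a * z.2 ^ (n - a)) • c a (n - a)) ∘ fun t : ℝ => (t * ξ, t * η)) := by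
      funext t
      simp only [Function.comp]
      apply Finset.sum_congr rfl
      intro n _
      rw [Finset.smul_sum]
      apply Finset.sum_congr rfl
      intro a ha
      have ha' : a ≤ n := by
        have := Finset.mem_range.1 ha
        omega
      rw [smul_smul]
      congr 1
      rw [mul_pow, mul_pow]
      have h6 : t ^ n = t ^ a * t ^ (n - a) := by
        rw [← pow_add]
        congr 1
        omega
      rw [h6]
      ring
    rw [h5]
    refine h4.trans ?_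
    have h7 : ((fun z : ℝ × ℝ => ‖z‖ ^ (k + 1)) ∘ fun t : ℝ => (t * ξ, t * η)) =
        fun t : ℝ => ‖(ξ, η)‖ ^ (k + 1) * ‖t ^ (k + 1)‖ := by
      funext t
      simp only [Function.comp]
      have h8 : (t * ξ, t * η) = t • ((ξ, η) : ℝ × ℝ) := by simp
      rw [h8, norm_smul, mul_pow, norm_pow]
      ring
    rw [h7]
    exact (isBigO_norm_left.2 (isBigO_refl _ _)).const_mul_left _
  intro a b hab
  have h9 := poly1_unique (a + b) (fun a' => c a' (a + b - a')) (by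
    have h10 : (fun t : ℝ => ∑ n ∈ Finset.range (a + b + 1), t ^ n • c n (a + b - n)) =
        fun _ => (0 : W) := by
      funext t
      have h11 := h1 t 1 (a + b) hab
      simpa using h11
    rw [h10]
    exact isBigO_zero _ _) a (by omega)
  have h12 : a + b - a = b := by omega
  rw [h12] at h9
  exact h9

/-- PROOF. |x|, |y| ≤ ‖(x,y)‖ (sup norm) and G is bounded near 0: each term is O(‖z‖^(k+1)); `IsBigO.sum`. -/
theorem remainder2_isBigO (k : ℕ) (G : ℕ → ℕ → ℝ × ℝ → W) (hG : ∀ a b, ContinuousAt (G a b) 0) :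
    (fun z : ℝ × ℝ => ∑ a ∈ Finset.range (k + 2), (z.1 ^ a * z.2 ^ (k + 1 - a)) • G a (k + 1 - a) z)
      =O[𝓝 0] fun z => ‖z‖ ^ (k + 1) := by
  apply IsBigO.fun_sum
  intro a ha
  have ha' : a ≤ k + 1 := by
    have := Finset.mem_range.1 ha
    omega
  have h1 : (fun z : ℝ × ℝ => G a (k + 1 - a) z) =O[𝓝 0] fun _ => (1 : ℝ) :=
    (hG a (k + 1 - a)).isBigO_one ℝ
  have h2 : (fun z : ℝ × ℝ => z.1 ^ a * z.2 ^ (k + 1 - a)) =O[𝓝 0] fun z => ‖z‖ ^ (k + 1) := by
    apply IsBigO.of_bound 1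
    filter_upwards with z
    rw [norm_mul, norm_pow, norm_pow, norm_pow, norm_norm, one_mul]
    have h3 : ‖z.1‖ ^ a ≤ ‖z‖ ^ a := pow_le_pow_left₀ (norm_nonneg _) (norm_fst_le z) _
    have h4 : ‖z.2‖ ^ (k + 1 - a) ≤ ‖z‖ ^ (k + 1 - a) :=
      pow_le_pow_left₀ (norm_nonneg _) (norm_snd_le z) _
    calc ‖z.1‖ ^ a * ‖z.2‖ ^ (k + 1 - a) ≤ ‖z‖ ^ a * ‖z‖ ^ (k + 1 - a) :=
          mul_le_mul h3 h4 (by positivity) (by positivity)
      _ = ‖z‖ ^ (k + 1) := by
          rw [← pow_add]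
          congr 1
          omega
  have h5 := h2.smul h1
  simpa using h5

end Pool.Agent.Lib.H37N
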