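import Pool.Agent.Lib.H37N.B01

/-! # H37N, chunk B02 (M): fixed points -/

open Set Filter Topology
open scoped ContDiff

namespace Pool.Agent.Lib.H37N

/-- The contraction whose fixed points are the fixed points of g in VV i. -/
noncomputable def b02Phi (g : Pt → Pt) (i : Sy) (z : Pt) : Pt :=
  (z.1 - pw i / (1 - pw i) * ((g z).1 - z.1), (g z).2)

theorem b02_pw (i : Sy) : 0 < pw i ∧ pw i < 1 ∧ pw i / (1 - pw i) ≤ 4 ∧ 0 < pw i / (1 - pw i) := by
  cases i <;> simp only [pw] <;> norm_num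

/-- PROOF. κ = pw/(1-pw) ≤ 4, 1 + κ = κ/pw, so Φ₁(z) - Φ₁(z') = - κ ((g z).1 - (g z').1 - (z.1-z'.1)/pw), at most 8 e0 ‖z-z'‖ (`Near.diff`);
|Φ₂(z)-Φ₂(z')| ≤ qw |z.2-z'.2| + 2 e0 ‖z-z'‖ ≤ (51/100) ‖z-z'‖. -/
theorem b02_contr {g : Pt → Pt} (hg : Near g) {i : Sy} {z z' : Pt} (hz : z ∈ VV i) (hz' : z' ∈ VV i) :
    ‖b02Phi g i z - b02Phi g i z'‖ ≤ 51 / 100 * ‖z - z'‖ := by
  obtain ⟨d1, d2⟩ := hg.diff hz hz'
  obtain ⟨p0, p1, p4, pp⟩ := b02_pw i
  have n2 : |z.2 - z'.2| ≤ ‖z - z'‖ := by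
    have := norm_snd_le (z - z')
    rwa [Real.norm_eq_abs] at this
  have nn : 0 ≤ ‖z - z'‖ := norm_nonneg _
  rw [Prod.norm_def]
  apply max_le
  · rw [Real.norm_eq_abs]
    have h1 : (b02Phi g i z - b02Phi g i z').1
        = -(pw i / (1 - pw i)) * ((g z).1 - (g z').1 - (z.1 - z'.1) / pw i) := by
      have hne : pw i ≠ 0 := p0.ne'
      have hne' : 1 - pw i ≠ 0 := by linarith
      simp only [b02Phi, Prod.fst_sub]
      field_simp
      ring
    rw [h1, abs_mul, abs_neg, abs_of_pos pp]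
    calc pw i / (1 - pw i) * |(g z).1 - (g z').1 - (z.1 - z'.1) / pw i|
        ≤ 4 * (2 * e0 * ‖z - z'‖) := by gcongr
      _ ≤ 51 / 100 * ‖z - z'‖ := by
          unfold e0
          nlinarith
  · rw [Real.norm_eq_abs]
    have h1 : (b02Phi g i z - b02Phi g i z').2
        = ((g z).2 - (g z').2 - qw i * (z.2 - z'.2)) + qw i * (z.2 - z'.2) := by
      simp only [b02Phi, Prod.snd_sub]
      ring
    have q1 : 0 ≤ qw i ∧ qw i ≤ 1 / 2 := by
      cases i <;> simp only [qw] <;> norm_num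
    rw [h1]
    calc |((g z).2 - (g z').2 - qw i * (z.2 - z'.2)) + qw i * (z.2 - z'.2)|
        ≤ |(g z).2 - (g z').2 - qw i * (z.2 - z'.2)| + |qw i * (z.2 - z'.2)| := abs_add_le _ _
      _ ≤ 2 * e0 * ‖z - z'‖ + 1 / 2 * ‖z - z'‖ := by
          rw [abs_mul, abs_of_nonneg q1.1]
          have := mul_le_mul q1.2 n2 (abs_nonneg _) (by norm_num)
          linarith
      _ ≤ 51 / 100 * ‖z - z'‖ := by
          unfold e0
          nlinarith

theorem b02_close {g : Pt → Pt} (hg : Near g) {i : Sy} {z : Pt} (hz : z ∈ VV i) :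
    |(b02Phi g i z).1 - fx i| ≤ 4 * e0 ∧ |(b02Phi g i z).2 - (be i + qw i * z.2)| ≤ e0 := by
  obtain ⟨c1, c2⟩ := hg.close0 i z hz
  obtain ⟨p0, p1, p4, pp⟩ := b02_pw i
  simp only [Aff] at c1 c2
  refine ⟨?_, c2⟩
  have h1 : (b02Phi g i z).1 - fx i = -(pw i / (1 - pw i)) * ((g z).1 - (z.1 - al i) / pw i) := by
    simp only [b02Phi]
    cases i
    · simp only [pw, al, fx]
      ring
    · simp only [pw, al, fx]
      ring
  rw [h1, abs_mul, abs_neg, abs_of_pos pp]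
  gcongr

/-- PROOF. |(g z).1 - (z.1 - al)/pw| ≤ e0 and |(g z).2 - (be + qw z.2)| ≤ e0 (`hg.close0`).  So |Φ₁(z) - al/(1-pw)| ≤ 4 e0, al/(1-pw) = fx i (0 for P, 1 for Q), and Φ₂(z) is within
e0 of be + qw z.2 ∈ [-qw del, be + qw + qw del], be ≥ 0, be + qw ≤ 1 (P: 0, 1/2; Q: 501/1000, 499/1000). -/
theorem b02_maps {g : Pt → Pt} (hg : Near g) {i : Sy} {z : Pt} (hz : z ∈ VV i) : b02Phi g i z ∈ VV i := by
  obtain ⟨h1, h2⟩ := b02_close hg hz
  rw [mem_VV] at hz ⊢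
  obtain ⟨⟨a1, a2⟩, a3, a4⟩ := hz
  rw [abs_le] at h1 h2
  obtain ⟨h11, h12⟩ := h1
  obtain ⟨h21, h22⟩ := h2
  cases i <;> simp only [pw, al, fx, be, qw, del, e0] at a1 a2 a3 a4 h11 h12 h21 h22 ⊢ <;>
    refine ⟨⟨?_, ?_⟩, ?_, ?_⟩ <;> linarith

theorem b02_fix_iff {g : Pt → Pt} {i : Sy} {z : Pt} : b02Phi g i z = z ↔ g z = z := by
  obtain ⟨p0, p1, p4, pp⟩ := b02_pw i
  constructor
  · intro h
    have h1 := congrArg Prod.fst h
    have h2 := congrArg Prod.snd h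
    simp only [b02Phi] at h1 h2
    have h3 : pw i / (1 - pw i) * ((g z).1 - z.1) = 0 := by linarith
    rcases mul_eq_zero.mp h3 with h4 | h4
    · exact absurd h4 pp.ne'
    · exact Prod.ext (by linarith) h2
  · intro h
    simp only [b02Phi, h, sub_self, mul_zero, sub_zero]

/-- PROOF. VV i is compact, so complete, nonempty; `ContractingWith.exists_fixedPoint'` for b02Phi g i (K = 51/100).  A fixed point z of Φ in VV i: pw/(1-pw) ≠ 0 so (g z).1 = z.1, (g z).2 = z.2.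
Closeness: |z.1 - (z.1 - al)/pw| ≤ e0 gives |z.1 - al/(1-pw)| ≤ 4 e0, |z.2 - be - qw z.2| ≤ e0 gives |z.2 - be/(1-qw)| ≤ 3 e0; al/(1-pw) = be/(1-qw) = fx i.
Interior: `mem_interior_VV`, 4 e0 < del. -/
theorem exists_fix {g : Pt → Pt} (hg : Near g) (i : Sy) :
    ∃ z ∈ interior (VV i), g z = z ∧ |z.1 - fx i| ≤ 1 / 10 ^ 11 ∧ |z.2 - fx i| ≤ 1 / 10 ^ 11 := by
  have hcl : IsClosed (VV i) := isClosed_Icc.prod isClosed_Icc
  have hne : ((fx i, fx i) : Pt) ∈ VV i := by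
    rw [mem_VV]
    cases i <;> simp only [fx, al, pw, del] <;> norm_num
  have hmaps : MapsTo (b02Phi g i) (VV i) (VV i) := fun z hz => b02_maps hg hz
  have hcon : ContractingWith (51 / 100 : NNReal) (hmaps.restrict (b02Phi g i) (VV i) (VV i)) := by
    refine ⟨?_, ?_⟩
    · rw [← NNReal.coe_lt_coe]
      push_cast
      norm_num
    · apply LipschitzWith.of_dist_le_mul
      rintro ⟨z, hz⟩ ⟨z', hz'⟩
      rw [Subtype.dist_eq, Subtype.dist_eq, dist_eq_norm, dist_eq_norm]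
      push_cast
      exact b02_contr hg hz hz'
  obtain ⟨z, hz, hfix, -⟩ := hcon.exists_fixedPoint' hcl.isComplete hmaps hne (edist_ne_top _ _)
  have hfix' : b02Phi g i z = z := hfix
  have hgz : g z = z := b02_fix_iff.mp hfix'
  obtain ⟨h1, h2⟩ := b02_close hg hz
  rw [hfix'] at h1 h2
  have hz2 := hz
  rw [mem_VV] at hz2
  obtain ⟨⟨a1, a2⟩, a3, a4⟩ := hz2
  rw [abs_le] at h1 h2
  obtain ⟨h11, h12⟩ := h1
  obtain ⟨h21, h22⟩ := h2
  refine ⟨z, ?_, hgz, ?_, ?_⟩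
  · rw [mem_interior_VV]
    cases i <;> simp only [pw, al, fx, be, qw, del, e0] at a1 a2 a3 a4 h11 h12 h21 h22 ⊢ <;>
      refine ⟨⟨?_, ?_⟩, ?_, ?_⟩ <;> linarith
  · rw [abs_le]
    cases i <;> simp only [fx, e0] at h11 h12 ⊢ <;> constructor <;> linarith
  · rw [abs_le]
    cases i <;> simp only [be, qw, fx, e0] at h21 h22 ⊢ <;> constructor <;> linarith

/-- PROOF. Both are fixed points of b02Phi; `b02_contr`. -/
theorem fix_unique {g : Pt → Pt} (hg : Near g) {i : Sy} {z z' : Pt} (hz : z ∈ VV i) (hz' : z' ∈ VV i)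
    (h : g z = z) (h' : g z' = z') : z = z' := by
  have h1 := b02_contr hg hz hz'
  rw [b02_fix_iff.mpr h, b02_fix_iff.mpr h'] at h1
  have h2 : 0 ≤ ‖z - z'‖ := norm_nonneg _
  have h3 : ‖z - z'‖ = 0 := by linarith
  exact sub_eq_zero.mp (norm_eq_zero.mp h3)

end Pool.Agent.Lib.H37N
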