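import Pool.Agent.Lib.H37N.T3

/-! # H37N, chunk T10a (M): inverse function theorem with a global smooth inverse -/

open Set Filter Topology Asymptotics
open scoped ContDiff

namespace Pool.Agent.Lib.H37N

variable {E Z : Type} [NormedAddCommGroup E] [NormedSpace ℝ E] [FiniteDimensional ℝ E]
  [NormedAddCommGroup Z] [NormedSpace ℝ Z] [FiniteDimensional ℝ Z]

/-- T10, general form.

PROOF. fderiv f x₀ is a continuous linear equivalence e (`ContinuousLinearEquiv.ofBijective` / `LinearEquiv.toContinuousLinearEquiv`).  `ContDiffAt.toOpenPartialHomeomorph` (n = ∞) gives a local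
homeomorphism Φ with Φ = f on its source, x₀ in the source.  Φ.symm is ContDiffAt ∞ at all points y near f x₀: for x = Φ.symm y near x₀, f is ContDiffAt ∞ at x (hypothesis) and fderiv f x
is invertible (continuity of fderiv f at x₀ and openness of the units: `ContinuousLinearEquiv.nhds`), `OpenPartialHomeomorph.contDiffAt_symm`.
So `localise_at` gives a global smooth g equal to Φ.symm near f x₀; g (f x) = x for x near x₀ (f continuous at x₀), f (g y) = y for y near f x₀. -/
theorem inverse_fun {f : E → Z} {x₀ : E} (hf : ∀ᶠ x in 𝓝 x₀, ContDiffAt ℝ ∞ f x)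
    (hb : Function.Bijective (fderiv ℝ f x₀)) :
    ∃ g : Z → E, ContDiff ℝ ∞ g ∧ g (f x₀) = x₀ ∧ (∀ᶠ x in 𝓝 x₀, g (f x) = x) ∧ ∀ᶠ y in 𝓝 (f x₀), f (g y) = y := by
  have : CompleteSpace E := FiniteDimensional.complete ℝ E
  have : CompleteSpace Z := FiniteDimensional.complete ℝ Z
  have hx0 : ContDiffAt ℝ ∞ f x₀ := hf.self_of_nhds
  obtain ⟨e, he⟩ : ∃ e : E ≃L[ℝ] Z, (e : E →L[ℝ] Z) = fderiv ℝ f x₀ := by
    refine ⟨ContinuousLinearEquiv.ofBijective (fderiv ℝ f x₀) ?_ ?_, ?_⟩
    · exact LinearMap.ker_eq_bot.2 hb.1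
    · exact LinearMap.range_eq_top.2 hb.2
    · exact ContinuousLinearEquiv.coe_ofBijective _ _ _
  have hne : (∞ : WithTop ℕ∞) ≠ 0 := by simp
  have hfd : HasFDerivAt f (e : E →L[ℝ] Z) x₀ := by
    rw [he]
    exact (hx0.differentiableAt (by simp)).hasFDerivAt
  set Φ := hx0.toOpenPartialHomeomorph f hfd hne with hΦ
  have hΦf : ∀ x, Φ x = f x := fun x => by rw [hΦ, ContDiffAt.toOpenPartialHomeomorph_coe]
  have hsrc : x₀ ∈ Φ.source := hx0.mem_toOpenPartialHomeomorph_source hfd hne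
  have htgt : f x₀ ∈ Φ.target := hx0.image_mem_toOpenPartialHomeomorph_target hfd hne
  have hsymm0 : Φ.symm (f x₀) = x₀ := by
    rw [← hΦf x₀]
    exact Φ.left_inv hsrc
  -- the derivative is invertible nearby
  have hcont : ContinuousAt (fderiv ℝ f) x₀ := (hx0.fderiv_right (m := ∞) (by simp)).continuousAt
  have hinv : ∀ᶠ x in 𝓝 x₀, fderiv ℝ f x ∈ range ((↑) : (E ≃L[ℝ] Z) → E →L[ℝ] Z) := by
    apply hcont.eventually
    rw [← he]
    exact ContinuousLinearEquiv.nhds e
  have hsc : Tendsto Φ.symm (𝓝 (f x₀)) (𝓝 x₀) := by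
    have := Φ.continuousAt_symm htgt
    rw [ContinuousAt, hsymm0] at this
    exact this
  have hgood : ∀ᶠ y in 𝓝 (f x₀), ContDiffAt ℝ ∞ Φ.symm y := by
    filter_upwards [hsc.eventually hf, hsc.eventually hinv, Φ.open_target.mem_nhds htgt] with y h1 h2 h3
    obtain ⟨e', he'⟩ := h2
    refine Φ.contDiffAt_symm (f₀' := e') h3 ?_ ?_
    · rw [he']
      exact (h1.differentiableAt (by simp)).hasFDerivAt
    · exact h1
  obtain ⟨g, hg, hgeq⟩ := localise_at hgood
  refine ⟨g, hg, ?_, ?_, ?_⟩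
  · rw [hgeq.eq_of_nhds, hsymm0]
  · filter_upwards [hx0.continuousAt.eventually hgeq, Φ.open_source.mem_nhds hsrc] with x h1 h2
    rw [h1, ← hΦf x]
    exact Φ.left_inv h2
  · filter_upwards [hgeq, Φ.open_target.mem_nhds htgt] with y h1 h2
    rw [h1, ← hΦf]
    exact Φ.right_inv h2

end Pool.Agent.Lib.H37N
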