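import Pool.Agent.Lib.H37N.BDefs
import Pool.Agent.Lib.H37N.T10a

/-! # H37N, chunk B08 (M): from a germ to a chart on the box -/

open Set Filter Topology
open scoped ContDiff

namespace Pool.Agent.Lib.H37N

theorem b08_bij (A : Pt →L[ℝ] Pt) (h : 0 < (A (1, 0)).1 * (A (0, 1)).2 - (A (1, 0)).2 * (A (0, 1)).1) :
    Function.Bijective A := by
  have hA : ∀ v : Pt, A v = v.1 • A (1, 0) + v.2 • A (0, 1) := by
    intro v
    have e : v = v.1 • ((1, 0) : Pt) + v.2 • ((0, 1) : Pt) := by simp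
    conv_lhs => rw [e]
    rw [map_add, map_smul, map_smul]
  have hinj : Function.Injective A := by
    rw [injective_iff_map_eq_zero]
    intro v hv
    rw [hA v] at hv
    have h1 := congrArg Prod.fst hv
    have h2 := congrArg Prod.snd hv
    simp only [Prod.fst_add, Prod.smul_fst, smul_eq_mul, Prod.fst_zero, Prod.snd_add, Prod.smul_snd,
      Prod.snd_zero] at h1 h2
    have e1 : ((A (1, 0)).1 * (A (0, 1)).2 - (A (1, 0)).2 * (A (0, 1)).1) * v.1 = 0 := by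
      linear_combination (A (0, 1)).2 * h1 - (A (0, 1)).1 * h2
    have e2 : ((A (1, 0)).1 * (A (0, 1)).2 - (A (1, 0)).2 * (A (0, 1)).1) * v.2 = 0 := by
      linear_combination (A (1, 0)).1 * h2 - (A (1, 0)).2 * h1
    exact Prod.ext ((mul_eq_zero.1 e1).resolve_left h.ne') ((mul_eq_zero.1 e2).resolve_left h.ne')
  exact ⟨hinj, (LinearMap.injective_iff_surjective (f := (A : Pt →ₗ[ℝ] Pt))).1 hinj⟩

theorem b08_norm {v : Pt} (hv : v ∈ Bx) : ‖v‖ < 2 := by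
  obtain ⟨h1, h2⟩ := hv
  rw [Prod.norm_def]
  exact max_lt (abs_lt.2 h1) (abs_lt.2 h2)

theorem b08_one_lt {i : Sy} {mu : ℝ} (h : mu ∈ muR i) : 1 < mu := by
  cases i
  · have := h.1
    linarith
  · have := h.1
    linarith

theorem b08_jac {κ₀ : Pt → Pt} (hκ : ContDiff ℝ ∞ κ₀) (r : ℝ) (v : Pt) :
    jac (fun v => κ₀ (r • v)) v = r ^ 2 * jac κ₀ (r • v) := by
  have h1 : HasFDerivAt (fun v : Pt => r • v) (r • ContinuousLinearMap.id ℝ Pt) v :=
    (hasFDerivAt_id v).const_smul r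
  have h2 : HasFDerivAt κ₀ (fderiv ℝ κ₀ (r • v)) (r • v) :=
    (hκ.differentiable (by simp) _).hasFDerivAt
  have h3 : fderiv ℝ (fun v => κ₀ (r • v)) v =
      (fderiv ℝ κ₀ (r • v)).comp (r • ContinuousLinearMap.id ℝ Pt) := (h2.comp v h1).fderiv
  have h4 : ∀ w : Pt, fderiv ℝ (fun v => κ₀ (r • v)) v w = r • fderiv ℝ κ₀ (r • v) w := by
    intro w
    rw [h3]
    simp only [ContinuousLinearMap.comp_apply, smul_apply,
      ContinuousLinearMap.id_apply, map_smul]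
  simp only [jac, h4, Prod.smul_fst, Prod.smul_snd, smul_eq_mul]
  ring

/-- PROOF. fderiv κ₀ 0 is bijective because jac κ₀ 0 ≠ 0 (2 x 2 matrix).  `inverse_fun`: c₀ smooth, c₀ (κ₀ v) = v for v near 0, κ₀ (c₀ w) = w for w in an open N containing κ₀ 0.
jac κ₀ is continuous (`ContDiff.continuous_fderiv`), so positive near 0.  Choose r in (0,1) such that for all u with ‖u‖ < 3 r: c₀ (κ₀ u) = u, κ₀ u ∈ N, jac κ₀ u > 0, κ₀ u ∈ interior (VV i),
g (κ₀ u) = κ₀ (dg lam mu u).  κ v = κ₀ (r • v), c w = r⁻¹ • c₀ w.  jac κ v = r^2 jac κ₀ (r v) (chain rule).  κ '' Bx = N ∩ {w | c w ∈ Bx} is open (Bx is open):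
if w ∈ N and c w ∈ Bx then w = κ₀ (c₀ w) = κ (c w).  For |x| < 2, |mu y| < 2: |y| < 2 because mu > 1 (muR i), so ‖r (x,y)‖ < 2 r. -/
theorem chart_of_germ {g : Pt → Pt} {i : Sy} {κ₀ : Pt → Pt} (hκ : ContDiff ℝ ∞ κ₀) (h0 : κ₀ 0 ∈ interior (VV i))
    (hj : 0 < jac κ₀ 0) {lam mu : ℝ} (hlam : lam ∈ Ioo (49 / 100 : ℝ) (51 / 100)) (hmu : mu ∈ muR i)
    (hconj : ∀ᶠ v in 𝓝 (0 : Pt), g (κ₀ v) = κ₀ (dg lam mu v)) :
    ∃ κ c : Pt → Pt, LinChart g i κ c lam mu := by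
  obtain ⟨c₀, hc, -, hl, hr⟩ := inverse_fun (f := κ₀) (x₀ := (0 : Pt))
    (Eventually.of_forall fun x => hκ.contDiffAt) (b08_bij _ hj)
  obtain ⟨N, hNe, hNo, hN0⟩ := eventually_nhds_iff.1 hr
  have hjc : Continuous (jac κ₀) := by
    have h1 : Continuous (fderiv ℝ κ₀) := hκ.continuous_fderiv (by simp)
    have h2 : Continuous (fun v => fderiv ℝ κ₀ v (1, 0)) := h1.clm_apply continuous_const
    have h3 : Continuous (fun v => fderiv ℝ κ₀ v (0, 1)) := h1.clm_apply continuous_const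
    exact (h2.fst.mul h3.snd).sub (h2.snd.mul h3.fst)
  have hev : ∀ᶠ u in 𝓝 (0 : Pt), c₀ (κ₀ u) = u ∧ κ₀ u ∈ N ∧ 0 < jac κ₀ u ∧ κ₀ u ∈ interior (VV i) ∧
      g (κ₀ u) = κ₀ (dg lam mu u) := by
    filter_upwards [hl, hκ.continuous.continuousAt.eventually (hNo.mem_nhds hN0),
      hjc.continuousAt.eventually (lt_mem_nhds hj),
      hκ.continuous.continuousAt.eventually (isOpen_interior.mem_nhds h0), hconj] with u h1 h2 h3 h4 h5
    exact ⟨h1, h2, h3, h4, h5⟩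
  obtain ⟨δ, hδ, hδe⟩ := Metric.eventually_nhds_iff.1 hev
  have hr0 : 0 < δ / 3 := by positivity
  set r := δ / 3 with hrdef
  have hbig : ∀ v : Pt, ‖v‖ < 2 → c₀ (κ₀ (r • v)) = r • v ∧ κ₀ (r • v) ∈ N ∧ 0 < jac κ₀ (r • v) ∧
      κ₀ (r • v) ∈ interior (VV i) ∧ g (κ₀ (r • v)) = κ₀ (dg lam mu (r • v)) := by
    intro v hv
    refine hδe ?_
    rw [dist_zero_right, norm_smul, Real.norm_of_nonneg hr0.le]
    have : r * ‖v‖ < r * 2 := mul_lt_mul_of_pos_left hv hr0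
    linarith
  have hleft : ∀ v ∈ Bx, r⁻¹ • c₀ (κ₀ (r • v)) = v := by
    intro v hv
    rw [(hbig v (b08_norm hv)).1, smul_smul, inv_mul_cancel₀ hr0.ne', one_smul]
  have hopen : IsOpen Bx := isOpen_Ioo.prod isOpen_Ioo
  have hcs : ContDiff ℝ ∞ (fun w => r⁻¹ • c₀ w) := hc.const_smul r⁻¹
  refine ⟨fun v => κ₀ (r • v), fun w => r⁻¹ • c₀ w, ?_⟩
  refine ⟨hκ.comp (contDiff_const_smul r), ?_, ?_, ?_, ?_, hcs, hleft, ?_, hlam, hmu⟩
  · intro v hv w hw hvw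
    rw [← hleft v hv, ← hleft w hw]
    simp only at hvw
    rw [hvw]
  · intro v hv
    rw [b08_jac hκ]
    exact mul_pos (by positivity) (hbig v (b08_norm hv)).2.2.1
  · have heq : (fun v => κ₀ (r • v)) '' Bx = N ∩ (fun w => r⁻¹ • c₀ w) ⁻¹' Bx := by
      ext w
      constructor
      · rintro ⟨v, hv, rfl⟩
        refine ⟨(hbig v (b08_norm hv)).2.1, ?_⟩
        simp only [mem_preimage]
        rw [hleft v hv]
        exact hv
      · rintro ⟨h1, h2⟩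
        refine ⟨r⁻¹ • c₀ w, h2, ?_⟩
        simp only
        rw [smul_smul, mul_inv_cancel₀ hr0.ne', one_smul]
        exact hNe w h1
    rw [heq]
    exact hNo.inter (hopen.preimage hcs.continuous)
  · rintro w ⟨v, hv, rfl⟩
    exact (hbig v (b08_norm hv)).2.2.2.1
  · intro x y hx hy
    have hmu1 := b08_one_lt hmu
    have hy2 : |y| < 2 := by
      rw [abs_mul, abs_of_pos (by linarith : 0 < mu)] at hy
      nlinarith [abs_nonneg y]
    have h1 := (hbig (x, y) (by rw [Prod.norm_def]; exact max_lt hx hy2)).2.2.2.2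
    rw [h1]
    congr 1
    simp only [map_smul, dg_apply]

end Pool.Agent.Lib.H37N
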