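import Pool.Agent.Lib.H37N.B01

/-! # H37N, chunk B03 (M): eigenvalues and eigenvectors of the derivative -/

open Set Filter Topology
open scoped ContDiff

namespace Pool.Agent.Lib.H37N

/-- PROOF. The inverse is v ↦ (d v.1 - b v.2, -c v.1 + a v.2) / (a d - b c). -/
theorem b03_equiv (a b c d : ℝ) (h : a * d - b * c ≠ 0) :
    ∃ C : Pt ≃L[ℝ] Pt, ∀ v : Pt, C v = (a * v.1 + b * v.2, c * v.1 + d * v.2) := by
  let e : Pt ≃ₗ[ℝ] Pt :=
    { toFun := fun v => (a * v.1 + b * v.2, c * v.1 + d * v.2)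
      map_add' := by
        intro x y
        ext
        · simp only [Prod.fst_add, Prod.snd_add]
          ring
        · simp only [Prod.fst_add, Prod.snd_add]
          ring
      map_smul' := by
        intro m x
        ext
        · simp only [Prod.smul_fst, Prod.smul_snd, smul_eq_mul, RingHom.id_apply]
          ring
        · simp only [Prod.smul_fst, Prod.smul_snd, smul_eq_mul, RingHom.id_apply]
          ring
      invFun := fun v => ((d * v.1 - b * v.2) / (a * d - b * c),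
        (-c * v.1 + a * v.2) / (a * d - b * c))
      left_inv := by
        intro v
        ext
        · simp only
          rw [div_eq_iff h]
          ring
        · simp only
          rw [div_eq_iff h]
          ring
      right_inv := by
        intro v
        ext
        · simp only
          rw [mul_div_assoc', mul_div_assoc', ← add_div, div_eq_iff h]
          ring
        · simp only
          rw [mul_div_assoc', mul_div_assoc', ← add_div, div_eq_iff h]
          ring }
  exact ⟨e.toContinuousLinearEquiv, fun v => rfl⟩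

/-- Linear algebra.

PROOF. Put Δ = (a-d)^2 + 4 b c ≥ 49/100 - 4/10^24 > 0 (a - d ≥ 7/10), r = √Δ, lam = (a + d - r)/2, mu = (a + d + r)/2.  r^2 - (a-d)^2 = 4 b c, so |r - (a-d)| ≤ 4|b c|/(a-d) ≤ 1/10^20; so |lam - d| ≤ 1/10^20,
|mu - a| ≤ 1/10^20, and (a - lam)(d - lam) = b c = (a - mu)(d - mu).  s = b/(a - lam), t = c/(mu - d).
First column of C: the vector (s, -1): a s - b = lam s (that is (a - lam) s = b) and c s - d = - lam (that is c b/(a-lam) = d - lam).
Second column: (1, t): a + b t = mu (b c/(mu-d) = mu - a) and c + d t = mu t. -/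
theorem b03_eig (a b c d : ℝ) (had : 7 / 10 ≤ a - d) (hb : |b| ≤ e0) (hc : |c| ≤ e0) :
    ∃ lam mu s t : ℝ, |lam - d| ≤ 1 / 10 ^ 20 ∧ |mu - a| ≤ 1 / 10 ^ 20 ∧ |s| ≤ 1 / 10 ^ 11 ∧ |t| ≤ 1 / 10 ^ 11 ∧
      a * s - b = lam * s ∧ c * s - d = - lam ∧ a + b * t = mu ∧ c + d * t = mu * t := by
  have he : e0 = 1 / 10 ^ 12 := rfl
  have hbc : |b * c| ≤ 1 / 10 ^ 24 := by
    rw [abs_mul]
    calc |b| * |c| ≤ e0 * e0 := mul_le_mul hb hc (abs_nonneg _) (by rw [he]; positivity)
      _ = 1 / 10 ^ 24 := by rw [he]; norm_num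
  obtain ⟨hbc1, hbc2⟩ := abs_le.1 hbc
  have hΔ : 0 ≤ (a - d) ^ 2 + 4 * (b * c) := by nlinarith
  set r := √((a - d) ^ 2 + 4 * (b * c)) with hr
  have hr0 : 0 ≤ r := Real.sqrt_nonneg _
  have hr2 : r ^ 2 = (a - d) ^ 2 + 4 * (b * c) := Real.sq_sqrt hΔ
  have hprod : (r - (a - d)) * (r + (a - d)) = 4 * (b * c) := by
    have : (r - (a - d)) * (r + (a - d)) = r ^ 2 - (a - d) ^ 2 := by ring
    rw [this, hr2]
    ring
  have hpos : 7 / 10 ≤ r + (a - d) := by linarith
  have hrd : |r - (a - d)| ≤ 1 / 10 ^ 20 := by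
    have h1 : |r - (a - d)| * (r + (a - d)) = |4 * (b * c)| := by
      rw [← hprod, abs_mul, abs_of_pos (by linarith : 0 < r + (a - d))]
    have h2 : |4 * (b * c)| ≤ 4 / 10 ^ 24 := by
      rw [abs_mul, abs_of_pos (by norm_num : (0 : ℝ) < 4)]
      linarith
    have h3 : |r - (a - d)| * (7 / 10) ≤ 4 / 10 ^ 24 := by
      calc |r - (a - d)| * (7 / 10) ≤ |r - (a - d)| * (r + (a - d)) :=
            mul_le_mul_of_nonneg_left hpos (abs_nonneg _)
        _ ≤ 4 / 10 ^ 24 := by rw [h1]; exact h2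
    have h4 := abs_nonneg (r - (a - d))
    norm_num at h3 ⊢
    linarith
  obtain ⟨h5, h6⟩ := abs_le.1 hrd
  have hD : 0 < (a - d + r) / 2 := by linarith
  have hb1 : |b / ((a - d + r) / 2)| ≤ 1 / 10 ^ 11 := by
    rw [abs_div, abs_of_pos hD, div_le_iff₀ hD]
    rw [he] at hb
    norm_num at hb ⊢
    linarith
  have hc1 : |c / ((a - d + r) / 2)| ≤ 1 / 10 ^ 11 := by
    rw [abs_div, abs_of_pos hD, div_le_iff₀ hD]
    rw [he] at hc
    norm_num at hc ⊢
    linarith
  refine ⟨(a + d - r) / 2, (a + d + r) / 2, b / ((a - d + r) / 2), c / ((a - d + r) / 2),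
    ?_, ?_, hb1, hc1, ?_, ?_, ?_, ?_⟩
  · rw [abs_le]
    constructor
    · norm_num at h5 h6 ⊢
      linarith
    · norm_num at h5 h6 ⊢
      linarith
  · rw [abs_le]
    constructor
    · norm_num at h5 h6 ⊢
      linarith
    · norm_num at h5 h6 ⊢
      linarith
  · field_simp
    ring
  · have h7 : b * c = ((a - d + r) / 2) * ((r - (a - d)) / 2) := by linarith
    have h8 : c * (b / ((a - d + r) / 2)) = (r - (a - d)) / 2 := by
      rw [mul_div_assoc', div_eq_iff hD.ne']
      linarith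
    rw [h8]
    ring
  · have h7 : b * c = ((a - d + r) / 2) * ((r - (a - d)) / 2) := by linarith
    have h8 : b * (c / ((a - d + r) / 2)) = (r - (a - d)) / 2 := by
      rw [mul_div_assoc', div_eq_iff hD.ne']
      linarith
    rw [h8]
    ring
  · field_simp
    ring

/-- PROOF. a = (fderiv g z (1,0)).1, c = (fderiv g z (1,0)).2, b = (fderiv g z (0,1)).1, d = (fderiv g z (0,1)).2; `hg.close1`: |a - 1/pw| ≤ e0, |d - qw| ≤ e0, |b|, |c| ≤ e0
(1/pw = 1.25 or 1000/199 = 5.0251.., qw = .5 or .499).  `b03_eig`, and `b03_equiv` with the matrix ((s, 1), (-1, t)): C v = (s v.1 + v.2, - v.1 + t v.2), determinant s t + 1 > 0.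
fderiv g z (C v) = (a C₁ + b C₂, c C₁ + d C₂) (linearity, w = w.1 • (1,0) + w.2 • (0,1)) = C (lam v.1, mu v.2) by the four equations. -/
theorem exists_eig {g : Pt → Pt} (hg : Near g) {i : Sy} {z : Pt} (hz : z ∈ VV i) :
    ∃ (C : Pt ≃L[ℝ] Pt) (lam mu : ℝ), lam ∈ Ioo (49 / 100 : ℝ) (51 / 100) ∧ mu ∈ muR i ∧
      (∀ v, fderiv ℝ g z (C v) = C (dg lam mu v)) ∧
      0 < (C (1, 0)).1 * (C (0, 1)).2 - (C (1, 0)).2 * (C (0, 1)).1 := by
  have he : e0 = 1 / 10 ^ 12 := rfl
  obtain ⟨ha, hc, hb, hd⟩ := hg.close1 i z hz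
  set a := (fderiv ℝ g z (1, 0)).1 with hadef
  set c := (fderiv ℝ g z (1, 0)).2 with hcdef
  set b := (fderiv ℝ g z (0, 1)).1 with hbdef
  set d := (fderiv ℝ g z (0, 1)).2 with hddef
  have ha' := abs_le.1 ha
  have hd' := abs_le.1 hd
  have had : 7 / 10 ≤ a - d := by
    cases i
    · simp only [pw, qw, he] at ha' hd'
      norm_num at ha' hd'
      linarith
    · simp only [pw, qw, he] at ha' hd'
      norm_num at ha' hd'
      linarith
  obtain ⟨lam, mu, s, t, h1, h2, h3, h4, e1, e2, e3, e4⟩ := b03_eig a b c d had hb hc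
  have h1' := abs_le.1 h1
  have h2' := abs_le.1 h2
  have hst : |s * t| ≤ 1 / 2 := by
    rw [abs_mul]
    calc |s| * |t| ≤ 1 / 10 ^ 11 * (1 / 10 ^ 11) := mul_le_mul h3 h4 (abs_nonneg _) (by positivity)
      _ ≤ 1 / 2 := by norm_num
  have hst' := abs_le.1 hst
  obtain ⟨C, hC⟩ := b03_equiv s 1 (-1) t (by linarith [hst'.1])
  refine ⟨C, lam, mu, ?_, ?_, ?_, ?_⟩
  · cases i
    · simp only [qw, he] at hd'
      norm_num at hd' h1'
      constructor <;> linarith
    · simp only [qw, he] at hd'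
      norm_num at hd' h1'
      constructor <;> linarith
  · cases i
    · simp only [pw, he] at ha'
      norm_num at ha' h2'
      show mu ∈ Ioo (124 / 100 : ℝ) (126 / 100)
      constructor <;> linarith
    · simp only [pw, he] at ha'
      norm_num at ha' h2'
      show mu ∈ Ioo (5 : ℝ) (505 / 100)
      constructor <;> linarith
  · intro v
    have hlin : ∀ w : Pt, fderiv ℝ g z w = (a * w.1 + b * w.2, c * w.1 + d * w.2) := by
      intro w
      have hw : w = w.1 • ((1, 0) : Pt) + w.2 • ((0, 1) : Pt) := by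
        ext <;> simp
      conv_lhs => rw [hw]
      rw [map_add, map_smul, map_smul]
      ext
      · simp only [Prod.fst_add, Prod.smul_fst, smul_eq_mul]
        rw [← hadef, ← hbdef]
        ring
      · simp only [Prod.snd_add, Prod.smul_snd, smul_eq_mul]
        rw [← hcdef, ← hddef]
        ring
    rw [hlin, hC, hC, dg_apply]
    ext
    · simp only
      linear_combination v.1 * e1 + v.2 * e3
    · simp only
      linear_combination v.1 * e2 + v.2 * e4
  · rw [hC, hC]
    simp only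
    linarith [hst'.1]

end Pool.Agent.Lib.H37N
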