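import Pool.Agent.Lib.H37N.BDefs
import Pool.Agent.Lib.H37N.T3
import Pool.Agent.Lib.H37N.T7

/-! # H37N, chunk B04 (S/M): small perturbations of the derivative at a point -/

open Set Filter Topology
open scoped ContDiff

namespace Pool.Agent.Lib.H37N

/-- PROOF. `exists_cutoff` with C = {z₀}, O = interior B ∩ interior K0: χ with tsupport χ ⊆ O compact, χ = 1 near z₀ (`nhdsSet_singleton`).
Ψ(t,z) = z + (t * χ z) • A (z - z₀) is smooth, Ψ(0,z) = z, Ψ(t,z) = z for z ∉ tsupport χ; `small_family` (P = ℝ, p₀ = 0, C = tsupport χ). -/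
theorem lin_pert (R : ℕ) {ε : ℝ} (hε : 0 < ε) {z₀ : Pt} (hz : z₀ ∈ interior K0) (A : Pt →L[ℝ] Pt)
    {B : Set Pt} (hB : B ∈ 𝓝 z₀) :
    ∀ᶠ t in 𝓝 (0 : ℝ), ∃ ψ : Pt → Pt, Small R ε ψ ∧ (∀ z, z ∉ B → ψ z = z) ∧
      ψ =ᶠ[𝓝 z₀] fun z => z + t • A (z - z₀) := by
  have hO : IsOpen (interior B ∩ interior K0) := isOpen_interior.inter isOpen_interior
  have hz0 : z₀ ∈ interior B ∩ interior K0 := ⟨mem_interior_iff_mem_nhds.2 hB, hz⟩
  obtain ⟨χ, hχ, hcs, hts, -, h1⟩ :=
    exists_cutoff (isCompact_singleton (x := z₀)) hO (singleton_subset_iff.2 hz0)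
  rw [nhdsSet_singleton] at h1
  have hsm : ContDiff ℝ ∞ (fun q : ℝ × Pt => q.2 + (q.1 * χ q.2) • A (q.2 - z₀)) :=
    contDiff_snd.add ((contDiff_fst.mul (hχ.comp contDiff_snd)).smul
      (A.contDiff.comp (contDiff_snd.sub contDiff_const)))
  have hzero : ∀ (t : ℝ) (z : Pt), z ∉ tsupport χ → z + (t * χ z) • A (z - z₀) = z := by
    intro t z hzt
    rw [image_eq_zero_of_notMem_tsupport hzt]
    simp
  have key := small_family hsm (0 : ℝ) (fun z => by simp) (C := tsupport χ) hcs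
    (fun z hzt => interior_subset (hts hzt).2) hzero R hε
  filter_upwards [key] with t ht
  refine ⟨_, ht, ?_, ?_⟩
  · intro z hzB
    exact hzero t z fun h => hzB (interior_subset (hts h).1)
  · filter_upwards [h1] with z hz1
    simp only [hz1, mul_one]

end Pool.Agent.Lib.H37N
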