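import Mathlib

/-! # H37N, chunk B05 (M): countably many bad eigenvalues, nonresonance -/

open Set Filter Topology

namespace Pool.Agent.Lib.H37N

/-- PROOF. If log l / log m = q is rational then log l = q log m, l = exp (q log m): the set is contained in the range of ℚ → ℝ, q ↦ exp (q log m)
(`Set.countable_range`).  ¬ Irrational x means x ∈ Set.range ((↑) : ℚ → ℝ).  (log m ≠ 0.) -/
theorem bad1_countable {m : ℝ} (hm : 1 < m) :
    {l : ℝ | 0 < l ∧ ¬ Irrational (Real.log l / Real.log m)}.Countable := by
  refine (Set.countable_range (fun q : ℚ => Real.exp ((q : ℝ) * Real.log m))).mono ?_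
  rintro l ⟨hl, hq⟩
  have hq' : Real.log l / Real.log m ∈ Set.range ((↑) : ℚ → ℝ) := by
    by_contra h
    exact hq h
  obtain ⟨q, hq⟩ := hq'
  refine ⟨q, ?_⟩
  have hm' : Real.log m ≠ 0 := (Real.log_pos hm).ne'
  simp only
  rw [hq, div_mul_cancel₀ _ hm', Real.exp_log hl]

/-- PROOF. If log A / log (l m) = q then q = 0 implies log (l m) = 0 (log A ≠ 0), l = 1/m; q ≠ 0 implies log (l m) = log A / q, l = exp (log A / q) / m.  (In both cases
l = exp (log A / q) / m because log A / 0 = 0 in Lean.)  Countable range over ℚ. -/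
theorem bad2_countable {A m : ℝ} (hA : Real.log A ≠ 0) (hm : 1 < m) :
    {l : ℝ | 0 < l ∧ ¬ Irrational (Real.log A / Real.log (l * m))}.Countable := by
  have hm0 : (0 : ℝ) < m := by linarith
  refine (Set.countable_range (fun q : ℚ => Real.exp (Real.log A / (q : ℝ)) / m)).mono ?_
  rintro l ⟨hl, hq⟩
  have hq' : Real.log A / Real.log (l * m) ∈ Set.range ((↑) : ℚ → ℝ) := by
    by_contra h
    exact hq h
  obtain ⟨q, hq⟩ := hq'
  refine ⟨q, ?_⟩
  have hlm : 0 < l * m := mul_pos hl hm0
  simp only
  have h1 : Real.log A / (q : ℝ) = Real.log (l * m) := by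
    rw [hq]
    by_cases h : Real.log (l * m) = 0
    · rw [h]; simp
    · rw [div_div_eq_mul_div, mul_div_assoc, mul_comm, div_mul_cancel₀ _ hA]
  rw [h1, Real.exp_log hlm, mul_div_assoc, div_self hm0.ne', mul_one]

/-- PROOF. Take logarithms: lam^a mu^b = lam gives (a-1) log lam + b log mu = 0.  If a ≠ 1 then log lam / log mu = -b/(a-1) is rational; if a = 1 then b log mu = 0, b = 0, a + b = 1.
lam^a mu^b = mu gives a log lam + (b-1) log mu = 0: if a ≠ 0 then log lam / log mu = -(b-1)/a; if a = 0 then b = 1, a + b = 1. -/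
theorem nonres {lam mu : ℝ} (h0 : 0 < lam) (h2 : 1 < mu)
    (hi : Irrational (Real.log lam / Real.log mu)) (a b : ℕ) (hab : 2 ≤ a + b) :
    lam ^ a * mu ^ b ≠ lam ∧ lam ^ a * mu ^ b ≠ mu := by
  have hmu : (0 : ℝ) < mu := by linarith
  have hlm : Real.log mu ≠ 0 := (Real.log_pos h2).ne'
  have hlog : Real.log (lam ^ a * mu ^ b) = a * Real.log lam + b * Real.log mu := by
    rw [Real.log_mul (pow_pos h0 a).ne' (pow_pos hmu b).ne', Real.log_pow, Real.log_pow]
  constructor
  · intro h
    rw [h] at hlog
    by_cases ha : a = 1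
    · subst ha
      have hb : (b : ℝ) * Real.log mu = 0 := by push_cast at hlog; linarith
      have hb0 : (b : ℝ) = 0 := by
        rcases mul_eq_zero.mp hb with h | h
        · exact h
        · exact absurd h hlm
      have : b = 0 := by exact_mod_cast hb0
      omega
    · apply hi
      refine ⟨-(b : ℚ) / ((a : ℚ) - 1), ?_⟩
      have ha' : (a : ℝ) - 1 ≠ 0 := by
        intro h'
        apply ha
        have : (a : ℝ) = 1 := by linarith
        exact_mod_cast this
      push_cast
      rw [div_eq_div_iff ha' hlm]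
      linarith
  · intro h
    rw [h] at hlog
    by_cases ha : a = 0
    · subst ha
      have hb : ((b : ℝ) - 1) * Real.log mu = 0 := by push_cast at hlog; linarith
      have hb0 : (b : ℝ) - 1 = 0 := by
        rcases mul_eq_zero.mp hb with h | h
        · exact h
        · exact absurd h hlm
      have hb1 : (b : ℝ) = 1 := by linarith
      have : b = 1 := by exact_mod_cast hb1
      omega
    · apply hi
      refine ⟨-((b : ℚ) - 1) / (a : ℚ), ?_⟩
      have ha' : (a : ℝ) ≠ 0 := by exact_mod_cast ha
      push_cast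
      rw [div_eq_div_iff ha' hlm]
      linarith

/-- PROOF. The set T = {t | (1+t) l ∈ D} is countable (preimage of a countable set under an injective map, `Set.Countable.preimage_of_injOn`), its complement is dense
(`Set.Countable.dense_compl ℝ`) and so meets the neighbourhood {t | p t} of 0 (`Dense.inter_nhds_nonempty` or `mem_closure_iff_nhds`). -/
theorem exists_small_good {D : Set ℝ} (hD : D.Countable) {l : ℝ} (hl : 0 < l) {p : ℝ → Prop}
    (hp : ∀ᶠ t in 𝓝 (0 : ℝ), p t) : ∃ t, p t ∧ (1 + t) * l ∉ D := by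
  have hT : ((fun t : ℝ => (1 + t) * l) ⁻¹' D).Countable := by
    apply hD.preimage
    intro s t hst
    simp only at hst
    have := mul_right_cancel₀ hl.ne' hst
    linarith
  have hd : Dense (((fun t : ℝ => (1 + t) * l) ⁻¹' D)ᶜ) := hT.dense_compl ℝ
  obtain ⟨t, ht1, ht2⟩ := mem_closure_iff_nhds.mp (hd 0) {t | p t} hp
  exact ⟨t, ht1, ht2⟩

end Pool.Agent.Lib.H37N
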