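import Pool.Agent.Lib.H37N.B06b
import Pool.Agent.Lib.H37N.T6b
import Pool.Agent.Lib.H37N.T10a

/-! # H37N, chunk B07 (M): linearisation by a flat correction -/

open Set Filter Topology Asymptotics
open scoped ContDiff

namespace Pool.Agent.Lib.H37N

/-- Approximate linearisation.

PROOF. f₀(v) = C⁻¹ (g (z₀ + C v) - z₀) is smooth near 0, f₀ 0 = 0, fderiv f₀ 0 = C⁻¹ ∘ fderiv g z₀ ∘ C = dg lam mu (chain rule, hC).  `localise_at`: a global smooth f with f = f₀ near 0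
(so the same value and derivative at 0: `Filter.EventuallyEq.fderiv_eq`).  h from `normal_form` for f and n; κ₀ v = z₀ + C (h v).  For v near 0, h v is near 0, g (κ₀ v) = z₀ + C (f (h v)), so
g (κ₀ v) - κ₀ (L v) = C (f (h v) - h (L v)) = O(‖v‖^n). -/
theorem b07_approx {g : Pt → Pt} {z₀ : Pt} (hg : ∀ᶠ z in 𝓝 z₀, ContDiffAt ℝ ∞ g z) (hfix : g z₀ = z₀)
    (C : Pt ≃L[ℝ] Pt) {lam mu : ℝ} (hC : ∀ v, fderiv ℝ g z₀ (C v) = C (dg lam mu v))
    (hnr : ∀ a b : ℕ, 2 ≤ a + b → lam ^ a * mu ^ b ≠ lam ∧ lam ^ a * mu ^ b ≠ mu) (n : ℕ) :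
    ∃ κ₀ : Pt → Pt, ContDiff ℝ ∞ κ₀ ∧ κ₀ 0 = z₀ ∧ fderiv ℝ κ₀ 0 = (C : Pt →L[ℝ] Pt) ∧
      (fun v => g (κ₀ v) - κ₀ (dg lam mu v)) =O[𝓝 0] fun v => ‖v‖ ^ n := by
  have hCs : ContDiff ℝ ∞ (fun v : Pt => z₀ + C v) := contDiff_const.add C.contDiff
  have hC0 : z₀ + C 0 = z₀ := by rw [map_zero, add_zero]
  have hf0 : ∀ᶠ v in 𝓝 (0 : Pt), ContDiffAt ℝ ∞ (fun v => C.symm (g (z₀ + C v) - z₀)) v := by
    have ht : Tendsto (fun v : Pt => z₀ + C v) (𝓝 0) (𝓝 z₀) := by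
      have := hCs.continuous.tendsto 0
      rw [hC0] at this
      exact this
    filter_upwards [ht.eventually hg] with v hv
    have h1 : ContDiffAt ℝ ∞ (fun v => g (z₀ + C v)) v := ContDiffAt.comp v hv hCs.contDiffAt
    exact C.symm.contDiff.contDiffAt.comp v (h1.sub contDiffAt_const)
  have hder : HasFDerivAt (fun v => C.symm (g (z₀ + C v) - z₀)) (dg lam mu) 0 := by
    have h1 : HasFDerivAt (fun v : Pt => z₀ + C v) (C : Pt →L[ℝ] Pt) 0 :=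
      (C.hasFDerivAt).const_add z₀
    have h2 : HasFDerivAt g (fderiv ℝ g z₀) (z₀ + C 0) := by
      rw [hC0]
      exact (hg.self_of_nhds.differentiableAt (by simp)).hasFDerivAt
    have h3 := (C.symm.hasFDerivAt (x := g (z₀ + C 0) - z₀)).comp (0 : Pt) ((h2.comp (0 : Pt) h1).sub_const z₀)
    have h4 : ((C.symm : Pt →L[ℝ] Pt).comp ((fderiv ℝ g z₀).comp (C : Pt →L[ℝ] Pt))) = dg lam mu := by
      refine ContinuousLinearMap.ext fun v => ?_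
      simp only [ContinuousLinearMap.comp_apply, ContinuousLinearEquiv.coe_coe, hC,
        ContinuousLinearEquiv.symm_apply_apply]
    rw [h4] at h3
    exact h3
  obtain ⟨f, hf, hfe⟩ := localise_at hf0
  have hf00 : f 0 = 0 := by
    rw [hfe.eq_of_nhds]
    simp only [map_zero, add_zero, hfix, sub_self]
  have hfd : fderiv ℝ f 0 = dg lam mu := by
    rw [hfe.fderiv_eq]
    exact hder.fderiv
  obtain ⟨h, hh, hh0, hhd, hO⟩ := normal_form hf hf00 hfd hnr n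
  refine ⟨fun v => z₀ + C (h v), contDiff_const.add (C.contDiff.comp hh), ?_, ?_, ?_⟩
  · simp only [hh0, map_zero, add_zero]
  · have h1 : HasFDerivAt h (ContinuousLinearMap.id ℝ Pt) 0 := by
      rw [← hhd]
      exact (hh.differentiable (by simp) 0).hasFDerivAt
    have h2 : HasFDerivAt (fun v => z₀ + C (h v)) ((C : Pt →L[ℝ] Pt).comp (ContinuousLinearMap.id ℝ Pt)) 0 :=
      ((C.hasFDerivAt (x := h 0)).comp (0 : Pt) h1).const_add z₀
    rw [h2.fderiv, ContinuousLinearMap.comp_id]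
  · have ht : Tendsto h (𝓝 0) (𝓝 0) := by
      have := hh.continuous.tendsto 0
      rw [hh0] at this
      exact this
    have h3 : (fun v => C (f (h v) - h (dg lam mu v))) =O[𝓝 0] fun v => ‖v‖ ^ n :=
      ((C : Pt →L[ℝ] Pt).isBigO_comp _ _).trans hO
    refine h3.congr' ?_ (EventuallyEq.refl _ _)
    filter_upwards [ht.eventually hfe] with v hv
    rw [hv, map_sub, ContinuousLinearEquiv.apply_symm_apply]
    abel

/-- Linearisation after a small perturbation.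

PROOF. κ₀ from `b07_approx` with n = R+1.  θ = g ∘ κ₀ is smooth near 0 (κ₀ continuous, κ₀ 0 = z₀), θ 0 = z₀, fderiv θ 0 = fderiv g z₀ ∘ C = C ∘ dg lam mu is bijective (lam, mu ≠ 0).
`inverse_fun`: τ smooth with τ z₀ = 0, τ (θ v) = v for v near 0, θ (τ w) = w for w near z₀.  G w = κ₀ (dg lam mu (τ w)) is smooth, and near z₀: G w - w = κ₀ (L (τ w)) - θ (τ w) =
- (g (κ₀ v) - κ₀ (L v)) at v = τ w, so it is O(‖τ w‖^(R+1)) = O(‖w - z₀‖^(R+1)) (τ differentiable at z₀, τ z₀ = 0: `IsBigO.comp_tendsto`, `DifferentiableAt.isBigO_sub`).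
`flat_corr` gives ψ with ψ = G near z₀.  For v near 0: ψ (g (κ₀ v)) = ψ (θ v) = G (θ v) = κ₀ (L (τ (θ v))) = κ₀ (L v). -/
theorem flat_conj {g : Pt → Pt} {z₀ : Pt} (hz : z₀ ∈ interior K0) (hg : ∀ᶠ z in 𝓝 z₀, ContDiffAt ℝ ∞ g z)
    (hfix : g z₀ = z₀) (C : Pt ≃L[ℝ] Pt) {lam mu : ℝ} (hC : ∀ v, fderiv ℝ g z₀ (C v) = C (dg lam mu v))
    (hlam : lam ≠ 0) (hmu : mu ≠ 0)
    (hnr : ∀ a b : ℕ, 2 ≤ a + b → lam ^ a * mu ^ b ≠ lam ∧ lam ^ a * mu ^ b ≠ mu)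
    (R : ℕ) {ε : ℝ} (hε : 0 < ε) {B : Set Pt} (hB : B ∈ 𝓝 z₀) :
    ∃ ψ κ₀ : Pt → Pt, Small R ε ψ ∧ (∀ z, z ∉ B → ψ z = z) ∧ ContDiff ℝ ∞ κ₀ ∧ κ₀ 0 = z₀ ∧
      fderiv ℝ κ₀ 0 = (C : Pt →L[ℝ] Pt) ∧ ∀ᶠ v in 𝓝 (0 : Pt), ψ (g (κ₀ v)) = κ₀ (dg lam mu v) := by
  obtain ⟨κ₀, hκ, hκ0, hκd, hO⟩ := b07_approx hg hfix C hC hnr (R + 1)
  have hκt : Tendsto κ₀ (𝓝 0) (𝓝 z₀) := by
    have := hκ.continuous.tendsto 0
    rw [hκ0] at this
    exact this
  have hθs : ∀ᶠ v in 𝓝 (0 : Pt), ContDiffAt ℝ ∞ (fun v => g (κ₀ v)) v := by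
    filter_upwards [hκt.eventually hg] with v hv
    exact ContDiffAt.comp v hv hκ.contDiffAt
  have hθ0 : g (κ₀ 0) = z₀ := by rw [hκ0, hfix]
  have hθd : fderiv ℝ (fun v => g (κ₀ v)) 0 = (fderiv ℝ g z₀).comp (C : Pt →L[ℝ] Pt) := by
    have h1 : HasFDerivAt κ₀ (C : Pt →L[ℝ] Pt) 0 := by
      rw [← hκd]
      exact (hκ.differentiable (by simp) 0).hasFDerivAt
    have h2 : HasFDerivAt g (fderiv ℝ g z₀) (κ₀ 0) := by
      rw [hκ0]
      exact (hg.self_of_nhds.differentiableAt (by simp)).hasFDerivAt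
    exact (h2.comp (0 : Pt) h1).fderiv
  have hbij : Function.Bijective (fderiv ℝ (fun v => g (κ₀ v)) 0) := by
    rw [hθd]
    have h1 : ∀ v, ((fderiv ℝ g z₀).comp (C : Pt →L[ℝ] Pt)) v = C (dg lam mu v) := fun v => hC v
    have h2 : Function.Bijective (dg lam mu) := by
      constructor
      · intro v w hvw
        simp only [dg_apply, Prod.mk.injEq, mul_eq_mul_left_iff, hlam, hmu, or_false] at hvw
        exact Prod.ext hvw.1 hvw.2
      · intro w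
        refine ⟨(w.1 / lam, w.2 / mu), ?_⟩
        simp only [dg_apply]
        rw [mul_div_cancel₀ _ hlam, mul_div_cancel₀ _ hmu]
    have h3 : ⇑((fderiv ℝ g z₀).comp (C : Pt →L[ℝ] Pt)) = fun v => C (dg lam mu v) := funext h1
    rw [h3]
    exact C.bijective.comp h2
  obtain ⟨τ, hτ, hτ0, hτl, hτr⟩ := inverse_fun hθs hbij
  simp only [hθ0] at hτ0 hτr
  have hτt : Tendsto τ (𝓝 z₀) (𝓝 0) := by
    have := hτ.continuous.tendsto z₀
    rw [hτ0] at this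
    exact this
  have hG : ContDiff ℝ ∞ (fun w => κ₀ (dg lam mu (τ w))) :=
    hκ.comp ((dg lam mu).contDiff.comp hτ)
  have hGO : (fun w => κ₀ (dg lam mu (τ w)) - w) =O[𝓝 z₀] fun w => ‖w - z₀‖ ^ (R + 1) := by
    have h1 : (fun w => g (κ₀ (τ w)) - κ₀ (dg lam mu (τ w))) =O[𝓝 z₀] fun w => ‖τ w‖ ^ (R + 1) :=
      hO.comp_tendsto hτt
    have h2 : (fun w => ‖τ w‖ ^ (R + 1)) =O[𝓝 z₀] fun w => ‖w - z₀‖ ^ (R + 1) := by
      have h3 : (fun w => τ w - τ z₀) =O[𝓝 z₀] fun w => w - z₀ := (hτ.differentiable (by simp) z₀).isBigO_sub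
      simp only [hτ0, sub_zero] at h3
      exact h3.norm_norm.pow _
    refine ((h1.trans h2).neg_left).congr' ?_ (EventuallyEq.refl _ _)
    filter_upwards [hτr] with w hw
    rw [hw]
    abel
  obtain ⟨ψ, hψ, hψB, hψe⟩ := flat_corr R hε hz (G := fun w => κ₀ (dg lam mu (τ w)))
    (Eventually.of_forall fun w => hG.contDiffAt) hGO hB
  refine ⟨ψ, κ₀, hψ, hψB, hκ, hκ0, hκd, ?_⟩
  have hθt : Tendsto (fun v => g (κ₀ v)) (𝓝 0) (𝓝 z₀) := by
    have := (hθs.self_of_nhds.continuousAt).tendsto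
    rw [hθ0] at this
    exact this
  filter_upwards [hθt.eventually hψe, hτl] with v h1 h2
  rw [h1, h2]

end Pool.Agent.Lib.H37N
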