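import Pool.Agent.Lib.H37N.B02
import Pool.Agent.Lib.H37N.B03
import Pool.Agent.Lib.H37N.B04
import Pool.Agent.Lib.H37N.B05
import Pool.Agent.Lib.H37N.B07
import Pool.Agent.Lib.H37N.B08

/-! # H37N, chunk B09 (M): a chart at one of the fixed points -/

open Set Filter Topology
open scoped ContDiff

namespace Pool.Agent.Lib.H37N

/-- PROOF. mu > 1. -/
theorem one_lt_of_muR {i : Sy} {mu : ℝ} (h : mu ∈ muR i) : 1 < mu := by
  cases i with
  | P =>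
    have h' : mu ∈ Ioo (124 / 100 : ℝ) (126 / 100) := h
    linarith [h'.1]
  | Q =>
    have h' : mu ∈ Ioo (5 : ℝ) (505 / 100) := h
    linarith [h'.1]

/-- The derivative of the perturbed map at the fixed point. -/
theorem b09_deriv {g ψ : Pt → Pt} {z₀ : Pt} (hg : DifferentiableAt ℝ g z₀) (hfix : g z₀ = z₀)
    (C : Pt ≃L[ℝ] Pt) {lam mu t : ℝ} (hC : ∀ v, fderiv ℝ g z₀ (C v) = C (dg lam mu v))
    (hψ : ψ =ᶠ[𝓝 z₀] fun z => z +
      t • ((C : Pt →L[ℝ] Pt).comp ((dg 1 0).comp (C.symm : Pt →L[ℝ] Pt))) (z - z₀)) (v : Pt) :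
    fderiv ℝ (ψ ∘ g) z₀ (C v) = C (dg ((1 + t) * lam) mu v) := by
  obtain ⟨A, hA⟩ : ∃ A : Pt →L[ℝ] Pt,
      A = (C : Pt →L[ℝ] Pt).comp ((dg 1 0).comp (C.symm : Pt →L[ℝ] Pt)) := ⟨_, rfl⟩
  rw [← hA] at hψ
  have h1 : HasFDerivAt (fun z => z + t • A (z - z₀))
      (ContinuousLinearMap.id ℝ Pt + t • A) z₀ := by
    have h2 : HasFDerivAt (fun z : Pt => A (z - z₀)) A z₀ := by
      have := A.hasFDerivAt.comp z₀ ((hasFDerivAt_id z₀).sub_const z₀)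
      simpa [Function.comp_def] using this
    exact (hasFDerivAt_id z₀).add (h2.const_smul t)
  have h3 : HasFDerivAt ψ (ContinuousLinearMap.id ℝ Pt + t • A) (g z₀) := by
    rw [hfix]
    exact h1.congr_of_eventuallyEq hψ
  have h4 := (h3.comp z₀ hg.hasFDerivAt).fderiv
  rw [h4]
  have h5 : A (C (dg lam mu v)) = C (dg 1 0 (dg lam mu v)) := by
    rw [hA]
    simp only [ContinuousLinearMap.comp_apply, ContinuousLinearEquiv.coe_coe,
      ContinuousLinearEquiv.symm_apply_apply]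
  rw [ContinuousLinearMap.comp_apply, hC]
  rw [ContinuousLinearMap.add_apply, ContinuousLinearMap.smul_apply, h5,
    ContinuousLinearMap.id_apply, ← map_smul, ← map_add]
  congr 1
  ext
  · simp only [dg_apply, Prod.fst_add, Prod.smul_fst, smul_eq_mul]
    ring
  · simp only [dg_apply, Prod.snd_add, Prod.smul_snd, smul_eq_mul]
    ring

/-- PROOF. z₀, C, lam, mu from `exists_fix`, `exists_eig`; ε₁ from hU for g.  `lin_pert` with A = C ∘ dg 1 0 ∘ C⁻¹, B = VV i (a neighbourhood of z₀), and `exists_small_good` with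
D' = D mu ∪ {l | 0 < l ∧ ¬ Irrational (log l / log mu)} (`bad1_countable`), p t := (the conclusion of `lin_pert` at t) ∧ (1+t) lam ∈ Ioo (49/100) (51/100) (eventually true, continuity):
ψ₁, lam₁ = (1+t) lam.  g₁ = ψ₁ ∘ g ∈ U is Near, g₁ z₀ = ψ₁ z₀ = z₀, and fderiv g₁ z₀ (C v) = (1 + t A)(C (dg lam mu v)) = C (dg lam₁ mu v) (chain rule; fderiv ψ₁ z₀ = 1 + t A because ψ₁ is
eventually equal to z + t • A (z - z₀)).  ε₂ from hU for g₁; `flat_conj` for g₁ with B = VV i (nonresonance from `nonres`): ψ₂, κ₀.  ψ = ψ₂ ∘ ψ₁; ψ ∘ g = ψ₂ ∘ g₁ ∈ U.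
`chart_of_germ` for ψ₂ ∘ g₁ (jac κ₀ 0 = det C > 0).  z ∉ VV i: ψ₁ z = z, ψ₂ z = z. -/
theorem lin_at {R : ℕ} {U : Set (Pt → Pt)} (hU : PertOpen R U) (hN : ∀ g ∈ U, Near g) {g : Pt → Pt}
    (hg : g ∈ U) (i : Sy) (D : ℝ → Set ℝ) (hD : ∀ m ∈ muR i, (D m).Countable) :
    ∃ ψ : Pt → Pt, ψ ∘ g ∈ U ∧ (∀ z, z ∉ VV i → ψ z = z) ∧ ∃ (κ c : Pt → Pt) (lam mu : ℝ),
      LinChart (ψ ∘ g) i κ c lam mu ∧ lam ∉ D mu := by
  obtain ⟨z₀, hz0, hfix, -, -⟩ := exists_fix (hN g hg) i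
  have hzV : z₀ ∈ VV i := interior_subset hz0
  have hnb : VV i ∈ 𝓝 z₀ := mem_interior_iff_mem_nhds.1 hz0
  have hK : z₀ ∈ interior K0 := VV_sub_interior_K0 i hzV
  obtain ⟨C, lam, mu, hlam, hmu, hC, hdet⟩ := exists_eig (hN g hg) hzV
  have hmu1 : 1 < mu := one_lt_of_muR hmu
  have hlam0 : 0 < lam := by linarith [hlam.1]
  obtain ⟨ε₁, hε₁, hU₁⟩ := hU g hg
  have h1 := lin_pert R hε₁ hK
    ((C : Pt →L[ℝ] Pt).comp ((dg 1 0).comp (C.symm : Pt →L[ℝ] Pt))) hnb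
  have h2 : ∀ᶠ t in 𝓝 (0 : ℝ), (1 + t) * lam ∈ Ioo (49 / 100 : ℝ) (51 / 100) := by
    have hc : Continuous fun t : ℝ => (1 + t) * lam := by fun_prop
    have ht : Tendsto (fun t : ℝ => (1 + t) * lam) (𝓝 0) (𝓝 lam) := by
      have := hc.tendsto 0
      simpa using this
    exact ht.eventually (isOpen_Ioo.mem_nhds hlam)
  obtain ⟨t, ⟨⟨ψ₁, hs1, hout1, hloc1⟩, hlam1⟩, hnot⟩ := exists_small_good
    ((hD mu hmu).union (bad1_countable hmu1)) hlam0 (h1.and h2)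
  have hlam1pos : 0 < (1 + t) * lam := by linarith [hlam1.1]
  have hg1 : ψ₁ ∘ g ∈ U := hU₁ ψ₁ hs1
  have hψz : ψ₁ z₀ = z₀ := by
    have h9 := hloc1.eq_of_nhds
    simp only [sub_self, map_zero, smul_zero, add_zero] at h9
    exact h9
  have hfix1 : (ψ₁ ∘ g) z₀ = z₀ := by
    rw [Function.comp_apply, hfix, hψz]
  have hdiff : DifferentiableAt ℝ g z₀ :=
    ((hN g hg).contDiffAt hzV).self_of_nhds.differentiableAt (by simp)
  have hC1 := b09_deriv hdiff hfix C hC hloc1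
  have hirr : Irrational (Real.log ((1 + t) * lam) / Real.log mu) := by
    by_contra hcon
    exact hnot (Or.inr ⟨hlam1pos, hcon⟩)
  obtain ⟨ε₂, hε₂, hU₂⟩ := hU _ hg1
  obtain ⟨ψ₂, κ₀, hs2, hout2, hκs, hκ0, hdκ, hconj⟩ := flat_conj hK
    ((hN _ hg1).contDiffAt hzV) hfix1 C hC1 hlam1pos.ne' (by linarith)
    (fun a b hab => nonres hlam1pos hmu1 hirr a b hab) R hε₂ hnb
  have hjac : 0 < jac κ₀ 0 := by
    unfold jac
    rw [hdκ]
    exact hdet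
  obtain ⟨κ, c, hchart⟩ := chart_of_germ (g := ψ₂ ∘ (ψ₁ ∘ g)) (i := i) hκs
    (by rw [hκ0]; exact hz0) hjac hlam1 hmu hconj
  refine ⟨ψ₂ ∘ ψ₁, hU₂ ψ₂ hs2, ?_, κ, c, (1 + t) * lam, mu, hchart, fun h => hnot (Or.inl h)⟩
  intro z hz
  rw [Function.comp_apply, hout1 z hz, hout2 z hz]

end Pool.Agent.Lib.H37N
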