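import Pool.Agent.Lib.H37N.B01

/-! # H37N, chunk B13 (M): orbits with a given bi-infinite itinerary -/

open Set Filter Topology
open scoped ContDiff

namespace Pool.Agent.Lib.H37N

/-- one step of the iteration -/
noncomputable def b13T (g : Pt → Pt) (i : ℤ → Sy) (s : ℤ → Pt) (n : ℤ) : Pt :=
  ((s n).1 - pw (i n) * ((g (s n)).1 - (s (n + 1)).1), (g (s (n - 1))).2)

theorem b13_pw (i : Sy) : 0 < pw i ∧ pw i ≤ 4 / 5 := by
  cases i <;> norm_num [pw]

theorem b13_al (i : Sy) : 0 ≤ al i ∧ al i + pw i ≤ 1 := by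
  cases i <;> norm_num [pw, al]

theorem b13_be (i : Sy) : 0 ≤ be i ∧ be i + qw i ≤ 1 := by
  cases i <;> norm_num [qw, be]

theorem b13_qw (i : Sy) : 0 < qw i ∧ qw i ≤ 1 / 2 := by
  cases i <;> norm_num [qw]

/-- PROOF. First component: `hg.close0`: |(g (s n)).1 - ((s n).1 - al)/pw| ≤ e0, so it is within e0 of al (i n) + pw (i n) (s (n+1)).1, where (s (n+1)).1 ∈ [-del, 1 + del] (cases i (n+1)); pw ≤ 4/5.
Second component: within e0 of be j + qw j * (s (n-1)).2, j = i (n-1), be j ≥ 0, be j + qw j ≤ 1, qw j ≤ 1/2. -/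
theorem b13_maps {g : Pt → Pt} (hg : Near g) {i : ℤ → Sy} {s : ℤ → Pt} (hs : ∀ n, s n ∈ VV (i n)) (n : ℤ) :
    b13T g i s n ∈ VV (i n) := by
  rw [mem_VV]
  obtain ⟨hp0, hp1⟩ := b13_pw (i n)
  obtain ⟨ha0, ha1⟩ := b13_al (i (n + 1))
  obtain ⟨hb0, hb1⟩ := b13_be (i (n - 1))
  obtain ⟨hq0, hq1⟩ := b13_qw (i (n - 1))
  have h1 := (hg.close0 (i n) (s n) (hs n)).1
  have h2 := (hg.close0 (i (n - 1)) (s (n - 1)) (hs (n - 1))).2
  have h3 := (mem_VV.1 (hs (n + 1))).1
  have h4 := (mem_VV.1 (hs (n - 1))).2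
  simp only [Aff] at h1 h2
  rw [abs_le] at h1 h2
  obtain ⟨h1a, h1b⟩ := h1
  obtain ⟨h2a, h2b⟩ := h2
  have e1 : pw (i n) * (((s n).1 - al (i n)) / pw (i n)) = (s n).1 - al (i n) := by
    field_simp
  have h1a' := mul_le_mul_of_nonneg_left h1a hp0.le
  have h1b' := mul_le_mul_of_nonneg_left h1b hp0.le
  rw [mul_sub, e1] at h1a' h1b'
  have he : (e0 : ℝ) = 1 / 10 ^ 12 := rfl
  have hd : (del : ℝ) = 1 / 100000 := rfl
  simp only [b13T]
  set p := pw (i n) with hp
  set x := (s (n + 1)).1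
  set y := (s (n - 1)).2
  set gx := (g (s n)).1
  set gy := (g (s (n - 1))).2
  have h3a : -del ≤ x := by linarith [h3.1]
  have h3b : x ≤ 1 + del := by linarith [h3.2]
  have m1 : p * (-del) ≤ p * x := mul_le_mul_of_nonneg_left h3a hp0.le
  have m2 : p * x ≤ p * (1 + del) := mul_le_mul_of_nonneg_left h3b hp0.le
  have m3 : qw (i (n - 1)) * (-del) ≤ qw (i (n - 1)) * y := mul_le_mul_of_nonneg_left h4.1 hq0.le
  have m4 : qw (i (n - 1)) * y ≤ qw (i (n - 1)) * (1 + del) := mul_le_mul_of_nonneg_left h4.2 hq0.le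
  have hde : (0 : ℝ) < del := by rw [hd]; norm_num
  have hee : (0 : ℝ) < e0 := by rw [he]; norm_num
  have m5 : p * del ≤ 4 / 5 * del := mul_le_mul_of_nonneg_right hp1 hde.le
  have m6 : p * e0 ≤ 4 / 5 * e0 := mul_le_mul_of_nonneg_right hp1 hee.le
  have m7 : qw (i (n - 1)) * del ≤ 1 / 2 * del := mul_le_mul_of_nonneg_right hq1 hde.le
  have hed : (e0 : ℝ) ≤ 1 / 100 * del := by rw [hd, he]; norm_num
  refine ⟨⟨?_, ?_⟩, ?_, ?_⟩
  · nlinarith
  · nlinarith
  · nlinarith
  · nlinarith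

/-- PROOF. `Near.diff`: first component: |pw ((s (n+1)).1 - (s' (n+1)).1) - pw err| ≤ pw d + 2 e0 d; second component ≤ qw d + 2 e0 d. -/
theorem b13_contr {g : Pt → Pt} (hg : Near g) {i : ℤ → Sy} {s s' : ℤ → Pt} (hs : ∀ n, s n ∈ VV (i n))
    (hs' : ∀ n, s' n ∈ VV (i n)) {d : ℝ} (hd : ∀ n, ‖s n - s' n‖ ≤ d) (n : ℤ) :
    ‖b13T g i s n - b13T g i s' n‖ ≤ 81 / 100 * d := by
  have hd0 : 0 ≤ d := le_trans (norm_nonneg _) (hd n)
  obtain ⟨hp0, hp1⟩ := b13_pw (i n)
  obtain ⟨hq0, hq1⟩ := b13_qw (i (n - 1))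
  have h1 := (hg.diff (hs n) (hs' n)).1
  have h2 := (hg.diff (hs (n - 1)) (hs' (n - 1))).2
  have he : (e0 : ℝ) = 1 / 10 ^ 12 := rfl
  have hee : (0 : ℝ) < e0 := by rw [he]; norm_num
  have hee1 : (e0 : ℝ) ≤ 1 / 1000 := by rw [he]; norm_num
  have b1 : 2 * e0 * ‖s n - s' n‖ ≤ 2 * e0 * d :=
    mul_le_mul_of_nonneg_left (hd n) (by positivity)
  have b2 : 2 * e0 * ‖s (n - 1) - s' (n - 1)‖ ≤ 2 * e0 * d :=
    mul_le_mul_of_nonneg_left (hd (n - 1)) (by positivity)
  have b3 : 2 * e0 * d ≤ 1 / 500 * d := by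
    have := mul_le_mul_of_nonneg_right hee1 hd0
    linarith
  have h3 := norm_prod_le_iff.1 (hd (n + 1))
  have h4 := norm_prod_le_iff.1 (hd (n - 1))
  simp only [Prod.fst_sub, Prod.snd_sub, Real.norm_eq_abs] at h3 h4
  obtain ⟨h3, -⟩ := h3
  obtain ⟨-, h4⟩ := h4
  rw [norm_prod_le_iff]
  simp only [b13T, Prod.fst_sub, Prod.snd_sub, Real.norm_eq_abs]
  constructor
  · have e : (s n).1 - pw (i n) * ((g (s n)).1 - (s (n + 1)).1) -
        ((s' n).1 - pw (i n) * ((g (s' n)).1 - (s' (n + 1)).1)) =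
        pw (i n) * (((s (n + 1)).1 - (s' (n + 1)).1) -
          ((g (s n)).1 - (g (s' n)).1 - ((s n).1 - (s' n).1) / pw (i n))) := by
      field_simp
      ring
    rw [e, abs_mul, abs_of_pos hp0]
    have h5 : |((s (n + 1)).1 - (s' (n + 1)).1) -
          ((g (s n)).1 - (g (s' n)).1 - ((s n).1 - (s' n).1) / pw (i n))| ≤ d + 1 / 500 * d := by
      refine le_trans (abs_sub _ _) ?_
      linarith
    calc pw (i n) * |((s (n + 1)).1 - (s' (n + 1)).1) -
          ((g (s n)).1 - (g (s' n)).1 - ((s n).1 - (s' n).1) / pw (i n))|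
        ≤ 4 / 5 * (d + 1 / 500 * d) :=
          mul_le_mul hp1 h5 (abs_nonneg _) (by norm_num)
      _ ≤ 81 / 100 * d := by linarith
  · have e : (g (s (n - 1))).2 - (g (s' (n - 1))).2 =
        ((g (s (n - 1))).2 - (g (s' (n - 1))).2 - qw (i (n - 1)) * ((s (n - 1)).2 - (s' (n - 1)).2)) +
          qw (i (n - 1)) * ((s (n - 1)).2 - (s' (n - 1)).2) := by ring
    rw [e]
    refine le_trans (abs_add_le _ _) ?_
    rw [abs_mul, abs_of_pos hq0]
    have h5 : qw (i (n - 1)) * |(s (n - 1)).2 - (s' (n - 1)).2| ≤ 1 / 2 * d :=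
      mul_le_mul hq1 h4 (abs_nonneg _) (by norm_num)
    linarith

/-- Every bi-infinite itinerary is realised.

PROOF. s⁰ n = the corner (al (i n), 0) ∈ VV (i n); s^k = (b13T g i)^[k] s⁰, all in VV (i n) by `b13_maps`.  ‖s^(k+1) n - s^k n‖ ≤ 2 (81/100)^k (induction with `b13_contr`; k = 0: points of VV (i n) have
coordinates in [-1/10, 11/10]).  `cauchySeq_of_le_geometric`: s^k n → s n; s n ∈ VV (i n) (closed).  g is continuous at the points of VV (i n) (`Near.contDiffAt`), so b13T g i s^k n →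
b13T g i s n, and it is s^(k+1) n → s n.  So b13T g i s = s: pw (i n) ≠ 0 gives (g (s n)).1 = (s (n+1)).1, and (s (n+1)).2 = (g (s n)).2 (n+1-1 = n). -/
theorem exists_orbit {g : Pt → Pt} (hg : Near g) (i : ℤ → Sy) :
    ∃ s : ℤ → Pt, ∀ n, s n ∈ VV (i n) ∧ g (s n) = s (n + 1) := by
  have hd : (del : ℝ) = 1 / 100000 := rfl
  set S : ℕ → ℤ → Pt := fun k => (b13T g i)^[k] (fun n => (al (i n), 0)) with hS
  have hSs : ∀ k, S (k + 1) = b13T g i (S k) := by
    intro k
    simp only [hS]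
    rw [Function.iterate_succ_apply']
  have hmem : ∀ k n, S k n ∈ VV (i n) := by
    intro k
    induction k with
    | zero =>
      intro n
      rw [mem_VV]
      have := (b13_pw (i n)).1
      simp only [hS, Function.iterate_zero, id_eq]
      rw [hd]
      refine ⟨⟨?_, ?_⟩, ?_, ?_⟩ <;> linarith
    | succ k ih =>
      intro n
      rw [hSs]
      exact b13_maps hg ih n
  have hstep : ∀ k n, ‖S (k + 1) n - S k n‖ ≤ 2 * (81 / 100) ^ k := by
    intro k
    induction k with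
    | zero =>
      intro n
      have h1 := mem_VV.1 (hmem 1 n)
      have h0 := mem_VV.1 (hmem 0 n)
      obtain ⟨ha0, ha1⟩ := b13_al (i n)
      have hp := (b13_pw (i n)).1
      rw [hd] at h0 h1
      rw [norm_prod_le_iff]
      simp only [Prod.fst_sub, Prod.snd_sub, Real.norm_eq_abs, pow_zero, mul_one, zero_add]
      constructor
      · rw [abs_le]
        constructor <;> linarith [h1.1.1, h1.1.2, h0.1.1, h0.1.2]
      · rw [abs_le]
        constructor <;> linarith [h1.2.1, h1.2.2, h0.2.1, h0.2.2]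
    | succ k ih =>
      intro n
      have h := b13_contr hg (hmem (k + 1)) (hmem k) ih n
      rw [← hSs, ← hSs] at h
      refine le_trans h (le_of_eq ?_)
      ring
  have hlim : ∀ n, ∃ z, Tendsto (fun k => S k n) atTop (𝓝 z) := by
    intro n
    apply cauchySeq_tendsto_of_complete
    refine cauchySeq_of_le_geometric (81 / 100) 2 (by norm_num) ?_
    intro k
    rw [dist_comm, dist_eq_norm]
    exact hstep k n
  choose s hs using hlim
  have hsV : ∀ n, s n ∈ VV (i n) := by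
    intro n
    have hcl : IsClosed (VV (i n)) := isClosed_Icc.prod isClosed_Icc
    exact hcl.mem_of_tendsto (hs n) (Eventually.of_forall fun k => hmem k n)
  have hgc : ∀ n, Tendsto (fun k => g (S k n)) atTop (𝓝 (g (s n))) := by
    intro n
    have h1 : ContinuousAt g (s n) := (hg.contDiffAt (hsV n)).self_of_nhds.continuousAt
    exact h1.tendsto.comp (hs n)
  have hfix : ∀ n, b13T g i s n = s n := by
    intro n
    have h1 : Tendsto (fun k => S (k + 1) n) atTop (𝓝 (s n)) :=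
      (tendsto_add_atTop_iff_nat (f := fun k => S k n) 1).2 (hs n)
    have h2 : Tendsto (fun k => b13T g i (S k) n) atTop (𝓝 (b13T g i s n)) := by
      have a1 : Tendsto (fun k => (S k n).1) atTop (𝓝 (s n).1) :=
        (continuous_fst.tendsto _).comp (hs n)
      have a2 : Tendsto (fun k => (S k (n + 1)).1) atTop (𝓝 (s (n + 1)).1) :=
        (continuous_fst.tendsto _).comp (hs (n + 1))
      have a3 : Tendsto (fun k => (g (S k n)).1) atTop (𝓝 (g (s n)).1) :=
        (continuous_fst.tendsto _).comp (hgc n)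
      have a4 : Tendsto (fun k => (g (S k (n - 1))).2) atTop (𝓝 (g (s (n - 1))).2) :=
        (continuous_snd.tendsto _).comp (hgc (n - 1))
      exact (a1.sub ((a3.sub a2).const_mul (pw (i n)))).prodMk_nhds a4
    have h3 : (fun k => S (k + 1) n) = fun k => b13T g i (S k) n := by
      funext k
      rw [hSs]
    rw [h3] at h1
    exact tendsto_nhds_unique h2 h1
  refine ⟨s, fun n => ⟨hsV n, ?_⟩⟩
  have hp := (b13_pw (i n)).1
  have h1 := congrArg Prod.fst (hfix n)
  have h2 := congrArg Prod.snd (hfix (n + 1))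
  simp only [b13T] at h1 h2
  rw [add_sub_cancel_right] at h2
  have h3 : pw (i n) * ((g (s n)).1 - (s (n + 1)).1) = 0 := by linarith
  have h4 : (g (s n)).1 - (s (n + 1)).1 = 0 := by
    rcases mul_eq_zero.1 h3 with h | h
    · exact absurd h hp.ne'
    · exact h
  exact Prod.ext (sub_eq_zero.1 h4) h2

end Pool.Agent.Lib.H37N
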