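import Mathlib

/-! # H37N, chunk B12 (S/M): a lemma on sequences -/

open Set Filter Topology

namespace Pool.Agent.Lib.H37N

/-- PROOF. (1) v k ≤ u k for all k.  Suppose v k > u k for some k.  Put e = 1/10^11.  h1: u (k+1) (1 - e) ≤ (81/100 + 2 e) v k + e v (k+1) (because u k < v k), h2:
v k (1 - 2e) ≤ (81/100 + e) v (k+1) + e u (k+1); together (linear arithmetic) v k ≤ (82/100) v (k+1) and u (k+1) < v (k+1) (v k > u k ≥ 0 so v (k+1) > 0).  So by induction on j:
v (k+j) > u (k+j) and (100/82)^j v k ≤ v (k+j) ≤ M: contradiction (`tendsto_pow_atTop_atTop_of_one_lt`, v k > 0).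
(2) h1 and v ≤ u: u (k+1) ≤ (81/100) u k + e (2 u k + 2 u (k+1)), so u (k+1) ≤ (82/100) u k (linarith). -/
theorem seq_decay {u v : ℕ → ℝ} {M : ℝ} (hu : ∀ k, 0 ≤ u k) (hv : ∀ k, 0 ≤ v k) (hM : ∀ k, v k ≤ M)
    (h1 : ∀ k, u (k + 1) ≤ 81 / 100 * u k + 1 / 10 ^ 11 * (u k + v k + u (k + 1) + v (k + 1)))
    (h2 : ∀ k, v k ≤ 81 / 100 * v (k + 1) + 1 / 10 ^ 11 * (u k + v k + u (k + 1) + v (k + 1))) :
    ∀ k, v k ≤ u k ∧ u (k + 1) ≤ 82 / 100 * u k := by
  have step : ∀ k, u k < v k → v k ≤ 82 / 100 * v (k + 1) ∧ u (k + 1) < v (k + 1) := by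
    intro k hk
    have a1 := h1 k
    have a2 := h2 k
    have b1 := hu k
    have b2 := hu (k + 1)
    have b3 := hv (k + 1)
    refine ⟨by linarith, by linarith⟩
  have hvu : ∀ k, v k ≤ u k := by
    intro k
    by_contra hcon
    push Not at hcon
    have hvk : 0 < v k := lt_of_le_of_lt (hu k) hcon
    have ind : ∀ j, u (k + j) < v (k + j) ∧ (100 / 82 : ℝ) ^ j * v k ≤ v (k + j) := by
      intro j
      induction j with
      | zero => exact ⟨hcon, by simp⟩
      | succ j ih =>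
        obtain ⟨s1, s2⟩ := step (k + j) ih.1
        refine ⟨s2, ?_⟩
        have e : k + (j + 1) = k + j + 1 := by ring
        rw [e, pow_succ]
        have := ih.2
        linarith
    have ht := tendsto_pow_atTop_atTop_of_one_lt (by norm_num : (1 : ℝ) < 100 / 82)
    obtain ⟨j, hj⟩ := (ht.eventually (eventually_gt_atTop (M / v k))).exists
    have h3 := (ind j).2
    have h4 := hM (k + j)
    rw [div_lt_iff₀ hvk] at hj
    linarith
  intro k
  refine ⟨hvu k, ?_⟩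
  have a1 := h1 k
  have a3 := hvu k
  have a4 := hvu (k + 1)
  have b1 := hu k
  have b2 := hu (k + 1)
  linarith

theorem seq_decay_tendsto {u v : ℕ → ℝ} {M : ℝ} (hu : ∀ k, 0 ≤ u k) (hv : ∀ k, 0 ≤ v k) (hM : ∀ k, v k ≤ M)
    (h1 : ∀ k, u (k + 1) ≤ 81 / 100 * u k + 1 / 10 ^ 11 * (u k + v k + u (k + 1) + v (k + 1)))
    (h2 : ∀ k, v k ≤ 81 / 100 * v (k + 1) + 1 / 10 ^ 11 * (u k + v k + u (k + 1) + v (k + 1))) :
    Tendsto u atTop (𝓝 0) ∧ Tendsto v atTop (𝓝 0) := by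
  have key := seq_decay hu hv hM h1 h2
  have hb : ∀ k, u k ≤ (82 / 100 : ℝ) ^ k * u 0 := by
    intro k
    induction k with
    | zero => simp
    | succ k ih =>
      have := (key k).2
      rw [pow_succ]
      linarith
  have ht : Tendsto (fun k : ℕ => (82 / 100 : ℝ) ^ k * u 0) atTop (𝓝 0) := by
    have := (tendsto_pow_atTop_nhds_zero_of_lt_one (by norm_num : (0 : ℝ) ≤ 82 / 100)
      (by norm_num)).mul_const (u 0)
    simpa using this
  have hu0 : Tendsto u atTop (𝓝 0) := squeeze_zero hu hb ht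
  exact ⟨hu0, squeeze_zero hv (fun k => (key k).1) hu0⟩

end Pool.Agent.Lib.H37N
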