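import Pool.Agent.Lib.H37N.B12
import Pool.Agent.Lib.H37N.B13

/-! # H37N, chunk B14 (M): convergence of orbits with the same itinerary; the connecting orbit -/

open Set Filter Topology
open scoped ContDiff

namespace Pool.Agent.Lib.H37N

theorem b14_pw (i : Sy) : 0 < pw i ∧ pw i ≤ 4 / 5 := by
  cases i <;> norm_num [pw]

theorem b14_qw (i : Sy) : 0 < qw i ∧ qw i ≤ 1 / 2 := by
  cases i <;> norm_num [qw]

theorem b14_x {i : Sy} {z : Pt} (h : z ∈ VV i) : -del ≤ z.1 ∧ z.1 ≤ 1 + del := by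
  obtain ⟨⟨h1, h2⟩, -⟩ := mem_VV.1 h
  cases i
  · simp only [al, pw] at h1 h2
    constructor <;> linarith
  · simp only [al, pw] at h1 h2
    constructor <;> linarith

theorem b14_y {i : Sy} {z : Pt} (h : z ∈ VV i) : -del ≤ z.2 ∧ z.2 ≤ 1 + del :=
  (mem_VV.1 h).2

theorem b14_norm (z : Pt) : ‖z‖ ≤ |z.1| + |z.2| := by
  rw [Prod.norm_def, Real.norm_eq_abs, Real.norm_eq_abs]
  exact max_le (le_add_of_nonneg_right (abs_nonneg _)) (le_add_of_nonneg_left (abs_nonneg _))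

theorem b14_two {a b : ℝ} (ha : -del ≤ a ∧ a ≤ 1 + del) (hb : -del ≤ b ∧ b ≤ 1 + del) :
    |a - b| ≤ 2 := by
  have hd : del ≤ 1 / 2 := by norm_num [del]
  rw [abs_le]
  constructor <;> linarith [ha.1, ha.2, hb.1, hb.2]

/-- one step: the two estimates in absolute values -/
theorem b14_step {g : Pt → Pt} (hg : Near g) {i : Sy} {z z' : Pt} (hz : z ∈ VV i)
    (hz' : z' ∈ VV i) :
    |z.1 - z'.1| ≤ 81 / 100 * |(g z).1 - (g z').1| + 1 / 10 ^ 11 * (|z.1 - z'.1| + |z.2 - z'.2|) ∧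
    |(g z).2 - (g z').2| ≤ 81 / 100 * |z.2 - z'.2| +
      1 / 10 ^ 11 * (|z.1 - z'.1| + |z.2 - z'.2|) := by
  obtain ⟨h1, h2⟩ := hg.diff hz hz'
  have h3 := b14_norm (z - z')
  simp only [Prod.fst_sub, Prod.snd_sub] at h3
  obtain ⟨hp0, hp1⟩ := b14_pw i
  obtain ⟨hq0, hq1⟩ := b14_qw i
  have he : 2 * e0 * ‖z - z'‖ ≤ 2 / 10 ^ 12 * (|z.1 - z'.1| + |z.2 - z'.2|) := by
    have : (2 * e0 : ℝ) = 2 / 10 ^ 12 := by norm_num [e0]
    rw [this]
    exact mul_le_mul_of_nonneg_left h3 (by positivity)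
  set N := |z.1 - z'.1| + |z.2 - z'.2| with hN
  have hN0 : 0 ≤ N := by positivity
  constructor
  · have h4 : z.1 - z'.1 = pw i * ((g z).1 - (g z').1) -
        pw i * ((g z).1 - (g z').1 - (z.1 - z'.1) / pw i) := by
      field_simp
      ring
    have h5 : |z.1 - z'.1| ≤ pw i * |(g z).1 - (g z').1| +
        pw i * |(g z).1 - (g z').1 - (z.1 - z'.1) / pw i| := by
      calc |z.1 - z'.1| = |pw i * ((g z).1 - (g z').1) -
            pw i * ((g z).1 - (g z').1 - (z.1 - z'.1) / pw i)| := by rw [← h4]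
        _ ≤ |pw i * ((g z).1 - (g z').1)| +
            |pw i * ((g z).1 - (g z').1 - (z.1 - z'.1) / pw i)| := abs_sub _ _
        _ = _ := by rw [abs_mul, abs_mul, abs_of_pos hp0]
    have h6 : pw i * |(g z).1 - (g z').1| ≤ 81 / 100 * |(g z).1 - (g z').1| :=
      mul_le_mul_of_nonneg_right (by linarith) (abs_nonneg _)
    have h7 : pw i * |(g z).1 - (g z').1 - (z.1 - z'.1) / pw i| ≤
        1 * (2 / 10 ^ 12 * N) :=
      mul_le_mul (by linarith) (h1.trans he) (abs_nonneg _) (by norm_num)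
    have h8 : 2 / 10 ^ 12 * N ≤ 1 / 10 ^ 11 * N :=
      mul_le_mul_of_nonneg_right (by norm_num) hN0
    linarith
  · have h5 : |(g z).2 - (g z').2| ≤ |(g z).2 - (g z').2 - qw i * (z.2 - z'.2)| +
        qw i * |z.2 - z'.2| := by
      have h9 := abs_add_le ((g z).2 - (g z').2 - qw i * (z.2 - z'.2)) (qw i * (z.2 - z'.2))
      rw [sub_add_cancel, abs_mul (qw i), abs_of_pos hq0] at h9
      exact h9
    have h6 : qw i * |z.2 - z'.2| ≤ 81 / 100 * |z.2 - z'.2| :=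
      mul_le_mul_of_nonneg_right (by linarith) (abs_nonneg _)
    have h8 : 2 / 10 ^ 12 * N ≤ 1 / 10 ^ 11 * N :=
      mul_le_mul_of_nonneg_right (by norm_num) hN0
    linarith [h2.trans he]

theorem b14_tendsto {s s' : ℕ → Pt} (h1 : Tendsto (fun n => |(s n).1 - (s' n).1|) atTop (𝓝 0))
    (h2 : Tendsto (fun n => |(s n).2 - (s' n).2|) atTop (𝓝 0)) :
    Tendsto (fun n => s n - s' n) atTop (𝓝 0) := by
  refine squeeze_zero_norm (a := fun n => |(s n).1 - (s' n).1| + |(s n).2 - (s' n).2|)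
    (fun n => ?_) ?_
  · have := b14_norm (s n - s' n)
    simpa using this
  · simpa using h1.add h2

/-- PROOF. `mem_interior_VV`.  x: |(g z).1 - (z.1 - al)/pw| ≤ e0 and (g z).1 ∈ [-del, 1+del] give z.1 ∈ [al - pw del - e0, al + pw + pw del + e0], pw ≤ 4/5.
y: z.2 = (g w).2 is within e0 of be k + qw k w.2, be k ≥ 0, be k + qw k ≤ 1, qw k ≤ 1/2. -/
theorem mem_interior_of {g : Pt → Pt} (hg : Near g) {i j k : Sy} {z w : Pt} (hz : z ∈ VV i) (hz' : g z ∈ VV j)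
    (hw : w ∈ VV k) (hw' : g w = z) : z ∈ interior (VV i) := by
  rw [mem_interior_VV]
  have h1 := (abs_le.1 (hg.close0 i z hz).1)
  have h2 := (abs_le.1 (hg.close0 k w hw).2)
  obtain ⟨h3, h4⟩ := b14_x hz'
  obtain ⟨h5, h6⟩ := b14_y hw
  obtain ⟨hp0, hp1⟩ := b14_pw i
  obtain ⟨hq0, hq1⟩ := b14_qw k
  have hd : del = 1 / 100000 := rfl
  have he : e0 = 1 / 10 ^ 12 := rfl
  simp only [Aff] at h1 h2
  rw [hw'] at h2
  have ha : z.1 = al i + pw i * ((z.1 - al i) / pw i) := by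
    field_simp
    ring
  set t := (z.1 - al i) / pw i with ht
  have ht1 : -del - e0 ≤ t := by linarith [h1.2]
  have ht2 : t ≤ 1 + del + e0 := by linarith [h1.1]
  have h7 : pw i * (-del - e0) ≤ pw i * t := mul_le_mul_of_nonneg_left ht1 hp0.le
  have h8 : pw i * t ≤ pw i * (1 + del + e0) := mul_le_mul_of_nonneg_left ht2 hp0.le
  have h9 : pw i * (del + e0) ≤ 4 / 5 * (del + e0) :=
    mul_le_mul_of_nonneg_right hp1 (by rw [hd, he]; norm_num)
  have h10 : 4 / 5 * (del + e0) < del := by rw [hd, he]; norm_num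
  have h11 : qw k * (-del) ≤ qw k * w.2 := mul_le_mul_of_nonneg_left h5 hq0.le
  have h12 : qw k * w.2 ≤ qw k * (1 + del) := mul_le_mul_of_nonneg_left h6 hq0.le
  have h13 : qw k * del ≤ 1 / 2 * del := mul_le_mul_of_nonneg_right hq1 (by rw [hd]; norm_num)
  have h14 : 1 / 2 * del + e0 < del := by rw [hd, he]; norm_num
  have h15 : 0 ≤ be k ∧ be k + qw k ≤ 1 := by
    cases k <;> norm_num [be, qw]
  refine ⟨⟨by linarith, by linarith⟩, by linarith, by linarith⟩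

/-- Forward orbits with the same itinerary.

PROOF. `seq_decay_tendsto` with u k = |(s k).2 - (s' k).2|, v k = |(s k).1 - (s' k).1| ≤ 2.  `Near.diff`: |(s (k+1)).2 - (s' (k+1)).2| ≤ qw u k + 2 e0 ‖s k - s' k‖, and
|(s k).1 - (s' k).1| ≤ pw (v (k+1) + 2 e0 ‖s k - s' k‖), ‖s k - s' k‖ ≤ u k + v k. -/
theorem fwd_decay {g : Pt → Pt} (hg : Near g) {i : ℕ → Sy} {s s' : ℕ → Pt} (hs : ∀ n, s n ∈ VV (i n))
    (hs' : ∀ n, s' n ∈ VV (i n)) (h : ∀ n, g (s n) = s (n + 1)) (h' : ∀ n, g (s' n) = s' (n + 1)) :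
    Tendsto (fun n => s n - s' n) atTop (𝓝 0) := by
  have h1 := seq_decay_tendsto (u := fun k => |(s k).2 - (s' k).2|)
    (v := fun k => |(s k).1 - (s' k).1|) (M := 2) (fun k => abs_nonneg _) (fun k => abs_nonneg _)
    (fun k => b14_two (b14_x (hs k)) (b14_x (hs' k))) (fun k => ?_) (fun k => ?_)
  · exact b14_tendsto h1.2 h1.1
  · have h2 := (b14_step hg (hs k) (hs' k)).2
    rw [h k, h' k] at h2
    have h3 := abs_nonneg ((s (k + 1)).2 - (s' (k + 1)).2)
    have h4 := abs_nonneg ((s (k + 1)).1 - (s' (k + 1)).1)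
    linarith
  · have h2 := (b14_step hg (hs k) (hs' k)).1
    rw [h k, h' k] at h2
    have h3 := abs_nonneg ((s (k + 1)).2 - (s' (k + 1)).2)
    have h4 := abs_nonneg ((s (k + 1)).1 - (s' (k + 1)).1)
    linarith

/-- Backward orbits with the same itinerary.

PROOF. The same for the shifted sequences, u k = |(s (k+1)).1 - (s' (k+1)).1| and v k = |(s (k+1)).2 - (s' (k+1)).2| ≤ 2: s (k+1) = g (s (k+2)) with s (k+2) ∈ VV (i (k+1)), so by `Near.diff`
u (k+1) ≤ pw (u k + 2 e0 ‖s (k+2) - s' (k+2)‖), v k ≤ qw v (k+1) + 2 e0 ‖s (k+2) - s' (k+2)‖.  `tendsto_add_atTop_iff_nat 1`. -/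
theorem bwd_decay {g : Pt → Pt} (hg : Near g) {i : ℕ → Sy} {s s' : ℕ → Pt} (hs : ∀ n, s (n + 1) ∈ VV (i n))
    (hs' : ∀ n, s' (n + 1) ∈ VV (i n)) (h : ∀ n, g (s (n + 1)) = s n) (h' : ∀ n, g (s' (n + 1)) = s' n) :
    Tendsto (fun n => s n - s' n) atTop (𝓝 0) := by
  have h1 := seq_decay_tendsto (u := fun k => |(s (k + 1)).1 - (s' (k + 1)).1|)
    (v := fun k => |(s (k + 1)).2 - (s' (k + 1)).2|) (M := 2) (fun k => abs_nonneg _)
    (fun k => abs_nonneg _)
    (fun k => b14_two (b14_y (hs k)) (b14_y (hs' k))) (fun k => ?_) (fun k => ?_)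
  · exact (tendsto_add_atTop_iff_nat 1).1
      (b14_tendsto (s := fun n => s (n + 1)) (s' := fun n => s' (n + 1)) h1.1 h1.2)
  · have h2 := (b14_step hg (hs (k + 1)) (hs' (k + 1))).1
    rw [h (k + 1), h' (k + 1)] at h2
    have h3 := abs_nonneg ((s (k + 1)).2 - (s' (k + 1)).2)
    have h4 := abs_nonneg ((s (k + 1)).1 - (s' (k + 1)).1)
    linarith
  · have h2 := (b14_step hg (hs (k + 1)) (hs' (k + 1))).2
    rw [h (k + 1), h' (k + 1)] at h2
    have h3 := abs_nonneg ((s (k + 1)).2 - (s' (k + 1)).2)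
    have h4 := abs_nonneg ((s (k + 1)).1 - (s' (k + 1)).1)
    linarith

/-- The connecting orbit.

PROOF. `exists_orbit` with i n = if n < 0 then P else Q: s.  a n = s (-n), b n = s n.  Interiors: `mem_interior_of`.  Limits: `bwd_decay` for a and the constant orbit p (itinerary P),
`fwd_decay` for b and the constant orbit q.  If a n = p then a 0 = g^[n] p = p ∈ VV P, but a 0 = b 0 ∈ VV Q (`not_mem_VV_of_ne`). -/
theorem exists_conn {g : Pt → Pt} (hg : Near g) {p q : Pt} (hp : p ∈ VV Sy.P) (hp' : g p = p)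
    (hq : q ∈ VV Sy.Q) (hq' : g q = q) :
    ∃ a b : ℕ → Pt, a 0 = b 0 ∧ (∀ n, g (a (n + 1)) = a n) ∧ (∀ n, g (b n) = b (n + 1)) ∧
      (∀ n, a (n + 1) ∈ interior (VV Sy.P)) ∧ (∀ n, b n ∈ interior (VV Sy.Q)) ∧
      Tendsto a atTop (𝓝 p) ∧ Tendsto b atTop (𝓝 q) ∧ ∀ n, a n ≠ p := by
  obtain ⟨s, hs⟩ := exists_orbit hg (fun n => if n < 0 then Sy.P else Sy.Q)
  have hP : ∀ n : ℤ, n < 0 → s n ∈ VV Sy.P := by
    intro n hn
    have := (hs n).1
    rwa [if_pos hn] at this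
  have hQ : ∀ n : ℤ, 0 ≤ n → s n ∈ VV Sy.Q := by
    intro n hn
    have := (hs n).1
    rwa [if_neg (not_lt.2 hn)] at this
  have hint : ∀ (n : ℤ) (j : Sy), s n ∈ VV j → s n ∈ interior (VV j) := by
    intro n j hj
    have h1 : g (s n) ∈ VV (if n + 1 < 0 then Sy.P else Sy.Q) := by
      rw [(hs n).2]
      exact (hs (n + 1)).1
    have h2 : g (s (n - 1)) = s n := by
      have := (hs (n - 1)).2
      rwa [sub_add_cancel] at this
    exact mem_interior_of hg hj h1 (hs (n - 1)).1 h2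
  have hstepa : ∀ n : ℕ, g (s (-((n + 1 : ℕ) : ℤ))) = s (-(n : ℤ)) := by
    intro n
    rw [(hs _).2]
    congr 1
    push_cast
    ring
  have hstepb : ∀ n : ℕ, g (s (n : ℤ)) = s ((n + 1 : ℕ) : ℤ) := by
    intro n
    rw [(hs _).2]
    congr 1
  have haP : ∀ n : ℕ, s (-((n + 1 : ℕ) : ℤ)) ∈ VV Sy.P := by
    intro n
    refine hP _ ?_
    push_cast
    omega
  have hbQ : ∀ n : ℕ, s (n : ℤ) ∈ VV Sy.Q := fun n => hQ _ (by omega)
  refine ⟨fun n => s (-(n : ℤ)), fun n => s (n : ℤ), ?_, hstepa, hstepb,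
    fun n => hint _ _ (haP n), fun n => hint _ _ (hbQ n), ?_, ?_, ?_⟩
  · simp
  · have h1 := bwd_decay hg (i := fun _ => Sy.P) (s := fun n => s (-(n : ℤ))) (s' := fun _ => p)
      haP (fun _ => hp) hstepa (fun _ => hp')
    have h2 := h1.add_const p
    simpa using h2
  · have h1 := fwd_decay hg (i := fun _ => Sy.Q) (s := fun n => s (n : ℤ)) (s' := fun _ => q)
      hbQ (fun _ => hq) hstepb (fun _ => hq')
    have h2 := h1.add_const q
    simpa using h2
  · intro n hn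
    have h0 : ∀ m : ℕ, s (-(m : ℤ)) = p → s 0 = p := by
      intro m
      induction m with
      | zero => intro h; simpa using h
      | succ m ih =>
        intro h
        apply ih
        rw [← hstepa m, h, hp']
    have h1 : s 0 = p := h0 n hn
    have h2 : s 0 ∈ VV Sy.Q := hQ 0 le_rfl
    rw [h1] at h2
    exact not_mem_VV_of_ne (by decide) hp h2

end Pool.Agent.Lib.H37N
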