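import Pool.Agent.Lib.H37N.B10

/-! # H37N, chunk B15 (S/M): orbits converging to the fixed point lie on the axes of the chart -/

open Set Filter Topology
open scoped ContDiff

namespace Pool.Agent.Lib.H37N

variable {g : Pt → Pt} {i : Sy} {κ c : Pt → Pt} {lam mu : ℝ}

theorem b15_zero : (0 : Pt) ∈ Bx := by
  simp [Bx]

theorem b15_mem {x y : ℝ} (hx : |x| < 2) (hy : |y| < 2) : ((x, y) : Pt) ∈ Bx := by
  rw [abs_lt] at hx hy
  exact ⟨hx, hy⟩

theorem b15_mu (h : mu ∈ muR i) : 1 < mu ∧ mu < 10 := by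
  cases i <;> simp only [muR, mem_Ioo] at h <;> constructor <;> linarith [h.1, h.2]

theorem b15_lim (h : LinChart g i κ c lam mu) {w : ℕ → Pt}
    (hlim : Tendsto w atTop (𝓝 (κ 0))) : Tendsto (fun n => c (w n)) atTop (𝓝 0) := by
  have h1 : Tendsto (fun n => c (w n)) atTop (𝓝 (c (κ 0))) :=
    (h.smooth_c.continuous.tendsto (κ 0)).comp hlim
  rw [h.left 0 b15_zero] at h1
  exact h1

theorem b15_ev (h : LinChart g i κ c lam mu) {w : ℕ → Pt}
    (hlim : Tendsto w atTop (𝓝 (κ 0))) : ∃ N : ℕ, ∀ n ≥ N, κ (c (w n)) = w n ∧ c (w n) ∈ Bx ∧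
      |(c (w n)).1| < 1 / 10 ∧ |(c (w n)).2| < 1 / 10 := by
  have h1 : ∀ᶠ n in atTop, w n ∈ κ '' Bx :=
    hlim.eventually (h.isOpen.mem_nhds ⟨0, b15_zero, rfl⟩)
  have h2 : ∀ᶠ n in atTop, c (w n) ∈ Metric.ball (0 : Pt) (1 / 10) :=
    (b15_lim h hlim).eventually (Metric.ball_mem_nhds _ (by norm_num))
  obtain ⟨N, hN⟩ := eventually_atTop.1 (h1.and h2)
  refine ⟨N, fun n hn => ?_⟩
  obtain ⟨h3, h4⟩ := hN n hn
  obtain ⟨h5, h6⟩ := h.right h3
  rw [mem_ball_zero_iff, Prod.norm_def, max_lt_iff, Real.norm_eq_abs, Real.norm_eq_abs] at h4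
  exact ⟨h5, h6, h4.1, h4.2⟩

theorem b15_step (h : LinChart g i κ c lam mu) {w w' : Pt} (e : κ (c w) = w) (e' : κ (c w') = w')
    (hB' : c w' ∈ Bx) (h1 : |(c w).1| < 1 / 10) (h2 : |(c w).2| < 1 / 10) (hw : g w = w') :
    c w' = (lam * (c w).1, mu * (c w).2) := by
  obtain ⟨m1, m2⟩ := b15_mu h.mu_mem
  have hl := h.lam_mem
  have a1 : |lam * (c w).1| < 2 := by
    rw [abs_mul, abs_of_pos (by linarith [hl.1])]
    nlinarith [abs_nonneg (c w).1, hl.1, hl.2]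
  have a2 : |mu * (c w).2| < 2 := by
    rw [abs_mul, abs_of_pos (by linarith)]
    nlinarith [abs_nonneg (c w).2]
  have h3 := h.lin (c w).1 (c w).2 (by linarith) a2
  have h4 : κ ((c w).1, (c w).2) = κ (c w) := rfl
  rw [h4, e, hw, ← e'] at h3
  exact h.inj hB' (b15_mem a1 a2) h3

theorem b15_mono {u : ℕ → ℝ} {N : ℕ} (h : ∀ n ≥ N, |u n| ≤ |u (n + 1)|)
    (hlim : Tendsto u atTop (𝓝 0)) : ∀ n ≥ N, u n = 0 := by
  intro n hn
  have h1 : Monotone fun k => |u (n + k)| := by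
    refine monotone_nat_of_le_succ fun k => ?_
    exact h (n + k) (by omega)
  have h2 : Tendsto (fun k => |u (n + k)|) atTop (𝓝 0) := by
    have h3 : Tendsto (fun k => u (n + k)) atTop (𝓝 0) := by
      have := hlim.comp (tendsto_add_atTop_nat n)
      refine this.congr fun k => ?_
      simp only [Function.comp_apply]
      congr 1
      omega
    have := h3.abs
    rwa [abs_zero] at this
  have h4 := h1.ge_of_tendsto h2 0
  simp only [add_zero] at h4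
  exact abs_eq_zero.1 (le_antisymm h4 (abs_nonneg _))

/-- PROOF. κ '' Bx is an open neighbourhood of κ 0, so w n ∈ κ '' Bx for large n, v n := c (w n) → c (κ 0) = 0.  Take n₀ with ‖v n‖ < 1/10 for n ≥ n₀.  For n ≥ n₀: w (n+1) = g (κ (v n)) =
κ (lam x_n, mu y_n) (`right`, `lin`; |mu y_n| < 2 because mu < 10), so v (n+1) = (lam x_n, mu y_n) (injectivity).  |y_(n+1)| = mu |y_n| ≥ |y_n| and y_n → 0, so y_n = 0 for n ≥ n₀
(`Monotone.ge_of_tendsto`).  w n = κ (x_n, 0), |x_n| < 1. -/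
theorem LinChart.fwd (h : LinChart g i κ c lam mu) {w : ℕ → Pt} (hw : ∀ n, g (w n) = w (n + 1))
    (hlim : Tendsto w atTop (𝓝 (κ 0))) : ∀ᶠ n in atTop, ∃ x : ℝ, |x| < 1 ∧ w n = κ (x, 0) := by
  obtain ⟨N, hN⟩ := b15_ev h hlim
  obtain ⟨m1, m2⟩ := b15_mu h.mu_mem
  have hs : ∀ n ≥ N, |(c (w n)).2| ≤ |(c (w (n + 1))).2| := by
    intro n hn
    obtain ⟨e, -, h1, h2⟩ := hN n hn
    obtain ⟨e', hB', -, -⟩ := hN (n + 1) (by omega)
    rw [b15_step h e e' hB' h1 h2 (hw n)]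
    simp only [abs_mul, abs_of_pos (show (0 : ℝ) < mu by linarith)]
    nlinarith [abs_nonneg (c (w n)).2]
  have hl : Tendsto (fun n => (c (w n)).2) atTop (𝓝 0) := by
    have := (continuous_snd.tendsto (0 : Pt)).comp (b15_lim h hlim)
    exact this
  have h0 := b15_mono hs hl
  refine eventually_atTop.2 ⟨N, fun n hn => ?_⟩
  obtain ⟨e, -, h1, -⟩ := hN n hn
  refine ⟨(c (w n)).1, by linarith, ?_⟩
  rw [← h0 n hn]
  exact e.symm

/-- PROOF. The same: v n = (lam x_(n+1), mu y_(n+1)) for large n; |x_(n+1)| = |x_n| / lam ≥ |x_n| and x_n → 0, so x_n = 0. -/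
theorem LinChart.bwd (h : LinChart g i κ c lam mu) {w : ℕ → Pt} (hw : ∀ n, g (w (n + 1)) = w n)
    (hlim : Tendsto w atTop (𝓝 (κ 0))) : ∀ᶠ n in atTop, ∃ y : ℝ, |y| < 1 ∧ w n = κ (0, y) := by
  obtain ⟨N, hN⟩ := b15_ev h hlim
  have hl0 := h.lam_mem
  have hs : ∀ n ≥ N, |(c (w n)).1| ≤ |(c (w (n + 1))).1| := by
    intro n hn
    obtain ⟨e, hB, -, -⟩ := hN n hn
    obtain ⟨e', -, h1, h2⟩ := hN (n + 1) (by omega)
    rw [b15_step h e' e hB h1 h2 (hw n)]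
    simp only [abs_mul, abs_of_pos (show (0 : ℝ) < lam by linarith [hl0.1])]
    nlinarith [abs_nonneg (c (w (n + 1))).1, hl0.2]
  have hl : Tendsto (fun n => (c (w n)).1) atTop (𝓝 0) := by
    have := (continuous_fst.tendsto (0 : Pt)).comp (b15_lim h hlim)
    exact this
  have h0 := b15_mono hs hl
  refine eventually_atTop.2 ⟨N, fun n hn => ?_⟩
  obtain ⟨e, -, -, h1⟩ := hN n hn
  refine ⟨(c (w n)).2, by linarith, ?_⟩
  rw [← h0 n hn]
  exact e.symm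

end Pool.Agent.Lib.H37N
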