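import Pool.Agent.Lib.H37N.A124
import Pool.Agent.Lib.H37N.B15
import Pool.Agent.Lib.H37N.B16

/-!
# H37N C33 (size M): the unstable side of the first tangency
-/

open Set Filter Topology
open scoped ContDiff

namespace Pool.Agent.Lib.H37N

theorem c33_FF_sub_NN {z : Pt} (hz : z ∈ FF) : z ∈ NN := by
  obtain ⟨⟨h1, h2⟩, h3⟩ := hz
  refine ⟨⟨?_, ?_⟩, h3⟩
  · simp only [xc, u0, del] at *
    linarith
  · simp only [xc, u0, del] at *
    linarith

theorem c33_FF_VV {z : Pt} (hz : z ∈ FF) : z ∉ VV Sy.Q := by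
  intro hz'
  obtain ⟨⟨h1, h2⟩, h3⟩ := hz
  obtain ⟨⟨h4, h5⟩, h6⟩ := hz'
  simp only [xc, u0, del, al] at *
  linarith

theorem c33_fix {g : Pt → Pt} (h : Near g) {F : Fr} (hF : IsFr g F) (i : Sy) :
    F.κ i 0 = fixP g i ∧ F.κ i 0 ∈ interior (VV i) := by
  have hc := hF.chart i
  have h1 : F.κ i 0 ∈ interior (VV i) := by
    apply hc.sub
    refine ⟨0, ?_, rfl⟩
    change ((0 : ℝ), (0 : ℝ)) ∈ Bx
    rw [b10_mem_Bx]
    norm_num
  exact ⟨(fixP_spec h i).2.2 _ (interior_subset h1) hc.fix, h1⟩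

/-- Proof. `z = (x, Uu g Q w x)`. `back_orbit h Q w hx`: `ζ 0 = z`, `ζ (n+1) ∈ interior (VV (w.reverse.getD n Q)) ⊆ VO`,
`g (ζ (n+1)) = ζ n`, `ζ → fixP g Q = κ_Q 0` (`LinChart.fix`, `sub`, uniqueness in `fixP_spec`). `LinChart.bwd`: for large `n`,
`ζ n = κ_Q (0, y)` with `|y| < 1`. Fix such `k ≥ w.length + 1` and `b = y`: `g^[i] (κ_Q (0,b)) = ζ (k - i)` for `i ≤ k`, so the path
condition and `g^[k] (κ_Q (0,b)) = z`. `b ≠ 0`: otherwise `z = g^[k] (κ_Q 0) = κ_Q 0 ∈ VV Q`, but `z ∈ interior FF` and `FF`, `VV Q` are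
disjoint.
Last claim: let `t` be so small that `|b + t| < 1`, `g^[k] (κ_Q (0, b+t)) ∈ interior FF ⊆ NN` and, for `1 ≤ n ≤ k`,
`g^[k-n] (κ_Q (0, b+t)) ∈ interior (VV (w.reverse.getD (n-1) Q))` (finitely many open conditions, true at `t = 0` where the point is `ζ n`;
`t ↦ g^[j] (κ_Q (0, b+t))` is continuous at `0` for `j ≤ k` by `Near.iter` and `LinChart.smooth`). Define
`ξ n = g^[k-n] (κ_Q (0, b+t))` for `n ≤ k` and `ξ n = κ_Q (0, (b+t) / mu^(n-k))` for `n > k`; `g (ξ (n+1)) = ξ n` (`LinChart.iter` / `lin`),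
`ξ (n+1) ∈ VV (w.reverse.getD n Q)` (for `n ≥ k ≥ w.length` the letter is `Q`). `back_char` for `ξ`. -/
theorem unst_side {g : Pt → Pt} (h : Near g) {F : Fr} (hF : IsFr g F) (w : List Sy) {x : ℝ} (hx : x ∈ II)
    (hz : (x, Uu g Sy.Q w x) ∈ interior FF) : ∃ (b : ℝ) (k : ℕ), 0 < |b| ∧ |b| < 1 ∧
      g^[k] (F.κ Sy.Q (0, b)) = (x, Uu g Sy.Q w x) ∧ (∀ i < k, g^[i] (F.κ Sy.Q (0, b)) ∈ VO) ∧
      ∀ᶠ t in 𝓝 (0 : ℝ), (g^[k] (F.κ Sy.Q (0, b + t))).2 =
        Uu g Sy.Q w (g^[k] (F.κ Sy.Q (0, b + t))).1 := by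
  have hc := hF.chart Sy.Q
  obtain ⟨hfix, hfixV⟩ := c33_fix h hF Sy.Q
  obtain ⟨ζ, h0, hV, hg, hlim⟩ := back_orbit h Sy.Q w hx
  rw [← hfix] at hlim
  obtain ⟨k, ⟨b, hb1, hζk⟩, hk⟩ := ((hc.bwd hg hlim).and (eventually_ge_atTop (w.length + 1))).exists
  have hit : ∀ i ≤ k, g^[i] (ζ k) = ζ (k - i) := by
    intro i
    induction i with
    | zero => intro _; rfl
    | succ i ih =>
      intro hi
      rw [Function.iterate_succ_apply', ih (by omega)]
      have e : k - i = (k - (i + 1)) + 1 := by omega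
      rw [e]
      exact hg _
  have hgk : g^[k] (F.κ Sy.Q (0, b)) = (x, Uu g Sy.Q w x) := by
    rw [← hζk, hit k le_rfl, Nat.sub_self, h0]
  have hmem : ∀ i < k, g^[i] (F.κ Sy.Q (0, b)) ∈ interior (VV (w.reverse.getD (k - i - 1) Sy.Q)) := by
    intro i hi
    rw [← hζk, hit i hi.le]
    have e : k - i = (k - i - 1) + 1 := by omega
    have h1 := hV (k - i - 1)
    rwa [← e] at h1
  have hint : ∀ j : Sy, interior (VV j) ⊆ VO := by
    intro j
    cases j
    · exact subset_union_left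
    · exact subset_union_right
  have hpath : ∀ i < k, g^[i] (F.κ Sy.Q (0, b)) ∈ VO := fun i hi => hint _ (hmem i hi)
  refine ⟨b, k, ?_, hb1, hgk, hpath, ?_⟩
  · rw [abs_pos]
    rintro rfl
    have h1 : ∀ n, g^[n] (F.κ Sy.Q 0) = F.κ Sy.Q 0 := fun n => Function.iterate_fixed hc.fix n
    have h2 : F.κ Sy.Q 0 = (x, Uu g Sy.Q w x) := by
      rw [← hgk]
      exact (h1 k).symm
    rw [← h2] at hz
    exact c33_FF_VV (interior_subset hz) (interior_subset hfixV)
  · have hcont : ∀ j ≤ k, ContinuousAt (fun t : ℝ => g^[j] (F.κ Sy.Q (0, b + t))) 0 := by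
      intro j hj
      have h1 := (h.iter j (z := F.κ Sy.Q (0, b)) (fun i hi => hpath i (by omega))).self_of_nhds.1
      have h2 : ContinuousAt (fun t : ℝ => F.κ Sy.Q (0, b + t)) 0 := by
        have h3 : Continuous (fun t : ℝ => F.κ Sy.Q (0, b + t)) := by
          exact hc.smooth.continuous.comp (by fun_prop)
        exact h3.continuousAt
      have h4 : ContinuousAt (g^[j]) ((fun t : ℝ => F.κ Sy.Q (0, b + t)) 0) := by
        simp only [add_zero]
        exact h1.continuousAt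
      exact ContinuousAt.comp h4 h2
    have hE1 : ∀ᶠ t in 𝓝 (0 : ℝ), |b + t| < 1 := by
      have h1 : ContinuousAt (fun t : ℝ => |b + t|) 0 := by fun_prop
      have h2 : |b + (0 : ℝ)| < 1 := by rwa [add_zero]
      exact h1.eventually_lt continuousAt_const h2
    have hE2 : ∀ᶠ t in 𝓝 (0 : ℝ), g^[k] (F.κ Sy.Q (0, b + t)) ∈ interior FF := by
      have h1 := hcont k le_rfl
      apply h1.eventually_mem
      apply isOpen_interior.mem_nhds
      simp only [add_zero]
      rw [hgk]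
      exact hz
    have hE3 : ∀ᶠ t in 𝓝 (0 : ℝ), ∀ j ∈ Finset.range k,
        g^[j] (F.κ Sy.Q (0, b + t)) ∈ interior (VV (w.reverse.getD (k - j - 1) Sy.Q)) := by
      rw [Filter.eventually_all_finset]
      intro j hj
      have hj' : j < k := Finset.mem_range.1 hj
      have h1 := hcont j hj'.le
      apply h1.eventually_mem
      apply isOpen_interior.mem_nhds
      simp only [add_zero]
      exact hmem j hj'
    filter_upwards [hE1, hE2, hE3] with t ht1 ht2 ht3
    have hmu := hc.one_lt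
    have hmup : ∀ n : ℕ, (0 : ℝ) < F.mu Sy.Q ^ n := fun n => by positivity
    have hsmall : ∀ n : ℕ, |(b + t) / F.mu Sy.Q ^ n| < 1 := by
      intro n
      rw [abs_div, abs_of_pos (hmup n), div_lt_one (hmup n)]
      exact ht1.trans_le (one_le_pow₀ hmu.le)
    let ξ : ℕ → Pt := fun n => if n ≤ k then g^[k - n] (F.κ Sy.Q (0, b + t)) else
      F.κ Sy.Q (0, (b + t) / F.mu Sy.Q ^ (n - k))
    have hξ1 : ∀ n ≤ k, ξ n = g^[k - n] (F.κ Sy.Q (0, b + t)) := fun n hn => if_pos hn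
    have hξ2 : ∀ n, k ≤ n → ξ n = F.κ Sy.Q (0, (b + t) / F.mu Sy.Q ^ (n - k)) := by
      intro n hn
      rcases hn.eq_or_lt with rfl | hn
      · rw [hξ1 _ le_rfl]
        simp
      · exact if_neg (by omega)
    have hξ0 : ξ 0 = g^[k] (F.κ Sy.Q (0, b + t)) := hξ1 0 (Nat.zero_le _)
    have hres := back_char h Sy.Q w (ζ := ξ) ?_ ?_ ?_
    · rw [hξ0] at hres
      exact hres
    · rw [hξ0]
      exact c33_FF_sub_NN (interior_subset ht2)
    · intro n
      rcases Nat.lt_or_ge n k with hn | hn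
      · rw [hξ1 (n + 1) hn]
        have h1 := ht3 (k - (n + 1)) (Finset.mem_range.2 (by omega))
        have e : k - (k - (n + 1)) - 1 = n := by omega
        rw [e] at h1
        exact interior_subset h1
      · rw [hξ2 (n + 1) (by omega)]
        have e : w.reverse.getD n Sy.Q = Sy.Q := by
          rw [List.getD_eq_default]
          rw [List.length_reverse]
          omega
        rw [e]
        apply interior_subset
        apply hc.sub
        refine ⟨_, b10_mem_Bx.2 ⟨by norm_num, ?_⟩, rfl⟩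
        exact (hsmall _).trans (by norm_num)
    · intro n
      rcases Nat.lt_or_ge n k with hn | hn
      · rw [hξ1 (n + 1) hn, hξ1 n hn.le]
        have e : k - n = (k - (n + 1)) + 1 := by omega
        rw [e, Function.iterate_succ_apply']
      · rw [hξ2 (n + 1) (by omega), hξ2 n hn]
        have e : n + 1 - k = (n - k) + 1 := by omega
        have e2 : F.mu Sy.Q * ((b + t) / F.mu Sy.Q ^ (n + 1 - k)) = (b + t) / F.mu Sy.Q ^ (n - k) := by
          rw [e, pow_succ]
          have hne : F.mu Sy.Q ≠ 0 := by positivity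
          field_simp
        rw [hc.lin 0 _ (by norm_num) (by rw [e2]; exact (hsmall _).trans (by norm_num)), e2, mul_zero]

end Pool.Agent.Lib.H37N
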