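import Pool.Agent.Lib.H37N.Defs

/-!
# H37N C35 (size M, pure topology and calculus): constant sign on one side of a curve; extremum gives order two
-/

open Set Filter Topology Asymptotics
open scoped ContDiff

namespace Pool.Agent.Lib.H37N

theorem c35_side {s : ℝ → ℝ} {ψ : Pt → ℝ} {w : Pt} {ρ y0 r : ℝ}
    (hw : w.2 ∈ Ioo (y0 - r) (y0 + r)) (h1 : s w.2 - ρ < w.1) (h2 : w.1 ≤ s w.2)
    (hc : ContinuousAt ψ w) {P : ℝ → Prop} (hP : IsClosed {x | P x})
    (h : ∀ d ∈ Ioo 0 ρ ×ˢ Ioo (y0 - r) (y0 + r), P (ψ (s d.2 - d.1, d.2))) : P (ψ w) := by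
  have ht : Tendsto (fun a : ℝ => ψ (w.1 - a, w.2)) (𝓝[>] 0) (𝓝 (ψ w)) := by
    have h3 : Tendsto (fun a : ℝ => ((w.1 - a, w.2) : Pt)) (𝓝[>] 0) (𝓝 w) := by
      have h4 : Continuous (fun a : ℝ => ((w.1 - a, w.2) : Pt)) := by fun_prop
      have h5 := h4.tendsto 0
      simp only [sub_zero] at h5
      exact h5.mono_left nhdsWithin_le_nhds
    exact hc.tendsto.comp h3
  have h6 : ∀ᶠ a in 𝓝[>] (0 : ℝ), P (ψ (w.1 - a, w.2)) := by
    have h7 : 0 < ρ - (s w.2 - w.1) := by linarith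
    filter_upwards [Ioo_mem_nhdsGT h7] with a ha
    have h8 := h (s w.2 - w.1 + a, w.2) ⟨⟨by linarith [ha.1], by linarith [ha.2]⟩, hw⟩
    have h9 : s w.2 - (s w.2 - w.1 + a) = w.1 - a := by ring
    simp only [h9] at h8
    exact h8
  exact hP.mem_of_tendsto ht h6

/-- Proof. Take `r, ρ > 0` such that `ψ` is continuous at, and the zero property holds at, all points of
`A = {w | |w.2 - w0.2| < r, s w.2 - ρ < w.1 ≤ s w.2}` (by continuity of `s`, `A` is in any given neighbourhood of `w0` for small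
`r, ρ`). `A' = {w ∈ A | w.1 < s w.2}` is the image of `Ioo 0 ρ ×ˢ Ioo (w0.2 - r) (w0.2 + r)` under `(a, y) ↦ (s y - a, y)`, so it is
preconnected; `ψ ≠ 0` on `A'`, so `ψ` has constant sign there (`IsPreconnected.image`, `isPreconnected_iff_ordConnected`, or the
intermediate value theorem). Points of `A` with `w.1 = s w.2` are limits of `(s y - a, y) ∈ A'`, `a → 0+`: weak inequality
(`ge_of_tendsto`, `le_of_tendsto`). Points near `w0` with `w.1 ≤ s w.2` are in `A`. -/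
theorem sign_side {s : ℝ → ℝ} (hs : Continuous s) {ψ : Pt → ℝ} {w0 : Pt} (h0 : w0.1 = s w0.2)
    (hc : ∀ᶠ w in 𝓝 w0, ContinuousAt ψ w) (hz : ∀ᶠ w in 𝓝 w0, ψ w = 0 → w.1 = s w.2) :
    (∀ᶠ w in 𝓝 w0, w.1 ≤ s w.2 → 0 ≤ ψ w) ∨ (∀ᶠ w in 𝓝 w0, w.1 ≤ s w.2 → ψ w ≤ 0) := by
  obtain ⟨ε, hε, hball⟩ := Metric.eventually_nhds_iff.1 (hc.and hz)
  obtain ⟨r0, hr0, hsr⟩ := Metric.continuousAt_iff.1 (hs.continuousAt (x := w0.2)) (ε / 2) (by linarith)
  obtain ⟨r, hr, hrr0, hrε⟩ : ∃ r : ℝ, 0 < r ∧ r ≤ r0 ∧ r ≤ ε :=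
    ⟨min r0 ε, lt_min hr0 hε, min_le_left _ _, min_le_right _ _⟩
  have hA : ∀ w : Pt, w.2 ∈ Ioo (w0.2 - r) (w0.2 + r) → s w.2 - ε / 2 < w.1 → w.1 ≤ s w.2 →
      ContinuousAt ψ w ∧ (ψ w = 0 → w.1 = s w.2) := by
    intro w hw h1 h2
    apply hball
    have h3 : |w.2 - w0.2| < r := by
      rw [abs_lt]
      constructor <;> linarith [hw.1, hw.2]
    have h4 : dist w.2 w0.2 < r0 := by
      rw [Real.dist_eq]
      linarith
    have h5 := hsr h4
    rw [Real.dist_eq] at h5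
    have h6 := abs_lt.1 h5
    rw [Prod.dist_eq]
    apply max_lt
    · rw [Real.dist_eq, h0, abs_lt]
      constructor <;> linarith [h6.1, h6.2]
    · rw [Real.dist_eq]
      linarith
  set D : Set Pt := Ioo 0 (ε / 2) ×ˢ Ioo (w0.2 - r) (w0.2 + r) with hD
  have hD1 : ∀ d ∈ D, ContinuousAt ψ (s d.2 - d.1, d.2) ∧ ψ (s d.2 - d.1, d.2) ≠ 0 := by
    intro d hd
    obtain ⟨h1, h2⟩ := hA (s d.2 - d.1, d.2) hd.2 (by simp only; linarith [hd.1.2])
      (by simp only; linarith [hd.1.1])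
    refine ⟨h1, fun h3 => ?_⟩
    have h4 := h2 h3
    simp only at h4
    linarith [hd.1.1]
  have hcont : ContinuousOn (fun d : Pt => ψ (s d.2 - d.1, d.2)) D := by
    intro d hd
    have h1 : ContinuousAt (fun d : Pt => ((s d.2 - d.1, d.2) : Pt)) d := by
      apply Continuous.continuousAt
      fun_prop
    exact (ContinuousAt.comp (f := fun d : Pt => ((s d.2 - d.1, d.2) : Pt)) (hD1 d hd).1
      h1).continuousWithinAt
  have hpre : IsPreconnected D :=
    (isPreconnected_Ioo).prod isPreconnected_Ioo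
  have hN : ∀ᶠ w : Pt in 𝓝 w0, w.2 ∈ Ioo (w0.2 - r) (w0.2 + r) ∧ s w.2 - ε / 2 < w.1 := by
    refine Filter.Eventually.and ?_ ?_
    · exact (continuous_snd.tendsto w0).eventually (Ioo_mem_nhds (by linarith) (by linarith))
    · have h1 : Continuous fun w : Pt => s w.2 - ε / 2 := by fun_prop
      refine (h1.tendsto w0).eventually_lt (continuous_fst.tendsto w0) ?_
      rw [h0]
      linarith
  by_cases hpos : ∀ d ∈ D, 0 ≤ ψ (s d.2 - d.1, d.2)
  · left
    filter_upwards [hN] with w hw hws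
    exact c35_side (P := fun x => 0 ≤ x) hw.1 hw.2 hws (hA w hw.1 hw.2 hws).1 isClosed_Ici hpos
  · right
    push Not at hpos
    obtain ⟨d1, hd1, hneg⟩ := hpos
    have hall : ∀ d ∈ D, ψ (s d.2 - d.1, d.2) ≤ 0 := by
      intro d hd
      by_contra hc2
      push Not at hc2
      obtain ⟨d2, hd2, h2⟩ := hpre.intermediate_value hd1 hd hcont
        (show (0 : ℝ) ∈ Icc _ _ from ⟨hneg.le, hc2.le⟩)
      exact (hD1 d2 hd2).2 h2
    filter_upwards [hN] with w hw hws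
    exact c35_side (P := fun x => x ≤ 0) hw.1 hw.2 hws (hA w hw.1 hw.2 hws).1 isClosed_Iic hall

/-- Proof. `0` is a local extremum, so `deriv φ 0 = 0` (`IsLocalMin.deriv_eq_zero`, `IsLocalMax.deriv_eq_zero`). `deriv φ` is
differentiable at `0`, so `|deriv φ t| ≤ C |t|` near `0`, and the mean value inequality on the segment gives
`|φ t| ≤ C |t|^2` (or Taylor's formula). -/
theorem order_two {φ : ℝ → ℝ} (hφ : ∀ᶠ t in 𝓝 (0 : ℝ), ContDiffAt ℝ ∞ φ t) (h0 : φ 0 = 0)
    (hs : (∀ᶠ t in 𝓝 (0 : ℝ), 0 ≤ φ t) ∨ (∀ᶠ t in 𝓝 (0 : ℝ), φ t ≤ 0)) :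
    φ =O[𝓝 0] fun t => |t| ^ 2 := by
  have hd0 : deriv φ 0 = 0 := by
    rcases hs with hs | hs
    · have h1 : IsLocalMin φ 0 := by
        filter_upwards [hs] with t ht
        rw [h0]
        exact ht
      exact h1.deriv_eq_zero
    · have h1 : IsLocalMax φ 0 := by
        filter_upwards [hs] with t ht
        rw [h0]
        exact ht
      exact h1.deriv_eq_zero
  have hφ0 : ContDiffAt ℝ ∞ φ 0 := hφ.self_of_nhds
  have h2 : ContDiffAt ℝ 1 (fderiv ℝ φ) 0 :=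
    hφ0.fderiv_right (m := 1) (WithTop.coe_le_coe.2 (le_top : (1 + 1 : ℕ∞) ≤ ⊤))
  have h3 : DifferentiableAt ℝ (deriv φ) 0 := by
    have h4 : DifferentiableAt ℝ (fun t => fderiv ℝ φ t 1) 0 :=
      (h2.differentiableAt (by norm_num)).clm_apply (differentiableAt_const _)
    exact h4
  have h5 : (fun t => deriv φ t - deriv φ 0) =O[𝓝 0] fun t => t - 0 :=
    h3.hasFDerivAt.isBigO_sub
  obtain ⟨C, hC⟩ := h5.bound
  have hdiff : ∀ᶠ t in 𝓝 (0 : ℝ), DifferentiableAt ℝ φ t := by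
    filter_upwards [hφ] with t ht
    exact ht.differentiableAt (by simp)
  obtain ⟨ε, hε, hball⟩ := Metric.eventually_nhds_iff.1 (hC.and hdiff)
  refine IsBigO.of_bound C ?_
  rw [Metric.eventually_nhds_iff]
  refine ⟨ε, hε, fun t ht => ?_⟩
  rw [Real.dist_eq, sub_zero] at ht
  have hball2 : ∀ x ∈ Metric.closedBall (0 : ℝ) |t|, DifferentiableAt ℝ φ x ∧
      ‖deriv φ x‖ ≤ C * |t| := by
    intro x hx
    rw [Metric.mem_closedBall, Real.dist_eq, sub_zero] at hx
    have h6 := hball (y := x) (by rw [Real.dist_eq, sub_zero]; linarith)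
    rw [hd0, sub_zero, sub_zero] at h6
    refine ⟨h6.2, h6.1.trans ?_⟩
    rw [Real.norm_eq_abs]
    have h7 : 0 ≤ C ∨ C < 0 := le_or_gt 0 C
    rcases h7 with h7 | h7
    · exact mul_le_mul_of_nonneg_left hx h7
    · have h8 : |x| = 0 := by
        by_contra h9
        have h10 : 0 < |x| := lt_of_le_of_ne (abs_nonneg _) (Ne.symm h9)
        have h11 := h6.1
        have h12 : 0 ≤ ‖deriv φ x‖ := norm_nonneg _
        rw [Real.norm_eq_abs x] at h11
        nlinarith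
      have h13 : |t| = 0 := by
        by_contra h9
        have h10 : 0 < |t| := lt_of_le_of_ne (abs_nonneg _) (Ne.symm h9)
        have h14 := hball (y := t) (by rw [Real.dist_eq, sub_zero]; linarith)
        rw [hd0, sub_zero, sub_zero] at h14
        have h11 := h14.1
        have h12 : 0 ≤ ‖deriv φ t‖ := norm_nonneg _
        rw [Real.norm_eq_abs t] at h11
        nlinarith
      rw [h8, h13]
  have h8 := Convex.norm_image_sub_le_of_norm_deriv_le (f := φ) (C := C * |t|)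
    (s := Metric.closedBall (0 : ℝ) |t|) (x := 0) (y := t) (fun x hx => (hball2 x hx).1)
    (fun x hx => (hball2 x hx).2) (convex_closedBall _ _)
    (by simp) (by simp)
  rw [h0, sub_zero, sub_zero] at h8
  have h9 : ‖|t| ^ 2‖ = |t| * |t| := by
    rw [Real.norm_eq_abs, abs_of_nonneg (by positivity)]
    ring
  rw [h9]
  rw [Real.norm_eq_abs t] at h8
  linarith [h8, mul_assoc C |t| |t|]

end Pool.Agent.Lib.H37N
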