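import Pool.Agent.Lib.H37N.Defs

/-! # H37N, chunk T8 (M): small perturbations are diffeomorphisms -/

open Set Filter Topology Asymptotics
open scoped ContDiff

namespace Pool.Agent.Lib.H37N

theorem Small.mono {R R' : ℕ} {ε ε' : ℝ} {ψ : Pt → Pt} (h : Small R ε ψ) (hR : R' ≤ R) (hε : ε ≤ ε') : Small R' ε' ψ :=
  ⟨h.smooth, h.supp, fun j hj z => (h.bound j (hj.trans hR) z).trans hε⟩

/-- PROOF. j = 0: `norm_iteratedFDeriv_zero`. -/
theorem Small.norm_sub_le {R : ℕ} {ε : ℝ} {ψ : Pt → Pt} (h : Small R ε ψ) (z : Pt) : ‖ψ z - z‖ ≤ ε := by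
  have h1 := h.bound 0 (Nat.zero_le _) z
  rwa [norm_iteratedFDeriv_zero] at h1

theorem t8_fderiv {R : ℕ} {ε : ℝ} {ψ : Pt → Pt} (h : Small R ε ψ) (hR : 1 ≤ R) (z : Pt) :
    ‖fderiv ℝ (fun z => ψ z - z) z‖ ≤ ε := by
  have h1 := h.bound 1 hR z
  rwa [norm_iteratedFDeriv_one] at h1

theorem t8_diff {R : ℕ} {ε : ℝ} {ψ : Pt → Pt} (h : Small R ε ψ) : Differentiable ℝ (fun z => ψ z - z) :=
  (h.smooth.differentiable (by simp)).sub differentiable_id

/-- PROOF. j = 1: ‖iteratedFDeriv 1 f z‖ = ‖fderiv f z‖ (`norm_iteratedFDeriv_one`), mean value inequality on the whole plane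
(`Convex.norm_image_sub_le_of_norm_fderiv_le`, convex_univ). -/
theorem Small.lip {R : ℕ} {ε : ℝ} {ψ : Pt → Pt} (h : Small R ε ψ) (hR : 1 ≤ R) (z w : Pt) :
    ‖(ψ z - z) - (ψ w - w)‖ ≤ ε * ‖z - w‖ := by
  exact Convex.norm_image_sub_le_of_norm_fderiv_le (𝕜 := ℝ) (f := fun z => ψ z - z) (s := univ)
    (fun x _ => (t8_diff h) x) (fun x _ => t8_fderiv h hR x) convex_univ (mem_univ w) (mem_univ z)

theorem t8_expand {ψ : Pt → Pt} (h : Small 1 (1 / 2) ψ) (z w : Pt) :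
    ‖z - w‖ ≤ 2 * ‖ψ z - ψ w‖ := by
  have h1 := h.lip le_rfl z w
  have h2 : z - w = (ψ z - ψ w) - ((ψ z - z) - (ψ w - w)) := by abel
  have h3 : ‖z - w‖ ≤ ‖ψ z - ψ w‖ + ‖(ψ z - z) - (ψ w - w)‖ := by
    conv_lhs => rw [h2]
    exact norm_sub_le _ _
  linarith

theorem t8_inj {ψ : Pt → Pt} (h : Small 1 (1 / 2) ψ) : Function.Injective ψ := by
  intro z w hzw
  have h1 := t8_expand h z w
  rw [hzw, sub_self, norm_zero, mul_zero] at h1
  have h2 : ‖z - w‖ = 0 := le_antisymm h1 (norm_nonneg _)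
  exact sub_eq_zero.mp (norm_eq_zero.mp h2)

theorem t8_surj {ψ : Pt → Pt} (h : Small 1 (1 / 2) ψ) : Function.Surjective ψ := by
  intro w
  have hc : ContractingWith (1 / 2 : NNReal) (fun z => w - (ψ z - z)) := by
    refine ⟨by norm_num, LipschitzWith.of_dist_le_mul fun x y => ?_⟩
    have h1 := h.lip le_rfl x y
    rw [dist_eq_norm, dist_eq_norm]
    have h2 : (w - (ψ x - x)) - (w - (ψ y - y)) = -((ψ x - x) - (ψ y - y)) := by abel
    rw [h2, norm_neg]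
    simpa using h1
  refine ⟨hc.fixedPoint, ?_⟩
  have h1 := hc.fixedPoint_isFixedPt
  have h2 : w - (ψ (hc.fixedPoint) - hc.fixedPoint) = hc.fixedPoint := h1
  have h3 : ψ (hc.fixedPoint) = w - (w - (ψ (hc.fixedPoint) - hc.fixedPoint)) + hc.fixedPoint := by abel
  rw [h3, h2]
  abel

/-- the inverse as a homeomorphism -/
noncomputable def t8_homeo {ψ : Pt → Pt} (h : Small 1 (1 / 2) ψ) : Pt ≃ₜ Pt where
  toEquiv := Equiv.ofBijective ψ ⟨t8_inj h, t8_surj h⟩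
  continuous_toFun := h.smooth.continuous
  continuous_invFun := by
    have hL : LipschitzWith 2 (Equiv.ofBijective ψ ⟨t8_inj h, t8_surj h⟩).symm := by
      refine LipschitzWith.of_dist_le_mul fun x y => ?_
      rw [dist_eq_norm, dist_eq_norm]
      have h1 := t8_expand h ((Equiv.ofBijective ψ ⟨t8_inj h, t8_surj h⟩).symm x)
        ((Equiv.ofBijective ψ ⟨t8_inj h, t8_surj h⟩).symm y)
      rw [Equiv.ofBijective_apply_symm_apply ψ ⟨t8_inj h, t8_surj h⟩ x,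
        Equiv.ofBijective_apply_symm_apply ψ ⟨t8_inj h, t8_surj h⟩ y] at h1
      simpa using h1
    exact hL.continuous

/-- PROOF. Injective: `Small.lip` with ε = 1/2.  Surjective: for given w the map z ↦ w - (ψ z - z) is a contraction (factor 1/2) of the complete space Pt; its fixed point is a preimage.
The inverse φ is smooth: fderiv ψ z = id + A with ‖A‖ ≤ 1/2 is invertible (injective: ‖v + A v‖ ≥ ‖v‖/2; finite dimension), `ContDiffAt.to_localInverse` or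
`OpenPartialHomeomorph.contDiffAt_symm` for the homeomorphism ψ (continuous inverse: ‖φ a - φ b‖ ≤ 2 ‖a - b‖).  φ z = z for z ∉ K0 because ψ z = z. -/
theorem Small.exists_inverse {ψ : Pt → Pt} (h : Small 1 (1 / 2) ψ) :
    ∃ φ : Pt → Pt, ContDiff ℝ ∞ φ ∧ (∀ z, φ (ψ z) = z) ∧ (∀ z, ψ (φ z) = z) ∧ ∀ z, z ∉ K0 → φ z = z := by
  have hder : ∀ z, HasFDerivAt ψ (fderiv ℝ ψ z) z := fun z =>
    ((h.smooth.differentiable (by simp)) z).hasFDerivAt
  have hA : ∀ z, ‖fderiv ℝ ψ z - ContinuousLinearMap.id ℝ Pt‖ ≤ 1 / 2 := by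
    intro z
    have h1 := t8_fderiv h le_rfl z
    have h2 : fderiv ℝ (fun z => ψ z - z) z = fderiv ℝ ψ z - ContinuousLinearMap.id ℝ Pt :=
      ((hder z).sub (hasFDerivAt_id z)).fderiv
    rwa [h2] at h1
  have hlt : ∀ z, ‖-(fderiv ℝ ψ z - ContinuousLinearMap.id ℝ Pt)‖ < 1 := by
    intro z
    rw [norm_neg]
    linarith [hA z]
  have hcoe : ∀ z, ((ContinuousLinearEquiv.ofUnit (Units.oneSub _ (hlt z)) : Pt ≃L[ℝ] Pt) : Pt →L[ℝ] Pt) =
      fderiv ℝ ψ z := by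
    intro z
    ext
    · simp [ContinuousLinearEquiv.ofUnit, Units.oneSub]
    · simp [ContinuousLinearEquiv.ofUnit, Units.oneSub]
    · simp [ContinuousLinearEquiv.ofUnit, Units.oneSub]
    · simp [ContinuousLinearEquiv.ofUnit, Units.oneSub]
  refine ⟨(t8_homeo h).symm, ?_, ?_, ?_, ?_⟩
  · refine Homeomorph.contDiff_symm (t8_homeo h)
      (f₀' := fun z => ContinuousLinearEquiv.ofUnit (Units.oneSub _ (hlt z))) ?_ h.smooth
    intro z
    rw [hcoe z]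
    exact hder z
  · intro z
    exact (t8_homeo h).symm_apply_apply z
  · intro z
    exact (t8_homeo h).apply_symm_apply z
  · intro z hz
    apply t8_inj h
    rw [h.supp z hz]
    exact (t8_homeo h).apply_symm_apply z

/-- PROOF. If ψ z ∉ K0 then ψ (ψ z) = ψ z, so ψ z = z (injectivity), z ∉ K0. -/
theorem Small.mem_K0 {ψ : Pt → Pt} (h : Small 1 (1 / 2) ψ) {z : Pt} (hz : z ∈ K0) : ψ z ∈ K0 := by
  by_contra hc
  have h1 := t8_inj h (h.supp _ hc)
  rw [h1] at hc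
  exact hc hz

/-- PROOF. fderiv ψ z = id + A, ‖A‖ ≤ 1/2 for the sup norm: A(1,0) = (a,c), A(0,1) = (b,d).  Evaluate ‖A(s,t)‖ ≤ 1/2 for the four (s,t) = (±1,±1): |a| + |b| ≤ 1/2,
|c| + |d| ≤ 1/2.  (1+a)(1+d) - c b ≥ (1-|a|)(1-|d|) - (1/2-|a|)(1/2-|d|) = 3/4 - (|a|+|d|)/2 ≥ 1/4. -/
theorem Small.det_pos {ψ : Pt → Pt} (h : Small 1 (1 / 2) ψ) (z : Pt) :
    0 < (fderiv ℝ ψ z (1, 0)).1 * (fderiv ℝ ψ z (0, 1)).2 - (fderiv ℝ ψ z (1, 0)).2 * (fderiv ℝ ψ z (0, 1)).1 := by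
  have hder : HasFDerivAt ψ (fderiv ℝ ψ z) z :=
    ((h.smooth.differentiable (by simp)) z).hasFDerivAt
  have h1 := t8_fderiv h le_rfl z
  have h2 : fderiv ℝ (fun z => ψ z - z) z = fderiv ℝ ψ z - ContinuousLinearMap.id ℝ Pt :=
    (hder.sub (hasFDerivAt_id z)).fderiv
  rw [h2] at h1
  set A := fderiv ℝ ψ z - ContinuousLinearMap.id ℝ Pt with hAdef
  have e1 : fderiv ℝ ψ z (1, 0) = A (1, 0) + (1, 0) := by simp [hAdef]
  have e2 : fderiv ℝ ψ z (0, 1) = A (0, 1) + (0, 1) := by simp [hAdef]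
  have key : ∀ s t : ℝ, |s| ≤ 1 → |t| ≤ 1 →
      |s * (A (1, 0)).1 + t * (A (0, 1)).1| ≤ 1 / 2 ∧ |s * (A (1, 0)).2 + t * (A (0, 1)).2| ≤ 1 / 2 := by
    intro s t hs ht
    have h3 : A (s, t) = s • A (1, 0) + t • A (0, 1) := by
      rw [← map_smul, ← map_smul, ← map_add]
      simp
    have h4 : ‖A (s, t)‖ ≤ 1 / 2 := by
      have h5 := A.le_opNorm (s, t)
      have h6 : ‖((s, t) : Pt)‖ ≤ 1 := by
        rw [Prod.norm_def]
        exact max_le hs ht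
      have h7 : ‖A‖ * ‖((s, t) : Pt)‖ ≤ 1 / 2 * 1 :=
        mul_le_mul h1 h6 (norm_nonneg _) (by norm_num)
      linarith
    rw [h3] at h4
    have h5 := (norm_fst_le _).trans h4
    have h6 := (norm_snd_le _).trans h4
    simp only [Prod.fst_add, Prod.smul_fst, smul_eq_mul, Prod.snd_add, Prod.smul_snd, Real.norm_eq_abs] at h5 h6
    exact ⟨h5, h6⟩
  rw [e1, e2]
  simp only [Prod.fst_add, Prod.snd_add, add_zero]
  obtain ⟨a1, a2⟩ := key 1 1 (by simp) (by simp)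
  obtain ⟨a3, a4⟩ := key 1 (-1) (by simp) (by simp)
  rw [abs_le] at a1 a2 a3 a4
  generalize (A (1, 0)).1 = a at *
  generalize (A (1, 0)).2 = c at *
  generalize (A (0, 1)).1 = b at *
  generalize (A (0, 1)).2 = d at *
  have hab : |a| + |b| ≤ 1 / 2 := by
    rcases abs_cases a with ⟨q1, _⟩ | ⟨q1, _⟩ <;> rcases abs_cases b with ⟨q2, _⟩ | ⟨q2, _⟩ <;>
      rw [q1, q2] <;> linarith [a1.1, a1.2, a3.1, a3.2]
  have hcd : |c| + |d| ≤ 1 / 2 := by
    rcases abs_cases c with ⟨q1, _⟩ | ⟨q1, _⟩ <;> rcases abs_cases d with ⟨q2, _⟩ | ⟨q2, _⟩ <;>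
      rw [q1, q2] <;> linarith [a2.1, a2.2, a4.1, a4.2]
  have hcb : c * b ≤ (1 / 2 - |d|) * (1 / 2 - |a|) := by
    have q1 : c * b ≤ |c| * |b| := by
      rw [← abs_mul]
      exact le_abs_self _
    have q2 : |c| * |b| ≤ (1 / 2 - |d|) * (1 / 2 - |a|) :=
      mul_le_mul (by linarith) (by linarith) (abs_nonneg _) (by linarith [abs_nonneg c])
    linarith
  have had : (1 - |a|) * (1 - |d|) ≤ (a + 1) * (d + 1) := by
    have q1 : 1 - |a| ≤ a + 1 := by linarith [neg_abs_le a]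
    have q2 : 1 - |d| ≤ d + 1 := by linarith [neg_abs_le d]
    exact mul_le_mul q1 q2 (by linarith [abs_nonneg c, abs_nonneg d])
      (by linarith [neg_abs_le a, abs_nonneg b])
  nlinarith [abs_nonneg a, abs_nonneg b, abs_nonneg c, abs_nonneg d]

end Pool.Agent.Lib.H37N
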