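import Pool.Agent.Lib.H37N.A92
import Pool.Agent.Lib.H37N.T3

/-!
# H37N A112 (size M): images of open sets, the cut-off function of a strip
-/

open Set Filter Topology
open scoped ContDiff

namespace Pool.Agent.Lib.H37N

variable {g : Pt → Pt}

/-- Proof: `h.smooth`. -/
theorem Near.injOn (h : Near g) : InjOn g (VV Sy.P ∪ VV Sy.Q ∪ FF) := by
  obtain ⟨O, hO, hsub, hd, hinj, hjac⟩ := h.smooth
  exact hinj.mono hsub

theorem a112_surj (A : Pt →L[ℝ] Pt)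
    (h : 0 < (A (1, 0)).1 * (A (0, 1)).2 - (A (1, 0)).2 * (A (0, 1)).1) :
    Function.Surjective A := by
  intro w
  have e : ∀ x y : ℝ, A (x, y) = x • A (1, 0) + y • A (0, 1) := by
    intro x y
    rw [← map_smul, ← map_smul, ← map_add]
    congr 1
    simp
  generalize A (1, 0) = a at *
  generalize A (0, 1) = b at *
  have hne : a.1 * b.2 - a.2 * b.1 ≠ 0 := h.ne'
  refine ⟨((w.1 * b.2 - w.2 * b.1) / (a.1 * b.2 - a.2 * b.1),
    (a.1 * w.2 - a.2 * w.1) / (a.1 * b.2 - a.2 * b.1)), ?_⟩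
  rw [e]
  ext
  · simp only [Prod.fst_add, Prod.smul_fst, smul_eq_mul]
    rw [div_mul_eq_mul_div, div_mul_eq_mul_div, ← add_div, div_eq_iff hne]
    ring
  · simp only [Prod.snd_add, Prod.smul_snd, smul_eq_mul]
    rw [div_mul_eq_mul_div, div_mul_eq_mul_div, ← add_div, div_eq_iff hne]
    ring

/-- Proof. At `z ∈ Z` the map is `C^∞` near `z` (`h.smooth`, `O` open) and its derivative is bijective (determinant
`> 0`: `A v = v.1 • A (1,0) + v.2 • A (0,1)`), so `map g (𝓝 z) = 𝓝 (g z)`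
(`HasStrictFDerivAt.map_nhds_eq_of_surj`, `ContDiffAt.hasStrictFDerivAt`), hence `g '' Z ∈ 𝓝 (g z)`. -/
theorem Near.image_open (h : Near g) {Z : Set Pt} (hZ : IsOpen Z)
    (hZO : Z ⊆ VV Sy.P ∪ VV Sy.Q ∪ FF) : IsOpen (g '' Z) := by
  obtain ⟨O, hO, hsub, hd, hinj, hjac⟩ := h.smooth
  rw [isOpen_iff_mem_nhds]
  rintro _ ⟨z, hz, rfl⟩
  have hzO : z ∈ O := hsub (hZO hz)
  have hc : ContDiffAt ℝ ∞ g z := hd.contDiffAt (hO.mem_nhds hzO)
  have hs : HasStrictFDerivAt g (fderiv ℝ g z) z := hc.hasStrictFDerivAt (by simp)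
  have hr : (fderiv ℝ g z).range = ⊤ :=
    LinearMap.range_eq_top.2 (a112_surj _ (hjac z hzO))
  rw [← hs.map_nhds_eq_of_surj hr]
  rw [mem_map]
  exact mem_of_superset (hZ.mem_nhds hz) (subset_preimage_image g Z)

/-- Proof. `h.fold0` and the formula for `Fold`: `y ∈ [-del, 1 + del]`, `dd * u0^2 = 5/32`, `cc = 1/2`: the first component is
in `[.0937, .7501]`, the second within `u0 + e0` of `yc`. -/
theorem fold_image (h : Near g) {z : Pt} (hz : z ∈ FF) :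
    (g z).1 ∈ Ioo (0 : ℝ) 1 ∧ (g z).2 ∈ Ioo (0 : ℝ) 1 := by
  obtain ⟨h1, h2⟩ := h.fold0 z hz
  obtain ⟨⟨a1, a2⟩, ⟨b1, b2⟩⟩ := hz
  rw [abs_le] at h1 h2
  simp only [Fold, xc, yc, u0, cc, dd, del, e0] at *
  have hsq : (z.1 - 8005 / 10000) ^ 2 ≤ (1 / 4000) ^ 2 := by
    apply sq_le_sq'
    · linarith
    · linarith
  have hsq0 := sq_nonneg (z.1 - 8005 / 10000)
  refine ⟨⟨?_, ?_⟩, ⟨?_, ?_⟩⟩ <;> linarith [h1.1, h1.2, h2.1, h2.2]

/-- Proof. `exists_cutoff` (T3) for the compact set `g '' Cw g w` (`Cw_compact`, `g` continuous on `FF`) in the open set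
`g '' Zs g w` (`Near.image_open`, `Zs_open`, `Zs_sub_FF`, `Cw_sub`). -/
theorem strip_cutoff (h : Near g) (w : List Sy) : ∃ χ : Pt → ℝ, ContDiff ℝ ∞ χ ∧ HasCompactSupport χ ∧
    tsupport χ ⊆ g '' Zs g w ∧ (∀ x, χ x ∈ Icc (0 : ℝ) 1) ∧ ∀ z ∈ Cw g w, χ (g z) = 1 := by
  obtain ⟨O, hO, hsub, hd, hinj, hjac⟩ := h.smooth
  have hZF : Zs g w ⊆ VV Sy.P ∪ VV Sy.Q ∪ FF :=
    (Zs_sub_FF h w).trans (interior_subset.trans subset_union_right)
  have hcont : ContinuousOn g (Cw g w) :=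
    hd.continuousOn.mono ((Cw_sub h w).trans (hZF.trans hsub))
  obtain ⟨χ, c1, c2, c3, c4, c5⟩ := exists_cutoff (E := Pt)
    ((Cw_compact h w).image_of_continuousOn hcont) (h.image_open (Zs_open h w) hZF)
    (image_mono (Cw_sub h w))
  exact ⟨χ, c1, c2, c3, c4, fun z hz => c5.self_of_nhdsSet _ (mem_image_of_mem g hz)⟩

end Pool.Agent.Lib.H37N
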