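import Pool.Agent.Lib.H37N.B17

/-! # H37N, chunk B18b (M): the transition map near the connection -/

open Set Filter Topology
open scoped ContDiff

namespace Pool.Agent.Lib.H37N

variable {g κP cP κQ cQ : Pt → Pt} {lamP muP lamQ muQ : ℝ} {kS : ℕ} {uS sS : ℝ}

/-- the shift along the unstable axis -/
def b18b_tau (uS : ℝ) (v : Pt) : Pt := (v.1, uS + v.2)

theorem b18b_tau_contDiff (uS : ℝ) : ContDiff ℝ ∞ (b18b_tau uS) :=
  contDiff_fst.prodMk (contDiff_const.add contDiff_snd)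

theorem b18b_tau_zero (uS : ℝ) : b18b_tau uS 0 = (0, uS) := by
  simp [b18b_tau]

theorem b18b_tau_hasFDerivAt (uS : ℝ) (v : Pt) :
    HasFDerivAt (b18b_tau uS) (ContinuousLinearMap.id ℝ Pt) v := by
  have h : b18b_tau uS = fun v : Pt => v + (0, uS) := by
    funext v
    ext
    · simp [b18b_tau]
    · simp [b18b_tau, add_comm]
  rw [h]
  exact (hasFDerivAt_id v).add_const (0, uS)

theorem b18b_tau_fderiv (uS : ℝ) (v : Pt) :
    fderiv ℝ (b18b_tau uS) v = ContinuousLinearMap.id ℝ Pt :=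
  (b18b_tau_hasFDerivAt uS v).fderiv

theorem b18b_tau_jac (uS : ℝ) (v : Pt) : jac (b18b_tau uS) v = 1 := by
  unfold jac
  rw [b18b_tau_fderiv]
  simp

/-- PROOF. The map v ↦ κP (v.1, uS + v.2) is smooth, at v = 0 it is κP (0,uS).  `Near.iter` with n = kS + 1 (pull back the eventual statement). -/
theorem b18_path (hg : Near g) (hP : LinChart g Sy.P κP cP lamP muP)
    (hpath : ∀ j ≤ kS, g^[j] (κP (0, uS)) ∈ VO) :
    ∀ᶠ v in 𝓝 (0 : Pt), (∀ j ≤ kS, g^[j] (κP (v.1, uS + v.2)) ∈ VO) ∧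
      ContDiffAt ℝ ∞ (fun v : Pt => g^[kS] (κP (v.1, uS + v.2))) v := by
  have hsm : ContDiff ℝ ∞ (fun v : Pt => κP (b18b_tau uS v)) :=
    hP.smooth.comp (b18b_tau_contDiff uS)
  have hc : Tendsto (fun v : Pt => κP (b18b_tau uS v)) (𝓝 0) (𝓝 (κP (0, uS))) := by
    have := hsm.continuous.continuousAt (x := (0 : Pt))
    have h2 : Tendsto (fun v : Pt => κP (b18b_tau uS v)) (𝓝 0) (𝓝 (κP (b18b_tau uS 0))) := this
    rwa [b18b_tau_zero] at h2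
  have h1 := Near.iter hg (kS + 1) (z := κP (0, uS)) (fun j hj => hpath j (Nat.lt_succ_iff.mp hj))
  have h2 := Near.iter hg kS (z := κP (0, uS)) (fun j hj => hpath j hj.le)
  filter_upwards [hc.eventually h1, hc.eventually h2] with v hv1 hv2
  refine ⟨fun j hj => hv1.2 j (Nat.lt_succ_iff.mpr hj), ?_⟩
  exact ContDiffAt.comp v (g := g^[kS]) (f := fun v : Pt => κP (b18b_tau uS v)) hv2.1 hsm.contDiffAt

/-- PROOF. cQ is smooth. -/
theorem b18_smooth (hg : Near g) (hP : LinChart g Sy.P κP cP lamP muP) (hQ : LinChart g Sy.Q κQ cQ lamQ muQ)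
    (hpath : ∀ j ≤ kS, g^[j] (κP (0, uS)) ∈ VO) :
    ∀ᶠ v in 𝓝 (0 : Pt), ContDiffAt ℝ ∞ (SM g κP cQ kS uS) v := by
  filter_upwards [b18_path hg hP hpath] with v hv
  exact ContDiffAt.comp v (g := cQ) (f := fun v : Pt => g^[kS] (κP (v.1, uS + v.2)))
    hQ.smooth_c.contDiffAt hv.2

theorem b18b_mem_Bx (hs : |sS| < 1) : ((sS, 0) : Pt) ∈ Bx := by
  rw [abs_lt] at hs
  refine ⟨⟨?_, ?_⟩, ⟨?_, ?_⟩⟩ <;> simp <;> linarith [hs.1, hs.2]

theorem b18b_mem_Bx' (hs : |uS| < 1) : ((0, uS) : Pt) ∈ Bx := by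
  rw [abs_lt] at hs
  refine ⟨⟨?_, ?_⟩, ⟨?_, ?_⟩⟩ <;> simp <;> linarith [hs.1, hs.2]

/-- PROOF. `LinChart.left` at (sS,0) ∈ Bx. -/
theorem b18_zero (hQ : LinChart g Sy.Q κQ cQ lamQ muQ) (hs : |sS| < 1)
    (hit : g^[kS] (κP (0, uS)) = κQ (sS, 0)) : SM g κP cQ kS uS 0 = (sS, 0) := by
  have h0 : SM g κP cQ kS uS 0 = cQ (g^[kS] (κP (0, uS))) := by
    simp [SM]
  rw [h0, hit]
  exact hQ.left _ (b18b_mem_Bx hs)

/-- PROOF. v ↦ g^[kS] (κP (v.1, uS+v.2)) is continuous at 0 with value κQ (sS,0) in the open set κQ '' Bx; `LinChart.right`. -/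
theorem b18_back (hg : Near g) (hP : LinChart g Sy.P κP cP lamP muP) (hQ : LinChart g Sy.Q κQ cQ lamQ muQ)
    (hs : |sS| < 1) (hpath : ∀ j ≤ kS, g^[j] (κP (0, uS)) ∈ VO) (hit : g^[kS] (κP (0, uS)) = κQ (sS, 0)) :
    ∀ᶠ v in 𝓝 (0 : Pt), SM g κP cQ kS uS v ∈ Bx ∧
      κQ (SM g κP cQ kS uS v) = g^[kS] (κP (v.1, uS + v.2)) := by
  have hc := (b18_path hg hP hpath).self_of_nhds.2.continuousAt
  have hmem : (fun v : Pt => g^[kS] (κP (v.1, uS + v.2))) 0 ∈ κQ '' Bx := by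
    have h0 : (fun v : Pt => g^[kS] (κP (v.1, uS + v.2))) 0 = g^[kS] (κP (0, uS)) := by simp
    rw [h0, hit]
    exact mem_image_of_mem _ (b18b_mem_Bx hs)
  have hev := hc.preimage_mem_nhds (hQ.isOpen.mem_nhds hmem)
  filter_upwards [hev] with v hv
  obtain ⟨h1, h2⟩ := hQ.right hv
  exact ⟨h2, h1⟩

/-- the two factorisations of the transition -/
theorem b18b_germ (hg : Near g) (hP : LinChart g Sy.P κP cP lamP muP) (hQ : LinChart g Sy.Q κQ cQ lamQ muQ)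
    (hs : |sS| < 1) (hpath : ∀ j ≤ kS, g^[j] (κP (0, uS)) ∈ VO) (hit : g^[kS] (κP (0, uS)) = κQ (sS, 0)) :
    κQ ∘ SM g κP cQ kS uS =ᶠ[𝓝 (0 : Pt)] g^[kS] ∘ (κP ∘ b18b_tau uS) := by
  filter_upwards [b18_back hg hP hQ hs hpath hit] with v hv
  exact hv.2

theorem b18b_iter_diff (hg : Near g) (hpath : ∀ j ≤ kS, g^[j] (κP (0, uS)) ∈ VO) :
    DifferentiableAt ℝ (g^[kS]) (κP (0, uS)) :=
  ((Near.iter hg kS (z := κP (0, uS)) (fun j hj => hpath j hj.le)).self_of_nhds.1).differentiableAt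
    (by simp)

theorem b18b_SM_diff (hg : Near g) (hP : LinChart g Sy.P κP cP lamP muP) (hQ : LinChart g Sy.Q κQ cQ lamQ muQ)
    (hpath : ∀ j ≤ kS, g^[j] (κP (0, uS)) ∈ VO) :
    DifferentiableAt ℝ (SM g κP cQ kS uS) 0 :=
  ((b18_smooth hg hP hQ hpath).self_of_nhds).differentiableAt (by simp)

/-- PROOF. Near 0: κQ ∘ SM = g^[kS] ∘ κP ∘ τ, τ v = (v.1, uS + v.2) = v + (0,uS) (`b18_back`); `jac_comp`, `jac_congr`: jac κQ (sS,0) * jac SM 0 = jac (g^[kS]) (κP (0,uS)) * jac κP (0,uS) * 1 > 0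
(`Near.jac_iter_pos`, `LinChart.jac_pos`, |uS| < 2), and jac κQ (sS,0) > 0. -/
theorem b18_jac (hg : Near g) (hP : LinChart g Sy.P κP cP lamP muP) (hQ : LinChart g Sy.Q κQ cQ lamQ muQ)
    (hu : |uS| < 1) (hs : |sS| < 1) (hpath : ∀ j ≤ kS, g^[j] (κP (0, uS)) ∈ VO)
    (hit : g^[kS] (κP (0, uS)) = κQ (sS, 0)) : 0 < jac (SM g κP cQ kS uS) 0 := by
  have hgerm := b18b_germ hg hP hQ hs hpath hit
  have hSM0 := b18_zero (κP := κP) hQ hs hit
  have e1 : jac (κQ ∘ SM g κP cQ kS uS) 0 = jac κQ (sS, 0) * jac (SM g κP cQ kS uS) 0 := by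
    rw [jac_comp (hQ.smooth.differentiable (by simp)).differentiableAt (b18b_SM_diff hg hP hQ hpath), hSM0]
  have e2 : jac (g^[kS] ∘ (κP ∘ b18b_tau uS)) 0 = jac (g^[kS]) (κP (0, uS)) * jac κP (0, uS) := by
    have hd : DifferentiableAt ℝ (g^[kS]) ((κP ∘ b18b_tau uS) 0) := by
      have : (κP ∘ b18b_tau uS) 0 = κP (0, uS) := by
        simp [b18b_tau_zero]
      rw [this]
      exact b18b_iter_diff hg hpath
    have hd2 : DifferentiableAt ℝ κP (b18b_tau uS 0) := (hP.smooth.differentiable (by simp)).differentiableAt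
    have hd3 : DifferentiableAt ℝ (b18b_tau uS) 0 := (b18b_tau_hasFDerivAt uS 0).differentiableAt
    rw [jac_comp hd (hd2.comp 0 hd3), jac_comp hd2 hd3, b18b_tau_jac, mul_one]
    simp only [Function.comp_apply, b18b_tau_zero]
  have e3 : jac κQ (sS, 0) * jac (SM g κP cQ kS uS) 0 = jac (g^[kS]) (κP (0, uS)) * jac κP (0, uS) := by
    rw [← e1, ← e2]
    exact jac_congr hgerm
  have p1 : 0 < jac (g^[kS]) (κP (0, uS)) := Near.jac_iter_pos hg kS (fun j hj => hpath j hj.le)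
  have p2 : 0 < jac κP (0, uS) := hP.jac_pos _ (b18b_mem_Bx' hu)
  have p3 : 0 < jac κQ (sS, 0) := hQ.jac_pos _ (b18b_mem_Bx hs)
  have p4 : 0 < jac κQ (sS, 0) * jac (SM g κP cQ kS uS) 0 := by
    rw [e3]; exact mul_pos p1 p2
  exact (mul_pos_iff_of_pos_left p3).mp p4

/-- PROOF. Suppose it is 0 and put a = (fderiv SM 0 (0,1)).1.  κQ ∘ SM = g^[kS] ∘ κP ∘ τ near 0, so fderiv κQ (sS,0) (a,0) = fderiv (g^[kS]) (κP (0,uS)) (fderiv κP (0,uS) (0,1)) =: w.  By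
`LinChart.cone` and `cone_iter` |w.2| ≤ |w.1|/2 and |w.1| > 0.  `LinChart.stable_not_cone` for κQ gives a = 0, so w = 0, contradiction. -/
theorem b18_d_ne (hg : Near g) (hP : LinChart g Sy.P κP cP lamP muP) (hQ : LinChart g Sy.Q κQ cQ lamQ muQ)
    (hu : |uS| < 1) (hs : |sS| < 1) (hpath : ∀ j ≤ kS, g^[j] (κP (0, uS)) ∈ VO)
    (hit : g^[kS] (κP (0, uS)) = κQ (sS, 0)) : (fderiv ℝ (SM g κP cQ kS uS) 0 (0, 1)).2 ≠ 0 := by
  intro h0
  have hgerm := b18b_germ hg hP hQ hs hpath hit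
  have hSM0 := b18_zero (κP := κP) hQ hs hit
  have e1 : fderiv ℝ (κQ ∘ SM g κP cQ kS uS) 0 (0, 1) =
      fderiv ℝ κQ (sS, 0) (fderiv ℝ (SM g κP cQ kS uS) 0 (0, 1)) := by
    rw [fderiv_comp (0 : Pt) (hQ.smooth.differentiable (by simp)).differentiableAt
      (b18b_SM_diff hg hP hQ hpath), hSM0]
    rfl
  have e2 : fderiv ℝ (g^[kS] ∘ (κP ∘ b18b_tau uS)) 0 (0, 1) =
      fderiv ℝ (g^[kS]) (κP (0, uS)) (fderiv ℝ κP (0, uS) (0, 1)) := by
    have hd : DifferentiableAt ℝ (g^[kS]) ((κP ∘ b18b_tau uS) 0) := by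
      have : (κP ∘ b18b_tau uS) 0 = κP (0, uS) := by
        simp [b18b_tau_zero]
      rw [this]
      exact b18b_iter_diff hg hpath
    have hd2 : DifferentiableAt ℝ κP (b18b_tau uS 0) := (hP.smooth.differentiable (by simp)).differentiableAt
    have hd3 : DifferentiableAt ℝ (b18b_tau uS) 0 := (b18b_tau_hasFDerivAt uS 0).differentiableAt
    rw [fderiv_comp (0 : Pt) hd (hd2.comp 0 hd3), fderiv_comp (0 : Pt) hd2 hd3, b18b_tau_fderiv]
    simp only [Function.comp_apply, b18b_tau_zero]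
    rfl
  have e3 : fderiv ℝ κQ (sS, 0) (fderiv ℝ (SM g κP cQ kS uS) 0 (0, 1)) =
      fderiv ℝ (g^[kS]) (κP (0, uS)) (fderiv ℝ κP (0, uS) (0, 1)) := by
    rw [← e1, ← e2, hgerm.fderiv_eq]
  obtain ⟨c1, c2⟩ := hP.cone hg (y := uS) (by linarith)
  obtain ⟨d1, d2⟩ := cone_iter hg kS (z := κP (0, uS)) (fun j hj => hpath j hj.le) c1
  have ha : fderiv ℝ (SM g κP cQ kS uS) 0 (0, 1) = ((fderiv ℝ (SM g κP cQ kS uS) 0 (0, 1)).1, 0) :=
    Prod.ext rfl h0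
  rw [ha] at e3
  have hz := hQ.stable_not_cone hg (x := sS) (a := (fderiv ℝ (SM g κP cQ kS uS) 0 (0, 1)).1)
    (by linarith) (by rw [e3]; exact d1)
  rw [hz] at e3
  have hz2 : fderiv ℝ κQ (sS, 0) ((0, 0) : Pt) = 0 := by
    have : ((0, 0) : Pt) = 0 := rfl
    rw [this, map_zero]
  rw [hz2] at e3
  rw [← e3] at d2
  have hpos : 0 < (6 / 5 : ℝ) ^ kS * |(fderiv ℝ κP (0, uS) (0, 1)).1| := by positivity
  simp at d2
  linarith

end Pool.Agent.Lib.H37N
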