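import Pool.Agent.Lib.H37N.B18a
import Pool.Agent.Lib.H37N.B18b

/-! # H37N, chunk B18c (S/M): SDATA -/

open Set Filter Topology
open scoped ContDiff

namespace Pool.Agent.Lib.H37N

/-- SDATA from the facts of B18b, if the unstable derivative is positive -/
theorem b18c_of_pos {g κP cP κQ cQ : Pt → Pt} {lamP muP lamQ muQ : ℝ} {kS : ℕ} {uS sS : ℝ} (hg : Near g)
    (hP : LinChart g Sy.P κP cP lamP muP) (hQ : LinChart g Sy.Q κQ cQ lamQ muQ)
    (h1 : 1 ≤ kS) (hune : uS ≠ 0) (hu : |uS| < 1) (hs : |sS| < 1)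
    (hpath : ∀ j ≤ kS, g^[j] (κP (0, uS)) ∈ VO) (hit : g^[kS] (κP (0, uS)) = κQ (sS, 0))
    (hd : 0 < (fderiv ℝ (SM g κP cQ kS uS) 0 (0, 1)).2) : SData g κP κQ cQ kS uS sS where
  pos := h1
  u_ne := hune
  u_lt := hu
  s_lt := hs
  path := (b18_path hg hP hpath).mono fun _ hv => hv.1
  hit := hit
  smooth := b18_smooth hg hP hQ hpath
  S0 := b18_zero hQ hs hit
  back := b18_back hg hP hQ hs hpath hit
  jac_pos := b18_jac hg hP hQ hu hs hpath hit
  d_pos := hd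

/-- B.3.

PROOF. `sdata_core` and the lemmas of B18b give everything for (κQ, cQ), with d = (fderiv SM 0 (0,1)).2 ≠ 0.  If d > 0 take κQ, cQ.  If d < 0 take κQ' v = κQ (-v), cQ' w = - cQ w (`LinChart.neg`) and -sS:
SM g κP cQ' = - SM g κP cQ, so fderiv is the negative (`fderiv_neg`), the Jacobian is the same, (sS,0) is replaced by (-sS,0), κQ' (-sS,0) = κQ (sS,0). -/
theorem exists_sdata {g κP cP κQ cQ : Pt → Pt} {lamP muP lamQ muQ : ℝ} (hg : Near g)
    (hP : LinChart g Sy.P κP cP lamP muP) (hQ : LinChart g Sy.Q κQ cQ lamQ muQ) :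
    ∃ (κQ' cQ' : Pt → Pt) (kS : ℕ) (uS sS : ℝ), LinChart g Sy.Q κQ' cQ' lamQ muQ ∧
      SData g κP κQ' cQ' kS uS sS := by
  obtain ⟨kS, uS, sS, h1, hune, hu, hs, hpath, hit⟩ := sdata_core hg hP hQ
  have hd := b18_d_ne hg hP hQ hu hs hpath hit
  rcases lt_or_gt_of_ne hd with hneg | hpos
  · have hs' : |(-sS)| < 1 := by rwa [abs_neg]
    have hit' : g^[kS] (κP (0, uS)) = (fun v => κQ (-v)) ((-sS, 0) : Pt) := by
      rw [hit]
      simp
    refine ⟨fun v => κQ (-v), fun w => -cQ w, kS, uS, -sS, hQ.neg, ?_⟩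
    refine b18c_of_pos hg hP hQ.neg h1 hune hu hs' hpath hit' ?_
    have hSM : SM g κP (fun w => -cQ w) kS uS = fun v => -SM g κP cQ kS uS v := rfl
    rw [hSM, fderiv_fun_neg]
    simpa using hneg
  · exact ⟨κQ, cQ, kS, uS, sS, hQ, b18c_of_pos hg hP hQ h1 hune hu hs hpath hit hpos⟩

end Pool.Agent.Lib.H37N
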