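import Pool.Agent.Lib.H37N.B11
import Pool.Agent.Lib.H37N.B18c

/-! # H37N, chunk B19 (S): section B, main theorem, and independence of the values off VO -/

open Set Filter Topology
open scoped ContDiff

namespace Pool.Agent.Lib.H37N

/-- PROOF. `LIN` and `exists_sdata`. -/
theorem sectionB {R : ℕ} {U : Set (Pt → Pt)} (hU : PertOpen R U) (hN : ∀ g ∈ U, Near g) {g : Pt → Pt} (hg : g ∈ U) :
    ∃ g' ∈ U, ∃ F : Fr, IsFr g' F := by
  obtain ⟨g', hg', κ, c, lam, mu, hch, hirr⟩ := LIN hU hN hg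
  obtain ⟨κQ', cQ', kS, uS, sS, hQ', hsd⟩ := exists_sdata (hN g' hg') (hch Sy.P) (hch Sy.Q)
  refine ⟨g', hg', ⟨fun i => Sy.casesOn i (κ Sy.P) κQ', fun i => Sy.casesOn i (c Sy.P) cQ',
    lam, mu, kS, uS, sS⟩, ⟨?_, hirr, hsd⟩⟩
  intro i
  cases i
  · exact hch Sy.P
  · exact hQ'

/-- PROOF. If g^[j] z ∈ VO for j < n then g'^[j] z = g^[j] z for j ≤ n (induction, `Function.iterate_succ_apply'`). -/
theorem iterate_eq_of_VO {g g' : Pt → Pt} (h : ∀ z ∈ VO, g' z = g z) {n : ℕ} {z : Pt}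
    (hz : ∀ j < n, g^[j] z ∈ VO) : ∀ j ≤ n, g'^[j] z = g^[j] z := by
  intro j
  induction j with
  | zero => intro _; rfl
  | succ j ih =>
    intro hj
    rw [Function.iterate_succ_apply', Function.iterate_succ_apply', ih (by omega)]
    exact h _ (hz j (by omega))

/-- PROOF. By `iterate_eq_of_VO` for v near 0 (field path) g'^[j] (κP (v.1, uS+v.2)) = g^[j] (..) for j ≤ kS; so SM g' = SM g near 0 (and at 0), the same derivative. -/
theorem SData.congr {g g' κP κQ cQ : Pt → Pt} {kS : ℕ} {uS sS : ℝ} (h : SData g κP κQ cQ kS uS sS)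
    (hg : ∀ z ∈ VO, g' z = g z) : SData g' κP κQ cQ kS uS sS := by
  have key : ∀ᶠ v in 𝓝 (0 : Pt), ∀ j ≤ kS,
      g'^[j] (κP (v.1, uS + v.2)) = g^[j] (κP (v.1, uS + v.2)) := by
    filter_upwards [h.path] with v hv
    exact iterate_eq_of_VO hg (n := kS) (fun j hj => hv j hj.le)
  have hSM : SM g' κP cQ kS uS =ᶠ[𝓝 (0 : Pt)] SM g κP cQ kS uS := by
    filter_upwards [key] with v hv
    unfold SM
    rw [hv kS le_rfl]
  have hfd : fderiv ℝ (SM g' κP cQ kS uS) 0 = fderiv ℝ (SM g κP cQ kS uS) 0 := hSM.fderiv_eq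
  refine ⟨h.pos, h.u_ne, h.u_lt, h.s_lt, ?_, ?_, ?_, ?_, ?_, ?_, ?_⟩
  · filter_upwards [h.path, key] with v hv hk j hj
    rw [hk j hj]
    exact hv j hj
  · have h1 := key.self_of_nhds kS le_rfl
    simp only [Prod.fst_zero, Prod.snd_zero, add_zero] at h1
    rw [h1]
    exact h.hit
  · filter_upwards [h.smooth, hSM.eventually_nhds] with v h1 h2
    exact h1.congr_of_eventuallyEq h2
  · rw [hSM.self_of_nhds]
    exact h.S0
  · filter_upwards [h.back, hSM, key] with v h1 h2 h3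
    rw [h2, h3 kS le_rfl]
    exact h1
  · have := h.jac_pos
    unfold jac at this ⊢
    rw [hfd]
    exact this
  · rw [hfd]
    exact h.d_pos

theorem IsFr.congr {g g' : Pt → Pt} {F : Fr} (h : IsFr g F) (hg : ∀ z ∈ VO, g' z = g z) : IsFr g' F := by
  refine ⟨fun i => ?_, h.irr, h.sdata.congr hg⟩
  have hc := h.chart i
  refine { hc with lin := ?_ }
  intro x y hx hy
  have hmu : 1 < F.mu i := by
    have := hc.mu_mem
    cases i
    · exact lt_trans (by norm_num) this.1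
    · exact lt_trans (by norm_num) this.1
  have hy' : |y| < 2 := by
    rw [abs_mul, abs_of_pos (by linarith)] at hy
    nlinarith [abs_nonneg y]
  have hB : ((x, y) : Pt) ∈ Bx := ⟨abs_lt.1 hx, abs_lt.1 hy'⟩
  have hV : F.κ i (x, y) ∈ interior (VV i) := hc.sub ⟨_, hB, rfl⟩
  have hVO : F.κ i (x, y) ∈ VO := by
    cases i
    · exact Or.inl hV
    · exact Or.inr hV
  rw [hg _ hVO]
  exact hc.lin x y hx hy

end Pool.Agent.Lib.H37N
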