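import Pool.Agent.Lib.H37N.T10a

/-! # H37N, chunk T10b (S/M): implicit functions with parameters -/

open Set Filter Topology Asymptotics
open scoped ContDiff

namespace Pool.Agent.Lib.H37N

variable {P E Z : Type} [NormedAddCommGroup P] [NormedSpace ℝ P] [FiniteDimensional ℝ P]
  [NormedAddCommGroup E] [NormedSpace ℝ E] [FiniteDimensional ℝ E]
  [NormedAddCommGroup Z] [NormedSpace ℝ Z] [FiniteDimensional ℝ Z]

/-- T10, implicit function theorem with parameters: the solution x = ξ(p,z) of F(p,x) = z.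

PROOF. `inverse_fun` for f : P × E → P × Z, (p,x) ↦ (p, F(p,x)) at (p₀,x₀): smooth near, derivative (u,v) ↦ (u, DF(u,v)), bijective because v ↦ DF(0,v) is (= fderiv of x ↦ F(p₀,x),
chain rule).  Let g be the inverse; near (p₀,z₀): f(g(r)) = r, so (g r).1 = r.1.  ξ(r) := (g r).2. -/
theorem implicit_param {F : P × E → Z} {p₀ : P} {x₀ : E} (hF : ∀ᶠ q in 𝓝 (p₀, x₀), ContDiffAt ℝ ∞ F q)
    (hb : Function.Bijective (fderiv ℝ (fun x => F (p₀, x)) x₀)) :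
    ∃ ξ : P × Z → E, ContDiff ℝ ∞ ξ ∧ ξ (p₀, F (p₀, x₀)) = x₀ ∧ (∀ᶠ q in 𝓝 (p₀, x₀), ξ (q.1, F q) = q.2) ∧
      ∀ᶠ r in 𝓝 (p₀, F (p₀, x₀)), F (r.1, ξ r) = r.2 := by
  set f : P × E → P × Z := fun q => (q.1, F q) with hfdef
  have hf : ∀ᶠ q in 𝓝 (p₀, x₀), ContDiffAt ℝ ∞ f q := by
    filter_upwards [hF] with q hq
    exact contDiffAt_fst.prodMk hq
  have hF0 : ContDiffAt ℝ ∞ F (p₀, x₀) := hF.self_of_nhds
  have h1 : HasFDerivAt F (fderiv ℝ F (p₀, x₀)) (p₀, x₀) :=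
    (hF0.differentiableAt (by simp)).hasFDerivAt
  have h2 : fderiv ℝ f (p₀, x₀) = (ContinuousLinearMap.fst ℝ P E).prod (fderiv ℝ F (p₀, x₀)) :=
    (hasFDerivAt_fst.prodMk h1).fderiv
  have h3 : fderiv ℝ (fun x => F (p₀, x)) x₀ =
      (fderiv ℝ F (p₀, x₀)).comp (ContinuousLinearMap.inr ℝ P E) := by
    have h4 : HasFDerivAt (fun x : E => (p₀, x)) (ContinuousLinearMap.inr ℝ P E) x₀ :=
      hasFDerivAt_prodMk_right p₀ x₀
    exact (h1.comp x₀ h4).fderiv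
  have hbij : Function.Bijective (fderiv ℝ f (p₀, x₀)) := by
    rw [h2]
    rw [h3] at hb
    have hsplit : ∀ (u : P) (v : E), fderiv ℝ F (p₀, x₀) (u, v) =
        fderiv ℝ F (p₀, x₀) (u, 0) + fderiv ℝ F (p₀, x₀) (0, v) := by
      intro u v
      have h8 : ((u, v) : P × E) = (u, 0) + (0, v) := by simp
      rw [h8, map_add]
    constructor
    · rintro ⟨u, v⟩ ⟨u', v'⟩ h
      have h5 : u = u' := congrArg Prod.fst h
      subst h5
      have h6 : fderiv ℝ F (p₀, x₀) (u, v) = fderiv ℝ F (p₀, x₀) (u, v') := congrArg Prod.snd h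
      rw [hsplit, hsplit u v'] at h6
      have h7 : fderiv ℝ F (p₀, x₀) (0, v) = fderiv ℝ F (p₀, x₀) (0, v') := add_left_cancel h6
      have h8 : v = v' := hb.1 h7
      rw [h8]
    · rintro ⟨u, w⟩
      obtain ⟨v, hv⟩ := hb.2 (w - fderiv ℝ F (p₀, x₀) (u, 0))
      have h6 : fderiv ℝ F (p₀, x₀) (0, v) = w - fderiv ℝ F (p₀, x₀) (u, 0) := hv
      refine ⟨(u, v), Prod.ext rfl ?_⟩
      show fderiv ℝ F (p₀, x₀) (u, v) = w
      rw [hsplit, h6]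
      abel
  obtain ⟨g, hg, hg0, hg1, hg2⟩ := inverse_fun hf hbij
  refine ⟨fun r => (g r).2, contDiff_snd.comp hg, ?_, ?_, ?_⟩
  · show (g (f (p₀, x₀))).2 = x₀
    rw [hg0]
  · filter_upwards [hg1] with q hq
    show (g (f q)).2 = q.2
    rw [hq]
  · have h9 : f (p₀, x₀) = (p₀, F (p₀, x₀)) := rfl
    rw [h9] at hg2
    filter_upwards [hg2] with r hr
    have h10 : (g r).1 = r.1 := congrArg Prod.fst hr
    have h11 : F (g r) = r.2 := congrArg Prod.snd hr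
    show F (r.1, (g r).2) = r.2
    rw [← h10]
    exact h11

/-- T10, scalar form.

PROOF. `implicit_param` with E = Z = ℝ: fderiv (fun t => F(p₀,t)) t₀ = (deriv ..) • id is bijective. -/
theorem inverse_param {F : P × ℝ → ℝ} {p₀ : P} {t₀ : ℝ} (hF : ∀ᶠ q in 𝓝 (p₀, t₀), ContDiffAt ℝ ∞ F q)
    (hd : deriv (fun t => F (p₀, t)) t₀ ≠ 0) :
    ∃ θ : P × ℝ → ℝ, ContDiff ℝ ∞ θ ∧ θ (p₀, F (p₀, t₀)) = t₀ ∧ (∀ᶠ q in 𝓝 (p₀, t₀), θ (q.1, F q) = q.2) ∧
      ∀ᶠ r in 𝓝 (p₀, F (p₀, t₀)), F (r.1, θ r) = r.2 := by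
  refine implicit_param hF ?_
  set φ : ℝ → ℝ := fun t => F (p₀, t) with hφ
  have h1 : ∀ v : ℝ, fderiv ℝ φ t₀ v = v * deriv φ t₀ := by
    intro v
    have h2 : v = v • (1 : ℝ) := by simp
    rw [h2, map_smul, fderiv_apply_one_eq_deriv]
    simp
  constructor
  · intro a b hab
    rw [h1, h1] at hab
    exact mul_right_cancel₀ hd hab
  · intro w
    refine ⟨w / deriv φ t₀, ?_⟩
    rw [h1, div_mul_cancel₀ _ hd]

end Pool.Agent.Lib.H37N
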