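import Pool.Agent.Lib.H37N.T1

/-! # H37N, chunk T2 (S/M): Hadamard lemma with parameters -/

open Set Filter Topology Asymptotics
open scoped ContDiff

namespace Pool.Agent.Lib.H37N

variable {P E W : Type} [NormedAddCommGroup P] [NormedSpace ℝ P] [FiniteDimensional ℝ P]
  [NormedAddCommGroup E] [NormedSpace ℝ E] [FiniteDimensional ℝ E]
  [NormedAddCommGroup W] [NormedSpace ℝ W] [CompleteSpace W]

/-- T2.  F(p,v) = F(p,0) + G(p,v) v.

PROOF. G(p,v) := ∫_0^1 (fderiv ℝ F (p, u • v)).comp (inr ℝ P E) du.  Smooth by `par_scale` applied to the smooth function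
(p,v) ↦ (fderiv ℝ F (p,v)).comp inr (`ContDiff.fderiv_right`, `ContDiff.clm_comp`; the space E →L[ℝ] W is complete).
G(p,v) v = ∫_0^1 (fderiv ℝ F (p, u • v)) (0,v) du = F(p,v) - F(p,0): `ContinuousLinearMap.intervalIntegral_apply` and
`intervalIntegral.integral_eq_sub_of_hasDerivAt` for u ↦ F (p, u • v) (chain rule).  G(p,0) = fderiv of v ↦ F(p,v) at 0:
the integrand is constant (u • 0 = 0); chain rule with `hasFDerivAt_prodMk_right`. -/
theorem hadamard {F : P × E → W} (hF : ContDiff ℝ ∞ F) :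
    ∃ G : P × E → (E →L[ℝ] W), ContDiff ℝ ∞ G ∧ (∀ p v, F (p, v) = F (p, 0) + G (p, v) v) ∧
      ∀ p, G (p, 0) = fderiv ℝ (fun v => F (p, v)) 0 := by
  have hD : ContDiff ℝ ∞ (fun q : P × E => (fderiv ℝ F q).comp (ContinuousLinearMap.inr ℝ P E)) := by
    have h1 : ContDiff ℝ ∞ (fderiv ℝ F) := hF.fderiv_right (by simp)
    exact h1.clm_comp contDiff_const
  have hdiff : ∀ q : P × E, HasFDerivAt F (fderiv ℝ F q) q := fun q =>
    (hF.differentiable (by simp) q).hasFDerivAt
  refine ⟨fun q => ∫ u in (0 : ℝ)..1, (fderiv ℝ F (q.1, u • q.2)).comp (ContinuousLinearMap.inr ℝ P E),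
    par_scale (F := fun q : P × E => (fderiv ℝ F q).comp (ContinuousLinearMap.inr ℝ P E)) hD, ?_, ?_⟩
  · intro p v
    have hcont : Continuous (fun u : ℝ => (fderiv ℝ F (p, u • v)).comp (ContinuousLinearMap.inr ℝ P E)) :=
      hD.continuous.comp (by fun_prop : Continuous (fun u : ℝ => (p, u • v)))
    have h2 : (∫ u in (0 : ℝ)..1, (fderiv ℝ F (p, u • v)).comp (ContinuousLinearMap.inr ℝ P E)) v
        = ∫ u in (0 : ℝ)..1, (fderiv ℝ F (p, u • v)) (0, v) := by
      rw [ContinuousLinearMap.intervalIntegral_apply (hcont.intervalIntegrable _ _)]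
      simp
    have h3 : ∀ u : ℝ, HasDerivAt (fun u : ℝ => F (p, u • v)) ((fderiv ℝ F (p, u • v)) (0, v)) u := by
      intro u
      have h4 : HasDerivAt (fun u : ℝ => ((p, u • v) : P × E)) ((0 : P), v) u := by
        refine (hasDerivAt_const u p).prodMk ?_
        simpa using (hasDerivAt_id u).smul_const v
      exact (hdiff (p, u • v)).comp_hasDerivAt u h4
    have h5 : ∫ u in (0 : ℝ)..1, (fderiv ℝ F (p, u • v)) (0, v) = F (p, (1 : ℝ) • v) - F (p, (0 : ℝ) • v) := by
      refine intervalIntegral.integral_eq_sub_of_hasDerivAt (fun u _ => h3 u) ?_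
      have h6 : Continuous (fun u : ℝ => (fderiv ℝ F (p, u • v)) (0, v)) := by
        have := hcont.clm_apply (continuous_const (y := v))
        simpa using this
      exact h6.intervalIntegrable _ _
    simp only [h2, h5, one_smul, zero_smul]
    abel
  · intro p
    have h7 : HasFDerivAt (fun v => F (p, v)) ((fderiv ℝ F (p, 0)).comp (ContinuousLinearMap.inr ℝ P E)) 0 :=
      (hdiff (p, 0)).comp 0 (hasFDerivAt_prodMk_right p (0 : E))
    rw [h7.fderiv]
    simp

/-- T2, scalar form.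

PROOF. From `hadamard` with E = ℝ: G₁(p,t) := G(p,t) 1 (`ContDiff.clm_apply`), G(p,t) t = t • G(p,t) 1
(`ContinuousLinearMap.map_smul`, t = t • 1), and (fderiv ℝ f 0) 1 = deriv f 0. -/
theorem hadamard1 {F : P × ℝ → W} (hF : ContDiff ℝ ∞ F) :
    ∃ G : P × ℝ → W, ContDiff ℝ ∞ G ∧ (∀ p t, F (p, t) = F (p, 0) + t • G (p, t)) ∧
      ∀ p, G (p, 0) = deriv (fun t => F (p, t)) 0 := by
  obtain ⟨G, hG, h1, h2⟩ := hadamard hF
  refine ⟨fun q => G q 1, hG.clm_apply contDiff_const, ?_, ?_⟩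
  · intro p t
    rw [h1 p t, ← ContinuousLinearMap.map_smul, smul_eq_mul, mul_one]
  · intro p
    simp only [h2 p]
    exact fderiv_apply_one_eq_deriv

end Pool.Agent.Lib.H37N
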