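import Mathlib

/-! # H37N, chunk I1a (M): density -/

open Set Filter Topology
open scoped ContDiff

namespace Pool.Agent.Lib.H37N

/-- I.1, first part.

PROOF. `dense_addSubgroupClosure_pair_iff`: the subgroup generated by a and b is dense, so it contains δ = p a + q b (p, q ∈ ℤ; `AddSubgroup.mem_closure_pair`) with
0 < δ < min ε (min a b) (`Dense.exists_between`).  p and q are nonzero with opposite signs: if p, q ≥ 0, not both 0, then δ ≥ min a b; if p, q ≤ 0 then δ ≤ 0.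
Case 1: q > 0 > p.  q' = q, p' = -p natural, δ = q' b - p' a.  Choose n₀ ≥ N with N b - n₀ a < c (Archimedes), v₀ = N b - n₀ a, j = ⌊(c - v₀)/δ⌋₊; n = n₀ + j p', ν = N + j q':
ν b - n a = v₀ + j δ ∈ (c - δ, c].
Case 2: p > 0 > q.  p' = p, q' = -q, -δ = q' b - p' a.  Choose ν₀ ≥ N with v₀ = ν₀ b - N a > c, j = ⌊(v₀ - c)/δ⌋₊; n = N + j p', ν = ν₀ + j q': ν b - n a = v₀ - j δ ∈ [c, c + δ). -/
theorem density_pair {a b : ℝ} (ha : 0 < a) (hb : 0 < b) (h : Irrational (a / b)) (c : ℝ) (N : ℕ) {ε : ℝ}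
    (hε : 0 < ε) : ∃ n ν : ℕ, N ≤ n ∧ N ≤ ν ∧ |(ν : ℝ) * b - n * a - c| < ε := by
  obtain ⟨δ, hδmem, hδ0, hδ1⟩ := (dense_addSubgroupClosure_pair_iff.2 h).exists_between
    (show (0 : ℝ) < min ε (min a b) from lt_min hε (lt_min ha hb))
  obtain ⟨p, q, hpq⟩ := AddSubgroup.mem_closure_pair.1 hδmem
  rw [zsmul_eq_mul, zsmul_eq_mul] at hpq
  have hδε : δ < ε := hδ1.trans_le (min_le_left _ _)
  have hδa : δ < a := hδ1.trans_le ((min_le_right _ _).trans (min_le_left _ _))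
  have hδb : δ < b := hδ1.trans_le ((min_le_right _ _).trans (min_le_right _ _))
  rcases lt_or_ge p 0 with hp | hp
  · have hq : 0 < q := by
      by_contra hq
      have hq' : (q : ℝ) ≤ 0 := by exact_mod_cast not_lt.1 hq
      have hp' : (p : ℝ) < 0 := by exact_mod_cast hp
      nlinarith [mul_neg_of_neg_of_pos hp' ha, mul_nonpos_of_nonpos_of_nonneg hq' hb.le]
    obtain ⟨p', hp'⟩ := Int.eq_ofNat_of_zero_le (show 0 ≤ -p by omega)
    obtain ⟨q', hq'⟩ := Int.eq_ofNat_of_zero_le hq.le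
    have e1 : (p : ℝ) = -(p' : ℝ) := by
      have : p = -(p' : ℤ) := by omega
      rw [this]; push_cast; ring
    have e2 : (q : ℝ) = (q' : ℝ) := by rw [hq']; push_cast; ring
    rw [e1, e2] at hpq
    obtain ⟨n₁, hn₁⟩ := exists_nat_gt (((N : ℝ) * b - c) / a)
    set n₀ := max N n₁ with hn₀
    have hn₀' : ((N : ℝ) * b - c) / a < (n₀ : ℝ) :=
      hn₁.trans_le (by exact_mod_cast le_max_right _ _)
    rw [div_lt_iff₀ ha] at hn₀'
    set v₀ : ℝ := N * b - n₀ * a with hv₀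
    have hv : v₀ < c := by rw [hv₀]; linarith
    set j := ⌊(c - v₀) / δ⌋₊ with hj
    have hj1 : (j : ℝ) ≤ (c - v₀) / δ := Nat.floor_le (div_nonneg (by linarith) hδ0.le)
    have hj2 : (c - v₀) / δ < j + 1 := Nat.lt_floor_add_one _
    rw [le_div_iff₀ hδ0] at hj1
    rw [div_lt_iff₀ hδ0] at hj2
    refine ⟨n₀ + j * p', N + j * q', le_max_left N n₁ |>.trans (Nat.le_add_right _ _),
      Nat.le_add_right _ _, ?_⟩
    have e3 : ((N + j * q' : ℕ) : ℝ) * b - ((n₀ + j * p' : ℕ) : ℝ) * a - c = v₀ + j * δ - c := by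
      rw [← hpq, hv₀]
      push_cast
      ring
    rw [e3, abs_lt]
    constructor <;> nlinarith
  · have hq : q < 0 := by
      by_contra hq
      have hq1 : 0 ≤ q := not_lt.1 hq
      have hq' : (0 : ℝ) ≤ (q : ℝ) := by exact_mod_cast hq1
      have hp' : (0 : ℝ) ≤ (p : ℝ) := by exact_mod_cast hp
      rcases hp.lt_or_eq with h1 | h1
      · have : (1 : ℝ) ≤ (p : ℝ) := by exact_mod_cast h1
        nlinarith [mul_nonneg hq' hb.le]
      · rcases hq1.lt_or_eq with h2 | h2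
        · have : (1 : ℝ) ≤ (q : ℝ) := by exact_mod_cast h2
          nlinarith [mul_nonneg hp' ha.le]
        · rw [← h1, ← h2] at hpq
          simp at hpq
          linarith
    obtain ⟨p', hp'⟩ := Int.eq_ofNat_of_zero_le hp
    obtain ⟨q', hq'⟩ := Int.eq_ofNat_of_zero_le (show 0 ≤ -q by omega)
    have e1 : (p : ℝ) = (p' : ℝ) := by rw [hp']; push_cast; ring
    have e2 : (q : ℝ) = -(q' : ℝ) := by
      have : q = -(q' : ℤ) := by omega
      rw [this]; push_cast; ring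
    rw [e1, e2] at hpq
    obtain ⟨n₁, hn₁⟩ := exists_nat_gt (((N : ℝ) * a + c) / b)
    set n₀ := max N n₁ with hn₀
    have hn₀' : ((N : ℝ) * a + c) / b < (n₀ : ℝ) :=
      hn₁.trans_le (by exact_mod_cast le_max_right _ _)
    rw [div_lt_iff₀ hb] at hn₀'
    set v₀ : ℝ := n₀ * b - N * a with hv₀
    have hv : c < v₀ := by rw [hv₀]; linarith
    set j := ⌊(v₀ - c) / δ⌋₊ with hj
    have hj1 : (j : ℝ) ≤ (v₀ - c) / δ := Nat.floor_le (div_nonneg (by linarith) hδ0.le)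
    have hj2 : (v₀ - c) / δ < j + 1 := Nat.lt_floor_add_one _
    rw [le_div_iff₀ hδ0] at hj1
    rw [div_lt_iff₀ hδ0] at hj2
    refine ⟨N + j * p', n₀ + j * q', Nat.le_add_right _ _,
      le_max_left N n₁ |>.trans (Nat.le_add_right _ _), ?_⟩
    have e3 : ((n₀ + j * q' : ℕ) : ℝ) * b - ((N + j * p' : ℕ) : ℝ) * a - c = v₀ - j * δ - c := by
      rw [← hpq, hv₀]
      push_cast
      ring
    rw [e3, abs_lt]
    constructor <;> nlinarith

end Pool.Agent.Lib.H37N
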