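import Pool.Agent.Lib.H37N.IPar
import Pool.Agent.Lib.H37N.I1a

/-! # H37N, chunk I1b (M): the sequences (n_j, ν_j) -/

open Set Filter Topology
open scoped ContDiff

namespace Pool.Agent.Lib.H37N

/-- I.1.

PROOF. Put a = -log(lP mP) > 0, b = log(lQ mQ) > 0; a/b = -(log(lP mP)/log(lQ mQ)) is irrational (`Rates.irr`, `Irrational.neg`), c = log(B0/dS).  `density_pair` with
N = j, ε = 1/(j+1): n j, ν j ≥ j with |ν_j b - n_j a - c| < 1/(j+1).
Third limit: dS (lP mP)^n (lQ mQ)^ν = dS exp(ν b - n a) → dS exp(c) = B0 (`Real.exp_log`, `Real.exp_nat_mul`).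
Fourth: log(mP^n lQ^ν) = n log mP + ν log lQ = (log mP/a)(n a - ν b) + ν (log lQ + (b/a) log mP); the first term is bounded (converges to -(log mP/a) c), the second tends to -∞ by
`Rates.R1` (b/a log mP + log lQ < 0) and ν_j → ∞.  mP^n lQ^ν = exp of it → 0 (`Real.tendsto_exp_atBot`).  -/
theorem density_seq {lP mP lQ mQ : ℝ} (h : Rates lP mP lQ mQ) {dS B0 : ℝ} (hd : 0 < dS) (hB : 0 < B0) :
    ∃ n ν : ℕ → ℕ, Tendsto n atTop atTop ∧ Tendsto ν atTop atTop ∧
      Tendsto (fun j => dS * (lP * mP) ^ n j * (lQ * mQ) ^ ν j) atTop (𝓝 B0) ∧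
      Tendsto (fun j => mP ^ n j * lQ ^ ν j) atTop (𝓝 0) := by
  have hlP := h.lP_pos
  have hmP : 0 < mP := by have := h.mP_gt; linarith
  have hlQ := h.lQ_pos
  have hmQ : 0 < mQ := by have := h.mQ_gt; linarith
  have hPP : 0 < lP * mP := mul_pos hlP hmP
  have hQQ : 0 < lQ * mQ := mul_pos hlQ hmQ
  set a := -Real.log (lP * mP) with ha_def
  set b := Real.log (lQ * mQ) with hb_def
  have ha : 0 < a := by
    have := Real.log_neg hPP h.prodP
    linarith
  have hb : 0 < b := Real.log_pos h.prodQ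
  have hirr : Irrational (a / b) := by
    have h1 := h.irr.neg
    rw [← neg_div] at h1
    exact h1
  set c := Real.log (B0 / dS) with hc_def
  have hj : ∀ j : ℕ, ∃ p : ℕ × ℕ, j ≤ p.1 ∧ j ≤ p.2 ∧ |(p.2 : ℝ) * b - p.1 * a - c| < 1 / ((j : ℝ) + 1) := by
    intro j
    obtain ⟨n, ν, h1, h2, h3⟩ := density_pair ha hb hirr c j (ε := 1 / ((j : ℝ) + 1)) (by positivity)
    exact ⟨(n, ν), h1, h2, h3⟩
  choose p hp1 hp2 hp3 using hj
  have hn : Tendsto (fun j => (p j).1) atTop atTop := tendsto_atTop_mono hp1 tendsto_id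
  have hν : Tendsto (fun j => (p j).2) atTop atTop := tendsto_atTop_mono hp2 tendsto_id
  have hνr : Tendsto (fun j => ((p j).2 : ℝ)) atTop atTop := tendsto_natCast_atTop_atTop.comp hν
  have hlim : Tendsto (fun j => ((p j).2 : ℝ) * b - (p j).1 * a) atTop (𝓝 c) := by
    rw [tendsto_iff_norm_sub_tendsto_zero]
    refine squeeze_zero (fun j => norm_nonneg _) (fun j => ?_) tendsto_one_div_add_atTop_nhds_zero_nat
    rw [Real.norm_eq_abs]
    exact (hp3 j).le
  refine ⟨fun j => (p j).1, fun j => (p j).2, hn, hν, ?_, ?_⟩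
  · have h1 : Tendsto (fun j => dS * Real.exp (((p j).2 : ℝ) * b - (p j).1 * a)) atTop (𝓝 (dS * Real.exp c)) :=
      ((Real.continuous_exp.tendsto c).comp hlim).const_mul dS
    have h2 : dS * Real.exp c = B0 := by
      rw [hc_def, Real.exp_log (div_pos hB hd)]
      field_simp
    rw [h2] at h1
    refine h1.congr (fun j => ?_)
    have e1 : (lP * mP) ^ (p j).1 = Real.exp (-((p j).1 * a)) := by
      rw [ha_def, mul_neg, neg_neg, Real.exp_nat_mul, Real.exp_log hPP]
    have e2 : (lQ * mQ) ^ (p j).2 = Real.exp ((p j).2 * b) := by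
      rw [hb_def, Real.exp_nat_mul, Real.exp_log hQQ]
    rw [e1, e2, mul_assoc, ← Real.exp_add]
    congr 2
    ring
  · have h1 : Tendsto (fun j => (Real.log mP / a) * -(((p j).2 : ℝ) * b - (p j).1 * a)) atTop (𝓝 ((Real.log mP / a) * -c)) :=
      hlim.neg.const_mul _
    have hneg : Real.log lQ + b / a * Real.log mP < 0 := h.R1
    have h2 : Tendsto (fun j => (Real.log lQ + b / a * Real.log mP) * ((p j).2 : ℝ)) atTop atBot :=
      hνr.const_mul_atTop_of_neg hneg
    have h3 := h1.add_atBot h2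
    have h4 := Real.tendsto_exp_atBot.comp h3
    refine h4.congr (fun j => ?_)
    have e1 : mP ^ (p j).1 = Real.exp ((p j).1 * Real.log mP) := by
      rw [Real.exp_nat_mul, Real.exp_log hmP]
    have e2 : lQ ^ (p j).2 = Real.exp ((p j).2 * Real.log lQ) := by
      rw [Real.exp_nat_mul, Real.exp_log hlQ]
    rw [e1, e2, ← Real.exp_add]
    simp only [Function.comp_apply]
    congr 1
    field_simp
    ring

end Pool.Agent.Lib.H37N
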