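import Pool.Agent.Lib.H37N.IPar
import Pool.Agent.Lib.H37N.B20

/-! # H37N, chunk I1d: the rates of a frame -/

open Set Filter Topology
open scoped ContDiff

namespace Pool.Agent.Lib.H37N

theorem IsFr.toRates {g : Pt → Pt} {F : Fr} (h : IsFr g F) :
    Rates (F.lam Sy.P) (F.mu Sy.P) (F.lam Sy.Q) (F.mu Sy.Q) := by
  obtain ⟨h1, h2, h3, h4, h5, h6, h7, h8⟩ := h.rates
  exact ⟨h1, h2, h5, h3, h4, h6, h7, h8, h.R1, h.irr⟩

end Pool.Agent.Lib.H37N
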