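import Pool.Agent.Lib.H37N.T2

/-! # H37N, chunk I2a (S): divided differences -/

open Set Filter Topology
open scoped ContDiff

namespace Pool.Agent.Lib.H37N

variable {P E W : Type} [NormedAddCommGroup P] [NormedSpace ℝ P] [FiniteDimensional ℝ P]
  [NormedAddCommGroup E] [NormedSpace ℝ E] [FiniteDimensional ℝ E]
  [NormedAddCommGroup W] [NormedSpace ℝ W] [CompleteSpace W]

/-- PROOF. `hadamard1` (parameter space P × E) for F((p,v),s) = R(p, β p + s v): D(p,v,s) = G((p,v),s); the value at s = 0 is the derivative of s ↦ R(p, β p + s v) at 0, chain rule. -/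
theorem divdiff {R : P × E → W} (hR : ContDiff ℝ ∞ R) {β : P → E} (hβ : ContDiff ℝ ∞ β) :
    ∃ D : P × E × ℝ → W, ContDiff ℝ ∞ D ∧ (∀ p v s, R (p, β p + s • v) = R (p, β p) + s • D (p, v, s)) ∧
      ∀ p v, D (p, v, 0) = fderiv ℝ (fun y => R (p, y)) (β p) v := by
  have hF : ContDiff ℝ ∞ (fun q : (P × E) × ℝ => R (q.1.1, β q.1.1 + q.2 • q.1.2)) := by
    refine hR.comp ?_
    refine (contDiff_fst.comp contDiff_fst).prodMk ?_
    refine (hβ.comp (contDiff_fst.comp contDiff_fst)).add ?_
    exact contDiff_snd.smul (contDiff_snd.comp contDiff_fst)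
  obtain ⟨G, hG, h1, h2⟩ := hadamard1 (P := P × E) hF
  refine ⟨fun q => G ((q.1, q.2.1), q.2.2), ?_, ?_, ?_⟩
  · exact hG.comp ((contDiff_fst.prodMk (contDiff_fst.comp contDiff_snd)).prodMk
      (contDiff_snd.comp contDiff_snd))
  · intro p v s
    have := h1 (p, v) s
    simpa using this
  · intro p v
    have h3 := h2 (p, v)
    simp only at h3 ⊢
    rw [h3]
    have h4 : HasFDerivAt (fun y => R (p, y)) (fderiv ℝ (fun y => R (p, y)) (β p)) (β p + (0 : ℝ) • v) := by
      rw [zero_smul, add_zero]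
      have : ContDiff ℝ ∞ (fun y => R (p, y)) := hR.comp (contDiff_const.prodMk contDiff_id)
      exact (this.differentiable (by simp) _).hasFDerivAt
    have h5 : HasDerivAt (fun t : ℝ => β p + t • v) v 0 := by
      have h6 := ((hasDerivAt_id (0 : ℝ)).smul_const v).const_add (β p)
      simpa using h6
    exact (h4.comp_hasDerivAt (0 : ℝ) h5).deriv

end Pool.Agent.Lib.H37N
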