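import Pool.Agent.Lib.H37N.T2

/-! # H37N, chunk T2b (S/M): division by powers of t, one-variable Taylor formula with parameters -/

open Set Filter Topology Asymptotics
open scoped ContDiff

namespace Pool.Agent.Lib.H37N

variable {P E W : Type} [NormedAddCommGroup P] [NormedSpace ℝ P] [FiniteDimensional ℝ P]
  [NormedAddCommGroup E] [NormedSpace ℝ E] [FiniteDimensional ℝ E]
  [NormedAddCommGroup W] [NormedSpace ℝ W] [CompleteSpace W]

omit [CompleteSpace W] in
/-- a function `t • g t` which is `O(t^(k+1))` has `g` of order `O(t^k)` -/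
theorem t2b_div {g : ℝ → W} (hg : Continuous g) (k : ℕ)
    (h : (fun t : ℝ => t • g t) =O[𝓝 0] fun t : ℝ => t ^ (k + 1)) :
    g =O[𝓝 0] fun t : ℝ => t ^ k := by
  rcases k with _ | k
  · simp only [pow_zero]
    exact hg.continuousAt.isBigO_one ℝ
  · obtain ⟨C, hC⟩ := h.bound
    -- bound away from zero
    have h1 : ∀ᶠ t in 𝓝[≠] (0 : ℝ), ‖g t‖ ≤ C * ‖t ^ (k + 1)‖ := by
      filter_upwards [hC.filter_mono nhdsWithin_le_nhds, self_mem_nhdsWithin] with t ht ht0
      have ht0' : (0 : ℝ) < ‖t‖ := norm_pos_iff.2 ht0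
      rw [norm_smul, norm_pow, pow_succ] at ht
      have h2 : ‖t‖ * ‖g t‖ ≤ ‖t‖ * (C * ‖t ^ (k + 1)‖) := by
        rw [norm_pow]
        calc ‖t‖ * ‖g t‖ ≤ C * (‖t‖ ^ (k + 1) * ‖t‖) := ht
          _ = ‖t‖ * (C * ‖t‖ ^ (k + 1)) := by ring
      exact le_of_mul_le_mul_left h2 ht0'
    -- the value at zero
    have h3 : ‖g 0‖ ≤ C * ‖(0 : ℝ) ^ (k + 1)‖ := by
      have h4 : Tendsto (fun t : ℝ => ‖g t‖) (𝓝[≠] 0) (𝓝 ‖g 0‖) :=
        (hg.norm.tendsto 0).mono_left nhdsWithin_le_nhds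
      have h5 : Tendsto (fun t : ℝ => C * ‖t ^ (k + 1)‖) (𝓝[≠] 0) (𝓝 (C * ‖(0 : ℝ) ^ (k + 1)‖)) := by
        have : Continuous (fun t : ℝ => C * ‖t ^ (k + 1)‖) := by fun_prop
        exact (this.tendsto 0).mono_left nhdsWithin_le_nhds
      exact le_of_tendsto_of_tendsto h4 h5 h1
    refine IsBigO.of_bound C ?_
    rw [eventually_nhdsWithin_iff] at h1
    filter_upwards [h1] with t ht
    by_cases h0 : t = 0
    · subst h0
      exact h3
    · exact ht h0

/-- T2, iterated.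

PROOF. Induction on k for all F.  k = 0: G = F.  k+1: F(p,·) = O(t^(k+1)) gives F(p,0) = 0 (`IsBigO.eq_zero_of_norm_pow` or: continuity
and t^(k+1) → 0), so by `hadamard1` F(p,t) = t • G(p,t); and G(p,·) = O(t^k): for t ≠ 0, t • G = O(t^(k+1)) gives ‖G(p,t)‖ ≤ C |t|^k;
at t = 0 the same bound holds by continuity of G (if k = 0 any continuous function is O(1); if k ≥ 1: G(p,0) = lim = 0).
Apply the induction hypothesis to G. -/
theorem hadamard_pow {F : P × ℝ → W} (hF : ContDiff ℝ ∞ F) (k : ℕ)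
    (h : ∀ p, (fun t => F (p, t)) =O[𝓝 0] fun t : ℝ => t ^ k) :
    ∃ G : P × ℝ → W, ContDiff ℝ ∞ G ∧ ∀ p t, F (p, t) = t ^ k • G (p, t) := by
  induction k generalizing F with
  | zero => exact ⟨F, hF, fun p t => by simp⟩
  | succ k ih =>
    obtain ⟨G, hG, h1, -⟩ := hadamard1 hF
    have h0 : ∀ p, F (p, 0) = 0 := by
      intro p
      obtain ⟨C, hC⟩ := (h p).bound
      have := hC.self_of_nhds
      simpa using this
    have h2 : ∀ p, (fun t => G (p, t)) =O[𝓝 0] fun t : ℝ => t ^ k := by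
      intro p
      refine t2b_div (hG.continuous.comp (by fun_prop : Continuous (fun t : ℝ => (p, t)))) k ?_
      refine (h p).congr_left fun t => ?_
      rw [h1 p t, h0 p, zero_add]
      rfl
    obtain ⟨G', hG', h3⟩ := ih hG h2
    refine ⟨G', hG', fun p t => ?_⟩
    rw [h1 p t, h0 p, zero_add, h3 p t, smul_smul, pow_succ, mul_comm]

/-- the chain of remainders -/
noncomputable def t2b_chain (F : {F : P × ℝ → W // ContDiff ℝ ∞ F}) : ℕ → {F : P × ℝ → W // ContDiff ℝ ∞ F}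
  | 0 => F
  | n + 1 => ⟨(hadamard1 (t2b_chain F n).2).choose, (hadamard1 (t2b_chain F n).2).choose_spec.1⟩

/-- Taylor formula in one variable with parameters; the coefficients do not depend on k.

PROOF. Define recursively Γ 0 = F, Γ (n+1) = the function G of `hadamard1` for Γ n (choice; all smooth), c n p = Γ n (p,0).
Then F(p,t) = Σ_{n ≤ k} t^n • c n p + t^(k+1) • Γ (k+1) (p,t) by induction on k.  c 1 p = deriv: from `hadamard1`. -/
theorem taylor1 {F : P × ℝ → W} (hF : ContDiff ℝ ∞ F) :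
    ∃ c : ℕ → P → W, (∀ n, ContDiff ℝ ∞ (c n)) ∧ (∀ p, c 0 p = F (p, 0)) ∧
      (∀ p, c 1 p = deriv (fun t => F (p, t)) 0) ∧
      ∀ k : ℕ, ∃ G : P × ℝ → W, ContDiff ℝ ∞ G ∧ ∀ p t,
        F (p, t) = ∑ n ∈ Finset.range (k + 1), t ^ n • c n p + t ^ (k + 1) • G (p, t) := by
  set Γ := t2b_chain (⟨F, hF⟩ : {F : P × ℝ → W // ContDiff ℝ ∞ F}) with hΓ
  have hstep : ∀ n p t, (Γ n).1 (p, t) = (Γ n).1 (p, 0) + t • (Γ (n + 1)).1 (p, t) := fun n p t =>
    (hadamard1 (Γ n).2).choose_spec.2.1 p t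
  have hone : ∀ n p, (Γ (n + 1)).1 (p, 0) = deriv (fun t => (Γ n).1 (p, t)) 0 := fun n p =>
    (hadamard1 (Γ n).2).choose_spec.2.2 p
  have h0 : (Γ 0).1 = F := rfl
  refine ⟨fun n p => (Γ n).1 (p, 0), fun n => ?_, fun p => rfl, fun p => ?_, fun k => ?_⟩
  · exact (Γ n).2.comp (contDiff_id.prodMk contDiff_const)
  · have := hone 0 p
    rw [h0] at this
    exact this
  · refine ⟨(Γ (k + 1)).1, (Γ (k + 1)).2, fun p t => ?_⟩
    simp only
    induction k with
    | zero =>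
      have := hstep 0 p t
      simpa [h0] using this
    | succ k ih =>
      rw [ih, Finset.sum_range_succ _ (k + 1), hstep (k + 1) p t, smul_add, smul_smul, ← pow_succ]
      exact (add_assoc _ _ _).symm

end Pool.Agent.Lib.H37N
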