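import Pool.Agent.Lib.H37N.Defs
import Pool.Agent.Lib.H37N.T2b
import Pool.Agent.Lib.H37N.T3

/-! # H37N, chunk I2d (M): normal forms of the maps T along the curve -/

open Set Filter Topology Asymptotics
open scoped ContDiff

namespace Pool.Agent.Lib.H37N

theorem i2d_zero (n : ℕ) : ∀ {g : ℝ → ℝ}, Continuous g →
    ((fun t : ℝ => t ^ n * g t) =O[𝓝 0] fun t : ℝ => t ^ (n + 1)) → g 0 = 0 := by
  induction n with
  | zero =>
    intro g _ h
    obtain ⟨C, hC⟩ := h.bound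
    have := hC.self_of_nhds
    simpa using this
  | succ n ih =>
    intro g hg h
    refine ih hg ?_
    refine t2b_div (g := fun t : ℝ => t ^ n * g t) (by fun_prop) (n + 1) ?_
    refine h.congr_left fun t => ?_
    simp only [smul_eq_mul]
    ring

/-- a smooth function of one variable with the expansion ka t^(m+1) + O(t^(m+2)).

PROOF. f(t) = O(t^(m+1)) (ka t^(m+1) = O(t^(m+1)), t^(m+2) = O(t^(m+1)) at 0).  `hadamard_pow` with a trivial parameter (P = ℝ, F(p,t) = f(t), G(0,·)): f(t) = t^(m+1) Yh(t), Yh smooth.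
t^(m+1)(Yh t - ka) = O(t^(m+2)), so Yh t - ka = O(t) for t ≠ 0, so Yh 0 = ka by continuity. -/
theorem exists_hat {f : ℝ → ℝ} (hf : ContDiff ℝ ∞ f) {m : ℕ} {ka : ℝ}
    (h : (fun t => f t - ka * t ^ (m + 1)) =O[𝓝 0] fun t : ℝ => t ^ (m + 2)) :
    ∃ Yh : ℝ → ℝ, ContDiff ℝ ∞ Yh ∧ Yh 0 = ka ∧ ∀ t, f t = t ^ (m + 1) * Yh t := by
  have h0 : (fun t : ℝ => t ^ (m + 2)) =O[𝓝 0] fun t : ℝ => t ^ (m + 1) := by
    have : (fun t : ℝ => t ^ (m + 2)) = fun t : ℝ => t * t ^ (m + 1) := by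
      funext t; ring
    rw [this]
    have h1 : (fun t : ℝ => t) =O[𝓝 0] fun _ : ℝ => (1 : ℝ) := continuous_id.continuousAt.isBigO_one ℝ
    simpa using h1.mul (isBigO_refl (fun t : ℝ => t ^ (m + 1)) (𝓝 0))
  have h1 : f =O[𝓝 0] fun t : ℝ => t ^ (m + 1) := by
    have h2 := (h.trans h0).add ((isBigO_refl (fun t : ℝ => t ^ (m + 1)) (𝓝 0)).const_mul_left ka)
    refine h2.congr_left fun t => ?_
    ring
  obtain ⟨G, hG, hfG⟩ := hadamard_pow (P := ℝ) (W := ℝ) (F := fun q => f q.2) (hf.comp contDiff_snd) (m + 1)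
    (fun p => h1)
  refine ⟨fun t => G (0, t), hG.comp (contDiff_const.prodMk contDiff_id), ?_, fun t => ?_⟩
  · have hc : Continuous (fun t : ℝ => G (0, t) - ka) :=
      (hG.continuous.comp (by fun_prop)).sub continuous_const
    have := i2d_zero (m + 1) hc (by
      refine h.congr_left fun t => ?_
      have := hfG 0 t
      simp only [smul_eq_mul] at this
      rw [this]
      ring)
    linarith
  · have := hfG 0 t
    simpa using this

/-- first place.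

PROOF. `localise_at`: T̃ global smooth, T̃ = T near 0.  t ↦ (T̃(0,t)).1 = a + t Ah(t) (`hadamard1`, trivial parameter; Ah 0 = derivative = (fderiv T 0 (0,1)).1 = al).
`exists_hat` for t ↦ (T̃(0,t)).2. -/
theorem exists_normal1 {T : Pt → Pt} (hT : ∀ᶠ v in 𝓝 (0 : Pt), ContDiffAt ℝ ∞ T v) {a al ka : ℝ} {m : ℕ} (h0 : T 0 = (a, 0))
    (hal : (fderiv ℝ T 0 (0, 1)).1 = al)
    (hka : (fun t : ℝ => (T (0, t)).2 - ka * t ^ (m + 1)) =O[𝓝 0] fun t : ℝ => t ^ (m + 2)) :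
    ∃ Ah Yh : ℝ → ℝ, ContDiff ℝ ∞ Ah ∧ ContDiff ℝ ∞ Yh ∧ Ah 0 = al ∧ Yh 0 = ka ∧
      ∀ᶠ t : ℝ in 𝓝 0, T (0, t) = (a + t * Ah t, t ^ (m + 1) * Yh t) := by
  obtain ⟨g, hg, hgT⟩ := localise_at hT
  have hlim : Tendsto (fun t : ℝ => ((0, t) : Pt)) (𝓝 0) (𝓝 0) := by
    have : Continuous (fun t : ℝ => ((0, t) : Pt)) := by fun_prop
    exact this.tendsto' 0 0 rfl
  have hev := hlim.eventually hgT
  obtain ⟨A, hA, hA1, hA2⟩ := hadamard1 (P := ℝ) (W := ℝ) (F := fun q => (g (0, q.2)).1)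
    (contDiff_fst.comp (hg.comp (contDiff_const.prodMk contDiff_snd)))
  obtain ⟨Yh, hY, hY0, hY1⟩ := exists_hat (f := fun t => (g (0, t)).2) (ka := ka) (m := m)
    (contDiff_snd.comp (hg.comp (contDiff_const.prodMk contDiff_id))) (by
      refine (hka.congr' ?_ EventuallyEq.rfl)
      filter_upwards [hev] with t ht
      rw [ht])
  have hg0 : g 0 = (a, 0) := by rw [hgT.self_of_nhds, h0]
  refine ⟨fun t => A (0, t), Yh, hA.comp (contDiff_const.prodMk contDiff_id), hY, ?_, hY0, ?_⟩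
  · show A (0, 0) = al
    rw [hA2]
    have hd : HasFDerivAt g (fderiv ℝ T 0) 0 := by
      have h1 := (hg.differentiable (by simp) 0).hasFDerivAt
      rwa [hgT.fderiv_eq] at h1
    have hd2 : HasDerivAt (fun t : ℝ => ((0, t) : Pt)) (0, 1) 0 :=
      (hasDerivAt_const _ _).prodMk (hasDerivAt_id _)
    have hd3 : HasDerivAt (fun t : ℝ => g (0, t)) (fderiv ℝ T 0 (0, 1)) 0 := by
      have := HasFDerivAt.comp_hasDerivAt (0 : ℝ) (f := fun t : ℝ => ((0, t) : Pt)) (l := g) hd hd2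
      exact this
    have hd4 : HasDerivAt (fun t : ℝ => (g (0, t)).1) (fderiv ℝ T 0 (0, 1)).1 0 := hd3.fst
    rw [hd4.deriv, hal]
  · filter_upwards [hev] with t ht
    have h1 := hA1 0 t
    have h2 := hY1 t
    simp only [smul_eq_mul] at h1
    rw [← ht]
    have h3 : (g (0, 0)).1 = a := by
      have : ((0, 0) : Pt) = 0 := rfl
      rw [this, hg0]
    rw [h3] at h1
    exact Prod.ext h1 h2

/-- second place.

PROOF. `localise_at`: T̃ = (XX, YY) global smooth, = T near 0; derivatives by the chain rule; `exists_hat` for t ↦ YY(0,t). -/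
theorem exists_normal2 {T : Pt → Pt} (hT : ∀ᶠ v in 𝓝 (0 : Pt), ContDiffAt ℝ ∞ T v) {a al gm ka : ℝ} {m : ℕ} (h0 : T 0 = (a, 0))
    (hal : (fderiv ℝ T 0 (0, 1)).1 = al) (hgm : (fderiv ℝ T 0 (1, 0)).2 = gm)
    (hka : (fun t : ℝ => (T (0, t)).2 - ka * t ^ (m + 1)) =O[𝓝 0] fun t : ℝ => t ^ (m + 2)) :
    ∃ (XX YY : Pt → ℝ) (Yk : ℝ → ℝ), ContDiff ℝ ∞ XX ∧ ContDiff ℝ ∞ YY ∧ ContDiff ℝ ∞ Yk ∧ XX 0 = a ∧
      HasDerivAt (fun t => XX (0, t)) al 0 ∧ HasDerivAt (fun x => YY (x, 0)) gm 0 ∧ Yk 0 = ka ∧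
      (∀ t, YY (0, t) = t ^ (m + 1) * Yk t) ∧ ∀ᶠ v : Pt in 𝓝 0, T v = (XX v, YY v) := by
  obtain ⟨g, hg, hgT⟩ := localise_at hT
  have hlim : Tendsto (fun t : ℝ => ((0, t) : Pt)) (𝓝 0) (𝓝 0) := by
    have : Continuous (fun t : ℝ => ((0, t) : Pt)) := by fun_prop
    exact this.tendsto' 0 0 rfl
  have hev := hlim.eventually hgT
  obtain ⟨Yk, hY, hY0, hY1⟩ := exists_hat (f := fun t => (g (0, t)).2) (ka := ka) (m := m)
    (contDiff_snd.comp (hg.comp (contDiff_const.prodMk contDiff_id))) (by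
      refine (hka.congr' ?_ EventuallyEq.rfl)
      filter_upwards [hev] with t ht
      rw [ht])
  have hg0 : g 0 = (a, 0) := by rw [hgT.self_of_nhds, h0]
  have hd : HasFDerivAt g (fderiv ℝ T 0) 0 := by
    have h1 := (hg.differentiable (by simp) 0).hasFDerivAt
    rwa [hgT.fderiv_eq] at h1
  refine ⟨fun v => (g v).1, fun v => (g v).2, Yk, contDiff_fst.comp hg, contDiff_snd.comp hg, hY, ?_, ?_, ?_, hY0,
    hY1, ?_⟩
  · show (g 0).1 = a
    rw [hg0]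
  · have hd2 : HasDerivAt (fun t : ℝ => ((0, t) : Pt)) (0, 1) 0 :=
      (hasDerivAt_const _ _).prodMk (hasDerivAt_id _)
    have hd3 : HasDerivAt (fun t : ℝ => g (0, t)) (fderiv ℝ T 0 (0, 1)) 0 :=
      HasFDerivAt.comp_hasDerivAt (0 : ℝ) (f := fun t : ℝ => ((0, t) : Pt)) (l := g) hd hd2
    rw [← hal]
    exact hd3.fst
  · have hd2 : HasDerivAt (fun t : ℝ => ((t, 0) : Pt)) (1, 0) 0 :=
      (hasDerivAt_id _).prodMk (hasDerivAt_const _ _)
    have hd3 : HasDerivAt (fun t : ℝ => g (t, 0)) (fderiv ℝ T 0 (1, 0)) 0 :=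
      HasFDerivAt.comp_hasDerivAt (0 : ℝ) (f := fun t : ℝ => ((t, 0) : Pt)) (l := g) hd hd2
    rw [← hgm]
    exact hd3.snd
  · filter_upwards [hgT] with v hv
    rw [hv]

end Pool.Agent.Lib.H37N
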