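import Pool.Agent.Lib.H37N.IPar
import Pool.Agent.Lib.H37N.T2
import Pool.Agent.Lib.H37N.T3
import Pool.Agent.Lib.H37N.T10b

/-! # H37N, chunk I0a (M): the functions of the pass -/

open Set Filter Topology
open scoped ContDiff

namespace Pool.Agent.Lib.H37N

/-- I.0: the functions Θ, W, Y₁, Y₂ of a transition map S.

PROOF. `localise_at`: a global smooth S̃ = S near 0 (same value and derivative at 0; write s₁, s₂ for its components).  F(σ,t) = s₂(σ,t), `inverse_param` at (0,0) (deriv = dS ≠ 0): θ with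
θ(0,0) = 0, F(σ,θ(σ,w)) = w for (σ,w) near 0.  Θ(σ) = θ(σ,0): Θ 0 = 0, s₂(σ,Θσ) = 0 for σ near 0.
`hadamard1` for (σ,t) ↦ s₂(σ,Θσ+t): = s₂(σ,Θσ) + t G(σ,t), G(σ,0) = ∂_t s₂(σ,Θσ); W = G/dS; W 0 = 1.  eq2 for σ near 0.
`hadamard1` for (σ,t) ↦ s₁(σ,Θσ+t): = s₁(σ,Θσ) + t Y₂(σ,t).  `hadamard1` (P = Unit or `taylor`-like with P = ℝ trivial: apply it to F((), σ) = s₁(σ,Θσ), P := PUnit or P := ℝ with a dummy
parameter): s₁(σ,Θσ) = s₁(0,0) + σ Y₁(σ), Y₁(0) = d/dσ s₁(σ,Θσ) at 0 = ∂_σs₁ + Θ'(0) ∂_ts₁, and differentiating s₂(σ,Θσ) = 0: Θ'(0) = -∂_σs₂/dS.  So Y₁(0) =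
(∂_σs₁ dS - ∂_σs₂ ∂_ts₁)/dS = jac S 0/dS (jac is defined with fderiv S 0 (1,0), fderiv S 0 (0,1)).
Then v near 0 in the plane implies (v.1, Θ v.1 + v.2) near 0, where S = S̃. -/
theorem exists_passFn {S : Pt → Pt} {sS dS : ℝ} (hS : ∀ᶠ v in 𝓝 (0 : Pt), ContDiffAt ℝ ∞ S v) (h0 : S 0 = (sS, 0))
    (hd : (fderiv ℝ S 0 (0, 1)).2 = dS) (hd0 : dS ≠ 0) : ∃ Th W Y1 Y2, PassFn S dS sS Th W Y1 Y2 := by
  obtain ⟨T, hT, hTS⟩ := localise_at hS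
  have hT0 : T 0 = (sS, 0) := by rw [hTS.eq_of_nhds, h0]
  have hTf : fderiv ℝ T 0 = fderiv ℝ S 0 := hTS.fderiv_eq
  have hs1 : ContDiff ℝ ∞ fun v : Pt => (T v).1 := contDiff_fst.comp hT
  have hs2 : ContDiff ℝ ∞ fun v : Pt => (T v).2 := contDiff_snd.comp hT
  have hTL : HasFDerivAt T (fderiv ℝ S 0) (0 : Pt) := by
    rw [← hTf]
    exact (hT.differentiable (by simp)).differentiableAt.hasFDerivAt
  have hder : HasDerivAt (fun t : ℝ => T (0, t)) (fderiv ℝ S 0 (0, 1)) 0 := by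
    have h1 : HasDerivAt (fun t : ℝ => ((0 : ℝ), t)) ((0 : ℝ), (1 : ℝ)) 0 :=
      (hasDerivAt_const (0 : ℝ) (0 : ℝ)).prodMk (hasDerivAt_id (0 : ℝ))
    have h2 : HasFDerivAt T (fderiv ℝ S 0) ((fun t : ℝ => ((0 : ℝ), t)) 0) := hTL
    exact h2.comp_hasDerivAt (0 : ℝ) h1
  have hder2 : HasDerivAt (fun t : ℝ => (T (0, t)).2) dS 0 := by
    rw [← hd]
    exact (ContinuousLinearMap.snd ℝ ℝ ℝ).hasFDerivAt.comp_hasDerivAt (0 : ℝ) hder
  obtain ⟨θ, hθ, hθ0, -, hθ1⟩ := inverse_param (P := ℝ) (F := fun v : ℝ × ℝ => (T v).2) (p₀ := 0)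
    (t₀ := 0) (Eventually.of_forall fun q => hs2.contDiffAt) (by
      rw [hder2.deriv]
      exact hd0)
  have hF0 : (T ((0 : ℝ), (0 : ℝ))).2 = 0 := by
    have h1 : T ((0 : ℝ), (0 : ℝ)) = (sS, 0) := hT0
    rw [h1]
  simp only [hF0] at hθ0 hθ1
  -- the function Th
  set Th : ℝ → ℝ := fun σ => θ (σ, 0) with hTh
  have hThs : ContDiff ℝ ∞ Th := hθ.comp (contDiff_id.prodMk contDiff_const)
  have hTh0 : Th 0 = 0 := hθ0
  have hTh1 : ∀ᶠ σ : ℝ in 𝓝 0, (T (σ, Th σ)).2 = 0 := by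
    have h1 : Tendsto (fun σ : ℝ => (σ, (0 : ℝ))) (𝓝 0) (𝓝 ((0 : ℝ), (0 : ℝ))) :=
      (Continuous.prodMk continuous_id continuous_const).tendsto' _ _ rfl
    exact h1.eventually hθ1
  -- the functions W and Y2
  have hcur : ContDiff ℝ ∞ fun q : ℝ × ℝ => ((q.1, Th q.1 + q.2) : Pt) :=
    contDiff_fst.prodMk ((hThs.comp contDiff_fst).add contDiff_snd)
  obtain ⟨G2, hG2, hG2e, hG20⟩ := hadamard1 (P := ℝ)
    (F := fun q : ℝ × ℝ => (T (q.1, Th q.1 + q.2)).2) (hs2.comp hcur)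
  obtain ⟨Y2, hY2, hY2e, -⟩ := hadamard1 (P := ℝ)
    (F := fun q : ℝ × ℝ => (T (q.1, Th q.1 + q.2)).1) (hs1.comp hcur)
  -- the function Y1
  have hcur' : ContDiff ℝ ∞ fun q : ℝ × ℝ => ((q.2, Th q.2) : Pt) :=
    contDiff_snd.prodMk (hThs.comp contDiff_snd)
  obtain ⟨G0, hG0, hG0e, hG00⟩ := hadamard1 (P := ℝ)
    (F := fun q : ℝ × ℝ => (T (q.2, Th q.2)).1) (hs1.comp hcur')
  have hThd : HasDerivAt Th (deriv Th 0) 0 :=
    ((hThs.differentiable (by simp)).differentiableAt).hasDerivAt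
  have hcd : HasDerivAt (fun σ : ℝ => T (σ, Th σ)) (fderiv ℝ S 0 (1, deriv Th 0)) 0 := by
    have h1 : HasDerivAt (fun σ : ℝ => (σ, Th σ)) ((1 : ℝ), deriv Th 0) 0 :=
      (hasDerivAt_id (0 : ℝ)).prodMk hThd
    have h2 : HasFDerivAt T (fderiv ℝ S 0) ((fun σ : ℝ => (σ, Th σ)) 0) := by
      show HasFDerivAt T (fderiv ℝ S 0) ((0 : ℝ), Th 0)
      rw [hTh0]
      exact hTL
    exact h2.comp_hasDerivAt (0 : ℝ) h1
  have hlin : fderiv ℝ S 0 (1, deriv Th 0) =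
      fderiv ℝ S 0 (1, 0) + deriv Th 0 • fderiv ℝ S 0 (0, 1) := by
    rw [← map_smul, ← map_add]
    congr 1
    ext <;> simp
  have hd1 : HasDerivAt (fun σ : ℝ => (T (σ, Th σ)).1) (fderiv ℝ S 0 (1, deriv Th 0)).1 0 :=
    (ContinuousLinearMap.fst ℝ ℝ ℝ).hasFDerivAt.comp_hasDerivAt (0 : ℝ) hcd
  have hd2 : HasDerivAt (fun σ : ℝ => (T (σ, Th σ)).2) (fderiv ℝ S 0 (1, deriv Th 0)).2 0 :=
    (ContinuousLinearMap.snd ℝ ℝ ℝ).hasFDerivAt.comp_hasDerivAt (0 : ℝ) hcd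
  have hzero : (fderiv ℝ S 0 (1, deriv Th 0)).2 = 0 := by
    have h1 : (fun σ : ℝ => (T (σ, Th σ)).2) =ᶠ[𝓝 0] fun _ => (0 : ℝ) := hTh1
    have h2 := h1.deriv_eq
    rw [hd2.deriv, deriv_const] at h2
    exact h2
  refine ⟨Th, fun v => G2 v / dS, fun σ => G0 (0, σ), Y2, ?_⟩
  have hSev : ∀ᶠ v : Pt in 𝓝 0, T (v.1, Th v.1 + v.2) = S (v.1, Th v.1 + v.2) := by
    have h1 : Tendsto (fun q : ℝ × ℝ => ((q.1, Th q.1 + q.2) : Pt)) (𝓝 0) (𝓝 0) := by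
      refine hcur.continuous.tendsto' _ _ ?_
      show ((0 : ℝ), Th 0 + 0) = 0
      rw [hTh0, add_zero]
      rfl
    exact h1.eventually hTS
  refine ⟨hThs, hG2.div_const _, hG0.comp (contDiff_const.prodMk contDiff_id), hY2, hTh0, ?_, ?_,
    ?_, ?_⟩
  · have h1 := hG20 0
    simp only [hTh0, zero_add] at h1
    rw [hder2.deriv] at h1
    show G2 ((0 : ℝ), (0 : ℝ)) / dS = 1
    rw [h1, div_self hd0]
  · have h1 := hG00 0
    simp only at h1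
    rw [hd1.deriv] at h1
    show G0 (0, 0) = _
    rw [h1, eq_div_iff hd0, jac, hd, hlin]
    rw [hlin] at hzero
    simp only [Prod.snd_add, Prod.smul_snd, smul_eq_mul, hd] at hzero
    simp only [Prod.fst_add, Prod.smul_fst, smul_eq_mul]
    linear_combination (fderiv ℝ S 0 (0, 1)).1 * hzero
  · filter_upwards [hSev] with v hv
    rw [← hv]
    have h1 := hY2e v.1 v.2
    have h2 := hG0e 0 v.1
    simp only [hTh0, add_zero, smul_eq_mul] at h1 h2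
    have h3 : T ((0 : ℝ), (0 : ℝ)) = (sS, 0) := hT0
    rw [h3] at h2
    rw [h1, h2]
  · have h4 : Tendsto (fun v : Pt => v.1) (𝓝 0) (𝓝 0) := continuous_fst.tendsto' _ _ rfl
    filter_upwards [hSev, h4.eventually hTh1] with v hv hv2
    rw [← hv]
    have h1 := hG2e v.1 v.2
    simp only [add_zero, smul_eq_mul] at h1
    rw [h1, hv2]
    field_simp
    ring

end Pool.Agent.Lib.H37N
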