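import Mathlib

/-! # H37N, chunk SA1 (S/M): the rotation of order N = 2N', trigonometric part of AS2 (S.2) -/

open Set Filter Topology Asymptotics
open scoped ContDiff

namespace Pool.Agent.Lib.H37N

noncomputable section

/-- the angle `π / N'` (the map `(x,u) ↦ (u, -x + 2 cos θ u)` has order `N = 2 N'`) -/
def sth (n : ℕ) : ℝ := Real.pi / n

/-- `K_i = sin (i θ) / sin θ`, for real `i` -/
def sK (n : ℕ) (i : ℝ) : ℝ := Real.sin (i * sth n) / Real.sin (sth n)

/-- first component of the i-th iterate of `(x,u)` -/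
def spi (n : ℕ) (i : ℝ) (v : ℝ × ℝ) : ℝ := sK n i * v.2 - sK n (i - 1) * v.1

/-- `a_l = K_0 + ... + K_(N-1-l)`, `N = 2n` -/
def sa (n l : ℕ) : ℝ := ∑ i ∈ Finset.range (2 * n - l), sK n i

theorem sa1_mul {n : ℕ} (hn : 2 ≤ n) : (n : ℝ) * sth n = Real.pi := by
  have h0 : (n : ℝ) ≠ 0 := by
    have : 0 < n := by omega
    exact_mod_cast this.ne'
  unfold sth
  field_simp

theorem sa1_sth_pos {n : ℕ} (hn : 2 ≤ n) : 0 < sth n := by
  have h0 : (0 : ℝ) < n := by
    have : 0 < n := by omega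
    exact_mod_cast this
  exact div_pos Real.pi_pos h0

/-- PROOF.  `0 < π/n < π` for `2 ≤ n`. -/
theorem sin_sth_pos {n : ℕ} (hn : 2 ≤ n) : 0 < Real.sin (sth n) := by
  refine Real.sin_pos_of_pos_of_lt_pi (sa1_sth_pos hn) ?_
  have h1 := sa1_mul hn
  have h2 : (2 : ℝ) ≤ n := by exact_mod_cast hn
  have h3 := sa1_sth_pos hn
  nlinarith

/-- PROOF.  `sin ((i+1)θ) + sin ((i-1)θ) = 2 cos θ sin (iθ)`. -/
theorem sK_rec {n : ℕ} (hn : 2 ≤ n) (i : ℝ) : sK n (i + 1) = 2 * Real.cos (sth n) * sK n i - sK n (i - 1) := by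
  have h0 := (sin_sth_pos hn).ne'
  unfold sK
  rw [show (i + 1) * sth n = i * sth n + sth n by ring,
    show (i - 1) * sth n = i * sth n - sth n by ring, Real.sin_add, Real.sin_sub]
  field_simp
  ring

theorem sK_zero (n : ℕ) : sK n 0 = 0 := by
  simp [sK]

theorem sK_one {n : ℕ} (hn : 2 ≤ n) : sK n 1 = 1 := by
  have h0 := (sin_sth_pos hn).ne'
  unfold sK
  rw [one_mul]
  exact div_self h0

theorem sK_neg_one {n : ℕ} (hn : 2 ≤ n) : sK n (-1) = -1 := by
  have h0 := (sin_sth_pos hn).ne'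
  unfold sK
  rw [neg_one_mul, Real.sin_neg, neg_div, div_self h0]

/-- PROOF.  `(i + n) π/n = i π/n + π`. -/
theorem sK_add_half {n : ℕ} (hn : 2 ≤ n) (i : ℝ) : sK n (i + n) = - sK n i := by
  unfold sK
  rw [add_mul, sa1_mul hn, Real.sin_add_pi, neg_div]

/-- PROOF.  `sin (2π - iθ) = - sin (iθ)`. -/
theorem sK_sub {n : ℕ} (hn : 2 ≤ n) (i : ℝ) : sK n (2 * n - i) = - sK n i := by
  unfold sK
  rw [sub_mul, mul_assoc, sa1_mul hn, Real.sin_two_pi_sub, neg_div]

theorem spi_rec {n : ℕ} (hn : 2 ≤ n) (i : ℝ) (v : ℝ × ℝ) :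
    spi n (i + 1) v = 2 * Real.cos (sth n) * spi n i v - spi n (i - 1) v := by
  have h1 := sK_rec hn i
  have h2 := sK_rec hn (i - 1)
  unfold spi
  rw [show i + 1 - 1 = i by ring, h1]
  rw [show i - 1 + 1 = i by ring] at h2
  rw [h2]
  ring

theorem spi_zero {n : ℕ} (hn : 2 ≤ n) (v : ℝ × ℝ) : spi n 0 v = v.1 := by
  unfold spi
  rw [sK_zero, zero_sub, sK_neg_one hn]
  ring

theorem spi_one {n : ℕ} (hn : 2 ≤ n) (v : ℝ × ℝ) : spi n 1 v = v.2 := by
  unfold spi
  rw [sub_self, sK_zero, sK_one hn]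
  ring

theorem spi_add_half {n : ℕ} (hn : 2 ≤ n) (i : ℝ) (v : ℝ × ℝ) : spi n (i + n) v = - spi n i v := by
  unfold spi
  rw [show i + (n : ℝ) - 1 = (i - 1) + n by ring, sK_add_half hn, sK_add_half hn]
  ring

/-- PROOF.  Pair `j` with `j + n` (`spi_add_half`): `Finset.sum_range_add` / `Finset.range_eq_Ico`, the sum over `range (n + n)` is the sum over `range n` of
`spi (j+1) + spi (j+n+1) = 0`. -/
theorem spi_sum {n : ℕ} (hn : 2 ≤ n) (v : ℝ × ℝ) : ∑ j ∈ Finset.range (2 * n), spi n (j + 1) v = 0 := by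
  rw [two_mul, Finset.sum_range_add, ← Finset.sum_add_distrib]
  refine Finset.sum_eq_zero fun j _ => ?_
  rw [Nat.cast_add, show (n : ℝ) + j + 1 = (j + 1) + n by ring, spi_add_half hn]
  ring

/-- PROOF.  `0 < i π/n < π`. -/
theorem sK_pos {n i : ℕ} (hn : 2 ≤ n) (h0 : 0 < i) (hi : i < n) : 0 < sK n i := by
  have h1 : (0 : ℝ) < i := by exact_mod_cast h0
  have h2 : (i : ℝ) < n := by exact_mod_cast hi
  have h3 := sa1_sth_pos hn
  have h4 := sa1_mul hn
  refine div_pos (Real.sin_pos_of_pos_of_lt_pi (mul_pos h1 h3) ?_) (sin_sth_pos hn)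
  nlinarith

/-- `a_l + a_(l+n) = K_0 + ... + K_(n-1)`.  PROOF.  `a_l = Σ_{i<n} K_i + Σ_{i<n-l} K_(i+n)` (`Finset.sum_range_add` after `2n - l = n + (n - l)`), `K_(i+n) = - K_i`
(`sK_add_half`), `a_(l+n) = Σ_{i<n-l} K_i`. -/
theorem sa_add {n l : ℕ} (hn : 2 ≤ n) (hl : l < n) : sa n l + sa n (l + n) = ∑ i ∈ Finset.range n, sK n i := by
  unfold sa
  rw [show 2 * n - l = n + (n - l) by omega, show 2 * n - (l + n) = n - l by omega,
    Finset.sum_range_add, add_assoc, ← Finset.sum_add_distrib]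
  have h : ∑ x ∈ Finset.range (n - l), (sK n ((n + x : ℕ) : ℝ) + sK n (x : ℝ)) = 0 := by
    refine Finset.sum_eq_zero fun j _ => ?_
    rw [Nat.cast_add, add_comm (n : ℝ) j, sK_add_half hn]
    ring
  rw [h, add_zero]

/-- PROOF.  `K_0 = 0`, `K_1 = 1`, all other terms are positive (`sK_pos`). -/
theorem sa_sum_pos {n : ℕ} (hn : 2 ≤ n) : 0 < ∑ i ∈ Finset.range n, sK n i := by
  refine Finset.sum_pos' (fun i hi => ?_) ⟨1, Finset.mem_range.2 (by omega), ?_⟩
  · rcases Nat.eq_zero_or_pos i with h | h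
    · rw [h, Nat.cast_zero, sK_zero]
    · exact (sK_pos hn h (Finset.mem_range.1 hi)).le
  · exact sK_pos hn one_pos (by omega)

theorem sa1_sin_ne {n l m : ℕ} (hn : 2 ≤ n) (hl : l + 1 < n) (h : m < l) :
    Real.sin (((l : ℝ) - m) * sth n) ≠ 0 := by
  have h1 : (0 : ℝ) < (l : ℝ) - m := by
    have : (m : ℝ) < l := by exact_mod_cast h
    linarith
  have h2 : (l : ℝ) - m < n := by
    have h3 : (l : ℝ) + 1 < n := by exact_mod_cast hl
    have h4 : (0 : ℝ) ≤ m := Nat.cast_nonneg m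
    linarith
  have h3 := sa1_sth_pos hn
  have h4 := sa1_mul hn
  exact (Real.sin_pos_of_pos_of_lt_pi (mul_pos h1 h3) (by nlinarith)).ne'

theorem sa1_cross {n : ℕ} (l m : ℝ) :
    Real.sin (l * sth n) * Real.sin ((m + 1) * sth n) - Real.sin (m * sth n) * Real.sin ((l + 1) * sth n) =
      Real.sin (sth n) * Real.sin ((l - m) * sth n) := by
  rw [show (m + 1) * sth n = m * sth n + sth n by ring,
    show (l + 1) * sth n = l * sth n + sth n by ring,
    show (l - m) * sth n = l * sth n - m * sth n by ring, Real.sin_add, Real.sin_add, Real.sin_sub]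
  ring

/-- The ratios `K_l / K_(l+1)` are distinct.  PROOF.  Suppose `K_l / K_(l+1) = K_m / K_(m+1)`, so `K_l K_(m+1) = K_m K_(l+1)`; but
`sin (lθ) sin ((m+1)θ) - sin (mθ) sin ((l+1)θ) = sin θ sin ((l-m)θ)`, and `sin ((l - m) θ) ≠ 0` for `0 < |l - m| < n`. -/
theorem sK_ratio {n l m : ℕ} (hn : 2 ≤ n) (hl : l + 1 < n) (hm : m + 1 < n)
    (h : sK n l / sK n (l + 1) = sK n m / sK n (m + 1)) : l = m := by
  have hs := sin_sth_pos hn
  have h1 : 0 < sK n ((l : ℝ) + 1) := by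
    have := sK_pos hn (Nat.succ_pos l) hl
    rwa [Nat.succ_eq_add_one, Nat.cast_add, Nat.cast_one] at this
  have h2 : 0 < sK n ((m : ℝ) + 1) := by
    have := sK_pos hn (Nat.succ_pos m) hm
    rwa [Nat.succ_eq_add_one, Nat.cast_add, Nat.cast_one] at this
  rw [div_eq_div_iff h1.ne' h2.ne'] at h
  have h3 : Real.sin (l * sth n) * Real.sin (((m : ℝ) + 1) * sth n) =
      Real.sin (m * sth n) * Real.sin (((l : ℝ) + 1) * sth n) := by
    unfold sK at h
    rw [div_mul_div_comm, div_mul_div_comm] at h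
    exact (div_left_inj' (mul_pos hs hs).ne').1 h
  have h4 := sa1_cross (n := n) (l : ℝ) m
  rw [h3, sub_self] at h4
  have h5 : Real.sin (((l : ℝ) - m) * sth n) = 0 := by
    rcases mul_eq_zero.1 h4.symm with h | h
    · exact absurd h hs.ne'
    · exact h
  rcases lt_trichotomy l m with h6 | h6 | h6
  · exfalso
    have h7 := sa1_sin_ne hn hm h6
    apply h7
    rw [show ((m : ℝ) - l) * sth n = - (((l : ℝ) - m) * sth n) by ring, Real.sin_neg, h5, neg_zero]
  · exact h6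
  · exact absurd h5 (sa1_sin_ne hn hl h6)

end

end Pool.Agent.Lib.H37N
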