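import Pool.Agent.Lib.H37N.SC1
import Pool.Agent.Lib.H37N.SA1

/-! # H37N, chunk SA3 (M): the composition of the blocks of AS2 (S.2) -/

open Set Filter Topology Asymptotics
open scoped ContDiff

namespace Pool.Agent.Lib.H37N

/-- successive states of the composition `B (j-1) ∘ ... ∘ B 0` -/
def st {P : Type} (B : ℕ → P × ℝ × ℝ → ℝ × ℝ) : ℕ → P × ℝ × ℝ → ℝ × ℝ
  | 0, r => r.2
  | j + 1, r => B j (r.1, st B j r)

section general

variable {P : Type} [NormedAddCommGroup P] [NormedSpace ℝ P]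

theorem st_contDiff {B : ℕ → P × ℝ × ℝ → ℝ × ℝ} {N : ℕ} (hB : ∀ j < N, ContDiff ℝ ∞ (B j)) :
    ∀ j ≤ N, ContDiff ℝ ∞ (st B j) := by
  intro j
  induction j with
  | zero =>
    intro _
    show ContDiff ℝ ∞ (fun r : P × ℝ × ℝ => r.2)
    exact contDiff_snd
  | succ j ih =>
    intro hj
    show ContDiff ℝ ∞ (fun r : P × ℝ × ℝ => B j (r.1, st B j r))
    exact (hB j (by omega)).comp (contDiff_fst.prodMk (ih (by omega)))

/-- PROOF.  Induction on `N`.  `N = 0`: `jac (fun v => v) = 1 = exp 0`.  Step: `st B (N+1) (p,v) = B N (p, st B N (p,v))`; `sc_jac_comp` for fixed `p`; the hypothesis `hdet N` is used at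
`(p, st B N (p,v))`, which tends to `(z₀, 0)` as `(p,v) → (z₀,0)` (`st_contDiff`, continuity, `h0 N`); `Real.exp_add`. -/
theorem st_jac {B : ℕ → P × ℝ × ℝ → ℝ × ℝ} {J : ℕ → P × ℝ × ℝ → ℝ} {ρ : P → ℝ} {z₀ : P} (N : ℕ)
    (hB : ∀ j < N, ContDiff ℝ ∞ (B j)) (h0 : ∀ j < N, st B j (z₀, 0) = 0)
    (hdet : ∀ j < N, ∀ᶠ r : P × ℝ × ℝ in 𝓝 (z₀, 0), ρ r.1 ≠ 0 → jac (fun v => B j (r.1, v)) r.2 = Real.exp (ρ r.1 * J j r)) :
    ∀ᶠ r : P × ℝ × ℝ in 𝓝 (z₀, 0), ρ r.1 ≠ 0 → jac (fun v => st B N (r.1, v)) r.2 =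
      Real.exp (ρ r.1 * ∑ j ∈ Finset.range N, J j (r.1, st B j r)) := by
  induction N with
  | zero =>
    refine Eventually.of_forall fun r _ => ?_
    have h1 : (fun v : ℝ × ℝ => st B 0 (r.1, v)) = fun v => v := rfl
    rw [h1, Finset.sum_range_zero, mul_zero, Real.exp_zero]
    unfold jac
    rw [fderiv_fun_id]
    simp
  | succ N ih =>
    have ih' := ih (fun j hj => hB j (by omega)) (fun j hj => h0 j (by omega))
      (fun j hj => hdet j (by omega))
    have hs := st_contDiff hB N (by omega)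
    have hBN := hB N (by omega)
    have ht : Tendsto (fun r : P × ℝ × ℝ => (r.1, st B N r)) (𝓝 (z₀, 0)) (𝓝 (z₀, 0)) := by
      have h1 : Continuous (fun r : P × ℝ × ℝ => (r.1, st B N r)) :=
        continuous_fst.prodMk hs.continuous
      have h2 := h1.tendsto (z₀, 0)
      rw [h0 N (by omega)] at h2
      exact h2
    filter_upwards [ih', ht.eventually (hdet N (by omega))] with r h1 h2 hρ
    have h3 : (fun v : ℝ × ℝ => st B (N + 1) (r.1, v)) =
        fun v => (fun v' => B N (r.1, v')) ((fun v'' => st B N (r.1, v'')) v) := rfl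
    have hg : DifferentiableAt ℝ (fun v'' : ℝ × ℝ => st B N (r.1, v'')) r.2 := by
      have h4 : ContDiff ℝ ∞ (fun v'' : ℝ × ℝ => st B N (r.1, v'')) :=
        hs.comp (contDiff_const.prodMk contDiff_id)
      exact h4.differentiable (by simp) _
    have hf : DifferentiableAt ℝ (fun v' : ℝ × ℝ => B N (r.1, v'))
        ((fun v'' : ℝ × ℝ => st B N (r.1, v'')) r.2) := by
      have h4 : ContDiff ℝ ∞ (fun v' : ℝ × ℝ => B N (r.1, v')) :=
        hBN.comp (contDiff_const.prodMk contDiff_id)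
      exact h4.differentiable (by simp) _
    rw [h3, sc_jac_comp hf hg, h1 hρ]
    have h5 : jac (fun v' : ℝ × ℝ => B N (r.1, v')) ((fun v'' : ℝ × ℝ => st B N (r.1, v'')) r.2) =
        Real.exp (ρ r.1 * J N (r.1, st B N r)) := h2 hρ
    rw [h5, ← Real.exp_add, Finset.sum_range_succ]
    congr 1
    ring

end general

/-- the space of the parameters `q_ji`, `j < 2n`, `i ≤ e` -/
abbrev QQ (n e : ℕ) : Type := Fin (2 * n) → Fin (e + 1) → ℝ

/-- the parameter `q_ji` for natural numbers `j`, `i` (0 outside the range) -/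
def qx {n e : ℕ} (q : QQ n e) (j i : ℕ) : ℝ := if h : j < 2 * n ∧ i < e + 1 then q ⟨j, h.1⟩ ⟨i, h.2⟩ else 0

theorem qx_smul {n e : ℕ} (q : QQ n e) (τ : ℝ) (j i : ℕ) : qx (τ • q) j i = τ * qx q j i := by
  unfold qx
  split_ifs
  · simp
  · simp

/-- every family of coefficients is of the form `qx q` -/
theorem qx_surj {n e : ℕ} (f : ℕ → ℕ → ℝ) : ∃ q : QQ n e, ∀ j < 2 * n, ∀ i < e + 1, qx q j i = f j i := by
  refine ⟨fun j i => f j i, fun j hj i hi => ?_⟩
  unfold qx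
  rw [dif_pos ⟨hj, hi⟩]

/-- the blocks of AS2: smooth, with given values at the parameter `p = 0` -/
structure Blocks {P : Type} [NormedAddCommGroup P] [NormedSpace ℝ P] (n e : ℕ) (s₀ : ℝ) (d : ℕ → ℝ)
    (B : ℕ → (P × QQ n e) × ℝ × ℝ → ℝ × ℝ) (J : ℕ → (P × QQ n e) × ℝ × ℝ → ℝ) : Prop where
  smooth : ∀ j < 2 * n, ContDiff ℝ ∞ (B j)
  smoothJ : ∀ j < 2 * n, ContDiff ℝ ∞ (J j)
  val : ∀ j < 2 * n, ∀ (q : QQ n e) (x u : ℝ), B j ((0, q), (x, u)) =
    (u, -x + 2 * Real.cos (sth n) * u + ∑ i ∈ Finset.range (e + 1), qx q j i * u ^ i)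
  valJ : ∀ j < 2 * n, ∀ (q : QQ n e) (x u : ℝ), J j ((0, q), (x, u)) = s₀ * (u + d (j + 1))

section blocks

variable {P : Type} [NormedAddCommGroup P] [NormedSpace ℝ P] {n e : ℕ} {s₀ : ℝ} {d : ℕ → ℝ}
  {B : ℕ → (P × QQ n e) × ℝ × ℝ → ℝ × ℝ} {J : ℕ → (P × QQ n e) × ℝ × ℝ → ℝ}

/-- PROOF.  Induction on `j`: `spi_zero`, `spi_one`; `val` at `q = 0` (`qx 0 = 0`) and `spi_rec` (at `i = j + 1`). -/
theorem st_zero (hn : 2 ≤ n) (h : Blocks n e s₀ d B J) (v : ℝ × ℝ) : ∀ j ≤ 2 * n,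
    st B j ((0, 0), v) = (spi n j v, spi n (j + 1) v) := by
  intro j
  induction j with
  | zero =>
    intro _
    have h1 : st B 0 (((0 : P), (0 : QQ n e)), v) = v := rfl
    rw [h1, Nat.cast_zero, zero_add, spi_zero hn, spi_one hn]
  | succ j ih =>
    intro hj
    have h1 : st B (j + 1) (((0 : P), (0 : QQ n e)), v) =
      B j (((0 : P), (0 : QQ n e)), st B j (((0 : P), (0 : QQ n e)), v)) := rfl
    rw [h1, ih (by omega), h.val j (by omega)]
    have h2 : ∑ i ∈ Finset.range (e + 1), qx (0 : QQ n e) j i * spi n (j + 1) v ^ i = 0 := by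
      refine Finset.sum_eq_zero fun i _ => ?_
      have h3 := qx_smul (0 : QQ n e) 0 j i
      rw [smul_zero, zero_mul] at h3
      rw [h3, zero_mul]
    rw [h2, add_zero]
    have h4 := spi_rec hn ((j : ℝ) + 1) v
    rw [add_sub_cancel_right] at h4
    push_cast
    rw [h4]
    ext
    · rfl
    · simp only
      ring

/-- PROOF.  Induction on `j`.  `j = 0`: constant.  Step: `st B (j+1) ((0,τ•q),v) = (u, -x + 2cosθ u + τ Σ_i q_ji u^i)` with `(x,u) = st B j ((0,τ•q),v)`; derivative at `τ = 0`: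
`(u', -x' + 2cosθ u' + Σ_i q_ji u(0)^i)`, `u(0) = spi n (j+1) v` (`st_zero`); with `x' = Σ_{l<j} c_l K_(j-1-l)`, `u' = Σ_{l<j} c_l K_(j-l)`, `c_l = Σ_i q_li spi(l+1)^i`:
`u' = Σ_{l<j+1} c_l K_(j-l)` because `K_0 = 0`, and `-x' + 2cosθ u' + c_j = Σ_{l<j+1} c_l K_(j+1-l)` (`sK_rec`, `K_1 = 1`). -/
theorem st_deriv (hn : 2 ≤ n) (h : Blocks n e s₀ d B J) (q : QQ n e) (v : ℝ × ℝ) : ∀ j ≤ 2 * n,
    HasDerivAt (fun τ : ℝ => st B j ((0, τ • q), v))
      (∑ l ∈ Finset.range j, (∑ i ∈ Finset.range (e + 1), qx q l i * spi n (l + 1) v ^ i) •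
        ((sK n ((j : ℝ) - 1 - l), sK n ((j : ℝ) - l)) : ℝ × ℝ)) 0 := by
  intro j
  induction j with
  | zero =>
    intro _
    have h1 : (fun τ : ℝ => st B 0 (((0 : P), τ • q), v)) = fun _ => v := rfl
    rw [h1, Finset.sum_range_zero]
    exact hasDerivAt_const _ _
  | succ j ih =>
    intro hj
    have ih' := ih (by omega)
    have hx := (hasFDerivAt_fst (𝕜 := ℝ) (p := st B j (((0 : P), (0 : ℝ) • q), v))).comp_hasDerivAt 0 ih'
    have hu := (hasFDerivAt_snd (𝕜 := ℝ) (p := st B j (((0 : P), (0 : ℝ) • q), v))).comp_hasDerivAt 0 ih'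
    set X : ℝ → ℝ := fun τ => (st B j (((0 : P), τ • q), v)).1 with hX
    set U : ℝ → ℝ := fun τ => (st B j (((0 : P), τ • q), v)).2 with hU
    have hx' : HasDerivAt X (∑ l ∈ Finset.range j,
        (∑ i ∈ Finset.range (e + 1), qx q l i * spi n (l + 1) v ^ i) * sK n ((j : ℝ) - 1 - l)) 0 := by
      refine HasDerivAt.congr_deriv (f := X) hx ?_
      rw [ContinuousLinearMap.coe_fst', Prod.fst_sum]
      rfl
    have hu' : HasDerivAt U (∑ l ∈ Finset.range j,
        (∑ i ∈ Finset.range (e + 1), qx q l i * spi n (l + 1) v ^ i) * sK n ((j : ℝ) - l)) 0 := by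
      refine HasDerivAt.congr_deriv (f := U) hu ?_
      rw [ContinuousLinearMap.coe_snd', Prod.snd_sum]
      rfl
    have hU0 : U 0 = spi n (j + 1) v := by
      rw [hU]
      simp only [zero_smul]
      rw [st_zero hn h v j (by omega)]
    have hfun : (fun τ : ℝ => st B (j + 1) (((0 : P), τ • q), v)) =
        fun τ => (U τ, -X τ + 2 * Real.cos (sth n) * U τ +
          τ * ∑ i ∈ Finset.range (e + 1), qx q j i * U τ ^ i) := by
      funext τ
      have h1 : st B (j + 1) (((0 : P), τ • q), v) =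
        B j (((0 : P), τ • q), (X τ, U τ)) := rfl
      rw [h1, h.val j (by omega)]
      congr 2
      rw [Finset.mul_sum]
      refine Finset.sum_congr rfl fun i _ => ?_
      rw [qx_smul]
      ring
    have hS : HasDerivAt (fun τ => τ * ∑ i ∈ Finset.range (e + 1), qx q j i * U τ ^ i)
        (∑ i ∈ Finset.range (e + 1), qx q j i * spi n (j + 1) v ^ i) 0 := by
      have h1 : DifferentiableAt ℝ (fun τ => ∑ i ∈ Finset.range (e + 1), qx q j i * U τ ^ i) 0 := by
        refine DifferentiableAt.fun_sum fun i _ => ?_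
        exact (hu'.differentiableAt.pow i).const_mul _
      have h2 := (hasDerivAt_id' (0 : ℝ)).mul h1.hasDerivAt
      rw [zero_mul, add_zero, one_mul, hU0] at h2
      exact h2
    rw [hfun]
    have hfin : HasDerivAt (fun τ => (U τ, -X τ + 2 * Real.cos (sth n) * U τ +
        τ * ∑ i ∈ Finset.range (e + 1), qx q j i * U τ ^ i)) _ 0 :=
      hu'.prodMk ((hx'.neg.add (hu'.const_mul (2 * Real.cos (sth n)))).add hS)
    refine hfin.congr_deriv (Eq.symm ?_)
    rw [Prod.ext_iff]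
    simp only [Prod.fst_sum, Prod.snd_sum, Prod.smul_fst, Prod.smul_snd, smul_eq_mul]
    constructor
    · rw [Finset.sum_range_succ]
      push_cast
      have e1 : (j : ℝ) + 1 - 1 - j = 0 := by ring
      rw [e1, sK_zero, mul_zero, add_zero]
      refine Finset.sum_congr rfl fun l _ => ?_
      congr 2
      ring
    · rw [Finset.sum_range_succ]
      push_cast
      have e1 : (j : ℝ) + 1 - j = 1 := by ring
      rw [e1, sK_one hn, mul_one]
      congr 1
      rw [Finset.mul_sum, ← Finset.sum_neg_distrib, ← Finset.sum_add_distrib]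
      refine Finset.sum_congr rfl fun l _ => ?_
      have h3 := sK_rec hn ((j : ℝ) - l)
      have e2 : (j : ℝ) + 1 - l = (j : ℝ) - l + 1 := by ring
      have e3 : (j : ℝ) - 1 - l = (j : ℝ) - l - 1 := by ring
      rw [e2, e3, h3]
      ring

end blocks

end Pool.Agent.Lib.H37N
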