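import Pool.Agent.Lib.H37N.IPar

/-! # H37N, chunk I0b (S/M): the pass from the chart at P to the chart at Q -/

open Set Filter Topology
open scoped ContDiff

namespace Pool.Agent.Lib.H37N

theorem i0b_mu_gt {i : Sy} {mu : ℝ} (h : mu ∈ muR i) : 1 < mu := by
  cases i
  · simp only [muR, mem_Ioo] at h; linarith [h.1]
  · simp only [muR, mem_Ioo] at h; linarith [h.1]

/-- iteration in a linear chart.

PROOF. Induction on j ≤ n: g^[j] (κ(x,y)) = κ(lam^j x, mu^j y): |lam^j x| ≤ |x| < 2, and |mu^(j+1) y| ≤ |mu^n y| < 2 for j < n (mu > 1).  The point (lam^j x, mu^j y) is in Bx, so its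
image is in interior (VV i) ⊆ VO (`LinChart.sub`). -/
theorem lin_iter {g : Pt → Pt} {i : Sy} {κ c : Pt → Pt} {lam mu : ℝ} (h : LinChart g i κ c lam mu) {x y : ℝ} (n : ℕ)
    (hx : |x| < 2) (hy : |mu ^ n * y| < 2) :
    (∀ j ≤ n, g^[j] (κ (x, y)) = κ (lam ^ j * x, mu ^ j * y) ∧ (lam ^ j * x, mu ^ j * y) ∈ Bx ∧ g^[j] (κ (x, y)) ∈ VO) := by
  have hmu : 1 < mu := i0b_mu_gt h.mu_mem
  have hmu0 : 0 < mu := by linarith
  have hl1 := h.lam_mem.1
  have hl2 := h.lam_mem.2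
  have hl0 : 0 < lam := by linarith
  have hX : ∀ j : ℕ, |lam ^ j * x| < 2 := by
    intro j
    rw [abs_mul, abs_of_pos (pow_pos hl0 j)]
    have : lam ^ j ≤ 1 := pow_le_one₀ hl0.le (by linarith)
    nlinarith [abs_nonneg x]
  have hY : ∀ j : ℕ, j ≤ n → |mu ^ j * y| < 2 := by
    intro j hj
    rw [abs_mul, abs_of_pos (pow_pos hmu0 j)]
    rw [abs_mul, abs_of_pos (pow_pos hmu0 n)] at hy
    have : mu ^ j ≤ mu ^ n := pow_le_pow_right₀ hmu.le hj
    nlinarith [abs_nonneg y]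
  have hB : ∀ j : ℕ, j ≤ n → (lam ^ j * x, mu ^ j * y) ∈ Bx := by
    intro j hj
    have h1 := abs_lt.1 (hX j)
    have h2 := abs_lt.1 (hY j hj)
    exact ⟨⟨h1.1, h1.2⟩, ⟨h2.1, h2.2⟩⟩
  have hI : ∀ j : ℕ, j ≤ n → g^[j] (κ (x, y)) = κ (lam ^ j * x, mu ^ j * y) := by
    intro j
    induction j with
    | zero => intro _; simp
    | succ j ih =>
      intro hj
      rw [Function.iterate_succ_apply', ih (by omega)]
      have h3 : |mu * (mu ^ j * y)| < 2 := by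
        have := hY (j + 1) hj
        rw [pow_succ'] at this
        rwa [← mul_assoc]
      rw [h.lin _ _ (hX j) h3]
      congr 1
      ext
      · simp only; ring
      · simp only; ring
  intro j hj
  refine ⟨hI j hj, hB j hj, ?_⟩
  rw [hI j hj]
  have := h.sub (mem_image_of_mem κ (hB j hj))
  unfold VO
  cases i
  · exact Or.inl this
  · exact Or.inr this

/-- I.0: the path of the pass.

PROOF. r ≤ 1 such that for |σ|, |t| < r the eventual statements `SData.path`, `SData.back` hold at (σ,t) (sup norm: a ball of the plane).  w = (X,y), σ = lam_P^n X, t = mu_P^n y - uS.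
|mu_P^n y| ≤ |uS| + |t| < 2, so `lin_iter` at P: g^[j] (κ_P w) ∈ VO for j ≤ n, g^[n] (κ_P w) = κ_P(σ, uS + t).  `path`: g^[j] of it is in VO for j ≤ kS; `back`: g^[kS] of it = κ_Q(S(σ,t)),
S(σ,t) ∈ Bx.  `lin_iter` at Q with x = S₁, y = S₂ (|S₁| < 2, |mu_Q^ν S₂| < 2): the points are in VO for j ≤ ν, and g^[ν] (κ_Q (S(σ,t))) = κ_Q(lam_Q^ν S₁, mu_Q^ν S₂) = κ_Q (mid ..).
An index i ≤ n + kS + ν is split with `Function.iterate_add_apply`. -/
theorem pass_path {g : Pt → Pt} {F : Fr} (hF : IsFr g F) :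
    ∃ r > (0 : ℝ), ∀ (n ν : ℕ) (w : Pt), |w.1| < 2 → |F.lam Sy.P ^ n * w.1| < r → |F.mu Sy.P ^ n * w.2 - F.uS| < r →
      |(mid (F.lam Sy.P) (F.mu Sy.P) (F.lam Sy.Q) (F.mu Sy.Q) F.uS (SM g (F.κ Sy.P) (F.c Sy.Q) F.kS F.uS) n ν w).2| < 2 →
      (∀ i ≤ n + F.kS + ν, g^[i] (F.κ Sy.P w) ∈ VO) ∧
      g^[n + F.kS + ν] (F.κ Sy.P w) =
        F.κ Sy.Q (mid (F.lam Sy.P) (F.mu Sy.P) (F.lam Sy.Q) (F.mu Sy.Q) F.uS (SM g (F.κ Sy.P) (F.c Sy.Q) F.kS F.uS) n ν w) ∧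
      mid (F.lam Sy.P) (F.mu Sy.P) (F.lam Sy.Q) (F.mu Sy.Q) F.uS (SM g (F.κ Sy.P) (F.c Sy.Q) F.kS F.uS) n ν w ∈ Bx := by
  have hev := hF.sdata.path.and hF.sdata.back
  obtain ⟨r0, hr0, hball⟩ := Metric.eventually_nhds_iff_ball.1 hev
  refine ⟨min r0 1, lt_min hr0 one_pos, ?_⟩
  intro n ν w hw1 hX hY hM
  have hX0 := lt_of_lt_of_le hX (min_le_left _ _)
  have hY0 := lt_of_lt_of_le hY (min_le_left _ _)
  have hY1 := lt_of_lt_of_le hY (min_le_right _ _)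
  set v : Pt := (F.lam Sy.P ^ n * w.1, F.mu Sy.P ^ n * w.2 - F.uS) with hv
  have hvb : v ∈ Metric.ball (0 : Pt) r0 := by
    rw [mem_ball_zero_iff, Prod.norm_def, max_lt_iff, Real.norm_eq_abs, Real.norm_eq_abs]
    exact ⟨hX0, hY0⟩
  obtain ⟨hpath, hback1, hback2⟩ := hball v hvb
  have hmuy : |F.mu Sy.P ^ n * w.2| < 2 := by
    have h1 := hF.sdata.u_lt
    have h2 : |F.mu Sy.P ^ n * w.2| ≤ |F.mu Sy.P ^ n * w.2 - F.uS| + |F.uS| := by
      have := abs_add_le (F.mu Sy.P ^ n * w.2 - F.uS) F.uS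
      rwa [sub_add_cancel] at this
    linarith
  have hP := lin_iter (hF.chart Sy.P) (x := w.1) (y := w.2) n hw1 hmuy
  set s : Pt := SM g (F.κ Sy.P) (F.c Sy.Q) F.kS F.uS v with hs
  have hs1 : |s.1| < 2 := abs_lt.2 ⟨hback1.1.1, hback1.1.2⟩
  have hmid : mid (F.lam Sy.P) (F.mu Sy.P) (F.lam Sy.Q) (F.mu Sy.Q) F.uS (SM g (F.κ Sy.P) (F.c Sy.Q) F.kS F.uS) n ν w =
      (F.lam Sy.Q ^ ν * s.1, F.mu Sy.Q ^ ν * s.2) := rfl
  rw [hmid] at hM ⊢
  have hQ := lin_iter (hF.chart Sy.Q) (x := s.1) (y := s.2) ν hs1 hM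
  have hn : g^[n] (F.κ Sy.P w) = F.κ Sy.P (v.1, F.uS + v.2) := by
    have := (hP n le_rfl).1
    rw [Prod.mk.eta] at this
    rw [this, hv]
    congr 1
    ext
    · rfl
    · simp only; ring
  have hk : g^[n + F.kS] (F.κ Sy.P w) = F.κ Sy.Q s := by
    rw [Nat.add_comm n F.kS, Function.iterate_add_apply, hn, ← hback2]
  refine ⟨?_, ?_, (hQ ν le_rfl).2.1⟩
  · intro i hi
    rcases Nat.lt_or_ge n i with h1 | h1
    · rcases Nat.lt_or_ge (n + F.kS) i with h2 | h2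
      · obtain ⟨j, rfl⟩ : ∃ j, i = j + (n + F.kS) := ⟨i - (n + F.kS), by omega⟩
        rw [Function.iterate_add_apply, hk]
        have := (hQ j (by omega)).2.2
        rwa [Prod.mk.eta] at this
      · obtain ⟨j, rfl⟩ : ∃ j, i = j + n := ⟨i - n, by omega⟩
        rw [Function.iterate_add_apply, hn]
        exact hpath j (by omega)
    · have := (hP i h1).2.2
      rwa [Prod.mk.eta] at this
  · have e1 : n + F.kS + ν = ν + (n + F.kS) := by omega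
    rw [e1, Function.iterate_add_apply, hk]
    have := (hQ ν le_rfl).1
    rwa [Prod.mk.eta] at this

end Pool.Agent.Lib.H37N
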