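import Pool.Agent.Lib.H37N.MDefs
import Pool.Agent.Lib.H37C.D1

/-!
# H37N MK1 (size M): big charts, extension of compactly supported diffeomorphisms
-/

open Set Filter Topology
open scoped ContDiff Manifold
open Pool.Agent.Lib.Helper37.ConjBorel Pool.Agent.Lib.H37C

namespace Pool.Agent.Lib.H37N

variable {M : Type*} [TopologicalSpace M] [ChartedSpace (Euc 2) M]

/-- Proof. As `H37C.exists_chart` (D1) with `W = univ` and the affine homeomorphism `y ↦ (R / ρ) • (y - e₀ p)`, `R > 0`,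
`‖LL.symm z‖ ≤ R` for `‖z‖ ≤ r` (`R = ‖LL.symm‖ * |r| + 1`), instead of `(2 / ρ) • (y - e₀ p)` (copy the proof). -/
theorem exists_bigC [IsManifold (𝓡 2) ∞ M] [Nonempty M] (r : ℝ) :
    ∃ e : OpenPartialHomeomorph M (Euc 2), BigC e r := by
  obtain ⟨p⟩ := (inferInstance : Nonempty M)
  set e₀ := chartAt (Euc 2) p with he₀
  have h₀ : e₀ ∈ (contDiffGroupoid ∞ (𝓡 2)).maximalAtlas M := IsManifold.chart_mem_maximalAtlas p
  have hp₀ : p ∈ e₀.source := mem_chart_source _ _
  obtain ⟨ρ, hρ, hball⟩ := Metric.nhds_basis_closedBall.mem_iff.1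
    (e₀.open_target.mem_nhds (e₀.map_source hp₀))
  set R : ℝ := ‖(LL.symm : Pt →L[ℝ] Euc 2)‖ * |r| + 1 with hR
  have hRpos : 0 < R := by positivity
  let a : Euc 2 ≃ₜ Euc 2 :=
    { toFun := fun y => (R / ρ) • (y - e₀ p)
      invFun := fun y => (ρ / R) • y + e₀ p
      left_inv := fun y => by
        simp only [smul_smul]
        rw [show ρ / R * (R / ρ) = 1 by field_simp, one_smul, sub_add_cancel]
      right_inv := fun y => by
        simp only [add_sub_cancel_right, smul_smul]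
        rw [show R / ρ * (ρ / R) = 1 by field_simp, one_smul]
      continuous_toFun := by fun_prop
      continuous_invFun := by fun_prop }
  have ha : a.toOpenPartialHomeomorph ∈ contDiffGroupoid ∞ (𝓡 2) := by
    rw [contDiffGroupoid, mem_groupoid_of_pregroupoid]
    constructor
    · show ContDiffOn ℝ ∞ _ _
      have : ContDiff ℝ ∞ (fun y : Euc 2 => (R / ρ) • (y - e₀ p)) := by fun_prop
      exact this.contDiffOn
    · show ContDiffOn ℝ ∞ _ _
      have : ContDiff ℝ ∞ (fun y : Euc 2 => (ρ / R) • y + e₀ p) := by fun_prop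
      exact this.contDiffOn
  have ha' : a.toOpenPartialHomeomorph.symm ∈ contDiffGroupoid ∞ (𝓡 2) :=
    StructureGroupoid.symm _ ha
  refine ⟨e₀.trans a.toOpenPartialHomeomorph, ?_, ?_⟩
  · show _ ∈ (contDiffGroupoid ∞ (𝓡 2)).maximalAtlas M
    rw [mem_maximalAtlas_iff] at h₀ ⊢
    intro e' he'
    obtain ⟨h1, h2⟩ := h₀ e' he'
    constructor
    · rw [OpenPartialHomeomorph.trans_symm_eq_symm_trans_symm, OpenPartialHomeomorph.trans_assoc]
      exact StructureGroupoid.trans _ ha' h1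
    · rw [← OpenPartialHomeomorph.trans_assoc]
      exact StructureGroupoid.trans _ h2 ha
  · intro z hz
    rw [OpenPartialHomeomorph.trans_target]
    refine ⟨mem_univ _, ?_⟩
    show (ρ / R) • LL.symm z + e₀ p ∈ e₀.target
    apply hball
    rw [Metric.mem_closedBall, dist_eq_norm, add_sub_cancel_right, norm_smul, Real.norm_eq_abs,
      abs_of_pos (by positivity)]
    have h1 : ‖LL.symm z‖ ≤ R := by
      have h2 := (LL.symm : Pt →L[ℝ] Euc 2).le_opNorm z
      have h3 : ‖(LL.symm : Pt →L[ℝ] Euc 2)‖ * ‖z‖ ≤ ‖(LL.symm : Pt →L[ℝ] Euc 2)‖ * |r| := by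
        gcongr
        exact hz.trans (le_abs_self r)
      have h4 : ‖LL.symm z‖ ≤ ‖(LL.symm : Pt →L[ℝ] Euc 2)‖ * ‖z‖ := h2
      linarith
    calc ρ / R * ‖LL.symm z‖ ≤ ρ / R * R := by gcongr
      _ = ρ := by field_simp

section ExtK

variable {n : ℕ} {N : Type*} [TopologicalSpace N] [ChartedSpace (Euc n) N]

theorem mk1_off {e : OpenPartialHomeomorph N (Euc n)} {K : Set (Euc n)} {ψ : Euc n → Euc n}
    (hψK : ∀ x, x ∉ K → ψ x = x) {z : N} (hz : z ∉ e.symm '' K) : ext e ψ z = z := by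
  by_cases h : z ∈ e.source
  · rw [ext_of_mem h]
    by_cases h2 : e z ∈ K
    · exact absurd ⟨e z, h2, e.left_inv h⟩ hz
    · rw [hψK _ h2, e.left_inv h]
  · exact ext_of_notMem h

theorem mk1_target {e : OpenPartialHomeomorph N (Euc n)} {K : Set (Euc n)}
    (hKe : K ⊆ e.target) {ψ : Euc n → Euc n} (hψK : ∀ x, x ∉ K → ψ x = x)
    (hψi : Function.Injective ψ) {x : Euc n} (hx : x ∈ e.target) : ψ x ∈ e.target := by
  by_cases h : x ∈ K
  · apply hKe
    by_contra h2
    have h3 := hψi (hψK (ψ x) h2)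
    rw [h3] at h2
    exact h2 h
  · rw [hψK x h]
    exact hx

theorem mk1_comp {e : OpenPartialHomeomorph N (Euc n)} {K : Set (Euc n)}
    (hKe : K ⊆ e.target) {ψ g : Euc n → Euc n} (hψK : ∀ x, x ∉ K → ψ x = x)
    (h1 : ∀ x, g (ψ x) = x) (z : N) : ext e g (ext e ψ z) = z := by
  by_cases h : z ∈ e.source
  · have h2 := mk1_target hKe hψK (Function.LeftInverse.injective h1) (e.map_source h)
    have h3 := e.map_target h2
    rw [ext_of_mem h, ext_of_mem h3, e.right_inv h2, h1, e.left_inv h]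
  · rw [ext_of_notMem h, ext_of_notMem h]

theorem mk1_smooth [T2Space N] [IsManifold (𝓡 n) ∞ N] {e : OpenPartialHomeomorph N (Euc n)}
    (he : e ∈ IsManifold.maximalAtlas (𝓡 n) ∞ N) {K : Set (Euc n)} (hK : IsCompact K)
    (hKe : K ⊆ e.target) {ψ : Euc n → Euc n} (hψ : ContDiff ℝ ∞ ψ)
    (hψK : ∀ x, x ∉ K → ψ x = x) (hψi : Function.Injective ψ) :
    ContMDiff (𝓡 n) (𝓡 n) ∞ (ext e ψ) := by
  have hcl : IsClosed (e.symm '' K) :=
    (hK.image_of_continuousOn (e.continuousOn_symm.mono hKe)).isClosed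
  intro z
  by_cases h : z ∈ e.source
  · have h1 : ContMDiffAt (𝓡 n) (𝓡 n) ∞ (fun z => e.symm (ψ (e z))) z := by
      have h2 : ContMDiffAt (𝓡 n) (𝓡 n) ∞ ψ (e z) := hψ.contMDiff.contMDiffAt
      have h3 : ContMDiffAt (𝓡 n) (𝓡 n) ∞ e z :=
        (contMDiffOn_of_mem_maximalAtlas he).contMDiffAt (e.open_source.mem_nhds h)
      have h4 : ContMDiffAt (𝓡 n) (𝓡 n) ∞ e.symm (ψ (e z)) :=
        (contMDiffOn_symm_of_mem_maximalAtlas he).contMDiffAt
          (e.open_target.mem_nhds (mk1_target hKe hψK hψi (e.map_source h)))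
      exact h4.comp z (h2.comp z h3)
    refine h1.congr_of_eventuallyEq ?_
    filter_upwards [e.open_source.mem_nhds h] with w hw
    exact ext_of_mem hw
  · have hz : z ∉ e.symm '' K := by
      rintro ⟨x, hx, rfl⟩
      exact h (e.map_target (hKe hx))
    refine contMDiffAt_id.congr_of_eventuallyEq ?_
    filter_upwards [hcl.isOpen_compl.mem_nhds hz] with w hw
    exact mk1_off hψK hw

end ExtK

/-- Proof. Copy of `exists_diff` of `H37C/E1.lean` with the compact set `K ⊆ e.target` instead of the closed ball of radius `2`: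
`e.symm '' K` is compact, so closed; `ψ` and `g` map `K` to `K` (bijections equal to the identity off `K`). -/
theorem exists_diffK {n : ℕ} {M : Type*} [TopologicalSpace M] [ChartedSpace (Euc n) M] [T2Space M]
    [IsManifold (𝓡 n) ∞ M] {e : OpenPartialHomeomorph M (Euc n)}
    (he : e ∈ IsManifold.maximalAtlas (𝓡 n) ∞ M) {K : Set (Euc n)} (hK : IsCompact K)
    (hKe : K ⊆ e.target) {ψ g : Euc n → Euc n} (hψ : ContDiff ℝ ∞ ψ) (hg : ContDiff ℝ ∞ g)
    (h1 : ∀ x, g (ψ x) = x) (h2 : ∀ x, ψ (g x) = x) (hψK : ∀ x, x ∉ K → ψ x = x) :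
    ∃ G : DiffInf n M, ∀ z, G z = ext e ψ z := by
  have hgK : ∀ x, x ∉ K → g x = x := fun x hx => by
    rw [← hψK x hx, h1, hψK x hx]
  exact ⟨{ toFun := ext e ψ
           invFun := ext e g
           left_inv := mk1_comp hKe hψK h1
           right_inv := mk1_comp hKe hgK h2
           contMDiff_toFun := mk1_smooth he hK hKe hψ hψK (Function.LeftInverse.injective h1)
           contMDiff_invFun := mk1_smooth he hK hKe hg hgK (Function.LeftInverse.injective h2) },
    fun z => rfl⟩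

end Pool.Agent.Lib.H37N
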