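import Pool.Agent.Lib.H37N.MM1

/-!
# H37N MK7 (size M, pure): maps close to the model are near
-/

open Set Filter Topology
open scoped ContDiff

namespace Pool.Agent.Lib.H37N

theorem mk7_aff (i : Sy) (z : Pt) : HasFDerivAt (Aff i) (dg (1 / pw i) (qw i)) z := by
  have h1 : HasFDerivAt (fun z : Pt => (z.1 - al i) / pw i) ((1 / pw i) • ContinuousLinearMap.fst ℝ ℝ ℝ) z := by
    have h := ((hasFDerivAt_fst (𝕜 := ℝ) (p := z)).sub_const (al i)).const_mul (1 / pw i)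
    refine h.congr_of_eventuallyEq (Eventually.of_forall fun y => ?_)
    simp only
    ring
  have h2 : HasFDerivAt (fun z : Pt => be i + qw i * z.2) ((qw i) • ContinuousLinearMap.snd ℝ ℝ ℝ) z := by
    exact ((hasFDerivAt_snd (𝕜 := ℝ) (p := z)).const_mul (qw i)).const_add (be i)
  exact h1.prodMk h2

theorem mk7_fold (z : Pt) : HasFDerivAt Fold
    ((cc • ContinuousLinearMap.snd ℝ ℝ ℝ - (2 * dd * (z.1 - xc)) • ContinuousLinearMap.fst ℝ ℝ ℝ).prod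
      (-ContinuousLinearMap.fst ℝ ℝ ℝ)) z := by
  have hx : HasFDerivAt (fun z : Pt => z.1 - xc) (ContinuousLinearMap.fst ℝ ℝ ℝ) z :=
    (hasFDerivAt_fst (𝕜 := ℝ) (p := z)).sub_const xc
  have h1 : HasFDerivAt (fun z : Pt => 1 / 2 + cc * (z.2 - 1 / 2) - dd * (z.1 - xc) ^ 2)
      (cc • ContinuousLinearMap.snd ℝ ℝ ℝ - (2 * dd * (z.1 - xc)) • ContinuousLinearMap.fst ℝ ℝ ℝ) z := by
    have ha : HasFDerivAt (fun z : Pt => 1 / 2 + cc * (z.2 - 1 / 2)) (cc • ContinuousLinearMap.snd ℝ ℝ ℝ) z :=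
      (((hasFDerivAt_snd (𝕜 := ℝ) (p := z)).sub_const (1 / 2)).const_mul cc).const_add (1 / 2)
    have hb : HasFDerivAt (fun z : Pt => dd * (z.1 - xc) ^ 2)
        ((2 * dd * (z.1 - xc)) • ContinuousLinearMap.fst ℝ ℝ ℝ) z := by
      have h := (hx.mul hx).const_mul dd
      have e : dd • ((z.1 - xc) • ContinuousLinearMap.fst ℝ ℝ ℝ + (z.1 - xc) • ContinuousLinearMap.fst ℝ ℝ ℝ) =
          (2 * dd * (z.1 - xc)) • ContinuousLinearMap.fst ℝ ℝ ℝ := by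
        rw [← add_smul, smul_smul]
        congr 1
        ring
      rw [e] at h
      refine h.congr_of_eventuallyEq (Eventually.of_forall fun y => ?_)
      show dd * (y.1 - xc) ^ 2 = dd * ((y.1 - xc) * (y.1 - xc))
      ring
    exact ha.sub hb
  have h2 : HasFDerivAt (fun z : Pt => yc - (z.1 - xc)) (-ContinuousLinearMap.fst ℝ ℝ ℝ) z :=
    hx.const_sub yc
  exact h1.prodMk h2

theorem mk7_entry (A B : Pt →L[ℝ] Pt) {e : ℝ} (h : ‖A - B‖ ≤ e) (v : Pt) (hv : ‖v‖ = 1) :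
    |(A v).1 - (B v).1| ≤ e ∧ |(A v).2 - (B v).2| ≤ e := by
  have h1 := (A - B).le_opNorm v
  rw [hv, mul_one] at h1
  have h2 := norm_fst_le ((A - B) v)
  have h3 := norm_snd_le ((A - B) v)
  simp only [sub_apply, Prod.fst_sub, Prod.snd_sub, Real.norm_eq_abs] at h1 h2 h3
  exact ⟨h2.trans (h1.trans h), h3.trans (h1.trans h)⟩

theorem mk7_n1 : ‖((1 : ℝ), (0 : ℝ))‖ = 1 := by simp [Prod.norm_def]

theorem mk7_n2 : ‖((0 : ℝ), (1 : ℝ))‖ = 1 := by simp [Prod.norm_def]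

/-- Proof. `O' = {z ∈ O | 0 < jac g z}` is open (`jac g` is continuous on `O`). On the compact sets: near a point of `VV i` `Fs` is the affine map
`Aff i` with derivative `(u, v) ↦ (u / pw i, qw i v)`, second derivative `0`; near a point of `FF` it is `Fold` with derivative
`(1,0) ↦ (-2 dd (x - xc), -1)`, `(0,1) ↦ (cc, 0)`. `close0, close1, fold0, fold1`: components of `h0`, `h1` (each entry of a linear map is
bounded by its norm, `‖(1,0)‖ = ‖(0,1)‖ = 1`). `jac g > 0` on `VV i`: entries within `e0` of `1/pw i, 0, 0, qw i`; on `FF`: entries `a, c, b, d` within `e0` of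
`-2 dd u, -1, cc, 0`, `|2 dd u| ≤ 1250`: `a d - c b ≥ 1/2 - 2000 e0 > 0`. So `VV ∪ FF ⊆ O'`. `lip`: on the convex set `VV i ⊆ O` the derivative of
`fderiv ℝ g` has norm `‖iteratedFDeriv ℝ 2 g z‖ ≤ e0` (`norm_iteratedFDeriv_fderiv`, `norm_iteratedFDeriv_one`; `iteratedFDeriv ℝ 2 Fs z = 0` for
`z ∈ VV i`): mean value inequality `Convex.norm_image_sub_le_of_norm_fderiv_le` (with `HasFDerivAt` version on the convex set). -/
theorem near_of_close {g Fs : Pt → Pt} (hV : ∀ i, ∀ᶠ z in 𝓝ˢ (VV i), Fs z = Aff i z)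
    (hF : ∀ᶠ z in 𝓝ˢ FF, Fs z = Fold z) {O : Set Pt} (hO : IsOpen O)
    (hsub : VV Sy.P ∪ VV Sy.Q ∪ FF ⊆ O) (hg : ContDiffOn ℝ ∞ g O) (hinj : InjOn g O)
    (h0 : ∀ z ∈ VV Sy.P ∪ VV Sy.Q ∪ FF, ‖g z - Fs z‖ ≤ e0)
    (h1 : ∀ z ∈ VV Sy.P ∪ VV Sy.Q ∪ FF, ‖fderiv ℝ g z - fderiv ℝ Fs z‖ ≤ e0)
    (h2 : ∀ i, ∀ z ∈ VV i, ‖iteratedFDeriv ℝ 2 g z - iteratedFDeriv ℝ 2 Fs z‖ ≤ e0) : Near g := by
  have hVi : ∀ i, VV i ⊆ VV Sy.P ∪ VV Sy.Q ∪ FF := by
    intro i z hz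
    cases i with
    | P => exact Or.inl (Or.inl hz)
    | Q => exact Or.inl (Or.inr hz)
  have hFi : FF ⊆ VV Sy.P ∪ VV Sy.Q ∪ FF := fun z hz => Or.inr hz
  have hVz : ∀ i, ∀ z ∈ VV i, ∀ᶠ y in 𝓝 z, Fs y = Aff i y := fun i z hz =>
    eventually_nhdsSet_iff_forall.1 (hV i) z hz
  have hFz : ∀ z ∈ FF, ∀ᶠ y in 𝓝 z, Fs y = Fold y := fun z hz => eventually_nhdsSet_iff_forall.1 hF z hz
  have hVd : ∀ i, ∀ z ∈ VV i, fderiv ℝ Fs z = dg (1 / pw i) (qw i) := fun i z hz => by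
    have h : Fs =ᶠ[𝓝 z] Aff i := hVz i z hz
    rw [h.fderiv_eq, (mk7_aff i z).fderiv]
  have hFd : ∀ z ∈ FF, fderiv ℝ Fs z =
      (cc • ContinuousLinearMap.snd ℝ ℝ ℝ - (2 * dd * (z.1 - xc)) • ContinuousLinearMap.fst ℝ ℝ ℝ).prod
      (-ContinuousLinearMap.fst ℝ ℝ ℝ) := fun z hz => by
    have h : Fs =ᶠ[𝓝 z] Fold := hFz z hz
    rw [h.fderiv_eq, (mk7_fold z).fderiv]
  have he0 : (0 : ℝ) < e0 := by unfold e0; norm_num
  have hclose1 : ∀ i, ∀ z ∈ VV i, |(fderiv ℝ g z (1, 0)).1 - 1 / pw i| ≤ e0 ∧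
    |(fderiv ℝ g z (1, 0)).2| ≤ e0 ∧ |(fderiv ℝ g z (0, 1)).1| ≤ e0 ∧
    |(fderiv ℝ g z (0, 1)).2 - qw i| ≤ e0 := by
    intro i z hz
    have ha := mk7_entry _ _ (h1 z (hVi i hz)) (1, 0) mk7_n1
    have hb := mk7_entry _ _ (h1 z (hVi i hz)) (0, 1) mk7_n2
    rw [hVd i z hz] at ha hb
    simp only [dg_apply, mul_zero, mul_one, sub_zero] at ha hb
    exact ⟨ha.1, ha.2, hb.1, hb.2⟩
  have hfold1 : ∀ z ∈ FF, |(fderiv ℝ g z (0, 1)).1 - cc| ≤ e0 ∧ |(fderiv ℝ g z (0, 1)).2| ≤ e0 := by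
    intro z hz
    have hb := mk7_entry _ _ (h1 z (hFi hz)) (0, 1) mk7_n2
    rw [hFd z hz] at hb
    simpa using hb
  have hfold2 : ∀ z ∈ FF, |(fderiv ℝ g z (1, 0)).1 + 2 * dd * (z.1 - xc)| ≤ e0 ∧
      |(fderiv ℝ g z (1, 0)).2 + 1| ≤ e0 := by
    intro z hz
    have hb := mk7_entry _ _ (h1 z (hFi hz)) (1, 0) mk7_n1
    rw [hFd z hz] at hb
    simpa using hb
  have hcd : ∀ z ∈ O, ContDiffAt ℝ ∞ g z := fun z hz => hg.contDiffAt (hO.mem_nhds hz)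
  refine ⟨⟨O ∩ {z | 0 < (fderiv ℝ g z (1, 0)).1 * (fderiv ℝ g z (0, 1)).2 -
      (fderiv ℝ g z (1, 0)).2 * (fderiv ℝ g z (0, 1)).1}, ?_, ?_, hg.mono inter_subset_left,
      hinj.mono inter_subset_left, fun z hz => hz.2⟩, ?_, hclose1, ?_, ?_, hfold1⟩
  · have hc : ContinuousOn (fderiv ℝ g) O := hg.continuousOn_fderiv_of_isOpen hO (by simp)
    have hc1 : ContinuousOn (fun z => fderiv ℝ g z (1, 0)) O := hc.clm_apply continuousOn_const
    have hc2 : ContinuousOn (fun z => fderiv ℝ g z (0, 1)) O := hc.clm_apply continuousOn_const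
    have hc3 : ContinuousOn (fun z => (fderiv ℝ g z (1, 0)).1 * (fderiv ℝ g z (0, 1)).2 -
      (fderiv ℝ g z (1, 0)).2 * (fderiv ℝ g z (0, 1)).1) O :=
      (hc1.fst.mul hc2.snd).sub (hc1.snd.mul hc2.fst)
    exact hc3.isOpen_inter_preimage hO isOpen_Ioi
  · intro z hz
    refine ⟨hsub hz, ?_⟩
    have hVpos : ∀ i, z ∈ VV i → 0 < (fderiv ℝ g z (1, 0)).1 * (fderiv ℝ g z (0, 1)).2 -
      (fderiv ℝ g z (1, 0)).2 * (fderiv ℝ g z (0, 1)).1 := by
      intro i hi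
      obtain ⟨ha, hb, hc, hd⟩ := hclose1 i z hi
      rw [abs_le] at ha hb hc hd
      have hp : 1 ≤ 1 / pw i := by
        cases i <;> norm_num [pw]
      have hq : (1 : ℝ) / 4 ≤ qw i := by
        cases i <;> norm_num [qw]
      have he : e0 ≤ 1 / 100 := by unfold e0; norm_num
      have h3 : (99 : ℝ) / 100 ≤ (fderiv ℝ g z (1, 0)).1 := by linarith
      have h4 : (24 : ℝ) / 100 ≤ (fderiv ℝ g z (0, 1)).2 := by linarith
      have h5 : (fderiv ℝ g z (1, 0)).2 * (fderiv ℝ g z (0, 1)).1 ≤ 1 / 100 * (1 / 100) := by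
        have e1 : |(fderiv ℝ g z (1, 0)).2| ≤ 1 / 100 := abs_le.2 ⟨by linarith, by linarith⟩
        have e2 : |(fderiv ℝ g z (0, 1)).1| ≤ 1 / 100 := abs_le.2 ⟨by linarith, by linarith⟩
        calc _ ≤ |(fderiv ℝ g z (1, 0)).2 * (fderiv ℝ g z (0, 1)).1| := le_abs_self _
          _ = |(fderiv ℝ g z (1, 0)).2| * |(fderiv ℝ g z (0, 1)).1| := abs_mul _ _
          _ ≤ _ := mul_le_mul e1 e2 (abs_nonneg _) (by norm_num)
      nlinarith
    rcases hz with (hz | hz) | hz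
    · exact hVpos _ hz
    · exact hVpos _ hz
    · obtain ⟨hb, hd⟩ := hfold1 z hz
      obtain ⟨ha, hc⟩ := hfold2 z hz
      have hu : |2 * dd * (z.1 - xc)| ≤ 1250 := by
        have h3 := hz.1
        rw [mem_Icc] at h3
        unfold u0 at h3
        unfold dd
        rw [abs_le]
        constructor <;> linarith
      have he : e0 ≤ 1 / 10 ^ 6 := by unfold e0; norm_num
      rw [abs_le] at ha hb hc hu
      unfold cc at hb
      have e1 : |(fderiv ℝ g z (1, 0)).1| ≤ 1251 := abs_le.2 ⟨by linarith, by linarith⟩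
      have h5 : -(1251 * (1 / 10 ^ 6)) ≤ (fderiv ℝ g z (1, 0)).1 * (fderiv ℝ g z (0, 1)).2 := by
        have h6 : |(fderiv ℝ g z (1, 0)).1 * (fderiv ℝ g z (0, 1)).2| ≤ 1251 * (1 / 10 ^ 6) := by
          rw [abs_mul]
          exact mul_le_mul e1 (hd.trans he) (abs_nonneg _) (by norm_num)
        exact (abs_le.1 h6).1
      have h7 : (99 : ℝ) / 100 ≤ -(fderiv ℝ g z (1, 0)).2 := by linarith
      have h8 : (49 : ℝ) / 100 ≤ (fderiv ℝ g z (0, 1)).1 := by linarith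
      show 0 < (fderiv ℝ g z (1, 0)).1 * (fderiv ℝ g z (0, 1)).2 -
        (fderiv ℝ g z (1, 0)).2 * (fderiv ℝ g z (0, 1)).1
      nlinarith
  · intro i z hz
    have h3 := h0 z (hVi i hz)
    rw [(hVz i z hz).self_of_nhds] at h3
    exact ⟨(norm_fst_le (g z - Aff i z)).trans h3, (norm_snd_le (g z - Aff i z)).trans h3⟩
  · intro i z hz z' hz'
    have hconv : Convex ℝ (VV i) := (convex_Icc _ _).prod (convex_Icc _ _)
    have hz2 : ∀ y ∈ VV i, ‖fderiv ℝ (fderiv ℝ g) y‖ ≤ e0 := by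
      intro y hy
      have h3 := h2 i y hy
      have h4 : iteratedFDeriv ℝ 2 Fs y = 0 := by
        rw [← norm_eq_zero, ← norm_iteratedFDeriv_fderiv, norm_iteratedFDeriv_one, norm_eq_zero]
        have h5 : fderiv ℝ Fs =ᶠ[𝓝 y] fun _ => dg (1 / pw i) (qw i) := by
          filter_upwards [(hVz i y hy).eventually_nhds] with x hx
          have h6 : Fs =ᶠ[𝓝 x] Aff i := hx
          rw [h6.fderiv_eq, (mk7_aff i x).fderiv]
        rw [h5.fderiv_eq]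
        simp
      rw [h4, sub_zero, ← norm_iteratedFDeriv_fderiv, norm_iteratedFDeriv_one] at h3
      exact h3
    have hdiff : ∀ y ∈ VV i, DifferentiableAt ℝ (fderiv ℝ g) y := by
      intro y hy
      have h3 : ContDiffAt ℝ 1 (fderiv ℝ g) y := (hcd y (hsub (hVi i hy))).fderiv_right (by norm_cast)
      exact h3.differentiableAt (by simp)
    exact hconv.norm_image_sub_le_of_norm_fderiv_le hdiff hz2 hz' hz
  · intro z hz
    have h3 := h0 z (hFi hz)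
    rw [(hFz z hz).self_of_nhds] at h3
    exact ⟨(norm_fst_le (g z - Fold z)).trans h3, (norm_snd_le (g z - Fold z)).trans h3⟩

end Pool.Agent.Lib.H37N
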