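import Pool.Agent.Lib.H37N.MK1
import Pool.Agent.Lib.H37N.MK7

/-!
# H37N MK8 (size M): the open set of diffeomorphisms with near local representations
-/

open Set Filter Topology
open scoped ContDiff Manifold
open Pool.Agent.Lib.Helper37.ConjBorel Pool.Agent.Lib.H37C

namespace Pool.Agent.Lib.H37N

theorem mk8_iter (F : Euc 2 → Euc 2) (z : Pt) (k : ℕ) (m : Fin k → Pt) :
    iteratedFDeriv ℝ k (fun z => LL (F (LL.symm z))) z m =
      LL (iteratedFDeriv ℝ k F (LL.symm z) (fun i => LL.symm (m i))) := by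
  have h1 := ContinuousLinearEquiv.iteratedFDeriv_comp_left (𝕜 := ℝ) (f := F ∘ (LL.symm : Pt → Euc 2))
    (x := z) LL (i := k)
  have h2 := ContinuousLinearEquiv.iteratedFDerivWithin_comp_right (𝕜 := ℝ) LL.symm F
    (s := univ) uniqueDiffOn_univ (x := z) (mem_univ _) k
  rw [preimage_univ, iteratedFDerivWithin_univ, iteratedFDerivWithin_univ] at h2
  have h3 : (fun z => LL (F (LL.symm z))) = (LL : Euc 2 → Pt) ∘ (F ∘ (LL.symm : Pt → Euc 2)) := rfl
  rw [h3, h1, h2]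
  rfl

variable {M : Type*} [TopologicalSpace M] [ChartedSpace (Euc 2) M]

/-- Proof: `dom e f` is open: `isOpen_expr` (ConjBorel/Proof) and the homeomorphism `LL`. -/
theorem dom_open {e : OpenPartialHomeomorph M (Euc 2)} {f : M → M} (hf : Continuous f) :
    IsOpen (dom e f) := by
  exact (isOpen_expr hf e e).preimage LL.symm.continuous

/-- Proof. On `dom e f`, `loc e f = LL ∘ (e ∘ f ∘ e.symm) ∘ LL.symm`; `contDiffOn_expr`. -/
theorem loc_smooth [IsManifold (𝓡 2) ∞ M] {e : OpenPartialHomeomorph M (Euc 2)}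
    (he : e ∈ IsManifold.maximalAtlas (𝓡 2) ∞ M) (f : DiffInf 2 M) :
    ContDiffOn ℝ ∞ (loc e f) (dom e f) := by
  have h1 := contDiffOn_expr f.contMDiff he he
  have h2 : ContDiffOn ℝ ∞ (fun z : Pt => LL ((e ∘ f ∘ e.symm) (LL.symm z))) (dom e f) :=
    LL.contDiff.comp_contDiffOn (h1.comp LL.symm.contDiff.contDiffOn fun z hz => hz)
  refine h2.congr fun z hz => ?_
  unfold loc
  rw [if_pos hz]
  rfl

/-- Proof. `e`, `e.symm`, `f`, `LL` are injective on the respective sets. -/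
theorem loc_injOn {e : OpenPartialHomeomorph M (Euc 2)} (f : DiffInf 2 M) :
    InjOn (loc e f) (dom e f) := by
  intro z hz z' hz' h
  unfold loc at h
  rw [if_pos hz, if_pos hz'] at h
  have h1 := e.injOn hz.2 hz'.2 (LL.injective h)
  have h2 := e.symm.injOn hz.1 hz'.1 (f.injective h1)
  exact LL.symm.injective h2

/-- Norms of derivatives of the local representations. Proof. Near `z ∈ dom e f ∩ dom e f'` the difference is
`LL ∘ (e ∘ f ∘ e.symm - e ∘ f' ∘ e.symm) ∘ LL.symm`: `ContinuousLinearMap.iteratedFDeriv_comp_left`,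
`ContinuousLinearMap.iteratedFDeriv_comp_right` (or the `ContinuousLinearEquiv` versions), norms of compositions with linear maps;
`iteratedFDeriv_sub` for functions smooth near the point. `A = ‖LL‖ * (‖LL.symm‖ + 1)^2`. -/
theorem loc_diff_le [IsManifold (𝓡 2) ∞ M] {e : OpenPartialHomeomorph M (Euc 2)}
    (he : e ∈ IsManifold.maximalAtlas (𝓡 2) ∞ M) (f f' : DiffInf 2 M) {z : Pt} (hz : z ∈ dom e f)
    (hz' : z ∈ dom e f') {k : ℕ} (hk : k ≤ 2) {η : ℝ}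
    (h : ‖iteratedFDeriv ℝ k (e ∘ f ∘ e.symm) (LL.symm z) -
      iteratedFDeriv ℝ k (e ∘ f' ∘ e.symm) (LL.symm z)‖ ≤ η) :
    ‖iteratedFDeriv ℝ k (loc e f) z - iteratedFDeriv ℝ k (loc e f') z‖ ≤
      ‖(LL : Euc 2 →L[ℝ] Pt)‖ * (‖(LL.symm : Pt →L[ℝ] Euc 2)‖ + 1) ^ 2 * η := by
  have hη : 0 ≤ η := (norm_nonneg _).trans h
  have hev : ∀ (f : DiffInf 2 M), z ∈ dom e f →
      (loc e f) =ᶠ[𝓝 z] fun z => LL ((e ∘ f ∘ e.symm) (LL.symm z)) := by
    intro f hz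
    filter_upwards [(dom_open f.continuous).mem_nhds hz] with y hy
    unfold loc
    rw [if_pos hy]
    rfl
  have e1 := ((hev f hz).iteratedFDeriv ℝ k).eq_of_nhds
  have e2 := ((hev f' hz').iteratedFDeriv ℝ k).eq_of_nhds
  rw [e1, e2]
  refine ContinuousMultilinearMap.opNorm_le_bound (by positivity) fun m => ?_
  rw [ContinuousMultilinearMap.sub_apply, mk8_iter, mk8_iter, ← map_sub,
    ← ContinuousMultilinearMap.sub_apply]
  have h3 : ∀ x : Euc 2, ‖LL x‖ ≤ ‖(LL : Euc 2 →L[ℝ] Pt)‖ * ‖x‖ := fun x =>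
    (LL : Euc 2 →L[ℝ] Pt).le_opNorm x
  have h4 : ∀ x : Pt, ‖LL.symm x‖ ≤ ‖(LL.symm : Pt →L[ℝ] Euc 2)‖ * ‖x‖ := fun x =>
    (LL.symm : Pt →L[ℝ] Euc 2).le_opNorm x
  have h5 : ∏ i, ‖LL.symm (m i)‖ ≤ (‖(LL.symm : Pt →L[ℝ] Euc 2)‖ + 1) ^ 2 * ∏ i, ‖m i‖ := by
    have h6 : ∏ i, ‖LL.symm (m i)‖ ≤ ∏ i, ((‖(LL.symm : Pt →L[ℝ] Euc 2)‖ + 1) * ‖m i‖) := by
      refine Finset.prod_le_prod (fun i _ => norm_nonneg _) fun i _ => ?_
      refine (h4 (m i)).trans ?_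
      have := norm_nonneg (m i)
      nlinarith
    rw [Finset.prod_mul_distrib, Finset.prod_const, Finset.card_univ, Fintype.card_fin] at h6
    refine h6.trans ?_
    have h7 : (‖(LL.symm : Pt →L[ℝ] Euc 2)‖ + 1) ^ k ≤ (‖(LL.symm : Pt →L[ℝ] Euc 2)‖ + 1) ^ 2 :=
      pow_le_pow_right₀ (by linarith [norm_nonneg (LL.symm : Pt →L[ℝ] Euc 2)]) hk
    exact mul_le_mul_of_nonneg_right h7 (Finset.prod_nonneg fun i _ => norm_nonneg _)
  refine (h3 _).trans ?_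
  have h8 := ContinuousMultilinearMap.le_opNorm (iteratedFDeriv ℝ k (e ∘ f ∘ e.symm) (LL.symm z) -
      iteratedFDeriv ℝ k (e ∘ f' ∘ e.symm) (LL.symm z)) (fun i => LL.symm (m i))
  calc _ ≤ ‖(LL : Euc 2 →L[ℝ] Pt)‖ * (η * ((‖(LL.symm : Pt →L[ℝ] Euc 2)‖ + 1) ^ 2 * ∏ i, ‖m i‖)) := by
        refine mul_le_mul_of_nonneg_left (h8.trans ?_) (norm_nonneg _)
        refine mul_le_mul h h5 (Finset.prod_nonneg fun i _ => norm_nonneg _) hη
    _ = _ := by ring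

theorem mk8_S {z : Pt} (hz : z ∈ VV Sy.P ∪ VV Sy.Q ∪ FF) : ‖z‖ ≤ 2 := by
  rw [Prod.norm_def]
  rcases hz with (hz | hz) | hz
  all_goals
    obtain ⟨h1, h2⟩ := hz
    rw [mem_Icc] at h1 h2
    norm_num [al, pw, del, xc, u0] at h1 h2
    refine max_le ?_ ?_
    · rw [Real.norm_eq_abs, abs_le]
      constructor <;> linarith
    · rw [Real.norm_eq_abs, abs_le]
      constructor <;> linarith

theorem mk8_compact : IsCompact (VV Sy.P ∪ VV Sy.Q ∪ FF) :=
  ((isCompact_Icc.prod isCompact_Icc).union (isCompact_Icc.prod isCompact_Icc)).union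
    (isCompact_Icc.prod isCompact_Icc)

/-- Proof. Let `C = LL.symm '' (VV P ∪ VV Q ∪ FF)`, compact, in `e.target`. For `z` in the open ball of radius `r`: `‖Fs z‖ ≤ r` (`Fs` is a bijection
and the identity for `‖z‖ ≥ r`), so `z ∈ dom e fs` and `loc e fs z = Fs z`; in particular near `VV ∪ FF` (contained in the ball of radius `2`).
`V = ⋂ k ≤ 2, basicSet fs e e C k ε` with `ε * (‖LL‖ * (‖LL.symm‖ + 1)^2) ≤ e0`: open (generators), contains `fs`. For `f ∈ V`: `VV ∪ FF ⊆ dom e f` (first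
part of `basicSet`), and `loc_diff_le` gives the hypotheses of `near_of_close` (`norm_iteratedFDeriv_zero`, for `k = 1` the derivative:
`‖fderiv g z - fderiv Fs z‖ = ‖iteratedFDeriv 1 (g - Fs) z‖`), with `O = dom e f` (`dom_open`, `loc_smooth`, `loc_injOn`). -/
theorem exists_V [T2Space M] [IsManifold (𝓡 2) ∞ M] {e : OpenPartialHomeomorph M (Euc 2)} {r : ℝ}
    (he : BigC e r) (hr : 4 ≤ r) {Fs : Pt → Pt} (hFs : IsCDiff Fs) (hsupp : ∀ z, r ≤ ‖z‖ → Fs z = z)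
    (hV : ∀ i, ∀ᶠ z in 𝓝ˢ (VV i), Fs z = Aff i z) (hF : ∀ᶠ z in 𝓝ˢ FF, Fs z = Fold z)
    {fs : DiffInf 2 M} (hfs : ∀ m, fs m = ext e (cj Fs) m) :
    ∃ V : Set (DiffInf 2 M), IsOpen V ∧ fs ∈ V ∧
      ∀ f ∈ V, Near (loc e f) ∧ VV Sy.P ∪ VV Sy.Q ∪ FF ⊆ dom e f := by
  obtain ⟨Φi, -, hΦ1, -⟩ := hFs.inv
  have hinj : Function.Injective Fs := Function.LeftInverse.injective hΦ1
  have hle : ∀ z, ‖z‖ ≤ r → ‖Fs z‖ ≤ r := by
    intro z hz
    by_contra hcon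
    have h1 := hinj (hsupp (Fs z) (not_le.1 hcon).le)
    rw [h1] at hcon
    exact hcon hz
  have hdom : ∀ z, ‖z‖ ≤ r → z ∈ dom e fs ∧ loc e fs z = Fs z := by
    intro z hz
    have h1 : LL.symm z ∈ e.target := he.big z hz
    have h2 : LL.symm (Fs z) ∈ e.target := he.big _ (hle z hz)
    have h3 : fs (e.symm (LL.symm z)) = e.symm (LL.symm (Fs z)) := by
      rw [hfs, ext_of_mem (e.map_target h1), e.right_inv h1]
      unfold cj
      rw [ContinuousLinearEquiv.apply_symm_apply]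
    have h4 : z ∈ dom e fs := ⟨h1, by rw [h3]; exact e.map_target h2⟩
    refine ⟨h4, ?_⟩
    unfold loc
    rw [if_pos h4, h3, e.right_inv h2, ContinuousLinearEquiv.apply_symm_apply]
  have hS2 : ∀ z ∈ VV Sy.P ∪ VV Sy.Q ∪ FF, ‖z‖ ≤ r := fun z hz => (mk8_S hz).trans (by linarith)
  have hevF : ∀ z ∈ VV Sy.P ∪ VV Sy.Q ∪ FF, loc e fs =ᶠ[𝓝 z] Fs := by
    intro z hz
    have h1 : z ∈ Metric.ball (0 : Pt) r := by
      rw [mem_ball_zero_iff]
      exact lt_of_le_of_lt (mk8_S hz) (by linarith)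
    filter_upwards [Metric.isOpen_ball.mem_nhds h1] with y hy
    rw [mem_ball_zero_iff] at hy
    exact (hdom y hy.le).2
  set A : ℝ := ‖(LL : Euc 2 →L[ℝ] Pt)‖ * (‖(LL.symm : Pt →L[ℝ] Euc 2)‖ + 1) ^ 2 with hA
  have hA0 : 0 ≤ A := by positivity
  have he0 : (0 : ℝ) < e0 := by unfold e0; norm_num
  set ε : ℝ := e0 / (A + 1) with hε
  have hε0 : 0 < ε := by positivity
  have hAε : A * ε ≤ e0 := by
    rw [hε, mul_div_assoc', div_le_iff₀ (by positivity)]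
    nlinarith
  set C : Set (Euc 2) := LL.symm '' (VV Sy.P ∪ VV Sy.Q ∪ FF) with hC
  have hCc : IsCompact C := mk8_compact.image LL.symm.continuous
  have hCt : C ⊆ e.target := by
    rintro _ ⟨z, hz, rfl⟩
    exact he.big z (hS2 z hz)
  have hCs : ∀ x ∈ C, fs (e.symm x) ∈ e.source := by
    rintro _ ⟨z, hz, rfl⟩
    exact (hdom z (hS2 z hz)).1.2
  have hopen : ∀ k : ℕ, IsOpen (basicSet fs e e C k ε) := fun k =>
    TopologicalSpace.isOpen_generateFrom_of_mem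
      ⟨fs, e, e, C, k, ε, he.mem, he.mem, hCc, hCt, hCs, hε0, rfl⟩
  have hmem : ∀ k : ℕ, fs ∈ basicSet fs e e C k ε := fun k => mem_basicSet_self hε0 hCs
  refine ⟨basicSet fs e e C 0 ε ∩ basicSet fs e e C 1 ε ∩ basicSet fs e e C 2 ε,
    ((hopen 0).inter (hopen 1)).inter (hopen 2), ⟨⟨hmem 0, hmem 1⟩, hmem 2⟩, ?_⟩
  rintro f ⟨⟨hf0, hf1⟩, hf2⟩
  have hsub : VV Sy.P ∪ VV Sy.Q ∪ FF ⊆ dom e f := by
    intro z hz
    exact ⟨hCt ⟨z, hz, rfl⟩, hf0.1 _ ⟨z, hz, rfl⟩⟩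
  refine ⟨?_, hsub⟩
  have hkey : ∀ k : ℕ, k ≤ 2 → f ∈ basicSet fs e e C k ε → ∀ z ∈ VV Sy.P ∪ VV Sy.Q ∪ FF,
      ‖iteratedFDeriv ℝ k (loc e f) z - iteratedFDeriv ℝ k Fs z‖ ≤ e0 := by
    intro k hk hf z hz
    have h1 := (hf.2 _ ⟨z, hz, rfl⟩).le
    have h2 := loc_diff_le he.mem f fs (hsub hz) (hdom z (hS2 z hz)).1 hk h1
    rw [((hevF z hz).iteratedFDeriv ℝ k).eq_of_nhds] at h2
    exact h2.trans hAε
  refine near_of_close hV hF (O := dom e f) (dom_open f.continuous) hsub (loc_smooth he.mem f)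
    (loc_injOn f) ?_ ?_ ?_
  · intro z hz
    have h1 := hkey 0 (by norm_num) hf0 z hz
    have h2 := ContinuousMultilinearMap.le_opNorm (iteratedFDeriv ℝ 0 (loc e f) z -
      iteratedFDeriv ℝ 0 Fs z) (fun i => Fin.elim0 i)
    rw [ContinuousMultilinearMap.sub_apply, iteratedFDeriv_zero_apply, iteratedFDeriv_zero_apply] at h2
    simp only [Finset.univ_eq_empty, Finset.prod_empty, mul_one] at h2
    exact h2.trans h1
  · intro z hz
    have h1 := hkey 1 (by norm_num) hf1 z hz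
    refine ContinuousLinearMap.opNorm_le_bound _ he0.le fun v => ?_
    have h2 := ContinuousMultilinearMap.le_opNorm (iteratedFDeriv ℝ 1 (loc e f) z -
      iteratedFDeriv ℝ 1 Fs z) (fun _ => v)
    rw [ContinuousMultilinearMap.sub_apply, iteratedFDeriv_one_apply, iteratedFDeriv_one_apply] at h2
    simp only [Finset.univ_unique, Finset.prod_singleton] at h2
    rw [sub_apply]
    exact h2.trans (mul_le_mul_of_nonneg_right h1 (norm_nonneg _))
  · intro i z hz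
    refine hkey 2 le_rfl hf2 z ?_
    cases i with
    | P => exact Or.inl (Or.inl hz)
    | Q => exact Or.inl (Or.inr hz)

end Pool.Agent.Lib.H37N
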