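import Pool.Agent.Lib.H37N.MM1

/-!
# H37N MM2 (size M): slow cut-off functions, fibre affine diffeomorphisms
-/

open Set Filter Topology
open scoped ContDiff

namespace Pool.Agent.Lib.H37N

theorem mm2_theta_bound : ∃ M : ℝ, 0 < M ∧ ∀ t, |deriv (fun t : ℝ => Real.smoothTransition (2 - t)) t| ≤ M := by
  have hc : ContDiff ℝ ∞ (fun t : ℝ => Real.smoothTransition (2 - t)) :=
    Real.smoothTransition.contDiff.comp (contDiff_const.sub contDiff_id)
  have hd : Continuous (deriv (fun t : ℝ => Real.smoothTransition (2 - t))) :=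
    hc.continuous_deriv (by simp)
  obtain ⟨M, hM⟩ := (isCompact_Icc (a := (0 : ℝ)) (b := 3)).exists_bound_of_continuousOn hd.continuousOn
  refine ⟨max M 1, lt_of_lt_of_le one_pos (le_max_right _ _), fun t => ?_⟩
  by_cases h1 : t < 1
  · have : (fun t : ℝ => Real.smoothTransition (2 - t)) =ᶠ[𝓝 t] fun _ => 1 := by
      filter_upwards [Iio_mem_nhds h1] with s hs
      exact Real.smoothTransition.one_of_one_le (by have := mem_Iio.1 hs; linarith)
    rw [this.deriv_eq, deriv_const, abs_zero]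
    exact le_trans zero_le_one (le_max_right _ _)
  · by_cases h2 : 2 < t
    · have : (fun t : ℝ => Real.smoothTransition (2 - t)) =ᶠ[𝓝 t] fun _ => 0 := by
        filter_upwards [Ioi_mem_nhds h2] with s hs
        exact Real.smoothTransition.zero_of_nonpos (by have := mem_Ioi.1 hs; linarith)
      rw [this.deriv_eq, deriv_const, abs_zero]
      exact le_trans zero_le_one (le_max_right _ _)
    · have := hM t ⟨by linarith, by linarith⟩
      rw [Real.norm_eq_abs] at this
      exact le_trans this (le_max_left _ _)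

/-- slow cut-off. Proof. Let `θ : ℝ → ℝ` be `C^∞` with values in `[0,1]`, `θ t = 1` for `t ≤ 1`, `θ t = 0` for `t ≥ 2`
(`θ t = Real.smoothTransition (2 - t)`), `|θ'| ≤ M` (continuous with compact support). `χ y = θ (log (1 + y^2) / L)` with `L` large:
`L ≥ log (1 + C^2)`, `χ = 1` for `|y| ≤ C`, `χ = 0` if `1 + y^2 ≥ exp (2 L)`, and
`|χ' y| (1 + |y|) ≤ M / L * (2 |y| / (1 + y^2)) * (1 + |y|) ≤ 4 M / L ≤ η`. -/
theorem slow_cutoff (C : ℝ) {η : ℝ} (hη : 0 < η) : ∃ χ : ℝ → ℝ, ContDiff ℝ ∞ χ ∧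
    (∀ y, 0 ≤ χ y ∧ χ y ≤ 1) ∧ (∀ y, |y| ≤ C → χ y = 1) ∧ (∃ r : ℝ, ∀ y, r ≤ |y| → χ y = 0) ∧
    ∀ y, |deriv χ y| * (1 + |y|) ≤ η := by
  obtain ⟨M, hM0, hM⟩ := mm2_theta_bound
  set θ : ℝ → ℝ := fun t => Real.smoothTransition (2 - t) with hθ
  have hθc : ContDiff ℝ ∞ θ := Real.smoothTransition.contDiff.comp (contDiff_const.sub contDiff_id)
  set L : ℝ := max (Real.log (1 + C ^ 2)) (4 * M / η) with hL
  have hL0 : 0 < L := lt_of_lt_of_le (by positivity) (le_max_right _ _)
  have hpos : ∀ y : ℝ, (1 : ℝ) + y ^ 2 ≠ 0 := fun y => by positivity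
  have hlogc : ContDiff ℝ ∞ (fun y : ℝ => Real.log (1 + y ^ 2) / L) :=
    ((contDiff_const.add (contDiff_id.pow 2)).log hpos).div_const L
  refine ⟨fun y => θ (Real.log (1 + y ^ 2) / L), hθc.comp hlogc, fun y => ?_, fun y hy => ?_, ?_, fun y => ?_⟩
  · exact ⟨Real.smoothTransition.nonneg _, Real.smoothTransition.le_one _⟩
  · apply Real.smoothTransition.one_of_one_le
    have h1 : Real.log (1 + y ^ 2) ≤ L := by
      refine le_trans (Real.log_le_log (by positivity) ?_) (le_max_left _ _)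
      have : y ^ 2 ≤ C ^ 2 := sq_le_sq' (by linarith [neg_abs_le y]) (le_trans (le_abs_self y) hy)
      linarith
    have h2 : Real.log (1 + y ^ 2) / L ≤ 1 := (div_le_one hL0).2 h1
    linarith
  · refine ⟨Real.exp L, fun y hy => ?_⟩
    apply Real.smoothTransition.zero_of_nonpos
    have h1 : 2 * L ≤ Real.log (1 + y ^ 2) := by
      rw [Real.le_log_iff_exp_le (by positivity)]
      have : Real.exp (2 * L) = Real.exp L ^ 2 := by
        rw [← Real.exp_nat_mul]; norm_num
      rw [this]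
      have h3 : Real.exp L ^ 2 ≤ |y| ^ 2 := pow_le_pow_left₀ (Real.exp_pos L).le hy 2
      rw [sq_abs] at h3
      linarith
    have h2 : 2 ≤ Real.log (1 + y ^ 2) / L := by
      rw [le_div_iff₀ hL0]; exact h1
    linarith
  · have hd1 : HasDerivAt (fun y : ℝ => Real.log (1 + y ^ 2) / L) (2 * y / (1 + y ^ 2) / L) y := by
      have : HasDerivAt (fun y : ℝ => 1 + y ^ 2) (2 * y) y := by
        have := (hasDerivAt_pow 2 y).const_add 1
        simpa using this
      exact (this.log (hpos y)).div_const L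
    have hd2 : HasDerivAt θ (deriv θ (Real.log (1 + y ^ 2) / L)) (Real.log (1 + y ^ 2) / L) :=
      (hθc.differentiable (by simp) _).hasDerivAt
    have hd3 := hd2.comp y hd1
    have hd4 : deriv (fun y => θ (Real.log (1 + y ^ 2) / L)) y =
        deriv θ (Real.log (1 + y ^ 2) / L) * (2 * y / (1 + y ^ 2) / L) := hd3.deriv
    rw [hd4, abs_mul, abs_div, abs_div, abs_of_pos hL0, abs_mul, abs_of_pos (show (0 : ℝ) < 2 by norm_num),
      abs_of_pos (show (0 : ℝ) < 1 + y ^ 2 by positivity)]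
    have h1 := hM (Real.log (1 + y ^ 2) / L)
    have h2 : 2 * |y| / (1 + y ^ 2) * (1 + |y|) ≤ 4 := by
      rw [div_mul_eq_mul_div, div_le_iff₀ (by positivity)]
      rw [← sq_abs y]
      nlinarith [abs_nonneg y, sq_nonneg (|y| - 1)]
    have h3 : 4 * M / η ≤ L := le_max_right _ _
    have h4 : 4 * M / L ≤ η := by
      rw [div_le_iff₀ hL0]
      rw [div_le_iff₀ hη] at h3
      linarith
    calc |deriv θ (Real.log (1 + y ^ 2) / L)| * (2 * |y| / (1 + y ^ 2) / L) * (1 + |y|)
        = |deriv θ (Real.log (1 + y ^ 2) / L)| * ((2 * |y| / (1 + y ^ 2) * (1 + |y|)) / L) := by ring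
      _ ≤ M * (4 / L) := by
          apply mul_le_mul h1 _ (by positivity) hM0.le
          exact div_le_div_of_nonneg_right h2 hL0.le
      _ = 4 * M / L := by ring
      _ ≤ η := h4

theorem mm2_bounds {lam c : ℝ → ℝ} (hl : Continuous lam) (hc : Continuous c)
    (hpos : ∀ x, 0 < lam x) {K : ℝ} (hK : ∀ x, K ≤ |x| → lam x = 1 ∧ c x = 0) :
    ∃ m0 K' : ℝ, 0 < m0 ∧ m0 ≤ 1 ∧ 0 ≤ K' ∧ ∀ x, m0 ≤ lam x ∧ |lam x - 1| ≤ K' ∧ |c x| ≤ K' := by
  have hcomp : IsCompact (Icc (-|K|) |K|) := isCompact_Icc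
  have hne : (Icc (-|K|) |K|).Nonempty := ⟨0, by simp⟩
  obtain ⟨x0, hx0, hmin⟩ := hcomp.exists_isMinOn hne hl.continuousOn
  obtain ⟨A, hA⟩ := hcomp.exists_bound_of_continuousOn (hl.sub (continuous_const (y := (1 : ℝ)))).continuousOn
  obtain ⟨B, hB⟩ := hcomp.exists_bound_of_continuousOn hc.continuousOn
  refine ⟨min (lam x0) 1, max (max A B) 0, lt_min (hpos x0) one_pos, min_le_right _ _,
    le_max_right _ _, fun x => ?_⟩
  by_cases hx : x ∈ Icc (-|K|) |K|
  · refine ⟨le_trans (min_le_left _ _) (hmin hx), ?_, ?_⟩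
    · have := hA x hx
      rw [Real.norm_eq_abs] at this
      exact le_trans this (le_trans (le_max_left _ _) (le_max_left _ _))
    · have := hB x hx
      rw [Real.norm_eq_abs] at this
      exact le_trans this (le_trans (le_max_right _ _) (le_max_left _ _))
  · have h1 : K ≤ |x| := by
      by_contra h
      push Not at h
      apply hx
      have h2 : |x| ≤ |K| := le_trans h.le (le_abs_self K)
      exact ⟨by linarith [neg_abs_le x], le_trans (le_abs_self x) h2⟩
    obtain ⟨h2, h3⟩ := hK x h1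
    rw [h2, h3]
    refine ⟨min_le_right _ _, ?_, ?_⟩
    · simp
    · simp

/-- Proof. `lam` and `c` are bounded: `|lam - 1| ≤ K'`, `|c| ≤ K'`, `lam ≥ m0 > 0`, `m0 ≤ 1` (continuous, constant off a compact set). `χ` from
`slow_cutoff` with `η = m0 / (2 K' + 2)`, `C`. `Φ (x, y) = (x, y + χ y * ((lam x - 1) * y + c x))`. The derivative in `y` of the second
component is `(1 - χ) + χ lam + χ' ((lam - 1) y + c) ≥ m0 - η K' > 0`, and the second component is `y` for large `|y|`: for fixed `x` it is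
a strictly monotone continuous bijection of `ℝ`. So `Φ` is a bijection with `jac Φ = ∂_y > 0`; it is the identity if `|y|` is
large, and if `|x| ≥ K`; `IsCDiff.of_bijective`. -/
theorem fibre_affine {lam c : ℝ → ℝ} (hl : ContDiff ℝ ∞ lam) (hc : ContDiff ℝ ∞ c)
    (hpos : ∀ x, 0 < lam x) {K : ℝ} (hK : ∀ x, K ≤ |x| → lam x = 1 ∧ c x = 0) (C : ℝ) :
    ∃ Φ : Pt → Pt, IsCDiff Φ ∧ ∀ x y : ℝ, |y| ≤ C → Φ (x, y) = (x, lam x * y + c x) := by
  obtain ⟨m0, K', hm0, hm1, hK0, hb⟩ := mm2_bounds hl.continuous hc.continuous hpos hK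
  obtain ⟨χ, hχ, hχ01, hχ1, ⟨R, hR⟩, hχd⟩ := slow_cutoff C (η := m0 / (2 * K' + 2)) (by positivity)
  set F : ℝ → ℝ → ℝ := fun x y => y + χ y * ((lam x - 1) * y + c x) with hF
  have hder : ∀ x y, HasDerivAt (F x) (1 + (deriv χ y * ((lam x - 1) * y + c x) + χ y * (lam x - 1))) y := by
    intro x y
    have h1 : HasDerivAt χ (deriv χ y) y := (hχ.differentiable (by simp) y).hasDerivAt
    have h2 : HasDerivAt (fun y : ℝ => (lam x - 1) * y + c x) (lam x - 1) y := by
      have := ((hasDerivAt_id y).const_mul (lam x - 1)).add_const (c x)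
      simpa using this
    exact (hasDerivAt_id y).add (h1.mul h2)
  have hdpos : ∀ x y, 0 < 1 + (deriv χ y * ((lam x - 1) * y + c x) + χ y * (lam x - 1)) := by
    intro x y
    obtain ⟨b1, b2, b3⟩ := hb x
    have h1 : |deriv χ y * ((lam x - 1) * y + c x)| ≤ m0 / 2 := by
      rw [abs_mul]
      have h2 : |(lam x - 1) * y + c x| ≤ K' * (1 + |y|) := by
        calc |(lam x - 1) * y + c x| ≤ |(lam x - 1) * y| + |c x| := abs_add_le _ _
          _ = |lam x - 1| * |y| + |c x| := by rw [abs_mul]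
          _ ≤ K' * |y| + K' := by
              have := mul_le_mul_of_nonneg_right b2 (abs_nonneg y)
              linarith
          _ = K' * (1 + |y|) := by ring
      calc |deriv χ y| * |(lam x - 1) * y + c x| ≤ |deriv χ y| * (K' * (1 + |y|)) :=
            mul_le_mul_of_nonneg_left h2 (abs_nonneg _)
        _ = K' * (|deriv χ y| * (1 + |y|)) := by ring
        _ ≤ K' * (m0 / (2 * K' + 2)) := mul_le_mul_of_nonneg_left (hχd y) hK0
        _ ≤ m0 / 2 := by
            rw [mul_div_assoc', div_le_div_iff₀ (by positivity) (by norm_num)]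
            nlinarith
    have h3 := neg_abs_le (deriv χ y * ((lam x - 1) * y + c x))
    obtain ⟨c1, c2⟩ := hχ01 y
    have h4 : m0 ≤ 1 + χ y * (lam x - 1) := by nlinarith
    linarith
  have hmono : ∀ x, StrictMono (F x) := fun x =>
    strictMono_of_deriv_pos (fun y => by rw [(hder x y).deriv]; exact hdpos x y)
  have hFc : ∀ x, Continuous (F x) := fun x => by
    rw [continuous_iff_continuousAt]
    exact fun y => (hder x y).continuousAt
  have hFid : ∀ x y, R ≤ |y| → F x y = y := by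
    intro x y hy
    simp only [hF, hR y hy, zero_mul, add_zero]
  have hsurj : ∀ x, Function.Surjective (F x) := by
    intro x w
    set T := max (|R|) (|w|) with hT
    have hT0 : 0 ≤ T := le_trans (abs_nonneg _) (le_max_left _ _)
    have h1 : F x T = T := hFid x T (by rw [abs_of_nonneg hT0]; exact le_trans (le_abs_self R) (le_max_left _ _))
    have h2 : F x (-T) = -T := hFid x (-T) (by rw [abs_neg, abs_of_nonneg hT0]; exact le_trans (le_abs_self R) (le_max_left _ _))
    have h3 : w ∈ Icc (F x (-T)) (F x T) := by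
      rw [h1, h2]
      have hw := abs_le.1 (le_max_right (|R|) (|w|))
      exact ⟨hw.1, hw.2⟩
    obtain ⟨y, -, hy⟩ := intermediate_value_Icc (by linarith : -T ≤ T) (hFc x).continuousOn h3
    exact ⟨y, hy⟩
  set Φ : Pt → Pt := fun z => (z.1, F z.1 z.2) with hΦ
  have hFs : ContDiff ℝ ∞ (fun z : Pt => F z.1 z.2) := by
    have l1 : ContDiff ℝ ∞ (fun z : Pt => lam z.1) := hl.comp contDiff_fst
    have l2 : ContDiff ℝ ∞ (fun z : Pt => c z.1) := hc.comp contDiff_fst
    have l3 : ContDiff ℝ ∞ (fun z : Pt => χ z.2) := hχ.comp contDiff_snd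
    exact contDiff_snd.add (l3.mul (((l1.sub contDiff_const).mul contDiff_snd).add l2))
  have hΦs : ContDiff ℝ ∞ Φ := contDiff_fst.prodMk hFs
  have hjac : ∀ z, jac Φ z ≠ 0 := by
    intro z
    have hd : DifferentiableAt ℝ Φ z := hΦs.differentiable (by simp) z
    have hdF : DifferentiableAt ℝ (fun z : Pt => F z.1 z.2) z := hFs.differentiable (by simp) z
    have hfd : fderiv ℝ Φ z = (ContinuousLinearMap.fst ℝ ℝ ℝ).prod (fderiv ℝ (fun z : Pt => F z.1 z.2) z) := by
      have : HasFDerivAt Φ ((ContinuousLinearMap.fst ℝ ℝ ℝ).prod (fderiv ℝ (fun z : Pt => F z.1 z.2) z)) z :=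
        hasFDerivAt_fst.prodMk hdF.hasFDerivAt
      exact this.fderiv
    have hv : fderiv ℝ (fun z : Pt => F z.1 z.2) z (0, 1) =
        1 + (deriv χ z.2 * ((lam z.1 - 1) * z.2 + c z.1) + χ z.2 * (lam z.1 - 1)) := by
      have h1 : HasDerivAt (fun t : ℝ => ((z.1, t) : Pt)) ((0, 1) : Pt) z.2 :=
        (hasDerivAt_const z.2 z.1).prodMk (hasDerivAt_id z.2)
      have h2 : HasFDerivAt (fun z : Pt => F z.1 z.2) (fderiv ℝ (fun z : Pt => F z.1 z.2) z) ((fun t : ℝ => ((z.1, t) : Pt)) z.2) := by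
        simpa using hdF.hasFDerivAt
      have h3 := h2.comp_hasDerivAt z.2 h1
      have h4 := hder z.1 z.2
      exact h3.unique h4
    unfold jac
    rw [hfd]
    simp only [ContinuousLinearMap.prod_apply, ContinuousLinearMap.coe_fst', hv]
    have := hdpos z.1 z.2
    simp only [one_mul, mul_zero, sub_zero]
    exact this.ne'
  have hbij : Function.Bijective Φ := by
    constructor
    · intro z w hzw
      have h1 : z.1 = w.1 := (Prod.ext_iff.1 hzw).1
      have h2 : F z.1 z.2 = F w.1 w.2 := (Prod.ext_iff.1 hzw).2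
      rw [h1] at h2
      exact Prod.ext h1 ((hmono w.1).injective h2)
    · intro w
      obtain ⟨y, hy⟩ := hsurj w.1 w.2
      exact ⟨(w.1, y), by simp only [hΦ, hy]⟩
  refine ⟨Φ, IsCDiff.of_bijective hΦs hbij hjac (r := max K R) (fun z hz => ?_), fun x y hy => ?_⟩
  · rw [Prod.norm_def, Real.norm_eq_abs, Real.norm_eq_abs] at hz
    rcases le_max_iff.1 hz with h | h
    · obtain ⟨h1, h2⟩ := hK z.1 (le_trans (le_max_left _ _) h)
      simp only [hΦ, hF, h1, h2, sub_self, zero_mul, add_zero, mul_zero]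
    · have := hFid z.1 z.2 (le_trans (le_max_right _ _) h)
      simp only [hΦ, this]
  · simp only [hΦ, hF, hχ1 y hy]
    congr 1
    ring

end Pool.Agent.Lib.H37N
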