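import Pool.Agent.Lib.H37N.MM1

/-!
# H37N MM4 (size S/M): profile functions; the twist
-/

open Set Filter Topology
open scoped ContDiff

namespace Pool.Agent.Lib.H37N

theorem mm4_bump {a b ε : ℝ} (hε : 0 < ε) (_hab : a ≤ b) : ∃ χ : ℝ → ℝ, ContDiff ℝ ∞ χ ∧
    (∀ x, 0 ≤ χ x ∧ χ x ≤ 1) ∧ (∀ x ∈ Icc a b, χ x = 1) ∧
    (∀ x, x ≤ a - ε → χ x = 0) ∧ ∀ x, b + ε ≤ x → χ x = 0 := by
  refine ⟨fun x => Real.smoothTransition ((x - (a - ε)) / ε) *
    Real.smoothTransition (((b + ε) - x) / ε), ?_, ?_, ?_, ?_, ?_⟩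
  · refine ContDiff.mul ?_ ?_
    · exact Real.smoothTransition.contDiff.comp (by fun_prop)
    · exact Real.smoothTransition.contDiff.comp (by fun_prop)
  · intro x
    exact ⟨mul_nonneg (Real.smoothTransition.nonneg _) (Real.smoothTransition.nonneg _),
      mul_le_one₀ (Real.smoothTransition.le_one _) (Real.smoothTransition.nonneg _)
        (Real.smoothTransition.le_one _)⟩
  · intro x hx
    obtain ⟨h1, h2⟩ := hx
    show Real.smoothTransition _ * Real.smoothTransition _ = 1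
    rw [Real.smoothTransition.one_of_one_le, Real.smoothTransition.one_of_one_le, mul_one]
    · rw [le_div_iff₀ hε]; linarith
    · rw [le_div_iff₀ hε]; linarith
  · intro x hx
    show Real.smoothTransition _ * Real.smoothTransition _ = 0
    rw [Real.smoothTransition.zero_of_nonpos, zero_mul]
    exact div_nonpos_of_nonpos_of_nonneg (by linarith) hε.le
  · intro x hx
    show Real.smoothTransition _ * Real.smoothTransition _ = 0
    rw [Real.smoothTransition.zero_of_nonpos (x := ((b + ε) - x) / ε), mul_zero]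
    exact div_nonpos_of_nonpos_of_nonneg (by linarith) hε.le

theorem mm4_pos {t l : ℝ} (h0 : 0 ≤ t) (h1 : t ≤ 1) (hl : 0 < l) : 0 < 1 + t * (l - 1) := by
  have h2 : 1 + t * (l - 1) = (1 - t) + t * l := by ring
  rw [h2]
  rcases h0.eq_or_lt with h | h
  · rw [← h]; norm_num
  · have := mul_pos h hl
    linarith

/-- Proof. For `i = 0,1,2` let `χ i` be `C^∞` with values in `[0,1]`, `χ i = 1` on `[a i, b i]`, compact support in an open
interval around `[a i, b i]` disjoint from the other two (`exists_cutoff`, T3, or `Real.smoothTransition`). Put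
`lam = 1 + ∑ χ i (l i - 1)` and `c = ∑ χ i * c i`. At each point at most one `χ i` is not zero, so `lam` is between `1` and `l i`. -/
theorem profile {a b l : Fin 3 → ℝ} {c : Fin 3 → ℝ → ℝ} (hab : ∀ i, a i ≤ b i) (h01 : b 0 < a 1)
    (h12 : b 1 < a 2) (hl : ∀ i, 0 < l i) (hc : ∀ i, ContDiff ℝ ∞ (c i)) :
    ∃ lam cc' : ℝ → ℝ, ContDiff ℝ ∞ lam ∧ ContDiff ℝ ∞ cc' ∧ (∀ x, 0 < lam x) ∧
      (∃ K : ℝ, ∀ x, K ≤ |x| → lam x = 1 ∧ cc' x = 0) ∧
      ∀ i, ∀ x ∈ Icc (a i) (b i), lam x = l i ∧ cc' x = c i x := by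
  obtain ⟨ε, hε, he1, he2⟩ : ∃ ε : ℝ, 0 < ε ∧ b 0 + ε ≤ a 1 - ε ∧ b 1 + ε ≤ a 2 - ε := by
    refine ⟨min ((a 1 - b 0) / 2) ((a 2 - b 1) / 2), ?_, ?_, ?_⟩
    · exact lt_min (by linarith) (by linarith)
    · have := min_le_left ((a 1 - b 0) / 2) ((a 2 - b 1) / 2)
      linarith
    · have := min_le_right ((a 1 - b 0) / 2) ((a 2 - b 1) / 2)
      linarith
  obtain ⟨x0, hs0, hr0, h10, hl0, hu0⟩ := mm4_bump hε (hab 0)
  obtain ⟨x1, hs1, hr1, h11, hl1, hu1⟩ := mm4_bump hε (hab 1)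
  obtain ⟨x2, hs2, hr2, h12', hl2, hu2⟩ := mm4_bump hε (hab 2)
  have ha0 := hab 0
  have ha1 := hab 1
  have ha2 := hab 2
  refine ⟨fun x => 1 + (x0 x * (l 0 - 1) + x1 x * (l 1 - 1) + x2 x * (l 2 - 1)),
    fun x => x0 x * c 0 x + x1 x * c 1 x + x2 x * c 2 x, ?_, ?_, ?_, ?_, ?_⟩
  · exact contDiff_const.add (((hs0.mul contDiff_const).add (hs1.mul contDiff_const)).add
      (hs2.mul contDiff_const))
  · exact ((hs0.mul (hc 0)).add (hs1.mul (hc 1))).add (hs2.mul (hc 2))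
  · intro x
    show 0 < 1 + (x0 x * (l 0 - 1) + x1 x * (l 1 - 1) + x2 x * (l 2 - 1))
    rcases le_total x (b 0 + ε) with h | h
    · rw [hl1 x (by linarith), hl2 x (by linarith)]
      have := mm4_pos (hr0 x).1 (hr0 x).2 (hl 0)
      linarith
    · rcases le_total x (b 1 + ε) with h' | h'
      · rw [hu0 x h, hl2 x (by linarith)]
        have := mm4_pos (hr1 x).1 (hr1 x).2 (hl 1)
        linarith
      · rw [hu0 x h, hu1 x h']
        have := mm4_pos (hr2 x).1 (hr2 x).2 (hl 2)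
        linarith
  · refine ⟨|a 0| + |b 2| + ε, fun x hx => ?_⟩
    have hz : x0 x = 0 ∧ x1 x = 0 ∧ x2 x = 0 := by
      have hA := neg_abs_le (a 0)
      have hB := le_abs_self (b 2)
      have hA' := abs_nonneg (a 0)
      have hB' := abs_nonneg (b 2)
      rcases le_total 0 x with h | h
      · rw [abs_of_nonneg h] at hx
        exact ⟨hu0 x (by linarith), hu1 x (by linarith), hu2 x (by linarith)⟩
      · rw [abs_of_nonpos h] at hx
        exact ⟨hl0 x (by linarith), hl1 x (by linarith), hl2 x (by linarith)⟩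
    obtain ⟨z0, z1, z2⟩ := hz
    show 1 + (x0 x * (l 0 - 1) + x1 x * (l 1 - 1) + x2 x * (l 2 - 1)) = 1 ∧
      x0 x * c 0 x + x1 x * c 1 x + x2 x * c 2 x = 0
    rw [z0, z1, z2]
    constructor <;> ring
  · intro i x hx
    show 1 + (x0 x * (l 0 - 1) + x1 x * (l 1 - 1) + x2 x * (l 2 - 1)) = l i ∧
      x0 x * c 0 x + x1 x * c 1 x + x2 x * c 2 x = c i x
    fin_cases i
    · have hx' : x ∈ Icc (a 0) (b 0) := hx
      obtain ⟨hx1, hx2⟩ := id hx'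
      rw [h10 x hx', hl1 x (by linarith), hl2 x (by linarith)]
      constructor
      · show _ = l 0
        ring
      · show _ = c 0 x
        ring
    · have hx' : x ∈ Icc (a 1) (b 1) := hx
      obtain ⟨hx1, hx2⟩ := id hx'
      rw [h11 x hx', hu0 x (by linarith), hl2 x (by linarith)]
      constructor
      · show _ = l 1
        ring
      · show _ = c 1 x
        ring
    · have hx' : x ∈ Icc (a 2) (b 2) := hx
      obtain ⟨hx1, hx2⟩ := id hx'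
      rw [h12' x hx', hu0 x (by linarith), hu1 x (by linarith)]
      constructor
      · show _ = l 2
        ring
      · show _ = c 2 x
        ring

/-- The twist map with angle function `θ`. -/
noncomputable def mm4_tw (v0 : Pt) (θ : ℝ → ℝ) (v : Pt) : Pt :=
  (v0.1 + (Real.cos (θ ((v.1 - v0.1) ^ 2 + (v.2 - v0.2) ^ 2)) * (v.1 - v0.1) -
      Real.sin (θ ((v.1 - v0.1) ^ 2 + (v.2 - v0.2) ^ 2)) * (v.2 - v0.2)),
    v0.2 + (Real.sin (θ ((v.1 - v0.1) ^ 2 + (v.2 - v0.2) ^ 2)) * (v.1 - v0.1) +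
      Real.cos (θ ((v.1 - v0.1) ^ 2 + (v.2 - v0.2) ^ 2)) * (v.2 - v0.2)))

theorem mm4_smooth (v0 : Pt) {θ : ℝ → ℝ} (hθ : ContDiff ℝ ∞ θ) : ContDiff ℝ ∞ (mm4_tw v0 θ) := by
  have h1 : ContDiff ℝ ∞ fun v : Pt => v.1 - v0.1 := contDiff_fst.sub contDiff_const
  have h2 : ContDiff ℝ ∞ fun v : Pt => v.2 - v0.2 := contDiff_snd.sub contDiff_const
  have h3 : ContDiff ℝ ∞ fun v : Pt => θ ((v.1 - v0.1) ^ 2 + (v.2 - v0.2) ^ 2) :=
    hθ.comp ((h1.pow 2).add (h2.pow 2))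
  have h4 : ContDiff ℝ ∞ fun v : Pt => Real.cos (θ ((v.1 - v0.1) ^ 2 + (v.2 - v0.2) ^ 2)) :=
    Real.contDiff_cos.comp h3
  have h5 : ContDiff ℝ ∞ fun v : Pt => Real.sin (θ ((v.1 - v0.1) ^ 2 + (v.2 - v0.2) ^ 2)) :=
    Real.contDiff_sin.comp h3
  exact (contDiff_const.add ((h4.mul h1).sub (h5.mul h2))).prodMk
    (contDiff_const.add ((h5.mul h1).add (h4.mul h2)))

theorem mm4_inv (v0 : Pt) (θ : ℝ → ℝ) (v : Pt) :
    mm4_tw v0 (fun t => - θ t) (mm4_tw v0 θ v) = v := by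
  have hρ : ((mm4_tw v0 θ v).1 - v0.1) ^ 2 + ((mm4_tw v0 θ v).2 - v0.2) ^ 2 =
      (v.1 - v0.1) ^ 2 + (v.2 - v0.2) ^ 2 := by
    simp only [mm4_tw]
    have hcs := Real.sin_sq_add_cos_sq (θ ((v.1 - v0.1) ^ 2 + (v.2 - v0.2) ^ 2))
    linear_combination ((v.1 - v0.1) ^ 2 + (v.2 - v0.2) ^ 2) * hcs
  have hcs := Real.sin_sq_add_cos_sq (θ ((v.1 - v0.1) ^ 2 + (v.2 - v0.2) ^ 2))
  have h0 : mm4_tw v0 (fun t => - θ t) (mm4_tw v0 θ v) =
      (v0.1 + (Real.cos (- θ ((v.1 - v0.1) ^ 2 + (v.2 - v0.2) ^ 2)) *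
          ((mm4_tw v0 θ v).1 - v0.1) -
        Real.sin (- θ ((v.1 - v0.1) ^ 2 + (v.2 - v0.2) ^ 2)) * ((mm4_tw v0 θ v).2 - v0.2)),
      v0.2 + (Real.sin (- θ ((v.1 - v0.1) ^ 2 + (v.2 - v0.2) ^ 2)) *
          ((mm4_tw v0 θ v).1 - v0.1) +
        Real.cos (- θ ((v.1 - v0.1) ^ 2 + (v.2 - v0.2) ^ 2)) *
          ((mm4_tw v0 θ v).2 - v0.2))) := by
    conv_lhs => rw [mm4_tw]
    rw [hρ]
  rw [h0, Real.cos_neg, Real.sin_neg]
  refine Prod.ext ?_ ?_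
  · simp only [mm4_tw]
    linear_combination (v.1 - v0.1) * hcs
  · simp only [mm4_tw]
    linear_combination (v.2 - v0.2) * hcs

/-- Proof. `θ : ℝ → ℝ` `C^∞`, `θ ρ = -π/2` for `ρ ≤ r0^2`, `θ ρ = 0` for `ρ ≥ r1^2` (smooth transition). With `ρ = u^2 + w^2`, `u = v.1 - v0.1`,
`w = v.2 - v0.2`: `Φ v = v0 + (cos θ(ρ) u - sin θ(ρ) w, sin θ(ρ) u + cos θ(ρ) w)`. `ρ` is invariant, so the same formula with `-θ` is the
inverse. For `θ = -π/2`: `(w, -u)`. Compact support: `ρ ≥ r1^2` if the sup norm of `v - v0` is at least `r1`. -/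
theorem twist (v0 : Pt) {r0 r1 : ℝ} (h0 : 0 < r0) (h1 : r0 < r1) : ∃ Φ : Pt → Pt, IsCDiff Φ ∧
    (∀ v : Pt, (v.1 - v0.1) ^ 2 + (v.2 - v0.2) ^ 2 ≤ r0 ^ 2 →
      Φ v = (v0.1 + (v.2 - v0.2), v0.2 - (v.1 - v0.1))) ∧
    ∀ v : Pt, r1 ^ 2 ≤ (v.1 - v0.1) ^ 2 + (v.2 - v0.2) ^ 2 → Φ v = v := by
  have hr : 0 < r1 ^ 2 - r0 ^ 2 := by nlinarith
  let θ : ℝ → ℝ := fun t => -(Real.pi / 2) * Real.smoothTransition ((r1 ^ 2 - t) / (r1 ^ 2 - r0 ^ 2))
  have hθ : ContDiff ℝ ∞ θ :=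
    contDiff_const.mul (Real.smoothTransition.contDiff.comp (by fun_prop))
  have hθ0 : ∀ t, t ≤ r0 ^ 2 → θ t = -(Real.pi / 2) := by
    intro t ht
    show -(Real.pi / 2) * Real.smoothTransition ((r1 ^ 2 - t) / (r1 ^ 2 - r0 ^ 2)) = _
    rw [Real.smoothTransition.one_of_one_le, mul_one]
    rw [le_div_iff₀ hr]
    linarith
  have hθ1 : ∀ t, r1 ^ 2 ≤ t → θ t = 0 := by
    intro t ht
    show -(Real.pi / 2) * Real.smoothTransition ((r1 ^ 2 - t) / (r1 ^ 2 - r0 ^ 2)) = _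
    rw [Real.smoothTransition.zero_of_nonpos, mul_zero]
    exact div_nonpos_of_nonpos_of_nonneg (by linarith) hr.le
  have hid : ∀ v : Pt, r1 ^ 2 ≤ (v.1 - v0.1) ^ 2 + (v.2 - v0.2) ^ 2 → mm4_tw v0 θ v = v := by
    intro v hv
    rw [mm4_tw, hθ1 _ hv, Real.cos_zero, Real.sin_zero]
    refine Prod.ext ?_ ?_
    · show v0.1 + (1 * (v.1 - v0.1) - 0 * (v.2 - v0.2)) = v.1
      ring
    · show v0.2 + (0 * (v.1 - v0.1) + 1 * (v.2 - v0.2)) = v.2
      ring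
  refine ⟨mm4_tw v0 θ, ⟨mm4_smooth v0 hθ, ⟨mm4_tw v0 (fun t => - θ t), mm4_smooth v0 hθ.neg,
    mm4_inv v0 θ, fun v => ?_⟩, ⟨‖v0‖ + r1, fun z hz => hid z ?_⟩⟩, ?_, hid⟩
  · have := mm4_inv v0 (fun t => - θ t) v
    simpa only [neg_neg] using this
  · have h2 : r1 ≤ ‖z - v0‖ := by
      have := norm_sub_norm_le z v0
      linarith
    have h3 : ‖z - v0‖ = max |z.1 - v0.1| |z.2 - v0.2| := rfl
    rw [h3] at h2
    have hr1 : 0 < r1 := h0.trans h1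
    rcases le_max_iff.1 h2 with h4 | h4
    · have h5 : r1 ^ 2 ≤ (z.1 - v0.1) ^ 2 := by
        rw [← sq_abs (z.1 - v0.1)]
        exact pow_le_pow_left₀ hr1.le h4 2
      nlinarith [sq_nonneg (z.2 - v0.2)]
    · have h5 : r1 ^ 2 ≤ (z.2 - v0.2) ^ 2 := by
        rw [← sq_abs (z.2 - v0.2)]
        exact pow_le_pow_left₀ hr1.le h4 2
      nlinarith [sq_nonneg (z.1 - v0.1)]
  · intro v hv
    rw [mm4_tw, hθ0 _ hv, Real.cos_neg, Real.sin_neg, Real.cos_pi_div_two, Real.sin_pi_div_two]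
    refine Prod.ext ?_ ?_
    · show v0.1 + (0 * (v.1 - v0.1) - -1 * (v.2 - v0.2)) = v0.1 + (v.2 - v0.2)
      ring
    · show v0.2 + (-1 * (v.1 - v0.1) + 0 * (v.2 - v0.2)) = v0.2 - (v.1 - v0.1)
      ring

end Pool.Agent.Lib.H37N
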