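import Pool.Agent.Lib.H37N.T2

/-! # H37N, chunk T4 (S/M): zoom -/

open Set Filter Topology Asymptotics
open scoped ContDiff

namespace Pool.Agent.Lib.H37N

variable {P E W : Type} [NormedAddCommGroup P] [NormedSpace ℝ P] [FiniteDimensional ℝ P]
  [NormedAddCommGroup E] [NormedSpace ℝ E] [FiniteDimensional ℝ E]
  [NormedAddCommGroup W] [NormedSpace ℝ W] [CompleteSpace W]

/-- T4. Zoom.

PROOF. `hadamard` for (x,ε) ↦ F(ε,x) (parameter x ∈ E, variable ε ∈ P) gives G₁ : E × P → (P →L W) smooth with F(ε,x) - F(0,x) = G₁(x,ε) ε.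
`hadamard1` for (ξ,ρ) ↦ F(0, x₀ + ρ • ξ) gives G₂ : E × ℝ → W smooth with F(0,x₀+ρξ) - F(0,x₀) = ρ • G₂(ξ,ρ), G₂(ξ,0) = deriv_ρ at 0 =
fderiv ℝ (fun x => F(0,x)) x₀ ξ (chain rule).  H(ρ,ε,ε',ξ) := G₁(x₀+ρ•ξ, ε) ε' + G₂(ξ,ρ).  If ε = ρ•ε' then ρ • G₁(..) ε' = G₁(..) ε. -/
theorem zoom {F : P × E → W} (hF : ContDiff ℝ ∞ F) (x₀ : E) :
    ∃ H : ℝ × P × P × E → W, ContDiff ℝ ∞ H ∧
      (∀ (ρ : ℝ) (ε ε' : P) (ξ : E), ε = ρ • ε' → ρ • H (ρ, ε, ε', ξ) = F (ε, x₀ + ρ • ξ) - F (0, x₀)) ∧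
      ∀ ξ, H (0, 0, 0, ξ) = fderiv ℝ (fun x => F (0, x)) x₀ ξ := by
  obtain ⟨G₁, hG₁, h1, -⟩ := hadamard (P := E) (E := P) (F := fun q : E × P => F (q.2, q.1))
    (hF.comp (contDiff_snd.prodMk contDiff_fst))
  obtain ⟨G₂, hG₂, h2, h3⟩ := hadamard1 (P := E) (F := fun q : E × ℝ => F (0, x₀ + q.2 • q.1))
    (hF.comp (contDiff_const.prodMk (contDiff_const.add (contDiff_snd.smul contDiff_fst))))
  refine ⟨fun q => G₁ (x₀ + q.1 • q.2.2.2, q.2.1) q.2.2.1 + G₂ (q.2.2.2, q.1), ?_, ?_, ?_⟩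
  · refine ContDiff.add (ContDiff.clm_apply (hG₁.comp ?_) ?_) (hG₂.comp ?_)
    · exact (contDiff_const.add (contDiff_fst.smul
        (contDiff_snd.comp (contDiff_snd.comp contDiff_snd)))).prodMk
        (contDiff_fst.comp contDiff_snd)
    · exact contDiff_fst.comp (contDiff_snd.comp contDiff_snd)
    · exact (contDiff_snd.comp (contDiff_snd.comp contDiff_snd)).prodMk contDiff_fst
  · intro ρ ε ε' ξ he
    have e1 := h1 (x₀ + ρ • ξ) ε
    have e2 := h2 ξ ρ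
    simp only at e1 e2 ⊢
    rw [smul_add, ← map_smul, ← he, e1, e2, zero_smul, add_zero]
    abel
  · intro ξ
    have e3 := h3 ξ
    simp only [map_zero, zero_add, e3]
    have hd : HasFDerivAt (fun x => F (0, x)) (fderiv ℝ (fun x => F (0, x)) x₀) x₀ := by
      have : Differentiable ℝ (fun x : E => F (0, x)) :=
        (hF.comp (contDiff_const.prodMk contDiff_id)).differentiable (by simp)
      exact (this x₀).hasFDerivAt
    have hl : HasDerivAt (fun t : ℝ => x₀ + t • ξ) ξ 0 := by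
      simpa using ((hasDerivAt_id (0 : ℝ)).smul_const ξ).const_add x₀
    have hd' : HasFDerivAt (fun x => F (0, x)) (fderiv ℝ (fun x => F (0, x)) x₀)
        (x₀ + (0 : ℝ) • ξ) := by simpa using hd
    exact (hd'.comp_hasDerivAt (0 : ℝ) hl).deriv

end Pool.Agent.Lib.H37N
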