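import Pool.Agent.Lib.H37N.SC1

/-! # H37N, chunk SC2 (S): Lemma C (S.3) -/

open Set Filter Topology Asymptotics
open scoped ContDiff

namespace Pool.Agent.Lib.H37N

/-- Comparison of powers near 0. -/
theorem sc2_pow {m k : ℕ} (h : m ≤ k) :
    (fun v : ℝ × ℝ => ‖v‖ ^ k) =O[𝓝 0] fun v : ℝ × ℝ => ‖v‖ ^ m := by
  refine IsBigO.of_bound 1 ?_
  filter_upwards [Metric.closedBall_mem_nhds (0 : ℝ × ℝ) one_pos] with v hv
  have hv1 : ‖v‖ ≤ 1 := by simpa using hv
  rw [one_mul, norm_pow, norm_pow, norm_norm]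
  exact pow_le_pow_of_le_one (norm_nonneg v) hv1 h

/-- S.3, LEMMA C: a plane map which preserves the directions and the area up to a high order is close to the identity to a high order.

PROOF.  Let `u v = R v - v`; `v.1 (u v).2 - v.2 (u v).1 = v.1 (R v).2 - v.2 (R v).1` and `w + u w = R w`.  Claim: `u = O(‖v‖^d)` for all `d` with `2 ≤ d ≤ e + 1`, by induction on `d`.
`d = 2`: `sc_base` (`‖v‖^(e+2) = O(‖v‖^3)` near 0 since `3 ≤ e+2`; `jac R 0 = 1` because `jac R v - 1 = O(‖v‖^e)`, `1 ≤ e`, at `v = 0`: `IsBigO.eq_zero_imp` or the bound at `v = 0`).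
`d → d+1` for `d ≤ e`: `sc_step` (`‖v‖^(e+2) = O(‖v‖^(d+2))`, `‖v‖^e = O(‖v‖^d)` near 0).  (Comparison of powers near 0: `IsBigO.of_bound 1`, `pow_le_pow_of_le_one`.) -/
theorem lemmaC {e : ℕ} (he : 1 ≤ e) {R : ℝ × ℝ → ℝ × ℝ} (hR : ContDiff ℝ ∞ R)
    (hK : (fun v : ℝ × ℝ => v.1 * (R v).2 - v.2 * (R v).1) =O[𝓝 0] fun v : ℝ × ℝ => ‖v‖ ^ (e + 2))
    (hJ : (fun v => jac R v - 1) =O[𝓝 0] fun v : ℝ × ℝ => ‖v‖ ^ e)
    (hD : ‖fderiv ℝ R 0 - ContinuousLinearMap.id ℝ (ℝ × ℝ)‖ < 1 / 2) :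
    (fun v => R v - v) =O[𝓝 0] fun v : ℝ × ℝ => ‖v‖ ^ (e + 1) := by
  have hu : ContDiff ℝ ∞ fun v => R v - v := hR.sub contDiff_id
  have hj0 : jac R 0 = 1 := by
    have h0 := IsBigO.eq_zero_of_norm_pow (f := fun v => jac R v - 1) (x₀ := (0 : ℝ × ℝ))
      (n := e) (by simpa using hJ) (by omega)
    linarith
  have key : ∀ d, d + 1 ≤ e →
      (fun v => R v - v) =O[𝓝 0] fun v : ℝ × ℝ => ‖v‖ ^ (d + 2) := by
    intro d
    induction d with
    | zero => intro _; exact sc_base hR (hK.trans (sc2_pow (by omega))) hj0 hD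
    | succ d ih =>
      intro hd
      have h1 := ih (by omega)
      refine sc_step hu (d + 2) (by omega) h1 ?_ ?_
      · refine IsBigO.trans ?_ (hK.trans (sc2_pow (show d + 2 + 2 ≤ e + 2 by omega)))
        refine (EventuallyEq.of_eq ?_).isBigO
        funext v
        simp only [Prod.snd_sub, Prod.fst_sub]
        ring
      · refine IsBigO.trans ?_ (hJ.trans (sc2_pow (show d + 2 ≤ e by omega)))
        refine (EventuallyEq.of_eq ?_).isBigO
        funext v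
        have h3 : (fun w => w + (R w - w)) = R := by
          funext w
          abel
        rw [h3]
  obtain ⟨k, hk⟩ : ∃ k, e = k + 1 := ⟨e - 1, by omega⟩
  have h5 := key k (by omega)
  rw [hk]
  exact h5

end Pool.Agent.Lib.H37N
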