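import Pool.Agent.Lib.H37N.SA6
import Pool.Agent.Lib.H37N.SC2

/-! # H37N, chunk SA7 (M): AS2 (S.2) -/

open Set Filter Topology Asymptotics
open scoped ContDiff

namespace Pool.Agent.Lib.H37N

variable {P : Type} [NormedAddCommGroup P] [NormedSpace ℝ P] [FiniteDimensional ℝ P] {n e : ℕ} {s₀ : ℝ} {d : ℕ → ℝ}
  {B : ℕ → (P × QQ n e) × ℝ × ℝ → ℝ × ℝ} {J : ℕ → (P × QQ n e) × ℝ × ℝ → ℝ}

/-- S.2, THEOREM AS2.

PROOF.  Let `R z v = st B (2n) (z,v)`.  `R (0,0) = id` (`st_full`), and `z ↦ fderiv (R z) 0` is continuous (`R` is smooth; `fderiv (R z) 0 = (fderiv (st B (2n)) (z,0)).comp inr`), so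
`‖fderiv (R z) 0 - id‖ < 1/2` for `z` near `(0,0)`.  By `st_jac` (`z₀ = (0,0)`, `ρ' z = ρ z.1`, `h0`: `st_zero` at `v = 0`, `spi n j 0 = 0`) for `z` near `(0,0)`, `v` near 0, `ρ z.1 ≠ 0`:
`jac (R z) v = exp (ρ z.1 * Jf (z,v))`; so there are a neighbourhood `U` of `0 : P` and `V'` of `0 : QQ` such that for `p ∈ U`, `q ∈ V'` both hold, the second one for all `v` near 0
(`Filter.Eventually.prod_nhds`-type lemmas: `eventually_nhds_prod_iff`, `Filter.Eventually.curry_nhds`).  Apply `as2_solve` with `V ∩ V'`.  For the `q` obtained: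
`jac (R (p,q)) v - 1 = exp (ρ p * Jf) - 1 = O(|Jf|) = O(‖v‖^(e+1)) = O(‖v‖^e)` (`Real.exp` is differentiable at 0; `Jf → 0`), `v ∧ R(v) = Kf = O(‖v‖^(e+2))`; `lemmaC`. -/
theorem as2 (he : 1 ≤ e) (hn : n = e + 3) (h : Blocks n e s₀ d B J) (hs : s₀ ≠ 0)
    (hd : ∑ j ∈ Finset.range (2 * n), d (j + 1) = 0) {ρ : P → ℝ}
    (hdet : ∀ j < 2 * n, ∀ᶠ r : (P × QQ n e) × ℝ × ℝ in 𝓝 ((0, 0), 0), ρ r.1.1 ≠ 0 →
      jac (fun v => B j (r.1, v)) r.2 = Real.exp (ρ r.1.1 * J j r))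
    {V : Set (QQ n e)} (hV : V ∈ 𝓝 0) :
    ∀ᶠ p : P in 𝓝 0, ρ p ≠ 0 → ∃ q ∈ V, (fun v : ℝ × ℝ => st B (2 * n) ((p, q), v) - v) =O[𝓝 0] fun v : ℝ × ℝ => ‖v‖ ^ (e + 1) := by
  have hn2 : 2 ≤ n := by omega
  have hF : ContDiff ℝ ∞ (st B (2 * n)) := st_contDiff (N := 2 * n) h.smooth _ le_rfl
  have hFz : ∀ z : P × QQ n e, ContDiff ℝ ∞ (fun v : ℝ × ℝ => st B (2 * n) (z, v)) := fun z =>
    hF.comp (contDiff_const.prodMk contDiff_id)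
  -- the derivative at `0` is close to the identity
  have hfd : ∀ z : P × QQ n e, fderiv ℝ (fun v : ℝ × ℝ => st B (2 * n) (z, v)) 0 =
      (fderiv ℝ (st B (2 * n)) (z, 0)).comp (ContinuousLinearMap.inr ℝ (P × QQ n e) (ℝ × ℝ)) := by
    intro z
    have h1 : HasFDerivAt (fun v : ℝ × ℝ => (z, v)) (ContinuousLinearMap.inr ℝ (P × QQ n e) (ℝ × ℝ)) 0 :=
      (hasFDerivAt_const z (0 : ℝ × ℝ)).prodMk (hasFDerivAt_id (𝕜 := ℝ) (0 : ℝ × ℝ))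
    have h2 : HasFDerivAt (st B (2 * n)) (fderiv ℝ (st B (2 * n)) (z, 0)) (z, (0 : ℝ × ℝ)) :=
      ((hF.differentiable (by simp)) _).hasFDerivAt
    exact (h2.comp (0 : ℝ × ℝ) h1).fderiv
  have hcont : Continuous fun z : P × QQ n e =>
      ‖fderiv ℝ (fun v : ℝ × ℝ => st B (2 * n) (z, v)) 0 - ContinuousLinearMap.id ℝ (ℝ × ℝ)‖ := by
    simp only [hfd]
    have h1 : Continuous fun z : P × QQ n e => fderiv ℝ (st B (2 * n)) (z, (0 : ℝ × ℝ)) :=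
      (hF.continuous_fderiv (by simp)).comp (continuous_id.prodMk continuous_const)
    exact ((h1.clm_comp continuous_const).sub continuous_const).norm
  have hD0 : ‖fderiv ℝ (fun v : ℝ × ℝ => st B (2 * n) (((0, 0) : P × QQ n e), v)) 0 -
      ContinuousLinearMap.id ℝ (ℝ × ℝ)‖ < 1 / 2 := by
    have h1 : (fun v : ℝ × ℝ => st B (2 * n) (((0, 0) : P × QQ n e), v)) = fun v => v := by
      funext v
      exact st_full hn2 h v
    rw [h1, fderiv_fun_id]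
    simp
  have hev1 : ∀ᶠ z : P × QQ n e in 𝓝 (0, 0),
      ‖fderiv ℝ (fun v : ℝ × ℝ => st B (2 * n) (z, v)) 0 - ContinuousLinearMap.id ℝ (ℝ × ℝ)‖ < 1 / 2 :=
    hcont.continuousAt.eventually_lt continuousAt_const hD0
  -- the Jacobian
  have hst0 : ∀ j < 2 * n, st B j (((0, 0) : P × QQ n e), (0 : ℝ × ℝ)) = 0 := by
    intro j hj
    rw [st_zero hn2 h 0 j hj.le]
    simp [spi]
  have hev2 := (st_jac (z₀ := ((0, 0) : P × QQ n e)) (ρ := fun z => ρ z.1) (2 * n) h.smooth hst0 hdet).curry_nhds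
  obtain ⟨pa, hpa, pb, hpb, hpp⟩ := Filter.eventually_prod_iff.1 ((nhds_prod_eq (x := (0 : P)) (y := (0 : QQ n e))) ▸ (hev1.and hev2))
  filter_upwards [hpa, as2_solve hn h hs hd (Filter.inter_mem hV hpb)] with p hp hq hρ
  obtain ⟨q, ⟨hqV, hqb⟩, hK, hJ⟩ := hq
  obtain ⟨h1, h2⟩ := hpp hp hqb
  refine ⟨q, hqV, ?_⟩
  refine lemmaC he (hFz (p, q)) hK ?_ h1
  have h2' : (fun v : ℝ × ℝ => jac (fun v => st B (2 * n) ((p, q), v)) v - 1) =ᶠ[𝓝 0]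
      fun v => Real.exp (ρ p * Jf B J (2 * n) ((p, q), v)) - 1 := by
    filter_upwards [h2] with v hv
    rw [hv hρ]
    rfl
  refine h2'.trans_isBigO ?_
  have hJ1 : (fun v : ℝ × ℝ => ρ p * Jf B J (2 * n) ((p, q), v)) =O[𝓝 0] fun v : ℝ × ℝ => ‖v‖ ^ (e + 1) :=
    hJ.const_mul_left (ρ p)
  have hpow0 : Tendsto (fun v : ℝ × ℝ => ‖v‖ ^ (e + 1)) (𝓝 0) (𝓝 0) := by
    have : Tendsto (fun v : ℝ × ℝ => ‖v‖ ^ (e + 1)) (𝓝 0) (𝓝 (‖(0 : ℝ × ℝ)‖ ^ (e + 1))) :=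
      (continuous_norm.pow (e + 1)).continuousAt
    simpa using this
  have hJ0 : Tendsto (fun v : ℝ × ℝ => ρ p * Jf B J (2 * n) ((p, q), v)) (𝓝 0) (𝓝 0) := hJ1.trans_tendsto hpow0
  have hexp : (fun x : ℝ => Real.exp x - 1) =O[𝓝 0] fun x => x := by
    have := (Real.hasDerivAt_exp 0).isBigO_sub
    simpa using this
  refine ((hexp.comp_tendsto hJ0).trans hJ1).trans ?_
  refine IsBigO.of_bound 1 ?_
  filter_upwards [Metric.ball_mem_nhds (0 : ℝ × ℝ) one_pos] with v hv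
  have hv1 : ‖v‖ ≤ 1 := by
    rw [mem_ball_zero_iff] at hv
    exact hv.le
  rw [one_mul, norm_pow, norm_pow, norm_norm]
  exact pow_le_pow_of_le_one (norm_nonneg _) hv1 (Nat.le_succ e)

end Pool.Agent.Lib.H37N
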