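import Pool.Agent.Lib.H37N.BDefs

/-!
# H37N, section I: definitions (rates, pass functions, rescaled functions of Stage I)

The parameter `p : Par` is `(s, e1, e2, x0, e4, β)`: s = E^(-1/m), e1 = λ_P^n, e2 = μ_Q^(-ν)/d_S, x0 = λ_Q^ν s_S,
e4 = μ_P^n λ_Q^ν, β = B - B₀.
-/

open Set Filter Topology Asymptotics
open scoped ContDiff

namespace Pool.Agent.Lib.H37N

noncomputable section

/-- the rates of the two charts -/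
structure Rates (lP mP lQ mQ : ℝ) : Prop where
  lP_pos : 0 < lP
  lP_lt : lP < 1
  mP_gt : 1 < mP
  lQ_pos : 0 < lQ
  lQ_lt : lQ < 1
  mQ_gt : 1 < mQ
  prodP : lP * mP < 1
  prodQ : 1 < lQ * mQ
  R1 : Real.log lQ + Real.log (lQ * mQ) / (-Real.log (lP * mP)) * Real.log mP < 0
  irr : Irrational (Real.log (lP * mP) / Real.log (lQ * mQ))

/-- the functions which describe the transition `S` from the chart at `P` to the chart at `Q` (I.0) -/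
structure PassFn (S : Pt → Pt) (dS sS : ℝ) (Th : ℝ → ℝ) (W : Pt → ℝ) (Y1 : ℝ → ℝ) (Y2 : Pt → ℝ) :
    Prop where
  smooth_Th : ContDiff ℝ ∞ Th
  smooth_W : ContDiff ℝ ∞ W
  smooth_Y1 : ContDiff ℝ ∞ Y1
  smooth_Y2 : ContDiff ℝ ∞ Y2
  Th0 : Th 0 = 0
  W0 : W 0 = 1
  Y10 : Y1 0 = jac S 0 / dS
  eq1 : ∀ᶠ v : Pt in 𝓝 0, (S (v.1, Th v.1 + v.2)).1 = sS + v.1 * Y1 v.1 + v.2 * Y2 v
  eq2 : ∀ᶠ v : Pt in 𝓝 0, (S (v.1, Th v.1 + v.2)).2 = dS * v.2 * W v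

/-- the map `κ_P → κ_Q` of the pass (n steps near P, the connection, ν steps near Q), in coordinates -/
def mid (lP mP lQ mQ uS : ℝ) (S : Pt → Pt) (n ν : ℕ) (w : Pt) : Pt :=
  (lQ ^ ν * (S (lP ^ n * w.1, mP ^ n * w.2 - uS)).1, mQ ^ ν * (S (lP ^ n * w.1, mP ^ n * w.2 - uS)).2)

/-- a vertical perturbation of `T` -/
def vert (T : Pt → Pt) (φ : ℝ → ℝ) (v : Pt) : Pt := ((T v).1, (T v).2 + φ (T v).1)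

/-- the curve of the new datum -/
def cmp (lP mP lQ mQ uS : ℝ) (S T1 T2 : Pt → Pt) (b2 : ℝ) (n ν : ℕ) (φ1 φ2 : ℝ → ℝ) (t : ℝ) : Pt :=
  vert T2 φ2 (mid lP mP lQ mQ uS S n ν (vert T1 φ1 (0, t)) - (0, b2))

/-- parameters `(s, e1, e2, x0, e4, β)` -/
abbrev Par := ℝ × ℝ × ℝ × ℝ × ℝ × ℝ

/-- the parameter of the pass (n, ν) -/
def parOf (m : ℕ) (dS sS B0 lP mP lQ mQ : ℝ) (n ν : ℕ) : Par :=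
  ((dS * mP ^ n * mQ ^ ν)⁻¹ ^ (1 / (m : ℝ)), lP ^ n, (dS * mQ ^ ν)⁻¹, lQ ^ ν * sS, mP ^ n * lQ ^ ν,
    dS * (lP * mP) ^ n * (lQ * mQ) ^ ν - B0)

/-- parameters of the two families of perturbations -/
abbrev PE (m : ℕ) := ℝ × ℝ × ℝ × (Fin m → ℝ)

/-- the ingredients of Stage I: `a = a_1`, `b = b_2`, `a2 = a_2`; `T_1(0,t) = (a + t Ah t, t^(m+1) Yh t)`, `T_2 = (XX, YY)`,
`YY (0,t) = t^(m+1) Yk t` -/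
structure Ing (m : ℕ) where
  a : ℝ
  b : ℝ
  a2 : ℝ
  B0 : ℝ
  uS : ℝ
  Th : ℝ → ℝ
  W : Pt → ℝ
  Y1 : ℝ → ℝ
  Y2 : Pt → ℝ
  U0 : Pt → ℝ
  Ah : ℝ → ℝ
  Yh : ℝ → ℝ
  XX : Pt → ℝ
  YY : Pt → ℝ
  Yk : ℝ → ℝ
  N : Pt → ℝ
  Mh : ℝ × ℝ × ℝ → ℝ
  /-- the path of AS1 -/
  G : Fin m → ℝ → ℝ
  /-- divided differences of `HB`, `RB`, `ZB` -/
  DH : Par × (ℝ × ℝ × ℝ) × ℝ → ℝ
  DR : Par × (ℝ × ℝ × ℝ) × ℝ → ℝ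
  DZ : Par × (ℝ × ℝ × ℝ) × ℝ → ℝ

namespace Ing

variable {m : ℕ} (I : Ing m)

/-- η as a function of (e1, e2, X, U) -/
def H (e1 e2 X U : ℝ) : ℝ := (U + I.b) * I.W (e1 * X, e2 * (U + I.b)) - I.b

/-- Ξ as a function of (e1, e2, e4, β, X, U) -/
def Xi (e1 e2 e4 β X U : ℝ) : ℝ :=
  (I.B0 + β) * X * I.Y1 (e1 * X) + e4 * (U + I.b) * I.Y2 (e1 * X, e2 * (U + I.b))

/-- Ξ as a function of (p, (X, U, η)) -/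
def XiB (q : Par × (ℝ × ℝ × ℝ)) : ℝ :=
  I.Xi q.1.2.1 q.1.2.2.1 q.1.2.2.2.2.1 q.1.2.2.2.2.2 q.2.1 q.2.2.1

/-- η as a function of (p, (X, U, η)) -/
def HB (q : Par × (ℝ × ℝ × ℝ)) : ℝ := I.H q.1.2.1 q.1.2.2.1 q.2.1 q.2.2.1

/-- Ξ Mh(x0, η, s^m Ξ) as a function of (p, (X, U, η)) -/
def RB (q : Par × (ℝ × ℝ × ℝ)) : ℝ :=
  I.XiB q * I.Mh (q.1.2.2.2.1, q.2.2.2, q.1.1 ^ m * I.XiB q)

/-- X_2 = XX(x0 + s^m Ξ, η) as a function of (p, (X, U, η)) -/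
def ZB (q : Par × (ℝ × ℝ × ℝ)) : ℝ := I.XX (q.1.2.2.2.1 + q.1.1 ^ m * I.XiB q, q.2.2.2)

/-- the base point (X, U, η) = (a_1, U_0(e1,e2), 0) -/
def base (p : Par) : ℝ × ℝ × ℝ := (I.a, I.U0 (p.2.1, p.2.2.1), 0)

/-- χ = (X_1 - a_1)/s -/
def chi (q : Par × ℝ × ℝ) : ℝ := q.2.2 * I.Ah (q.1.1 * q.2.2)

/-- V as a function of (p, z, x) -/
def V (q : Par × ℝ × ℝ) : ℝ :=
  q.2.2 ^ (m + 1) * I.Yh (q.1.1 * q.2.2) + ∑ j : Fin m, I.G j q.2.1 * I.chi q ^ ((j : ℕ) + 1)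

/-- V_2 = η_2/s as a function of (p, z, x) -/
def V2 (q : Par × ℝ × ℝ) : ℝ := I.DH (q.1, (I.chi q, I.V q, 0), q.1.1)

/-- the direction (χ, V, V_2) -/
def vv (q : Par × ℝ × ℝ) : ℝ × ℝ × ℝ := (I.chi q, I.V q, I.V2 q)

/-- ζ = (X_2 - X_2^0)/s -/
def zt (q : Par × ℝ × ℝ) : ℝ := I.DZ (q.1, I.vv q, q.1.1)

/-- the rescaled K -/
def K (q : Par × ℝ × ℝ) : ℝ :=
  I.V2 q ^ (m + 1) * I.Yk (q.1.1 * I.V2 q) + I.DR (q.1, I.vv q, q.1.1)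

/-- the first family of perturbations; the parameter is (μ_P^(-n), e1, E^(-1)(b+U_0), s^(m-j) g_j) -/
def Ph1 (q : PE m × ℝ) : ℝ :=
  q.1.1 * (I.uS + I.Th (q.1.2.1 * q.2)) + q.1.2.2.1 + ∑ j : Fin m, q.1.2.2.2 j * (q.2 - I.a) ^ ((j : ℕ) + 1)

/-- the second family of perturbations; the parameter is (x0, s^m R(base), X_2^0 - a_2, s^(m-j) k_j) -/
def Ph2 (q : PE m × ℝ) : ℝ :=
  -I.N (q.1.1, q.2) - q.1.2.1 - ∑ j : Fin m, q.1.2.2.2 j * (q.2 - I.a2 - q.1.2.2.1) ^ ((j : ℕ) + 1)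

/-- parameter of the first family -/
def par1 (mi : ℝ) (p : Par) (z : ℝ) : PE m :=
  (mi, p.2.1, p.1 ^ m * (I.b + I.U0 (p.2.1, p.2.2.1)), fun j => p.1 ^ (m - (j : ℕ)) * I.G j z)

/-- parameter of the second family -/
def par2 (p : Par) (k : Fin m → ℝ) : PE m :=
  (p.2.2.2.1, p.1 ^ m * I.RB (p, I.base p), I.ZB (p, I.base p) - I.a2, fun j => p.1 ^ (m - (j : ℕ)) * k j)

/-- X_1 as a function of (p, z, x) -/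
def X1 (q : Par × ℝ × ℝ) : ℝ := I.a + q.1.1 * I.chi q

/-- U as a function of (p, z, x) -/
def U (q : Par × ℝ × ℝ) : ℝ := I.U0 (q.1.2.1, q.1.2.2.1) + q.1.1 * I.V q

/-- Ξ as a function of (p, z, x) -/
def XiQ (q : Par × ℝ × ℝ) : ℝ :=
  I.Xi q.1.2.1 q.1.2.2.1 q.1.2.2.2.2.1 q.1.2.2.2.2.2 (I.X1 q) (I.U q)

/-- the conditions (at (p,z,x)) under which the formulas for the curve hold -/
structure Good (S T1 T2 : Pt → Pt) (dS sS : ℝ) (N : Set Pt) (q : Par × ℝ × ℝ) : Prop where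
  gT1 : T1 (0, q.1.1 * q.2.2) =
    (I.a + (q.1.1 * q.2.2) * I.Ah (q.1.1 * q.2.2), (q.1.1 * q.2.2) ^ (m + 1) * I.Yh (q.1.1 * q.2.2))
  gU0 : (I.U0 (q.1.2.1, q.1.2.2.1) + I.b) * I.W (q.1.2.1 * I.a, q.1.2.2.1 * (I.U0 (q.1.2.1, q.1.2.2.1) + I.b)) = I.b
  g1 : (S (q.1.2.1 * I.X1 q, I.Th (q.1.2.1 * I.X1 q) + q.1.2.2.1 * (I.U q + I.b))).1 =
    sS + (q.1.2.1 * I.X1 q) * I.Y1 (q.1.2.1 * I.X1 q) +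
      (q.1.2.2.1 * (I.U q + I.b)) * I.Y2 (q.1.2.1 * I.X1 q, q.1.2.2.1 * (I.U q + I.b))
  g2 : (S (q.1.2.1 * I.X1 q, I.Th (q.1.2.1 * I.X1 q) + q.1.2.2.1 * (I.U q + I.b))).2 =
    dS * (q.1.2.2.1 * (I.U q + I.b)) * I.W (q.1.2.1 * I.X1 q, q.1.2.2.1 * (I.U q + I.b))
  gM : I.YY (q.1.2.2.2.1 + q.1.1 ^ m * I.XiQ q, q.1.1 * I.V2 q) -
      I.N (q.1.2.2.2.1, I.XX (q.1.2.2.2.1 + q.1.1 ^ m * I.XiQ q, q.1.1 * I.V2 q)) =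
    I.YY (0, q.1.1 * I.V2 q) + (q.1.1 ^ m * I.XiQ q) * I.Mh (q.1.2.2.2.1, q.1.1 * I.V2 q, q.1.1 ^ m * I.XiQ q)
  gYk : I.YY (0, q.1.1 * I.V2 q) = (q.1.1 * I.V2 q) ^ (m + 1) * I.Yk (q.1.1 * I.V2 q)
  gT2 : T2 (q.1.2.2.2.1 + q.1.1 ^ m * I.XiQ q, q.1.1 * I.V2 q) =
    (I.XX (q.1.2.2.2.1 + q.1.1 ^ m * I.XiQ q, q.1.1 * I.V2 q), I.YY (q.1.2.2.2.1 + q.1.1 ^ m * I.XiQ q, q.1.1 * I.V2 q))
  gN1 : (q.1.2.1 * I.X1 q, I.Th (q.1.2.1 * I.X1 q) + q.1.2.2.1 * (I.U q + I.b)) ∈ N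
  gN2 : (q.1.2.2.2.1 + q.1.1 ^ m * I.XiQ q, q.1.1 * I.V2 q) ∈ N
  gN3 : (I.ZB (q.1, I.base q.1) + q.1.1 * I.zt q - I.a2, 0) ∈ N

/-- the properties of the ingredients -/
structure OK (S T1 T2 : Pt → Pt) (dS sS al1 al2 ka1 ka2 gm2 el : ℝ) : Prop where
  hm : 1 ≤ m
  pf : PassFn S dS sS I.Th I.W I.Y1 I.Y2
  smooth_U0 : ContDiff ℝ ∞ I.U0
  U00 : I.U0 0 = 0
  eqU0 : ∀ᶠ e : Pt in 𝓝 0, (I.U0 e + I.b) * I.W (e.1 * I.a, e.2 * (I.U0 e + I.b)) = I.b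
  smooth_Ah : ContDiff ℝ ∞ I.Ah
  smooth_Yh : ContDiff ℝ ∞ I.Yh
  Ah0 : I.Ah 0 = al1
  Yh0 : I.Yh 0 = ka1
  eqT1 : ∀ᶠ t : ℝ in 𝓝 0, T1 (0, t) = (I.a + t * I.Ah t, t ^ (m + 1) * I.Yh t)
  smooth_XX : ContDiff ℝ ∞ I.XX
  smooth_YY : ContDiff ℝ ∞ I.YY
  smooth_Yk : ContDiff ℝ ∞ I.Yk
  XX0 : I.XX 0 = I.a2
  XXt : HasDerivAt (fun t => I.XX (0, t)) al2 0
  Yk0 : I.Yk 0 = ka2
  eqYk : ∀ᶠ t : ℝ in 𝓝 0, I.YY (0, t) = t ^ (m + 1) * I.Yk t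
  eqT2 : ∀ᶠ v : Pt in 𝓝 0, T2 v = (I.XX v, I.YY v)
  smooth_N : ContDiff ℝ ∞ I.N
  N0 : ∀ X, I.N (0, X) = 0
  smooth_Mh : ContDiff ℝ ∞ I.Mh
  Mh0 : I.Mh 0 = gm2
  eqM : ∀ᶠ r : ℝ × ℝ × ℝ in 𝓝 0,
    I.YY (r.1 + r.2.2, r.2.1) - I.N (r.1, I.XX (r.1 + r.2.2, r.2.1)) = I.YY (0, r.2.1) + r.2.2 * I.Mh r
  smooth_G : ∀ j, ContDiff ℝ ∞ (I.G j)
  smooth_DH : ContDiff ℝ ∞ I.DH
  smooth_DR : ContDiff ℝ ∞ I.DR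
  smooth_DZ : ContDiff ℝ ∞ I.DZ
  eqDH : ∀ p v s, I.HB (p, I.base p + s • v) = I.HB (p, I.base p) + s * I.DH (p, v, s)
  eqDR : ∀ p v s, I.RB (p, I.base p + s • v) = I.RB (p, I.base p) + s * I.DR (p, v, s)
  eqDZ : ∀ p v s, I.ZB (p, I.base p + s • v) = I.ZB (p, I.base p) + s * I.DZ (p, v, s)
  DH0 : ∀ v, I.DH (0, v, 0) = v.2.1
  DR0 : ∀ v, I.DR (0, v, 0) = I.B0 * I.Y1 0 * gm2 * v.1 + el * v.2.2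
  DZ0 : ∀ v, I.DZ (0, v, 0) = al2 * v.2.2

end Ing

end

end Pool.Agent.Lib.H37N
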