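import Pool.Agent.Lib.H37N.A01
import Pool.Agent.Lib.H37N.A02

/-!
# H37N A03 (size M): coefficients of the differences of `g` on `VV i`
-/

open Set Filter Topology
open scoped ContDiff

namespace Pool.Agent.Lib.H37N

variable {g : Pt → Pt}

/-- the four coefficients of a linear map as linear functionals -/
noncomputable def a03_l (k : Bool) (v : Pt) : (Pt →L[ℝ] Pt) →L[ℝ] ℝ :=
  (if k then ContinuousLinearMap.snd ℝ ℝ ℝ else ContinuousLinearMap.fst ℝ ℝ ℝ).comp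
    (ContinuousLinearMap.apply ℝ Pt v)

theorem a03_l_fst (v : Pt) (A : Pt →L[ℝ] Pt) : a03_l false v A = (A v).1 := by
  simp [a03_l]

theorem a03_l_snd (v : Pt) (A : Pt →L[ℝ] Pt) : a03_l true v A = (A v).2 := by
  simp [a03_l]

theorem a03_convex (l : (Pt →L[ℝ] Pt) →L[ℝ] ℝ) (c e : ℝ) : Convex ℝ {A | |l A - c| ≤ e} := by
  have h : {A | |l A - c| ≤ e} = l ⁻¹' Metric.closedBall c e := by
    ext A
    simp [Real.dist_eq]
  rw [h]
  exact (convex_closedBall c e).linear_preimage l.toLinearMap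

theorem a03_closed (l : (Pt →L[ℝ] Pt) →L[ℝ] ℝ) (c e : ℝ) : IsClosed {A | |l A - c| ≤ e} := by
  have h : {A | |l A - c| ≤ e} = l ⁻¹' Metric.closedBall c e := by
    ext A
    simp [Real.dist_eq]
  rw [h]
  exact Metric.isClosed_closedBall.preimage l.continuous

theorem a03_apply (A : Pt →L[ℝ] Pt) (v : Pt) : A v = v.1 • A (1, 0) + v.2 • A (0, 1) := by
  rw [← map_smul, ← map_smul, ← map_add]
  congr 1
  ext <;> simp

theorem a03_bound (A A' : Pt →L[ℝ] Pt) (v : Pt) (hv : ‖v‖ ≤ 1) :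
    |(A v).1 - (A' v).1| ≤ ‖A - A'‖ ∧ |(A v).2 - (A' v).2| ≤ ‖A - A'‖ := by
  have h1 : ‖(A - A') v‖ ≤ ‖A - A'‖ := by
    refine ((A - A').le_opNorm v).trans ?_
    have := mul_le_mul_of_nonneg_left hv (norm_nonneg (A - A'))
    linarith
  have h2 : (A - A') v = A v - A' v := rfl
  rw [h2] at h1
  exact ⟨(norm_fst_le (A v - A' v)).trans h1, (norm_snd_le (A v - A' v)).trans h1⟩

/-- Proof. `mean_two` with `K = VV i` (convex, a product of intervals), `O` from `h.smooth`, `L = e0` (`h.lip`),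
`C = {A | |(A (1,0)).1 - 1/pw i| ≤ e0 ∧ |(A (1,0)).2| ≤ e0 ∧ |(A (0,1)).1| ≤ e0 ∧ |(A (0,1)).2 - qw i| ≤ e0}`, which is
convex (intersection of preimages of intervals under linear maps) and closed; `h.close1`. Then
`a = (A (1,0)).1`, `c = (A (1,0)).2`, `b = (A (0,1)).1`, `d = (A (0,1)).2`, `A v = v.1 • A (1,0) + v.2 • A (0,1)`, and each
`|a - a'| ≤ ‖(A - A') (1,0)‖ ≤ ‖A - A'‖ * ‖(1,0)‖ = ‖A - A'‖` (sup norm). -/
theorem near_mean (h : Near g) (i : Sy) {z0 z1 z2 z3 : Pt} (h0 : z0 ∈ VV i) (h1 : z1 ∈ VV i)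
    (h2 : z2 ∈ VV i) (h3 : z3 ∈ VV i) : ∃ a b c d a' b' c' d' : ℝ,
    (g z1).1 - (g z0).1 = a * (z1.1 - z0.1) + b * (z1.2 - z0.2) ∧
    (g z1).2 - (g z0).2 = c * (z1.1 - z0.1) + d * (z1.2 - z0.2) ∧
    (g z3).1 - (g z2).1 = a' * (z3.1 - z2.1) + b' * (z3.2 - z2.2) ∧
    (g z3).2 - (g z2).2 = c' * (z3.1 - z2.1) + d' * (z3.2 - z2.2) ∧
    (|a - 1 / pw i| ≤ e0 ∧ |b| ≤ e0 ∧ |c| ≤ e0 ∧ |d - qw i| ≤ e0) ∧
    (|a' - 1 / pw i| ≤ e0 ∧ |b'| ≤ e0 ∧ |c'| ≤ e0 ∧ |d' - qw i| ≤ e0) ∧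
    (|a - a'| ≤ e0 * max ‖z2 - z0‖ ‖z3 - z1‖ ∧ |b - b'| ≤ e0 * max ‖z2 - z0‖ ‖z3 - z1‖ ∧
     |c - c'| ≤ e0 * max ‖z2 - z0‖ ‖z3 - z1‖ ∧ |d - d'| ≤ e0 * max ‖z2 - z0‖ ‖z3 - z1‖) := by
  obtain ⟨O, hO, hsub, hsm, -, -⟩ := h.smooth
  have hKO : VV i ⊆ O := by
    intro z hz
    apply hsub
    cases i
    · exact Or.inl (Or.inl hz)
    · exact Or.inl (Or.inr hz)
  have hK : Convex ℝ (VV i) := (convex_Icc _ _).prod (convex_Icc _ _)
  have he0 : (0 : ℝ) ≤ e0 := by norm_num [e0]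
  obtain ⟨A, hA, A', hA', e1, e2, e3⟩ := mean_two hO hK hKO hsm he0 (h.lip i)
    (C := {A | |a03_l false (1, 0) A - 1 / pw i| ≤ e0} ∩ {A | |a03_l true (1, 0) A - 0| ≤ e0} ∩
      {A | |a03_l false (0, 1) A - 0| ≤ e0} ∩ {A | |a03_l true (0, 1) A - qw i| ≤ e0})
    ((((a03_convex _ _ _).inter (a03_convex _ _ _)).inter (a03_convex _ _ _)).inter
      (a03_convex _ _ _))
    ((((a03_closed _ _ _).inter (a03_closed _ _ _)).inter (a03_closed _ _ _)).inter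
      (a03_closed _ _ _))
    (by
      intro z hz
      obtain ⟨c1, c2, c3, c4⟩ := h.close1 i z hz
      refine ⟨⟨⟨?_, ?_⟩, ?_⟩, ?_⟩
      · change |a03_l false (1, 0) (fderiv ℝ g z) - 1 / pw i| ≤ e0
        rw [a03_l_fst]; exact c1
      · change |a03_l true (1, 0) (fderiv ℝ g z) - 0| ≤ e0
        rw [a03_l_snd, sub_zero]; exact c2
      · change |a03_l false (0, 1) (fderiv ℝ g z) - 0| ≤ e0
        rw [a03_l_fst, sub_zero]; exact c3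
      · change |a03_l true (0, 1) (fderiv ℝ g z) - qw i| ≤ e0
        rw [a03_l_snd]; exact c4) h0 h1 h2 h3
  obtain ⟨⟨⟨b1, b2⟩, b3⟩, b4⟩ := hA
  obtain ⟨⟨⟨b1', b2'⟩, b3'⟩, b4'⟩ := hA'
  simp only [mem_setOf_eq, a03_l_fst, a03_l_snd, sub_zero] at b1 b2 b3 b4 b1' b2' b3' b4'
  have hv1 : ‖((1 : ℝ), (0 : ℝ))‖ ≤ 1 := by simp [Prod.norm_def]
  have hv2 : ‖((0 : ℝ), (1 : ℝ))‖ ≤ 1 := by simp [Prod.norm_def]
  obtain ⟨d1, d2⟩ := a03_bound A A' (1, 0) hv1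
  obtain ⟨d3, d4⟩ := a03_bound A A' (0, 1) hv2
  refine ⟨(A (1, 0)).1, (A (0, 1)).1, (A (1, 0)).2, (A (0, 1)).2, (A' (1, 0)).1, (A' (0, 1)).1,
    (A' (1, 0)).2, (A' (0, 1)).2, ?_, ?_, ?_, ?_, ⟨b1, b3, b2, b4⟩, ⟨b1', b3', b2', b4'⟩,
    d1.trans e3, d3.trans e3, d2.trans e3, d4.trans e3⟩
  · have := congrArg Prod.fst e1
    rw [a03_apply] at this
    simp only [Prod.fst_sub, Prod.fst_add, Prod.smul_fst, smul_eq_mul, Prod.snd_sub] at this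
    rw [this]; ring
  · have := congrArg Prod.snd e1
    rw [a03_apply] at this
    simp only [Prod.fst_sub, Prod.snd_add, Prod.smul_snd, smul_eq_mul, Prod.snd_sub] at this
    rw [this]; ring
  · have := congrArg Prod.fst e2
    rw [a03_apply] at this
    simp only [Prod.fst_sub, Prod.fst_add, Prod.smul_fst, smul_eq_mul, Prod.snd_sub] at this
    rw [this]; ring
  · have := congrArg Prod.snd e2
    rw [a03_apply] at this
    simp only [Prod.fst_sub, Prod.snd_add, Prod.smul_snd, smul_eq_mul, Prod.snd_sub] at this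
    rw [this]; ring

end Pool.Agent.Lib.H37N
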