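import Pool.Agent.Lib.H37N.ADefs

/-!
# H37N A05 (size S): swapping a cross system
-/

open Set Filter Topology

namespace Pool.Agent.Lib.H37N

theorem a05_swap_mem {z : Pt} (h : z ∈ NN) : ((z.2, z.1) : Pt) ∈ NN := ⟨h.2, h.1⟩

theorem a05_norm (z w : Pt) : ‖((z.2, z.1) : Pt) - (w.2, w.1)‖ = ‖z - w‖ := by
  simp only [Prod.norm_def, Prod.fst_sub, Prod.snd_sub]
  exact max_comm _ _

theorem a05_mv {s t : ℝ} {F : Pt → ℝ} (h : MV s t F) : MV t s (fun z => F (z.2, z.1)) := by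
  intro z0 h0 z1 h1 z2 h2 z3 h3
  obtain ⟨a, b, a', b', e1, e2, ha, hb, ha', hb', haa, hbb⟩ :=
    h _ (a05_swap_mem h0) _ (a05_swap_mem h1) _ (a05_swap_mem h2) _ (a05_swap_mem h3)
  rw [a05_norm, a05_norm] at haa hbb
  refine ⟨b, a, b', a', ?_, ?_, hb, ha, hb', ha', hbb, haa⟩
  · simp only at e1 ⊢
    rw [e1]; ring
  · simp only at e2 ⊢
    rw [e2]; ring

/-- Proof. All fields by exchanging the coordinates: `(z.2, z.1) ∈ NN ↔ z ∈ NN`, the sup norm is symmetric; in `MV`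
exchange the roles of `a, b` (and `a', b'`): for `swX Y i`, `Y z1 - Y z0 = a dx + b dy` becomes
`b * (z1.1 - z0.1) + a * (z1.2 - z0.2)`. -/
theorem CS.swap {p q : Sy → ℝ} {X Y : Sy → Pt → ℝ} (h : CS p q X Y) :
    CS q p (swX Y) (swX X) where
  p0 := h.q0
  q0 := h.p0
  psum := h.qsum
  qsum := h.psum
  X0 := fun i _ hz => h.Y0 i _ (a05_swap_mem hz)
  Y0 := fun i _ hz => h.X0 i _ (a05_swap_mem hz)
  mvX := fun i => a05_mv (h.mvY i)
  mvY := fun i => a05_mv (h.mvX i)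

end Pool.Agent.Lib.H37N
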