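import Pool.Agent.Lib.H37N.A51

/-!
# H37N A53 (size M): monotonicity of `DD` in both leaves
-/

open Set Filter Topology

namespace Pool.Agent.Lib.H37N

variable {g : Pt → Pt}

theorem a53_pt (h : Near g) {f0 f1 s : ℝ → ℝ} (h0 : IsLeaf f0) (h1 : IsLeaf f1) (hs : IsLeaf s)
    {x : ℝ} (hx : x ∈ JJ) (hle : f0 x ≤ f1 x) :
    (cc - 1 / 10 ^ 8) * (f1 x - f0 x) ≤ hh g f1 s x - hh g f0 s x ∧
      hh g f1 s x - hh g f0 s x ≤ (cc + 1 / 10 ^ 8) * (f1 x - f0 x) := by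
  have a0 := graph_FF h0 hx
  have a1 := graph_FF h1 hx
  obtain ⟨b1, b2⟩ := fold_vert1 h a0 a1 hle
  have b3 := fold_vert2 h a0 a1
  have b4 := hs.lip (g (x, f1 x)).2 (g (x, f0 x)).2
  have hD : 0 ≤ f1 x - f0 x := sub_nonneg.2 hle
  rw [abs_of_nonneg hD] at b3
  have b5 : |s (g (x, f1 x)).2 - s (g (x, f0 x)).2| ≤ 10 * ee * (e0 * (f1 x - f0 x)) :=
    b4.trans (mul_le_mul_of_nonneg_left b3 (by norm_num [ee]))
  obtain ⟨b6, b7⟩ := abs_le.1 b5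
  simp only [hh, cc, ee, e0] at *
  constructor <;> nlinarith

/-- Proof. For `x ∈ JJ`: `hh g f1 s x - hh g f0 s x = (g_1(x,f1 x) - g_1(x,f0 x)) - (s (g_2(x,f1 x)) - s (g_2(x,f0 x)))`; the first
bracket is in `[(cc - e0) Δ, (cc + e0) Δ]`, `Δ = f1 x - f0 x ≥ 0` (`fold_vert1`), the second is at most
`10 ee * e0 * Δ` in absolute value (`hs.lip`, `fold_vert2`). So it is in `[(cc - 10^-8) Δ, (cc + 10^-8) Δ]`, and
`L ≤ Δ ≤ H`. Compare the maxima (`DD_attained`, `hh_le_DD`). -/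
theorem DD_mono_f (h : Near g) {f0 f1 s : ℝ → ℝ} (h0 : IsLeaf f0) (h1 : IsLeaf f1) (hs : IsLeaf s)
    {L H : ℝ} (hL : 0 ≤ L) (hLe : ∀ x ∈ JJ, L ≤ f1 x - f0 x) (hHe : ∀ x ∈ JJ, f1 x - f0 x ≤ H) :
    (cc - 1 / 10 ^ 8) * L ≤ DD g f1 s - DD g f0 s ∧ DD g f1 s - DD g f0 s ≤ (cc + 1 / 10 ^ 8) * H := by
  obtain ⟨x0, hx0, e0'⟩ := DD_attained h h0 hs
  obtain ⟨x1, hx1, e1'⟩ := DD_attained h h1 hs
  have c1 := hh_le_DD h h1 hs hx0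
  have c0 := hh_le_DD h h0 hs hx1
  have d0 := (a53_pt h h0 h1 hs hx0 (by linarith [hLe x0 hx0])).1
  have d1 := (a53_pt h h0 h1 hs hx1 (by linarith [hLe x1 hx1])).2
  have l0 := hLe x0 hx0
  have l1 := hHe x1 hx1
  have m0 : (cc - 1 / 10 ^ 8) * L ≤ (cc - 1 / 10 ^ 8) * (f1 x0 - f0 x0) :=
    mul_le_mul_of_nonneg_left l0 (by norm_num [cc])
  have m1 : (cc + 1 / 10 ^ 8) * (f1 x1 - f0 x1) ≤ (cc + 1 / 10 ^ 8) * H :=
    mul_le_mul_of_nonneg_left l1 (by norm_num [cc])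
  constructor <;> linarith

/-- Proof. `hh g f s0 x - hh g f s1 x = s1 (g_2) - s0 (g_2) ∈ [L, H]`; compare the maxima. -/
theorem DD_mono_s (h : Near g) {f s0 s1 : ℝ → ℝ} (hf : IsLeaf f) (h0 : IsLeaf s0) (h1 : IsLeaf s1)
    {L H : ℝ} (hLe : ∀ y, L ≤ s1 y - s0 y) (hHe : ∀ y, s1 y - s0 y ≤ H) :
    L ≤ DD g f s0 - DD g f s1 ∧ DD g f s0 - DD g f s1 ≤ H := by
  obtain ⟨x0, hx0, e0'⟩ := DD_attained h hf h0
  obtain ⟨x1, hx1, e1'⟩ := DD_attained h hf h1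
  have c1 := hh_le_DD h hf h1 hx0
  have c0 := hh_le_DD h hf h0 hx1
  have l0 := hLe (g (x1, f x1)).2
  have l1 := hHe (g (x0, f x0)).2
  simp only [hh] at e0' e1' c0 c1
  constructor <;> linarith

/-- Proof. As `DD_mono_f` with `L = 0` (pointwise order only). -/
theorem DD_le_f (h : Near g) {f0 f1 s : ℝ → ℝ} (h0 : IsLeaf f0) (h1 : IsLeaf f1) (hs : IsLeaf s)
    (hle : ∀ x ∈ JJ, f0 x ≤ f1 x) : DD g f0 s ≤ DD g f1 s := by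
  obtain ⟨x0, hx0, e0'⟩ := DD_attained h h0 hs
  have c1 := hh_le_DD h h1 hs hx0
  have d0 := (a53_pt h h0 h1 hs hx0 (hle x0 hx0)).1
  have m0 : 0 ≤ (cc - 1 / 10 ^ 8) * (f1 x0 - f0 x0) :=
    mul_nonneg (by norm_num [cc]) (sub_nonneg.2 (hle x0 hx0))
  linarith

theorem DD_le_s (h : Near g) {f s0 s1 : ℝ → ℝ} (hf : IsLeaf f) (h0 : IsLeaf s0) (h1 : IsLeaf s1)
    (hle : ∀ y, s0 y ≤ s1 y) : DD g f s1 ≤ DD g f s0 := by
  obtain ⟨x1, hx1, e1'⟩ := DD_attained h hf h1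
  have c0 := hh_le_DD h hf h0 hx1
  have l0 := hle (g (x1, f x1)).2
  simp only [hh] at e1' c0
  linarith

end Pool.Agent.Lib.H37N
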