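import Pool.Agent.Lib.H37N.A91
import Pool.Agent.Lib.H37N.A53

/-!
# H37N A101 (size M): dependence on the map
-/

open Set Filter Topology

namespace Pool.Agent.Lib.H37N

variable {g g' : Pt → Pt}

theorem a101_mem (i : Sy) {z : Pt} (hz : z ∈ VV i) : z ∈ VV Sy.P ∪ VV Sy.Q := by
  cases i
  · exact Or.inl hz
  · exact Or.inr hz

/-- Proof. The defining predicates of `XX` agree: `(x, z.2) ∈ VV i` implies `g' (x, z.2) = g (x, z.2)` (`funext`,
`propext`, `and_congr_right`). -/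
theorem XX_congr (hV : ∀ z ∈ VV Sy.P ∪ VV Sy.Q, g' z = g z) : XX g' = XX g := by
  funext i z
  have h1 : (fun x : ℝ => (x, z.2) ∈ VV i ∧ (g' (x, z.2)).1 = z.1) =
      fun x : ℝ => (x, z.2) ∈ VV i ∧ (g (x, z.2)).1 = z.1 := by
    funext x
    refine propext (and_congr_right fun hx => ?_)
    rw [hV _ (a101_mem i hx)]
  unfold XX
  rw [h1]

/-- Proof. On `NN`, `(XX g i z, z.2) ∈ VV i` (`XX_spec`); off `NN` both are `0`. -/
theorem YY_congr (h : Near g) (hV : ∀ z ∈ VV Sy.P ∪ VV Sy.Q, g' z = g z) : YY g' = YY g := by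
  funext i z
  unfold YY
  rw [XX_congr hV]
  by_cases hz : z ∈ NN
  · rw [if_pos hz, if_pos hz, hV _ (a101_mem i (XX_spec h i hz).1)]
  · rw [if_neg hz, if_neg hz]

/-- all leaves, strips, gaps are the same. Proof: rewrite. -/
theorem Uu_congr (h : Near g) (hV : ∀ z ∈ VV Sy.P ∪ VV Sy.Q, g' z = g z) : Uu g' = Uu g := by
  funext b w
  unfold Uu
  rw [XX_congr hV, YY_congr h hV]

theorem Ss_congr (h : Near g) (hV : ∀ z ∈ VV Sy.P ∪ VV Sy.Q, g' z = g z) : Ss g' = Ss g := by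
  funext b w
  unfold Ss
  rw [XX_congr hV, YY_congr h hV]

theorem Zs_congr (h : Near g) (hV : ∀ z ∈ VV Sy.P ∪ VV Sy.Q, g' z = g z) : Zs g' = Zs g := by
  funext w
  unfold Zs
  rw [XX_congr hV, YY_congr h hV]

theorem rr_congr (h : Near g) (hV : ∀ z ∈ VV Sy.P ∪ VV Sy.Q, g' z = g z) : rr g' = rr g := by
  funext w v
  unfold rr hU hS
  rw [Uu_congr h hV, Ss_congr h hV]

/-- Proof. The functions `hh` agree on `JJ`. -/
theorem DD_congr {f s : ℝ → ℝ} (hf : ∀ x ∈ JJ, g' (x, f x) = g (x, f x)) : DD g' f s = DD g f s := by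
  unfold DD
  have h1 : hh g' f s '' JJ = hh g f s '' JJ := by
    refine Set.image_congr fun x hx => ?_
    unfold hh
    rw [hf x hx]
  rw [h1]

/-- Proof. For the leaves `f = Uu g b w` (`b = P, Q`) and `x ∈ JJ`: if `x` is in the open interval then
`(x, f x) ∈ Zs g w` (`Uu_mem_Zs` with `u = []`), so it is not in `Zs g w1`; at the ends of `JJ` it is not in `Zs g w1` either; and
`(x, f x) ∈ FF`. So `g' = g` there: `DD_congr`; and `Uu_congr`, `Ss_congr`, `rr_congr`. -/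
theorem Ok_congr (h : Near g) (hV : ∀ z ∈ VV Sy.P ∪ VV Sy.Q, g' z = g z) {w v w1 : List Sy}
    (hF : ∀ z ∈ FF, z ∉ Zs g w1 → g' z = g z) (hd : Disjoint (Zs g w) (Zs g w1)) (hok : Ok g w v) :
    Ok g' w v := by
  have key : ∀ b : Sy, ∀ s : ℝ → ℝ, DD g' (Uu g b w) s = DD g (Uu g b w) s := by
    intro b s
    refine DD_congr fun x hx => ?_
    refine hF _ (graph_FF (Uu_leaf h b w) hx) fun hz => ?_
    have hx' : x ∈ Ioo (xc - u0) (xc + u0) := hz.1
    have h1 := Uu_mem_Zs h b [] w hx'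
    rw [List.nil_append] at h1
    exact Set.disjoint_left.1 hd h1 hz
  obtain ⟨⟨h1, h2⟩, h3, h4⟩ := hok
  refine ⟨⟨?_, ?_⟩, ?_, ?_⟩
  · rw [Uu_congr h hV, Ss_congr h hV, key]
    exact h1
  · rw [Uu_congr h hV, Ss_congr h hV, key]
    exact h2
  · rw [rr_congr h hV]
    exact h3
  · rw [rr_congr h hV]
    exact h4

end Pool.Agent.Lib.H37N
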