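import Pool.Agent.Lib.H37N.ADefs

/-!
# H37N A11 (size M): the solution `sol`, basic estimates of cross systems
-/

open Set Filter Topology

namespace Pool.Agent.Lib.H37N

variable {p q : Sy → ℝ} {X Y : Sy → Pt → ℝ}

/-- two-point estimate. Proof. `h.mvX i` with `z0 = z2 = (x', y)`, `z1 = z3 = (x'', y')`: the difference is
`a dx + b dy`, `|a - p i| ≤ ee`, `|b| ≤ ee`. -/
theorem CS.X_diff (h : CS p q X Y) (i : Sy) {z z' : Pt} (hz : z ∈ NN) (hz' : z' ∈ NN) :
    |X i z' - X i z - p i * (z'.1 - z.1)| ≤ ee * |z'.1 - z.1| + ee * |z'.2 - z.2| := by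
  obtain ⟨a, b, a', b', h1, -, ha, hb, -⟩ := h.mvX i z hz z' hz' z hz z' hz'
  have e : X i z' - X i z - p i * (z'.1 - z.1) =
      (a - p i) * (z'.1 - z.1) + (b - 0) * (z'.2 - z.2) := by
    rw [h1]; ring
  rw [e]
  refine (abs_add_le _ _).trans ?_
  rw [abs_mul, abs_mul]
  exact add_le_add (mul_le_mul_of_nonneg_right ha (abs_nonneg _))
    (mul_le_mul_of_nonneg_right hb (abs_nonneg _))

/-- Proof: the same with `h.mvY`. -/
theorem CS.Y_diff (h : CS p q X Y) (i : Sy) {z z' : Pt} (hz : z ∈ NN) (hz' : z' ∈ NN) :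
    |Y i z' - Y i z - q i * (z'.2 - z.2)| ≤ ee * |z'.1 - z.1| + ee * |z'.2 - z.2| := by
  obtain ⟨a, b, a', b', h1, -, ha, hb, -⟩ := h.mvY i z hz z' hz' z hz z' hz'
  have e : Y i z' - Y i z - q i * (z'.2 - z.2) =
      (a - 0) * (z'.1 - z.1) + (b - q i) * (z'.2 - z.2) := by
    rw [h1]; ring
  rw [e]
  refine (abs_add_le _ _).trans ?_
  rw [abs_mul, abs_mul]
  exact add_le_add (mul_le_mul_of_nonneg_right ha (abs_nonneg _))
    (mul_le_mul_of_nonneg_right hb (abs_nonneg _))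

theorem a11_mem {p : Sy → ℝ} (p0 : ∀ i, 19 / 100 ≤ p i ∧ p i ≤ 81 / 100) (psum : p Sy.P + p Sy.Q = 1 - gam)
    (i : Sy) {v t : ℝ} (ht : t ∈ II) (hv : |v - (off p i + p i * t)| ≤ ee) : v ∈ Ioo (-del) (1 + del) := by
  have h1 := p0 i
  have hp : 0 ≤ p i := by linarith
  have h2 : p i * (-del) ≤ p i * t := mul_le_mul_of_nonneg_left ht.1 hp
  have h3 : p i * t ≤ p i * (1 + del) := mul_le_mul_of_nonneg_left ht.2 hp
  have h4 := abs_le.mp hv
  have hd : del = 1 / 100000 := rfl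
  have he : ee = 1 / 10 ^ 10 := rfl
  have hg : gam = 1 / 1000 := rfl
  rw [hd] at h2 h3
  rw [he] at h4
  rw [hg] at psum
  have hP := p0 Sy.P
  have hQ := p0 Sy.Q
  constructor
  · rw [hd]
    cases i
    · simp only [off] at h4
      norm_num at h4 ⊢
      linarith [h4.1, h4.2]
    · simp only [off] at h4
      rw [hg] at h4
      norm_num at h4 ⊢
      linarith [h4.1, h4.2]
  · rw [hd]
    cases i
    · simp only [off] at h4
      norm_num at h4 ⊢
      linarith [h4.1, h4.2]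
    · simp only [off] at h4
      rw [hg] at h4
      norm_num at h4 ⊢
      linarith [h4.1, h4.2]

/-- the values are in the interior of `II`. Proof. `X0`, `off`, `psum`: for `P`: `-p del - ee ≤ X ≤ p (1+del) + ee`, for `Q`:
`off = 1 - p Q` (from `psum`), `1 - p Q - p Q del - ee ≤ X ≤ 1 + p Q del + ee`; `19/100 ≤ p ≤ 81/100`, `ee < del / 100`. -/
theorem CS.X_mem (h : CS p q X Y) (i : Sy) {z : Pt} (hz : z ∈ NN) : X i z ∈ Ioo (-del) (1 + del) :=
  a11_mem h.p0 h.psum i (mem_NN.mp hz).1 (h.X0 i z hz)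

theorem CS.Y_mem (h : CS p q X Y) (i : Sy) {z : Pt} (hz : z ∈ NN) : Y i z ∈ Ioo (-del) (1 + del) :=
  a11_mem h.q0 h.qsum i (mem_NN.mp hz).2 (h.Y0 i z hz)

theorem a11_phi (h : CS p q X Y) (i : Sy) {f : ℝ → ℝ} (hf : IsLeaf f) (x' x y : ℝ) :
    |X i (cl x', f x) - X i (cl x', f y)| ≤ 10 * ee * ee * |x - y| := by
  have h1 := h.X_diff i (z := (cl x', f y)) (z' := (cl x', f x)) (mem_NN.mpr ⟨cl_mem _, hf.mem _⟩)
    (mem_NN.mpr ⟨cl_mem _, hf.mem _⟩)
  simp only [sub_self, mul_zero, sub_zero, abs_zero, zero_add] at h1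
  refine h1.trans ?_
  calc ee * |f x - f y| ≤ ee * (10 * ee * |x - y|) := mul_le_mul_of_nonneg_left (hf.lip x y) ee_pos.le
    _ = _ := by ring

/-- Proof. The map `φ x = X i (cl x', f x)` satisfies `|φ x - φ y| ≤ ee |f x - f y| ≤ ee * (10 * ee) * |x - y|` (`X_diff` with
equal first components; `(cl x', f x) ∈ NN`), a contraction of the complete space `ℝ`; so there is a fixed point
(`ContractingWith.fixedPoint` or the intermediate value theorem for `x - φ x`); `Classical.epsilon_spec`. -/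
theorem sol_spec (h : CS p q X Y) (i : Sy) {f : ℝ → ℝ} (hf : IsLeaf f) (x' : ℝ) :
    sol X i f x' = X i (cl x', f (sol X i f x')) := by
  have hc : ContractingWith (1 / 2 : NNReal) (fun x => X i (cl x', f x)) := by
    refine ⟨by norm_num, LipschitzWith.of_dist_le_mul fun x y => ?_⟩
    rw [Real.dist_eq, Real.dist_eq]
    refine (a11_phi h i hf x' x y).trans (mul_le_mul_of_nonneg_right ?_ (abs_nonneg _))
    norm_num [ee]
  have hex : ∃ x, x = X i (cl x', f x) := ⟨_, (hc.fixedPoint_isFixedPt).symm⟩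
  exact Classical.epsilon_spec (p := fun x => x = X i (cl x', f x)) hex

/-- Proof. Two solutions `x, y` satisfy `|x - y| ≤ 10 ee^2 |x - y|`. -/
theorem sol_unique (h : CS p q X Y) (i : Sy) {f : ℝ → ℝ} (hf : IsLeaf f) {x x' : ℝ}
    (hx : x = X i (cl x', f x)) : x = sol X i f x' := by
  have h1 := a11_phi h i hf x' x (sol X i f x')
  rw [← hx, ← sol_spec h i hf x'] at h1
  have h2 : 10 * ee * ee ≤ 1 / 2 := by norm_num [ee]
  have h3 : 10 * ee * ee * |x - sol X i f x'| ≤ 1 / 2 * |x - sol X i f x'| :=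
    mul_le_mul_of_nonneg_right h2 (abs_nonneg _)
  have h4 : |x - sol X i f x'| = 0 := le_antisymm (by linarith) (abs_nonneg _)
  linarith [abs_eq_zero.mp h4]

/-- Proof. `sol_spec`, `X_mem`. -/
theorem sol_mem (h : CS p q X Y) (i : Sy) {f : ℝ → ℝ} (hf : IsLeaf f) (x' : ℝ) :
    sol X i f x' ∈ Ioo (-del) (1 + del) := by
  rw [sol_spec h i hf x']
  exact h.X_mem i (mem_NN.mpr ⟨cl_mem _, hf.mem _⟩)

/-- Proof. `sol_spec`, `X0`. -/
theorem sol_val (h : CS p q X Y) (i : Sy) {f : ℝ → ℝ} (hf : IsLeaf f) (x' : ℝ) :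
    |sol X i f x' - (off p i + p i * cl x')| ≤ ee := by
  rw [sol_spec h i hf x']
  exact h.X0 i (cl x', f (sol X i f x')) (mem_NN.mpr ⟨cl_mem _, hf.mem _⟩)

/-- Proof. With `x = sol .. x'`, `y = sol .. y'`: by `X_diff`
`|x - y| ≤ (p i + ee) |cl x' - cl y'| + ee |f x - f y| ≤ (p i + ee) |cl x' - cl y'| + 10 ee^2 |x - y|`; so
`|x - y| ≤ (p i + ee) / (1 - 10 ee^2) |cl x' - cl y'| ≤ (p i + 2 ee) |cl x' - cl y'|`. -/
theorem sol_lip (h : CS p q X Y) (i : Sy) {f : ℝ → ℝ} (hf : IsLeaf f) (x' y' : ℝ) :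
    |sol X i f x' - sol X i f y'| ≤ (p i + 2 * ee) * |cl x' - cl y'| := by
  have h1 := h.X_diff i (z := (cl y', f (sol X i f y'))) (z' := (cl x', f (sol X i f x')))
    (mem_NN.mpr ⟨cl_mem _, hf.mem _⟩) (mem_NN.mpr ⟨cl_mem _, hf.mem _⟩)
  rw [← sol_spec h i hf x', ← sol_spec h i hf y'] at h1
  simp only at h1
  set x := sol X i f x'
  set y := sol X i f y'
  have h2 := hf.lip x y
  have hp := h.p0 i
  have h3 : |x - y| ≤ |x - y - p i * (cl x' - cl y')| + |p i * (cl x' - cl y')| := by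
    have := abs_add_le (x - y - p i * (cl x' - cl y')) (p i * (cl x' - cl y'))
    simpa using this
  rw [abs_mul, abs_of_nonneg (by linarith : (0 : ℝ) ≤ p i)] at h3
  have h4 : ee * |f x - f y| ≤ ee * (10 * ee * |x - y|) := mul_le_mul_of_nonneg_left h2 ee_pos.le
  set A := |cl x' - cl y'|
  set B := |x - y|
  have hA : 0 ≤ A := abs_nonneg _
  have hB : 0 ≤ B := abs_nonneg _
  have h5 : B ≤ (p i + ee) * A + 10 * ee * ee * B := by nlinarith
  have h6 : B * (1 - 10 * ee * ee) ≤ (p i + ee) * A := by linarith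
  have h7 : (p i + ee) ≤ (p i + 2 * ee) * (1 - 10 * ee * ee) := by
    have he : ee = 1 / 10 ^ 10 := rfl
    rw [he]; norm_num
    nlinarith
  have h8 : (p i + ee) * A ≤ (p i + 2 * ee) * (1 - 10 * ee * ee) * A := mul_le_mul_of_nonneg_right h7 hA
  have h9 : 0 < 1 - 10 * ee * ee := by norm_num [ee]
  have h10 : B * (1 - 10 * ee * ee) ≤ ((p i + 2 * ee) * A) * (1 - 10 * ee * ee) := by linarith
  exact le_of_mul_le_mul_right h10 h9

end Pool.Agent.Lib.H37N
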