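import Pool.Agent.Lib.H37N.A51

/-!
# H37N A55 (size M): location of the maximum and value of `DD`
-/

open Set Filter Topology

namespace Pool.Agent.Lib.H37N

variable {g : Pt → Pt}

/-- Proof. `(x, f x) ∈ FF`, `h.fold0`: `g_1` is within `e0` of `1/2 + cc (f x - 1/2) - dd (x - xc)^2` and `g_2` within `e0` of
`yc - (x - xc)`, so `|g_2 - yc| ≤ u0 + e0 ≤ 1`. `|f x - f xc| ≤ 10 ee u0`, `|s (g_2) - s yc| ≤ 10 ee`. Total
`≤ e0 + cc * 10 ee u0 + 10 ee ≤ 10^-8`. -/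
theorem hh_val (h : Near g) {f s : ℝ → ℝ} (hf : IsLeaf f) (hs : IsLeaf s) {x : ℝ} (hx : x ∈ JJ) :
    |hh g f s x - (1 / 2 + cc * (f xc - 1 / 2) - dd * (x - xc) ^ 2 - s yc)| ≤ 1 / 10 ^ 8 := by
  obtain ⟨h1, h2⟩ := h.fold0 _ (graph_FF hf hx)
  have hxu : |x - xc| ≤ u0 := by
    rw [abs_le]
    constructor <;> linarith [hx.1, hx.2]
  have h3 := hf.lip x xc
  have h4 := hs.lip (g (x, f x)).2 yc
  have hu : u0 = 1 / 4000 := rfl
  have he0 : e0 = 1 / 10 ^ 12 := rfl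
  have hee : ee = 1 / 10 ^ 10 := rfl
  have hcc : cc = 1 / 2 := rfl
  have h5 : |f x - f xc| ≤ 1 / 10 ^ 9 := by
    refine h3.trans ?_
    rw [hee]
    rw [hu] at hxu
    nlinarith
  have h6 : |(g (x, f x)).2 - yc| ≤ 1 := by
    have h2' : |(g (x, f x)).2 - (yc - (x - xc))| ≤ e0 := h2
    rw [abs_le] at h2' hxu ⊢
    rw [hu] at hxu
    rw [he0] at h2'
    constructor <;> linarith [hxu.1, hxu.2, h2'.1, h2'.2]
  have h7 : |s (g (x, f x)).2 - s yc| ≤ 1 / 10 ^ 9 := by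
    refine h4.trans ?_
    rw [hee]
    nlinarith
  have h1' : |(g (x, f x)).1 - (1 / 2 + cc * (f x - 1 / 2) - dd * (x - xc) ^ 2)| ≤ e0 := h1
  rw [hcc] at h1' ⊢
  rw [he0] at h1'
  generalize dd * (x - xc) ^ 2 = t at h1' ⊢
  unfold hh
  rw [abs_le] at h1' h5 h7 ⊢
  constructor <;> linarith [h1'.1, h1'.2, h5.1, h5.2, h7.1, h7.2]

theorem a55_xc_mem : xc ∈ JJ := by
  constructor <;> norm_num [xc, u0]

/-- Proof. Upper bound: `hh_val` at the maximum (`DD_attained`), `dd (x - xc)^2 ≥ 0`; lower bound: `x = xc`. -/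
theorem DD_val (h : Near g) {f s : ℝ → ℝ} (hf : IsLeaf f) (hs : IsLeaf s) :
    |DD g f s - (1 / 2 + cc * (f xc - 1 / 2) - s yc)| ≤ 1 / 10 ^ 8 := by
  obtain ⟨x, hx, e⟩ := DD_attained h hf hs
  have h1 := hh_val h hf hs hx
  have h2 := hh_val h hf hs a55_xc_mem
  have h3 := hh_le_DD h hf hs a55_xc_mem
  have h4 : 0 ≤ dd * (x - xc) ^ 2 := mul_nonneg (by norm_num [dd]) (sq_nonneg _)
  rw [sub_self] at h2
  rw [← e] at h1
  generalize dd * (x - xc) ^ 2 = t at h1 h4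
  rw [abs_le] at h1 h2 ⊢
  constructor
  · nlinarith [h2.1, h2.2]
  · linarith [h1.1, h1.2]

/-- Proof. `hh_val` at `x` and `DD_val`; `dd * (u0/2)^2 = 5/128 > 0.039`. -/
theorem hh_far (h : Near g) {f s : ℝ → ℝ} (hf : IsLeaf f) (hs : IsLeaf s) {x : ℝ} (hx : x ∈ JJ)
    (hfar : u0 / 2 ≤ |x - xc|) : hh g f s x ≤ DD g f s - 1 / 100 := by
  have h1 := hh_val h hf hs hx
  have h2 := DD_val h hf hs
  have h3 : 39 / 1000 ≤ dd * (x - xc) ^ 2 := by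
    have h4 : (u0 / 2) ^ 2 ≤ (x - xc) ^ 2 := by
      rw [← sq_abs (x - xc)]
      exact pow_le_pow_left₀ (by norm_num [u0]) hfar 2
    have h5 : dd = 2500000 := rfl
    have h6 : u0 = 1 / 4000 := rfl
    rw [h6] at h4
    rw [h5]
    nlinarith
  generalize dd * (x - xc) ^ 2 = t at h1 h3
  rw [abs_le] at h1 h2
  linarith [h1.1, h1.2, h2.1, h2.2]

/-- Proof. `DD_attained`, `hh_far`. -/
theorem DD_attained_mid (h : Near g) {f s : ℝ → ℝ} (hf : IsLeaf f) (hs : IsLeaf s) :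
    ∃ x, |x - xc| < u0 / 2 ∧ DD g f s = hh g f s x := by
  obtain ⟨x, hx, e⟩ := DD_attained h hf hs
  refine ⟨x, ?_, e⟩
  by_contra hcon
  have := hh_far h hf hs hx (not_lt.1 hcon)
  linarith

end Pool.Agent.Lib.H37N
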