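import Pool.Agent.Lib.H37N.A04
import Pool.Agent.Lib.H37N.A05
import Pool.Agent.Lib.H37N.A37

/-!
# H37N A39 (size M, book-keeping): the stable leaves `Ss` of a near map: order, gaps
-/

open Set Filter Topology

namespace Pool.Agent.Lib.H37N

variable {g : Pt → Pt}

/-! Everything follows from `A12`, `A14`, `A15`, `A37` for the system `h.cs.swap`; `List.reverse_append`, `Gw_cons`:
`Ss g b (v ++ [i]) = Gw _ _ v.reverse (GG _ _ i (fixL _ _ b))`, `hS g v = gp (swX (YY g)) (swX (XX g)) v.reverse yc`. -/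

theorem Ss_leaf (h : Near g) (b : Sy) (v : List Sy) : IsLeaf (Ss g b v) :=
  Gw_leaf h.cs.swap _ (fixL_leaf h.cs.swap b)

theorem a39_snoc (g : Pt → Pt) (b i : Sy) (v : List Sy) :
    Ss g b (v ++ [i]) = Gw (swX (YY g)) (swX (XX g)) v.reverse
      (GG (swX (YY g)) (swX (XX g)) i (fixL (swX (YY g)) (swX (XX g)) b)) := by
  unfold Ss
  rw [List.reverse_append]
  rfl

theorem Ss_append_self (h : Near g) (i : Sy) (v : List Sy) : Ss g i (v ++ [i]) = Ss g i v := by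
  rw [a39_snoc, fixL_fix h.cs.swap]
  rfl

theorem Ss_append (g : Pt → Pt) (b : Sy) (v u : List Sy) :
    Ss g b (v ++ u) = Gw (swX (YY g)) (swX (XX g)) v.reverse (Ss g b u) := by
  unfold Ss
  rw [List.reverse_append, Gw_append]

theorem Ss_P_lt (h : Near g) (v : List Sy) (y : ℝ) : Ss g Sy.P v y < Ss g Sy.Q (v ++ [Sy.P]) y := by
  rw [a39_snoc]
  exact Gw_strictMono h.cs.swap _ (fixL_leaf h.cs.swap _)
    (GG_leaf h.cs.swap _ (fixL_leaf h.cs.swap _)) (fixP_lt_GPQ h.cs.swap) y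

theorem Ss_mid_lt (h : Near g) (v : List Sy) (y : ℝ) :
    Ss g Sy.Q (v ++ [Sy.P]) y < Ss g Sy.P (v ++ [Sy.Q]) y := by
  rw [a39_snoc, a39_snoc]
  exact Gw_strictMono h.cs.swap _ (GG_leaf h.cs.swap _ (fixL_leaf h.cs.swap _))
    (GG_leaf h.cs.swap _ (fixL_leaf h.cs.swap _)) (GPQ_lt_GQP h.cs.swap) y

theorem Ss_lt_Q (h : Near g) (v : List Sy) (y : ℝ) : Ss g Sy.P (v ++ [Sy.Q]) y < Ss g Sy.Q v y := by
  rw [a39_snoc]
  exact Gw_strictMono h.cs.swap _ (GG_leaf h.cs.swap _ (fixL_leaf h.cs.swap _))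
    (fixL_leaf h.cs.swap _) (GQP_lt_fixQ h.cs.swap) y

theorem Ss_PQ_lt (h : Near g) (v : List Sy) (y : ℝ) : Ss g Sy.P v y < Ss g Sy.Q v y :=
  (Ss_P_lt h v y).trans ((Ss_mid_lt h v y).trans (Ss_lt_Q h v y))

/-- the fixed leaves bound all the stable leaves -/
theorem a39_bound (h : Near g) (b : Sy) (u : List Sy) :
    ∀ y, Ss g Sy.P [] y ≤ Ss g b u y ∧ Ss g b u y ≤ Ss g Sy.Q [] y := by
  have hc := h.cs.swap
  induction u with
  | nil =>
    intro y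
    cases b
    · exact ⟨le_rfl, (Ss_PQ_lt h [] y).le⟩
    · exact ⟨(Ss_PQ_lt h [] y).le, le_rfl⟩
  | cons i u ih =>
    intro y
    have e1 : Ss g b (i :: u) = GG (swX (YY g)) (swX (XX g)) i (Ss g b u) :=
      Ss_append g b [i] u
    have eP : GG (swX (YY g)) (swX (XX g)) Sy.P (Ss g Sy.P []) = Ss g Sy.P [] := fixL_fix hc Sy.P
    have eQ : GG (swX (YY g)) (swX (XX g)) Sy.Q (Ss g Sy.Q []) = Ss g Sy.Q [] := fixL_fix hc Sy.Q
    have q1 : ∀ i, Ss g Sy.P [] y ≤ GG (swX (YY g)) (swX (XX g)) i (Ss g Sy.P []) y := by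
      intro i
      cases i
      · rw [eP]
      · exact ((fixP_lt_GPQ hc y).trans (GPQ_lt_GQP hc y)).le
    have q2 : ∀ i, GG (swX (YY g)) (swX (XX g)) i (Ss g Sy.Q []) y ≤ Ss g Sy.Q [] y := by
      intro i
      cases i
      · exact ((GPQ_lt_GQP hc y).trans (GQP_lt_fixQ hc y)).le
      · rw [eQ]
    rw [e1]
    exact ⟨(q1 i).trans (GG_mono hc i (Ss_leaf h _ _) (Ss_leaf h _ _) (fun x => (ih x).1) y),
      (GG_mono hc i (Ss_leaf h _ _) (Ss_leaf h _ _) (fun x => (ih x).2) y).trans (q2 i)⟩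

/-- longer words stay between (new letters after `v`). Proof: `Ss_append`, `Gw_mono`, and
`fixL P ≤ Ss g b u ≤ fixL Q` for all `u`: induction on `u` (`Ss g b (i :: u) = GG i (Ss g b u)` by `Ss_append`),
using `GG_mono`, `fixL P ≤ GG i (fixL P)`, `GG i (fixL Q) ≤ fixL Q` for `i = P, Q` (`fixL_fix`, `A15`). -/
theorem Ss_between (h : Near g) (b : Sy) (v u : List Sy) (y : ℝ) :
    Ss g Sy.P v y ≤ Ss g b (v ++ u) y ∧ Ss g b (v ++ u) y ≤ Ss g Sy.Q v y := by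
  have hc := h.cs.swap
  have e : ∀ c, Ss g c v = Gw (swX (YY g)) (swX (XX g)) v.reverse (Ss g c []) := by
    intro c
    have := Ss_append g c v []
    simpa using this
  rw [Ss_append, e Sy.P, e Sy.Q]
  exact ⟨Gw_mono hc _ (Ss_leaf h _ _) (Ss_leaf h _ _) (fun x => (a39_bound h b u x).1) y,
    Gw_mono hc _ (Ss_leaf h _ _) (Ss_leaf h _ _) (fun x => (a39_bound h b u x).2) y⟩

theorem hS_pos (h : Near g) (v : List Sy) : 0 < hS g v :=
  gp_pos h.cs.swap v.reverse yc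

theorem Ss_full (h : Near g) (v : List Sy) (y : ℝ) :
    (1 - kap) * hS g v ≤ Ss g Sy.Q v y - Ss g Sy.P v y ∧
      Ss g Sy.Q v y - Ss g Sy.P v y ≤ (1 + kap) * hS g v :=
  gap_full h.cs.swap v.reverse y yc

theorem Ss_gapP (h : Near g) (v : List Sy) (y : ℝ) :
    (pw Sy.P - kap) * hS g v ≤ Ss g Sy.Q (v ++ [Sy.P]) y - Ss g Sy.P v y ∧
      Ss g Sy.Q (v ++ [Sy.P]) y - Ss g Sy.P v y ≤ (pw Sy.P + kap) * hS g v := by
  rw [a39_snoc]
  exact gap_P h.cs.swap v.reverse y yc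

theorem Ss_gapQ (h : Near g) (v : List Sy) (y : ℝ) :
    (pw Sy.Q - kap) * hS g v ≤ Ss g Sy.Q v y - Ss g Sy.P (v ++ [Sy.Q]) y ∧
      Ss g Sy.Q v y - Ss g Sy.P (v ++ [Sy.Q]) y ≤ (pw Sy.Q + kap) * hS g v := by
  rw [a39_snoc]
  exact gap_Q h.cs.swap v.reverse y yc

theorem Ss_gapM (h : Near g) (v : List Sy) (y : ℝ) :
    0 < Ss g Sy.P (v ++ [Sy.Q]) y - Ss g Sy.Q (v ++ [Sy.P]) y ∧
      Ss g Sy.P (v ++ [Sy.Q]) y - Ss g Sy.Q (v ++ [Sy.P]) y ≤ 2 * gam * hS g v := by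
  rw [a39_snoc, a39_snoc]
  exact gap_mid h.cs.swap v.reverse y yc

end Pool.Agent.Lib.H37N
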