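import Pool.Agent.Lib.H37N.A112
import Pool.Agent.Lib.H37N.A111
import Pool.Agent.Lib.H37N.A101
import Pool.Agent.Lib.H37N.T7

/-!
# H37N A114 (size M): the translation move inside a strip
-/

open Set Filter Topology
open scoped ContDiff

namespace Pool.Agent.Lib.H37N

/-- Proof. `χ` from `strip_cutoff`; `Ψ (t, z) = (z.1 - t * χ z, z.2)` on `ℝ × Pt` is `C^∞`, the identity for `t = 0` and for `z` off the
compact set `C = tsupport χ ⊆ g '' Zs g w ⊆ K0` (`fold_image`). `ε` from `hU g hg`, `small_family` (T7): for `|t| < τ0` (also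
`τ0 ≤ 1/1000`) `Ψ_t` is `Small R ε`, so `g' = Ψ_t ∘ g ∈ U`. For `z ∈ VV P ∪ VV Q ∪ FF` with `z ∉ Zs g w`: `g z ∉ tsupport χ` (otherwise
`g z = g z'` with `z' ∈ Zs g w ⊆ FF`, `z = z'` by `Near.injOn`), so `χ (g z) = 0`; `VV i` and `Zs g w ⊆ FF` are disjoint. `DD`:
`DD_translate` (`Ψ_t ∘ g` is definitionally the map there). -/
theorem strip_move {R : ℕ} {U : Set (Pt → Pt)} (hU : PertOpen R U) (hN : ∀ g ∈ U, Near g) {g : Pt → Pt}
    (hg : g ∈ U) (w : List Sy) : ∃ τ0 > (0 : ℝ), ∀ τ : ℝ, |τ| < τ0 → ∃ g' ∈ U,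
      (∀ z ∈ VV Sy.P ∪ VV Sy.Q, g' z = g z) ∧ (∀ z ∈ FF, z ∉ Zs g w → g' z = g z) ∧
      ∀ f s : ℝ → ℝ, IsLeaf f → IsLeaf s → (∀ x, Uu g Sy.P w x ≤ f x) → (∀ x, f x ≤ Uu g Sy.Q w x) →
        DD g' f s = DD g f s - τ := by
  have h : Near g := hN g hg
  obtain ⟨χ, c1, c2, c3, c4, c5⟩ := strip_cutoff h w
  obtain ⟨ε, hε, hε'⟩ := hU g hg
  have hZF : Zs g w ⊆ VV Sy.P ∪ VV Sy.Q ∪ FF :=
    (Zs_sub_FF h w).trans (interior_subset.trans subset_union_right)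
  have hΨ : ContDiff ℝ ∞ (fun q : ℝ × Pt => ((q.2.1 - q.1 * χ q.2, q.2.2) : Pt)) := by
    have h1 : ContDiff ℝ ∞ (fun q : ℝ × Pt => χ q.2) := c1.comp contDiff_snd
    exact ((contDiff_fst.comp contDiff_snd).sub (contDiff_fst.mul h1)).prodMk
      (contDiff_snd.comp contDiff_snd)
  have hCK : tsupport χ ⊆ K0 := by
    intro y hy
    obtain ⟨z, hz, rfl⟩ := c3 hy
    obtain ⟨h1, h2⟩ := fold_image h (interior_subset (Zs_sub_FF h w hz))
    exact ⟨⟨by linarith [h1.1], by linarith [h1.2]⟩, ⟨by linarith [h2.1], by linarith [h2.2]⟩⟩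
  have hsm := small_family (P := ℝ) hΨ 0 (fun z => by simp) c2 hCK
    (fun p z hz => by simp [image_eq_zero_of_notMem_tsupport hz]) R hε
  obtain ⟨δ, hδ, hδ'⟩ := Metric.eventually_nhds_iff.1 hsm
  refine ⟨min δ (1 / 1000), by positivity, fun τ hτ => ?_⟩
  have hτδ : |τ| < δ := lt_of_lt_of_le hτ (min_le_left _ _)
  have hτ1 : |τ| ≤ 1 / 1000 := (lt_of_lt_of_le hτ (min_le_right _ _)).le
  have hS := hδ' (y := τ) (by rw [Real.dist_eq, sub_zero]; exact hτδ)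
  have hU' := hε' _ hS
  have key : ∀ z ∈ VV Sy.P ∪ VV Sy.Q ∪ FF, z ∉ Zs g w → χ (g z) = 0 := by
    intro z hz hzw
    refine image_eq_zero_of_notMem_tsupport fun hc => hzw ?_
    obtain ⟨z', hz', he⟩ := c3 hc
    rw [← h.injOn (hZF hz') hz he]
    exact hz'
  have key2 : ∀ z ∈ VV Sy.P ∪ VV Sy.Q ∪ FF, z ∉ Zs g w →
      ((fun z => ((z.1 - τ * χ z, z.2) : Pt)) ∘ g) z = g z := by
    intro z hz hzw
    simp [key z hz hzw]
  refine ⟨(fun z => ((z.1 - τ * χ z, z.2) : Pt)) ∘ g, hU', ?_, ?_, ?_⟩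
  · intro z hz
    refine key2 z (Or.inl hz) fun hzw => ?_
    have hF := interior_subset (Zs_sub_FF h w hzw)
    obtain ⟨⟨a1, a2⟩, -⟩ := hF
    rcases hz with ⟨⟨b1, b2⟩, -⟩ | ⟨⟨b1, b2⟩, -⟩
    · simp only [xc, u0, al, pw, del] at *
      linarith
    · simp only [xc, u0, al, pw, del] at *
      linarith
  · intro z hz hzw
    exact key2 z (Or.inr hz) hzw
  · intro f s hf hs hf0 hf1
    exact DD_translate h (fun z => ⟨(c4 z).1, (c4 z).2⟩) c5 hτ1 hf hs hf0 hf1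

end Pool.Agent.Lib.H37N
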