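import Pool.Agent.Lib.H37N.A11

/-!
# H37N A12 (size M): the graph transform preserves leaves; comparison of two leaves
-/

open Set Filter Topology

namespace Pool.Agent.Lib.H37N

variable {p q : Sy → ℝ} {X Y : Sy → Pt → ℝ}

theorem a12_mem {f : ℝ → ℝ} (hf : IsLeaf f) (x' y : ℝ) : ((cl x', f y) : Pt) ∈ NN :=
  mem_NN.2 ⟨cl_mem x', hf.mem y⟩

theorem a12_ee : ee = 1 / 10 ^ 10 := rfl

theorem a12_ee1 : 0 < ee ∧ ee ≤ 1 / 1000 := by
  rw [a12_ee]
  norm_num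

/-- Proof. `Y0` at `(cl x', f (sol ..)) ∈ NN`. -/
theorem GG_val (h : CS p q X Y) (i : Sy) {f : ℝ → ℝ} (hf : IsLeaf f) (x' : ℝ) :
    |GG X Y i f x' - (off q i + q i * f (sol X i f x'))| ≤ ee :=
  h.Y0 i _ (a12_mem hf x' _)

/-- Proof. `Y_mem`. -/
theorem GG_int (h : CS p q X Y) (i : Sy) {f : ℝ → ℝ} (hf : IsLeaf f) (x' : ℝ) :
    GG X Y i f x' ∈ Ioo (-del) (1 + del) :=
  h.Y_mem i (a12_mem hf x' _)

/-- Proof. Values: `GG_int`. Lipschitz: with `x = sol .. x'`, `y = sol .. y'`, `Y_diff`, `sol_lip`: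
`|GG x' - GG y'| ≤ ee |cl x' - cl y'| + (q i + ee) |f x - f y| ≤ (ee + (q i + ee) * 10 * ee * (p i + 2 ee)) |cl x' - cl y'|
≤ (1 + .82 * 10 * .82) ee |x' - y'| ≤ 10 ee |x' - y'|` (`cl_lip`). -/
theorem GG_leaf (h : CS p q X Y) (i : Sy) {f : ℝ → ℝ} (hf : IsLeaf f) : IsLeaf (GG X Y i f) := by
  refine ⟨fun x => Ioo_subset_Icc_self (GG_int h i hf x), fun x' y' => ?_⟩
  obtain ⟨he0, he1⟩ := a12_ee1
  have hp := h.p0 i
  have hq := h.q0 i
  have h1 := h.Y_diff i (a12_mem hf y' (sol X i f y')) (a12_mem hf x' (sol X i f x'))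
  have h2 := sol_lip h i hf x' y'
  have h3 := hf.lip (sol X i f x') (sol X i f y')
  have h4 := cl_lip x' y'
  have hGx : GG X Y i f x' = Y i (cl x', f (sol X i f x')) := rfl
  have hGy : GG X Y i f y' = Y i (cl y', f (sol X i f y')) := rfl
  rw [← hGx, ← hGy] at h1
  simp only at h1
  set D := |cl x' - cl y'| with hD
  set F := f (sol X i f x') - f (sol X i f y') with hF
  have hD0 : 0 ≤ D := abs_nonneg _
  have h5 : |F| ≤ 10 * ee * ((p i + 2 * ee) * D) :=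
    h3.trans (mul_le_mul_of_nonneg_left h2 (by positivity))
  have h6 : |GG X Y i f x' - GG X Y i f y'| ≤
      |GG X Y i f x' - GG X Y i f y' - q i * F| + |q i * F| := by
    have := abs_add_le (GG X Y i f x' - GG X Y i f y' - q i * F) (q i * F)
    simpa using this
  have h7 : |q i * F| = q i * |F| := by
    rw [abs_mul, abs_of_nonneg (by linarith [hq.1] : (0 : ℝ) ≤ q i)]
  have h8 : (q i + ee) * |F| ≤ 8 * ee * D := by
    have h9 : (q i + ee) * |F| ≤ (q i + ee) * (10 * ee * ((p i + 2 * ee) * D)) :=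
      mul_le_mul_of_nonneg_left h5 (by linarith [hq.1])
    have h10 : (q i + ee) * (p i + 2 * ee) ≤ 8 / 10 := by
      have h11 : q i + ee ≤ 82 / 100 := by linarith [hq.2]
      have h12 : p i + 2 * ee ≤ 82 / 100 := by linarith [hp.2]
      have h13 : (q i + ee) * (p i + 2 * ee) ≤ 82 / 100 * (82 / 100) :=
        mul_le_mul h11 h12 (by linarith [hp.1]) (by norm_num)
      linarith
    have h14 : (q i + ee) * (10 * ee * ((p i + 2 * ee) * D)) =
        (q i + ee) * (p i + 2 * ee) * (10 * ee * D) := by ring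
    have h15 : (q i + ee) * (p i + 2 * ee) * (10 * ee * D) ≤ 8 / 10 * (10 * ee * D) :=
      mul_le_mul_of_nonneg_right h10 (by positivity)
    linarith
  have h16 : ee * D ≤ ee * |x' - y'| := mul_le_mul_of_nonneg_left h4 he0.le
  have h17 : q i * |F| + ee * |F| ≤ 8 * ee * D := by linarith
  have h18 : 0 ≤ ee * |x' - y'| := by positivity
  linarith

/-- comparison. Proof. `x0 = sol f0 x'`, `x1 = sol f1 x'`, `y0 = f0 x0`, `y1 = f1 x1`, `Δ = f1 x0 - f0 x0`. `X_diff` with equal first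
components: `|x1 - x0| ≤ ee |y1 - y0|`. `y1 - y0 = (f1 x1 - f1 x0) + Δ`, so `|y1 - y0 - Δ| ≤ 10 ee^2 |y1 - y0|`, hence
`|y1 - y0| ≤ 1.001 |Δ|` and `|y1 - y0 - Δ| ≤ 11 ee^2 |Δ|`. `Y_diff` with equal first components:
`|(GG f1 x' - GG f0 x') - q i (y1 - y0)| ≤ ee |y1 - y0|`. Sum: `≤ (1.001 ee + 11 ee^2) |Δ| ≤ 2 ee |Δ|`. -/
theorem GG_diff (h : CS p q X Y) (i : Sy) {f0 f1 : ℝ → ℝ} (h0 : IsLeaf f0) (h1 : IsLeaf f1) (x' : ℝ) :
    |GG X Y i f1 x' - GG X Y i f0 x' - q i * (f1 (sol X i f0 x') - f0 (sol X i f0 x'))| ≤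
      2 * ee * |f1 (sol X i f0 x') - f0 (sol X i f0 x')| := by
  obtain ⟨he0, he1⟩ := a12_ee1
  have hp := h.p0 i
  have hq := h.q0 i
  set x0 := sol X i f0 x' with hx0
  set x1 := sol X i f1 x' with hx1
  have e0 : x0 = X i (cl x', f0 x0) := sol_spec h i h0 x'
  have e1 : x1 = X i (cl x', f1 x1) := sol_spec h i h1 x'
  have h2 := h.X_diff i (a12_mem h0 x' x0) (a12_mem h1 x' x1)
  rw [← e0, ← e1] at h2
  simp only [sub_self, mul_zero, sub_zero, abs_zero, zero_add] at h2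
  have h3 := h.Y_diff i (a12_mem h0 x' x0) (a12_mem h1 x' x1)
  have hG0 : GG X Y i f0 x' = Y i (cl x', f0 x0) := rfl
  have hG1 : GG X Y i f1 x' = Y i (cl x', f1 x1) := rfl
  rw [← hG0, ← hG1] at h3
  simp only [sub_self, abs_zero, mul_zero, zero_add] at h3
  have h4 := h1.lip x1 x0
  set Δ := f1 x0 - f0 x0 with hΔ
  set W := f1 x1 - f0 x0 with hW
  have h5 : |W - Δ| ≤ 10 * ee * (ee * |W|) := by
    have h6 : W - Δ = f1 x1 - f1 x0 := by rw [hW, hΔ]; ring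
    rw [h6]
    exact h4.trans (mul_le_mul_of_nonneg_left h2 (by positivity))
  have hWabs : |W| ≤ |W - Δ| + |Δ| := by
    have := abs_add_le (W - Δ) Δ
    simpa using this
  have hW0 := abs_nonneg W
  have hΔ0 := abs_nonneg Δ
  have h7 : 10 * ee * (ee * |W|) ≤ 1 / 100 * (ee * |W|) := by
    have : 10 * ee ≤ 1 / 100 := by linarith
    exact mul_le_mul_of_nonneg_right this (by positivity)
  have h8 : ee * |W| ≤ 1 / 1000 * |W| := mul_le_mul_of_nonneg_right he1 hW0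
  have h9 : |W| ≤ 1001 / 1000 * |Δ| := by linarith
  have h10 : |q i * (W - Δ)| = q i * |W - Δ| := by
    rw [abs_mul, abs_of_nonneg (by linarith [hq.1] : (0 : ℝ) ≤ q i)]
  have h11 : |GG X Y i f1 x' - GG X Y i f0 x' - q i * Δ| ≤
      |GG X Y i f1 x' - GG X Y i f0 x' - q i * W| + |q i * (W - Δ)| := by
    have := abs_add_le (GG X Y i f1 x' - GG X Y i f0 x' - q i * W) (q i * (W - Δ))
    have e : GG X Y i f1 x' - GG X Y i f0 x' - q i * W + q i * (W - Δ) =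
        GG X Y i f1 x' - GG X Y i f0 x' - q i * Δ := by ring
    rwa [e] at this
  have h12 : q i * |W - Δ| ≤ 1 * |W - Δ| :=
    mul_le_mul_of_nonneg_right (by linarith [hq.2]) (abs_nonneg _)
  have h13 : ee * |W| ≤ ee * (1001 / 1000 * |Δ|) := mul_le_mul_of_nonneg_left h9 he0.le
  have h14 : 0 ≤ ee * |Δ| := by positivity
  have h15 : ee * (1001 / 1000 * |Δ|) = 1001 / 1000 * (ee * |Δ|) := by ring
  linarith

/-- Proof. From `GG_diff`: if `Δ ≥ 0` then the difference is `≥ (q i - 2 ee) Δ ≥ 0`. -/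
theorem GG_mono (h : CS p q X Y) (i : Sy) {f0 f1 : ℝ → ℝ} (h0 : IsLeaf f0) (h1 : IsLeaf f1)
    (hle : ∀ x, f0 x ≤ f1 x) (x' : ℝ) : GG X Y i f0 x' ≤ GG X Y i f1 x' := by
  obtain ⟨he0, he1⟩ := a12_ee1
  have h2 := GG_diff h i h0 h1 x'
  have h3 : 0 ≤ f1 (sol X i f0 x') - f0 (sol X i f0 x') := sub_nonneg.2 (hle _)
  rw [abs_of_nonneg h3] at h2
  have h4 := (abs_le.1 h2).1
  have h5 : 0 ≤ (q i - 2 * ee) * (f1 (sol X i f0 x') - f0 (sol X i f0 x')) :=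
    mul_nonneg (by linarith [(h.q0 i).1]) h3
  linarith

theorem GG_strictMono (h : CS p q X Y) (i : Sy) {f0 f1 : ℝ → ℝ} (h0 : IsLeaf f0) (h1 : IsLeaf f1)
    (hle : ∀ x, f0 x < f1 x) (x' : ℝ) : GG X Y i f0 x' < GG X Y i f1 x' := by
  obtain ⟨he0, he1⟩ := a12_ee1
  have h2 := GG_diff h i h0 h1 x'
  have h3 : 0 < f1 (sol X i f0 x') - f0 (sol X i f0 x') := sub_pos.2 (hle _)
  rw [abs_of_nonneg h3.le] at h2
  have h4 := (abs_le.1 h2).1
  have h5 : 0 < (q i - 2 * ee) * (f1 (sol X i f0 x') - f0 (sol X i f0 x')) :=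
    mul_pos (by linarith [(h.q0 i).1]) h3
  linarith

/-- Proof. `GG_diff`, `q i + 2 ee ≤ 82/100`. -/
theorem GG_contr (h : CS p q X Y) (i : Sy) {f0 f1 : ℝ → ℝ} (h0 : IsLeaf f0) (h1 : IsLeaf f1) {C : ℝ}
    (hC : ∀ x, |f1 x - f0 x| ≤ C) (x' : ℝ) : |GG X Y i f1 x' - GG X Y i f0 x'| ≤ 82 / 100 * C := by
  obtain ⟨he0, he1⟩ := a12_ee1
  have h2 := GG_diff h i h0 h1 x'
  have hq := h.q0 i
  set Δ := f1 (sol X i f0 x') - f0 (sol X i f0 x') with hΔ
  have h3 : |Δ| ≤ C := hC _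
  have h4 : |GG X Y i f1 x' - GG X Y i f0 x'| ≤
      |GG X Y i f1 x' - GG X Y i f0 x' - q i * Δ| + |q i * Δ| := by
    have := abs_add_le (GG X Y i f1 x' - GG X Y i f0 x' - q i * Δ) (q i * Δ)
    simpa using this
  rw [abs_mul, abs_of_nonneg (by linarith [hq.1] : (0 : ℝ) ≤ q i)] at h4
  have h5 : (q i + 2 * ee) * |Δ| ≤ 82 / 100 * |Δ| :=
    mul_le_mul_of_nonneg_right (by linarith [hq.2]) (abs_nonneg _)
  have h6 : 82 / 100 * |Δ| ≤ 82 / 100 * C := mul_le_mul_of_nonneg_left h3 (by norm_num)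
  linarith

/-- the same for words. Proofs: induction on `w` (generalizing the leaves). -/
theorem Gw_leaf (h : CS p q X Y) (w : List Sy) {f : ℝ → ℝ} (hf : IsLeaf f) : IsLeaf (Gw X Y w f) := by
  induction w generalizing f with
  | nil => exact hf
  | cons i w ih => exact ih (GG_leaf h i hf)

theorem Gw_mono (h : CS p q X Y) (w : List Sy) {f0 f1 : ℝ → ℝ} (h0 : IsLeaf f0) (h1 : IsLeaf f1)
    (hle : ∀ x, f0 x ≤ f1 x) (x' : ℝ) : Gw X Y w f0 x' ≤ Gw X Y w f1 x' := by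
  induction w generalizing f0 f1 with
  | nil => exact hle x'
  | cons i w ih => exact ih (GG_leaf h i h0) (GG_leaf h i h1) (GG_mono h i h0 h1 hle)

theorem Gw_strictMono (h : CS p q X Y) (w : List Sy) {f0 f1 : ℝ → ℝ} (h0 : IsLeaf f0) (h1 : IsLeaf f1)
    (hle : ∀ x, f0 x < f1 x) (x' : ℝ) : Gw X Y w f0 x' < Gw X Y w f1 x' := by
  induction w generalizing f0 f1 with
  | nil => exact hle x'
  | cons i w ih => exact ih (GG_leaf h i h0) (GG_leaf h i h1) (GG_strictMono h i h0 h1 hle)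

theorem Gw_contr (h : CS p q X Y) (w : List Sy) {f0 f1 : ℝ → ℝ} (h0 : IsLeaf f0) (h1 : IsLeaf f1) {C : ℝ}
    (hC : ∀ x, |f1 x - f0 x| ≤ C) (x' : ℝ) :
    |Gw X Y w f1 x' - Gw X Y w f0 x'| ≤ (82 / 100) ^ w.length * C := by
  induction w generalizing f0 f1 C with
  | nil => simpa [Gw] using hC x'
  | cons i w ih =>
    have h2 := ih (GG_leaf h i h0) (GG_leaf h i h1) (GG_contr h i h0 h1 hC)
    rw [List.length_cons, pow_succ, mul_assoc]
    exact h2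

end Pool.Agent.Lib.H37N
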