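import Pool.Agent.Lib.H37N.A38
import Pool.Agent.Lib.H37N.A39
import Pool.Agent.Lib.H37N.A02

/-!
# H37N A120 (size M): one step of real orbits on leaves
-/

open Set Filter Topology

namespace Pool.Agent.Lib.H37N

variable {g : Pt → Pt}

/-- the preimage of the point over `x` of the transformed leaf. Proof. `x0 = sol (XX g) i f x` satisfies
`x0 = XX g i (x, f x0)` (`sol_spec`, `cl_of_mem`), `(x, f x0) ∈ NN`; `XX_spec`: `(x0, f x0) ∈ VV i`, `(g (x0, f x0)).1 = x`, and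
`(g (x0, f x0)).2 = YY g i (x, f x0) = GG .. i f x` by definition of `YY` and `GG`; `XX_int`, `GG_int`. -/
theorem step_U (h : Near g) (i : Sy) {f : ℝ → ℝ} (hf : IsLeaf f) {x : ℝ} (hx : x ∈ II) :
    (sol (XX g) i f x, f (sol (XX g) i f x)) ∈ VV i ∧
    sol (XX g) i f x ∈ Ioo (al i - del) (al i + pw i + del) ∧
    g (sol (XX g) i f x, f (sol (XX g) i f x)) = (x, GG (XX g) (YY g) i f x) := by
  have hG : GG (XX g) (YY g) i f x = YY g i (x, f (sol (XX g) i f x)) := by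
    unfold GG
    rw [cl_of_mem hx]
  have h1 := sol_spec h.cs i hf x
  rw [cl_of_mem hx] at h1
  rw [hG]
  generalize sol (XX g) i f x = s at *
  have hN : (x, f s) ∈ NN := ⟨hx, hf.mem s⟩
  have h2 := (XX_spec h i hN).1
  have h4 := XX_int h i hN
  have h5 := g_cross h i hN
  rw [← h1] at h2 h4 h5
  exact ⟨h2, h4, h5⟩

/-- the image of the point at height `y` of the transformed stable leaf. Proof. Swapped: `y' = sol (swX (YY g)) i s y`
satisfies `y' = YY g i (s y', y)`, and `GG (swX (YY g)) (swX (XX g)) i s y = swX (XX g) i (y, s y') = XX g i (s y', y)`. With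
`(s y', y) ∈ NN`: `g_cross`, `XX_spec`, `XX_int`, `YY_int`. -/
theorem step_S (h : Near g) (i : Sy) {s : ℝ → ℝ} (hs : IsLeaf s) {y : ℝ} (hy : y ∈ II) :
    (GG (swX (YY g)) (swX (XX g)) i s y, y) ∈ VV i ∧
    GG (swX (YY g)) (swX (XX g)) i s y ∈ Ioo (al i - del) (al i + pw i + del) ∧
    sol (swX (YY g)) i s y ∈ Ioo (-del) (1 + del) ∧
    g (GG (swX (YY g)) (swX (XX g)) i s y, y) = (s (sol (swX (YY g)) i s y), sol (swX (YY g)) i s y) := by
  have hG : GG (swX (YY g)) (swX (XX g)) i s y = XX g i (s (sol (swX (YY g)) i s y), y) := by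
    unfold GG
    rw [cl_of_mem hy]
    rfl
  have h1 := sol_spec h.cs.swap i hs y
  rw [cl_of_mem hy] at h1
  have h6 := sol_mem h.cs.swap i hs y
  rw [hG]
  generalize sol (swX (YY g)) i s y = t at *
  have h1' : t = YY g i (s t, y) := h1
  have hN : (s t, y) ∈ NN := ⟨hs.mem t, hy⟩
  refine ⟨(XX_spec h i hN).1, XX_int h i hN, h6, ?_⟩
  rw [g_cross h i hN, ← h1']

/-- two-point estimate along one step of real orbits. Proof. `cross_of` for both points and `X_diff`, `Y_diff` of `h.cs`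
(`pw, qw ≤ 4/5`). -/
theorem real_diff (h : Near g) (i : Sy) {z z' : Pt} (hz : z ∈ VV i) (hz' : z' ∈ VV i)
    (hgz : g z ∈ NN) (hgz' : g z' ∈ NN) :
    |z'.1 - z.1| ≤ 81 / 100 * |(g z').1 - (g z).1| + ee * |z'.2 - z.2| ∧
    |(g z').2 - (g z).2| ≤ 81 / 100 * |z'.2 - z.2| + ee * |(g z').1 - (g z).1| := by
  obtain ⟨a1, a2⟩ := cross_of h i hz hgz
  obtain ⟨b1, b2⟩ := cross_of h i hz' hgz'
  have hN : ((g z).1, z.2) ∈ NN := ⟨hgz.1, (VV_sub_NN i hz).2⟩
  have hN' : ((g z').1, z'.2) ∈ NN := ⟨hgz'.1, (VV_sub_NN i hz').2⟩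
  have hX : |z'.1 - z.1 - pw i * ((g z').1 - (g z).1)| ≤
      ee * |(g z').1 - (g z).1| + ee * |z'.2 - z.2| := by
    have h1 := h.cs.X_diff i hN hN'
    rw [a1, b1] at h1
    exact h1
  have hY : |(g z').2 - (g z).2 - qw i * (z'.2 - z.2)| ≤
      ee * |(g z').1 - (g z).1| + ee * |z'.2 - z.2| := by
    have h1 := h.cs.Y_diff i hN hN'
    rw [a2, b2] at h1
    exact h1
  have hp : 0 ≤ pw i ∧ pw i ≤ 4 / 5 := by cases i <;> norm_num [pw]
  have hq : 0 ≤ qw i ∧ qw i ≤ 4 / 5 := by cases i <;> norm_num [qw]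
  have he : ee ≤ 1 / 1000 := by norm_num [ee]
  have hB := abs_nonneg ((g z').1 - (g z).1)
  have hD := abs_nonneg (z'.2 - z.2)
  constructor
  · have h1 := abs_sub_abs_le_abs_sub (z'.1 - z.1) (pw i * ((g z').1 - (g z).1))
    rw [abs_mul, abs_of_nonneg hp.1] at h1
    nlinarith [mul_nonneg (sub_nonneg.2 hp.2) hB, mul_nonneg (sub_nonneg.2 he) hB]
  · have h1 := abs_sub_abs_le_abs_sub ((g z').2 - (g z).2) (qw i * (z'.2 - z.2))
    rw [abs_mul, abs_of_nonneg hq.1] at h1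
    nlinarith [mul_nonneg (sub_nonneg.2 hq.2) hD, mul_nonneg (sub_nonneg.2 he) hD]


end Pool.Agent.Lib.H37N
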