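import Pool.Agent.Lib.H37N.A123

/-!
# H37N A121 (size M): backward orbits in the strips (A.12): uniqueness, convergence
-/

open Set Filter Topology

namespace Pool.Agent.Lib.H37N

variable {g : Pt → Pt}

theorem a121_iter {E F : ℕ → ℝ} {N0 : ℕ} (hE2 : ∀ n, N0 ≤ n → E n ≤ 2) (hF2 : ∀ n, N0 ≤ n → F n ≤ 2)
    (h1 : ∀ n, N0 ≤ n → E (n + 1) ≤ 81 / 100 * E n + ee * F (n + 1))
    (h2 : ∀ n, N0 ≤ n → F n ≤ 81 / 100 * F (n + 1) + ee * E n) (k : ℕ) :
    ∀ n, N0 + k ≤ n → E n ≤ 2 * (82 / 100) ^ k ∧ F n ≤ 2 * (82 / 100) ^ k := by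
  have he : ee ≤ 1 / 1000 := by norm_num [ee]
  have he0 := ee_pos
  induction k with
  | zero =>
    intro n hn
    rw [pow_zero, mul_one]
    exact ⟨hE2 n (by omega), hF2 n (by omega)⟩
  | succ k ih =>
    intro n hn
    obtain ⟨m, rfl⟩ : ∃ m, n = m + 1 := ⟨n - 1, by omega⟩
    have a1 := (ih m (by omega)).1
    have a2 := ih (m + 1) (by omega)
    have a3 := ih (m + 1 + 1) (by omega)
    have hM : (0 : ℝ) < 2 * (82 / 100) ^ k := by positivity
    have b1 := h1 m (by omega)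
    have b2 := h2 (m + 1) (by omega)
    rw [pow_succ]
    generalize (82 / 100 : ℝ) ^ k = M at *
    have c1 : ee * F (m + 1) ≤ ee * (2 * M) := mul_le_mul_of_nonneg_left a2.2 he0.le
    have c2 : ee * E (m + 1) ≤ ee * (2 * M) := mul_le_mul_of_nonneg_left a2.1 he0.le
    have c3 : ee * (2 * M) ≤ 1 / 1000 * (2 * M) := mul_le_mul_of_nonneg_right he hM.le
    constructor
    · linarith
    · linarith [a3.2]

theorem a121_zero {E F : ℕ → ℝ} (hE0 : E 0 = 0) (hE2 : ∀ n, E n ≤ 2) (hF2 : ∀ n, F n ≤ 2)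
    (hF0 : 0 ≤ F 0)
    (h1 : ∀ n, E (n + 1) ≤ 81 / 100 * E n + ee * F (n + 1))
    (h2 : ∀ n, F n ≤ 81 / 100 * F (n + 1) + ee * E n) : F 0 = 0 := by
  have he : ee ≤ 1 / 1000 := by norm_num [ee]
  have he0 := ee_pos
  have key : ∀ k : ℕ, ∀ n, E n ≤ 2 * (82 / 100) ^ k ∧ F n ≤ 2 * (82 / 100) ^ k := by
    intro k
    induction k with
    | zero =>
      intro n
      rw [pow_zero, mul_one]
      exact ⟨hE2 n, hF2 n⟩
    | succ k ih =>
      intro n
      have hM : (0 : ℝ) < 2 * (82 / 100) ^ k := by positivity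
      have a1 := ih n
      have a2 := ih (n + 1)
      have b2 := h2 n
      rw [pow_succ]
      constructor
      · rcases n with _ | m
        · rw [hE0]; positivity
        · have a3 := (ih m).1
          have b1 := h1 m
          generalize (82 / 100 : ℝ) ^ k = M at *
          have c1 : ee * F (m + 1) ≤ ee * (2 * M) := mul_le_mul_of_nonneg_left a1.2 he0.le
          have c3 : ee * (2 * M) ≤ 1 / 1000 * (2 * M) := mul_le_mul_of_nonneg_right he hM.le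
          linarith
      · generalize (82 / 100 : ℝ) ^ k = M at *
        have c1 : ee * E n ≤ ee * (2 * M) := mul_le_mul_of_nonneg_left a1.1 he0.le
        have c3 : ee * (2 * M) ≤ 1 / 1000 * (2 * M) := mul_le_mul_of_nonneg_right he hM.le
        linarith [a2.2]
  refine le_antisymm ?_ hF0
  have ht : Tendsto (fun k : ℕ => (2 : ℝ) * (82 / 100) ^ k) atTop (𝓝 (2 * 0)) :=
    (tendsto_pow_atTop_nhds_zero_of_lt_one (by norm_num) (by norm_num)).const_mul 2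
  rw [mul_zero] at ht
  exact ge_of_tendsto' ht fun k => (key k 0).2

theorem a121_two {z z' : Pt} (hz : z ∈ NN) (hz' : z' ∈ NN) :
    |z'.1 - z.1| ≤ 2 ∧ |z'.2 - z.2| ≤ 2 := by
  obtain ⟨⟨a1, a2⟩, a3, a4⟩ := hz
  obtain ⟨⟨b1, b2⟩, b3, b4⟩ := hz'
  have hd : del ≤ 1 / 10 := by norm_num [del]
  constructor <;> rw [abs_le] <;> constructor <;> linarith

/-- Two infinite backward orbits in the strips with the same itinerary and the same first coordinate agree at time `0`.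
Proof. `E n = |(ζ' n).1 - (ζ n).1|`, `F n = |(ζ' n).2 - (ζ n).2|` (all `≤ 2`). `real_diff` for `ζ (n+1)`:
`E (n+1) ≤ .81 E n + ee F (n+1)`, `F n ≤ .81 F (n+1) + ee E n`. Let `M` be a bound of all `F n`. From `E 0 = 0`:
`E n ≤ 6 ee M` for all `n` (induction), so `F n ≤ .81 M + 6 ee^2 M ≤ .82 M`. Iterating, `F 0 ≤ (.82)^k * 2` for all `k`. -/
theorem back_unique (h : Near g) {ι : ℕ → Sy} {ζ ζ' : ℕ → Pt} (hN : ζ 0 ∈ NN) (hN' : ζ' 0 ∈ NN)
    (hV : ∀ n, ζ (n + 1) ∈ VV (ι n)) (hV' : ∀ n, ζ' (n + 1) ∈ VV (ι n))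
    (hg : ∀ n, g (ζ (n + 1)) = ζ n) (hg' : ∀ n, g (ζ' (n + 1)) = ζ' n)
    (h0 : (ζ 0).1 = (ζ' 0).1) : ζ 0 = ζ' 0 := by
  have hNN : ∀ n, ζ n ∈ NN := by
    intro n
    rcases n with _ | n
    · exact hN
    · exact VV_sub_NN _ (hV n)
  have hNN' : ∀ n, ζ' n ∈ NN := by
    intro n
    rcases n with _ | n
    · exact hN'
    · exact VV_sub_NN _ (hV' n)
  have hd : ∀ n, |(ζ' (n + 1)).1 - (ζ (n + 1)).1| ≤ 81 / 100 * |(ζ' n).1 - (ζ n).1| +
        ee * |(ζ' (n + 1)).2 - (ζ (n + 1)).2| ∧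
      |(ζ' n).2 - (ζ n).2| ≤ 81 / 100 * |(ζ' (n + 1)).2 - (ζ (n + 1)).2| +
        ee * |(ζ' n).1 - (ζ n).1| := by
    intro n
    have h1 := real_diff h (ι n) (hV n) (hV' n) (by rw [hg n]; exact hNN n)
      (by rw [hg' n]; exact hNN' n)
    rw [hg n, hg' n] at h1
    exact h1
  have h3 := a121_zero (E := fun n => |(ζ' n).1 - (ζ n).1|) (F := fun n => |(ζ' n).2 - (ζ n).2|)
    (by show |(ζ' 0).1 - (ζ 0).1| = 0; rw [h0, sub_self, abs_zero])
    (fun n => (a121_two (hNN n) (hNN' n)).1) (fun n => (a121_two (hNN n) (hNN' n)).2)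
    (abs_nonneg _) (fun n => (hd n).1) (fun n => (hd n).2)
  have h4 : (ζ' 0).2 - (ζ 0).2 = 0 := abs_eq_zero.1 h3
  exact Prod.ext h0 (by linarith)

/-- A bounded backward orbit which stays in `VV b` from some time on tends to the fixed point. Proof. For `n ≥ N0` compare
with the constant orbit `fixP g b` (`real_diff`): `E (n+1) ≤ .81 E n + ee F (n+1)`, `F n ≤ .81 F (n+1) + ee E n`, `E, F ≤ 2`. First
`F n ≤ 6 ee sup_{m ≥ n} E m`-type bound (iterate the second inequality forward in `n`: `F n ≤ .81^k F (n+k) + ee ∑ .81^j E (n+j)`),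
so with `S n = sup_{m ≥ n} E m`: `F n ≤ 6 ee S n` and `S (n+1) ≤ .82 S n`; or: `lim sup E ≤ .81 lim sup E + 6 ee^2 lim sup E`. -/
theorem back_tendsto (h : Near g) (b : Sy) {ζ : ℕ → Pt} {N0 : ℕ} (hN : ∀ n, ζ n ∈ NN)
    (hV : ∀ n, N0 ≤ n → ζ (n + 1) ∈ VV b) (hg : ∀ n, g (ζ (n + 1)) = ζ n) :
    Tendsto ζ atTop (𝓝 (fixP g b)) := by
  obtain ⟨hp1, hp2, _⟩ := fixP_spec h b
  have hpV : fixP g b ∈ VV b := interior_subset hp1
  have hpN : fixP g b ∈ NN := VV_sub_NN b hpV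
  generalize fixP g b = p at *
  have hd : ∀ n, N0 ≤ n → |(ζ (n + 1)).1 - p.1| ≤ 81 / 100 * |(ζ n).1 - p.1| +
        ee * |(ζ (n + 1)).2 - p.2| ∧
      |(ζ n).2 - p.2| ≤ 81 / 100 * |(ζ (n + 1)).2 - p.2| + ee * |(ζ n).1 - p.1| := by
    intro n hn
    have h1 := real_diff h b hpV (hV n hn) (by rw [hp2]; exact hpN)
      (by rw [hg n]; exact hN n)
    rw [hg n, hp2] at h1
    exact h1
  have key := a121_iter (E := fun n => |(ζ n).1 - p.1|) (F := fun n => |(ζ n).2 - p.2|)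
    (N0 := N0) (fun n _ => (a121_two hpN (hN n)).1) (fun n _ => (a121_two hpN (hN n)).2)
    (fun n hn => (hd n hn).1) (fun n hn => (hd n hn).2)
  rw [← tendsto_add_atTop_iff_nat N0, tendsto_iff_dist_tendsto_zero]
  have ht : Tendsto (fun k : ℕ => (2 : ℝ) * (82 / 100) ^ k) atTop (𝓝 (2 * 0)) :=
    (tendsto_pow_atTop_nhds_zero_of_lt_one (by norm_num) (by norm_num)).const_mul 2
  rw [mul_zero] at ht
  refine squeeze_zero (fun n => dist_nonneg) (fun n => ?_) ht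
  have h1 := key n (n + N0) (by omega)
  rw [Prod.dist_eq, Real.dist_eq, Real.dist_eq]
  exact max_le h1.1 h1.2


end Pool.Agent.Lib.H37N
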