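import Pool.Agent.Lib.H37N.A123

/-!
# H37N A122 (size M): forward orbits in the strips (A.12): uniqueness, convergence
-/

open Set Filter Topology

namespace Pool.Agent.Lib.H37N

variable {g : Pt → Pt}

theorem a122_iter {E F : ℕ → ℝ} {N0 : ℕ} (hE2 : ∀ n, N0 ≤ n → E n ≤ 2) (hF2 : ∀ n, N0 ≤ n → F n ≤ 2)
    (h1 : ∀ n, N0 ≤ n → E (n + 1) ≤ 81 / 100 * E n + ee * F (n + 1))
    (h2 : ∀ n, N0 ≤ n → F n ≤ 81 / 100 * F (n + 1) + ee * E n) (k : ℕ) :
    ∀ n, N0 + k ≤ n → E n ≤ 2 * (82 / 100) ^ k ∧ F n ≤ 2 * (82 / 100) ^ k := by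
  have he : ee ≤ 1 / 1000 := by norm_num [ee]
  have he0 := ee_pos
  induction k with
  | zero =>
    intro n hn
    rw [pow_zero, mul_one]
    exact ⟨hE2 n (by omega), hF2 n (by omega)⟩
  | succ k ih =>
    intro n hn
    obtain ⟨m, rfl⟩ : ∃ m, n = m + 1 := ⟨n - 1, by omega⟩
    have a1 := (ih m (by omega)).1
    have a2 := ih (m + 1) (by omega)
    have a3 := ih (m + 1 + 1) (by omega)
    have hM : (0 : ℝ) < 2 * (82 / 100) ^ k := by positivity
    have b1 := h1 m (by omega)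
    have b2 := h2 (m + 1) (by omega)
    rw [pow_succ]
    generalize (82 / 100 : ℝ) ^ k = M at *
    have c1 : ee * F (m + 1) ≤ ee * (2 * M) := mul_le_mul_of_nonneg_left a2.2 he0.le
    have c2 : ee * E (m + 1) ≤ ee * (2 * M) := mul_le_mul_of_nonneg_left a2.1 he0.le
    have c3 : ee * (2 * M) ≤ 1 / 1000 * (2 * M) := mul_le_mul_of_nonneg_right he hM.le
    constructor
    · linarith
    · linarith [a3.2]

theorem a122_zero {E F : ℕ → ℝ} (hE0 : E 0 = 0) (hE2 : ∀ n, E n ≤ 2) (hF2 : ∀ n, F n ≤ 2)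
    (hF0 : 0 ≤ F 0)
    (h1 : ∀ n, E (n + 1) ≤ 81 / 100 * E n + ee * F (n + 1))
    (h2 : ∀ n, F n ≤ 81 / 100 * F (n + 1) + ee * E n) : F 0 = 0 := by
  have he : ee ≤ 1 / 1000 := by norm_num [ee]
  have he0 := ee_pos
  have key : ∀ k : ℕ, ∀ n, E n ≤ 2 * (82 / 100) ^ k ∧ F n ≤ 2 * (82 / 100) ^ k := by
    intro k
    induction k with
    | zero =>
      intro n
      rw [pow_zero, mul_one]
      exact ⟨hE2 n, hF2 n⟩
    | succ k ih =>
      intro n
      have hM : (0 : ℝ) < 2 * (82 / 100) ^ k := by positivity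
      have a1 := ih n
      have a2 := ih (n + 1)
      have b2 := h2 n
      rw [pow_succ]
      constructor
      · rcases n with _ | m
        · rw [hE0]; positivity
        · have a3 := (ih m).1
          have b1 := h1 m
          generalize (82 / 100 : ℝ) ^ k = M at *
          have c1 : ee * F (m + 1) ≤ ee * (2 * M) := mul_le_mul_of_nonneg_left a1.2 he0.le
          have c3 : ee * (2 * M) ≤ 1 / 1000 * (2 * M) := mul_le_mul_of_nonneg_right he hM.le
          linarith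
      · generalize (82 / 100 : ℝ) ^ k = M at *
        have c1 : ee * E n ≤ ee * (2 * M) := mul_le_mul_of_nonneg_left a1.1 he0.le
        have c3 : ee * (2 * M) ≤ 1 / 1000 * (2 * M) := mul_le_mul_of_nonneg_right he hM.le
        linarith [a2.2]
  refine le_antisymm ?_ hF0
  have ht : Tendsto (fun k : ℕ => (2 : ℝ) * (82 / 100) ^ k) atTop (𝓝 (2 * 0)) :=
    (tendsto_pow_atTop_nhds_zero_of_lt_one (by norm_num) (by norm_num)).const_mul 2
  rw [mul_zero] at ht
  exact ge_of_tendsto' ht fun k => (key k 0).2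

theorem a122_two {z z' : Pt} (hz : z ∈ NN) (hz' : z' ∈ NN) :
    |z'.1 - z.1| ≤ 2 ∧ |z'.2 - z.2| ≤ 2 := by
  obtain ⟨⟨a1, a2⟩, a3, a4⟩ := hz
  obtain ⟨⟨b1, b2⟩, b3, b4⟩ := hz'
  have hd : del ≤ 1 / 10 := by norm_num [del]
  constructor <;> rw [abs_le] <;> constructor <;> linarith

/-- Two points whose forward orbits stay in the strips with the same itinerary and which have the same second coordinate
agree. Proof. `E n = |(g^[n] z').1 - (g^[n] z).1|`, `F n` for the second coordinates (all `≤ 2`), `real_diff`: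
`E n ≤ .81 E (n+1) + ee F n`, `F (n+1) ≤ .81 F n + ee E (n+1)`, `F 0 = 0`. If all `E n ≤ M` then `F n ≤ 6 ee M`, so
`E n ≤ .81 M + 6 ee^2 M ≤ .82 M`; iterate: `E 0 ≤ (.82)^k * 2`. -/
theorem forw_unique (h : Near g) {ι : ℕ → Sy} {z z' : Pt} (hV : ∀ n, g^[n] z ∈ VV (ι n))
    (hV' : ∀ n, g^[n] z' ∈ VV (ι n)) (h0 : z.2 = z'.2) : z = z' := by
  have hNN : ∀ n, g^[n] z ∈ NN := fun n => VV_sub_NN _ (hV n)
  have hNN' : ∀ n, g^[n] z' ∈ NN := fun n => VV_sub_NN _ (hV' n)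
  have hd : ∀ n, |(g^[n] z').1 - (g^[n] z).1| ≤ 81 / 100 * |(g^[n + 1] z').1 - (g^[n + 1] z).1| +
        ee * |(g^[n] z').2 - (g^[n] z).2| ∧
      |(g^[n + 1] z').2 - (g^[n + 1] z).2| ≤ 81 / 100 * |(g^[n] z').2 - (g^[n] z).2| +
        ee * |(g^[n + 1] z').1 - (g^[n + 1] z).1| := by
    intro n
    have e1 : g (g^[n] z) = g^[n + 1] z := (Function.iterate_succ_apply' g n z).symm
    have e2 : g (g^[n] z') = g^[n + 1] z' := (Function.iterate_succ_apply' g n z').symm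
    have h1 := real_diff h (ι n) (hV n) (hV' n) (by rw [e1]; exact hNN (n + 1))
      (by rw [e2]; exact hNN' (n + 1))
    rw [e1, e2] at h1
    exact h1
  have h3 := a122_zero (E := fun n => |(g^[n] z').2 - (g^[n] z).2|)
    (F := fun n => |(g^[n] z').1 - (g^[n] z).1|)
    (by show |z'.2 - z.2| = 0; rw [h0, sub_self, abs_zero])
    (fun n => (a122_two (hNN n) (hNN' n)).2) (fun n => (a122_two (hNN n) (hNN' n)).1)
    (abs_nonneg _) (fun n => (hd n).2) (fun n => (hd n).1)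
  have h4 : z'.1 - z.1 = 0 := abs_eq_zero.1 h3
  exact Prod.ext (by linarith) h0

/-- Proof. For `n ≥ N0` compare with the constant orbit `fixP g b`: `E n ≤ .81 E (n+1) + ee F n`,
`F (n+1) ≤ .81 F n + ee E (n+1)`; so `E n ≤ 6 ee sup_{m ≥ n} F m` and `lim sup F ≤ .81 lim sup F + 6 ee^2 lim sup F`. (Or: a common
bound `S n` of `E m, F m` for `m ≥ n` satisfies `S (n+1) ≤ .82 S n`.) -/
theorem forw_tendsto (h : Near g) (b : Sy) {z : Pt} {N0 : ℕ} (hV : ∀ n, N0 ≤ n → g^[n] z ∈ VV b) :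
    Tendsto (fun n => g^[n] z) atTop (𝓝 (fixP g b)) := by
  obtain ⟨hp1, hp2, _⟩ := fixP_spec h b
  have hpV : fixP g b ∈ VV b := interior_subset hp1
  have hpN : fixP g b ∈ NN := VV_sub_NN b hpV
  have hNN : ∀ n, N0 ≤ n → g^[n] z ∈ NN := fun n hn => VV_sub_NN _ (hV n hn)
  generalize fixP g b = p at *
  have hd : ∀ n, N0 ≤ n → |(g^[n] z).1 - p.1| ≤ 81 / 100 * |(g^[n + 1] z).1 - p.1| +
        ee * |(g^[n] z).2 - p.2| ∧
      |(g^[n + 1] z).2 - p.2| ≤ 81 / 100 * |(g^[n] z).2 - p.2| +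
        ee * |(g^[n + 1] z).1 - p.1| := by
    intro n hn
    have e1 : g (g^[n] z) = g^[n + 1] z := (Function.iterate_succ_apply' g n z).symm
    have h1 := real_diff h b hpV (hV n hn) (by rw [hp2]; exact hpN)
      (by rw [e1]; exact hNN (n + 1) (by omega))
    rw [e1, hp2] at h1
    exact h1
  have key := a122_iter (E := fun n => |(g^[n] z).2 - p.2|) (F := fun n => |(g^[n] z).1 - p.1|)
    (N0 := N0) (fun n hn => (a122_two hpN (hNN n hn)).2) (fun n hn => (a122_two hpN (hNN n hn)).1)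
    (fun n hn => (hd n hn).2) (fun n hn => (hd n hn).1)
  rw [← tendsto_add_atTop_iff_nat N0, tendsto_iff_dist_tendsto_zero]
  have ht : Tendsto (fun k : ℕ => (2 : ℝ) * (82 / 100) ^ k) atTop (𝓝 (2 * 0)) :=
    (tendsto_pow_atTop_nhds_zero_of_lt_one (by norm_num) (by norm_num)).const_mul 2
  rw [mul_zero] at ht
  refine squeeze_zero (fun n => dist_nonneg) (fun n => ?_) ht
  have h1 := key n (n + N0) (by omega)
  rw [Prod.dist_eq, Real.dist_eq, Real.dist_eq]
  exact max_le h1.2 h1.1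


end Pool.Agent.Lib.H37N
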