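import Pool.Agent.Lib.H37N.A120

/-!
# H37N A123 (size M): the fixed points
-/

open Set Filter Topology

namespace Pool.Agent.Lib.H37N

variable {g : Pt → Pt}

theorem a123_int {b : Sy} {x y : ℝ} (hx : x ∈ Ioo (al b - del) (al b + pw b + del))
    (hy : y ∈ Ioo (-del) (1 + del)) : ((x, y) : Pt) ∈ interior (VV b) := by
  unfold VV
  rw [interior_prod_eq, interior_Icc, interior_Icc]
  exact ⟨hx, hy⟩

theorem a123_contr (h : Near g) (b : Sy) {f : ℝ → ℝ} (hf : IsLeaf f) :
    ∃ x, sol (XX g) b f x = x := by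
  have hK : ContractingWith (82 / 100 : NNReal) (fun x => sol (XX g) b f x) := by
    refine ⟨?_, ?_⟩
    · rw [← NNReal.coe_lt_coe]
      push_cast
      norm_num
    · refine LipschitzWith.of_dist_le_mul fun x y => ?_
      rw [Real.dist_eq, Real.dist_eq]
      have h1 := sol_lip h.cs b hf x y
      have h2 := cl_lip x y
      have h3 : pw b + 2 * ee ≤ 82 / 100 := by cases b <;> norm_num [pw, ee]
      have h4 : ((82 / 100 : NNReal) : ℝ) = 82 / 100 := by push_cast; norm_num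
      rw [h4]
      exact h1.trans (mul_le_mul h3 h2 (abs_nonneg _) (by norm_num))
  exact ⟨ContractingWith.fixedPoint _ hK, ContractingWith.fixedPoint_isFixedPt hK⟩

/-- Proof. Existence: the map `x ↦ sol (XX g) b f x`, `f = fixL (XX g) (YY g) b`, is a contraction of `ℝ` (`sol_lip`, `cl_lip`), let
`x` be its fixed point (`ContractingWith.fixedPoint`); `x ∈ II` (`sol_mem`) and `step_U` gives
`g (x, f x) = (x, GG f x) = (x, f x)`, and `(x, f x) ∈ interior (VV b)` (`interior_prod_eq`; `f x = GG f x` is interior,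
`GG_int`). Uniqueness: `real_diff` for two fixed points in `VV b ⊆ NN` gives `E ≤ .81 E + ee F`, `F ≤ .81 F + ee E`, so
`E = F = 0`. `Classical.epsilon_spec`. -/
theorem fixP_spec (h : Near g) (b : Sy) : fixP g b ∈ interior (VV b) ∧ g (fixP g b) = fixP g b ∧
    ∀ z ∈ VV b, g z = z → z = fixP g b := by
  have huniq : ∀ z ∈ VV b, ∀ z' ∈ VV b, g z = z → g z' = z' → z = z' := by
    intro z hz z' hz' hg hg'
    have h1 := real_diff h b hz hz' (hg.symm ▸ VV_sub_NN b hz) (hg'.symm ▸ VV_sub_NN b hz')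
    rw [hg, hg'] at h1
    obtain ⟨h2, h3⟩ := h1
    have h4 := abs_nonneg (z'.1 - z.1)
    have h5 := abs_nonneg (z'.2 - z.2)
    have he : ee = 1 / 10 ^ 10 := rfl
    rw [he] at h2 h3
    have h6 : |z'.1 - z.1| = 0 := by linarith
    have h7 : |z'.2 - z.2| = 0 := by linarith
    rw [abs_eq_zero, sub_eq_zero] at h6 h7
    exact Prod.ext h6.symm h7.symm
  have hf := fixL_leaf h.cs b
  obtain ⟨x, hx⟩ := a123_contr h b hf
  have hxI : x ∈ II := by
    have h1 := sol_mem h.cs b hf x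
    rw [hx] at h1
    exact ⟨h1.1.le, h1.2.le⟩
  obtain ⟨h1, h2, h3⟩ := step_U h b hf hxI
  rw [hx] at h1 h2 h3
  have h4 : GG (XX g) (YY g) b (fixL (XX g) (YY g) b) x ∈ Ioo (-del) (1 + del) :=
    GG_int h.cs b hf x
  rw [fixL_fix h.cs b] at h3 h4
  have h5 := a123_int h2 h4
  have hsp : fixP g b ∈ VV b ∧ g (fixP g b) = fixP g b :=
    Classical.epsilon_spec (p := fun z => z ∈ VV b ∧ g z = z) ⟨_, h1, h3⟩
  have h6 := huniq _ h1 _ hsp.1 h3 hsp.2
  exact ⟨h6 ▸ h5, hsp.2, fun z hz hgz => huniq z hz _ hsp.1 hgz hsp.2⟩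

end Pool.Agent.Lib.H37N
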