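import Pool.Agent.Lib.H37N.A121

/-!
# H37N A124 (size M): existence of backward orbits on unstable leaves, characterisation
-/

open Set Filter Topology

namespace Pool.Agent.Lib.H37N

variable {g : Pt → Pt}

theorem a124_step (h : Near g) (b : Sy) (r : List Sy) (n : ℕ) :
    Uu g b (r.drop n).reverse =
      GG (XX g) (YY g) (r.getD n b) (Uu g b (r.drop (n + 1)).reverse) := by
  rcases lt_or_ge n r.length with hn | hn
  · have h1 : r.drop n = r[n] :: r.drop (n + 1) := List.drop_eq_getElem_cons hn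
    have h2 : r.getD n b = r[n] := by
      rw [List.getD_eq_getElem?_getD, List.getElem?_eq_getElem hn]
      rfl
    rw [h1, List.reverse_cons, Uu_append, h2]
    rfl
  · have h1 : r.drop n = [] := List.drop_eq_nil_of_le hn
    have h2 : r.drop (n + 1) = [] := List.drop_eq_nil_of_le (by omega)
    have h3 : r.getD n b = b := by
      rw [List.getD_eq_getElem?_getD, List.getElem?_eq_none hn]
      rfl
    rw [h1, h2, h3]
    exact (fixL_fix h.cs b).symm

/-- Proof. Put `W n = (List.dropLast)^[n] w`, letter `ι n = (w.reverse).getD n b` (the last letter of `W n`, or `b` if `W n = []`),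
`x 0 = x`, `x (n+1) = sol (XX g) (ι n) (Uu g b (W (n+1))) (x n)`, `ζ n = (x n, Uu g b (W n) (x n))`. Since
`Uu g b (W n) = GG (ι n) (Uu g b (W (n+1)))` (`Uu_append` for `W n = W (n+1) ++ [ι n]`; for `W n = []`: `fixL_fix`), `step_U` gives
`g (ζ (n+1)) = ζ n`, `ζ (n+1) ∈ VV (ι n)`, with first coordinate interior; the second coordinate
`Uu g b (W (n+1)) (x (n+1))` is interior too (`GG_int`, every `Uu g b _` is a value of `GG`). Alternatively: induction on
`w.reverse`, with the case `w = []` by iterating `x ↦ sol (XX g) b (fixL ..) x`. Limit: `back_tendsto` with `N0 = w.length`. -/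
theorem back_orbit (h : Near g) (b : Sy) (w : List Sy) {x : ℝ} (hx : x ∈ II) : ∃ ζ : ℕ → Pt,
    ζ 0 = (x, Uu g b w x) ∧ (∀ n, ζ (n + 1) ∈ interior (VV (w.reverse.getD n b))) ∧
    (∀ n, g (ζ (n + 1)) = ζ n) ∧ Tendsto ζ atTop (𝓝 (fixP g b)) := by
  let r := w.reverse
  let L : ℕ → ℝ → ℝ := fun n => Uu g b (r.drop n).reverse
  let xs : ℕ → ℝ := fun n => Nat.rec x (fun k y => sol (XX g) (r.getD k b) (L (k + 1)) y) n
  have hL : ∀ n, IsLeaf (L n) := fun n => Uu_leaf h b _
  have hstep : ∀ n, L n = GG (XX g) (YY g) (r.getD n b) (L (n + 1)) := fun n => a124_step h b r n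
  have hxs : ∀ n, xs (n + 1) = sol (XX g) (r.getD n b) (L (n + 1)) (xs n) := fun n => rfl
  have hI : ∀ n, xs n ∈ II := by
    intro n
    cases n with
    | zero => exact hx
    | succ n =>
      rw [hxs]
      have h1 := sol_mem h.cs (r.getD n b) (hL (n + 1)) (xs n)
      exact ⟨h1.1.le, h1.2.le⟩
  have hint : ∀ n y, L n y ∈ Ioo (-del) (1 + del) := by
    intro n y
    rw [hstep n]
    exact GG_int h.cs _ (hL (n + 1)) y
  have hV : ∀ n, ((xs (n + 1), L (n + 1) (xs (n + 1))) : Pt) ∈ interior (VV (r.getD n b)) := by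
    intro n
    have h1 := (step_U h (r.getD n b) (hL (n + 1)) (hI n)).2.1
    exact a123_int h1 (hint (n + 1) _)
  have hg : ∀ n, g (xs (n + 1), L (n + 1) (xs (n + 1))) = (xs n, L n (xs n)) := by
    intro n
    have h1 := (step_U h (r.getD n b) (hL (n + 1)) (hI n)).2.2
    rw [hstep n]
    exact h1
  refine ⟨fun n => (xs n, L n (xs n)), ?_, hV, hg, ?_⟩
  · change ((x, Uu g b (r.drop 0).reverse x) : Pt) = (x, Uu g b w x)
    rw [List.drop_zero, List.reverse_reverse]
  · refine back_tendsto h b (N0 := w.length) (fun n => ⟨hI n, (hL n).mem _⟩) ?_ hg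
    intro n hn
    have h1 : r.getD n b = b := by
      rw [List.getD_eq_getElem?_getD, List.getElem?_eq_none (by simpa [r] using hn)]
      rfl
    have h2 := interior_subset (hV n)
    rw [h1] at h2
    exact h2

/-- characterisation of the unstable leaves. Proof: `back_orbit` and `back_unique`. -/
theorem back_char (h : Near g) (b : Sy) (w : List Sy) {ζ : ℕ → Pt} (hN : ζ 0 ∈ NN)
    (hV : ∀ n, ζ (n + 1) ∈ VV (w.reverse.getD n b)) (hg : ∀ n, g (ζ (n + 1)) = ζ n) :
    (ζ 0).2 = Uu g b w (ζ 0).1 := by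
  obtain ⟨ζ', h0, hV', hg', _⟩ := back_orbit h b w (x := (ζ 0).1) hN.1
  have hN' : ζ' 0 ∈ NN := by
    rw [h0]
    exact ⟨hN.1, (Uu_leaf h b w).mem _⟩
  have h1 := back_unique h (ι := fun n => w.reverse.getD n b) hN hN' hV
    (fun n => interior_subset (hV' n)) hg hg' (by rw [h0])
  rw [h0] at h1
  exact congrArg Prod.snd h1

end Pool.Agent.Lib.H37N
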