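import Pool.Agent.Lib.H37N.A122

/-!
# H37N A125 (size M): forward orbits on stable leaves, characterisation
-/

open Set Filter Topology

namespace Pool.Agent.Lib.H37N

variable {g : Pt → Pt}

theorem a125_step (h : Near g) (b : Sy) (v : List Sy) (n : ℕ) :
    Ss g b (v.drop n) =
      GG (swX (YY g)) (swX (XX g)) (v.getD n b) (Ss g b (v.drop (n + 1))) := by
  rcases lt_or_ge n v.length with hn | hn
  · have h1 : v.drop n = [v[n]] ++ v.drop (n + 1) := List.drop_eq_getElem_cons hn
    have h2 : v.getD n b = v[n] := by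
      rw [List.getD_eq_getElem?_getD, List.getElem?_eq_getElem hn]
      rfl
    rw [h1, Ss_append, h2]
    rfl
  · have h1 : v.drop n = [] := List.drop_eq_nil_of_le hn
    have h2 : v.drop (n + 1) = [] := List.drop_eq_nil_of_le (by omega)
    have h3 : v.getD n b = b := by
      rw [List.getD_eq_getElem?_getD, List.getElem?_eq_none hn]
      rfl
    rw [h1, h2, h3]
    exact (fixL_fix h.cs.swap b).symm

theorem a125_int {b : Sy} {x y : ℝ} (hx : x ∈ Ioo (al b - del) (al b + pw b + del))
    (hy : y ∈ Ioo (-del) (1 + del)) : ((x, y) : Pt) ∈ interior (VV b) := by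
  unfold VV
  rw [interior_prod_eq, interior_Icc, interior_Icc]
  exact ⟨hx, hy⟩

/-- Proof. Induction on `v`, generalizing `y`. `v = i :: v'`: `Ss g b (i :: v') = GG .. i (Ss g b v')` (`Ss_append` with
`v = [i]`), `step_S`: the point is in `VV i` and its image is `(Ss g b v' y', y')` with `y'` interior. `v = []`:
`Ss g b [] = fixL` is fixed by `GG b` (`fixL_fix`), the image is `(Ss g b [] y', y')`; iterate. The point itself is interior
if `y` is (`interior_prod_eq`, `step_S`). -/
theorem forw_orbit (h : Near g) (b : Sy) (v : List Sy) {y : ℝ} (hy : y ∈ II) :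
    (∀ n, g^[n] (Ss g b v y, y) ∈ VV (v.getD n b)) ∧
    (y ∈ Ioo (-del) (1 + del) → ∀ n, g^[n] (Ss g b v y, y) ∈ interior (VV (v.getD n b))) ∧
    Tendsto (fun n => g^[n] (Ss g b v y, y)) atTop (𝓝 (fixP g b)) := by
  let S : ℕ → ℝ → ℝ := fun n => Ss g b (v.drop n)
  let ys : ℕ → ℝ := fun n => Nat.rec y (fun k z => sol (swX (YY g)) (v.getD k b) (S (k + 1)) z) n
  have hS : ∀ n, IsLeaf (S n) := fun n => Ss_leaf h b _
  have hstep : ∀ n, S n = GG (swX (YY g)) (swX (XX g)) (v.getD n b) (S (n + 1)) :=
    fun n => a125_step h b v n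
  have hys : ∀ n, ys (n + 1) = sol (swX (YY g)) (v.getD n b) (S (n + 1)) (ys n) := fun n => rfl
  have hI : ∀ n, ys n ∈ II := by
    intro n
    cases n with
    | zero => exact hy
    | succ n =>
      rw [hys]
      have h1 := sol_mem h.cs.swap (v.getD n b) (hS (n + 1)) (ys n)
      exact ⟨h1.1.le, h1.2.le⟩
  have hst := fun n => step_S h (v.getD n b) (hS (n + 1)) (hI n)
  have hg : ∀ n, g (S n (ys n), ys n) = (S (n + 1) (ys (n + 1)), ys (n + 1)) := by
    intro n
    have h1 := (hst n).2.2.2
    rw [← hstep n] at h1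
    exact h1
  have hit : ∀ n, g^[n] (Ss g b v y, y) = (S n (ys n), ys n) := by
    intro n
    induction n with
    | zero =>
      change ((Ss g b v y, y) : Pt) = (Ss g b (v.drop 0) y, y)
      rw [List.drop_zero]
    | succ n ih =>
      rw [Function.iterate_succ_apply', ih, hg]
  have hV : ∀ n, ((S n (ys n), ys n) : Pt) ∈ VV (v.getD n b) := by
    intro n
    have h1 := (hst n).1
    rw [← hstep n] at h1
    exact h1
  refine ⟨fun n => by rw [hit n]; exact hV n, fun hy0 n => ?_, ?_⟩
  · rw [hit n]
    have h1 := (hst n).2.1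
    rw [← hstep n] at h1
    refine a125_int h1 ?_
    cases n with
    | zero => exact hy0
    | succ n =>
      rw [hys]
      exact (hst n).2.2.1
  · refine forw_tendsto h b (N0 := v.length) ?_
    intro n hn
    have h1 : v.getD n b = b := by
      rw [List.getD_eq_getElem?_getD, List.getElem?_eq_none hn]
      rfl
    have h2 := hV n
    rw [h1] at h2
    rw [hit n]
    exact h2

/-- characterisation of the stable leaves. Proof: `forw_orbit` and `forw_unique` (`z.2 ∈ II` since `z ∈ VV _`). -/
theorem forw_char (h : Near g) (b : Sy) (v : List Sy) {z : Pt}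
    (hV : ∀ n, g^[n] z ∈ VV (v.getD n b)) : z.1 = Ss g b v z.2 := by
  have h0 : z ∈ VV (v.getD 0 b) := hV 0
  have hy : z.2 ∈ II := h0.2
  have h1 := forw_unique h (ι := fun n => v.getD n b) hV (forw_orbit h b v hy).1 rfl
  exact congrArg Prod.fst h1

end Pool.Agent.Lib.H37N
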