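import Pool.Agent.Lib.H37N.A12

/-!
# H37N A14 (size M): the fixed leaves
-/

open Set Filter Topology

namespace Pool.Agent.Lib.H37N

variable {p q : Sy → ℝ} {X Y : Sy → Pt → ℝ}

theorem a14_leaf (h : CS p q X Y) (i : Sy) (n : ℕ) : IsLeaf ((GG X Y i)^[n] (fun _ => 0)) := by
  induction n with
  | zero =>
    have h0 : (0 : ℝ) ∈ II := by rw [II_def]; constructor <;> norm_num [del]
    exact leaf_const h0
  | succ n ih =>
    rw [Function.iterate_succ_apply']
    exact GG_leaf h i ih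

theorem a14_two {a b : ℝ} (ha : a ∈ II) (hb : b ∈ II) : |a - b| ≤ 2 := by
  have h1 := ha.1
  have h2 := ha.2
  have h3 := hb.1
  have h4 := hb.2
  simp only [del] at h1 h2 h3 h4
  rw [abs_le]
  constructor <;> linarith

theorem a14_step (h : CS p q X Y) (i : Sy) (n : ℕ) (x : ℝ) :
    |(GG X Y i)^[n + 1] (fun _ => 0) x - (GG X Y i)^[n] (fun _ => 0) x| ≤ 2 * (82 / 100) ^ n := by
  induction n generalizing x with
  | zero =>
    rw [pow_zero, mul_one]
    exact a14_two ((a14_leaf h i _).mem x) ((a14_leaf h i _).mem x)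
  | succ n ih =>
    rw [Function.iterate_succ_apply' (GG X Y i) (n + 1), Function.iterate_succ_apply' (GG X Y i) n]
    have := GG_contr h i (a14_leaf h i n) (a14_leaf h i (n + 1)) ih x
    rw [Function.iterate_succ_apply' (GG X Y i) n] at this
    refine this.trans (le_of_eq ?_)
    ring

theorem a14_dist (h : CS p q X Y) (i : Sy) (n : ℕ) (x : ℝ) :
    dist ((GG X Y i)^[n] (fun _ => 0) x) ((GG X Y i)^[n + 1] (fun _ => 0) x) ≤
      2 * (82 / 100) ^ n := by
  rw [Real.dist_eq, abs_sub_comm]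
  exact a14_step h i n x

theorem a14_lim {a b c r : ℝ} (hr0 : 0 ≤ r) (hr : r < 1) (h : ∀ n : ℕ, a ≤ b * r ^ n + c) : a ≤ c := by
  have h1 : Tendsto (fun n : ℕ => b * r ^ n + c) atTop (𝓝 (b * 0 + c)) :=
    ((tendsto_pow_atTop_nhds_zero_of_lt_one hr0 hr).const_mul b).add_const c
  rw [mul_zero, zero_add] at h1
  exact ge_of_tendsto' h1 h

/-- Proof. `F n = (GG X Y i)^[n] (fun _ => 0)` are leaves (`leaf_const`, `GG_leaf`); `|F (n+1) x - F n x| ≤ (82/100)^n * 2`
(induction, `GG_contr`, start: values in `II`), so `F n x` is Cauchy (`cauchySeq_of_le_geometric`) and converges to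
`limUnder = fixL X Y i x` (`CauchySeq.tendsto_limUnder` / `tendsto_nhds_limUnder`). -/
theorem fixL_tendsto (h : CS p q X Y) (i : Sy) (x : ℝ) :
    Tendsto (fun n : ℕ => (GG X Y i)^[n] (fun _ => 0) x) atTop (𝓝 (fixL X Y i x)) := by
  exact (cauchySeq_of_le_geometric (82 / 100) 2 (by norm_num) fun n => a14_dist h i n x).tendsto_limUnder

/-- uniform version. Proof: `|F n x - fixL x| ≤ 2 (82/100)^n / (1 - 82/100) ≤ 12 (82/100)^n`
(`dist_le_of_le_geometric_of_tendsto`). -/
theorem fixL_rate (h : CS p q X Y) (i : Sy) (n : ℕ) (x : ℝ) :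
    |(GG X Y i)^[n] (fun _ => 0) x - fixL X Y i x| ≤ 12 * (82 / 100) ^ n := by
  have := dist_le_of_le_geometric_of_tendsto (82 / 100) 2 (by norm_num)
    (fun n => a14_dist h i n x) (fixL_tendsto h i x) n
  rw [Real.dist_eq] at this
  have h2 : (0 : ℝ) ≤ (82 / 100) ^ n := by positivity
  refine this.trans ?_
  rw [div_le_iff₀ (by norm_num)]
  nlinarith

/-- Proof. Both conditions are closed, pass to the limit (`isClosed_Icc.mem_of_tendsto`, `le_of_tendsto`). -/
theorem fixL_leaf (h : CS p q X Y) (i : Sy) : IsLeaf (fixL X Y i) := by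
  refine ⟨fun x => isClosed_Icc.mem_of_tendsto (fixL_tendsto h i x)
    (Eventually.of_forall fun n => (a14_leaf h i n).mem x), fun x y => ?_⟩
  refine le_of_tendsto ((fixL_tendsto h i x).sub (fixL_tendsto h i y)).abs
    (Eventually.of_forall fun n => (a14_leaf h i n).lip x y)

/-- Proof. `|GG fixL x - fixL x| ≤ |GG fixL x - GG (F n) x| + |F (n+1) x - fixL x| ≤ 24 (82/100)^n → 0`
(`GG_contr`, `fixL_rate`); `Function.iterate_succ_apply'`. -/
theorem fixL_fix (h : CS p q X Y) (i : Sy) : GG X Y i (fixL X Y i) = fixL X Y i := by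
  ext x
  have key : ∀ n : ℕ, |GG X Y i (fixL X Y i) x - fixL X Y i x| ≤ 24 * (82 / 100) ^ n + 0 := by
    intro n
    have h1 := GG_contr h i (a14_leaf h i n) (fixL_leaf h i) (C := 12 * (82 / 100) ^ n)
      (fun x => by rw [abs_sub_comm]; exact fixL_rate h i n x) x
    have h2 := fixL_rate h i (n + 1) x
    rw [Function.iterate_succ_apply'] at h2
    have h3 := abs_sub_le (GG X Y i (fixL X Y i) x)
      (GG X Y i ((GG X Y i)^[n] (fun _ => 0)) x) (fixL X Y i x)
    have h4 : (0 : ℝ) ≤ (82 / 100) ^ n := by positivity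
    rw [pow_succ] at h2
    linarith
  have h0 := a14_lim (by norm_num) (by norm_num) key
  have h1 := abs_nonneg (GG X Y i (fixL X Y i) x - fixL X Y i x)
  exact sub_eq_zero.1 (abs_eq_zero.1 (le_antisymm h0 h1))

/-- Proof. `|f - fixL| ≤ 2` and `f - fixL = GG f - GG fixL`, so `|f - fixL| ≤ (82/100)^n * 2` for all `n`. -/
theorem fixL_unique (h : CS p q X Y) (i : Sy) {f : ℝ → ℝ} (hf : IsLeaf f) (hfix : GG X Y i f = f) :
    f = fixL X Y i := by
  have key : ∀ (n : ℕ) (x : ℝ), |f x - fixL X Y i x| ≤ 2 * (82 / 100) ^ n := by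
    intro n
    induction n with
    | zero =>
      intro x
      rw [pow_zero, mul_one]
      exact a14_two (hf.mem x) ((fixL_leaf h i).mem x)
    | succ n ih =>
      intro x
      have := GG_contr h i (fixL_leaf h i) hf ih x
      rw [hfix, fixL_fix h i] at this
      refine this.trans (le_of_eq ?_)
      ring
  ext x
  have h0 : |f x - fixL X Y i x| ≤ 0 :=
    a14_lim (b := 2) (r := 82 / 100) (by norm_num) (by norm_num) (fun n => by linarith [key n x])
  exact sub_eq_zero.1 (abs_eq_zero.1 (le_antisymm h0 (abs_nonneg _)))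

/-- Proof. `M = sup |fixL P|`, or directly: if `|f x| ≤ C` for all `x` then `|f x| = |GG f x| ≤ ee + 81/100 C`
(`GG_val`, `off q P = 0`); starting with `C = 2` the bound `2 (81/100)^n + 5.5 ee` holds for all `n`; limit. -/
theorem fixL_P_val (h : CS p q X Y) (x : ℝ) : |fixL X Y Sy.P x| ≤ 6 * ee := by
  have hq := (h.q0 Sy.P)
  have key : ∀ (n : ℕ) (x : ℝ), |fixL X Y Sy.P x| ≤ 2 * (81 / 100) ^ n + 55 / 10 * ee := by
    intro n
    induction n with
    | zero =>
      intro x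
      have h1 := (fixL_leaf h Sy.P).mem x
      have h2 := h1.1
      have h3 := h1.2
      simp only [del] at h2 h3
      rw [pow_zero, mul_one, abs_le]
      have := ee_pos
      constructor <;> linarith
    | succ n ih =>
      intro x
      have h1 := GG_val h Sy.P (fixL_leaf h Sy.P) x
      rw [fixL_fix h] at h1
      have h2 := ih (sol X Sy.P (fixL X Y Sy.P) x)
      simp only [off, zero_add] at h1
      have h3 : |q Sy.P * fixL X Y Sy.P (sol X Sy.P (fixL X Y Sy.P) x)| ≤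
          81 / 100 * (2 * (81 / 100) ^ n + 55 / 10 * ee) := by
        rw [abs_mul, abs_of_nonneg (by linarith : (0 : ℝ) ≤ q Sy.P)]
        exact mul_le_mul hq.2 h2 (abs_nonneg _) (by norm_num)
      have h4 := abs_sub_abs_le_abs_sub (fixL X Y Sy.P x)
        (q Sy.P * fixL X Y Sy.P (sol X Sy.P (fixL X Y Sy.P) x))
      have := ee_pos
      rw [pow_succ]
      linarith
  have h0 := a14_lim (by norm_num) (by norm_num) (fun n => key n x)
  have := ee_pos
  linarith

/-- Proof. The same for `f - 1`: `off q Q + q Q * y - 1 = q Q * (y - 1)` because `q P + gam + q Q = 1`. -/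
theorem fixL_Q_val (h : CS p q X Y) (x : ℝ) : |fixL X Y Sy.Q x - 1| ≤ 6 * ee := by
  have hq := (h.q0 Sy.Q)
  have key : ∀ (n : ℕ) (x : ℝ), |fixL X Y Sy.Q x - 1| ≤ 2 * (81 / 100) ^ n + 55 / 10 * ee := by
    intro n
    induction n with
    | zero =>
      intro x
      have h1 := (fixL_leaf h Sy.Q).mem x
      have h2 := h1.1
      have h3 := h1.2
      simp only [del] at h2 h3
      rw [pow_zero, mul_one, abs_le]
      have := ee_pos
      constructor <;> linarith
    | succ n ih =>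
      intro x
      have h1 := GG_val h Sy.Q (fixL_leaf h Sy.Q) x
      rw [fixL_fix h] at h1
      have h2 := ih (sol X Sy.Q (fixL X Y Sy.Q) x)
      have hsum := h.qsum
      have h3 : |q Sy.Q * (fixL X Y Sy.Q (sol X Sy.Q (fixL X Y Sy.Q) x) - 1)| ≤
          81 / 100 * (2 * (81 / 100) ^ n + 55 / 10 * ee) := by
        rw [abs_mul, abs_of_nonneg (by linarith : (0 : ℝ) ≤ q Sy.Q)]
        exact mul_le_mul hq.2 h2 (abs_nonneg _) (by norm_num)
      have h5 : fixL X Y Sy.Q x - (off q Sy.Q + q Sy.Q *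
          fixL X Y Sy.Q (sol X Sy.Q (fixL X Y Sy.Q) x)) = (fixL X Y Sy.Q x - 1) -
          q Sy.Q * (fixL X Y Sy.Q (sol X Sy.Q (fixL X Y Sy.Q) x) - 1) := by
        simp only [off]
        linear_combination -hsum
      rw [h5] at h1
      have h4 := abs_sub_abs_le_abs_sub (fixL X Y Sy.Q x - 1)
        (q Sy.Q * (fixL X Y Sy.Q (sol X Sy.Q (fixL X Y Sy.Q) x) - 1))
      have := ee_pos
      rw [pow_succ]
      linarith
  have h0 := a14_lim (by norm_num) (by norm_num) (fun n => key n x)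
  have := ee_pos
  linarith

/-- Proof. `GG_val` and the values of the fixed leaves: `off q P = 0`, so the value is `q P * 1` up to
`ee + 81/100 * 6 ee ≤ 6 ee`. -/
theorem GGPQ_val (h : CS p q X Y) (x : ℝ) : |GG X Y Sy.P (fixL X Y Sy.Q) x - q Sy.P| ≤ 6 * ee := by
  have hq := (h.q0 Sy.P)
  have h1 := GG_val h Sy.P (fixL_leaf h Sy.Q) x
  have h2 := fixL_Q_val h (sol X Sy.P (fixL X Y Sy.Q) x)
  have h3 : |q Sy.P * (fixL X Y Sy.Q (sol X Sy.P (fixL X Y Sy.Q) x) - 1)| ≤
      81 / 100 * (6 * ee) := by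
    rw [abs_mul, abs_of_nonneg (by linarith : (0 : ℝ) ≤ q Sy.P)]
    exact mul_le_mul hq.2 h2 (abs_nonneg _) (by norm_num)
  have h4 : GG X Y Sy.P (fixL X Y Sy.Q) x - q Sy.P = (GG X Y Sy.P (fixL X Y Sy.Q) x -
      (off q Sy.P + q Sy.P * fixL X Y Sy.Q (sol X Sy.P (fixL X Y Sy.Q) x))) +
      q Sy.P * (fixL X Y Sy.Q (sol X Sy.P (fixL X Y Sy.Q) x) - 1) := by
    simp only [off]; ring
  rw [h4]
  refine (abs_add_le _ _).trans ?_
  have := ee_pos
  linarith

theorem GGQP_val (h : CS p q X Y) (x : ℝ) :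
    |GG X Y Sy.Q (fixL X Y Sy.P) x - (q Sy.P + gam)| ≤ 6 * ee := by
  have hq := (h.q0 Sy.Q)
  have h1 := GG_val h Sy.Q (fixL_leaf h Sy.P) x
  have h2 := fixL_P_val h (sol X Sy.Q (fixL X Y Sy.P) x)
  have h3 : |q Sy.Q * fixL X Y Sy.P (sol X Sy.Q (fixL X Y Sy.P) x)| ≤
      81 / 100 * (6 * ee) := by
    rw [abs_mul, abs_of_nonneg (by linarith : (0 : ℝ) ≤ q Sy.Q)]
    exact mul_le_mul hq.2 h2 (abs_nonneg _) (by norm_num)
  have h4 : GG X Y Sy.Q (fixL X Y Sy.P) x - (q Sy.P + gam) = (GG X Y Sy.Q (fixL X Y Sy.P) x -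
      (off q Sy.Q + q Sy.Q * fixL X Y Sy.P (sol X Sy.Q (fixL X Y Sy.P) x))) +
      q Sy.Q * fixL X Y Sy.P (sol X Sy.Q (fixL X Y Sy.P) x) := by
    simp only [off]; ring
  rw [h4]
  refine (abs_add_le _ _).trans ?_
  have := ee_pos
  linarith

/-- Proof: `Gw_cons`, `fixL_fix`. -/
theorem Gw_cons_fixL (h : CS p q X Y) (i : Sy) (w : List Sy) :
    Gw X Y (i :: w) (fixL X Y i) = Gw X Y w (fixL X Y i) := by
  rw [Gw_cons, fixL_fix h]

end Pool.Agent.Lib.H37N
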