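import Pool.Agent.Lib.H37N.A14

/-!
# H37N A15 (size S): the order of the base leaves
-/

open Set Filter Topology

namespace Pool.Agent.Lib.H37N

variable {p q : Sy → ℝ} {X Y : Sy → Pt → ℝ}

/-! Proofs: the values of `A14` (`fixL P` within `6 ee` of `0`, `fixL Q` within `6 ee` of `1`, `GG P (fixL Q)` within `6 ee` of
`q P`, `GG Q (fixL P)` within `6 ee` of `q P + gam`), `GG_int`, `GG_val`, and `19/100 ≤ q i ≤ 81/100`, `gam = 1/1000`,
`del = 1/100000`, `ee = 10^-10`. -/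

theorem lo_lt_fixL (h : CS p q X Y) (i : Sy) (x : ℝ) : lo x < fixL X Y i x := by
  cases i with
  | P =>
    have := abs_le.1 (fixL_P_val h x)
    unfold lo del ee at *
    linarith [this.1]
  | Q =>
    have := abs_le.1 (fixL_Q_val h x)
    unfold lo del ee at *
    linarith [this.1]

theorem fixL_lt_hi (h : CS p q X Y) (i : Sy) (x : ℝ) : fixL X Y i x < hi x := by
  cases i with
  | P =>
    have := abs_le.1 (fixL_P_val h x)
    unfold hi del ee at *
    linarith [this.2]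
  | Q =>
    have := abs_le.1 (fixL_Q_val h x)
    unfold hi del ee at *
    linarith [this.2]

theorem fixP_lt_GPQ (h : CS p q X Y) (x : ℝ) : fixL X Y Sy.P x < GG X Y Sy.P (fixL X Y Sy.Q) x := by
  have h1 := abs_le.1 (fixL_P_val h x)
  have h2 := abs_le.1 (GGPQ_val h x)
  have h3 := h.q0 Sy.P
  unfold ee at *
  linarith [h1.2, h2.1, h3.1]

theorem GPQ_lt_GQP (h : CS p q X Y) (x : ℝ) :
    GG X Y Sy.P (fixL X Y Sy.Q) x < GG X Y Sy.Q (fixL X Y Sy.P) x := by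
  have h1 := abs_le.1 (GGQP_val h x)
  have h2 := abs_le.1 (GGPQ_val h x)
  unfold ee gam at *
  linarith [h1.1, h2.2]

theorem GQP_lt_fixQ (h : CS p q X Y) (x : ℝ) : GG X Y Sy.Q (fixL X Y Sy.P) x < fixL X Y Sy.Q x := by
  have h1 := abs_le.1 (GGQP_val h x)
  have h2 := abs_le.1 (fixL_Q_val h x)
  have h3 := (h.q0 Sy.P).2
  unfold ee gam at *
  linarith [h1.2, h2.1]

/-- Proof: `GG_int`. -/
theorem lo_lt_GG (h : CS p q X Y) (i : Sy) {f : ℝ → ℝ} (hf : IsLeaf f) (x : ℝ) : lo x < GG X Y i f x :=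
  (GG_int h i hf x).1

theorem GG_lt_hi (h : CS p q X Y) (i : Sy) {f : ℝ → ℝ} (hf : IsLeaf f) (x : ℝ) : GG X Y i f x < hi x :=
  (GG_int h i hf x).2

/-- Proof. `GG_val` for the two constants: `off q P + q P (1 + del) + ee < off q Q - q Q del - ee`, i.e.
`q P del + q Q del + 2 ee < gam`. -/
theorem GP_hi_lt_GQ_lo (h : CS p q X Y) (x : ℝ) : GG X Y Sy.P hi x < GG X Y Sy.Q lo x := by
  have h1 : GG X Y Sy.P hi x - (0 + q Sy.P * (1 + del)) ≤ ee :=
    (abs_le.1 (GG_val h Sy.P hi_leaf x)).2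
  have h2 : -ee ≤ GG X Y Sy.Q lo x - ((q Sy.P + gam) + q Sy.Q * (-del)) :=
    (abs_le.1 (GG_val h Sy.Q lo_leaf x)).1
  have h3 := (h.q0 Sy.P).2
  have h4 := (h.q0 Sy.Q).2
  generalize GG X Y Sy.P hi x = a at *
  generalize GG X Y Sy.Q lo x = b at *
  unfold ee gam del at *
  linarith

/-- any leaf is between the extremes. Proof: `IsLeaf.mem`. -/
theorem lo_le (f : ℝ → ℝ) (hf : IsLeaf f) (x : ℝ) : lo x ≤ f x := (hf.mem x).1

theorem le_hi (f : ℝ → ℝ) (hf : IsLeaf f) (x : ℝ) : f x ≤ hi x := (hf.mem x).2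

end Pool.Agent.Lib.H37N
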