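import Pool.Agent.Lib.H37N.A11

/-!
# H37N A31 (size M): pairs of cross orbits with the same end abscissa
-/

open Set Filter Topology

namespace Pool.Agent.Lib.H37N

variable {p q : Sy → ℝ} {X Y : Sy → Pt → ℝ}

theorem a31_E (h : CS p q X Y) {i : ℕ → Sy} {k : ℕ} {x0 y0 x1 y1 : ℕ → ℝ}
    (o0 : COrb X Y i k x0 y0) (o1 : COrb X Y i k x1 y1) {n : ℕ} (hn : n < k) :
    |x1 n - x0 n - p (i n) * (x1 (n + 1) - x0 (n + 1))| ≤
      ee * |x1 (n + 1) - x0 (n + 1)| + ee * |y1 n - y0 n| := by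
  have := h.X_diff (i n) (z := (x0 (n + 1), y0 n)) (z' := (x1 (n + 1), y1 n))
    ⟨o0.mx _ hn, o0.my _ hn.le⟩ ⟨o1.mx _ hn, o1.my _ hn.le⟩
  rw [← o0.ex n hn, ← o1.ex n hn] at this
  exact this

theorem a31_D (h : CS p q X Y) {i : ℕ → Sy} {k : ℕ} {x0 y0 x1 y1 : ℕ → ℝ}
    (o0 : COrb X Y i k x0 y0) (o1 : COrb X Y i k x1 y1) {n : ℕ} (hn : n < k) :
    |y1 (n + 1) - y0 (n + 1) - q (i n) * (y1 n - y0 n)| ≤
      ee * |x1 (n + 1) - x0 (n + 1)| + ee * |y1 n - y0 n| := by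
  have := h.Y_diff (i n) (z := (x0 (n + 1), y0 n)) (z' := (x1 (n + 1), y1 n))
    ⟨o0.mx _ hn, o0.my _ hn.le⟩ ⟨o1.mx _ hn, o1.my _ hn.le⟩
  rw [← o0.ey n hn, ← o1.ey n hn] at this
  exact this

theorem a31_num1 {E' D' D E p q : ℝ} (hp : 19 / 100 ≤ p ∧ p ≤ 81 / 100)
    (hq : 19 / 100 ≤ q ∧ q ≤ 81 / 100) (h1 : |E - p * E'| ≤ ee * |E'| + ee * |D|)
    (h2 : |D' - q * D| ≤ ee * |E'| + ee * |D|) (h3 : |E'| ≤ 3 * ee * |D'|) :
    |E| ≤ 3 * ee * |D| := by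
  have a1 : |E| ≤ |E - p * E'| + |p * E'| := by
    have := abs_add_le (E - p * E') (p * E')
    rwa [sub_add_cancel] at this
  have a2 : |D'| ≤ |D' - q * D| + |q * D| := by
    have := abs_add_le (D' - q * D) (q * D)
    rwa [sub_add_cancel] at this
  have a3 : |p * E'| ≤ 81 / 100 * |E'| := by
    rw [abs_mul, abs_of_nonneg (by linarith : 0 ≤ p)]
    exact mul_le_mul_of_nonneg_right hp.2 (abs_nonneg _)
  have a4 : |q * D| ≤ 81 / 100 * |D| := by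
    rw [abs_mul, abs_of_nonneg (by linarith : 0 ≤ q)]
    exact mul_le_mul_of_nonneg_right hq.2 (abs_nonneg _)
  have b1 := abs_nonneg E'
  have b2 := abs_nonneg D'
  have b3 := abs_nonneg D
  unfold ee at *
  linarith

theorem a31_num2 {E' D' D q : ℝ} (hq : 19 / 100 ≤ q ∧ q ≤ 81 / 100)
    (h2 : |D' - q * D| ≤ ee * |E'| + ee * |D|) (h3 : |E'| ≤ 3 * ee * |D'|) (hD : 0 < D) :
    18 / 100 * D ≤ D' ∧ D' ≤ 82 / 100 * D := by
  have b1 := abs_nonneg E'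
  rw [abs_of_pos hD] at h2
  have a1 : 19 / 100 * D ≤ q * D := mul_le_mul_of_nonneg_right hq.1 hD.le
  have a2 : q * D ≤ 81 / 100 * D := mul_le_mul_of_nonneg_right hq.2 hD.le
  have c := abs_le.1 h2
  unfold ee at *
  rcases abs_cases D' with h' | h'
  · rw [h'.1] at h3
    constructor <;> linarith [c.1, c.2]
  · rw [h'.1] at h3
    constructor <;> linarith [c.1, c.2]

/-- Notation: `D n = y1 n - y0 n`, `E n = x1 n - x0 n`. One step: for `n < k`, by `X_diff`, `Y_diff` at the points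
`(x (n+1), y n) ∈ NN`: `|E n - p E (n+1)| ≤ ee |E (n+1)| + ee |D n|`, `|D (n+1) - q D n| ≤ ee |E (n+1)| + ee |D n|`.
Proof. Backward induction (`Nat.decreasingInduction` or induction on `k - n`): `E k = 0`. If `|E (n+1)| ≤ 3 ee |D (n+1)|` then
`|D (n+1)| ≤ (81/100 + ee) |D n| + 3 ee^2 |D (n+1)|`, so `|D (n+1)| ≤ .8101 |D n|`, and
`|E n| ≤ (.81 + ee) * 3 ee * .8101 |D n| + ee |D n| ≤ 3 ee |D n|` (`.81 * 3 * .8101 + 1 < 2.98`). -/
theorem pair_E (h : CS p q X Y) {i : ℕ → Sy} {k : ℕ} {x0 y0 x1 y1 : ℕ → ℝ}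
    (o0 : COrb X Y i k x0 y0) (o1 : COrb X Y i k x1 y1) (hk : x0 k = x1 k) {n : ℕ} (hn : n ≤ k) :
    |x1 n - x0 n| ≤ 3 * ee * |y1 n - y0 n| := by
  have key : ∀ m n, n + m = k → |x1 n - x0 n| ≤ 3 * ee * |y1 n - y0 n| := by
    intro m
    induction m with
    | zero =>
      intro n hn
      rw [Nat.add_zero] at hn
      rw [hn, hk, sub_self, abs_zero]
      exact mul_nonneg (mul_nonneg (by norm_num) ee_pos.le) (abs_nonneg _)
    | succ m ih =>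
      intro n hn
      have hnk : n < k := by omega
      exact a31_num1 (h.p0 (i n)) (h.q0 (i n)) (a31_E h o0 o1 hnk) (a31_D h o0 o1 hnk)
        (ih (n + 1) (by omega))
  exact key (k - n) n (by omega)

/-- Proof. From `pair_E` at `n + 1` and the step inequality: `|D (n+1) - q D n| ≤ 3 ee^2 |D (n+1)| + ee |D n|`; for
`D n > 0` this gives `18/100 D n ≤ D (n+1) ≤ 82/100 D n` (`19/100 ≤ q ≤ 81/100`); forward induction from
`D 0 > 0` gives `D n > 0`. -/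
theorem pair_D (h : CS p q X Y) {i : ℕ → Sy} {k : ℕ} {x0 y0 x1 y1 : ℕ → ℝ}
    (o0 : COrb X Y i k x0 y0) (o1 : COrb X Y i k x1 y1) (hk : x0 k = x1 k) (h0 : y0 0 < y1 0) :
    (∀ n ≤ k, 0 < y1 n - y0 n) ∧ ∀ n < k, 18 / 100 * (y1 n - y0 n) ≤ y1 (n + 1) - y0 (n + 1) ∧
      y1 (n + 1) - y0 (n + 1) ≤ 82 / 100 * (y1 n - y0 n) := by
  have step : ∀ n, n < k → 0 < y1 n - y0 n → 18 / 100 * (y1 n - y0 n) ≤ y1 (n + 1) - y0 (n + 1) ∧
      y1 (n + 1) - y0 (n + 1) ≤ 82 / 100 * (y1 n - y0 n) := fun n hn hp =>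
    a31_num2 (h.q0 (i n)) (a31_D h o0 o1 hn) (pair_E h o0 o1 hk hn) hp
  have pos : ∀ n ≤ k, 0 < y1 n - y0 n := by
    intro n
    induction n with
    | zero => intro _; linarith
    | succ n ih =>
      intro hn
      have h1 := ih (by omega)
      have h2 := (step n (by omega) h1).1
      linarith
  exact ⟨pos, fun n hn => step n hn (pos n hn.le)⟩

end Pool.Agent.Lib.H37N
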