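import Pool.Agent.Lib.H37N.A11

/-!
# H37N A33 (size M): sums of the distances of two cross orbits with the same itinerary
-/

open Set Filter Topology

namespace Pool.Agent.Lib.H37N

variable {p q : Sy → ℝ} {X Y : Sy → Pt → ℝ}

/-- Proof. `a n = |x1 n - x0 n|`, `c n = |y1 n - y0 n|`. For `n < k`, by `X_diff`, `Y_diff` (points `(x (n+1), y n)`):
`a n ≤ (.81 + ee) a (n+1) + ee c n`, `c (n+1) ≤ (.81 + ee) c n + ee a (n+1)`; `a k ≤ 1 + 2 del`, `c 0 ≤ 1 + 2 del`. Put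
`A = ∑ n < k, a (n+1)`, `C = ∑ n < k, c n`. `C ≤ c 0 + ∑_{n < k} c (n+1) ≤ c 0 + .8101 C + ee A` (`Finset.sum_range_succ'`) and
`A ≤ a k + ∑_{n < k} a n ≤ a k + .8101 A + ee C`. So `.1899 (A + C) ≤ 2 (1 + 2 del) + ee (A + C)`, `A + C ≤ 12`. -/
theorem sum_dist (h : CS p q X Y) {i : ℕ → Sy} {k : ℕ} {x0 y0 x1 y1 : ℕ → ℝ}
    (o0 : COrb X Y i k x0 y0) (o1 : COrb X Y i k x1 y1) :
    ∑ n ∈ Finset.range k, (|x1 (n + 1) - x0 (n + 1)| + |y1 n - y0 n|) ≤ 12 := by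
  have hee : 0 < ee := ee_pos
  have hee2 : ee ≤ 1 / 10 ^ 5 := by norm_num [ee]
  have step : ∀ n ∈ Finset.range k,
      |x1 n - x0 n| ≤ 811 / 1000 * |x1 (n + 1) - x0 (n + 1)| + 1 / 10 ^ 5 * |y1 n - y0 n| ∧
      |y1 (n + 1) - y0 (n + 1)| ≤ 811 / 1000 * |y1 n - y0 n| +
        1 / 10 ^ 5 * |x1 (n + 1) - x0 (n + 1)| := by
    intro n hn
    have hn' : n < k := Finset.mem_range.1 hn
    have m0 : (x0 (n + 1), y0 n) ∈ NN := ⟨o0.mx (n + 1) hn', o0.my n hn'.le⟩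
    have m1 : (x1 (n + 1), y1 n) ∈ NN := ⟨o1.mx (n + 1) hn', o1.my n hn'.le⟩
    have dX := h.X_diff (i n) m0 m1
    have dY := h.Y_diff (i n) m0 m1
    rw [← o0.ex n hn', ← o1.ex n hn'] at dX
    rw [← o0.ey n hn', ← o1.ey n hn'] at dY
    simp only at dX dY
    obtain ⟨p1, p2⟩ := h.p0 (i n)
    obtain ⟨q1, q2⟩ := h.q0 (i n)
    have ha : 0 ≤ |x1 (n + 1) - x0 (n + 1)| := abs_nonneg _
    have hc : 0 ≤ |y1 n - y0 n| := abs_nonneg _
    have tX := abs_sub_abs_le_abs_sub (x1 n - x0 n) (p (i n) * (x1 (n + 1) - x0 (n + 1)))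
    have tY := abs_sub_abs_le_abs_sub (y1 (n + 1) - y0 (n + 1)) (q (i n) * (y1 n - y0 n))
    rw [abs_mul, abs_of_nonneg (by linarith : (0 : ℝ) ≤ p (i n))] at tX
    rw [abs_mul, abs_of_nonneg (by linarith : (0 : ℝ) ≤ q (i n))] at tY
    have u1 := mul_le_mul_of_nonneg_right p2 ha
    have u2 := mul_le_mul_of_nonneg_right q2 hc
    have u3 := mul_le_mul_of_nonneg_right hee2 ha
    have u4 := mul_le_mul_of_nonneg_right hee2 hc
    constructor <;> linarith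
  rw [Finset.sum_add_distrib]
  set A := ∑ n ∈ Finset.range k, |x1 (n + 1) - x0 (n + 1)| with hA
  set C := ∑ n ∈ Finset.range k, |y1 n - y0 n| with hC
  have hA0 : 0 ≤ A := Finset.sum_nonneg fun _ _ => abs_nonneg _
  have hC0 : 0 ≤ C := Finset.sum_nonneg fun _ _ => abs_nonneg _
  have s1 : ∑ n ∈ Finset.range k, |x1 n - x0 n| ≤ 811 / 1000 * A + 1 / 10 ^ 5 * C := by
    rw [hA, hC, Finset.mul_sum, Finset.mul_sum, ← Finset.sum_add_distrib]
    exact Finset.sum_le_sum fun n hn => (step n hn).1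
  have s2 : ∑ n ∈ Finset.range k, |y1 (n + 1) - y0 (n + 1)| ≤ 811 / 1000 * C + 1 / 10 ^ 5 * A := by
    rw [hA, hC, Finset.mul_sum, Finset.mul_sum, ← Finset.sum_add_distrib]
    exact Finset.sum_le_sum fun n hn => (step n hn).2
  have t1 : A + |x1 0 - x0 0| = ∑ n ∈ Finset.range k, |x1 n - x0 n| + |x1 k - x0 k| := by
    rw [hA, ← Finset.sum_range_succ (fun n => |x1 n - x0 n|),
      ← Finset.sum_range_succ' (fun n => |x1 n - x0 n|)]
  have t2 : ∑ n ∈ Finset.range k, |y1 (n + 1) - y0 (n + 1)| + |y1 0 - y0 0| =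
      C + |y1 k - y0 k| := by
    rw [hC, ← Finset.sum_range_succ (fun n => |y1 n - y0 n|),
      ← Finset.sum_range_succ' (fun n => |y1 n - y0 n|)]
  have dx : |x1 k - x0 k| ≤ 101 / 100 := by
    have h0 := o0.mx k le_rfl
    have h1 := o1.mx k le_rfl
    rw [II_def] at h0 h1
    norm_num [del] at h0 h1
    rw [abs_le]; constructor <;> linarith [h0.1, h0.2, h1.1, h1.2]
  have dy : |y1 0 - y0 0| ≤ 101 / 100 := by
    have h0 := o0.my 0 (Nat.zero_le k)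
    have h1 := o1.my 0 (Nat.zero_le k)
    rw [II_def] at h0 h1
    norm_num [del] at h0 h1
    rw [abs_le]; constructor <;> linarith [h0.1, h0.2, h1.1, h1.2]
  have a0 : 0 ≤ |x1 0 - x0 0| := abs_nonneg _
  have ck : 0 ≤ |y1 k - y0 k| := abs_nonneg _
  linarith

end Pool.Agent.Lib.H37N
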