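import Pool.Agent.Lib.H37N.A31
import Pool.Agent.Lib.H37N.A32
import Pool.Agent.Lib.H37N.A33

/-!
# H37N A34 (size M): distortion of four cross orbits
-/

open Set Filter Topology

namespace Pool.Agent.Lib.H37N

variable {p q : Sy → ℝ} {X Y : Sy → Pt → ℝ}

theorem a34_alg {D0 D1 E0 E1 a b c d : ℝ} (h0 : 0 < D0) (h1 : 0 < D1) (ha : |a| ≤ ee)
    (hr : |E1 / D1| ≤ 3 * ee) (hD : D1 = a * E1 + b * D0) (hE : E0 = c * E1 + d * D0) :
    D1 / D0 = b / (1 - a * (E1 / D1)) ∧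
      E0 / D0 = c * (E1 / D1) * (b / (1 - a * (E1 / D1))) + d := by
  have he : (0 : ℝ) < ee := ee_pos
  have hE1 : E1 = E1 / D1 * D1 := by field_simp
  generalize E1 / D1 = r at *
  have hab : |a * r| ≤ ee * (3 * ee) := by
    rw [abs_mul]
    exact mul_le_mul ha hr (abs_nonneg _) he.le
  have hee : ee * (3 * ee) < 1 := by norm_num [ee]
  have hpos : 0 < 1 - a * r := by
    have := (abs_le.1 hab).2
    linarith
  have h2 : D1 / D0 = b / (1 - a * r) := by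
    rw [div_eq_div_iff h0.ne' hpos.ne']
    rw [hE1] at hD
    linear_combination hD
  refine ⟨h2, ?_⟩
  rw [← h2, hE, hE1]
  field_simp

theorem a34_pt {o : ℕ → Sy} {k n : ℕ} {x y : ℕ → ℝ} (h : COrb X Y o k x y) (hn : n < k) :
    ((x (n + 1), y n) : Pt) ∈ NN :=
  mem_NN.2 ⟨h.mx (n + 1) hn, h.my n hn.le⟩

/-- Notation `D n = y1 n - y0 n`, `E n = x1 n - x0 n`, `r n = E n / D n`, `D' n = y3 n - y2 n`, ... ; `|r n| ≤ 3 ee` (`pair_E`), all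
`D n, D' n > 0` (`pair_D`). For `n < k`, `h.mvX (i n)`, `h.mvY (i n)` for the four points
`z_j = (x_j (n+1), y_j n)` (`j = 0,1,2,3`) give `a, b, a', b'` with `D (n+1) = a E (n+1) + b D n`, ... and
`c, d, c', d'` with `E n = c E (n+1) + d D n`, ...; dividing by `D n` resp. `D' n`: `D (n+1) / D n = b / (1 - a r (n+1))`,
`r n = c r (n+1) * (D (n+1) / D n) + d`. With `δ n = max ‖z_2 - z_0‖ ‖z_3 - z_1‖` the hypotheses of `step_log`, `step_r` hold.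
Conclusion for one step: exists `δ n ≥ 0`, `δ n ≤ (|x2 (n+1) - x0 (n+1)| + |y2 n - y0 n|) + (|x3 (n+1) - x1 (n+1)| + |y3 n - y1 n|)` with
`|log (D (n+1)/D n) - log (D' (n+1)/D' n)| ≤ 10 (ee δ n + ee |r (n+1) - r' (n+1)|)`,
`|r n - r' n| ≤ .7 |r (n+1) - r' (n+1)| + 10 ee δ n`. -/
theorem dist_step (h : CS p q X Y) {i : ℕ → Sy} {k : ℕ} {x0 y0 x1 y1 x2 y2 x3 y3 : ℕ → ℝ}
    (o0 : COrb X Y i k x0 y0) (o1 : COrb X Y i k x1 y1) (o2 : COrb X Y i k x2 y2)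
    (o3 : COrb X Y i k x3 y3) (hk : x0 k = x1 k) (hk' : x2 k = x3 k) (h0 : y0 0 < y1 0)
    (h0' : y2 0 < y3 0) {n : ℕ} (hn : n < k) : ∃ δ : ℝ, 0 ≤ δ ∧
      δ ≤ (|x2 (n + 1) - x0 (n + 1)| + |y2 n - y0 n|) + (|x3 (n + 1) - x1 (n + 1)| + |y3 n - y1 n|) ∧
      |Real.log ((y1 (n + 1) - y0 (n + 1)) / (y1 n - y0 n)) -
        Real.log ((y3 (n + 1) - y2 (n + 1)) / (y3 n - y2 n))| ≤
        10 * (ee * δ + ee * |(x1 (n + 1) - x0 (n + 1)) / (y1 (n + 1) - y0 (n + 1)) -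
          (x3 (n + 1) - x2 (n + 1)) / (y3 (n + 1) - y2 (n + 1))|) ∧
      |(x1 n - x0 n) / (y1 n - y0 n) - (x3 n - x2 n) / (y3 n - y2 n)| ≤
        7 / 10 * |(x1 (n + 1) - x0 (n + 1)) / (y1 (n + 1) - y0 (n + 1)) -
          (x3 (n + 1) - x2 (n + 1)) / (y3 (n + 1) - y2 (n + 1))| + 10 * ee * δ := by
  have z0 := a34_pt o0 hn
  have z1 := a34_pt o1 hn
  have z2 := a34_pt o2 hn
  have z3 := a34_pt o3 hn
  obtain ⟨c, d, c', d', e1, e2, hc, hd, hc', hd', hcc, hdd⟩ := h.mvX (i n) _ z0 _ z1 _ z2 _ z3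
  obtain ⟨a, b, a', b', e3, e4, ha, hb, ha', hb', haa, hbb⟩ := h.mvY (i n) _ z0 _ z1 _ z2 _ z3
  simp only [← o0.ex n hn, ← o1.ex n hn, ← o2.ex n hn, ← o3.ex n hn, sub_zero] at e1 e2 hd hd'
  simp only [← o0.ey n hn, ← o1.ey n hn, ← o2.ey n hn, ← o3.ey n hn, sub_zero] at e3 e4 ha ha'
  obtain ⟨hD, -⟩ := pair_D h o0 o1 hk h0
  obtain ⟨hD', -⟩ := pair_D h o2 o3 hk' h0'
  have hr1 : |(x1 (n + 1) - x0 (n + 1)) / (y1 (n + 1) - y0 (n + 1))| ≤ 3 * ee := by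
    have hp := hD (n + 1) hn
    have := pair_E h o0 o1 hk (n := n + 1) hn
    rw [abs_div, div_le_iff₀ (abs_pos.2 hp.ne')]
    exact this
  have hr1' : |(x3 (n + 1) - x2 (n + 1)) / (y3 (n + 1) - y2 (n + 1))| ≤ 3 * ee := by
    have hp := hD' (n + 1) hn
    have := pair_E h o2 o3 hk' (n := n + 1) hn
    rw [abs_div, div_le_iff₀ (abs_pos.2 hp.ne')]
    exact this
  obtain ⟨q1, q2⟩ := a34_alg (hD n hn.le) (hD (n + 1) hn) ha hr1 e3 e1
  obtain ⟨q1', q2'⟩ := a34_alg (hD' n hn.le) (hD' (n + 1) hn) ha' hr1' e4 e2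
  have hn1 : ∀ z w : Pt, ‖w - z‖ ≤ |w.1 - z.1| + |w.2 - z.2| := by
    intro z w
    rw [Prod.norm_def]
    exact max_le (by simp [Real.norm_eq_abs]) (by simp [Real.norm_eq_abs])
  have hδ0 : 0 ≤ max ‖((x2 (n + 1), y2 n) : Pt) - (x0 (n + 1), y0 n)‖
      ‖((x3 (n + 1), y3 n) : Pt) - (x1 (n + 1), y1 n)‖ := (norm_nonneg _).trans (le_max_left _ _)
  refine ⟨max ‖((x2 (n + 1), y2 n) : Pt) - (x0 (n + 1), y0 n)‖
      ‖((x3 (n + 1), y3 n) : Pt) - (x1 (n + 1), y1 n)‖, hδ0, ?_, ?_, ?_⟩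
  · have h1 := hn1 (x0 (n + 1), y0 n) (x2 (n + 1), y2 n)
    have h2 := hn1 (x1 (n + 1), y1 n) (x3 (n + 1), y3 n)
    simp only at h1 h2
    refine max_le ?_ ?_
    · have h3 := abs_nonneg (x3 (n + 1) - x1 (n + 1))
      have h4 := abs_nonneg (y3 n - y1 n)
      linarith
    · have h3 := abs_nonneg (x2 (n + 1) - x0 (n + 1))
      have h4 := abs_nonneg (y2 n - y0 n)
      linarith
  · rw [q1, q1']
    exact step_log hδ0 (h.q0 (i n)).1 (h.q0 (i n)).2 hb hb' ha ha' hr1 hr1' haa hbb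
  · rw [q2, q2']
    exact step_r hδ0 (h.q0 (i n)).1 (h.q0 (i n)).2 (h.p0 (i n)).1 (h.p0 (i n)).2 hb hb' ha ha'
      hc hc' hd hd' hr1 hr1' haa hbb hcc hdd

/-- Proof. Choose `δ n` from `dist_step`; `∑_{n<k} δ n ≤ 24` (`sum_dist` for the pairs (0,2), (1,3)). `s n = |r n - r' n|`, `s k = 0`,
`s n ≤ .7 s (n+1) + 10 ee δ n`: with `Σ = ∑_{n<k} s (n+1)`, `Σ ≤ ∑_{n<k} s n + s k ≤ .7 Σ + 240 ee`, so `Σ ≤ 800 ee`. Telescoping
(`log (D k / D 0) = ∑ log (D (n+1)/D n)`, all positive; induction): the difference is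
`≤ 10 (24 ee + ee * 800 ee) ≤ 1000 ee`. -/
theorem distortion (h : CS p q X Y) {i : ℕ → Sy} {k : ℕ} {x0 y0 x1 y1 x2 y2 x3 y3 : ℕ → ℝ}
    (o0 : COrb X Y i k x0 y0) (o1 : COrb X Y i k x1 y1) (o2 : COrb X Y i k x2 y2)
    (o3 : COrb X Y i k x3 y3) (hk : x0 k = x1 k) (hk' : x2 k = x3 k) (h0 : y0 0 < y1 0)
    (h0' : y2 0 < y3 0) :
    |Real.log ((y1 k - y0 k) / (y1 0 - y0 0)) - Real.log ((y3 k - y2 k) / (y3 0 - y2 0))| ≤
      1000 * ee := by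
  have he : (0 : ℝ) < ee := ee_pos
  have hst := fun n (hn : n < k) => dist_step h o0 o1 o2 o3 hk hk' h0 h0' hn
  choose! δ hδ0 hδ1 hδ2 hδ3 using hst
  obtain ⟨hD, -⟩ := pair_D h o0 o1 hk h0
  obtain ⟨hD', -⟩ := pair_D h o2 o3 hk' h0'
  -- the sum of the distances
  have hsum : ∑ n ∈ Finset.range k, δ n ≤ 24 := by
    have h1 : ∑ n ∈ Finset.range k, δ n ≤ ∑ n ∈ Finset.range k,
        ((|x2 (n + 1) - x0 (n + 1)| + |y2 n - y0 n|) +
          (|x3 (n + 1) - x1 (n + 1)| + |y3 n - y1 n|)) :=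
      Finset.sum_le_sum fun n hn => hδ1 n (Finset.mem_range.1 hn)
    rw [Finset.sum_add_distrib] at h1
    have h2 := sum_dist h o0 o2
    have h3 := sum_dist h o1 o3
    linarith
  set s : ℕ → ℝ := fun n => |(x1 n - x0 n) / (y1 n - y0 n) - (x3 n - x2 n) / (y3 n - y2 n)| with hs
  have hs0 : ∀ n, 0 ≤ s n := fun n => abs_nonneg _
  have hsk : s k = 0 := by
    simp [hs, hk, hk']
  have hS : ∑ n ∈ Finset.range k, s (n + 1) ≤ 800 * ee := by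
    have h1 : ∑ n ∈ Finset.range k, s n ≤ ∑ n ∈ Finset.range k,
        (7 / 10 * s (n + 1) + 10 * ee * δ n) :=
      Finset.sum_le_sum fun n hn => hδ3 n (Finset.mem_range.1 hn)
    rw [Finset.sum_add_distrib, ← Finset.mul_sum, ← Finset.mul_sum] at h1
    have h2 : ∑ n ∈ Finset.range k, s (n + 1) + s 0 = ∑ n ∈ Finset.range k, s n + s k := by
      rw [← Finset.sum_range_succ', ← Finset.sum_range_succ]
    have h3 : 10 * ee * ∑ n ∈ Finset.range k, δ n ≤ 10 * ee * 24 :=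
      mul_le_mul_of_nonneg_left hsum (by positivity)
    have h4 := hs0 0
    rw [hsk] at h2
    linarith
  -- telescoping
  have hlog : ∀ y y' : ℕ → ℝ, (∀ n ≤ k, 0 < y' n - y n) →
      Real.log ((y' k - y k) / (y' 0 - y 0)) =
        ∑ n ∈ Finset.range k, Real.log ((y' (n + 1) - y (n + 1)) / (y' n - y n)) := by
    intro y y' hp
    rw [Real.log_div (hp k le_rfl).ne' (hp 0 (Nat.zero_le _)).ne',
      ← Finset.sum_range_sub (fun n => Real.log (y' n - y n)) k]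
    refine Finset.sum_congr rfl fun n hn => ?_
    have hn' := Finset.mem_range.1 hn
    rw [Real.log_div (hp (n + 1) hn').ne' (hp n hn'.le).ne']
  rw [hlog y0 y1 hD, hlog y2 y3 hD', ← Finset.sum_sub_distrib]
  refine (Finset.abs_sum_le_sum_abs _ _).trans ?_
  have h5 : ∑ n ∈ Finset.range k, |Real.log ((y1 (n + 1) - y0 (n + 1)) / (y1 n - y0 n)) -
      Real.log ((y3 (n + 1) - y2 (n + 1)) / (y3 n - y2 n))| ≤
      ∑ n ∈ Finset.range k, 10 * (ee * δ n + ee * s (n + 1)) :=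
    Finset.sum_le_sum fun n hn => hδ2 n (Finset.mem_range.1 hn)
  refine h5.trans ?_
  rw [← Finset.mul_sum, Finset.sum_add_distrib, ← Finset.mul_sum, ← Finset.mul_sum]
  have h6 : ee * ∑ n ∈ Finset.range k, δ n ≤ ee * 24 := mul_le_mul_of_nonneg_left hsum he.le
  have h7 : ee * ∑ n ∈ Finset.range k, s (n + 1) ≤ ee * (800 * ee) :=
    mul_le_mul_of_nonneg_left hS he.le
  have h8 : ee * (800 * ee) ≤ ee * 1 := mul_le_mul_of_nonneg_left (by norm_num [ee]) he.le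
  linarith

end Pool.Agent.Lib.H37N
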