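import Pool.Agent.Lib.H37N.A04
import Pool.Agent.Lib.H37N.A05
import Pool.Agent.Lib.H37N.A37

/-!
# H37N A38 (size M, book-keeping): the unstable leaves `Uu` of a near map: order, gaps
-/

open Set Filter Topology

namespace Pool.Agent.Lib.H37N

variable {g : Pt → Pt}

/-! Everything follows from `A12`, `A14`, `A15`, `A37` for the system `h.cs`
(`Uu g b (i :: w) = Gw _ _ w (GG _ _ i (fixL _ _ b))` by definition, `hU g w = gp (XX g) (YY g) w xc`). -/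

theorem Uu_leaf (h : Near g) (b : Sy) (w : List Sy) : IsLeaf (Uu g b w) := by
  exact Gw_leaf h.cs w (fixL_leaf h.cs b)

theorem Uu_cons_self (h : Near g) (i : Sy) (w : List Sy) : Uu g i (i :: w) = Uu g i w := by
  exact Gw_cons_fixL h.cs i w

theorem Uu_append (g : Pt → Pt) (b : Sy) (u w : List Sy) :
    Uu g b (u ++ w) = Gw (XX g) (YY g) w (Uu g b u) := by
  exact Gw_append _ _ u w _

/-- order of the four leaves -/
theorem Uu_P_lt (h : Near g) (w : List Sy) (x : ℝ) : Uu g Sy.P w x < Uu g Sy.Q (Sy.P :: w) x := by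
  exact Gw_strictMono h.cs w (fixL_leaf h.cs _) (GG_leaf h.cs _ (fixL_leaf h.cs _))
    (fixP_lt_GPQ h.cs) x

theorem Uu_mid_lt (h : Near g) (w : List Sy) (x : ℝ) :
    Uu g Sy.Q (Sy.P :: w) x < Uu g Sy.P (Sy.Q :: w) x := by
  exact Gw_strictMono h.cs w (GG_leaf h.cs _ (fixL_leaf h.cs _)) (GG_leaf h.cs _ (fixL_leaf h.cs _))
    (GPQ_lt_GQP h.cs) x

theorem Uu_lt_Q (h : Near g) (w : List Sy) (x : ℝ) : Uu g Sy.P (Sy.Q :: w) x < Uu g Sy.Q w x := by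
  exact Gw_strictMono h.cs w (GG_leaf h.cs _ (fixL_leaf h.cs _)) (fixL_leaf h.cs _)
    (GQP_lt_fixQ h.cs) x

theorem Uu_PQ_lt (h : Near g) (w : List Sy) (x : ℝ) : Uu g Sy.P w x < Uu g Sy.Q w x := by
  exact ((Uu_P_lt h w x).trans (Uu_mid_lt h w x)).trans (Uu_lt_Q h w x)

/-- longer words stay between (new letters in front of `w`). Proof: `Uu_append`, `Gw_mono`, and
`fixL P ≤ Uu g b u ≤ fixL Q` for all `u`: reverse induction on `u` (`Uu_append` with `w = [i]`: `Uu g b (u ++ [i]) = GG i (Uu g b u)`),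
using `GG_mono`, `fixL P ≤ GG i (fixL P)`, `GG i (fixL Q) ≤ fixL Q` for `i = P, Q` (`fixL_fix`, `A15`). -/
theorem Uu_between (h : Near g) (b : Sy) (u w : List Sy) (x : ℝ) :
    Uu g Sy.P w x ≤ Uu g b (u ++ w) x ∧ Uu g b (u ++ w) x ≤ Uu g Sy.Q w x := by
  have hcs := h.cs
  have lP := fixL_leaf hcs Sy.P
  have lQ := fixL_leaf hcs Sy.Q
  have hPQ : ∀ x, fixL (XX g) (YY g) Sy.P x ≤ fixL (XX g) (YY g) Sy.Q x := fun x =>
    (((fixP_lt_GPQ hcs x).trans (GPQ_lt_GQP hcs x)).trans (GQP_lt_fixQ hcs x)).le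
  have hP : ∀ i x, fixL (XX g) (YY g) Sy.P x ≤ GG (XX g) (YY g) i (fixL (XX g) (YY g) Sy.P) x := by
    intro i x
    cases i
    · rw [fixL_fix hcs]
    · exact ((fixP_lt_GPQ hcs x).trans (GPQ_lt_GQP hcs x)).le
  have hQ : ∀ i x, GG (XX g) (YY g) i (fixL (XX g) (YY g) Sy.Q) x ≤ fixL (XX g) (YY g) Sy.Q x := by
    intro i x
    cases i
    · exact ((GPQ_lt_GQP hcs x).trans (GQP_lt_fixQ hcs x)).le
    · rw [fixL_fix hcs]
  have key : (∀ x, fixL (XX g) (YY g) Sy.P x ≤ Uu g b u x) ∧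
      ∀ x, Uu g b u x ≤ fixL (XX g) (YY g) Sy.Q x := by
    induction u using List.reverseRecOn with
    | nil =>
      cases b
      · exact ⟨fun x => le_rfl, hPQ⟩
      · exact ⟨hPQ, fun x => le_rfl⟩
    | append_singleton u i ih =>
      have e : Uu g b (u ++ [i]) = GG (XX g) (YY g) i (Uu g b u) := Uu_append g b u [i]
      rw [e]
      have hl := Uu_leaf h b u
      exact ⟨fun x => (hP i x).trans (GG_mono hcs i lP hl ih.1 x),
        fun x => (GG_mono hcs i hl lQ ih.2 x).trans (hQ i x)⟩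
  rw [Uu_append]
  exact ⟨Gw_mono hcs w lP (Uu_leaf h b u) key.1 x, Gw_mono hcs w (Uu_leaf h b u) lQ key.2 x⟩

/-- gaps -/
theorem hU_pos (h : Near g) (w : List Sy) : 0 < hU g w := by
  exact gp_pos h.cs w xc

theorem Uu_full (h : Near g) (w : List Sy) (x : ℝ) :
    (1 - kap) * hU g w ≤ Uu g Sy.Q w x - Uu g Sy.P w x ∧
      Uu g Sy.Q w x - Uu g Sy.P w x ≤ (1 + kap) * hU g w := by
  exact gap_full h.cs w x xc

theorem Uu_gapP (h : Near g) (w : List Sy) (x : ℝ) :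
    (qw Sy.P - kap) * hU g w ≤ Uu g Sy.Q (Sy.P :: w) x - Uu g Sy.P w x ∧
      Uu g Sy.Q (Sy.P :: w) x - Uu g Sy.P w x ≤ (qw Sy.P + kap) * hU g w := by
  exact gap_P h.cs w x xc

theorem Uu_gapQ (h : Near g) (w : List Sy) (x : ℝ) :
    (qw Sy.Q - kap) * hU g w ≤ Uu g Sy.Q w x - Uu g Sy.P (Sy.Q :: w) x ∧
      Uu g Sy.Q w x - Uu g Sy.P (Sy.Q :: w) x ≤ (qw Sy.Q + kap) * hU g w := by
  exact gap_Q h.cs w x xc

theorem Uu_gapM (h : Near g) (w : List Sy) (x : ℝ) :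
    0 < Uu g Sy.P (Sy.Q :: w) x - Uu g Sy.Q (Sy.P :: w) x ∧
      Uu g Sy.P (Sy.Q :: w) x - Uu g Sy.Q (Sy.P :: w) x ≤ 2 * gam * hU g w := by
  exact gap_mid h.cs w x xc

end Pool.Agent.Lib.H37N
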