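import Pool.Agent.Lib.H37N.ADefs

/-!
# H37N A51 (size M): the function `hh`: vertical estimates on `FF`, continuity, maximum
-/

open Set Filter Topology
open scoped ContDiff

namespace Pool.Agent.Lib.H37N

variable {g : Pt → Pt}

theorem a51_deriv (h : Near g) {x t : ℝ} (ht : (x, t) ∈ FF) :
    HasDerivAt (fun s => g (x, s)) (fderiv ℝ g (x, t) (0, 1)) t := by
  obtain ⟨O, hO, hsub, hC, -, -⟩ := h.smooth
  have hm : (x, t) ∈ O := hsub (Or.inr ht)
  have hd : DifferentiableAt ℝ g (x, t) :=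
    (hC.contDiffAt (hO.mem_nhds hm)).differentiableAt (by simp)
  have h1 : HasDerivAt (fun s : ℝ => ((x, s) : Pt)) ((0 : ℝ), (1 : ℝ)) t :=
    (hasDerivAt_const t x).prodMk (hasDerivAt_id t)
  exact hd.hasFDerivAt.comp_hasDerivAt t h1

theorem a51_seg {x y0 y1 t : ℝ} (h0 : (x, y0) ∈ FF) (h1 : (x, y1) ∈ FF) (ht : t ∈ Icc y0 y1) :
    (x, t) ∈ FF :=
  ⟨h0.1, h0.2.1.trans ht.1, ht.2.trans h1.2.2⟩

/-- Proof. `t ↦ (g (x, t)).1` has derivative `(fderiv ℝ g (x, t) (0, 1)).1 ∈ [cc - e0, cc + e0]` on `[y0, y1]`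
(`h.fold1`; `g` is differentiable on the open `O ⊇ FF`); mean value theorem. -/
theorem fold_vert1 (h : Near g) {x y0 y1 : ℝ} (h0 : (x, y0) ∈ FF) (h1 : (x, y1) ∈ FF) (hy : y0 ≤ y1) :
    (cc - e0) * (y1 - y0) ≤ (g (x, y1)).1 - (g (x, y0)).1 ∧
      (g (x, y1)).1 - (g (x, y0)).1 ≤ (cc + e0) * (y1 - y0) := by
  have hd : ∀ t ∈ Icc y0 y1, HasDerivAt (fun s => (g (x, s)).1) (fderiv ℝ g (x, t) (0, 1)).1 t :=
    fun t ht => (a51_deriv h (a51_seg h0 h1 ht)).fst
  have hc : ContinuousOn (fun s => (g (x, s)).1) (Icc y0 y1) :=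
    fun t ht => (hd t ht).continuousAt.continuousWithinAt
  have hdo : DifferentiableOn ℝ (fun s => (g (x, s)).1) (interior (Icc y0 y1)) :=
    fun t ht => (hd t (interior_subset ht)).differentiableAt.differentiableWithinAt
  constructor
  · refine (convex_Icc y0 y1).mul_sub_le_image_sub_of_le_deriv hc hdo ?_ y0 (left_mem_Icc.2 hy) y1
      (right_mem_Icc.2 hy) hy
    intro t ht
    rw [(hd t (interior_subset ht)).deriv]
    have := (h.fold1 _ (a51_seg h0 h1 (interior_subset ht))).1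
    linarith [(abs_le.1 this).1]
  · refine (convex_Icc y0 y1).image_sub_le_mul_sub_of_deriv_le hc hdo ?_ y0 (left_mem_Icc.2 hy) y1
      (right_mem_Icc.2 hy) hy
    intro t ht
    rw [(hd t (interior_subset ht)).deriv]
    have := (h.fold1 _ (a51_seg h0 h1 (interior_subset ht))).1
    linarith [(abs_le.1 this).2]

/-- Proof: the same for the second component. -/
theorem fold_vert2 (h : Near g) {x y0 y1 : ℝ} (h0 : (x, y0) ∈ FF) (h1 : (x, y1) ∈ FF) :
    |(g (x, y1)).2 - (g (x, y0)).2| ≤ e0 * |y1 - y0| := by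
  wlog hy : y0 ≤ y1 generalizing y0 y1 with H
  · rw [abs_sub_comm, abs_sub_comm y1 y0]
    exact H h1 h0 (le_of_not_ge hy)
  have hd : ∀ t ∈ Icc y0 y1, HasDerivAt (fun s => (g (x, s)).2) (fderiv ℝ g (x, t) (0, 1)).2 t :=
    fun t ht => (a51_deriv h (a51_seg h0 h1 ht)).snd
  have hc : ContinuousOn (fun s => (g (x, s)).2) (Icc y0 y1) :=
    fun t ht => (hd t ht).continuousAt.continuousWithinAt
  have hdo : DifferentiableOn ℝ (fun s => (g (x, s)).2) (interior (Icc y0 y1)) :=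
    fun t ht => (hd t (interior_subset ht)).differentiableAt.differentiableWithinAt
  have k1 : -e0 * (y1 - y0) ≤ (g (x, y1)).2 - (g (x, y0)).2 := by
    refine (convex_Icc y0 y1).mul_sub_le_image_sub_of_le_deriv hc hdo ?_ y0 (left_mem_Icc.2 hy) y1
      (right_mem_Icc.2 hy) hy
    intro t ht
    rw [(hd t (interior_subset ht)).deriv]
    exact (abs_le.1 (h.fold1 _ (a51_seg h0 h1 (interior_subset ht))).2).1
  have k2 : (g (x, y1)).2 - (g (x, y0)).2 ≤ e0 * (y1 - y0) := by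
    refine (convex_Icc y0 y1).image_sub_le_mul_sub_of_deriv_le hc hdo ?_ y0 (left_mem_Icc.2 hy) y1
      (right_mem_Icc.2 hy) hy
    intro t ht
    rw [(hd t (interior_subset ht)).deriv]
    exact (abs_le.1 (h.fold1 _ (a51_seg h0 h1 (interior_subset ht))).2).2
  rw [abs_of_nonneg (sub_nonneg.2 hy), abs_le]
  constructor <;> linarith

/-- Proof: `hf.mem`, definition of `FF`, `JJ`. -/
theorem graph_FF {f : ℝ → ℝ} (hf : IsLeaf f) {x : ℝ} (hx : x ∈ JJ) : (x, f x) ∈ FF := by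
  exact ⟨hx, hf.mem x⟩

/-- Proof. `g` is continuous on `FF` (`ContDiffOn.continuousOn.mono`), leaves are continuous, `graph_FF`. -/
theorem hh_cont (h : Near g) {f s : ℝ → ℝ} (hf : IsLeaf f) (hs : IsLeaf s) :
    ContinuousOn (hh g f s) JJ := by
  have hg : ContinuousOn g FF := by
    obtain ⟨O, hO, hsub, hC, -, -⟩ := h.smooth
    exact hC.continuousOn.mono fun z hz => hsub (Or.inr hz)
  have h1 : ContinuousOn (fun x : ℝ => g (x, f x)) JJ :=
    hg.comp (by exact (continuous_id.prodMk hf.continuous).continuousOn)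
      fun x hx => graph_FF hf hx
  have h2 : ContinuousOn (fun x : ℝ => s (g (x, f x)).2) JJ :=
    hs.continuous.comp_continuousOn (continuous_snd.comp_continuousOn h1)
  exact (continuous_fst.comp_continuousOn h1).sub h2

/-- Proof. `JJ` compact and nonempty: `IsCompact.exists_isMaxOn`; the maximum is the supremum of the image. -/
theorem DD_attained (h : Near g) {f s : ℝ → ℝ} (hf : IsLeaf f) (hs : IsLeaf s) :
    ∃ x ∈ JJ, DD g f s = hh g f s x := by
  have hne : JJ.Nonempty := ⟨xc, by norm_num [JJ, xc, u0]⟩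
  have hcomp : IsCompact JJ := isCompact_Icc
  obtain ⟨x, hx, hm⟩ := hcomp.exists_isMaxOn hne (hh_cont h hf hs)
  refine ⟨x, hx, le_antisymm ?_ ?_⟩
  · refine csSup_le (hne.image _) ?_
    rintro _ ⟨y, hy, rfl⟩
    exact hm hy
  · exact le_csSup (hcomp.bddAbove_image (hh_cont h hf hs)) ⟨x, hx, rfl⟩

/-- Proof. `le_csSup` with `IsCompact.bddAbove_image`. -/
theorem hh_le_DD (h : Near g) {f s : ℝ → ℝ} (hf : IsLeaf f) (hs : IsLeaf s) {x : ℝ} (hx : x ∈ JJ) :
    hh g f s x ≤ DD g f s := by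
  have hcomp : IsCompact JJ := isCompact_Icc
  exact le_csSup (hcomp.bddAbove_image (hh_cont h hf hs)) ⟨x, hx, rfl⟩

end Pool.Agent.Lib.H37N
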