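import Pool.Agent.Lib.H37N.A61

/-!
# H37N A70 (size M): the two key inequalities and the branching of linked pairs
-/

open Set Filter Topology

namespace Pool.Agent.Lib.H37N

variable {g : Pt → Pt}

/-- Proof. `DD (U_Qw^P, S^Q) ≤ DD (U_Qw^P, S^P) - (1 - kap) hS` (`DD_mono_s` with `L = (1 - kap) hS`, `Ss_full`), and
`DD (U_Qw^P, S^P) - DD (U_Pw^Q, S^P) ≤ (cc + 10^-8) * 2 gam hU` (`DD_mono_f`, `Uu_gapM`). `rr ≤ 100` means
`cc hU ≤ 100 hS`, so `(cc + 10^-8) * 2 gam hU ≤ 2 gam * 1.001 * 100 hS = 0.2002 hS < (1 - kap) hS`. -/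
theorem key_U (h : Near g) {w v : List Sy} (hr : rr g w v ≤ 100) :
    DD g (Uu g Sy.P (Sy.Q :: w)) (Ss g Sy.Q v) < DD g (Uu g Sy.Q (Sy.P :: w)) (Ss g Sy.P v) := by
  have lU1 := Uu_leaf h Sy.P (Sy.Q :: w)
  have lU2 := Uu_leaf h Sy.Q (Sy.P :: w)
  have lS1 := Ss_leaf h Sy.P v
  have lS2 := Ss_leaf h Sy.Q v
  have e1 := (DD_mono_s h lU1 lS1 lS2 (fun y => (Ss_full h v y).1) (fun y => (Ss_full h v y).2)).1
  have e2 := (DD_mono_f h lU2 lU1 lS1 (L := 0) (H := 2 * gam * hU g w) le_rfl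
    (fun x _ => (Uu_gapM h w x).1.le) (fun x _ => (Uu_gapM h w x).2)).2
  have hu := hU_pos h w
  have hs := hS_pos h v
  unfold rr at hr
  rw [div_le_iff₀ hs] at hr
  unfold cc gam kap at *
  linarith

/-- Proof. `DD (U_w^Q, S_vP^Q) - DD (U_w^P, S_vP^Q) ≥ (cc - 10^-8)(1 - kap) hU` (`DD_mono_f`, `Uu_full`) and
`DD (U_w^Q, S_vP^Q) - DD (U_w^Q, S_vQ^P) ≤ 2 gam hS` (`DD_mono_s`, `Ss_gapM`). `1/100 ≤ rr`: `hS ≤ 100 cc hU`; so
`2 gam hS ≤ 0.2 cc hU < (cc - 10^-8)(1 - kap) hU`. -/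
theorem key_S (h : Near g) {w v : List Sy} (hr : 1 / 100 ≤ rr g w v) :
    DD g (Uu g Sy.P w) (Ss g Sy.Q (v ++ [Sy.P])) < DD g (Uu g Sy.Q w) (Ss g Sy.P (v ++ [Sy.Q])) := by
  have lU1 := Uu_leaf h Sy.P w
  have lU2 := Uu_leaf h Sy.Q w
  have lS1 := Ss_leaf h Sy.Q (v ++ [Sy.P])
  have lS2 := Ss_leaf h Sy.P (v ++ [Sy.Q])
  have hu := hU_pos h w
  have hs := hS_pos h v
  have e1 := (DD_mono_f h lU1 lU2 lS1 (L := (1 - kap) * hU g w)
    (mul_nonneg (by norm_num [kap]) hu.le)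
    (fun x _ => (Uu_full h w x).1) (fun x _ => (Uu_full h w x).2)).1
  have e2 := (DD_mono_s h lU2 lS1 lS2 (L := 0) (H := 2 * gam * hS g v)
    (fun y => (Ss_gapM h v y).1.le) (fun y => (Ss_gapM h v y).2)).2
  unfold rr at hr
  rw [le_div_iff₀ hs] at hr
  unfold cc gam kap at *
  linarith

/-- Proof. `(P :: w, v)` is linked iff `0 ≤ DD (U_Pw^Q, S^P)` (the other condition is that of `(w, v)`, `Uu_cons_self`);
`(Q :: w, v)` is linked iff `DD (U_Qw^P, S^Q) ≤ 0`. If both failed: contradiction to `key_U`. -/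
theorem branch_U (h : Near g) {w v : List Sy} (hl : Linked g w v) (hr : rr g w v ≤ 100) :
    ∃ i, Linked g (i :: w) v := by
  by_cases h0 : 0 ≤ DD g (Uu g Sy.Q (Sy.P :: w)) (Ss g Sy.P v)
  · refine ⟨Sy.P, h0, ?_⟩
    rw [Uu_cons_self h]
    exact hl.2
  · refine ⟨Sy.Q, ?_, ?_⟩
    · rw [Uu_cons_self h]
      exact hl.1
    · exact ((key_U h hr).trans (not_le.1 h0)).le

/-- Proof. `(w, v ++ [P])` is linked iff `DD (U^P, S_vP^Q) ≤ 0`, `(w, v ++ [Q])` iff `0 ≤ DD (U^Q, S_vQ^P)`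
(`Ss_append_self`); `key_S`. -/
theorem branch_S (h : Near g) {w v : List Sy} (hl : Linked g w v) (hr : 1 / 100 ≤ rr g w v) :
    ∃ i, Linked g w (v ++ [i]) := by
  by_cases h0 : DD g (Uu g Sy.P w) (Ss g Sy.Q (v ++ [Sy.P])) ≤ 0
  · refine ⟨Sy.P, ?_, h0⟩
    rw [Ss_append_self h]
    exact hl.1
  · refine ⟨Sy.Q, ?_, ?_⟩
    · exact ((not_le.1 h0).trans (key_S h hr)).le
    · rw [Ss_append_self h]
      exact hl.2

/-- new sizes. Proof: `Uu_gapP` with `Uu_cons_self` for `i = P`, `Uu_gapQ` for `i = Q`, at `x = xc`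
(`qw ± kap ∈ [.49, .51]`). -/
theorem hU_cons (h : Near g) (i : Sy) (w : List Sy) :
    49 / 100 * hU g w ≤ hU g (i :: w) ∧ hU g (i :: w) ≤ 51 / 100 * hU g w := by
  have hu := hU_pos h w
  cases i with
  | P =>
    have e := Uu_gapP h w xc
    have e' : hU g (Sy.P :: w) = Uu g Sy.Q (Sy.P :: w) xc - Uu g Sy.P w xc := by
      unfold hU
      rw [Uu_cons_self h]
    rw [e']
    refine ⟨(mul_le_mul_of_nonneg_right ?_ hu.le).trans e.1,
      e.2.trans (mul_le_mul_of_nonneg_right ?_ hu.le)⟩ <;> norm_num [qw, kap]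
  | Q =>
    have e := Uu_gapQ h w xc
    have e' : hU g (Sy.Q :: w) = Uu g Sy.Q w xc - Uu g Sy.P (Sy.Q :: w) xc := by
      unfold hU
      rw [Uu_cons_self h]
    rw [e']
    refine ⟨(mul_le_mul_of_nonneg_right ?_ hu.le).trans e.1,
      e.2.trans (mul_le_mul_of_nonneg_right ?_ hu.le)⟩ <;> norm_num [qw, kap]

/-- Proof: `Ss_gapP`, `Ss_gapQ` at `y = yc` (`pw P ± kap`, `pw Q ± kap`). -/
theorem hS_append (h : Near g) (i : Sy) (v : List Sy) :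
    1 / 5.4 * hS g v ≤ hS g (v ++ [i]) ∧ hS g (v ++ [i]) ≤ 81 / 100 * hS g v := by
  have hu := hS_pos h v
  cases i with
  | P =>
    have e := Ss_gapP h v yc
    have e' : hS g (v ++ [Sy.P]) = Ss g Sy.Q (v ++ [Sy.P]) yc - Ss g Sy.P v yc := by
      unfold hS
      rw [Ss_append_self h]
    rw [e']
    refine ⟨(mul_le_mul_of_nonneg_right ?_ hu.le).trans e.1,
      e.2.trans (mul_le_mul_of_nonneg_right ?_ hu.le)⟩ <;> norm_num [pw, kap]
  | Q =>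
    have e := Ss_gapQ h v yc
    have e' : hS g (v ++ [Sy.Q]) = Ss g Sy.Q v yc - Ss g Sy.P (v ++ [Sy.Q]) yc := by
      unfold hS
      rw [Ss_append_self h]
    rw [e']
    refine ⟨(mul_le_mul_of_nonneg_right ?_ hu.le).trans e.1,
      e.2.trans (mul_le_mul_of_nonneg_right ?_ hu.le)⟩ <;> norm_num [pw, kap]

/-- both extensions to the left of a pair with zero at the inner leaf are linked. Used after a translation which makes
`DD (U_Pw^Q, S_v^P) = 0`. Proof. `(P :: w, v)`: `0 ≤ 0` and `Uu_cons_self`, where `DD (U_w^P, S^Q) ≤ DD (U_Pw^Q, S^P) = 0`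
(`Uu_P_lt`, `Ss_PQ_lt`, monotonicity). `(Q :: w, v)`: `DD (U_w^Q, S^P) ≥ DD (U_Pw^Q, S^P) = 0` and `key_U`. -/
theorem both_linked (h : Near g) {w v : List Sy} (hr : rr g w v ≤ 100)
    (h0 : DD g (Uu g Sy.Q (Sy.P :: w)) (Ss g Sy.P v) = 0) :
    Linked g (Sy.P :: w) v ∧ Linked g (Sy.Q :: w) v := by
  have lU := Uu_leaf h Sy.Q (Sy.P :: w)
  have lUP := Uu_leaf h Sy.P w
  have lUQ := Uu_leaf h Sy.Q w
  have lSP := Ss_leaf h Sy.P v
  have lSQ := Ss_leaf h Sy.Q v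
  refine ⟨⟨h0.ge, ?_⟩, ?_, ?_⟩
  · rw [Uu_cons_self h, ← h0]
    exact (DD_le_f h lUP lU lSQ fun x _ => (Uu_P_lt h w x).le).trans
      (DD_le_s h lU lSP lSQ fun y => (Ss_PQ_lt h v y).le)
  · rw [Uu_cons_self h, ← h0]
    exact DD_le_f h lU lUQ lSP fun x _ => ((Uu_mid_lt h w x).trans (Uu_lt_Q h w x)).le
  · rw [← h0]
    exact (key_U h hr).le

end Pool.Agent.Lib.H37N
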