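import Pool.Agent.Lib.H37N.A38
import Pool.Agent.Lib.H37N.ADefs

/-!
# H37N A91 (size M): strips
-/

open Set Filter Topology

namespace Pool.Agent.Lib.H37N

variable {g : Pt → Pt}

/-- Proof. Finite intersection of sets `{u < v}` with continuous `u, v` (`Gw_leaf`, `IsLeaf.continuous`, `isOpen_lt`). -/
theorem Zs_open (h : Near g) (w : List Sy) : IsOpen (Zs g w) := by
  have h1 : IsOpen {z : Pt | z.1 ∈ Ioo (xc - u0) (xc + u0)} :=
    isOpen_Ioo.preimage continuous_fst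
  have h2 : IsOpen {z : Pt | Gw (XX g) (YY g) w lo z.1 < z.2} :=
    isOpen_lt ((Gw_leaf h.cs w lo_leaf).continuous.comp continuous_fst) continuous_snd
  have h3 : IsOpen {z : Pt | z.2 < Gw (XX g) (YY g) w hi z.1} :=
    isOpen_lt continuous_snd ((Gw_leaf h.cs w hi_leaf).continuous.comp continuous_fst)
  exact h1.inter (h2.inter h3)

/-- Proof. `Gw [] f = f`; unfold (`interior_prod_eq`, `interior_Icc`). -/
theorem Zs_nil (g : Pt → Pt) : Zs g [] = interior FF := by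
  unfold FF
  rw [interior_prod_eq, interior_Icc, interior_Icc]
  rfl

/-- Proof. `Gw (u ++ w) lo = Gw w (Gw u lo) ≥ Gw w lo` (`Gw_append`, `Gw_mono`, `lo_le`), the same above. -/
theorem Zs_append (h : Near g) (u w : List Sy) : Zs g (u ++ w) ⊆ Zs g w := by
  rintro z ⟨hz1, hz2, hz3⟩
  rw [Gw_append] at hz2 hz3
  have l1 := Gw_leaf h.cs u lo_leaf
  have l2 := Gw_leaf h.cs u hi_leaf
  exact ⟨hz1, (Gw_mono h.cs w lo_leaf l1 (lo_le _ l1) z.1).trans_lt hz2,
    hz3.trans_le (Gw_mono h.cs w l2 hi_leaf (le_hi _ l2) z.1)⟩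

/-- Proof. `Zs_append`, `Zs_nil`. -/
theorem Zs_sub_FF (h : Near g) (w : List Sy) : Zs g w ⊆ interior FF := by
  rw [← Zs_nil g]
  have := Zs_append h w []
  rwa [List.append_nil] at this

/-- Proof. A common point `z` would satisfy `z.2 < Gw w (GG P hi) z.1 ≤ Gw w (GG Q lo) z.1 < z.2` (`GP_hi_lt_GQ_lo`,
`Gw_mono`). -/
theorem Zs_disjoint (h : Near g) (w : List Sy) : Disjoint (Zs g (Sy.P :: w)) (Zs g (Sy.Q :: w)) := by
  rw [Set.disjoint_left]
  rintro z ⟨-, -, hz3⟩ ⟨-, hz2', -⟩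
  rw [Gw_cons] at hz3 hz2'
  have := Gw_mono h.cs w (GG_leaf h.cs Sy.P hi_leaf) (GG_leaf h.cs Sy.Q lo_leaf)
    (fun x => (GP_hi_lt_GQ_lo h.cs x).le) z.1
  linarith

/-- all unstable leaves are strictly between the constant leaves -/
theorem a91_bound (h : Near g) (b : Sy) (u : List Sy) (x : ℝ) :
    lo x < Uu g b u x ∧ Uu g b u x < hi x := by
  rcases List.eq_nil_or_concat u with rfl | ⟨u', i, rfl⟩
  · exact ⟨lo_lt_fixL h.cs b x, fixL_lt_hi h.cs b x⟩
  · rw [List.concat_eq_append, Uu_append]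
    exact ⟨lo_lt_GG h.cs i (Uu_leaf h b u') x, GG_lt_hi h.cs i (Uu_leaf h b u') x⟩

/-- the graphs of the leaves are in the strips. Proof. `Uu g b (u ++ w) = Gw w (Uu g b u)` and `lo < Uu g b u < hi` everywhere
(`Uu g b u` is a fixed leaf or a value of `GG`: `lo_lt_fixL`, `lo_lt_GG` ...; reverse induction on `u` with `Uu_append`),
`Gw_strictMono`. -/
theorem Uu_mem_Zs (h : Near g) (b : Sy) (u w : List Sy) {x : ℝ} (hx : x ∈ Ioo (xc - u0) (xc + u0)) :
    (x, Uu g b (u ++ w) x) ∈ Zs g w := by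
  refine ⟨hx, ?_, ?_⟩
  · rw [Uu_append]
    exact Gw_strictMono h.cs w lo_leaf (Uu_leaf h b u) (fun x => (a91_bound h b u x).1) x
  · rw [Uu_append]
    exact Gw_strictMono h.cs w (Uu_leaf h b u) hi_leaf (fun x => (a91_bound h b u x).2) x


end Pool.Agent.Lib.H37N
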