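import Pool.Agent.Lib.H37N.A91

/-!
# H37N A92 (size S): the compact core of a strip
-/

open Set Filter Topology

namespace Pool.Agent.Lib.H37N

variable {g : Pt → Pt}

/-- Proof. Closed (`continuous`) and bounded (`Uu` has values in `II`): a subset of a compact rectangle
(`IsCompact.of_isClosed_subset`). -/
theorem Cw_compact (h : Near g) (w : List Sy) : IsCompact (Cw g w) := by
  have h1 : IsClosed {z : Pt | |z.1 - xc| ≤ u0 / 2} :=
    isClosed_le (continuous_abs.comp (continuous_fst.sub continuous_const)) continuous_const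
  have h2 : IsClosed {z : Pt | Uu g Sy.P w z.1 ≤ z.2} :=
    isClosed_le ((Uu_leaf h Sy.P w).continuous.comp continuous_fst) continuous_snd
  have h3 : IsClosed {z : Pt | z.2 ≤ Uu g Sy.Q w z.1} :=
    isClosed_le continuous_snd ((Uu_leaf h Sy.Q w).continuous.comp continuous_fst)
  have hcl : IsClosed (Cw g w) := h1.inter (h2.inter h3)
  refine IsCompact.of_isClosed_subset
    ((isCompact_Icc (a := xc - u0 / 2) (b := xc + u0 / 2)).prod
      (isCompact_Icc (a := -del) (b := 1 + del))) hcl ?_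
  rintro z ⟨hz1, hz2, hz3⟩
  rw [abs_le] at hz1
  refine ⟨⟨by linarith [hz1.1], by linarith [hz1.2]⟩, ?_, ?_⟩
  · exact ((Uu_leaf h Sy.P w).mem z.1).1.trans hz2
  · exact hz3.trans ((Uu_leaf h Sy.Q w).mem z.1).2

/-- Proof. For `z ∈ Cw g w`: `|z.1 - xc| ≤ u0/2 < u0`, and `Gw w lo z.1 < Uu g P w z.1 ≤ z.2 ≤ Uu g Q w z.1 < Gw w hi z.1`
(`Gw_strictMono`, `lo_lt_fixL`, `fixL_lt_hi`). -/
theorem Cw_sub (h : Near g) (w : List Sy) : Cw g w ⊆ Zs g w := by
  rintro z ⟨hz1, hz2, hz3⟩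
  have hu : (0 : ℝ) < u0 := by norm_num [u0]
  rw [abs_le] at hz1
  refine ⟨⟨by linarith [hz1.1], by linarith [hz1.2]⟩, ?_, ?_⟩
  · exact (Gw_strictMono h.cs w lo_leaf (fixL_leaf h.cs Sy.P) (lo_lt_fixL h.cs Sy.P) z.1).trans_le
      hz2
  · exact hz3.trans_lt
      (Gw_strictMono h.cs w (fixL_leaf h.cs Sy.Q) hi_leaf (fixL_lt_hi h.cs Sy.Q) z.1)

end Pool.Agent.Lib.H37N
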