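import Pool.Agent.Lib.H37N.A81
import Pool.Agent.Lib.H37N.A92
import Pool.Agent.Lib.H37N.A101
import Pool.Agent.Lib.H37N.A114
import Pool.Agent.Lib.H37N.A124
import Pool.Agent.Lib.H37N.A125

/-!
# H37N: interface of section A (imports all results of section A)
-/
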