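import Pool.Agent.Lib.H37N.T2

/-! # H37N, chunk T5c (M): Taylor formula in the plane with parameters -/

open Set Filter Topology Asymptotics
open scoped ContDiff

namespace Pool.Agent.Lib.H37N

variable {P W : Type} [NormedAddCommGroup P] [NormedSpace ℝ P] [FiniteDimensional ℝ P]
  [NormedAddCommGroup W] [NormedSpace ℝ W] [CompleteSpace W]

/-- One step.

PROOF. `hadamard` with E = ℝ × ℝ: F(p,z) = F(p,0) + G(p,z) z, z = (x,y) = x • (1,0) + y • (0,1); A(p,x,y) = G(p,(x,y)) (1,0), B = G(p,(x,y)) (0,1). -/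
theorem t5c_step {F : P × ℝ × ℝ → W} (hF : ContDiff ℝ ∞ F) :
    ∃ A B : P × ℝ × ℝ → W, ContDiff ℝ ∞ A ∧ ContDiff ℝ ∞ B ∧
      (∀ p x y, F (p, x, y) = F (p, 0, 0) + x • A (p, x, y) + y • B (p, x, y)) ∧
      (∀ p, A (p, 0, 0) = fderiv ℝ (fun z : ℝ × ℝ => F (p, z)) 0 (1, 0)) ∧
      ∀ p, B (p, 0, 0) = fderiv ℝ (fun z : ℝ × ℝ => F (p, z)) 0 (0, 1) := by
  obtain ⟨G, hG, h1, h2⟩ := hadamard (E := ℝ × ℝ) hF
  refine ⟨fun q => G q (1, 0), fun q => G q (0, 1), hG.clm_apply contDiff_const,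
    hG.clm_apply contDiff_const, ?_, ?_, ?_⟩
  · intro p x y
    have e : ((x, y) : ℝ × ℝ) = x • ((1, 0) : ℝ × ℝ) + y • ((0, 1) : ℝ × ℝ) := by simp
    have e2 : G (p, x, y) (x, y) = x • G (p, x, y) (1, 0) + y • G (p, x, y) (0, 1) := by
      conv_lhs => rw [show G (p, x, y) (x, y) = G (p, x, y) (x • ((1, 0) : ℝ × ℝ) +
        y • ((0, 1) : ℝ × ℝ)) from by rw [← e]]
      rw [map_add, map_smul, map_smul]
    rw [h1 p (x, y), e2, add_assoc]
    rfl
  · intro p
    have := h2 p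
    rw [show (p, (0 : ℝ × ℝ)) = (p, (0 : ℝ), (0 : ℝ)) from rfl] at this
    simp only [this]
  · intro p
    have := h2 p
    rw [show (p, (0 : ℝ × ℝ)) = (p, (0 : ℝ), (0 : ℝ)) from rfl] at this
    simp only [this]

omit [CompleteSpace W] in
theorem t5c_sum (A B C D : ℕ → W) (x y : ℝ) (n : ℕ)
    (h : ∀ a, C a = D a + x • A a + y • B a) :
    ∑ a ∈ Finset.range (n + 1), (x ^ a * y ^ (n - a)) • C a =
      (∑ a ∈ Finset.range (n + 1), (x ^ a * y ^ (n - a)) • D a) +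
      ∑ a ∈ Finset.range (n + 2), (x ^ a * y ^ (n + 1 - a)) •
        ((if a = 0 then 0 else A (a - 1)) + (if a ≤ n then B a else 0)) := by
  have h1 : ∑ a ∈ Finset.range (n + 2), (x ^ a * y ^ (n + 1 - a)) •
      (if a = 0 then (0 : W) else A (a - 1)) =
      ∑ a ∈ Finset.range (n + 1), (x ^ (a + 1) * y ^ (n - a)) • A a := by
    rw [Finset.sum_range_succ']
    simp
  have h2 : ∑ a ∈ Finset.range (n + 2), (x ^ a * y ^ (n + 1 - a)) •
      (if a ≤ n then B a else (0 : W)) =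
      ∑ a ∈ Finset.range (n + 1), (x ^ a * y ^ (n + 1 - a)) • B a := by
    rw [Finset.sum_range_succ, if_neg (by omega), smul_zero, add_zero]
    refine Finset.sum_congr rfl fun a ha => ?_
    rw [if_pos (by have := Finset.mem_range.1 ha; omega)]
  simp only [smul_add]
  rw [Finset.sum_add_distrib, h1, h2, ← add_assoc, ← Finset.sum_add_distrib,
    ← Finset.sum_add_distrib]
  refine Finset.sum_congr rfl fun a ha => ?_
  have ha' : n + 1 - a = (n - a) + 1 := by have := Finset.mem_range.1 ha; omega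
  rw [h a, ha', smul_add, smul_add, smul_smul, smul_smul, pow_succ, pow_succ]
  congr 2
  · congr 1
    ring
  · ring

/-- T5. Taylor formula with parameters; the coefficients do not depend on k.

PROOF. Choose for every smooth G functions stA G, stB G as in `t5c_step` (zero if G is not smooth).  Define Γ n a b (for a + b = n) recursively:
Γ 0 0 0 = F, Γ (n+1) a b = (if b = 0 then stA (Γ n (a-1) 0) else if a = 0 then stB (Γ n 0 (b-1)) else stA (Γ n (a-1) b)), all smooth [so Γ (n+1) a 0 = stA, and for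
b ≥ 1: every term x^a y^b Γ n a b = x^a y^b c a b + x^(a+1) y^b stA(Γ n a b) + x^a y^(b+1) stB(Γ n a b)].  To be safe collect BOTH contributions: for a + b = n+1,
Γ (n+1) a b := (if a = 0 then 0 else stA (Γ n (a-1) b)) + (if b = 0 then 0 else stB (Γ n a (b-1))).  Then
Σ_{a+b=n} x^a y^b Γ n a b (p,x,y) = Σ_{a+b=n} x^a y^b Γ n a b (p,0,0) + Σ_{a+b=n+1} x^a y^b Γ (n+1) a b (p,x,y), and c a b p := Γ (a+b) a b (p,0,0).
Induction on k gives the formula with G = Γ (k+1).  (Sums over a ∈ range (n+1), b = n - a: `Finset.sum_range_succ`, `Finset.sum_range_succ'`; for a ≤ n: n + 1 - a = (n - a) + 1.)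
c 0 0 p = F(p,0,0); c 1 0 p = stA F (p,0,0), c 0 1 p = stB F (p,0,0). -/
theorem taylor2 {F : P × ℝ × ℝ → W} (hF : ContDiff ℝ ∞ F) :
    ∃ c : ℕ → ℕ → P → W, (∀ a b, ContDiff ℝ ∞ (c a b)) ∧ (∀ p, c 0 0 p = F (p, 0, 0)) ∧
      (∀ p, c 1 0 p = fderiv ℝ (fun z : ℝ × ℝ => F (p, z)) 0 (1, 0)) ∧
      (∀ p, c 0 1 p = fderiv ℝ (fun z : ℝ × ℝ => F (p, z)) 0 (0, 1)) ∧
      ∀ k : ℕ, ∃ G : ℕ → ℕ → P × ℝ × ℝ → W, (∀ a b, ContDiff ℝ ∞ (G a b)) ∧
        ∀ p x y, F (p, x, y) =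
          (∑ n ∈ Finset.range (k + 1), ∑ a ∈ Finset.range (n + 1), (x ^ a * y ^ (n - a)) • c a (n - a) p) +
          ∑ a ∈ Finset.range (k + 2), (x ^ a * y ^ (k + 1 - a)) • G a (k + 1 - a) (p, x, y) := by
  choose A B hA hB h1 h2 h3 using
    fun F : {F : P × ℝ × ℝ → W // ContDiff ℝ ∞ F} => t5c_step F.2
  let Γ : ℕ → ℕ → {F : P × ℝ × ℝ → W // ContDiff ℝ ∞ F} := fun n =>
    Nat.rec (fun _ => ⟨F, hF⟩) (fun n Γ a =>
      ⟨fun q => (if a = 0 then 0 else A (Γ (a - 1)) q) + (if a ≤ n then B (Γ a) q else 0), by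
        refine ContDiff.add ?_ ?_
        · split_ifs
          · exact contDiff_const
          · exact hA _
        · split_ifs
          · exact hB _
          · exact contDiff_const⟩) n
  have hΓ0 : ∀ a, (Γ 0 a).1 = F := fun a => rfl
  have hΓ : ∀ n a q, (Γ (n + 1) a).1 q =
      (if a = 0 then 0 else A (Γ n (a - 1)) q) + (if a ≤ n then B (Γ n a) q else 0) :=
    fun n a q => rfl
  have hst : ∀ n p x y, ∑ a ∈ Finset.range (n + 1), (x ^ a * y ^ (n - a)) • (Γ n a).1 (p, x, y) =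
      (∑ a ∈ Finset.range (n + 1), (x ^ a * y ^ (n - a)) • (Γ n a).1 (p, 0, 0)) +
      ∑ a ∈ Finset.range (n + 2), (x ^ a * y ^ (n + 1 - a)) • (Γ (n + 1) a).1 (p, x, y) := by
    intro n p x y
    simp only [hΓ]
    exact t5c_sum (fun a => A (Γ n a) (p, x, y)) (fun a => B (Γ n a) (p, x, y))
      (fun a => (Γ n a).1 (p, x, y)) (fun a => (Γ n a).1 (p, 0, 0)) x y n
      (fun a => h1 (Γ n a) p x y)
  refine ⟨fun a b p => (Γ (a + b) a).1 (p, 0, 0), ?_, ?_, ?_, ?_, ?_⟩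
  · intro a b
    exact (Γ (a + b) a).2.comp (contDiff_id.prodMk contDiff_const)
  · intro p
    rfl
  · intro p
    have e := hΓ 0 1 (p, 0, 0)
    simp only [one_ne_zero, if_false, Nat.sub_self, nonpos_iff_eq_zero, add_zero] at e
    show (Γ (0 + 1) 1).1 (p, 0, 0) = _
    rw [e]
    exact h2 ⟨F, hF⟩ p
  · intro p
    have e := hΓ 0 0 (p, 0, 0)
    simp only [if_true, le_refl, zero_add] at e
    show (Γ 1 0).1 (p, 0, 0) = _
    rw [e]
    exact h3 ⟨F, hF⟩ p
  · intro k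
    refine ⟨fun a b => (Γ (k + 1) a).1, fun a b => (Γ (k + 1) a).2, ?_⟩
    intro p x y
    have key : ∀ k : ℕ, F (p, x, y) =
        (∑ n ∈ Finset.range (k + 1), ∑ a ∈ Finset.range (n + 1),
          (x ^ a * y ^ (n - a)) • (Γ n a).1 (p, 0, 0)) +
        ∑ a ∈ Finset.range (k + 2), (x ^ a * y ^ (k + 1 - a)) • (Γ (k + 1) a).1 (p, x, y) := by
      intro k
      induction k with
      | zero =>
        have := hst 0 p x y
        simp only [zero_add, Finset.sum_range_one, pow_zero, Nat.sub_zero, mul_one, one_smul] at this ⊢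
        rw [← this, hΓ0]
      | succ k ih =>
        rw [Finset.sum_range_succ, add_assoc, ← hst (k + 1) p x y]
        exact ih
    rw [key k]
    congr 1
    refine Finset.sum_congr rfl fun n _ => Finset.sum_congr rfl fun a ha => ?_
    have : a + (n - a) = n := by have := Finset.mem_range.1 ha; omega
    simp only [this]

end Pool.Agent.Lib.H37N
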