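import Pool.Agent.Lib.H37N.BDefs
import Pool.Agent.Lib.H37N.T5c
import Pool.Agent.Lib.H37N.T5d

/-! # H37N, chunk B06a (M): Taylor expansions for the normal form -/

open Set Filter Topology Asymptotics
open scoped ContDiff

namespace Pool.Agent.Lib.H37N

/-- PROOF. F = f - L is smooth, fderiv F 0 = 0, and fderiv F is differentiable at 0, so ‖fderiv F z‖ ≤ C ‖z‖ for ‖z‖ ≤ r (`HasFDerivAt.isBigO_sub`,
`IsBigO.exists_nonneg`, `Metric.eventually_nhds_iff`; take a smaller r for closed balls).  Mean value inequality on the convex set closedBall 0 (max ‖a‖ ‖b‖)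
(`Convex.norm_image_sub_le_of_norm_fderiv_le`): ‖F a - F b‖ ≤ C max(‖a‖,‖b‖) ‖a - b‖. -/
theorem lip_rem {f : Pt → Pt} (hf : ContDiff ℝ ∞ f) (L : Pt →L[ℝ] Pt) (hL : fderiv ℝ f 0 = L) :
    ∃ C r : ℝ, 0 ≤ C ∧ 0 < r ∧ ∀ a b : Pt, ‖a‖ ≤ r → ‖b‖ ≤ r →
      ‖f a - f b - L (a - b)‖ ≤ C * max ‖a‖ ‖b‖ * ‖a - b‖ := by
  have h1 : ContDiff ℝ ∞ (fderiv ℝ f) := hf.fderiv_right (by simp)
  have h2 : DifferentiableAt ℝ (fderiv ℝ f) 0 := h1.differentiable (by simp) 0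
  have h3 : (fun z : Pt => fderiv ℝ f z - fderiv ℝ f 0) =O[𝓝 0] fun z : Pt => z - 0 := h2.isBigO_sub
  obtain ⟨C, hC0, hC⟩ := h3.exists_nonneg
  rw [IsBigOWith, Metric.eventually_nhds_iff] at hC
  obtain ⟨r, hr, hCr⟩ := hC
  refine ⟨C, r / 2, hC0, by positivity, ?_⟩
  intro a b ha hb
  set m := max ‖a‖ ‖b‖ with hm
  have hmr : m ≤ r / 2 := max_le ha hb
  have hbound : ∀ z ∈ Metric.closedBall (0 : Pt) m, ‖fderiv ℝ f z - L‖ ≤ C * m := by
    intro z hz
    rw [mem_closedBall_zero_iff] at hz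
    have h4 := hCr (y := z) (by rw [dist_zero_right]; linarith)
    rw [hL, sub_zero] at h4
    exact h4.trans (mul_le_mul_of_nonneg_left hz hC0)
  have h5 := (convex_closedBall (0 : Pt) m).norm_image_sub_le_of_norm_fderiv_le' (𝕜 := ℝ)
    (fun z _ => hf.differentiable (by simp) z) hbound
    (mem_closedBall_zero_iff.2 (le_max_right ‖a‖ ‖b‖)) (mem_closedBall_zero_iff.2 (le_max_left ‖a‖ ‖b‖))
  exact h5

theorem b06a_hom (n : ℕ) (hn : 1 ≤ n) (c : ℕ → Pt) :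
    (fun v : Pt => ∑ a ∈ Finset.range (n + 1), (v.1 ^ a * v.2 ^ (n - a)) • c a)
      =O[𝓝 0] fun v => ‖v‖ ^ n := by
  obtain ⟨k, rfl⟩ : ∃ k, n = k + 1 := ⟨n - 1, by omega⟩
  exact remainder2_isBigO k (fun a _ _ => c a) (fun a b => continuousAt_const)

/-- PROOF. `taylor2` with P = ℝ for F(p,x,y) = E(x,y) (p = 0), k = n: E(x,y) = Σ_{j ≤ n} Σ_{a ≤ j} x^a y^(j-a) c a (j-a) + remainder, remainder = O(‖v‖^(n+1)) (`remainder2_isBigO`).
Put c' a = c a (n-a).  n = 0: the sum has only the term j = 0.  n ≥ 1: Σ_{j ≤ n-1} (..) = E - (terms of degree n) - remainder = O(‖v‖^n) (terms of degree n: |x|,|y| ≤ ‖v‖), so by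
`poly2_unique` with k = n-1 the coefficients of degree ≤ n-1 vanish (`Finset.sum_range_succ`). -/
theorem homog_part {E : Pt → Pt} (hE : ContDiff ℝ ∞ E) (n : ℕ) (h : E =O[𝓝 0] fun v => ‖v‖ ^ n) :
    ∃ c : ℕ → Pt, (fun v : Pt => E v - ∑ a ∈ Finset.range (n + 1), (v.1 ^ a * v.2 ^ (n - a)) • c a)
      =O[𝓝 0] fun v => ‖v‖ ^ (n + 1) := by
  obtain ⟨c, -, -, -, -, hG⟩ := taylor2 (P := ℝ) (W := Pt) (F := fun q : ℝ × ℝ × ℝ => E q.2)
    (hE.comp contDiff_snd)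
  obtain ⟨G, hGs, hGe⟩ := hG n
  have hrem : (fun z : ℝ × ℝ => ∑ a ∈ Finset.range (n + 2), (z.1 ^ a * z.2 ^ (n + 1 - a)) •
      G a (n + 1 - a) (0, z)) =O[𝓝 0] fun z => ‖z‖ ^ (n + 1) := by
    refine remainder2_isBigO n (fun a b z => G a b (0, z)) (fun a b => ?_)
    have := (hGs a b).continuous
    exact (this.comp (by fun_prop : Continuous (fun z : ℝ × ℝ => ((0 : ℝ), z)))).continuousAt
  have hexp : ∀ v : Pt, E v = (∑ m ∈ Finset.range n, ∑ a ∈ Finset.range (m + 1),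
      (v.1 ^ a * v.2 ^ (m - a)) • c a (m - a) 0) +
      (∑ a ∈ Finset.range (n + 1), (v.1 ^ a * v.2 ^ (n - a)) • c a (n - a) 0) +
      ∑ a ∈ Finset.range (n + 2), (v.1 ^ a * v.2 ^ (n + 1 - a)) • G a (n + 1 - a) (0, v) := by
    intro v
    have := hGe 0 v.1 v.2
    rw [Finset.sum_range_succ] at this
    exact this
  refine ⟨fun a => c a (n - a) 0, ?_⟩
  rcases n with _ | k
  · refine hrem.congr_left fun v => ?_
    have := hexp v
    rw [Finset.range_zero, Finset.sum_empty, zero_add] at this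
    rw [this]
    abel
  · have hlow : (fun v : ℝ × ℝ => ∑ m ∈ Finset.range (k + 1), ∑ a ∈ Finset.range (m + 1),
        (v.1 ^ a * v.2 ^ (m - a)) • c a (m - a) 0) =O[𝓝 0] fun v => ‖v‖ ^ (k + 1) := by
      have h1 : (fun v : ℝ × ℝ => ∑ a ∈ Finset.range (k + 1 + 2), (v.1 ^ a * v.2 ^ (k + 1 + 1 - a)) •
          G a (k + 1 + 1 - a) (0, v)) =O[𝓝 0] fun v => ‖v‖ ^ (k + 1) := by
        refine hrem.trans ?_
        refine IsBigO.of_bound 1 ?_
        filter_upwards [Metric.closedBall_mem_nhds (0 : ℝ × ℝ) one_pos] with v hv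
        rw [mem_closedBall_zero_iff] at hv
        rw [norm_pow, norm_pow, norm_norm, one_mul]
        exact pow_le_pow_of_le_one (norm_nonneg v) hv (Nat.le_succ _)
      have h2 := b06a_hom (k + 1) (by omega) (fun a => c a (k + 1 - a) 0)
      refine ((h.sub h2).sub h1).congr_left fun v => ?_
      rw [hexp v]
      abel
    have hz := poly2_unique k (fun a b => c a b 0) hlow
    refine hrem.congr_left fun v => ?_
    have h0 : ∑ m ∈ Finset.range (k + 1), ∑ a ∈ Finset.range (m + 1),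
        (v.1 ^ a * v.2 ^ (m - a)) • c a (m - a) 0 = 0 := by
      refine Finset.sum_eq_zero fun m hm => Finset.sum_eq_zero fun a ha => ?_
      rw [Finset.mem_range] at hm ha
      rw [hz a (m - a) (by omega), smul_zero]
    have := hexp v
    rw [h0, zero_add] at this
    rw [this]
    abel

/-- The homological equation.

PROOF. H v = Σ_{a ≤ n} (v.1^a v.2^(n-a)) • k a, k a = (-(c a).1/(lam - lam^a mu^(n-a)), -(c a).2/(mu - lam^a mu^(n-a))).  Termwise: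
(lam v.1)^a (mu v.2)^(n-a) = lam^a mu^(n-a) v.1^a v.2^(n-a) (`mul_pow`), dg lam mu (t • k) = t • dg lam mu k. -/
theorem homog_solve {lam mu : ℝ} {n : ℕ} (hn : 2 ≤ n)
    (hnr : ∀ a b : ℕ, 2 ≤ a + b → lam ^ a * mu ^ b ≠ lam ∧ lam ^ a * mu ^ b ≠ mu) (c : ℕ → Pt) :
    ∃ H : Pt → Pt, ContDiff ℝ ∞ H ∧ (H =O[𝓝 0] fun v => ‖v‖ ^ n) ∧
      ∀ v, dg lam mu (H v) - H (dg lam mu v) =
        -∑ a ∈ Finset.range (n + 1), (v.1 ^ a * v.2 ^ (n - a)) • c a := by
  refine ⟨fun v => ∑ a ∈ Finset.range (n + 1), (v.1 ^ a * v.2 ^ (n - a)) •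
    ((-(c a).1 / (lam - lam ^ a * mu ^ (n - a)), -(c a).2 / (mu - lam ^ a * mu ^ (n - a))) : Pt),
    ?_, b06a_hom n (by omega) _, ?_⟩
  · refine ContDiff.sum fun a _ => ?_
    exact ((contDiff_fst.pow a).mul (contDiff_snd.pow (n - a))).smul contDiff_const
  · intro v
    rw [map_sum, ← Finset.sum_sub_distrib, ← Finset.sum_neg_distrib]
    refine Finset.sum_congr rfl fun a ha => ?_
    rw [Finset.mem_range] at ha
    obtain ⟨h1, h2⟩ := hnr a (n - a) (by omega)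
    have e1 : lam - lam ^ a * mu ^ (n - a) ≠ 0 := sub_ne_zero.2 (Ne.symm h1)
    have e2 : mu - lam ^ a * mu ^ (n - a) ≠ 0 := sub_ne_zero.2 (Ne.symm h2)
    simp only [map_smul, dg_apply]
    ext
    · simp only [Prod.fst_sub, Prod.smul_fst, smul_eq_mul, Prod.fst_neg]
      field_simp
      ring
    · simp only [Prod.snd_sub, Prod.smul_snd, smul_eq_mul, Prod.snd_neg]
      field_simp
      ring

end Pool.Agent.Lib.H37N
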