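import Pool.Agent.Lib.H37N.B06a

/-! # H37N, chunk B06b (M): the normal form to finite order -/

open Set Filter Topology Asymptotics
open scoped ContDiff

namespace Pool.Agent.Lib.H37N

theorem b06b_pow {m n : ℕ} (h : n ≤ m) :
    (fun v : Pt => ‖v‖ ^ m) =O[𝓝 0] fun v => ‖v‖ ^ n := by
  refine IsBigO.of_bound 1 ?_
  filter_upwards [Metric.closedBall_mem_nhds (0 : Pt) one_pos] with v hv
  rw [mem_closedBall_zero_iff] at hv
  rw [norm_pow, norm_pow, norm_norm, one_mul]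
  exact pow_le_pow_of_le_one (norm_nonneg v) hv h

theorem b06b_tendsto {H : Pt → Pt} {n : ℕ} (hn : 1 ≤ n) (hH : H =O[𝓝 0] fun v => ‖v‖ ^ n) :
    Tendsto H (𝓝 0) (𝓝 0) := by
  refine hH.trans_tendsto ?_
  have : Continuous (fun v : Pt => ‖v‖ ^ n) := by fun_prop
  have h2 := this.tendsto 0
  rw [norm_zero, zero_pow (by omega)] at h2
  exact h2

theorem b06b_zero {H : Pt → Pt} {n : ℕ} (hn : 1 ≤ n) (hH : H =O[𝓝 0] fun v => ‖v‖ ^ n) :
    H 0 = 0 := by
  obtain ⟨C, hC⟩ := hH.bound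
  have := hC.self_of_nhds
  rw [norm_zero, zero_pow (by omega), norm_zero, mul_zero] at this
  exact norm_le_zero_iff.1 this

/-- PROOF. By `lip_rem` with a = h v + H v, b = h v (both small for small v, h and H continuous, zero at 0): the error is at most C max(‖h v + H v‖, ‖h v‖) ‖H v‖ and
‖h v‖ = O(‖v‖) (differentiable, h 0 = 0), ‖H v‖ = O(‖v‖^n) = O(‖v‖) (n ≥ 1). -/
theorem b06_add {f h H : Pt → Pt} (hf : ContDiff ℝ ∞ f) {L : Pt →L[ℝ] Pt} (hL : fderiv ℝ f 0 = L)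
    (hh : ContDiff ℝ ∞ h) (h0 : h 0 = 0) {n : ℕ} (hn : 1 ≤ n) (hH : H =O[𝓝 0] fun v => ‖v‖ ^ n) :
    (fun v => f (h v + H v) - f (h v) - L (H v)) =O[𝓝 0] fun v => ‖v‖ ^ (n + 1) := by
  obtain ⟨C, r, hC, hr, hlip⟩ := lip_rem hf L hL
  have hHt : Tendsto H (𝓝 0) (𝓝 0) := b06b_tendsto hn hH
  have hht : Tendsto h (𝓝 0) (𝓝 0) := by
    have := hh.continuous.tendsto 0
    rw [h0] at this
    exact this
  have hst : Tendsto (fun v => h v + H v) (𝓝 0) (𝓝 0) := by simpa using hht.add hHt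
  have e1 : ∀ᶠ v in 𝓝 (0 : Pt), ‖h v + H v‖ ≤ r := by
    filter_upwards [hst (Metric.closedBall_mem_nhds (0 : Pt) hr)] with v hv
    exact mem_closedBall_zero_iff.1 hv
  have e2 : ∀ᶠ v in 𝓝 (0 : Pt), ‖h v‖ ≤ r := by
    filter_upwards [hht (Metric.closedBall_mem_nhds (0 : Pt) hr)] with v hv
    exact mem_closedBall_zero_iff.1 hv
  have hO1 : (fun v => ‖h v‖ + ‖H v‖) =O[𝓝 0] fun v : Pt => ‖v‖ ^ 1 := by
    have h3 : h =O[𝓝 0] fun v : Pt => ‖v‖ ^ 1 := by
      have h4 := (hh.differentiable (by simp) 0).isBigO_sub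
      simp only [h0, sub_zero] at h4
      simpa only [pow_one] using h4.norm_right
    exact h3.norm_left.add (hH.trans (b06b_pow hn)).norm_left
  have hO2 : (fun v => (‖h v‖ + ‖H v‖) * ‖H v‖) =O[𝓝 0] fun v : Pt => ‖v‖ ^ (n + 1) := by
    refine (hO1.mul hH.norm_left).congr_right fun v => ?_
    rw [pow_one, pow_succ, mul_comm]
  refine IsBigO.trans (IsBigO.of_bound C ?_) hO2
  filter_upwards [e1, e2] with v h1 h2
  have h3 := hlip (h v + H v) (h v) h1 h2
  rw [add_sub_cancel_left] at h3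
  refine h3.trans ?_
  rw [norm_mul, norm_norm, Real.norm_of_nonneg (by positivity), mul_assoc]
  refine mul_le_mul_of_nonneg_left ?_ hC
  refine mul_le_mul_of_nonneg_right ?_ (norm_nonneg _)
  exact max_le (norm_add_le _ _) (by linarith [norm_nonneg (H v)])

/-- Normal form.

PROOF. n ≤ 2: h = id; f v - L v = O(‖v‖^2) by `lip_rem` with b = 0; and ‖v‖^2 = O(‖v‖^n).  Step from n ≥ 2 to n+1: E(v) = f (h v) - h (L v) is smooth and O(‖v‖^n); `homog_part` gives c with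
E = Σ + O(‖v‖^(n+1)), `homog_solve` gives H.  New h' = h + H: smooth, h' 0 = 0 (H 0 = 0 because H = O(‖v‖^n), n ≥ 1), fderiv h' 0 = id because fderiv H 0 = 0 (H = O(‖v‖^2) = o(‖v‖)).
f (h' v) - h' (L v) = [f (h v + H v) - f (h v) - L (H v)] + [E(v) - Σ] + [Σ + L (H v) - H (L v)], the last bracket is 0, the first is O(‖v‖^(n+1)) by `b06_add`. -/
theorem normal_form {f : Pt → Pt} (hf : ContDiff ℝ ∞ f) (h0 : f 0 = 0) {lam mu : ℝ}
    (hL : fderiv ℝ f 0 = dg lam mu)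
    (hnr : ∀ a b : ℕ, 2 ≤ a + b → lam ^ a * mu ^ b ≠ lam ∧ lam ^ a * mu ^ b ≠ mu) (n : ℕ) :
    ∃ h : Pt → Pt, ContDiff ℝ ∞ h ∧ h 0 = 0 ∧ fderiv ℝ h 0 = ContinuousLinearMap.id ℝ Pt ∧
      (fun v => f (h v) - h (dg lam mu v)) =O[𝓝 0] fun v => ‖v‖ ^ n := by
  have key : ∀ m, 2 ≤ m → ∃ h : Pt → Pt, ContDiff ℝ ∞ h ∧ h 0 = 0 ∧
      fderiv ℝ h 0 = ContinuousLinearMap.id ℝ Pt ∧
      (fun v => f (h v) - h (dg lam mu v)) =O[𝓝 0] fun v => ‖v‖ ^ m := by
    intro m hm
    induction m, hm using Nat.le_induction with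
    | base =>
      refine ⟨id, contDiff_id, rfl, fderiv_id, ?_⟩
      obtain ⟨C, r, hC, hr, hlip⟩ := lip_rem hf (dg lam mu) hL
      refine IsBigO.of_bound C ?_
      filter_upwards [Metric.closedBall_mem_nhds (0 : Pt) hr] with v hv
      have h3 := hlip v 0 (mem_closedBall_zero_iff.1 hv) (by rw [norm_zero]; exact hr.le)
      rw [h0, sub_zero, sub_zero, norm_zero, max_eq_left (norm_nonneg v)] at h3
      rw [norm_pow, norm_norm]
      refine h3.trans (le_of_eq ?_)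
      ring
    | succ n hn ih =>
      obtain ⟨h, hh, hh0, hhd, hO⟩ := ih
      have hE : ContDiff ℝ ∞ (fun v => f (h v) - h (dg lam mu v)) :=
        (hf.comp hh).sub (hh.comp (dg lam mu).contDiff)
      obtain ⟨c, hc⟩ := homog_part hE n hO
      obtain ⟨H, hHs, hHO, hHe⟩ := homog_solve hn hnr c
      have hH0 : H 0 = 0 := b06b_zero (by omega) hHO
      have hHd : HasFDerivAt H (0 : Pt →L[ℝ] Pt) 0 := by
        rw [hasFDerivAt_iff_isLittleO_nhds_zero]
        simp only [zero_add, hH0, sub_zero, zero_apply]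
        have h4 : H =O[𝓝 0] fun v : Pt => ‖v‖ ^ 2 := hHO.trans (b06b_pow hn)
        refine h4.trans_isLittleO ?_
        exact isLittleO_norm_pow_id one_lt_two
      refine ⟨fun v => h v + H v, hh.add hHs, by simp only [hh0, hH0, add_zero], ?_, ?_⟩
      · have h5 : HasFDerivAt (fun v => h v + H v) (fderiv ℝ h 0 + 0) 0 :=
          (hh.differentiable (by simp) 0).hasFDerivAt.add hHd
        rw [h5.fderiv, hhd, add_zero]
      · have h6 := b06_add hf hL hh hh0 (n := n) (by omega) hHO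
        refine (h6.add hc).congr_left fun v => ?_
        have h7 := hHe v
        have h8 : ∑ a ∈ Finset.range (n + 1), (v.1 ^ a * v.2 ^ (n - a)) • c a =
            H (dg lam mu v) - dg lam mu (H v) := by
          rw [← neg_inj, ← h7]
          abel
        simp only [h8]
        abel
  obtain ⟨h, hh, hh0, hhd, hO⟩ := key (max n 2) (le_max_right _ _)
  exact ⟨h, hh, hh0, hhd, hO.trans (b06b_pow (le_max_left _ _))⟩

end Pool.Agent.Lib.H37N
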