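import Pool.Agent.Lib.H37N.B09
import Pool.Agent.Lib.H37N.B10

/-! # H37N, chunk B11 (S/M): theorem LIN -/

open Set Filter Topology
open scoped ContDiff

namespace Pool.Agent.Lib.H37N

/-- B.2 THEOREM LIN.

PROOF. `lin_at` at P with D = fun _ => ∅: g₁ = ψ₁ ∘ g ∈ U with a chart (κ, c, lamP, muP) at P.  0 < lamP muP < 51/100 * 126/100 < 1, so log (lamP muP) ≠ 0.  `lin_at` at Q for g₁ with
D m = {l | 0 < l ∧ ¬ Irrational (log (lamP muP) / log (l m))} (`bad2_countable`): g₂ = ψ₂ ∘ g₁ ∈ U with a chart at Q, and lamQ ∉ D muQ, 0 < lamQ, so the quotient is irrational.  The chart at P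
is a chart of g₂ by `LinChart.of_comp` (z ∈ VV P is not in VV Q: `not_mem_VV_of_ne`).  κ = fun i => match i with | P => .. | Q => .. (`Sy.rec`). -/
theorem LIN {R : ℕ} {U : Set (Pt → Pt)} (hU : PertOpen R U) (hN : ∀ g ∈ U, Near g) {g : Pt → Pt} (hg : g ∈ U) :
    ∃ g' ∈ U, ∃ (κ c : Sy → Pt → Pt) (lam mu : Sy → ℝ),
      (∀ i, LinChart g' i (κ i) (c i) (lam i) (mu i)) ∧
      Irrational (Real.log (lam Sy.P * mu Sy.P) / Real.log (lam Sy.Q * mu Sy.Q)) := by
  obtain ⟨ψ₁, h1U, -, κP, cP, lamP, muP, hP, -⟩ :=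
    lin_at hU hN hg Sy.P (fun _ => ∅) (fun _ _ => countable_empty)
  have hlamP := hP.lam_mem
  have hmuP : muP ∈ Ioo (124 / 100 : ℝ) (126 / 100) := hP.mu_mem
  have hlamP0 : 0 < lamP := by linarith [hlamP.1]
  have hmuP0 : 0 < muP := by linarith [hmuP.1]
  have hlog : Real.log (lamP * muP) ≠ 0 := by
    have h0 : 0 < lamP * muP := mul_pos hlamP0 hmuP0
    have h1 : lamP * muP < 1 := by nlinarith [hlamP.2, hmuP.2]
    exact (Real.log_neg h0 h1).ne
  obtain ⟨ψ₂, h2U, h2out, κQ, cQ, lamQ, muQ, hQ, hnot⟩ :=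
    lin_at hU hN h1U Sy.Q
      (fun m => {l : ℝ | 0 < l ∧ ¬ Irrational (Real.log (lamP * muP) / Real.log (l * m))})
      (fun m hm => bad2_countable hlog (one_lt_of_muR hm))
  have hlamQ0 : 0 < lamQ := by linarith [hQ.lam_mem.1]
  have hirr : Irrational (Real.log (lamP * muP) / Real.log (lamQ * muQ)) := by
    by_contra hcon
    exact hnot ⟨hlamQ0, hcon⟩
  have hP2 : LinChart (ψ₂ ∘ (ψ₁ ∘ g)) Sy.P κP cP lamP muP :=
    hP.of_comp fun z hz => h2out z (not_mem_VV_of_ne (by decide) hz)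
  refine ⟨ψ₂ ∘ (ψ₁ ∘ g), h2U, fun i => match i with | Sy.P => κP | Sy.Q => κQ,
    fun i => match i with | Sy.P => cP | Sy.Q => cQ,
    fun i => match i with | Sy.P => lamP | Sy.Q => lamQ,
    fun i => match i with | Sy.P => muP | Sy.Q => muQ, ?_, hirr⟩
  intro i
  cases i with
  | P => exact hP2
  | Q => exact hQ

end Pool.Agent.Lib.H37N
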