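import Pool.Agent.Lib.H37N.B10
import Pool.Agent.Lib.H37N.B16

/-! # H37N, chunk B17 (M): directions of the axes of a chart -/

open Set Filter Topology
open scoped ContDiff

namespace Pool.Agent.Lib.H37N

variable {g : Pt → Pt} {i : Sy} {κ c : Pt → Pt} {lam mu : ℝ}

theorem b17_mem_Bx {x y : ℝ} (hx : |x| < 2) (hy : |y| < 2) : (x, y) ∈ Bx := by
  simp only [Bx, mem_prod, mem_Ioo]
  exact ⟨abs_lt.1 hx, abs_lt.1 hy⟩

theorem b17_kappa (h : LinChart g i κ c lam mu) (v : Pt) : HasFDerivAt κ (fderiv ℝ κ v) v :=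
  (h.smooth.differentiable (by simp) v).hasFDerivAt

theorem b17_ne1 (h : LinChart g i κ c lam mu) {v : Pt} (hv : v ∈ Bx) : fderiv ℝ κ v (1, 0) ≠ 0 := by
  intro h0
  have := h.jac_pos v hv
  unfold jac at this
  rw [h0] at this
  simp at this

theorem b17_ne2 (h : LinChart g i κ c lam mu) {v : Pt} (hv : v ∈ Bx) : fderiv ℝ κ v (0, 1) ≠ 0 := by
  intro h0
  have := h.jac_pos v hv
  unfold jac at this
  rw [h0] at this
  simp at this

theorem b17_VO (j : Sy) : interior (VV j) ⊆ VO := by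
  cases j
  · exact subset_union_left
  · exact subset_union_right

/-- The unstable direction at the fixed point.

PROOF. g (κ v) = κ (dg lam mu v) near 0; differentiate at 0 in the direction (0,1): fderiv g (κ 0) v = mu • v, v = fderiv κ 0 (0,1).  `Near.deriv_apply` at κ 0 ∈ VV i: |mu v.2 - qw v.2| ≤ 2 e0 ‖v‖,
mu - qw ≥ 7/10, so |v.2| ≤ 4 e0 ‖v‖; v ≠ 0 (jac κ 0 > 0), so ‖v‖ = |v.1| > 0. -/
theorem b17_zero (hg : Near g) (h : LinChart g i κ c lam mu) :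
    |(fderiv ℝ κ 0 (0, 1)).2| < |(fderiv ℝ κ 0 (0, 1)).1| / 2 := by
  have hmu := h.one_lt
  have h0B : (0 : Pt) ∈ Bx := b17_mem_Bx (by simp) (by simp)
  have hz : κ 0 ∈ VV i := interior_subset (h.sub ⟨0, h0B, rfl⟩)
  have hgd : DifferentiableAt ℝ g (κ 0) :=
    (hg.contDiffAt hz).self_of_nhds.differentiableAt (by simp)
  -- the curve y ↦ κ (0,y)
  have hc1 : HasDerivAt (fun t : ℝ => ((0 : ℝ), t)) ((0 : ℝ), (1 : ℝ)) 0 :=
    (hasDerivAt_const (0 : ℝ) (0 : ℝ)).prodMk (hasDerivAt_id (0 : ℝ))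
  have hc2 : HasDerivAt (fun t : ℝ => ((0 : ℝ), mu * t)) ((0 : ℝ), mu) 0 := by
    have := (hasDerivAt_const (0 : ℝ) (0 : ℝ)).prodMk ((hasDerivAt_id (0 : ℝ)).const_mul mu)
    simpa using this
  have e1 : HasDerivAt (fun t : ℝ => κ ((0 : ℝ), t)) (fderiv ℝ κ 0 (0, 1)) 0 :=
    HasFDerivAt.comp_hasDerivAt (0 : ℝ) (f := fun t : ℝ => ((0 : ℝ), t)) (b17_kappa h _) hc1
  have e2 : HasDerivAt (fun t : ℝ => κ ((0 : ℝ), mu * t)) (fderiv ℝ κ 0 (0, mu)) 0 := by
    have hk : HasFDerivAt κ (fderiv ℝ κ 0) ((fun t : ℝ => ((0 : ℝ), mu * t)) 0) := by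
      have : ((fun t : ℝ => ((0 : ℝ), mu * t)) 0) = (0 : Pt) := by simp
      rw [this]
      exact b17_kappa h 0
    exact HasFDerivAt.comp_hasDerivAt (0 : ℝ) hk hc2
  have e3 : HasDerivAt (fun t : ℝ => g (κ ((0 : ℝ), t))) (fderiv ℝ g (κ 0) (fderiv ℝ κ 0 (0, 1))) 0 :=
    HasFDerivAt.comp_hasDerivAt (0 : ℝ) (f := fun t : ℝ => κ ((0 : ℝ), t)) hgd.hasFDerivAt e1
  have hev : (fun t : ℝ => g (κ ((0 : ℝ), t))) =ᶠ[𝓝 0] fun t : ℝ => κ ((0 : ℝ), mu * t) := by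
    have h1 : ∀ᶠ t in 𝓝 (0 : ℝ), |mu * t| < 2 := by
      have : ContinuousAt (fun t : ℝ => |mu * t|) 0 := by fun_prop
      apply this.eventually_lt continuousAt_const
      simp
    filter_upwards [h1] with t ht
    rw [h.lin 0 t (by simp) ht, mul_zero]
  have e4 : fderiv ℝ g (κ 0) (fderiv ℝ κ 0 (0, 1)) = fderiv ℝ κ 0 (0, mu) :=
    e3.unique (e2.congr_of_eventuallyEq hev)
  set v := fderiv ℝ κ 0 (0, 1) with hv
  have e5 : fderiv ℝ κ 0 (0, mu) = mu • v := by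
    rw [hv, ← map_smul]
    simp
  rw [e5] at e4
  have hvne : v ≠ 0 := b17_ne2 h h0B
  have hd := (hg.deriv_apply hz v).2
  rw [e4] at hd
  have hq : 7 / 10 ≤ mu - qw i := by
    have := h.mu_mem
    cases i
    · simp only [muR, mem_Ioo] at this; simp only [qw]; linarith [this.1]
    · simp only [muR, mem_Ioo] at this; simp only [qw]; linarith [this.1]
  have hd2 : (mu - qw i) * |v.2| ≤ 2 * e0 * ‖v‖ := by
    have : (mu • v).2 - qw i * v.2 = (mu - qw i) * v.2 := by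
      simp only [Prod.smul_snd, smul_eq_mul]; ring
    rw [this, abs_mul, abs_of_pos (by linarith)] at hd
    exact hd
  have hd3 : |v.2| ≤ 4 * e0 * ‖v‖ := by
    have he : (0 : ℝ) < e0 := by unfold e0; positivity
    nlinarith [abs_nonneg v.2, norm_nonneg v, mul_nonneg he.le (norm_nonneg v)]
  have hvn : 0 < ‖v‖ := norm_pos_iff.2 hvne
  have he : e0 = 1 / 10 ^ 12 := rfl
  have hlt : |v.2| < ‖v‖ := by
    rw [he] at hd3
    nlinarith
  have hn : ‖v‖ = |v.1| := by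
    rw [Prod.norm_def] at hlt ⊢
    rcases max_choice ‖v.1‖ ‖v.2‖ with h | h
    · rw [h]; rfl
    · rw [h] at hlt
      exact absurd hlt (lt_irrefl _)
  rw [hn] at hd3 hvn
  rw [he] at hd3
  nlinarith

/-- The unstable direction is in the horizontal cone.

PROOF. By `b17_zero` and continuity of fderiv κ there is ρ > 0 with |(fderiv κ (0,y') (0,1)).2| < |(..).1| / 2 for |y'| < ρ.  Choose n with |y| / mu^n < ρ.  For t near y: |mu^n (t/mu^n)| = |t| < 2,
so g^[n] (κ (0, t/mu^n)) = κ (0, t) (`LinChart.iter`); the points g^[j] (κ (0, y/mu^n)), j < n, are in interior (VV i) ⊆ VO (`LinChart.iter_mem`).  Differentiate at t = y: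
fderiv κ (0,y) (0,1) = fderiv (g^[n]) (κ (0,y/mu^n)) (mu^(-n) • fderiv κ (0, y/mu^n) (0,1)); `cone_iter`. -/
theorem LinChart.cone (hg : Near g) (h : LinChart g i κ c lam mu) {y : ℝ} (hy : |y| < 2) :
    |(fderiv ℝ κ (0, y) (0, 1)).2| ≤ |(fderiv ℝ κ (0, y) (0, 1)).1| / 2 ∧
      0 < |(fderiv ℝ κ (0, y) (0, 1)).1| := by
  have hmu := h.one_lt
  have hcontκ : Continuous (fun v : Pt => fderiv ℝ κ v (0, 1)) :=
    (h.smooth.continuous_fderiv (by simp)).clm_apply continuous_const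
  have hopen : ∀ᶠ t in 𝓝 (0 : ℝ), |(fderiv ℝ κ (0, t) (0, 1)).2| < |(fderiv ℝ κ (0, t) (0, 1)).1| / 2 := by
    have c1 : Continuous (fun t : ℝ => fderiv ℝ κ ((0 : ℝ), t) (0, 1)) :=
      hcontκ.comp (by fun_prop : Continuous fun t : ℝ => ((0 : ℝ), t))
    have c2 : ContinuousAt (fun t : ℝ => |(fderiv ℝ κ ((0 : ℝ), t) (0, 1)).2|) 0 :=
      (continuous_abs.comp (continuous_snd.comp c1)).continuousAt
    have c3 : ContinuousAt (fun t : ℝ => |(fderiv ℝ κ ((0 : ℝ), t) (0, 1)).1| / 2) 0 :=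
      ((continuous_abs.comp (continuous_fst.comp c1)).div_const 2).continuousAt
    exact c2.eventually_lt c3 (b17_zero hg h)
  have hlim : Tendsto (fun n : ℕ => y / mu ^ n) atTop (𝓝 0) := by
    have h1 : Tendsto (fun n : ℕ => mu ^ n) atTop atTop := tendsto_pow_atTop_atTop_of_one_lt hmu
    exact h1.const_div_atTop y
  obtain ⟨n, hn⟩ := (hlim.eventually hopen).exists
  set y' := y / mu ^ n with hy'
  have hpn : (0 : ℝ) < mu ^ n := by positivity
  have hmy : mu ^ n * y' = y := by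
    rw [hy']; field_simp
  have hmem : ∀ j < n, g^[j] (κ (0, y')) ∈ VO := by
    intro j hj
    exact b17_VO i (h.iter_mem n (x := 0) (y := y') (by simp) (by rw [hmy]; exact hy) j hj.le)
  have hgd : DifferentiableAt ℝ (g^[n]) (κ (0, y')) :=
    (hg.iter n hmem).self_of_nhds.1.differentiableAt (by simp)
  have hc1 : HasDerivAt (fun t : ℝ => ((0 : ℝ), t)) ((0 : ℝ), (1 : ℝ)) y :=
    (hasDerivAt_const y (0 : ℝ)).prodMk (hasDerivAt_id y)
  have hc2 : HasDerivAt (fun t : ℝ => ((0 : ℝ), t / mu ^ n)) ((0 : ℝ), 1 / mu ^ n) y :=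
    (hasDerivAt_const y (0 : ℝ)).prodMk ((hasDerivAt_id y).div_const _)
  have e1 : HasDerivAt (fun t : ℝ => κ ((0 : ℝ), t)) (fderiv ℝ κ (0, y) (0, 1)) y :=
    HasFDerivAt.comp_hasDerivAt y (f := fun t : ℝ => ((0 : ℝ), t)) (b17_kappa h _) hc1
  have e2 : HasDerivAt (fun t : ℝ => κ ((0 : ℝ), t / mu ^ n)) (fderiv ℝ κ (0, y') (0, 1 / mu ^ n)) y :=
    HasFDerivAt.comp_hasDerivAt y (f := fun t : ℝ => ((0 : ℝ), t / mu ^ n)) (b17_kappa h _) hc2
  have e3 : HasDerivAt (fun t : ℝ => g^[n] (κ ((0 : ℝ), t / mu ^ n)))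
      (fderiv ℝ (g^[n]) (κ (0, y')) (fderiv ℝ κ (0, y') (0, 1 / mu ^ n))) y :=
    HasFDerivAt.comp_hasDerivAt y (f := fun t : ℝ => κ ((0 : ℝ), t / mu ^ n)) hgd.hasFDerivAt e2
  have hev : (fun t : ℝ => g^[n] (κ ((0 : ℝ), t / mu ^ n))) =ᶠ[𝓝 y] fun t : ℝ => κ ((0 : ℝ), t) := by
    have h1 : ∀ᶠ t in 𝓝 y, |t| < 2 := by
      have : ContinuousAt (fun t : ℝ => |t|) y := by fun_prop
      exact this.eventually_lt continuousAt_const hy
    filter_upwards [h1] with t ht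
    have hmt : mu ^ n * (t / mu ^ n) = t := by field_simp
    rw [h.iter n (by simp) (by rw [hmt]; exact ht), hmt, mul_zero]
  have e4 : fderiv ℝ (g^[n]) (κ (0, y')) (fderiv ℝ κ (0, y') (0, 1 / mu ^ n)) = fderiv ℝ κ (0, y) (0, 1) :=
    e3.unique (e1.congr_of_eventuallyEq hev)
  have e5 : fderiv ℝ κ (0, y') (0, 1 / mu ^ n) = (1 / mu ^ n) • fderiv ℝ κ (0, y') (0, 1) := by
    rw [← map_smul]
    simp
  have hpos : (0 : ℝ) < 1 / mu ^ n := by positivity
  have hw : |(fderiv ℝ κ (0, y') (0, 1 / mu ^ n)).2| ≤ |(fderiv ℝ κ (0, y') (0, 1 / mu ^ n)).1| / 2 := by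
    rw [e5]
    simp only [Prod.smul_fst, Prod.smul_snd, smul_eq_mul, abs_mul, abs_of_pos hpos]
    nlinarith
  have hci := cone_iter hg n hmem hw
  rw [e4] at hci
  refine ⟨hci.1, lt_of_lt_of_le ?_ hci.2⟩
  apply mul_pos (by positivity)
  rw [e5]
  simp only [Prod.smul_fst, smul_eq_mul, abs_mul, abs_of_pos hpos]
  apply mul_pos hpos
  have := abs_nonneg (fderiv ℝ κ (0, y') (0, 1)).2
  linarith

/-- The stable direction is not in the horizontal cone.

PROOF. w = fderiv κ (x,0) (a,0).  For all n and t near 0: g^[n] (κ (x + t a, 0)) = κ (lam^n (x + t a), 0) (`LinChart.iter`), so (derivative at t = 0) fderiv (g^[n]) (κ (x,0)) w =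
lam^n • fderiv κ (lam^n x, 0) (a,0), which tends to 0 (0 < lam < 1, fderiv κ is continuous).  By `cone_iter` |w.1| ≤ (6/5)^n |w.1| ≤ |(..).1| → 0.  So w.1 = 0, w.2 = 0, w = 0;
fderiv κ (x,0) (a,0) = a • fderiv κ (x,0) (1,0) and fderiv κ (x,0) (1,0) ≠ 0 (jac κ > 0), so a = 0. -/
theorem LinChart.stable_not_cone (hg : Near g) (h : LinChart g i κ c lam mu) {x : ℝ} (hx : |x| < 2) {a : ℝ}
    (hc : |(fderiv ℝ κ (x, 0) (a, 0)).2| ≤ |(fderiv ℝ κ (x, 0) (a, 0)).1| / 2) : a = 0 := by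
  have hmu := h.one_lt
  have hlam := h.lam_pos
  have hlam1 : lam < 1 := by linarith [h.lam_mem.2]
  set w := fderiv ℝ κ (x, 0) (a, 0) with hw
  have hmem : ∀ n : ℕ, ∀ j < n, g^[j] (κ (x, 0)) ∈ VO := by
    intro n j hj
    exact b17_VO i (h.iter_mem n (x := x) (y := 0) hx (by simp) j hj.le)
  have key : ∀ n : ℕ, fderiv ℝ (g^[n]) (κ (x, 0)) w = lam ^ n • fderiv ℝ κ (lam ^ n * x, 0) (a, 0) := by
    intro n
    have hgd : DifferentiableAt ℝ (g^[n]) (κ (x, 0)) :=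
      (hg.iter n (hmem n)).self_of_nhds.1.differentiableAt (by simp)
    have hc1 : HasDerivAt (fun t : ℝ => (x + t * a, (0 : ℝ))) (a, (0 : ℝ)) 0 := by
      have := ((hasDerivAt_id (0 : ℝ)).mul_const a).const_add x
      have h2 := this.prodMk (hasDerivAt_const (0 : ℝ) (0 : ℝ))
      simpa using h2
    have hc2 : HasDerivAt (fun t : ℝ => (lam ^ n * (x + t * a), (0 : ℝ))) (lam ^ n * a, (0 : ℝ)) 0 := by
      have := (((hasDerivAt_id (0 : ℝ)).mul_const a).const_add x).const_mul (lam ^ n)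
      have h2 := this.prodMk (hasDerivAt_const (0 : ℝ) (0 : ℝ))
      simpa using h2
    have hp1 : (fun t : ℝ => (x + t * a, (0 : ℝ))) 0 = (x, 0) := by simp
    have hp2 : (fun t : ℝ => (lam ^ n * (x + t * a), (0 : ℝ))) 0 = (lam ^ n * x, 0) := by simp
    have e1 : HasDerivAt (fun t : ℝ => κ (x + t * a, (0 : ℝ))) w 0 := by
      have hk : HasFDerivAt κ (fderiv ℝ κ (x, 0)) ((fun t : ℝ => (x + t * a, (0 : ℝ))) 0) := by
        rw [hp1]; exact b17_kappa h _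
      exact HasFDerivAt.comp_hasDerivAt (0 : ℝ) hk hc1
    have e2 : HasDerivAt (fun t : ℝ => κ (lam ^ n * (x + t * a), (0 : ℝ)))
        (fderiv ℝ κ (lam ^ n * x, 0) (lam ^ n * a, 0)) 0 := by
      have hk : HasFDerivAt κ (fderiv ℝ κ (lam ^ n * x, 0)) ((fun t : ℝ => (lam ^ n * (x + t * a), (0 : ℝ))) 0) := by
        rw [hp2]; exact b17_kappa h _
      exact HasFDerivAt.comp_hasDerivAt (0 : ℝ) hk hc2
    have e3 : HasDerivAt (fun t : ℝ => g^[n] (κ (x + t * a, (0 : ℝ)))) (fderiv ℝ (g^[n]) (κ (x, 0)) w) 0 := by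
      have hk : HasFDerivAt (g^[n]) (fderiv ℝ (g^[n]) (κ (x, 0))) ((fun t : ℝ => κ (x + t * a, (0 : ℝ))) 0) := by
        simp only [zero_mul, add_zero]
        exact hgd.hasFDerivAt
      exact HasFDerivAt.comp_hasDerivAt (0 : ℝ) hk e1
    have hev : (fun t : ℝ => g^[n] (κ (x + t * a, (0 : ℝ)))) =ᶠ[𝓝 0]
        fun t : ℝ => κ (lam ^ n * (x + t * a), (0 : ℝ)) := by
      have h1 : ∀ᶠ t in 𝓝 (0 : ℝ), |x + t * a| < 2 := by
        have : ContinuousAt (fun t : ℝ => |x + t * a|) 0 := by fun_prop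
        apply this.eventually_lt continuousAt_const
        simpa using hx
      filter_upwards [h1] with t ht
      rw [h.iter n ht (by simp), mul_zero]
    have e4 : fderiv ℝ (g^[n]) (κ (x, 0)) w = fderiv ℝ κ (lam ^ n * x, 0) (lam ^ n * a, 0) :=
      e3.unique (e2.congr_of_eventuallyEq hev)
    rw [e4, ← map_smul]
    simp
  have hlimx : Tendsto (fun n : ℕ => lam ^ n) atTop (𝓝 0) :=
    tendsto_pow_atTop_nhds_zero_of_lt_one hlam.le hlam1
  have hcontκ : Continuous (fun s : ℝ => fderiv ℝ κ (s * x, 0) (a, 0)) :=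
    ((h.smooth.continuous_fderiv (by simp)).comp
      (by fun_prop : Continuous fun s : ℝ => (s * x, (0 : ℝ)))).clm_apply continuous_const
  have hlim : Tendsto (fun n : ℕ => |(lam ^ n • fderiv ℝ κ (lam ^ n * x, 0) (a, 0)).1|) atTop (𝓝 0) := by
    have c1 : Continuous (fun s : ℝ => |(s • fderiv ℝ κ (s * x, 0) (a, 0)).1|) :=
      continuous_abs.comp (continuous_fst.comp (continuous_id.smul hcontκ))
    have h5 := (c1.tendsto 0).comp hlimx
    have h6 : |((0 : ℝ) • fderiv ℝ κ (0 * x, 0) (a, 0)).1| = 0 := by simp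
    rw [h6] at h5
    exact h5
  have hle : ∀ n : ℕ, |w.1| ≤ |(lam ^ n • fderiv ℝ κ (lam ^ n * x, 0) (a, 0)).1| := by
    intro n
    have h1 := (cone_iter hg n (hmem n) hc).2
    rw [key n] at h1
    have h2 : (1 : ℝ) ≤ (6 / 5) ^ n := one_le_pow₀ (by norm_num)
    have h3 := abs_nonneg w.1
    nlinarith
  have hw1 : |w.1| ≤ 0 := ge_of_tendsto' hlim hle
  have hw1' : w.1 = 0 := abs_nonpos_iff.1 hw1
  have hw2' : w.2 = 0 := by
    rw [hw1'] at hc
    simp at hc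
    exact hc
  have hw0 : w = 0 := Prod.ext hw1' hw2'
  have hsm : a • fderiv ℝ κ (x, 0) (1, 0) = 0 := by
    rw [← map_smul]
    simpa [hw] using hw0
  rcases smul_eq_zero.1 hsm with h1 | h1
  · exact h1
  · exact absurd h1 (b17_ne1 h (b17_mem_Bx hx (by simp)))

end Pool.Agent.Lib.H37N
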