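import Pool.Agent.Lib.H37N.B14
import Pool.Agent.Lib.H37N.B15

/-! # H37N, chunk B18a (S/M): the connection in the charts -/

open Set Filter Topology
open scoped ContDiff

namespace Pool.Agent.Lib.H37N

theorem b18a_back {g : Pt → Pt} {a : ℕ → Pt} (ha : ∀ n, g (a (n + 1)) = a n) :
    ∀ j n, j ≤ n → g^[j] (a n) = a (n - j) := by
  intro j
  induction j with
  | zero => intro n _; rfl
  | succ j ih =>
    intro n hn
    rw [Function.iterate_succ_apply']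
    rw [ih n (by omega)]
    have e : n - j = (n - (j + 1)) + 1 := by omega
    rw [e, ha]

theorem b18a_fwd {g : Pt → Pt} {b : ℕ → Pt} (hb : ∀ n, g (b n) = b (n + 1)) :
    ∀ j, g^[j] (b 0) = b j := by
  intro j
  induction j with
  | zero => rfl
  | succ j ih => rw [Function.iterate_succ_apply', ih, hb]

/-- PROOF. p = κP 0 ∈ VV P, q = κQ 0 ∈ VV Q are fixed (`LinChart.fix`, `LinChart.sub`, 0 ∈ Bx).  `exists_conn`: a, b.  `LinChart.bwd` for a: n ≥ 1 with a n = κP (0,y), |y| < 1, and y ≠ 0 because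
a n ≠ p.  `LinChart.fwd` for b: m with b m = κQ (x,0), |x| < 1.  kS = n + m.  g^[j] (a n) = a (n-j) for j ≤ n, and g^[n+j] (a n) = g^[j] (b 0) = b j.  All these points are in VO. -/
theorem sdata_core {g κP cP κQ cQ : Pt → Pt} {lamP muP lamQ muQ : ℝ} (hg : Near g)
    (hP : LinChart g Sy.P κP cP lamP muP) (hQ : LinChart g Sy.Q κQ cQ lamQ muQ) :
    ∃ (kS : ℕ) (uS sS : ℝ), 1 ≤ kS ∧ uS ≠ 0 ∧ |uS| < 1 ∧ |sS| < 1 ∧
      (∀ j ≤ kS, g^[j] (κP (0, uS)) ∈ VO) ∧ g^[kS] (κP (0, uS)) = κQ (sS, 0) := by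
  have hp : κP 0 ∈ VV Sy.P := interior_subset (hP.sub ⟨0, b15_zero, rfl⟩)
  have hq : κQ 0 ∈ VV Sy.Q := interior_subset (hQ.sub ⟨0, b15_zero, rfl⟩)
  obtain ⟨a, b, h0, ha, hb, haP, hbQ, hla, hlb, hne⟩ := exists_conn hg hp hP.fix hq hQ.fix
  obtain ⟨N, hN⟩ := eventually_atTop.1 (hP.bwd ha hla)
  obtain ⟨M, hM⟩ := eventually_atTop.1 (hQ.fwd hb hlb)
  obtain ⟨y, hy1, hy⟩ := hN (N + 1) (by omega)
  obtain ⟨x, hx1, hx⟩ := hM M le_rfl
  have key : ∀ j, g^[N + 1 + j] (κP (0, y)) = b j := by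
    intro j
    rw [add_comm, Function.iterate_add_apply, ← hy, b18a_back ha (N + 1) (N + 1) le_rfl,
      Nat.sub_self, h0, b18a_fwd hb]
  refine ⟨N + 1 + M, y, x, by omega, ?_, hy1, hx1, ?_, ?_⟩
  · rintro rfl
    exact hne (N + 1) hy
  · intro j hj
    rcases lt_or_ge j (N + 1) with h | h
    · have e : N + 1 - j = (N - j) + 1 := by omega
      rw [← hy, b18a_back ha j (N + 1) h.le, e]
      exact Or.inl (haP _)
    · obtain ⟨k, rfl⟩ := Nat.exists_eq_add_of_le h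
      rw [key]
      exact Or.inr (hbQ _)
  · rw [key, hx]

end Pool.Agent.Lib.H37N
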