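import Pool.Agent.Lib.H37N.Aint

/-!
# H37N C31 (size M): moves which make `DD` zero at a deep pair (first part of C.3 and of C.5)
-/

open Set Filter Topology
open scoped ContDiff

namespace Pool.Agent.Lib.H37N

/-- Proof. `strip_move hU hN hg w` gives `τ0`. `depth` with `η = τ0 / 3`: `w', v'` with `hU + hS < τ0 / 3`. Put
`f = Uu g Q (w' ++ w)`, `s = Ss g P (v ++ v')`, `τ = DD g f s`; `|τ| ≤ 3 (hU + hS) < τ0` (`DD_small` for the pair `(w' ++ w, v ++ v')`,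
`Uu_PQ_lt`, `Ss_PQ_lt`). `Uu g P w ≤ f ≤ Uu g Q w` by `Uu_between`. The map `g'` of `strip_move` for `τ` has `DD g' f s = 0`, and
`Uu g' = Uu g`, `Ss g' = Ss g` (`Uu_congr`, `Ss_congr`). -/
theorem zero_pair {R : ℕ} {U : Set (Pt → Pt)} (hU : PertOpen R U) (hN : ∀ g ∈ U, Near g) {g : Pt → Pt}
    (hg : g ∈ U) {w v : List Sy} (hok : Ok g w v) : ∃ g' ∈ U,
      (∀ z ∈ VV Sy.P ∪ VV Sy.Q, g' z = g z) ∧ (∀ z ∈ FF, z ∉ Zs g w → g' z = g z) ∧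
      ∃ w' v' : List Sy, DD g' (Uu g' Sy.Q (w' ++ w)) (Ss g' Sy.P (v ++ v')) = 0 := by
  have h := hN g hg
  obtain ⟨τ0, hτ0, hmove⟩ := strip_move hU hN hg w
  obtain ⟨w', v', hl, -, -, hsm⟩ := depth h hok (η := τ0 / 3) (by positivity)
  have hlU := Uu_leaf h Sy.Q (w' ++ w)
  have hlS := Ss_leaf h Sy.P (v ++ v')
  have hd := DD_small h hl hlU hlS (fun x => (Uu_PQ_lt h _ x).le) (fun x => le_rfl)
    (fun y => le_rfl) (fun y => (Ss_PQ_lt h _ y).le)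
  obtain ⟨g', hg', hV, hF, hD⟩ := hmove (DD g (Uu g Sy.Q (w' ++ w)) (Ss g Sy.P (v ++ v')))
    (by linarith)
  refine ⟨g', hg', hV, hF, w', v', ?_⟩
  rw [Uu_congr h hV, Ss_congr h hV]
  rw [hD _ _ hlU hlS (fun x => (Uu_between h Sy.Q w' w x).1) (fun x => (Uu_between h Sy.Q w' w x).2)]
  ring

/-- Proof. The same with `f = Uu g Q (P :: (w' ++ w)) = Uu g Q ((P :: w') ++ w)` (`DD_small`: `Uu_P_lt`, `Uu_mid_lt`, `Uu_lt_Q` give
`Uu g P (w' ++ w) ≤ f ≤ Uu g Q (w' ++ w)`). For `g'`: `both_linked` (`Near g'`, `rr g' = rr g ≤ 10` by `rr_congr`, the pair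
`(w' ++ w, v ++ v')`), and `rr_cons` for the sizes. -/
theorem double_pair {R : ℕ} {U : Set (Pt → Pt)} (hU : PertOpen R U) (hN : ∀ g ∈ U, Near g) {g : Pt → Pt}
    (hg : g ∈ U) {w v : List Sy} (hok : Ok g w v) : ∃ g' ∈ U,
      (∀ z ∈ VV Sy.P ∪ VV Sy.Q, g' z = g z) ∧ (∀ z ∈ FF, z ∉ Zs g w → g' z = g z) ∧
      ∃ w' v' : List Sy, Ok g' (Sy.P :: (w' ++ w)) (v ++ v') ∧ Ok g' (Sy.Q :: (w' ++ w)) (v ++ v') := by
  have h := hN g hg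
  obtain ⟨τ0, hτ0, hmove⟩ := strip_move hU hN hg w
  obtain ⟨w', v', hl, hr0, hr1, hsm⟩ := depth h hok (η := τ0 / 3) (by positivity)
  have hlU := Uu_leaf h Sy.Q (Sy.P :: (w' ++ w))
  have hlS := Ss_leaf h Sy.P (v ++ v')
  have hd := DD_small h hl hlU hlS (fun x => (Uu_P_lt h _ x).le)
    (fun x => ((Uu_mid_lt h _ x).trans (Uu_lt_Q h _ x)).le)
    (fun y => le_rfl) (fun y => (Ss_PQ_lt h _ y).le)
  obtain ⟨g', hg', hV, hF, hD⟩ :=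
    hmove (DD g (Uu g Sy.Q (Sy.P :: (w' ++ w))) (Ss g Sy.P (v ++ v'))) (by linarith)
  have h' := hN g' hg'
  refine ⟨g', hg', hV, hF, w', v', ?_⟩
  have hrr := rr_congr h hV
  have h0 : DD g' (Uu g' Sy.Q (Sy.P :: (w' ++ w))) (Ss g' Sy.P (v ++ v')) = 0 := by
    rw [Uu_congr h hV, Ss_congr h hV]
    rw [hD _ _ hlU hlS (fun x => (Uu_between h Sy.Q (Sy.P :: w') w x).1)
      (fun x => (Uu_between h Sy.Q (Sy.P :: w') w x).2)]
    ring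
  have hr0' : 1 / 10 ≤ rr g' (w' ++ w) (v ++ v') := by rw [hrr]; exact hr0
  have hr1' : rr g' (w' ++ w) (v ++ v') ≤ 10 := by rw [hrr]; exact hr1
  obtain ⟨l1, l2⟩ := both_linked h' (by linarith) h0
  exact ⟨⟨l1, rr_cons h' hr0' hr1' Sy.P⟩, ⟨l2, rr_cons h' hr0' hr1' Sy.Q⟩⟩

/-- Proof. `DD_attained_mid` and `hh_le_DD`, `hh g f s x = (g (x, f x)).1 - s (g (x, f x)).2`. -/
theorem contact {g : Pt → Pt} (h : Near g) {f s : ℝ → ℝ} (hf : IsLeaf f) (hs : IsLeaf s)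
    (h0 : DD g f s = 0) : ∃ x, |x - xc| < u0 / 2 ∧ (g (x, f x)).1 = s (g (x, f x)).2 ∧
      ∀ x' ∈ JJ, (g (x', f x')).1 ≤ s (g (x', f x')).2 := by
  obtain ⟨x, hx, e⟩ := DD_attained_mid h hf hs
  rw [h0] at e
  refine ⟨x, hx, ?_, ?_⟩
  · unfold hh at e
    linarith
  · intro x' hx'
    have h1 := hh_le_DD h hf hs hx'
    rw [h0] at h1
    unfold hh at h1
    linarith

end Pool.Agent.Lib.H37N
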