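import Pool.Agent.Lib.H37N.A125
import Pool.Agent.Lib.H37N.B15
import Pool.Agent.Lib.H37N.B16

/-!
# H37N C34 (size M): the stable side of the first tangency
-/

open Set Filter Topology
open scoped ContDiff

namespace Pool.Agent.Lib.H37N

/-- Proof. `w0 = (Ss g P v y, y)`. `forw_orbit h P v`: all `g^[n] w0 ∈ interior (VV (v.getD n P)) ⊆ VO`, `g^[n] w0 → fixP g P = κ_P 0`
(`LinChart.fix`, `fixP_spec`). `LinChart.fwd` for `n ↦ g^[n] w0`: for large `n`, `g^[n] w0 = κ_P (x, 0)`, `|x| < 1`; fix such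
`l ≥ v.length` and `a = x`. Last claim: for `w` near `w0`, `g^[i] w ∈ interior (VV (v.getD i P))` for `i < l` and
`g^[l] w ∈ κ_P '' Bx` (finitely many open conditions, `g^[i]` is continuous at `w0` for `i ≤ l`, `Near.iter`). If
`(c_P (g^[l] w)).2 = 0` then `g^[l] w = κ_P (x', 0)` with `|x'| < 2` (`LinChart.right`), so `g^[l+n] w = κ_P (lam^n x', 0) ∈ interior (VV P)`
(`LinChart.iter`, `iter_mem`), and for `n ≥ l ≥ v.length` the letter `v.getD n P` is `P`. `forw_char`. -/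
theorem st_side {g : Pt → Pt} (h : Near g) {F : Fr} (hF : IsFr g F) (v : List Sy) {y : ℝ}
    (hy : y ∈ Ioo (-del) (1 + del)) : ∃ (a : ℝ) (l : ℕ), |a| < 1 ∧
      (∀ i ≤ l, g^[i] (Ss g Sy.P v y, y) ∈ VO) ∧ g^[l] (Ss g Sy.P v y, y) = F.κ Sy.P (a, 0) ∧
      ∀ᶠ w in 𝓝 ((Ss g Sy.P v y, y) : Pt), (F.c Sy.P (g^[l] w)).2 = 0 → w.1 = Ss g Sy.P v w.2 := by
  have hch := hF.chart Sy.P
  have h0Bx : (0 : Pt) ∈ Bx := b10_mem_Bx.2 ⟨by norm_num, by norm_num⟩
  have hκ0 : F.κ Sy.P 0 ∈ interior (VV Sy.P) := hch.sub (mem_image_of_mem _ h0Bx)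
  have hfix : F.κ Sy.P 0 = fixP g Sy.P :=
    (fixP_spec h Sy.P).2.2 _ (interior_subset hκ0) hch.fix
  have hyI : y ∈ II := ⟨hy.1.le, hy.2.le⟩
  obtain ⟨-, hint, hlim⟩ := forw_orbit h Sy.P v hyI
  have hint := hint hy
  set w0 : Pt := (Ss g Sy.P v y, y) with hw0
  rw [← hfix] at hlim
  have hev := hch.fwd (w := fun n => g^[n] w0)
    (fun n => (Function.iterate_succ_apply' g n w0).symm) hlim
  obtain ⟨l, ⟨a, ha, hla⟩, hl⟩ := (hev.and (eventually_ge_atTop v.length)).exists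
  have hVO : ∀ n, g^[n] w0 ∈ VO := by
    intro n
    have h1 := hint n
    cases h2 : v.getD n Sy.P with
    | P => rw [h2] at h1; exact Or.inl h1
    | Q => rw [h2] at h1; exact Or.inr h1
  have hget : ∀ n, l ≤ n → v.getD n Sy.P = Sy.P := by
    intro n hn
    rw [List.getD_eq_getElem?_getD, List.getElem?_eq_none (hl.trans hn)]
    rfl
  have hcont : ∀ n, ContinuousAt (g^[n]) w0 := fun n =>
    (Near.iter h n (fun j _ => hVO j)).self_of_nhds.1.continuousAt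
  refine ⟨a, l, ha, fun i _ => hVO i, hla, ?_⟩
  have hev1 : ∀ᶠ w in 𝓝 w0, ∀ i ∈ Finset.range l, g^[i] w ∈ interior (VV (v.getD i Sy.P)) :=
    (eventually_all_finset (Finset.range l)).2 fun i _ =>
      (hcont i).eventually_mem (isOpen_interior.mem_nhds (hint i))
  have haBx : ((a, 0) : Pt) ∈ Bx := b10_mem_Bx.2 ⟨by linarith, by norm_num⟩
  have hev2 : ∀ᶠ w in 𝓝 w0, g^[l] w ∈ F.κ Sy.P '' Bx :=
    (hcont l).eventually_mem (hch.isOpen.mem_nhds (by
      have h3 : g^[l] w0 = F.κ Sy.P (a, 0) := hla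
      rw [h3]
      exact mem_image_of_mem _ haBx))
  filter_upwards [hev1, hev2] with w hw1 hw2 hc
  obtain ⟨h4, h5⟩ := hch.right hw2
  have h6 : F.c Sy.P (g^[l] w) = ((F.c Sy.P (g^[l] w)).1, 0) := Prod.ext rfl hc
  have h7 := (b10_mem_Bx.1 (show ((F.c Sy.P (g^[l] w)).1, (F.c Sy.P (g^[l] w)).2) ∈ Bx from h5)).1
  refine forw_char h Sy.P v fun n => ?_
  rcases lt_or_ge n l with hn | hn
  · exact interior_subset (hw1 n (Finset.mem_range.2 hn))
  · obtain ⟨m, rfl⟩ := Nat.exists_eq_add_of_le' hn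
    rw [hget _ hn, Function.iterate_add_apply, ← h4, h6]
    refine interior_subset (hch.iter_mem m h7 ?_ m le_rfl)
    rw [mul_zero, abs_zero]
    norm_num

end Pool.Agent.Lib.H37N
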