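import Pool.Agent.Lib.H37N.C01
import Pool.Agent.Lib.H37N.C31
import Pool.Agent.Lib.H37N.C33
import Pool.Agent.Lib.H37N.C34
import Pool.Agent.Lib.H37N.C35
import Pool.Agent.Lib.H37N.B19

/-!
# H37N C37: the first tangency (C.3)
-/

open Set Filter Topology Asymptotics
open scoped ContDiff

namespace Pool.Agent.Lib.H37N

/-- a tangency datum of order one from a zero of `DD` -/
theorem tangency_of_zero {g : Pt → Pt} (h : Near g) {F : Fr} (hF : IsFr g F) {u w v : List Sy}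
    (h0 : DD g (Uu g Sy.Q (u ++ w)) (Ss g Sy.P v) = 0) :
    ∃ (b a : ℝ) (k l : ℕ), TD g F (Zs g w) 1 b a k l := by
  set f := Uu g Sy.Q (u ++ w) with hf
  set s := Ss g Sy.P v with hs
  have hfl : IsLeaf f := Uu_leaf h _ _
  have hsl : IsLeaf s := Ss_leaf h _ _
  obtain ⟨x, hx, hc, hle⟩ := contact h hfl hsl h0
  have hu0 : (0 : ℝ) < u0 := by norm_num [u0]
  have hxI : x ∈ Ioo (xc - u0) (xc + u0) := by
    rw [abs_lt] at hx
    constructor <;> linarith [hx.1, hx.2]
  have hzZ : (x, f x) ∈ Zs g w := Uu_mem_Zs h Sy.Q u w hxI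
  have hzF : (x, f x) ∈ interior FF := Zs_sub_FF h w hzZ
  have hxII : x ∈ II := by
    have h1 := hxI.1
    have h2 := hxI.2
    simp only [xc, u0] at h1 h2
    constructor <;> norm_num [del] <;> linarith
  obtain ⟨b, k, hb0, hb1, hk, hpath, hgr⟩ := unst_side h hF (u ++ w) hxII hzF
  have hFimg := fold_image h (interior_subset hzF)
  set y := (g (x, f x)).2 with hy
  have hyI : y ∈ Ioo (-del) (1 + del) := by
    have := hFimg.2
    constructor <;> norm_num [del] <;> linarith [this.1, this.2]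
  have hw0 : g (x, f x) = (s y, y) := Prod.ext hc rfl
  obtain ⟨a, l, ha, hpl, hal, hzero⟩ := st_side h hF v hyI
  rw [← hs] at hpl hal hzero
  have hchQ := hF.chart Sy.Q
  have hchP := hF.chart Sy.P
  -- continuity data
  have hitl : ∀ᶠ p in 𝓝 ((s y, y) : Pt), ContDiffAt ℝ ∞ (g^[l]) p := by
    filter_upwards [h.iter l (z := (s y, y)) (fun j hj => hpl j hj.le)] with p hp using hp.1
  have hψ : ∀ᶠ p in 𝓝 ((s y, y) : Pt), ContDiffAt ℝ ∞ (fun q => (F.c Sy.P (g^[l] q)).2) p := by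
    filter_upwards [hitl] with p hp
    exact (hchP.smooth_c.contDiffAt.comp p hp).snd
  have hsign := sign_side hsl.continuous (ψ := fun q => (F.c Sy.P (g^[l] q)).2) (w0 := (s y, y)) rfl
    (by filter_upwards [hψ] with p hp using hp.continuousAt) hzero
  -- the curve
  have hκc : ContDiff ℝ ∞ (fun t : ℝ => F.κ Sy.Q (0, b + t)) :=
    hchQ.smooth.comp (contDiff_const.prodMk (contDiff_const.add contDiff_id))
  have hκ0 : F.κ Sy.Q (0, b + 0) = F.κ Sy.Q (0, b) := by rw [add_zero]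
  have hitk : ∀ᶠ t in 𝓝 (0 : ℝ), ContDiffAt ℝ ∞ (g^[k]) (F.κ Sy.Q (0, b + t)) := by
    have h1 := h.iter k (z := F.κ Sy.Q (0, b)) hpath
    have h2 : Tendsto (fun t : ℝ => F.κ Sy.Q (0, b + t)) (𝓝 0) (𝓝 (F.κ Sy.Q (0, b))) := by
      have := hκc.continuous.tendsto 0
      rwa [hκ0] at this
    filter_upwards [h2.eventually h1] with t ht using ht.1
  set γ : ℝ → Pt := fun t => g^[k] (F.κ Sy.Q (0, b + t)) with hγ
  have hγs : ∀ᶠ t in 𝓝 (0 : ℝ), ContDiffAt ℝ ∞ γ t := by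
    filter_upwards [hitk] with t ht
    exact ht.comp t hκc.contDiffAt
  have hγ0 : γ 0 = (x, f x) := by rw [hγ]; simp only [add_zero]; exact hk
  have hγc : Tendsto γ (𝓝 0) (𝓝 (x, f x)) := by
    have := hγs.self_of_nhds.continuousAt.tendsto
    rwa [hγ0] at this
  have hzOm : ((x, f x) : Pt) ∈ Om := Or.inr hzF
  have hgs : ∀ᶠ t in 𝓝 (0 : ℝ), ContDiffAt ℝ ∞ g (γ t) := hγc.eventually (h.contDiffAt_Om hzOm)
  have hgγs : ∀ᶠ t in 𝓝 (0 : ℝ), ContDiffAt ℝ ∞ (fun t => g (γ t)) t := by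
    filter_upwards [hgs, hγs] with t h1 h2 using h1.comp t h2
  have hgγc : Tendsto (fun t => g (γ t)) (𝓝 0) (𝓝 ((s y, y) : Pt)) := by
    have := hgγs.self_of_nhds.continuousAt.tendsto
    rwa [hγ0, hw0] at this
  have hφs : ∀ᶠ t in 𝓝 (0 : ℝ), ContDiffAt ℝ ∞ (fun t => (F.c Sy.P (g^[l] (g (γ t)))).2) t := by
    filter_upwards [hgγc.eventually hψ, hgγs] with t h1 h2
    exact h1.comp (f := fun t => g (γ t)) t h2
  have hφ0 : (F.c Sy.P (g^[l] (g (γ 0)))).2 = 0 := by
    rw [hγ0, hw0, hal, hchP.left]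
    refine ⟨?_, ?_⟩
    · rw [abs_lt] at ha
      constructor <;> simp only <;> linarith [ha.1, ha.2]
    · constructor <;> norm_num
  -- position of the curve
  have hside : ∀ᶠ t in 𝓝 (0 : ℝ), (g (γ t)).1 ≤ s (g (γ t)).2 := by
    have hFFn : ∀ᶠ t in 𝓝 (0 : ℝ), γ t ∈ interior FF :=
      hγc.eventually (isOpen_interior.mem_nhds hzF)
    filter_upwards [hFFn, hgr] with t h1 h2
    have h3 : (γ t).1 ∈ JJ := (interior_subset h1).1
    have h4 := hle _ h3
    have h5 : (((γ t).1, f (γ t).1) : Pt) = γ t := Prod.ext rfl h2.symm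
    rwa [h5] at h4
  have hφ := order_two hφs hφ0 (by
    rcases hsign with hsn | hsn
    · left
      filter_upwards [hgγc.eventually hsn, hside] with t h1 h2 using h1 h2
    · right
      filter_upwards [hgγc.eventually hsn, hside] with t h1 h2 using h1 h2)
  have hIn : ∀ i, InM g F b i 0 = g^[i] (F.κ Sy.Q (0, b)) := by
    intro i
    simp [InM]
  refine ⟨b, a, k, l, ⟨Zs_open h w, Zs_sub_FF h w, hb0, hb1, ha, ?_, ?_, ?_, ?_, ?_, ?_⟩⟩
  · intro i hi
    rw [hIn]
    rcases hi.lt_or_eq with hi' | rfl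
    · exact Or.inl (hpath i hi')
    · rw [hk]; exact Or.inr hzZ
  · rw [hIn, hk]; exact hzZ
  · intro i hi heq
    rw [hIn, hIn, hk] at heq
    have h1 := hpath i hi
    rw [heq] at h1
    exact (Set.disjoint_left.mp VV_FF_disjoint)
      (union_subset_union interior_subset interior_subset h1) (interior_subset hzF)
  · intro i hi
    rw [hIn, hk, hw0]; exact hpl i hi
  · rw [hIn, hk, hw0]; exact hal
  · have h1 : (fun t : ℝ => (TT g F b k l (0, t)).2) = fun t => (F.c Sy.P (g^[l] (g (γ t)))).2 := by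
      funext t
      simp [TT, PlM, InM, hγ]
    rw [h1]
    exact hφ

/-- C.3 -/
theorem first_tangency {R : ℕ} {U : Set (Pt → Pt)} (hU : PertOpen R U) (hN : ∀ g ∈ U, Near g)
    {g : Pt → Pt} (hg : g ∈ U) {F : Fr} (hF : IsFr g F) {w v : List Sy} (hok : Ok g w v) :
    ∃ g' ∈ U, EqOff (Zs g w) g g' ∧ ∃ (b a : ℝ) (k l : ℕ), TD g' F (Zs g w) 1 b a k l := by
  obtain ⟨g', hg', hV, hFF, w', v', hD⟩ := zero_pair hU hN hg hok
  have hFr : IsFr g' F := hF.congr fun z hz => hV z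
    (union_subset_union interior_subset interior_subset hz)
  refine ⟨g', hg', ?_, ?_⟩
  · intro z hz hzZ
    rcases hz with hz | hz
    · exact hV z hz
    · exact hFF z hz hzZ
  · have h1 := tangency_of_zero (hN g' hg') hFr hD
    rwa [Zs_congr (hN g hg) hV] at h1

end Pool.Agent.Lib.H37N
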