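import Mathlib

/-!
# H37N: definitions (constants, near maps, small perturbations, local spots)
-/

open Set Filter Topology
open scoped ContDiff

namespace Pool.Agent.Lib.H37N

/-- the plane, with the sup norm -/
abbrev Pt := ℝ × ℝ

/-- the two symbols -/
inductive Sy
  | P
  | Q
  deriving DecidableEq

noncomputable section

def gam : ℝ := 1 / 1000
def del : ℝ := 1 / 100000
/-- widths of the vertical strips -/
def pw : Sy → ℝ
  | Sy.P => 4 / 5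
  | Sy.Q => 199 / 1000
/-- heights of the horizontal strips -/
def qw : Sy → ℝ
  | Sy.P => 1 / 2
  | Sy.Q => 499 / 1000
/-- left ends of the vertical strips -/
def al : Sy → ℝ
  | Sy.P => 0
  | Sy.Q => 801 / 1000
/-- lower ends of the horizontal strips -/
def be : Sy → ℝ
  | Sy.P => 0
  | Sy.Q => 501 / 1000
/-- centre of the gap of the vertical strips -/
def xc : ℝ := 8005 / 10000
/-- centre of the gap of the horizontal strips -/
def yc : ℝ := 5005 / 10000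
def u0 : ℝ := 1 / 4000
def cc : ℝ := 1 / 2
def dd : ℝ := 2500000
def e0 : ℝ := 1 / 10 ^ 12

/-- the square `N` -/
def NN : Set Pt := Icc (-del) (1 + del) ×ˢ Icc (-del) (1 + del)

/-- the vertical strips -/
def VV (i : Sy) : Set Pt := Icc (al i - del) (al i + pw i + del) ×ˢ Icc (-del) (1 + del)

/-- the fold region -/
def FF : Set Pt := Icc (xc - u0) (xc + u0) ×ˢ Icc (-del) (1 + del)

/-- the open region in which the dynamics takes place -/
def Om : Set Pt := interior (VV Sy.P) ∪ interior (VV Sy.Q) ∪ interior FF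

/-- the affine models -/
def Aff (i : Sy) (z : Pt) : Pt := ((z.1 - al i) / pw i, be i + qw i * z.2)

/-- the model of the fold -/
def Fold (z : Pt) : Pt := (1 / 2 + cc * (z.2 - 1 / 2) - dd * (z.1 - xc) ^ 2, yc - (z.1 - xc))

/-- `g` is close to the model -/
structure Near (g : Pt → Pt) : Prop where
  smooth : ∃ O : Set Pt, IsOpen O ∧ VV Sy.P ∪ VV Sy.Q ∪ FF ⊆ O ∧ ContDiffOn ℝ ∞ g O ∧ InjOn g O ∧
    ∀ z ∈ O, 0 < (fderiv ℝ g z (1, 0)).1 * (fderiv ℝ g z (0, 1)).2 -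
      (fderiv ℝ g z (1, 0)).2 * (fderiv ℝ g z (0, 1)).1
  close0 : ∀ i, ∀ z ∈ VV i, |(g z).1 - (Aff i z).1| ≤ e0 ∧ |(g z).2 - (Aff i z).2| ≤ e0
  close1 : ∀ i, ∀ z ∈ VV i, |(fderiv ℝ g z (1, 0)).1 - 1 / pw i| ≤ e0 ∧
    |(fderiv ℝ g z (1, 0)).2| ≤ e0 ∧ |(fderiv ℝ g z (0, 1)).1| ≤ e0 ∧
    |(fderiv ℝ g z (0, 1)).2 - qw i| ≤ e0
  lip : ∀ i, ∀ z ∈ VV i, ∀ z' ∈ VV i, ‖fderiv ℝ g z - fderiv ℝ g z'‖ ≤ e0 * ‖z - z'‖
  fold0 : ∀ z ∈ FF, |(g z).1 - (Fold z).1| ≤ e0 ∧ |(g z).2 - (Fold z).2| ≤ e0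
  fold1 : ∀ z ∈ FF, |(fderiv ℝ g z (0, 1)).1 - cc| ≤ e0 ∧ |(fderiv ℝ g z (0, 1)).2| ≤ e0

/-- the box in which perturbations are supported -/
def K0 : Set Pt := Icc (-3) 4 ×ˢ Icc (-3) 4

/-- small perturbations of the identity -/
structure Small (R : ℕ) (ε : ℝ) (ψ : Pt → Pt) : Prop where
  smooth : ContDiff ℝ ∞ ψ
  supp : ∀ z, z ∉ K0 → ψ z = z
  bound : ∀ j ≤ R, ∀ z, ‖iteratedFDeriv ℝ j (fun z => ψ z - z) z‖ ≤ ε

/-- a set of maps which is open for perturbations (after the map) that are small in `C^R`;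
`R` is the same for all elements of `U` -/
def PertOpen (R : ℕ) (U : Set (Pt → Pt)) : Prop :=
  ∀ g ∈ U, ∃ ε > (0 : ℝ), ∀ ψ, Small R ε ψ → ψ ∘ g ∈ U

/-- a periodic spot in the region `Om` -/
def LocalSpot (g : Pt → Pt) : Prop :=
  ∃ K : ℕ, 0 < K ∧ ∃ W : Set Pt, IsOpen W ∧ W.Nonempty ∧
    ∀ v ∈ W, (∀ i < K, g^[i] v ∈ Om) ∧ g^[K] v = v

end

end Pool.Agent.Lib.H37N
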