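import Pool.Agent.Lib.H37N.IPar
import Pool.Agent.Lib.H37N.I1b

/-! # H37N, chunk I1c (S/M): the parameters of the passes tend to 0 -/

open Set Filter Topology
open scoped ContDiff

namespace Pool.Agent.Lib.H37N

/-- s > 0.  (`Real.rpow_pos_of_pos`, positivity) -/
theorem parOf_pos (m : ℕ) {dS mP mQ : ℝ} (sS B0 lP lQ : ℝ) (hd : 0 < dS) (hP : 0 < mP) (hQ : 0 < mQ) (n ν : ℕ) :
    0 < (parOf m dS sS B0 lP mP lQ mQ n ν).1 := by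
  show 0 < (dS * mP ^ n * mQ ^ ν)⁻¹ ^ (1 / (m : ℝ))
  apply Real.rpow_pos_of_pos
  positivity

/-- s^m = E^(-1).  (`Real.rpow_natCast`, `Real.rpow_mul`, m ≠ 0) -/
theorem parOf_pow {m : ℕ} (hm : 1 ≤ m) {dS mP mQ : ℝ} (sS B0 lP lQ : ℝ) (hd : 0 < dS) (hP : 0 < mP) (hQ : 0 < mQ) (n ν : ℕ) :
    (parOf m dS sS B0 lP mP lQ mQ n ν).1 ^ m = (dS * mP ^ n * mQ ^ ν)⁻¹ := by
  show ((dS * mP ^ n * mQ ^ ν)⁻¹ ^ (1 / (m : ℝ))) ^ m = (dS * mP ^ n * mQ ^ ν)⁻¹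
  have h1 : 0 ≤ (dS * mP ^ n * mQ ^ ν)⁻¹ := by positivity
  rw [one_div]
  exact Real.rpow_inv_natCast_pow h1 (by omega)

/-- PROOF. `density_seq`.  The limits of the coordinates of `parOf`: E = dS mP^n mQ^ν → ∞ (mP, mQ > 1, n, ν → ∞), so E⁻¹ → 0 and E⁻¹ ^ (1/m) → 0 (`Real.tendsto_rpow...`:
x ↦ x ^ (1/m) is continuous at 0 for 1/m > 0, `Real.continuousAt_rpow_const`, `Real.zero_rpow`); lP^n → 0; (dS mQ^ν)⁻¹ → 0; lQ^ν sS → 0; mP^n lQ^ν → 0 and B - B0 → 0 from `density_seq`;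
(mP^n)⁻¹ → 0.  (`tendsto_pow_atTop_atTop_of_one_lt`, `tendsto_pow_atTop_nhds_zero_of_lt_one`, composed with n, ν; `Filter.Tendsto.prodMk_nhds`.) -/
theorem parOf_tendsto {m : ℕ} (hm : 1 ≤ m) {lP mP lQ mQ : ℝ} (h : Rates lP mP lQ mQ) {dS B0 : ℝ} (sS : ℝ) (hd : 0 < dS)
    (hB : 0 < B0) :
    ∃ n ν : ℕ → ℕ, Tendsto n atTop atTop ∧ Tendsto ν atTop atTop ∧
      Tendsto (fun j => parOf m dS sS B0 lP mP lQ mQ (n j) (ν j)) atTop (𝓝 0) ∧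
      Tendsto (fun j => (mP ^ n j)⁻¹) atTop (𝓝 0) := by
  obtain ⟨n, ν, hn, hν, hB1, h4⟩ := density_seq h hd hB
  have hmPn : Tendsto (fun j => mP ^ n j) atTop atTop :=
    (tendsto_pow_atTop_atTop_of_one_lt h.mP_gt).comp hn
  have hmQn : Tendsto (fun j => mQ ^ ν j) atTop atTop :=
    (tendsto_pow_atTop_atTop_of_one_lt h.mQ_gt).comp hν
  have hlPn : Tendsto (fun j => lP ^ n j) atTop (𝓝 0) :=
    (tendsto_pow_atTop_nhds_zero_of_lt_one h.lP_pos.le h.lP_lt).comp hn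
  have hlQn : Tendsto (fun j => lQ ^ ν j) atTop (𝓝 0) :=
    (tendsto_pow_atTop_nhds_zero_of_lt_one h.lQ_pos.le h.lQ_lt).comp hν
  have hE2 : Tendsto (fun j => dS * mQ ^ ν j) atTop atTop := hmQn.const_mul_atTop hd
  have hE : Tendsto (fun j => dS * mP ^ n j * mQ ^ ν j) atTop atTop :=
    (hmPn.const_mul_atTop hd).atTop_mul_atTop₀ hmQn
  have hEi : Tendsto (fun j => (dS * mP ^ n j * mQ ^ ν j)⁻¹) atTop (𝓝 0) :=
    tendsto_inv_atTop_zero.comp hE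
  have hE2i : Tendsto (fun j => (dS * mQ ^ ν j)⁻¹) atTop (𝓝 0) :=
    tendsto_inv_atTop_zero.comp hE2
  have hm0 : 0 < 1 / (m : ℝ) := by
    have : (0 : ℝ) < m := by exact_mod_cast hm
    positivity
  have hr : Tendsto (fun x : ℝ => x ^ (1 / (m : ℝ))) (𝓝 0) (𝓝 0) := by
    have h5 : ContinuousAt (fun x : ℝ => x ^ (1 / (m : ℝ))) 0 :=
      Real.continuousAt_rpow_const 0 _ (Or.inr hm0.le)
    have h6 := h5.tendsto
    simp only [Real.zero_rpow hm0.ne'] at h6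
    exact h6
  have hs : Tendsto (fun j => (dS * mP ^ n j * mQ ^ ν j)⁻¹ ^ (1 / (m : ℝ))) atTop (𝓝 0) :=
    hr.comp hEi
  have hx : Tendsto (fun j => lQ ^ ν j * sS) atTop (𝓝 0) := by
    have := hlQn.mul_const sS
    rwa [zero_mul] at this
  have hb : Tendsto (fun j => dS * (lP * mP) ^ n j * (lQ * mQ) ^ ν j - B0) atTop (𝓝 0) := by
    have := hB1.sub_const B0
    rwa [sub_self] at this
  refine ⟨n, ν, hn, hν, ?_, tendsto_inv_atTop_zero.comp hmPn⟩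
  exact hs.prodMk_nhds (hlPn.prodMk_nhds (hE2i.prodMk_nhds (hx.prodMk_nhds (h4.prodMk_nhds hb))))

end Pool.Agent.Lib.H37N
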