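import Pool.Agent.Lib.H37N.Defs
import Pool.Agent.Lib.H37N.T10b

/-! # H37N, chunk I2b (S): the function U₀ -/

open Set Filter Topology
open scoped ContDiff

namespace Pool.Agent.Lib.H37N

/-- PROOF. `inverse_param` (P = Pt, p₀ = 0, t₀ = 0) for F(e,U) = (U+b) W(e.1 a, e.2 (U+b)), smooth, F(0,0) = b, deriv (F(0,·)) = 1 (F(0,U) = (U+b) W 0 = U+b): θ smooth with θ(0,b) = 0 and
F(r.1, θ r) = r.2 for r near (0,b).  U0 e = θ(e,b). -/
theorem exists_U0 {W : Pt → ℝ} (hW : ContDiff ℝ ∞ W) (W0 : W 0 = 1) (a b : ℝ) :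
    ∃ U0 : Pt → ℝ, ContDiff ℝ ∞ U0 ∧ U0 0 = 0 ∧
      ∀ᶠ e : Pt in 𝓝 0, (U0 e + b) * W (e.1 * a, e.2 * (U0 e + b)) = b := by
  set F : Pt × ℝ → ℝ := fun q => (q.2 + b) * W (q.1.1 * a, q.1.2 * (q.2 + b)) with hF
  have hFs : ContDiff ℝ ∞ F := by
    rw [hF]
    exact (contDiff_snd.add contDiff_const).mul (hW.comp
      (((contDiff_fst.comp contDiff_fst).mul contDiff_const).prodMk
        ((contDiff_snd.comp contDiff_fst).mul (contDiff_snd.add contDiff_const))))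
  have hF0 : ∀ t : ℝ, F ((0 : Pt), t) = t + b := by
    intro t
    have h1 : (((0 : Pt).1 * a, (0 : Pt).2 * (t + b)) : ℝ × ℝ) = 0 := by
      simp
    show (t + b) * W ((0 : Pt).1 * a, (0 : Pt).2 * (t + b)) = t + b
    rw [h1, W0, mul_one]
  have hd : deriv (fun t => F ((0 : Pt), t)) 0 ≠ 0 := by
    have h2 : (fun t : ℝ => F ((0 : Pt), t)) = fun t => t + b := funext hF0
    rw [h2]
    have h3 : deriv (fun t : ℝ => t + b) 0 = 1 := by
      simp
    rw [h3]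
    exact one_ne_zero
  obtain ⟨θ, hθ, hθ0, -, hθ2⟩ := inverse_param (P := Pt) (F := F) (p₀ := 0) (t₀ := 0)
    (Eventually.of_forall fun q => hFs.contDiffAt) hd
  rw [hF0, zero_add] at hθ0 hθ2
  refine ⟨fun e => θ (e, b), hθ.comp (contDiff_id.prodMk contDiff_const), hθ0, ?_⟩
  have h4 : Tendsto (fun e : Pt => (e, b)) (𝓝 0) (𝓝 ((0 : Pt), b)) := by
    have h5 : ContinuousAt (fun e : Pt => (e, b)) 0 := by fun_prop
    exact h5.tendsto
  exact h4.eventually hθ2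

end Pool.Agent.Lib.H37N
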