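import Pool.Agent.Lib.H37N.Defs
import Pool.Agent.Lib.H37N.T2
import Pool.Agent.Lib.H37N.T10b

/-! # H37N, chunk I2c (M): the functions N and Mh -/

open Set Filter Topology
open scoped ContDiff

namespace Pool.Agent.Lib.H37N

/-- I.2: N₂ and M̂₂.

PROOF. `inverse_param` for F(x₀,t) = XX(x₀,t) at (0,0): θ smooth, θ(x₀, XX(x₀,t)) = t for (x₀,t) near (0,0).
N(x₀,X) = YY(x₀, θ(x₀,X)) - YY(0, θ(x₀,X)); N(0,X) = 0.
M(x₀,t,z) = YY(x₀+z,t) - N(x₀, XX(x₀+z,t)), smooth.  `hadamard1` with parameter (x₀,t) and variable z: M(x₀,t,z) = M(x₀,t,0) + z Mh(x₀,t,z), Mh smooth, Mh(x₀,t,0) = ∂_zM(x₀,t,0).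
M(x₀,t,0) = YY(x₀,t) - YY(x₀,θ) + YY(0,θ) with θ = θ(x₀,XX(x₀,t)) = t for (x₀,t) near 0, so it is YY(0,t).
Mh(0,0,0) = d/dz [YY(z,0) - N(0,XX(z,0))] = d/dz YY(z,0) = gm. -/
theorem exists_NM {XX YY : Pt → ℝ} (hX : ContDiff ℝ ∞ XX) (hY : ContDiff ℝ ∞ YY) {al gm : ℝ}
    (hXt : HasDerivAt (fun t => XX (0, t)) al 0) (hal : al ≠ 0) (hYx : HasDerivAt (fun x => YY (x, 0)) gm 0) :
    ∃ (N : Pt → ℝ) (Mh : ℝ × ℝ × ℝ → ℝ), ContDiff ℝ ∞ N ∧ (∀ X, N (0, X) = 0) ∧ ContDiff ℝ ∞ Mh ∧ Mh 0 = gm ∧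
      ∀ᶠ r : ℝ × ℝ × ℝ in 𝓝 0, YY (r.1 + r.2.2, r.2.1) - N (r.1, XX (r.1 + r.2.2, r.2.1)) = YY (0, r.2.1) + r.2.2 * Mh r := by
  obtain ⟨θ, hθ, -, h1, -⟩ := inverse_param (P := ℝ) (F := XX) (p₀ := (0 : ℝ)) (t₀ := (0 : ℝ))
    (Eventually.of_forall fun q => hX.contDiffAt) (by rw [hXt.deriv]; exact hal)
  have hN : ContDiff ℝ ∞ (fun r : Pt => YY (r.1, θ r) - YY (0, θ r)) :=
    (hY.comp (contDiff_fst.prodMk hθ)).sub (hY.comp (contDiff_const.prodMk hθ))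
  have hM : ContDiff ℝ ∞ (fun q : (ℝ × ℝ) × ℝ => YY (q.1.1 + q.2, q.1.2) -
      (fun r : Pt => YY (r.1, θ r) - YY (0, θ r)) (q.1.1, XX (q.1.1 + q.2, q.1.2))) := by
    have e1 : ContDiff ℝ ∞ (fun q : (ℝ × ℝ) × ℝ => ((q.1.1 + q.2, q.1.2) : Pt)) :=
      ((contDiff_fst.comp contDiff_fst).add contDiff_snd).prodMk (contDiff_snd.comp contDiff_fst)
    exact (hY.comp e1).sub (hN.comp ((contDiff_fst.comp contDiff_fst).prodMk (hX.comp e1)))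
  obtain ⟨G, hG, hG1, hG2⟩ := hadamard1 hM
  refine ⟨fun r : Pt => YY (r.1, θ r) - YY (0, θ r), fun r => G ((r.1, r.2.1), r.2.2), hN, ?_, ?_,
    ?_, ?_⟩
  · intro X
    simp
  · exact hG.comp ((contDiff_fst.prodMk (contDiff_fst.comp contDiff_snd)).prodMk
      (contDiff_snd.comp contDiff_snd))
  · have h2 := hG2 (0, 0)
    simp only [zero_add, sub_self, sub_zero] at h2
    show G ((0, 0), 0) = gm
    rw [h2]
    exact hYx.deriv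
  · have hc : Tendsto (fun r : ℝ × ℝ × ℝ => ((r.1, r.2.1) : Pt)) (𝓝 0) (𝓝 (0, 0)) := by
      have : Continuous (fun r : ℝ × ℝ × ℝ => ((r.1, r.2.1) : Pt)) := by fun_prop
      exact this.tendsto 0
    filter_upwards [hc.eventually h1] with r hr
    have h3 := hG1 (r.1, r.2.1) r.2.2
    simp only [add_zero, smul_eq_mul] at h3 hr ⊢
    rw [h3, hr]
    ring

end Pool.Agent.Lib.H37N
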