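import Pool.Agent.Lib.H37N.IPar
import Pool.Agent.Lib.H37N.I0a
import Pool.Agent.Lib.H37N.I2a
import Pool.Agent.Lib.H37N.I2b
import Pool.Agent.Lib.H37N.I2c
import Pool.Agent.Lib.H37N.I2d

/-! # H37N, chunk I2e (M): existence of the ingredients -/

open Set Filter Topology Asymptotics
open scoped ContDiff

namespace Pool.Agent.Lib.H37N

/-- smoothness of the functions `XiB`, `HB`, `RB`, `ZB`, `base` (unfold; `fun_prop` with the smoothness of the ingredients). -/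
theorem ing_smooth {m : ℕ} (I : Ing m) (hW : ContDiff ℝ ∞ I.W) (hY1 : ContDiff ℝ ∞ I.Y1) (hY2 : ContDiff ℝ ∞ I.Y2)
    (hU0 : ContDiff ℝ ∞ I.U0) (hXX : ContDiff ℝ ∞ I.XX) (hMh : ContDiff ℝ ∞ I.Mh) :
    ContDiff ℝ ∞ I.XiB ∧ ContDiff ℝ ∞ I.HB ∧ ContDiff ℝ ∞ I.RB ∧ ContDiff ℝ ∞ I.ZB ∧ ContDiff ℝ ∞ I.base := by
  have hXi : ContDiff ℝ ∞ I.XiB := by
    unfold Ing.XiB Ing.Xi
    have k1 : ContDiff ℝ ∞ fun q : Par × (ℝ × ℝ × ℝ) => I.Y1 (q.1.2.1 * q.2.1) :=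
      hY1.comp (by fun_prop)
    have k2 : ContDiff ℝ ∞ fun q : Par × (ℝ × ℝ × ℝ) =>
        I.Y2 (q.1.2.1 * q.2.1, q.1.2.2.1 * (q.2.2.1 + I.b)) := hY2.comp (by fun_prop)
    fun_prop
  refine ⟨hXi, ?_, ?_, ?_, ?_⟩
  · unfold Ing.HB Ing.H
    have k1 : ContDiff ℝ ∞ fun q : Par × (ℝ × ℝ × ℝ) =>
        I.W (q.1.2.1 * q.2.1, q.1.2.2.1 * (q.2.2.1 + I.b)) := hW.comp (by fun_prop)
    fun_prop
  · unfold Ing.RB
    have k1 : ContDiff ℝ ∞ fun q : Par × (ℝ × ℝ × ℝ) =>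
        I.Mh (q.1.2.2.2.1, q.2.2.2, q.1.1 ^ m * I.XiB q) := hMh.comp (by fun_prop)
    fun_prop
  · unfold Ing.ZB
    exact hXX.comp (by fun_prop)
  · unfold Ing.base
    have k1 : ContDiff ℝ ∞ fun p : Par => I.U0 (p.2.1, p.2.2.1) := hU0.comp (by fun_prop)
    fun_prop

/-- PROOF. `exists_passFn`, `exists_normal1` for T1, `exists_normal2` for T2 (with `hal2` ≠ 0), `exists_NM`, `exists_U0` (a = a1).  Take a preliminary I' : Ing m with these ingredients and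
DH = DR = DZ = 0; HB, RB, ZB, base do not use DH, DR, DZ.  `divdiff` with `ing_smooth` for HB, RB, ZB and base gives DH, DR, DZ (smul = mul); I = { I' with DH, DR, DZ }.
DH0: p = 0: HB(0,(X,U,η)) = (U+b) W(0,0) - b = U (W0 = 1), a linear function of (X,U,η); its derivative in direction v is v.2.1.
DZ0: ZB(0,(X,U,η)) = XX(0 + 0^m Ξ, η) = XX(0,η) (0^m = 0 for m ≥ 1); the derivative at (a, U0 0, 0) in direction v is al2 v.2.2 (`XXt`, chain rule).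
DR0: RB(0,(X,U,η)) = Ξ Mh(0,η,0) with Ξ = B0 X Y1(0) (e4 = β = 0, e1 = 0): product rule at (a,U0 0,0) in direction v: B0 Y1(0) [v.1 Mh(0) + a ∂_ηMh(0) v.2.2],
Mh 0 = gm2, el = B0 Y1(0) a ∂_ηMh(0,0,0). -/
theorem exists_ing {m : ℕ} (hm : 1 ≤ m) {S T1 T2 : Pt → Pt} {dS sS : ℝ} (hS : ∀ᶠ v in 𝓝 (0 : Pt), ContDiffAt ℝ ∞ S v)
    (hS0 : S 0 = (sS, 0)) (hdS : (fderiv ℝ S 0 (0, 1)).2 = dS) (hdS0 : dS ≠ 0)
    (hT1 : ∀ᶠ v in 𝓝 (0 : Pt), ContDiffAt ℝ ∞ T1 v) {a1 al1 ka1 : ℝ} (hT10 : T1 0 = (a1, 0))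
    (hal1 : (fderiv ℝ T1 0 (0, 1)).1 = al1)
    (hka1 : (fun t : ℝ => (T1 (0, t)).2 - ka1 * t ^ (m + 1)) =O[𝓝 0] fun t : ℝ => t ^ (m + 2))
    (hT2 : ∀ᶠ v in 𝓝 (0 : Pt), ContDiffAt ℝ ∞ T2 v) {a2 al2 gm2 ka2 : ℝ} (hT20 : T2 0 = (a2, 0))
    (hal2 : (fderiv ℝ T2 0 (0, 1)).1 = al2) (hal20 : al2 ≠ 0) (hgm2 : (fderiv ℝ T2 0 (1, 0)).2 = gm2)
    (hka2 : (fun t : ℝ => (T2 (0, t)).2 - ka2 * t ^ (m + 1)) =O[𝓝 0] fun t : ℝ => t ^ (m + 2))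
    (b B0 uS : ℝ) {G : Fin m → ℝ → ℝ} (hG : ∀ j, ContDiff ℝ ∞ (G j)) :
    ∃ (I : Ing m) (el : ℝ), I.a = a1 ∧ I.b = b ∧ I.a2 = a2 ∧ I.B0 = B0 ∧ I.uS = uS ∧ I.G = G ∧
      I.OK S T1 T2 dS sS al1 al2 ka1 ka2 gm2 el := by
  have hm0 : m ≠ 0 := by omega
  obtain ⟨Th, W, Y1, Y2, hpf⟩ := exists_passFn hS hS0 hdS hdS0
  obtain ⟨Ah, Yh, hAh, hYh, hAh0, hYh0, heqT1⟩ := exists_normal1 hT1 hT10 hal1 hka1
  obtain ⟨XX, YY, Yk, hXX, hYY, hYk, hXX0, hXXt, hYYx, hYk0, hYYt, heqT2⟩ :=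
    exists_normal2 hT2 hT20 hal2 hgm2 hka2
  obtain ⟨N, Mh, hN, hN0, hMh, hMh0, heqM⟩ := exists_NM hXX hYY hXXt hal20 hYYx
  obtain ⟨U0, hU0, hU00, heqU0⟩ := exists_U0 hpf.smooth_W hpf.W0 a1 b
  let I' : Ing m :=
    { a := a1, b := b, a2 := a2, B0 := B0, uS := uS, Th := Th, W := W, Y1 := Y1, Y2 := Y2, U0 := U0,
      Ah := Ah, Yh := Yh, XX := XX, YY := YY, Yk := Yk, N := N, Mh := Mh, G := G,
      DH := fun _ => 0, DR := fun _ => 0, DZ := fun _ => 0 }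
  obtain ⟨-, sH, sR, sZ, sb⟩ := ing_smooth I' hpf.smooth_W hpf.smooth_Y1 hpf.smooth_Y2 hU0 hXX hMh
  obtain ⟨DH, hDH, eDH, dDH⟩ := divdiff sH sb
  obtain ⟨DR, hDR, eDR, dDR⟩ := divdiff sR sb
  obtain ⟨DZ, hDZ, eDZ, dDZ⟩ := divdiff sZ sb
  obtain ⟨em, hem⟩ : ∃ em, em = deriv (fun η : ℝ => Mh (0, η, 0)) 0 := ⟨_, rfl⟩
  have hb0 : I'.base 0 = (a1, 0, 0) := by
    have h1 : U0 (0, 0) = 0 := hU00
    simp only [Ing.base, Prod.fst_zero, Prod.snd_zero, I', h1]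
  have hMη : HasDerivAt (fun η : ℝ => Mh (0, η, 0)) em 0 := by
    rw [hem]
    have : ContDiff ℝ ∞ (fun η : ℝ => Mh (0, η, 0)) := hMh.comp (by fun_prop)
    exact (this.differentiable (by simp) _).hasDerivAt
  refine ⟨{ I' with DH := DH, DR := DR, DZ := DZ }, B0 * Y1 0 * a1 * em, rfl, rfl, rfl, rfl, rfl, rfl,
    ?_⟩
  refine
    { hm := hm
      pf := hpf
      smooth_U0 := hU0
      U00 := hU00
      eqU0 := heqU0
      smooth_Ah := hAh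
      smooth_Yh := hYh
      Ah0 := hAh0
      Yh0 := hYh0
      eqT1 := heqT1
      smooth_XX := hXX
      smooth_YY := hYY
      smooth_Yk := hYk
      XX0 := hXX0
      XXt := hXXt
      Yk0 := hYk0
      eqYk := Eventually.of_forall hYYt
      eqT2 := heqT2
      smooth_N := hN
      N0 := hN0
      smooth_Mh := hMh
      Mh0 := hMh0
      eqM := heqM
      smooth_G := hG
      smooth_DH := hDH
      smooth_DR := hDR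
      smooth_DZ := hDZ
      eqDH := fun p v s => eDH p v s
      eqDR := fun p v s => eDR p v s
      eqDZ := fun p v s => eDZ p v s
      DH0 := ?_
      DR0 := ?_
      DZ0 := ?_ }
  · intro v
    show DH (0, v, 0) = v.2.1
    rw [dDH, hb0]
    have e : (fun y : ℝ × ℝ × ℝ => I'.HB (0, y)) = fun y : ℝ × ℝ × ℝ => y.2.1 := by
      funext y
      have h1 : W (0, 0) = 1 := hpf.W0
      simp only [Ing.HB, Ing.H, Prod.fst_zero, Prod.snd_zero, zero_mul, I', h1]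
      ring
    rw [e]
    have h2 : HasFDerivAt (fun y : ℝ × ℝ × ℝ => y.2.1)
        ((ContinuousLinearMap.fst ℝ ℝ ℝ).comp (ContinuousLinearMap.snd ℝ ℝ (ℝ × ℝ))) (a1, 0, 0) :=
      ((ContinuousLinearMap.fst ℝ ℝ ℝ).comp (ContinuousLinearMap.snd ℝ ℝ (ℝ × ℝ))).hasFDerivAt
    rw [h2.fderiv]
    rfl
  · intro v
    show DR (0, v, 0) = B0 * Y1 0 * gm2 * v.1 + B0 * Y1 0 * a1 * em * v.2.2
    rw [dDR, hb0]
    have e : (fun y : ℝ × ℝ × ℝ => I'.RB (0, y)) =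
        fun y : ℝ × ℝ × ℝ => B0 * Y1 0 * (y.1 * Mh (0, y.2.2, 0)) := by
      funext y
      simp only [Ing.RB, Ing.XiB, Ing.Xi, Prod.fst_zero, Prod.snd_zero, zero_mul, I', zero_pow hm0,
        add_zero]
      ring
    rw [e]
    have h1 : HasFDerivAt (fun y : ℝ × ℝ × ℝ => y.2.2)
        ((ContinuousLinearMap.snd ℝ ℝ ℝ).comp (ContinuousLinearMap.snd ℝ ℝ (ℝ × ℝ))) (a1, 0, 0) :=
      ((ContinuousLinearMap.snd ℝ ℝ ℝ).comp (ContinuousLinearMap.snd ℝ ℝ (ℝ × ℝ))).hasFDerivAt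
    have h2 : HasFDerivAt (fun y : ℝ × ℝ × ℝ => Mh (0, y.2.2, 0))
        (em • ((ContinuousLinearMap.snd ℝ ℝ ℝ).comp (ContinuousLinearMap.snd ℝ ℝ (ℝ × ℝ))))
        (a1, 0, 0) :=
      HasDerivAt.comp_hasFDerivAt (h₂ := fun η : ℝ => Mh (0, η, 0)) ((a1, 0, 0) : ℝ × ℝ × ℝ)
        (by exact hMη) h1
    have h3 : HasFDerivAt (fun y : ℝ × ℝ × ℝ => y.1) (ContinuousLinearMap.fst ℝ ℝ (ℝ × ℝ))
        (a1, 0, 0) := (ContinuousLinearMap.fst ℝ ℝ (ℝ × ℝ)).hasFDerivAt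
    have h4 : HasFDerivAt (fun y : ℝ × ℝ × ℝ => B0 * Y1 0 * (y.1 * Mh (0, y.2.2, 0))) _
        (a1, 0, 0) := (h3.mul h2).const_mul (B0 * Y1 0)
    rw [h4.fderiv]
    have h5 : Mh (0, 0, 0) = gm2 := hMh0
    simp only [ContinuousLinearMap.smul_apply, ContinuousLinearMap.add_apply,
      ContinuousLinearMap.comp_apply, ContinuousLinearMap.coe_fst', ContinuousLinearMap.coe_snd',
      smul_eq_mul, h5]
    ring
  · intro v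
    show DZ (0, v, 0) = al2 * v.2.2
    rw [dDZ, hb0]
    have e : (fun y : ℝ × ℝ × ℝ => I'.ZB (0, y)) = fun y : ℝ × ℝ × ℝ => XX (0, y.2.2) := by
      funext y
      simp only [Ing.ZB, Prod.fst_zero, Prod.snd_zero, zero_mul, I', zero_pow hm0, add_zero]
    rw [e]
    have h1 : HasFDerivAt (fun y : ℝ × ℝ × ℝ => y.2.2)
        ((ContinuousLinearMap.snd ℝ ℝ ℝ).comp (ContinuousLinearMap.snd ℝ ℝ (ℝ × ℝ))) (a1, 0, 0) :=
      ((ContinuousLinearMap.snd ℝ ℝ ℝ).comp (ContinuousLinearMap.snd ℝ ℝ (ℝ × ℝ))).hasFDerivAt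
    have h2 : HasFDerivAt (fun y : ℝ × ℝ × ℝ => XX (0, y.2.2))
        (al2 • ((ContinuousLinearMap.snd ℝ ℝ ℝ).comp (ContinuousLinearMap.snd ℝ ℝ (ℝ × ℝ))))
        (a1, 0, 0) :=
      HasDerivAt.comp_hasFDerivAt (h₂ := fun t : ℝ => XX (0, t)) ((a1, 0, 0) : ℝ × ℝ × ℝ)
        (by exact hXXt) h1
    rw [h2.fderiv]
    rfl

end Pool.Agent.Lib.H37N
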