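import Pool.Agent.Lib.H37N.IPar
import Pool.Agent.Lib.H37N.I2e

/-! # H37N, chunk I2f (S/M): the rescaled functions -/

open Set Filter Topology Asymptotics
open scoped ContDiff

namespace Pool.Agent.Lib.H37N

namespace Ing

variable {m : ℕ} {I : Ing m} {S T1 T2 : Pt → Pt} {dS sS al1 al2 ka1 ka2 gm2 el : ℝ}

/-- all rescaled functions and the families of perturbations are smooth.

PROOF. Unfold the definitions (`chi`, `V`, `V2`, `vv`, `zt`, `K`, `Ph1`, `Ph2`); `fun_prop`, `ContDiff.sum`, `ContDiff.comp` with the smoothness in `OK`; `ing_smooth`. -/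
theorem OK.smooth (h : I.OK S T1 T2 dS sS al1 al2 ka1 ka2 gm2 el) :
    ContDiff ℝ ∞ I.chi ∧ ContDiff ℝ ∞ I.V ∧ ContDiff ℝ ∞ I.V2 ∧ ContDiff ℝ ∞ I.vv ∧ ContDiff ℝ ∞ I.zt ∧
      ContDiff ℝ ∞ I.K ∧ ContDiff ℝ ∞ I.Ph1 ∧ ContDiff ℝ ∞ I.Ph2 ∧ ContDiff ℝ ∞ I.XiB ∧ ContDiff ℝ ∞ I.HB ∧
      ContDiff ℝ ∞ I.RB ∧ ContDiff ℝ ∞ I.ZB ∧ ContDiff ℝ ∞ I.base := by
  obtain ⟨sX, sH, sR, sZ, sB⟩ := ing_smooth I h.pf.smooth_W h.pf.smooth_Y1 h.pf.smooth_Y2 h.smooth_U0 h.smooth_XX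
    h.smooth_Mh
  have hAh := h.smooth_Ah
  have hYh := h.smooth_Yh
  have hYk := h.smooth_Yk
  have hN := h.smooth_N
  have hG := h.smooth_G
  have hDH := h.smooth_DH
  have hDR := h.smooth_DR
  have hDZ := h.smooth_DZ
  have hTh := h.pf.smooth_Th
  have c1 : ContDiff ℝ ∞ I.chi := by
    unfold chi
    fun_prop
  have c2 : ContDiff ℝ ∞ I.V := by
    unfold V
    refine ContDiff.add (by fun_prop) (ContDiff.sum fun j _ => ?_)
    have := hG j
    fun_prop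
  have c3 : ContDiff ℝ ∞ I.V2 := by
    unfold V2
    fun_prop
  have c4 : ContDiff ℝ ∞ I.vv := by
    unfold vv
    fun_prop
  have c5 : ContDiff ℝ ∞ I.zt := by
    unfold zt
    fun_prop
  have c6 : ContDiff ℝ ∞ I.K := by
    unfold K
    fun_prop
  have c7 : ContDiff ℝ ∞ I.Ph1 := by
    unfold Ph1
    refine ContDiff.add (by fun_prop) (ContDiff.sum fun j _ => ?_)
    fun_prop
  have c8 : ContDiff ℝ ∞ I.Ph2 := by
    unfold Ph2
    refine ContDiff.sub (by fun_prop) (ContDiff.sum fun j _ => ?_)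
    fun_prop
  exact ⟨c1, c2, c3, c4, c5, c6, c7, c8, sX, sH, sR, sZ, sB⟩

/-- the families vanish at the parameter 0 (unfold; `N0`). -/
theorem OK.Ph_zero (h : I.OK S T1 T2 dS sS al1 al2 ka1 ka2 gm2 el) (X : ℝ) : I.Ph1 (0, X) = 0 ∧ I.Ph2 (0, X) = 0 := by
  constructor
  · simp [Ph1]
  · have := h.N0 X
    simp [Ph2, this]

/-- values at p = 0: chi = al1 x, V = ka1 x^(m+1) + Σ G_j(z) (al1 x)^(j+1) =: V0, V2 = V0 (`DH0`), zt = al2 V0 (`DZ0`), K = ka2 V0^(m+1) + bt x + el V0 with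
bt = B0 Y1(0) gm2 al1 (`DR0`; Yk(0·V2) = ka2). -/
theorem OK.at_zero (h : I.OK S T1 T2 dS sS al1 al2 ka1 ka2 gm2 el) (z x : ℝ) :
    I.zt (0, z, x) = al2 * (ka1 * x ^ (m + 1) + ∑ j : Fin m, I.G j z * (al1 * x) ^ ((j : ℕ) + 1)) ∧
    I.K (0, z, x) = ka2 * (ka1 * x ^ (m + 1) + ∑ j : Fin m, I.G j z * (al1 * x) ^ ((j : ℕ) + 1)) ^ (m + 1) +
      I.B0 * I.Y1 0 * gm2 * al1 * x +
      el * (ka1 * x ^ (m + 1) + ∑ j : Fin m, I.G j z * (al1 * x) ^ ((j : ℕ) + 1)) := by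
  have hchi : I.chi (0, z, x) = al1 * x := by
    simp only [chi, Prod.fst_zero, zero_mul, h.Ah0]
    ring
  have hV : I.V (0, z, x) = ka1 * x ^ (m + 1) + ∑ j : Fin m, I.G j z * (al1 * x) ^ ((j : ℕ) + 1) := by
    simp only [V, hchi, Prod.fst_zero, zero_mul, h.Yh0]
    ring
  have hV2 : I.V2 (0, z, x) = ka1 * x ^ (m + 1) + ∑ j : Fin m, I.G j z * (al1 * x) ^ ((j : ℕ) + 1) := by
    have := h.DH0 (I.chi (0, z, x), I.V (0, z, x), 0)
    simp only at this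
    rw [hV] at this
    simp only [V2, Prod.fst_zero]
    rw [hV]
    exact this
  constructor
  · have := h.DZ0 (I.vv (0, z, x))
    simp only [zt, Prod.fst_zero]
    rw [this]
    simp only [vv, hV2]
  · have := h.DR0 (I.vv (0, z, x))
    simp only [K, Prod.fst_zero]
    rw [this]
    simp only [vv, hV2, hchi, zero_mul, h.Yk0]
    ring

/-- values at x = 0 for s ≠ 0: chi = V = 0; `eqDH` with v = 0: HB(p,base) = HB(p,base) + s DH(p,0,s), so DH(p,0,s) = 0, V2 = 0, vv = 0; in the same way DZ(p,0,s) = 0 = DR(p,0,s);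
V2^(m+1) = 0. -/
theorem OK.at_x0 (h : I.OK S T1 T2 dS sS al1 al2 ka1 ka2 gm2 el) (p : Par) (z : ℝ) (hs : p.1 ≠ 0) :
    I.chi (p, z, 0) = 0 ∧ I.V (p, z, 0) = 0 ∧ I.V2 (p, z, 0) = 0 ∧ I.zt (p, z, 0) = 0 ∧ I.K (p, z, 0) = 0 := by
  have hchi : I.chi (p, z, 0) = 0 := by simp [chi]
  have hV : I.V (p, z, 0) = 0 := by simp [V, hchi]
  have e1 : I.DH (p, 0, p.1) = 0 := by
    have := h.eqDH p 0 p.1
    rw [smul_zero, add_zero] at this
    have h2 : p.1 * I.DH (p, 0, p.1) = 0 := by linarith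
    exact (mul_eq_zero.1 h2).resolve_left hs
  have e2 : I.DR (p, 0, p.1) = 0 := by
    have := h.eqDR p 0 p.1
    rw [smul_zero, add_zero] at this
    have h2 : p.1 * I.DR (p, 0, p.1) = 0 := by linarith
    exact (mul_eq_zero.1 h2).resolve_left hs
  have e3 : I.DZ (p, 0, p.1) = 0 := by
    have := h.eqDZ p 0 p.1
    rw [smul_zero, add_zero] at this
    have h2 : p.1 * I.DZ (p, 0, p.1) = 0 := by linarith
    exact (mul_eq_zero.1 h2).resolve_left hs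
  have hV2 : I.V2 (p, z, 0) = 0 := by
    simp only [V2, hchi, hV]
    exact e1
  have hvv : I.vv (p, z, 0) = 0 := by
    simp only [vv, hchi, hV, hV2]
    rfl
  refine ⟨hchi, hV, hV2, ?_, ?_⟩
  · simp only [zt, hvv, e3]
  · simp only [K, hvv, hV2, e2]
    simp

end Ing

end Pool.Agent.Lib.H37N
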