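import Pool.Agent.Lib.H37N.IPar

/-! # H37N, chunk I2g (M): formulas for the three legs of the curve -/

open Set Filter Topology Asymptotics
open scoped ContDiff

namespace Pool.Agent.Lib.H37N

namespace Ing

variable {m : ℕ} {I : Ing m} {S T1 T2 : Pt → Pt} {dS sS al1 al2 ka1 ka2 gm2 el : ℝ}

/-- first leg.

PROOF. Unfold vert, Ph1, par1, X1, U, V, chi.  With s = q.1.1, x = q.2.2, χ = x Ah(sx): first component a + (sx) Ah(sx) = a + s χ = X1.  Second: (sx)^(m+1) Yh(sx) + mi (uS + Th(e1 X1)) +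
s^m (b + U0) + Σ s^(m-j) G_j(z) (sχ)^(j+1), and s^(m-j) s^(j+1) = s^(m+1) (j < m), so it is s^m (b + U0 + s V) + mi (uS + Th(e1 X1)). -/
theorem first_leg (mi : ℝ) {N : Set Pt} {q : Par × ℝ × ℝ} (h : I.Good S T1 T2 dS sS N q) :
    vert T1 (fun X => I.Ph1 (I.par1 mi q.1 q.2.1, X)) (0, q.1.1 * q.2.2) =
      (I.X1 q, q.1.1 ^ m * (I.U q + I.b) + mi * (I.uS + I.Th (q.1.2.1 * I.X1 q))) := by
  have hX : I.a + (q.1.1 * q.2.2) * I.Ah (q.1.1 * q.2.2) = I.X1 q := by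
    simp only [X1, chi]; ring
  have hXa : I.X1 q - I.a = q.1.1 * I.chi q := by
    simp only [X1]; ring
  simp only [vert, h.gT1, hX]
  refine Prod.ext rfl ?_
  simp only [Ph1, par1, hXa]
  have hsum : (∑ j : Fin m, q.1.1 ^ (m - (j : ℕ)) * I.G j q.2.1 * (q.1.1 * I.chi q) ^ ((j : ℕ) + 1)) =
      q.1.1 ^ (m + 1) * ∑ j : Fin m, I.G j q.2.1 * I.chi q ^ ((j : ℕ) + 1) := by
    rw [Finset.mul_sum]
    refine Finset.sum_congr rfl fun j _ => ?_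
    have hj : (j : ℕ) < m := j.2
    have hp : q.1.1 ^ (m + 1) = q.1.1 ^ (m - (j : ℕ)) * q.1.1 ^ ((j : ℕ) + 1) := by
      rw [← pow_add]; congr 1; omega
    rw [hp, mul_pow]; ring
  rw [hsum]
  simp only [U, V]
  ring

/-- second leg: the pass.

PROOF. e1 = lP^n, e2 = (dS mQ^ν)⁻¹, x0 = lQ^ν sS, e4 = mP^n lQ^ν, B0 + β = dS (lP mP)^n (lQ mQ)^ν, s^m = (dS mP^n mQ^ν)⁻¹.  lP^n X1 = e1 X1.  mP^n y - uS = mP^n s^m (U+b) + Th(e1 X1) and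
mP^n s^m = e2.  So S is evaluated at the point of g1, g2.  Second component: mQ^ν dS e2 (U+b) W = (U+b) W = H + b.  First: lQ^ν (sS + e1 X1 Y1 + e2 (U+b) Y2) = x0 + s^m [(B0+β) X1 Y1 +
e4 (U+b) Y2] because s^m (B0+β) = lP^n lQ^ν = lQ^ν e1 and s^m e4 = lQ^ν/(dS mQ^ν) = lQ^ν e2. -/
theorem pass_leg {lP mP lQ mQ : ℝ} {n ν : ℕ} (hd : 0 < dS) (hP : 0 < mP) (hQ : 0 < mQ) {N : Set Pt} {q : Par × ℝ × ℝ}
    (h : I.Good S T1 T2 dS sS N q) (he1 : q.1.2.1 = lP ^ n) (he2 : q.1.2.2.1 = (dS * mQ ^ ν)⁻¹)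
    (hx0 : q.1.2.2.2.1 = lQ ^ ν * sS) (he4 : q.1.2.2.2.2.1 = mP ^ n * lQ ^ ν)
    (hB : I.B0 + q.1.2.2.2.2.2 = dS * (lP * mP) ^ n * (lQ * mQ) ^ ν) (hs : q.1.1 ^ m = (dS * mP ^ n * mQ ^ ν)⁻¹) :
    mid lP mP lQ mQ I.uS S n ν (I.X1 q, q.1.1 ^ m * (I.U q + I.b) + (mP ^ n)⁻¹ * (I.uS + I.Th (q.1.2.1 * I.X1 q))) =
      (q.1.2.2.2.1 + q.1.1 ^ m * I.XiQ q, I.H q.1.2.1 q.1.2.2.1 (I.X1 q) (I.U q) + I.b) ∧
    (lP ^ n * I.X1 q, mP ^ n * (q.1.1 ^ m * (I.U q + I.b) + (mP ^ n)⁻¹ * (I.uS + I.Th (q.1.2.1 * I.X1 q))) - I.uS) =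
      (q.1.2.1 * I.X1 q, I.Th (q.1.2.1 * I.X1 q) + q.1.2.2.1 * (I.U q + I.b)) := by
  have hmP : mP ^ n ≠ 0 := (pow_pos hP n).ne'
  have hmQ : mQ ^ ν ≠ 0 := (pow_pos hQ ν).ne'
  have hdS : dS ≠ 0 := hd.ne'
  have hms : mP ^ n * q.1.1 ^ m = q.1.2.2.1 := by
    rw [hs, he2]; field_simp
  have hpt : (lP ^ n * I.X1 q, mP ^ n * (q.1.1 ^ m * (I.U q + I.b) + (mP ^ n)⁻¹ *
      (I.uS + I.Th (q.1.2.1 * I.X1 q))) - I.uS) =
      (q.1.2.1 * I.X1 q, I.Th (q.1.2.1 * I.X1 q) + q.1.2.2.1 * (I.U q + I.b)) := by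
    refine Prod.ext (by simp only [he1]) ?_
    simp only
    rw [mul_add, ← mul_assoc, hms, ← mul_assoc, mul_inv_cancel₀ hmP]
    ring
  refine ⟨?_, hpt⟩
  simp only [mid, hpt, h.g1, h.g2]
  refine Prod.ext ?_ ?_
  · simp only [XiQ, Xi, hB, hx0, he4]
    have e1 : q.1.1 ^ m * (dS * (lP * mP) ^ n * (lQ * mQ) ^ ν) = lQ ^ ν * q.1.2.1 := by
      rw [hs, he1, mul_pow, mul_pow]; field_simp
    have e2 : q.1.1 ^ m * (mP ^ n * lQ ^ ν) = lQ ^ ν * q.1.2.2.1 := by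
      rw [← hms]; ring
    linear_combination (-(I.X1 q * I.Y1 (q.1.2.1 * I.X1 q))) * e1 -
      ((I.U q + I.b) * I.Y2 (q.1.2.1 * I.X1 q, q.1.2.2.1 * (I.U q + I.b))) * e2
  · simp only [H]
    have e3 : mQ ^ ν * (dS * q.1.2.2.1) = 1 := by
      rw [he2]; field_simp
    linear_combination ((I.U q + I.b) * I.W (q.1.2.1 * I.X1 q, q.1.2.2.1 * (I.U q + I.b))) * e3

/-- η = s V₂.

PROOF. `eqDH` with v = (chi q, V q, 0), s = q.1.1: HB(p, base + s v) = H(e1,e2,X1,U), HB(p,base) = H(e1,e2,a,U0) = 0 by gU0, DH(..) = V2. -/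
theorem eta_eq (hI : I.OK S T1 T2 dS sS al1 al2 ka1 ka2 gm2 el) {N : Set Pt} {q : Par × ℝ × ℝ} (h : I.Good S T1 T2 dS sS N q) :
    I.H q.1.2.1 q.1.2.2.1 (I.X1 q) (I.U q) = q.1.1 * I.V2 q := by
  have e := hI.eqDH q.1 (I.chi q, I.V q, 0) q.1.1
  have h0 : I.HB (q.1, I.base q.1) = 0 := by
    simp only [HB, base, H]
    have := h.gU0
    linarith
  have h1 : I.HB (q.1, I.base q.1 + q.1.1 • (I.chi q, I.V q, (0 : ℝ))) =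
      I.H q.1.2.1 q.1.2.2.1 (I.X1 q) (I.U q) := by
    simp only [HB, base, X1, U, Prod.smul_mk, Prod.mk_add_mk, smul_eq_mul]
  rw [h0, h1, zero_add] at e
  rw [e]; rfl

/-- third leg.

PROOF. s = q.1.1, Ξ = XiQ q = XiB(p, base + s vv) (XiB does not use the third component).  `eqDZ`: XX(x0 + s^m Ξ, s V2) = ZB(p, base + s vv) = ZB(p,base) + s zt.
`eqDR`: Ξ Mh(x0, s V2, s^m Ξ) = RB(p, base + s vv) = RB(p,base) + s DR(p,vv,s).  By gM, gYk: YY(x0+s^mΞ, sV2) - N(x0, X_2) = (s V2)^(m+1) Yk(sV2) + s^m (RB(p,base) + s DR) =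
s^(m+1) K + s^m RB(p,base).  Ph2(par2 p k, X_2) = -N(x0,X_2) - s^m RB(p,base) - Σ s^(m-j) k_j (s zt)^(j+1).  Sum: s^(m+1) (K - Σ k_j zt^(j+1)). -/
theorem third_leg (hI : I.OK S T1 T2 dS sS al1 al2 ka1 ka2 gm2 el) (k : Fin m → ℝ) {N : Set Pt} {q : Par × ℝ × ℝ}
    (h : I.Good S T1 T2 dS sS N q) :
    vert T2 (fun X => I.Ph2 (I.par2 q.1 k, X)) (q.1.2.2.2.1 + q.1.1 ^ m * I.XiQ q, q.1.1 * I.V2 q) =
      (I.ZB (q.1, I.base q.1) + q.1.1 * I.zt q, q.1.1 ^ (m + 1) * (I.K q - ∑ j : Fin m, k j * I.zt q ^ ((j : ℕ) + 1))) := by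
  have hXiv : I.XiB (q.1, I.base q.1 + q.1.1 • I.vv q) = I.XiQ q := by
    simp only [XiB, XiQ, base, vv, X1, U, Prod.smul_mk, Prod.mk_add_mk, smul_eq_mul]
  have h3 : (I.base q.1 + q.1.1 • I.vv q).2.2 = q.1.1 * I.V2 q := by
    simp only [base, vv, Prod.smul_mk, Prod.mk_add_mk, smul_eq_mul, zero_add]
  have eZ := hI.eqDZ q.1 (I.vv q) q.1.1
  have eR := hI.eqDR q.1 (I.vv q) q.1.1
  have hZ : I.ZB (q.1, I.base q.1 + q.1.1 • I.vv q) =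
      I.XX (q.1.2.2.2.1 + q.1.1 ^ m * I.XiQ q, q.1.1 * I.V2 q) := by
    simp only [ZB, hXiv, h3]
  have hR : I.RB (q.1, I.base q.1 + q.1.1 • I.vv q) =
      I.XiQ q * I.Mh (q.1.2.2.2.1, q.1.1 * I.V2 q, q.1.1 ^ m * I.XiQ q) := by
    simp only [RB, hXiv, h3]
  rw [hZ] at eZ
  rw [hR] at eR
  change _ = I.ZB (q.1, I.base q.1) + q.1.1 * I.zt q at eZ
  simp only [vert, h.gT2]
  refine Prod.ext eZ ?_
  have hM := h.gM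
  rw [h.gYk] at hM
  simp only [Ph2, par2]
  have hsum : (∑ j : Fin m, q.1.1 ^ (m - (j : ℕ)) * k j *
      (I.XX (q.1.2.2.2.1 + q.1.1 ^ m * I.XiQ q, q.1.1 * I.V2 q) - I.a2 -
        (I.ZB (q.1, I.base q.1) - I.a2)) ^ ((j : ℕ) + 1)) =
      q.1.1 ^ (m + 1) * ∑ j : Fin m, k j * I.zt q ^ ((j : ℕ) + 1) := by
    rw [Finset.mul_sum]
    refine Finset.sum_congr rfl fun j _ => ?_
    have hj : (j : ℕ) < m := j.2
    have hp : q.1.1 ^ (m + 1) = q.1.1 ^ (m - (j : ℕ)) * q.1.1 ^ ((j : ℕ) + 1) := by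
      rw [← pow_add]; congr 1; omega
    have hd : I.XX (q.1.2.2.2.1 + q.1.1 ^ m * I.XiQ q, q.1.1 * I.V2 q) - I.a2 -
        (I.ZB (q.1, I.base q.1) - I.a2) = q.1.1 * I.zt q := by
      rw [eZ]; ring
    rw [hd, hp, mul_pow]; ring
  rw [hsum]
  have hK : I.K q = I.V2 q ^ (m + 1) * I.Yk (q.1.1 * I.V2 q) + I.DR (q.1, I.vv q, q.1.1) := rfl
  rw [hK]
  have eR' : q.1.1 ^ m * I.XiQ q * I.Mh (q.1.2.2.2.1, q.1.1 * I.V2 q, q.1.1 ^ m * I.XiQ q) =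
      q.1.1 ^ m * I.RB (q.1, I.base q.1) + q.1.1 ^ (m + 1) * I.DR (q.1, I.vv q, q.1.1) := by
    rw [mul_assoc, eR]; ring
  rw [eR'] at hM
  rw [mul_pow] at hM
  linear_combination hM

end Ing

end Pool.Agent.Lib.H37N
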