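import Pool.Agent.Lib.H37N.I2f

/-! # H37N, chunk I2h (M): the conditions hold for small parameters -/

open Set Filter Topology Asymptotics
open scoped ContDiff

namespace Pool.Agent.Lib.H37N

/-- PROOF. P(0,z,0) holds near (0,z,0) for every z in the compact interval; tube lemma (`IsCompact.eventually_forall_of_forall_eventually` for the parameter (p,x)): for (p,x) near (0,0), for all
z ∈ [0,1]: P(p,z,x).  `Filter.Eventually.curry` (𝓝 (0,0) = 𝓝 0 ×ˢ 𝓝 0): for p near 0, for x near 0, for all z. -/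
theorem tube {P : Par × ℝ × ℝ → Prop} (h : ∀ z ∈ Icc (0 : ℝ) 1, ∀ᶠ q in 𝓝 ((0, z, 0) : Par × ℝ × ℝ), P q) :
    ∀ᶠ p in 𝓝 (0 : Par), ∀ z ∈ Icc (0 : ℝ) 1, ∀ᶠ x in 𝓝 (0 : ℝ), P (p, z, x) := by
  have h1 : ∀ᶠ r in 𝓝 ((0, 0) : Par × ℝ), ∀ z ∈ Icc (0 : ℝ) 1, P (r.1, z, r.2) := by
    refine isCompact_Icc.eventually_forall_of_forall_eventually ?_
    intro z hz
    have hc : Continuous fun w : (Par × ℝ) × ℝ => ((w.1.1, w.2, w.1.2) : Par × ℝ × ℝ) := by fun_prop
    have ht := hc.tendsto (((0, 0), z) : (Par × ℝ) × ℝ)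
    exact ht.eventually (h z hz)
  rw [nhds_prod_eq] at h1
  filter_upwards [h1.curry] with p hp z hz
  filter_upwards [hp] with x hx
  exact hx z hz

namespace Ing

variable {m : ℕ} {I : Ing m} {S T1 T2 : Pt → Pt} {dS sS al1 al2 ka1 ka2 gm2 el : ℝ}

theorem i2h_ZB0 (h : I.OK S T1 T2 dS sS al1 al2 ka1 ka2 gm2 el) : I.ZB (0, I.base 0) = I.a2 := by
  have hm : m ≠ 0 := by have := h.hm; omega
  have h0 : I.XX (0, 0) = I.a2 := h.XX0
  simp only [ZB, base, Prod.fst_zero, Prod.snd_zero, zero_pow hm, zero_mul, add_zero]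
  exact h0

/-- PROOF. `tube`.  Each of the ten conditions of `Good` has the form Q(f q) with Q true near a point y₀ and f continuous (`OK.smooth`, X1, U, XiQ continuous) with f(0,z,0) = y₀:
gT1: f = s x, y₀ = 0, `eqT1`;  gU0: f = (e1,e2), y₀ = 0, `eqU0`;  g1, g2: f = (e1 X1, e2 (U+b)), y₀ = 0, `PassFn.eq1`, `PassFn.eq2`;  gM: f = (x0, s V2, s^m Ξ), y₀ = 0 (m ≥ 1), `eqM`;
gYk: f = s V2, `eqYk`;  gT2: f = (x0 + s^m Ξ, s V2), `eqT2`;  gN1: f = (e1 X1, Th(e1 X1) + e2(U+b)), y₀ = 0 (Th 0 = 0), N ∈ 𝓝 0;  gN2: the same f as gT2;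
gN3: f = (ZB(p,base p) + s zt - a2, 0); at p = 0: ZB(0,base 0) = XX(0,0) = a2. -/
theorem OK.good (h : I.OK S T1 T2 dS sS al1 al2 ka1 ka2 gm2 el) {N : Set Pt} (hN : N ∈ 𝓝 (0 : Pt)) :
    ∀ᶠ p in 𝓝 (0 : Par), ∀ z ∈ Icc (0 : ℝ) 1, ∀ᶠ x in 𝓝 (0 : ℝ), I.Good S T1 T2 dS sS N (p, z, x) := by
  refine tube fun z _ => ?_
  have hm : m ≠ 0 := by have := h.hm; omega
  obtain ⟨s1, s2, s3, -, s5, -, -, -, -, -, -, s12, s13⟩ := h.smooth
  have c1 : Continuous I.chi := s1.continuous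
  have c2 : Continuous I.V := s2.continuous
  have c3 : Continuous I.V2 := s3.continuous
  have c5 : Continuous I.zt := s5.continuous
  have c12 : Continuous I.ZB := s12.continuous
  have c13 : Continuous I.base := s13.continuous
  have cU0 : Continuous I.U0 := h.smooth_U0.continuous
  have cY1 : Continuous I.Y1 := h.pf.smooth_Y1.continuous
  have cY2 : Continuous I.Y2 := h.pf.smooth_Y2.continuous
  have cTh : Continuous I.Th := h.pf.smooth_Th.continuous
  have cX1 : Continuous I.X1 := by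
    unfold X1
    fun_prop
  have cU : Continuous I.U := by
    unfold U
    have : Continuous fun q : Par × ℝ × ℝ => I.U0 (q.1.2.1, q.1.2.2.1) := cU0.comp (by fun_prop)
    fun_prop
  have cXi : Continuous I.XiQ := by
    unfold XiQ Xi
    have k1 : Continuous fun q : Par × ℝ × ℝ => I.Y1 (q.1.2.1 * I.X1 q) := cY1.comp (by fun_prop)
    have k2 : Continuous fun q : Par × ℝ × ℝ => I.Y2 (q.1.2.1 * I.X1 q, q.1.2.2.1 * (I.U q + I.b)) :=
      cY2.comp (by fun_prop)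
    fun_prop
  have key : ∀ {Y : Type} [TopologicalSpace Y] {f : Par × ℝ × ℝ → Y} {y₀ : Y} {Q : Y → Prop},
      Continuous f → f (0, z, 0) = y₀ → (∀ᶠ y in 𝓝 y₀, Q y) →
      ∀ᶠ q in 𝓝 ((0, z, 0) : Par × ℝ × ℝ), Q (f q) := by
    intro Y _ f y₀ Q hf hfy hQ
    have ht := hf.tendsto ((0, z, 0) : Par × ℝ × ℝ)
    rw [hfy] at ht
    exact ht.eventually hQ
  have k1 := key (f := fun q : Par × ℝ × ℝ => q.1.1 * q.2.2) (y₀ := 0) (by fun_prop) (by simp) h.eqT1
  have k2 := key (f := fun q : Par × ℝ × ℝ => ((q.1.2.1, q.1.2.2.1) : Pt)) (y₀ := 0) (by fun_prop)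
    (by simp) h.eqU0
  have kf : Continuous fun q : Par × ℝ × ℝ => ((q.1.2.1 * I.X1 q, q.1.2.2.1 * (I.U q + I.b)) : Pt) := by
    fun_prop
  have k3 := key (y₀ := 0) kf (by simp) h.pf.eq1
  have k4 := key (y₀ := 0) kf (by simp) h.pf.eq2
  have k5 := key (f := fun q : Par × ℝ × ℝ =>
      ((q.1.2.2.2.1, q.1.1 * I.V2 q, q.1.1 ^ m * I.XiQ q) : ℝ × ℝ × ℝ)) (y₀ := 0) (by fun_prop)
    (by simp [zero_pow hm]) h.eqM
  have k6 := key (f := fun q : Par × ℝ × ℝ => q.1.1 * I.V2 q) (y₀ := 0) (by fun_prop) (by simp) h.eqYk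
  have kg : Continuous fun q : Par × ℝ × ℝ =>
      ((q.1.2.2.2.1 + q.1.1 ^ m * I.XiQ q, q.1.1 * I.V2 q) : Pt) := by fun_prop
  have k7 := key (y₀ := 0) kg (by simp [zero_pow hm]) h.eqT2
  have k8 := key (y₀ := 0) kg (by simp [zero_pow hm]) hN
  have kh : Continuous fun q : Par × ℝ × ℝ =>
      ((q.1.2.1 * I.X1 q, I.Th (q.1.2.1 * I.X1 q) + q.1.2.2.1 * (I.U q + I.b)) : Pt) := by
    have : Continuous fun q : Par × ℝ × ℝ => I.Th (q.1.2.1 * I.X1 q) := cTh.comp (by fun_prop)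
    fun_prop
  have k9 := key (y₀ := 0) kh (by simp [h.pf.Th0]) hN
  have ki : Continuous fun q : Par × ℝ × ℝ =>
      ((I.ZB (q.1, I.base q.1) + q.1.1 * I.zt q - I.a2, 0) : Pt) := by
    have : Continuous fun q : Par × ℝ × ℝ => I.ZB (q.1, I.base q.1) := c12.comp (by fun_prop)
    fun_prop
  have k10 := key (y₀ := 0) ki (by
    have := i2h_ZB0 h
    simp [this]) hN
  filter_upwards [k1, k2, k3, k4, k5, k6, k7, k8, k9, k10] with q g1 g2 g3 g4 g5 g6 g7 g8 g9 g10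
  exact ⟨g1, g2, g3, g4, g5, g6, g7, g9, g8, g10⟩

/-- PROOF. (mi,p) ↦ par1 mi p z is continuous in (mi,p,z) (`smooth_U0`, `smooth_G`) and 0 at (0,0,z) (m - j ≥ 1 for j < m, so 0^(m-j) = 0; m ≥ 1); tube lemma with the compact [0,1]. -/
theorem OK.par1_small (h : I.OK S T1 T2 dS sS al1 al2 ka1 ka2 gm2 el) {N1 : Set (PE m)} (hN : N1 ∈ 𝓝 (0 : PE m)) :
    ∀ᶠ r : ℝ × Par in 𝓝 0, ∀ z ∈ Icc (0 : ℝ) 1, I.par1 r.1 r.2 z ∈ N1 := by
  have hm : m ≠ 0 := by have := h.hm; omega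
  refine isCompact_Icc.eventually_forall_of_forall_eventually ?_
  intro z _
  have cU0 : Continuous I.U0 := h.smooth_U0.continuous
  have hc : Continuous fun w : (ℝ × Par) × ℝ => I.par1 w.1.1 w.1.2 w.2 := by
    unfold par1
    have k1 : Continuous fun w : (ℝ × Par) × ℝ => I.U0 (w.1.2.2.1, w.1.2.2.2.1) := cU0.comp (by fun_prop)
    have k2 : Continuous fun w : (ℝ × Par) × ℝ => fun j : Fin m => w.1.2.1 ^ (m - (j : ℕ)) * I.G j w.2 := by
      refine continuous_pi fun j => ?_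
      have : Continuous fun w : (ℝ × Par) × ℝ => I.G j w.2 := (h.smooth_G j).continuous.comp (by fun_prop)
      fun_prop
    exact Continuous.prodMk (by fun_prop) (Continuous.prodMk (by fun_prop)
      (Continuous.prodMk (by fun_prop) k2))
  have h0 : I.par1 0 0 z = 0 := by
    have hj : ∀ j : Fin m, m - (j : ℕ) ≠ 0 := fun j => by have := j.2; omega
    unfold par1
    simp only [Prod.fst_zero, Prod.snd_zero, zero_pow hm, zero_mul]
    refine Prod.ext rfl (Prod.ext rfl (Prod.ext rfl ?_))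
    funext j
    simp [zero_pow (hj j)]
  have ht := hc.tendsto ((0, z) : (ℝ × Par) × ℝ)
  have e : I.par1 ((0, z) : (ℝ × Par) × ℝ).1.1 ((0, z) : (ℝ × Par) × ℝ).1.2 ((0, z) : (ℝ × Par) × ℝ).2 = 0 := h0
  simp only [e] at ht
  exact ht.eventually hN

/-- PROOF. (p,k) ↦ par2 p k is continuous (`OK.smooth`) and 0 at (0,k) (0^m = 0, ZB(0,base 0) = XX 0 = a2, 0^(m-j) = 0); the set {k | ∀ j, |k j| ≤ C} is compact
(`isCompact_univ_pi`); tube lemma. -/
theorem OK.par2_small (h : I.OK S T1 T2 dS sS al1 al2 ka1 ka2 gm2 el) (C : ℝ) {N2 : Set (PE m)} (hN : N2 ∈ 𝓝 (0 : PE m)) :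
    ∀ᶠ p in 𝓝 (0 : Par), ∀ k : Fin m → ℝ, (∀ j, |k j| ≤ C) → I.par2 p k ∈ N2 := by
  have hm : m ≠ 0 := by have := h.hm; omega
  obtain ⟨-, -, -, -, -, -, -, -, -, -, s11, s12, s13⟩ := h.smooth
  have c11 : Continuous I.RB := s11.continuous
  have c12 : Continuous I.ZB := s12.continuous
  have c13 : Continuous I.base := s13.continuous
  have hK : IsCompact {k : Fin m → ℝ | ∀ j, |k j| ≤ C} := by
    have e : {k : Fin m → ℝ | ∀ j, |k j| ≤ C} = Set.pi univ fun _ => Icc (-C) C := by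
      ext k
      simp only [mem_setOf_eq, Set.mem_pi, mem_univ, true_implies, mem_Icc, abs_le]
    rw [e]
    exact isCompact_univ_pi fun _ => isCompact_Icc
  have hc : Continuous fun w : Par × (Fin m → ℝ) => I.par2 w.1 w.2 := by
    unfold par2
    have k1 : Continuous fun w : Par × (Fin m → ℝ) => I.RB (w.1, I.base w.1) := c11.comp (by fun_prop)
    have k2 : Continuous fun w : Par × (Fin m → ℝ) => I.ZB (w.1, I.base w.1) := c12.comp (by fun_prop)
    have k3 : Continuous fun w : Par × (Fin m → ℝ) => fun j : Fin m => w.1.1 ^ (m - (j : ℕ)) * w.2 j := by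
      refine continuous_pi fun j => ?_
      fun_prop
    fun_prop
  have h0 : ∀ k : Fin m → ℝ, I.par2 0 k = 0 := by
    intro k
    have hj : ∀ j : Fin m, m - (j : ℕ) ≠ 0 := fun j => by have := j.2; omega
    unfold par2
    rw [i2h_ZB0 h]
    simp only [Prod.fst_zero, Prod.snd_zero, zero_pow hm, zero_mul, sub_self]
    refine Prod.ext rfl (Prod.ext rfl (Prod.ext rfl ?_))
    funext j
    simp [zero_pow (hj j)]
  have := hK.eventually_forall_of_forall_eventually (x₀ := (0 : Par))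
    (P := fun p k => I.par2 p k ∈ N2) (fun k _ => by
      have ht := hc.tendsto ((0, k) : Par × (Fin m → ℝ))
      simp only [h0 k] at ht
      exact ht.eventually hN)
  filter_upwards [this] with p hp k hk
  exact hp k hk

end Ing

end Pool.Agent.Lib.H37N
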