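import Mathlib

/-! # H37N, chunk I3a (M): an explicit expansion -/

open Set Filter Topology Asymptotics
open scoped ContDiff

namespace Pool.Agent.Lib.H37N

/-- I.3, the expansion of x in powers of V = t(x + g x² + .. + g^(m-1) x^m) + ka x^(m+1).

PROOF. All functions are polynomials in x; V(x) = O(x), V(x) = t x + O(x²) (`∑` over Fin m; j = 0 gives t x).
(1) Multiply by (t + g V(x)), which tends to t ≠ 0: f = O(x^(m+2)) follows from (t + gV) f = O(x^(m+2)) (f = (t+gV)⁻¹ ((t+gV) f) near 0, (t+gV)⁻¹ bounded).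
(2) (t + gV) Σ_{i ≤ m} (-g)^i/t^(i+1) V^(i+1) = V (1 - (-g V/t)^(m+1)) (geometric sum: multiply Σ (-gV/t)^i by (1 + gV/t)), = V + O(x^(m+2)).
The sum in the statement runs over i < m; the term i = m, ((-g)^m/t^(m+1)) V^(m+1), is split off from the last coefficient:
(t g^m (1 + (-1)^m) - ka)/t^(m+2) = (-g)^m/t^(m+1) + (t g^m - ka)/t^(m+2).
(3) x (t + gV) - V = t x - V (1 - g x) and V (1 - g x) = t x (1 - g^m x^m) + ka x^(m+1) (1 - g x) (geometric sum: (Σ_{j<m} g^j x^(j+1)) (1 - gx) = x (1 - (gx)^m)), so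
x (t + gV) - V = (t g^m - ka) x^(m+1) + O(x^(m+2)).
(4) (t g^m - ka)/t^(m+2) V^(m+1) (t + gV) = (t g^m - ka) x^(m+1) + O(x^(m+2)) because V^(m+1) = t^(m+1) x^(m+1) + O(x^(m+2)) and V^(m+2) = O(x^(m+2)).
Altogether (t+gV) f = O(x^(m+2)). -/
theorem explicit_exp {m : ℕ} (hm : 1 ≤ m) {t g ka : ℝ} (ht : t ≠ 0) {V : ℝ → ℝ}
    (hV : ∀ x, V x = ka * x ^ (m + 1) + ∑ j : Fin m, t * g ^ (j : ℕ) * x ^ ((j : ℕ) + 1)) :
    (fun x => x - ∑ i ∈ Finset.range m, (-g) ^ i / t ^ (i + 1) * V x ^ (i + 1) -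
      (t * g ^ m * (1 + (-1) ^ m) - ka) / t ^ (m + 2) * V x ^ (m + 1)) =O[𝓝 0] fun x : ℝ => x ^ (m + 2) := by
  set C : ℝ := (t * g ^ m * (1 + (-1) ^ m) - ka) / t ^ (m + 2) with hC
  set P : ℝ → ℝ := fun x => ka * x ^ m + ∑ j : Fin m, t * g ^ (j : ℕ) * x ^ (j : ℕ) with hP
  have hVP : ∀ x, V x = x * P x := by
    intro x
    rw [hV]
    simp only [hP, mul_add, Finset.mul_sum]
    congr 1
    · ring
    · exact Finset.sum_congr rfl fun j _ => by ring
  have hP0 : P 0 = t := by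
    obtain ⟨m', rfl⟩ : ∃ m', m = m' + 1 := ⟨m - 1, by omega⟩
    simp only [hP, Fin.sum_univ_succ]
    simp
  have hPd : Differentiable ℝ P := by
    simp only [hP]
    fun_prop
  have hPs : ∀ x, P x = ka * x ^ m + t * ∑ j ∈ Finset.range m, (g * x) ^ j := by
    intro x
    simp only [hP]
    rw [← Fin.sum_univ_eq_sum_range (fun j => (g * x) ^ j) m, Finset.mul_sum]
    congr 1
    exact Finset.sum_congr rfl fun j _ => by rw [mul_pow]; ring
  have hPg : ∀ x, P x * (1 - g * x) = ka * x ^ m * (1 - g * x) + t * (1 - (g * x) ^ m) := by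
    intro x
    rw [hPs, add_mul, mul_assoc t, geom_sum_mul_neg]
  set F : ℝ → ℝ := fun x => x - ∑ i ∈ Finset.range m, (-g) ^ i / t ^ (i + 1) * V x ^ (i + 1) -
      C * V x ^ (m + 1) with hF
  set W : ℝ → ℝ := fun x => (t * g ^ m - ka) * (1 - (P x / t) ^ (m + 1)) +
      x * (ka * g - C * g * P x ^ (m + 2)) with hW
  have hsum : ∀ x, (t + g * V x) * ∑ i ∈ Finset.range m, (-g) ^ i / t ^ (i + 1) * V x ^ (i + 1) =
      V x * (1 - (-(g * V x) / t) ^ m) := by
    intro x
    rw [← geom_sum_mul_neg, Finset.sum_mul, Finset.mul_sum, Finset.mul_sum]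
    refine Finset.sum_congr rfl fun i _ => ?_
    rw [div_pow, neg_pow (g * V x), mul_pow, neg_pow g, pow_succ t, pow_succ (V x)]
    field_simp
    ring
  have hCt : (-g) ^ m / t ^ m - C * t = -((t * g ^ m - ka) / t ^ (m + 1)) := by
    rw [hC, neg_pow g, pow_succ t (m + 1), pow_succ t m]
    field_simp
    ring
  have hmain : ∀ x, (t + g * V x) * F x = x ^ (m + 1) * W x := by
    intro x
    have h1 : (t + g * V x) * F x = (x * (t + g * V x) - V x) + V x * (-(g * V x) / t) ^ m -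
        C * V x ^ (m + 1) * (t + g * V x) := by
      simp only [hF]
      rw [mul_sub, mul_sub, hsum]
      ring
    have h2 : x * (t + g * V x) - V x = x ^ (m + 1) * (t * g ^ m - ka + ka * g * x) := by
      have h3 := hPg x
      have h4 : x * (t + g * V x) - V x = x * (t - P x * (1 - g * x)) := by
        rw [hVP]
        ring
      rw [h4, h3, mul_pow]
      ring
    have h5 : V x * (-(g * V x) / t) ^ m = x ^ (m + 1) * (P x ^ (m + 1) * ((-g) ^ m / t ^ m)) := by
      rw [hVP, div_pow, show -(g * (x * P x)) = (-g) * (x * P x) by ring, mul_pow, mul_pow]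
      ring
    have h6 : C * V x ^ (m + 1) * (t + g * V x) =
        x ^ (m + 1) * (P x ^ (m + 1) * (C * t) + x * (C * g * P x ^ (m + 2))) := by
      rw [hVP, mul_pow]
      ring
    have h7 : (-g) ^ m / t ^ m = C * t - (t * g ^ m - ka) / t ^ (m + 1) := by linarith
    rw [h1, h2, h5, h6, h7]
    simp only [hW]
    rw [div_pow]
    field_simp
    ring
  have hW0 : W 0 = 0 := by
    simp only [hW]
    rw [hP0, div_self ht]
    simp
  have hWd : DifferentiableAt ℝ W 0 := by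
    simp only [hW]
    have := hPd
    fun_prop
  have hWO : W =O[𝓝 0] fun x : ℝ => x := by
    have := hWd.isBigO_sub
    simpa [hW0] using this
  have hV0 : V 0 = 0 := by rw [hVP]; simp
  have hVc : Continuous V := by
    have : V = fun x => x * P x := funext hVP
    rw [this]
    exact continuous_id.mul hPd.continuous
  have hT : ContinuousAt (fun x => t + g * V x) 0 := by fun_prop
  have hT0 : t + g * V 0 ≠ 0 := by rw [hV0]; simpa using ht
  have hne : ∀ᶠ x in 𝓝 (0 : ℝ), t + g * V x ≠ 0 := hT.eventually_ne hT0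
  have hinv : (fun x => (t + g * V x)⁻¹) =O[𝓝 0] fun _ : ℝ => (1 : ℝ) :=
    (hT.inv₀ hT0).tendsto.isBigO_one ℝ
  have hprod : (fun x => (t + g * V x)⁻¹ * (x ^ (m + 1) * W x)) =O[𝓝 0]
      fun x : ℝ => 1 * (x ^ (m + 1) * x) :=
    hinv.mul ((isBigO_refl (fun x : ℝ => x ^ (m + 1)) _).mul hWO)
  refine (hprod.congr' ?_ ?_)
  · filter_upwards [hne] with x hx
    rw [← hmain, ← mul_assoc, inv_mul_cancel₀ hx, one_mul]
  · exact Eventually.of_forall fun x => by
      show 1 * (x ^ (m + 1) * x) = x ^ (m + 2)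
      ring

end Pool.Agent.Lib.H37N
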