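import Mathlib

/-! # H37N, chunk I3b (S/M): the path along which the sign changes -/

open Set Filter Topology

namespace Pool.Agent.Lib.H37N

theorem i3b_root {n : ℕ} (hn : n ≠ 0) {a : ℝ} (ha : 0 < a) : ∃ t : ℝ, 0 < t ∧ t ^ n = a :=
  ⟨a ^ ((n : ℝ)⁻¹), Real.rpow_pos_of_pos ha _, Real.rpow_inv_natCast_pow ha.le hn⟩

/-- A root with prescribed sign, even exponent. -/
theorem i3b_root_even {n : ℕ} (hn : n ≠ 0) (he : Even n) {a s : ℝ} (ha : 0 < a) (hs : s ≠ 0) :
    ∃ t : ℝ, 0 < s / t ∧ t ^ n = a := by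
  obtain ⟨t, ht, h⟩ := i3b_root hn ha
  rcases lt_or_gt_of_ne hs with h1 | h1
  · exact ⟨-t, div_pos_of_neg_of_neg h1 (by linarith), by rw [he.neg_pow, h]⟩
  · exact ⟨t, div_pos h1 ht, h⟩

/-- Odd exponent. -/
theorem i3b_root_odd {n : ℕ} (hn : n ≠ 0) (ho : Odd n) {c : ℝ} (hc : c ≠ 0) {a : ℝ} (ha : 0 < a) :
    ∃ t : ℝ, 0 < c / t ∧ t ^ n = a * c := by
  rcases lt_or_gt_of_ne hc with h1 | h1
  · obtain ⟨t, ht, h⟩ := i3b_root hn (show 0 < a * (-c) from mul_pos ha (by linarith))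
    exact ⟨-t, div_pos_of_neg_of_neg h1 (by linarith), by rw [ho.neg_pow, h]; ring⟩
  · obtain ⟨t, ht, h⟩ := i3b_root hn (mul_pos ha h1)
    exact ⟨t, div_pos h1 ht, h⟩

/-- I.3, the endpoints of the path: t(z) = t0 + z (t1 - t0), g(z) = z g1.

PROOF. m odd ((-1)^m = -1, the factor 1 + (-1)^m is 0): g1 = 0; e = sign of bt ka1 ka2 (±1); t0 = e τ₀ with τ₀ > 0 so small that |bt ka1|/τ₀^(m+2) > |ka2|, t1 = e τ₁ with τ₁ ≥ 1 so large
that |bt ka1|/τ₁^(m+2) < |ka2|.  The value at z = 0 is ka2 - bt ka1/(e τ₀^(m+2)) (m+2 odd), its second term has the sign opposite to ka2 and is larger; the value at z = 1 has the sign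
of ka2.
m even (factor 2, t^(m+2) > 0): t0 = t1 = t with sign t = sign ka1 and |t| so small that |bt ka1|/t^(m+2) > |ka2|; at z = 0 (g = 0, 0^m = 0): sign of -bt ka1; at z = 1: ka2 + bt (2 t g1^m - ka1)/t^(m+2)
with g1 > 0 so large that (2 |t| g1^m - |ka1|) |bt|/t^(m+2) > |ka2|: sign of bt t = sign of bt ka1. -/
theorem sign_path {m : ℕ} (hm : 1 ≤ m) {ka1 ka2 bt : ℝ} (h1 : ka1 ≠ 0) (h2 : ka2 ≠ 0) (hb : bt ≠ 0) :
    ∃ t0 t1 g1 : ℝ, (∀ z ∈ Icc (0 : ℝ) 1, t0 + z * (t1 - t0) ≠ 0) ∧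
      (ka2 + bt * ((t0 * (0 * g1) ^ m * (1 + (-1) ^ m) - ka1) / t0 ^ (m + 2))) *
        (ka2 + bt * ((t1 * (1 * g1) ^ m * (1 + (-1) ^ m) - ka1) / t1 ^ (m + 2))) < 0 := by
  have hm0 : m ≠ 0 := by omega
  rcases Nat.even_or_odd m with he | ho
  · -- even case
    have hs : (1 : ℝ) + (-1) ^ m = 2 := by rw [he.neg_one_pow]; norm_num
    set c : ℝ := ka2 / bt with hc
    set u : ℝ := |ka1| / (|c| + 1) with hu
    have hc1 : 0 < |c| + 1 := by positivity
    have hu0 : 0 < u := div_pos (abs_pos.mpr h1) hc1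
    obtain ⟨t, ht, htu⟩ := i3b_root_even (n := m + 2) (by omega) (he.add (by decide)) hu0 h1
    have ht0 : t ≠ 0 := by
      rintro rfl
      simp at ht
    obtain ⟨g, hg, hgm⟩ := i3b_root hm0 ht
    refine ⟨t, t, g, fun z _ => by simpa using ht0, ?_⟩
    have e0 : t * (0 * g) ^ m * (1 + (-1) ^ m) - ka1 = -ka1 := by
      rw [zero_mul, zero_pow hm0]; ring
    have e1 : t * (1 * g) ^ m * (1 + (-1) ^ m) - ka1 = ka1 := by
      rw [one_mul, hgm, hs]
      field_simp
      ring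
    rw [e0, e1, htu]
    have hk : ka2 = bt * c := by rw [hc]; field_simp
    have h3 : (ka2 + bt * (-ka1 / u)) * (ka2 + bt * (ka1 / u)) = bt ^ 2 * (c ^ 2 - (ka1 / u) ^ 2) := by
      rw [hk]; ring
    rw [h3]
    have h4 : (ka1 / u) ^ 2 = (|c| + 1) ^ 2 := by
      rw [← sq_abs (ka1 / u), abs_div, abs_of_pos hu0, hu]
      congr 1
      field_simp
    rw [h4]
    have h5 : 0 < bt ^ 2 := by positivity
    have h6 : c ^ 2 - (|c| + 1) ^ 2 < 0 := by
      rw [← sq_abs c]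
      nlinarith [abs_nonneg c]
    exact mul_neg_of_pos_of_neg h5 h6
  · -- odd case
    have hs : (1 : ℝ) + (-1) ^ m = 0 := by rw [ho.neg_one_pow]; norm_num
    set c : ℝ := bt * ka1 / ka2 with hc
    have hc0 : c ≠ 0 := div_ne_zero (mul_ne_zero hb h1) h2
    have hodd : Odd (m + 2) := ho.add_even (by decide)
    obtain ⟨t0, ht0, hp0⟩ := i3b_root_odd (n := m + 2) (by omega) hodd hc0 (show (0 : ℝ) < 1 / 2 by norm_num)
    obtain ⟨t1, ht1, hp1⟩ := i3b_root_odd (n := m + 2) (by omega) hodd hc0 (show (0 : ℝ) < 2 by norm_num)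
    have hd : bt * ka1 = c * ka2 := by rw [hc]; field_simp
    refine ⟨t0, t1, 0, ?_, ?_⟩
    · intro z hz h
      rcases lt_or_gt_of_ne hc0 with h3 | h3
      · have k0 : t0 < 0 := by
          by_contra hcon
          exact absurd ht0 (not_lt.mpr (div_nonpos_of_nonpos_of_nonneg h3.le (not_lt.mp hcon)))
        have k1 : t1 < 0 := by
          by_contra hcon
          exact absurd ht1 (not_lt.mpr (div_nonpos_of_nonpos_of_nonneg h3.le (not_lt.mp hcon)))
        rcases eq_or_lt_of_le hz.1 with hz0 | hz0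
        · rw [← hz0] at h
          linarith
        · nlinarith [hz.2]
      · have k0 : 0 < t0 := by
          by_contra hcon
          exact absurd ht0 (not_lt.mpr (div_nonpos_of_nonneg_of_nonpos h3.le (not_lt.mp hcon)))
        have k1 : 0 < t1 := by
          by_contra hcon
          exact absurd ht1 (not_lt.mpr (div_nonpos_of_nonneg_of_nonpos h3.le (not_lt.mp hcon)))
        rcases eq_or_lt_of_le hz.1 with hz0 | hz0
        · rw [← hz0] at h
          linarith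
        · nlinarith [hz.2]
    · rw [hs, hp0, hp1, mul_zero, mul_zero, zero_sub]
      have e0 : ka2 + bt * (-ka1 / (1 / 2 * c)) = -ka2 := by
        have : bt * (-ka1 / (1 / 2 * c)) = -(bt * ka1) / (1 / 2 * c) := by ring
        rw [this, hd]
        field_simp
        ring
      have e1 : ka2 + bt * (-ka1 / (2 * c)) = ka2 / 2 := by
        have : bt * (-ka1 / (2 * c)) = -(bt * ka1) / (2 * c) := by ring
        rw [this, hd]
        field_simp
        ring
      rw [e0, e1]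
      have : 0 < ka2 ^ 2 := by positivity
      nlinarith

end Pool.Agent.Lib.H37N
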