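import Pool.Agent.Lib.H37N.T3

/-! # H37N, chunk I3c (M): expansions in powers of a function, with parameters -/

open Set Filter Topology Asymptotics
open scoped ContDiff

namespace Pool.Agent.Lib.H37N

/-- primitive of a `O(x^n)`. -/
theorem i3c_prim {h h' : ℝ → ℝ} {n : ℕ} (hd : ∀ᶠ x in 𝓝 (0 : ℝ), HasDerivAt h (h' x) x)
    (hO : h' =O[𝓝 0] fun x : ℝ => x ^ n) (h0 : h 0 = 0) : h =O[𝓝 0] fun x : ℝ => x ^ (n + 1) := by
  obtain ⟨C, hC⟩ := hO.bound
  obtain ⟨δ, hδ, hball⟩ := Metric.eventually_nhds_iff_ball.1 (hd.and hC)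
  refine IsBigO.of_bound C ?_
  filter_upwards [Metric.ball_mem_nhds (0 : ℝ) hδ] with x hx
  have hxδ : |x| < δ := by simpa using hx
  have key := (convex_closedBall (0 : ℝ) |x|).norm_image_sub_le_of_norm_hasDerivWithin_le (f := h) (f' := h')
    (C := C * |x| ^ n) (x := 0) (y := x) (fun y hy => ?_) (fun y hy => ?_) (by simp) (by simp)
  · rw [h0, sub_zero, sub_zero] at key
    rw [norm_pow, pow_succ, ← mul_assoc]
    exact key
  · have hy1 : |y| ≤ |x| := by simpa using hy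
    exact (hball y (by simpa using lt_of_le_of_lt hy1 hxδ)).1.hasDerivWithinAt
  · have hy1 : |y| ≤ |x| := by simpa using hy
    have h1 := (hball y (by simpa using lt_of_le_of_lt hy1 hxδ)).2
    rw [norm_pow, Real.norm_eq_abs y] at h1
    have hC0 : 0 ≤ C * |y| ^ n := le_trans (norm_nonneg _) h1
    by_cases hC' : 0 ≤ C
    · exact h1.trans (mul_le_mul_of_nonneg_left (pow_le_pow_left₀ (abs_nonneg y) hy1 n) hC')
    · -- C < 0 : then |y|^n = 0 for all y, in particular for x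
      have hx2 := (hball x hx).2
      rw [norm_pow, Real.norm_eq_abs x] at hx2
      have hC1 : 0 ≤ C * |x| ^ n := le_trans (norm_nonneg _) hx2
      have e1 : C * |y| ^ n ≤ 0 := mul_nonpos_of_nonpos_of_nonneg (not_le.1 hC').le (by positivity)
      exact (h1.trans e1).trans hC1

variable {Q : Type} [NormedAddCommGroup Q] [NormedSpace ℝ Q]

/-- the operator `f ↦ ρ ∂f`. -/
noncomputable def i3cD (ρ : Q × ℝ → ℝ) (f : Q × ℝ → ℝ) : Q × ℝ → ℝ :=
  fun r => ρ r * fderiv ℝ f r (0, 1)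

theorem i3cD_smooth {ρ f : Q × ℝ → ℝ} (hρ : ContDiff ℝ ∞ ρ) (hf : ContDiff ℝ ∞ f) : ContDiff ℝ ∞ (i3cD ρ f) := by
  unfold i3cD
  exact hρ.mul ((hf.fderiv_right (m := ∞) (by simp)).clm_apply contDiff_const)

theorem i3cD_iter_smooth {ρ : Q × ℝ → ℝ} (hρ : ContDiff ℝ ∞ ρ) (n : ℕ) : ∀ {f : Q × ℝ → ℝ}, ContDiff ℝ ∞ f →
    ContDiff ℝ ∞ ((i3cD ρ)^[n] f) := by
  induction n with
  | zero => intro f hf; exact hf
  | succ n ih =>
    intro f hf
    rw [Function.iterate_succ_apply]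
    exact ih (i3cD_smooth hρ hf)

theorem i3c_hasDerivAt {f : Q × ℝ → ℝ} (hf : ContDiff ℝ ∞ f) (q : Q) (x : ℝ) :
    HasDerivAt (fun x => f (q, x)) (fderiv ℝ f (q, x) (0, 1)) x := by
  have h1 := (hf.differentiable (by simp) (q, x)).hasFDerivAt
  have h2 : HasDerivAt (fun t : ℝ => ((q, t) : Q × ℝ)) (0, 1) x :=
    (hasDerivAt_const _ _).prodMk (hasDerivAt_id _)
  exact HasFDerivAt.comp_hasDerivAt x (f := fun t : ℝ => ((q, t) : Q × ℝ)) (l := f) h1 h2

theorem i3c_claim {w ρ : Q × ℝ → ℝ} (hw : ContDiff ℝ ∞ w) (hρ : ContDiff ℝ ∞ ρ) {q : Q}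
    (hq : ∀ᶠ x in 𝓝 (0 : ℝ), ρ (q, x) * fderiv ℝ w (q, x) (0, 1) = 1) (M : ℕ) :
    ∀ {f : Q × ℝ → ℝ}, ContDiff ℝ ∞ f →
    (fun x => f (q, x) - ∑ j ∈ Finset.range (M + 1), ((i3cD ρ)^[j] f) (q, 0) / (j.factorial : ℝ) *
      (w (q, x) - w (q, 0)) ^ j) =O[𝓝 0] fun x : ℝ => x ^ (M + 1) := by
  induction M with
  | zero =>
    intro f hf
    refine i3c_prim (h' := fun x => fderiv ℝ f (q, x) (0, 1)) (n := 0) ?_ ?_ ?_
    · refine Eventually.of_forall fun x => ?_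
      have := (i3c_hasDerivAt hf q x).sub_const (f (q, 0))
      simpa using this
    · simp only [pow_zero]
      have hc : Continuous (fun x : ℝ => fderiv ℝ f (q, x) (0, 1)) := by
        have h1 := ((hf.fderiv_right (m := ∞) (by simp)).clm_apply
          (contDiff_const (c := ((0, 1) : Q × ℝ)))).continuous
        exact h1.comp (by fun_prop)
      exact hc.continuousAt.isBigO_one ℝ
    · simp
  | succ M ih =>
    intro f hf
    have hDf := i3cD_smooth hρ hf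
    have ih' := ih hDf
    refine i3c_prim (h' := fun x => fderiv ℝ w (q, x) (0, 1) * ((i3cD ρ f) (q, x) -
      ∑ j ∈ Finset.range (M + 1), ((i3cD ρ)^[j] (i3cD ρ f)) (q, 0) / (j.factorial : ℝ) *
      (w (q, x) - w (q, 0)) ^ j)) (n := M + 1) ?_ ?_ ?_
    · filter_upwards [hq] with x hx
      have h1 := i3c_hasDerivAt hf q x
      have hW := (i3c_hasDerivAt hw q x).sub_const (w (q, 0))
      have h2 : HasDerivAt (fun x => ∑ j ∈ Finset.range (M + 2), ((i3cD ρ)^[j] f) (q, 0) / (j.factorial : ℝ) *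
          (w (q, x) - w (q, 0)) ^ j)
          (∑ j ∈ Finset.range (M + 2), ((i3cD ρ)^[j] f) (q, 0) / (j.factorial : ℝ) *
          ((j : ℝ) * (w (q, x) - w (q, 0)) ^ (j - 1) * fderiv ℝ w (q, x) (0, 1))) x := by
        refine HasDerivAt.fun_sum fun j _ => ?_
        exact (hW.fun_pow j).const_mul _
      refine (h1.sub h2).congr_deriv ?_
      rw [Finset.sum_range_succ']
      simp only [Nat.cast_zero, zero_mul, mul_zero, add_zero]
      have h3 : fderiv ℝ f (q, x) (0, 1) = fderiv ℝ w (q, x) (0, 1) * (i3cD ρ f) (q, x) := by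
        unfold i3cD
        linear_combination (-(fderiv ℝ f (q, x) (0, 1))) * hx
      rw [h3, mul_sub, Finset.mul_sum]
      congr 1
      refine Finset.sum_congr rfl fun j _ => ?_
      rw [Function.iterate_succ_apply, Nat.add_sub_cancel, Nat.factorial_succ]
      have hj : ((j : ℝ) + 1) ≠ 0 := by positivity
      have hf' : (j.factorial : ℝ) ≠ 0 := by positivity
      push_cast
      field_simp
    · have hc : Continuous (fun x : ℝ => fderiv ℝ w (q, x) (0, 1)) := by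
        have h1 := ((hw.fderiv_right (m := ∞) (by simp)).clm_apply
          (contDiff_const (c := ((0, 1) : Q × ℝ)))).continuous
        exact h1.comp (by fun_prop)
      have := (hc.continuousAt (x := 0)).isBigO_one ℝ |>.mul ih'
      simpa using this
    · rw [Finset.sum_range_succ']
      simp

/-- I.3, Taylor formula in the variable w.

PROOF. ∂w(q,x) := fderiv w (q,x) (0,1) is smooth and ≠ 0 on the compact set C × {0}, so 1/∂w is smooth on the open set {∂w ≠ 0} ⊇ C × {0}; `localise`: a global smooth ρ with ρ ∂w = 1 near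
C × {0}.  For smooth f : Q × ℝ → ℝ put D f (q,x) = ρ(q,x) fderiv f (q,x) (0,1) (smooth).  d j q = (D^(j+1) K)(q,0)/(j+1)!.
For q near C (`𝓝ˢ C`; ∀ᶠ r in 𝓝ˢ (C ×ˢ {0}) implies: ∀ᶠ q in 𝓝ˢ C, ∀ᶠ x in 𝓝 0) we have ρ ∂w = 1 at (q,x) for all x near 0.  Fix such q, W(x) = w(q,x) - w(q,0).  Claim: for all M and all
smooth f: f(q,x) - Σ_{j ≤ M} (D^j f)(q,0)/j! W^j = O(x^(M+1)).  M = 0: f(q,x) - f(q,0) = O(x).  M → M+1: h(x) = f(q,x) - Σ_{j ≤ M+1} (D^j f)(q,0)/j! W(x)^j;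
h'(x) = ∂w(q,x) [Df(q,x) - Σ_{j ≤ M} (D^j Df)(q,0)/j! W^j] near 0 (∂f = ∂w Df near), = O(x^(M+1)) by the claim for Df, and h(0) = 0, so h = O(x^(M+2)) (mean value inequality:
|h(x)| ≤ sup |h'| |x|). -/
theorem exp_powers {Q : Type} [NormedAddCommGroup Q] [NormedSpace ℝ Q] [FiniteDimensional ℝ Q] {w K : Q × ℝ → ℝ}
    (hw : ContDiff ℝ ∞ w) (hK : ContDiff ℝ ∞ K) {C : Set Q} (hC : IsCompact C)
    (h : ∀ q ∈ C, deriv (fun x => w (q, x)) 0 ≠ 0) :
    ∃ d : ℕ → Q → ℝ, (∀ j, ContDiff ℝ ∞ (d j)) ∧ ∀ᶠ q in 𝓝ˢ C, ∀ M : ℕ,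
      (fun x => K (q, x) - K (q, 0) - ∑ j ∈ Finset.range M, d j q * (w (q, x) - w (q, 0)) ^ (j + 1)) =O[𝓝 0]
        fun x : ℝ => x ^ (M + 1) := by
  have hdw : ContDiff ℝ ∞ (fun r : Q × ℝ => fderiv ℝ w r (0, 1)) :=
    (hw.fderiv_right (m := ∞) (by simp)).clm_apply contDiff_const
  set O : Set (Q × ℝ) := {r | fderiv ℝ w r (0, 1) ≠ 0} with hO
  have hOo : IsOpen O := isOpen_ne_fun hdw.continuous continuous_const
  have hCO : C ×ˢ ({0} : Set ℝ) ⊆ O := by
    rintro ⟨q, x⟩ ⟨hq, hx⟩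
    simp only [mem_singleton_iff] at hx
    subst hx
    show fderiv ℝ w (q, 0) (0, 1) ≠ 0
    rw [← (i3c_hasDerivAt hw q 0).deriv]
    exact h q hq
  obtain ⟨ρ, hρ, -, -, hρ1⟩ := localise (f := fun r : Q × ℝ => (fderiv ℝ w r (0, 1))⁻¹)
    (hC.prod isCompact_singleton) hOo hCO (fun r hr => (hdw.contDiffAt.inv hr).contDiffWithinAt)
  have hnear : ∀ᶠ q in 𝓝ˢ C, ∀ᶠ x in 𝓝 (0 : ℝ), ρ (q, x) * fderiv ℝ w (q, x) (0, 1) = 1 := by
    rw [eventually_nhdsSet_iff_forall] at hρ1 ⊢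
    intro q hq
    have h1 := (hρ1 (q, 0) ⟨hq, rfl⟩).and (hOo.mem_nhds (hCO ⟨hq, rfl⟩ : ((q, 0) : Q × ℝ) ∈ O))
    have h2 : ∀ᶠ r in 𝓝 ((q, 0) : Q × ℝ), ρ r * fderiv ℝ w r (0, 1) = 1 := by
      filter_upwards [h1] with r hr
      rw [hr.1]
      exact inv_mul_cancel₀ hr.2
    have h3 := eventually_eventually_nhds.2 h2
    have hc1 : Tendsto (fun q' : Q => ((q', 0) : Q × ℝ)) (𝓝 q) (𝓝 (q, 0)) := by
      have : Continuous (fun q' : Q => ((q', 0) : Q × ℝ)) := by fun_prop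
      exact this.tendsto q
    filter_upwards [hc1.eventually h3] with q' hq'
    have hc2 : Tendsto (fun x : ℝ => ((q', x) : Q × ℝ)) (𝓝 0) (𝓝 (q', 0)) := by
      have : Continuous (fun x : ℝ => ((q', x) : Q × ℝ)) := by fun_prop
      exact this.tendsto 0
    exact hc2.eventually hq'
  refine ⟨fun j q => ((i3cD ρ)^[j + 1] K) (q, 0) / ((j + 1).factorial : ℝ), fun j => ?_, ?_⟩
  · exact ((i3cD_iter_smooth hρ (j + 1) hK).comp (contDiff_id.prodMk contDiff_const)).div_const _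
  · filter_upwards [hnear] with q hq M
    refine (i3c_claim hw hρ hq M hK).congr_left fun x => ?_
    rw [Finset.sum_range_succ']
    simp only [Function.iterate_zero, id_eq, Nat.factorial_zero, Nat.cast_one, div_one, pow_zero, mul_one]
    ring

end Pool.Agent.Lib.H37N
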