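import Mathlib

/-! # H37N, chunk I3d (S/M): uniqueness of the expansion in powers of a function -/

open Set Filter Topology Asymptotics
open scoped ContDiff

namespace Pool.Agent.Lib.H37N

lemma i3d_rev {w : ℝ → ℝ} {w1 : ℝ} (hw : HasDerivAt w w1 0) (hw1 : w1 ≠ 0) :
    (fun x : ℝ => x - 0) =O[𝓝 0] fun x => w x - w 0 := by
  have h1 := hw.isTheta_sub hw1
  have h2 : (fun p : ℝ × ℝ => p.1 - p.2) =O[𝓝 0 ×ˢ pure 0] fun p => w p.1 - w p.2 := h1.2
  have h3 : Tendsto (fun x : ℝ => (x, (0 : ℝ))) (𝓝 0) (𝓝 0 ×ˢ pure 0) :=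
    tendsto_id.prodMk (tendsto_pure.2 (Eventually.of_forall fun _ => rfl))
  exact h2.comp_tendsto h3

lemma i3d_pow {a b : ℕ} (h : b ≤ a) : (fun x : ℝ => x ^ a) =O[𝓝 0] fun x : ℝ => x ^ b := by
  rcases h.eq_or_lt with rfl | h
  · exact isBigO_refl _ _
  · exact (isLittleO_pow_pow h).isBigO

/-- PROOF. W(x) = w x - w 0 satisfies W(x)/x → w1 ≠ 0 (x → 0, x ≠ 0), W = O(x), x = O(W).  Strong induction on j: if e i = 0 for i < j then Σ = W^(j+1) (e j + Σ_{j<i<M} e i W^(i-j)) = O(x^(M+1)),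
M + 1 ≥ j + 2, so dividing by W^(j+1) (x ≠ 0 near 0): e j + O(x) = O(x), so e j = 0 (limit along x → 0, x ≠ 0). -/
theorem pow_unique {w : ℝ → ℝ} {w1 : ℝ} (hw : HasDerivAt w w1 0) (hw1 : w1 ≠ 0) (M : ℕ) (e : ℕ → ℝ)
    (h : (fun x => ∑ j ∈ Finset.range M, e j * (w x - w 0) ^ (j + 1)) =O[𝓝 0] fun x : ℝ => x ^ (M + 1)) :
    ∀ j < M, e j = 0 := by
  intro j
  induction j using Nat.strong_induction_on with
  | _ j ih =>
  intro hj
  have hW0 : (fun x => w x - w 0) =O[𝓝 0] fun x : ℝ => x := by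
    simpa using hw.isBigO_sub
  have hxW : (fun x : ℝ => x) =O[𝓝 0] fun x => w x - w 0 := by
    simpa using i3d_rev hw hw1
  -- the sum reduces to the tail
  have h1 : ∀ x : ℝ, ∑ i ∈ Finset.range M, e i * (w x - w 0) ^ (i + 1) =
      e j * (w x - w 0) ^ (j + 1) +
        ∑ i ∈ Finset.Ico (j + 1) M, e i * (w x - w 0) ^ (i + 1) := by
    intro x
    rw [Finset.range_eq_Ico, ← Finset.sum_Ico_consecutive _ (Nat.zero_le j) hj.le,
      Finset.sum_eq_sum_Ico_succ_bot hj]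
    rw [Finset.sum_eq_zero, zero_add]
    intro i hi
    rw [Finset.mem_Ico] at hi
    rw [ih i hi.2 (by omega), zero_mul]
  have h2 : (fun x => ∑ i ∈ Finset.Ico (j + 1) M, e i * (w x - w 0) ^ (i + 1)) =O[𝓝 0]
      fun x : ℝ => x ^ (j + 2) := by
    have h2' : (∑ i ∈ Finset.Ico (j + 1) M, fun x => e i * (w x - w 0) ^ (i + 1)) =O[𝓝 0]
      fun x : ℝ => x ^ (j + 2) := ?_
    · refine h2'.congr_left fun x => ?_
      rw [Finset.sum_apply]
    apply IsBigO.sum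
    intro i hi
    rw [Finset.mem_Ico] at hi
    have h3 : (fun x => (w x - w 0) ^ (i + 1)) =O[𝓝 0] fun x : ℝ => x ^ (i + 1) := hW0.pow (i + 1)
    have h4 : (fun x : ℝ => x ^ (i + 1)) =O[𝓝 0] fun x : ℝ => x ^ (j + 2) :=
      i3d_pow (by omega)
    exact (h3.trans h4).const_mul_left (e i)
  have h5 : (fun x => e j * (w x - w 0) ^ (j + 1)) =O[𝓝 0] fun x : ℝ => x ^ (j + 2) := by
    have h6 : (fun x => ∑ i ∈ Finset.range M, e i * (w x - w 0) ^ (i + 1)) =O[𝓝 0]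
        fun x : ℝ => x ^ (j + 2) := h.trans (i3d_pow (by omega))
    have h7 := h6.sub h2
    refine h7.congr_left fun x => ?_
    show ∑ i ∈ Finset.range M, e i * (w x - w 0) ^ (i + 1) -
      ∑ i ∈ Finset.Ico (j + 1) M, e i * (w x - w 0) ^ (i + 1) = e j * (w x - w 0) ^ (j + 1)
    rw [h1 x]
    ring
  by_contra hne
  have h8 : (fun x : ℝ => x ^ (j + 1)) =O[𝓝 0] fun x : ℝ => x ^ (j + 2) := by
    have h9 : (fun x : ℝ => x ^ (j + 1)) =O[𝓝 0] fun x => (w x - w 0) ^ (j + 1) := hxW.pow (j + 1)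
    have h10 : (fun x => (w x - w 0) ^ (j + 1)) =O[𝓝 0] fun x => e j * (w x - w 0) ^ (j + 1) :=
      isBigO_self_const_mul (fun h => hne h) _ _
    exact (h9.trans h10).trans h5
  have h11 : (fun x : ℝ => x ^ (j + 2)) =o[𝓝 0] fun x : ℝ => x ^ (j + 1) :=
    isLittleO_pow_pow (by omega)
  have h12 : (fun x : ℝ => x ^ (j + 1)) =o[𝓝 0] fun x : ℝ => x ^ (j + 1) := h8.trans_isLittleO h11
  have h13 := (isLittleO_irrefl' (l := 𝓝 (0 : ℝ)) (f' := fun x : ℝ => x ^ (j + 1)) ?_) h12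
  · exact h13
  · have h14 : ∃ᶠ x : ℝ in 𝓝[≠] 0, x ^ (j + 1) ≠ 0 := by
      apply Eventually.frequently
      filter_upwards [self_mem_nhdsWithin] with x hx
      exact pow_ne_zero _ hx
    exact (h14.filter_mono nhdsWithin_le_nhds).mono fun x hx => norm_ne_zero_iff.2 hx

end Pool.Agent.Lib.H37N
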