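import Pool.Agent.Lib.H37N.IPar
import Pool.Agent.Lib.H37N.I3a
import Pool.Agent.Lib.H37N.I3b
import Pool.Agent.Lib.H37N.I3c
import Pool.Agent.Lib.H37N.I3d

/-! # H37N, chunk I3e (M): Lemma AS1 -/

open Set Filter Topology Asymptotics
open scoped ContDiff

namespace Pool.Agent.Lib.H37N

/-- the path: G_j(z) = t(z) g(z)^j / al1^(j+1) -/
noncomputable def pathG (m : ℕ) (al1 t0 t1 g1 : ℝ) (j : Fin m) (z : ℝ) : ℝ :=
  (t0 + z * (t1 - t0)) * (z * g1) ^ (j : ℕ) / al1 ^ ((j : ℕ) + 1)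

theorem i3e_deriv {m : ℕ} (hm : 1 ≤ m) {t g ka1 : ℝ} {V0 : ℝ → ℝ}
    (hV : ∀ x, V0 x = ka1 * x ^ (m + 1) + ∑ j : Fin m, t * g ^ (j : ℕ) * x ^ ((j : ℕ) + 1)) :
    HasDerivAt V0 t 0 ∧ V0 0 = 0 := by
  set P : ℝ → ℝ := fun x => ka1 * x ^ m + ∑ j : Fin m, t * g ^ (j : ℕ) * x ^ (j : ℕ) with hP
  have hVP : ∀ x, V0 x = x * P x := by
    intro x
    rw [hV]
    simp only [hP, mul_add, Finset.mul_sum]
    congr 1
    · ring
    · exact Finset.sum_congr rfl fun j _ => by ring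
  have hP0 : P 0 = t := by
    obtain ⟨m', rfl⟩ : ∃ m', m = m' + 1 := ⟨m - 1, by omega⟩
    simp only [hP, Fin.sum_univ_succ]
    simp
  have hPd : Differentiable ℝ P := by
    simp only [hP]
    fun_prop
  refine ⟨?_, by rw [hVP]; simp⟩
  have h1 := (hasDerivAt_id (0 : ℝ)).mul (hPd 0).hasDerivAt
  have h2 : V0 = id * P := funext fun x => hVP x
  rw [h2]
  simpa [hP0] using h1

/-- I.3, at p = 0: the coefficient of w^(m+1), w = al2 V.

PROOF. V0 x = ka1 x^(m+1) + Σ t g^j x^(j+1).  `explicit_exp`: x = Σ_{i<m} c_i V0^(i+1) + c V0^(m+1) + O(x^(m+2)), c = (t g^m (1+(-1)^m) - ka1)/t^(m+2).  So K x = ka2 V0^(m+1) + bt x + el V0 is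
Σ_{i<m} (bt c_i + [i=0] el) V0^(i+1) + (ka2 + bt c) V0^(m+1) + O(x^(m+2)), V0 = w/al2 (w 0 = 0).  Subtract the expansion of the hypothesis (K 0 = 0, w 0 = 0): `pow_unique` (M = m+1,
w'(0) = al2 t ≠ 0) gives the coefficient of w^(m+1): d m = (ka2 + bt c)/al2^(m+1). -/
theorem coeff_zero {m : ℕ} (hm : 1 ≤ m) {t g ka1 ka2 bt al2 el : ℝ} (ht : t ≠ 0) (ha : al2 ≠ 0) {w K : ℝ → ℝ} {V0 : ℝ → ℝ}
    (hV : ∀ x, V0 x = ka1 * x ^ (m + 1) + ∑ j : Fin m, t * g ^ (j : ℕ) * x ^ ((j : ℕ) + 1))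
    (hw : ∀ x, w x = al2 * V0 x) (hK : ∀ x, K x = ka2 * V0 x ^ (m + 1) + bt * x + el * V0 x) (d : ℕ → ℝ)
    (h : (fun x => K x - K 0 - ∑ j ∈ Finset.range (m + 1), d j * (w x - w 0) ^ (j + 1)) =O[𝓝 0] fun x : ℝ => x ^ (m + 2)) :
    d m = (ka2 + bt * ((t * g ^ m * (1 + (-1) ^ m) - ka1) / t ^ (m + 2))) / al2 ^ (m + 1) := by
  obtain ⟨hd, hV0⟩ := i3e_deriv hm hV
  have hw0 : w 0 = 0 := by rw [hw, hV0, mul_zero]
  have hK0 : K 0 = 0 := by rw [hK, hV0]; simp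
  have hwd : HasDerivAt w (al2 * t) 0 := by
    have : w = fun x => al2 * V0 x := funext hw
    rw [this]
    exact hd.const_mul al2
  have hexp := explicit_exp hm (g := g) ht hV
  set c : ℝ := (t * g ^ m * (1 + (-1) ^ m) - ka1) / t ^ (m + 2) with hc
  set e : ℕ → ℝ := fun j => if j < m then (bt * ((-g) ^ j / t ^ (j + 1)) + (if j = 0 then el else 0)) / al2 ^ (j + 1)
    else (ka2 + bt * c) / al2 ^ (j + 1) with he
  have hsum : ∀ x, ∑ j ∈ Finset.range (m + 1), e j * (w x - w 0) ^ (j + 1) =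
      bt * ∑ i ∈ Finset.range m, (-g) ^ i / t ^ (i + 1) * V0 x ^ (i + 1) + el * V0 x +
        (ka2 + bt * c) * V0 x ^ (m + 1) := by
    intro x
    rw [Finset.sum_range_succ]
    have h1 : e m * (w x - w 0) ^ (m + 1) = (ka2 + bt * c) * V0 x ^ (m + 1) := by
      simp only [he, lt_irrefl, if_false]
      rw [hw0, sub_zero, hw, mul_pow]
      field_simp
    rw [h1]
    congr 1
    have h2 : ∀ j ∈ Finset.range m, e j * (w x - w 0) ^ (j + 1) =
        bt * ((-g) ^ j / t ^ (j + 1) * V0 x ^ (j + 1)) + (if j = 0 then el * V0 x else 0) := by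
      intro j hj
      have hj' := Finset.mem_range.1 hj
      simp only [he, if_pos hj']
      rw [hw0, sub_zero, hw, mul_pow]
      have hne : al2 ^ (j + 1) ≠ 0 := pow_ne_zero _ ha
      rw [div_mul_eq_mul_div, mul_comm (al2 ^ (j + 1)), ← mul_assoc, mul_div_assoc, div_self hne, mul_one]
      by_cases h0 : j = 0
      · subst h0
        simp
        ring
      · simp only [if_neg h0, add_zero]
        ring
    rw [Finset.sum_congr rfl h2, Finset.sum_add_distrib, ← Finset.mul_sum, Finset.sum_ite_eq']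
    rw [if_pos (Finset.mem_range.2 (by omega))]
  have h3 : (fun x => ∑ j ∈ Finset.range (m + 1), (e j - d j) * (w x - w 0) ^ (j + 1)) =O[𝓝 0]
      fun x : ℝ => x ^ ((m + 1) + 1) := by
    have h4 := h.sub (hexp.const_mul_left bt)
    refine h4.congr' (Eventually.of_forall fun x => ?_) (Eventually.of_forall fun x => rfl)
    have h5 : ∑ j ∈ Finset.range (m + 1), (e j - d j) * (w x - w 0) ^ (j + 1) =
        ∑ j ∈ Finset.range (m + 1), e j * (w x - w 0) ^ (j + 1) -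
          ∑ j ∈ Finset.range (m + 1), d j * (w x - w 0) ^ (j + 1) := by
      rw [← Finset.sum_sub_distrib]
      exact Finset.sum_congr rfl fun j _ => by ring
    simp only []
    rw [h5, hsum, hK0, hK]
    ring
  have h6 := pow_unique hwd (mul_ne_zero ha ht) (m + 1) (fun j => e j - d j) h3 m (Nat.lt_succ_self m)
  have h7 : e m = (ka2 + bt * c) / al2 ^ (m + 1) := by
    simp only [he, lt_irrefl, if_false]
  have h8 : e m - d m = 0 := h6
  rw [← h7]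
  linarith

/-- Lemma AS1.

PROOF. `sign_path` gives t0, t1, g1; G = pathG m al1 t0 t1 g1, smooth (polynomial).  Q = Par × ℝ (p,z), w(q,x) = zt(p,z,x), K(q,x) = K(p,z,x) (reassociate), C = {0} ×ˢ Icc 0 1 compact;
∂_x zt(0,z,0) = al2 t(z) ≠ 0 (G_j(z) (al1 x)^(j+1) = t g^j x^(j+1); only j = 0 contributes; m ≥ 1).  `exp_powers` gives smooth d j.  For (p,z) near C the expansion with M = m+1 holds;
for p near 0 it holds for all z ∈ [0,1] (tube).  `coeff_zero`: d m (0,z) = c(z)/al2^(m+1) for z ∈ [0,1], so d m (0,0) d m (0,1) < 0 (`sign_path`); by continuity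
d m (p,0) d m (p,1) < 0 for p near 0, so by the intermediate value theorem (z ↦ d m (p,z) continuous on [0,1]) there is z with d m (p,z) = 0.  k j = d j (p,z) for j < m; the sum over
range (m+1) is the sum over Fin m plus the zero term.  C: the functions (p,z) ↦ |d j (p,z)|, j < m, are continuous, bounded by some C on {0} ×ˢ [0,1] strictly, so (tube) for p near 0. -/
theorem AS1 {m : ℕ} (hm : 1 ≤ m) {ka1 ka2 bt al1 al2 : ℝ} (h1 : ka1 ≠ 0) (h2 : ka2 ≠ 0) (hb : bt ≠ 0) (ha1 : al1 ≠ 0)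
    (ha2 : al2 ≠ 0) :
    ∃ G : Fin m → ℝ → ℝ, (∀ j, ContDiff ℝ ∞ (G j)) ∧ ∀ (el : ℝ) (zt K : Par × ℝ × ℝ → ℝ), ContDiff ℝ ∞ zt → ContDiff ℝ ∞ K →
      (∀ z x, zt (0, z, x) = al2 * (ka1 * x ^ (m + 1) + ∑ j : Fin m, G j z * (al1 * x) ^ ((j : ℕ) + 1))) →
      (∀ z x, K (0, z, x) = ka2 * (ka1 * x ^ (m + 1) + ∑ j : Fin m, G j z * (al1 * x) ^ ((j : ℕ) + 1)) ^ (m + 1) + bt * x +
        el * (ka1 * x ^ (m + 1) + ∑ j : Fin m, G j z * (al1 * x) ^ ((j : ℕ) + 1))) →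
      ∃ C : ℝ, ∀ᶠ p in 𝓝 (0 : Par), ∃ z ∈ Icc (0 : ℝ) 1, ∃ k : Fin m → ℝ, (∀ j, |k j| ≤ C) ∧
        (fun x => K (p, z, x) - K (p, z, 0) - ∑ j : Fin m, k j * (zt (p, z, x) - zt (p, z, 0)) ^ ((j : ℕ) + 1)) =O[𝓝 0]
          fun x : ℝ => x ^ (m + 2) := by
  obtain ⟨t0, t1, g1, hpath, hsign⟩ := sign_path hm h1 h2 hb
  refine ⟨pathG m al1 t0 t1 g1, ?_, ?_⟩
  · intro j
    unfold pathG
    fun_prop
  intro el zt K hzt hK hzt0 hK0
  have hG : ∀ z x : ℝ, ∑ j : Fin m, pathG m al1 t0 t1 g1 j z * (al1 * x) ^ ((j : ℕ) + 1) =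
      ∑ j : Fin m, (t0 + z * (t1 - t0)) * (z * g1) ^ (j : ℕ) * x ^ ((j : ℕ) + 1) := by
    intro z x
    refine Finset.sum_congr rfl fun j _ => ?_
    have hne : al1 ^ ((j : ℕ) + 1) ≠ 0 := pow_ne_zero _ ha1
    unfold pathG
    rw [mul_pow al1 x, div_mul_eq_mul_div, ← mul_assoc, mul_right_comm, mul_div_assoc, div_self hne, mul_one]
  set V0 : ℝ → ℝ → ℝ := fun z x => ka1 * x ^ (m + 1) +
    ∑ j : Fin m, (t0 + z * (t1 - t0)) * (z * g1) ^ (j : ℕ) * x ^ ((j : ℕ) + 1) with hV0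
  have hzt0' : ∀ z x, zt (0, z, x) = al2 * V0 z x := fun z x => by rw [hzt0, hG]
  have hK0' : ∀ z x, K (0, z, x) = ka2 * V0 z x ^ (m + 1) + bt * x + el * V0 z x :=
    fun z x => by rw [hK0, hG]
  set w : (Par × ℝ) × ℝ → ℝ := fun r => zt (r.1.1, r.1.2, r.2) with hw
  set K' : (Par × ℝ) × ℝ → ℝ := fun r => K (r.1.1, r.1.2, r.2) with hK'
  have hws : ContDiff ℝ ∞ w := hzt.comp
    ((contDiff_fst.fst).prodMk ((contDiff_fst.snd).prodMk contDiff_snd))
  have hKs : ContDiff ℝ ∞ K' := hK.comp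
    ((contDiff_fst.fst).prodMk ((contDiff_fst.snd).prodMk contDiff_snd))
  set C : Set (Par × ℝ) := {0} ×ˢ Icc (0 : ℝ) 1 with hC
  have hCc : IsCompact C := isCompact_singleton.prod isCompact_Icc
  have hCmem : ∀ z ∈ Icc (0 : ℝ) 1, ((0 : Par), z) ∈ C := fun z hz => ⟨rfl, hz⟩
  obtain ⟨d, hd, hexp⟩ := exp_powers hws hKs hCc (by
    rintro ⟨p, z⟩ ⟨hp, hz⟩
    have hp' : p = 0 := hp
    subst hp'
    have h3 : (fun x => w (((0 : Par), z), x)) = fun x => al2 * V0 z x := funext fun x => hzt0' z x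
    rw [h3, ((i3e_deriv hm (V0 := V0 z) fun x => rfl).1.const_mul al2).deriv]
    exact mul_ne_zero ha2 (hpath z hz))
  rw [eventually_nhdsSet_iff_forall] at hexp
  -- the value at p = 0
  have hval : ∀ z ∈ Icc (0 : ℝ) 1, d m ((0 : Par), z) =
      (ka2 + bt * (((t0 + z * (t1 - t0)) * (z * g1) ^ m * (1 + (-1) ^ m) - ka1) /
        (t0 + z * (t1 - t0)) ^ (m + 2))) / al2 ^ (m + 1) := by
    intro z hz
    exact coeff_zero hm (hpath z hz) ha2 (w := fun x => w (((0 : Par), z), x))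
      (K := fun x => K' (((0 : Par), z), x)) (V0 := V0 z) (fun x => rfl) (fun x => hzt0' z x)
      (fun x => hK0' z x) (fun j => d j ((0 : Par), z))
      ((hexp _ (hCmem z hz)).self_of_nhds (m + 1))
  have hneg : d m ((0 : Par), 0) * d m ((0 : Par), 1) < 0 := by
    rw [hval 0 ⟨le_rfl, zero_le_one⟩, hval 1 ⟨zero_le_one, le_rfl⟩]
    have e0 : t0 + 0 * (t1 - t0) = t0 := by ring
    have e1 : t0 + 1 * (t1 - t0) = t1 := by ring
    rw [e0, e1, div_mul_div_comm]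
    exact div_neg_of_neg_of_pos hsign (mul_self_pos.2 (pow_ne_zero _ ha2))
  have hdc : ∀ j, Continuous (d j) := fun j => (hd j).continuous
  have hev1 : ∀ᶠ p in 𝓝 (0 : Par), d m (p, 0) * d m (p, 1) < 0 := by
    have hc : Continuous fun p : Par => d m (p, 0) * d m (p, 1) :=
      ((hdc m).comp (by fun_prop)).mul ((hdc m).comp (by fun_prop))
    exact hc.continuousAt.eventually_lt_const hneg
  -- the bound
  set B : Par × ℝ → ℝ := fun q => ∑ j : Fin m, |d j q| with hB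
  have hBc : Continuous B := by
    rw [hB]
    exact continuous_finsetSum _ fun j _ => (hdc j).abs
  obtain ⟨C0, hC0⟩ := hCc.exists_bound_of_continuousOn hBc.continuousOn
  have hev2 : ∀ᶠ p in 𝓝 (0 : Par), ∀ z ∈ Icc (0 : ℝ) 1, B (p, z) < C0 + 1 := by
    refine isCompact_Icc.eventually_forall_of_forall_eventually fun z hz => ?_
    have h3 : B ((0 : Par), z) < C0 + 1 := by
      have := hC0 _ (hCmem z hz)
      rw [Real.norm_eq_abs] at this
      linarith [le_abs_self (B ((0 : Par), z))]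
    exact hBc.continuousAt.eventually_lt_const h3
  have hev3 : ∀ᶠ p in 𝓝 (0 : Par), ∀ z ∈ Icc (0 : ℝ) 1, ∀ M : ℕ,
      (fun x => K' ((p, z), x) - K' ((p, z), 0) - ∑ j ∈ Finset.range M, d j (p, z) *
        (w ((p, z), x) - w ((p, z), 0)) ^ (j + 1)) =O[𝓝 0] fun x : ℝ => x ^ (M + 1) :=
    isCompact_Icc.eventually_forall_of_forall_eventually fun z hz => hexp _ (hCmem z hz)
  refine ⟨C0 + 1, ?_⟩
  filter_upwards [hev1, hev2, hev3] with p hp1 hp2 hp3
  have hcz : Continuous fun z : ℝ => d m (p, z) := (hdc m).comp (by fun_prop)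
  obtain ⟨z, hz, hz0⟩ : ∃ z ∈ Icc (0 : ℝ) 1, d m (p, z) = 0 := by
    rcases mul_neg_iff.1 hp1 with ⟨h3, h4⟩ | ⟨h3, h4⟩
    · obtain ⟨z, hz, hz'⟩ := intermediate_value_Icc' zero_le_one hcz.continuousOn
        (show (0 : ℝ) ∈ Icc (d m (p, 1)) (d m (p, 0)) from ⟨h4.le, h3.le⟩)
      exact ⟨z, hz, hz'⟩
    · obtain ⟨z, hz, hz'⟩ := intermediate_value_Icc zero_le_one hcz.continuousOn
        (show (0 : ℝ) ∈ Icc (d m (p, 0)) (d m (p, 1)) from ⟨h3.le, h4.le⟩)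
      exact ⟨z, hz, hz'⟩
  refine ⟨z, hz, fun j => d j (p, z), fun j => ?_, ?_⟩
  · have h3 : |d j (p, z)| ≤ B (p, z) :=
      Finset.single_le_sum (f := fun j : Fin m => |d j (p, z)|) (fun i _ => abs_nonneg _)
        (Finset.mem_univ j)
    exact h3.trans (hp2 z hz).le
  · have h3 := hp3 z hz (m + 1)
    refine h3.congr' (Eventually.of_forall fun x => ?_) (Eventually.of_forall fun x => rfl)
    simp only []
    rw [Finset.sum_range_succ, hz0, zero_mul, add_zero, Finset.sum_range]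

end Pool.Agent.Lib.H37N
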