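import Pool.Agent.Lib.H37N.IPar
import Pool.Agent.Lib.H37N.I1c
import Pool.Agent.Lib.H37N.I2e
import Pool.Agent.Lib.H37N.I2f
import Pool.Agent.Lib.H37N.I2g
import Pool.Agent.Lib.H37N.I2h
import Pool.Agent.Lib.H37N.I3e

/-! # H37N, chunk I4a (M): the analytic core of Stage I -/

open Set Filter Topology Asymptotics
open scoped ContDiff

namespace Pool.Agent.Lib.H37N

/-- the whole curve, from the three legs.

PROOF. `first_leg`, then `pass_leg`, `eta_eq` (so mid(..) - (0,b) = (x0 + s^m Ξ, s V2)), then `third_leg`. -/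
theorem cmp_eq {m : ℕ} {I : Ing m} {S T1 T2 : Pt → Pt} {dS sS al1 al2 ka1 ka2 gm2 el : ℝ}
    (hI : I.OK S T1 T2 dS sS al1 al2 ka1 ka2 gm2 el) {lP mP lQ mQ : ℝ} (hd : 0 < dS) (hP : 0 < mP) (hQ : 0 < mQ) {n ν : ℕ}
    {p : Par} (hp : p = parOf m dS sS I.B0 lP mP lQ mQ n ν) (z : ℝ) (k : Fin m → ℝ) {N : Set Pt} {x : ℝ}
    (h : I.Good S T1 T2 dS sS N (p, z, x)) :
    let w := vert T1 (fun X => I.Ph1 (I.par1 (mP ^ n)⁻¹ p z, X)) (0, p.1 * x)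
    w.1 = I.a + p.1 * I.chi (p, z, x) ∧ (lP ^ n * w.1, mP ^ n * w.2 - I.uS) ∈ N ∧ mid lP mP lQ mQ I.uS S n ν w - (0, I.b) ∈ N ∧
      cmp lP mP lQ mQ I.uS S T1 T2 I.b n ν (fun X => I.Ph1 (I.par1 (mP ^ n)⁻¹ p z, X)) (fun X => I.Ph2 (I.par2 p k, X)) (p.1 * x) =
        (I.ZB (p, I.base p) + p.1 * I.zt (p, z, x),
          p.1 ^ (m + 1) * (I.K (p, z, x) - ∑ j : Fin m, k j * I.zt (p, z, x) ^ ((j : ℕ) + 1))) := by
  have h1 := Ing.first_leg (mP ^ n)⁻¹ h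
  have hpl := Ing.pass_leg (lP := lP) (mP := mP) (lQ := lQ) (mQ := mQ) (n := n) (ν := ν) hd hP hQ h
    (by subst hp; rfl) (by subst hp; rfl) (by subst hp; rfl) (by subst hp; rfl)
    (by subst hp; simp [parOf]) (by subst hp; exact parOf_pow hI.hm sS I.B0 lP lQ hd hP hQ n ν)
  have he := Ing.eta_eq hI h
  have ht := Ing.third_leg hI k h
  obtain ⟨hp1, hp2⟩ := hpl
  simp only at h1 hp1 hp2 he ht
  have hmid : mid lP mP lQ mQ I.uS S n ν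
      (vert T1 (fun X => I.Ph1 (I.par1 (mP ^ n)⁻¹ p z, X)) (0, p.1 * x)) - (0, I.b) =
      (p.2.2.2.1 + p.1 ^ m * I.XiQ (p, z, x), p.1 * I.V2 (p, z, x)) := by
    rw [h1, hp1, he]
    simp
  refine ⟨?_, ?_, ?_, ?_⟩
  · rw [h1]; rfl
  · rw [h1]
    simp only
    rw [hp2]
    exact h.gN1
  · rw [hmid]
    exact h.gN2
  · unfold cmp
    rw [hmid, ht]

/-- The analytic core of Stage I.

PROOF. PassFn.Y10: bt := B0 (jac S 0/dS) gm2 al1 ≠ 0 for B0 := 1 (> 0) (hypotheses jac S 0 > 0, gm2, al1 ≠ 0).  `AS1` gives the path G; `exists_ing` with this G, b, B0 = 1, uS: I, el, `OK`.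
(I.Y1 0 = jac S 0/dS, so B0 Y1(0) gm2 al1 = bt.)  Φ1 = I.Ph1, Φ2 = I.Ph2 (`OK.smooth`, `OK.Ph_zero`).  `AS1` applied to el, I.zt, I.K (`OK.at_zero`): C.
Given N1, N2, N: `parOf_tendsto`: sequences n, ν with p_j = parOf .. → 0 and (mP^n)⁻¹ → 0.  For large j (all `∀ᶠ p in 𝓝 0` statements; `Eventually.and`, `Tendsto.eventually`, `.exists`):
AS1's conclusion for p = p_j: z, k; `OK.good` (at z): Good for x near 0; `OK.par1_small`, `OK.par2_small`: the parameters are in N1, N2.  s = p.1 > 0 (`parOf_pos`).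
x = 0 in `cmp_eq` (chi = 0, zt = K = 0 by `OK.at_x0`) gives the statements at t = 0 ((cmp 0) = (ZB(p,base), 0), gN3).  For t near 0, x = t/s: (cmp t).2 = s^(m+1) (K - Σ k zt^(j+1)) =
O(x^(m+2)) = O(t^(m+2)) (K(p,z,0) = zt(p,z,0) = 0). -/
theorem core {m : ℕ} (hm : 1 ≤ m) {lP mP lQ mQ : ℝ} (hr : Rates lP mP lQ mQ) {S T1 T2 : Pt → Pt} {dS sS : ℝ}
    (hS : ∀ᶠ v in 𝓝 (0 : Pt), ContDiffAt ℝ ∞ S v)
    (hS0 : S 0 = (sS, 0)) (hdS : (fderiv ℝ S 0 (0, 1)).2 = dS) (hdS0 : 0 < dS) (hjS : 0 < jac S 0)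
    (hT1 : ∀ᶠ v in 𝓝 (0 : Pt), ContDiffAt ℝ ∞ T1 v) {a1 al1 ka1 : ℝ} (hT10 : T1 0 = (a1, 0))
    (hal1 : (fderiv ℝ T1 0 (0, 1)).1 = al1) (hal10 : al1 ≠ 0)
    (hka1 : (fun t : ℝ => (T1 (0, t)).2 - ka1 * t ^ (m + 1)) =O[𝓝 0] fun t : ℝ => t ^ (m + 2)) (hka10 : ka1 ≠ 0)
    (hT2 : ∀ᶠ v in 𝓝 (0 : Pt), ContDiffAt ℝ ∞ T2 v) {a2 al2 gm2 ka2 : ℝ} (hT20 : T2 0 = (a2, 0))
    (hal2 : (fderiv ℝ T2 0 (0, 1)).1 = al2) (hal20 : al2 ≠ 0) (hgm2 : (fderiv ℝ T2 0 (1, 0)).2 = gm2) (hgm20 : gm2 ≠ 0)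
    (hka2 : (fun t : ℝ => (T2 (0, t)).2 - ka2 * t ^ (m + 1)) =O[𝓝 0] fun t : ℝ => t ^ (m + 2)) (hka20 : ka2 ≠ 0)
    (b uS : ℝ) :
    ∃ Φ1 Φ2 : PE m × ℝ → ℝ, ContDiff ℝ ∞ Φ1 ∧ ContDiff ℝ ∞ Φ2 ∧ (∀ X, Φ1 (0, X) = 0) ∧ (∀ X, Φ2 (0, X) = 0) ∧
      ∀ N1 ∈ 𝓝 (0 : PE m), ∀ N2 ∈ 𝓝 (0 : PE m), ∀ N ∈ 𝓝 (0 : Pt), ∃ n ν : ℕ, ∃ p1 ∈ N1, ∃ p2 ∈ N2,
        (vert T1 (fun X => Φ1 (p1, X)) (0, 0)).1 = a1 ∧
        (lP ^ n * (vert T1 (fun X => Φ1 (p1, X)) (0, 0)).1, mP ^ n * (vert T1 (fun X => Φ1 (p1, X)) (0, 0)).2 - uS) ∈ N ∧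
        mid lP mP lQ mQ uS S n ν (vert T1 (fun X => Φ1 (p1, X)) (0, 0)) - (0, b) ∈ N ∧
        cmp lP mP lQ mQ uS S T1 T2 b n ν (fun X => Φ1 (p1, X)) (fun X => Φ2 (p2, X)) 0 - (a2, 0) ∈ N ∧
        (cmp lP mP lQ mQ uS S T1 T2 b n ν (fun X => Φ1 (p1, X)) (fun X => Φ2 (p2, X)) 0).2 = 0 ∧
        (fun t => (cmp lP mP lQ mQ uS S T1 T2 b n ν (fun X => Φ1 (p1, X)) (fun X => Φ2 (p2, X)) t).2) =O[𝓝 0]
          fun t : ℝ => t ^ (m + 2) := by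
  have hmP : 0 < mP := lt_trans one_pos hr.mP_gt
  have hmQ : 0 < mQ := lt_trans one_pos hr.mQ_gt
  set bt : ℝ := 1 * (jac S 0 / dS) * gm2 * al1 with hbt
  have hbt0 : bt ≠ 0 := by
    have : jac S 0 / dS ≠ 0 := (div_pos hjS hdS0).ne'
    rw [hbt]
    positivity
  obtain ⟨G, hG, hAS⟩ := AS1 hm hka10 hka20 hbt0 hal10 hal20
  obtain ⟨I, el, hIa, hIb, hIa2, hIB0, hIuS, hIG, hI⟩ := exists_ing hm hS hS0 hdS hdS0.ne' hT1 hT10 hal1 hka1 hT2 hT20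
    hal2 hal20 hgm2 hka2 b 1 uS hG
  obtain ⟨-, -, -, -, hszt, hsK, hsP1, hsP2, -⟩ := hI.smooth
  obtain ⟨C, hC⟩ := hAS el I.zt I.K hszt hsK (fun z x => by rw [(hI.at_zero z x).1, hIG])
    (fun z x => by rw [(hI.at_zero z x).2, hIG, hI.pf.Y10, hIB0])
  refine ⟨I.Ph1, I.Ph2, hsP1, hsP2, fun X => (hI.Ph_zero X).1, fun X => (hI.Ph_zero X).2, ?_⟩
  intro N1 hN1 N2 hN2 N hN
  obtain ⟨n, ν, hn, hν, hpar, hmi⟩ := parOf_tendsto hm hr sS hdS0 (B0 := I.B0) (by rw [hIB0]; exact one_pos)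
  have hev1 := hpar.eventually hC
  have hev2 := hpar.eventually (hI.good hN)
  have hev3 := (hmi.prodMk_nhds hpar).eventually (hI.par1_small hN1)
  have hev4 := hpar.eventually (hI.par2_small C hN2)
  obtain ⟨j, ⟨⟨z, hz, k, hk, hO⟩, hgood, hp1, hp2⟩⟩ := (hev1.and (hev2.and (hev3.and hev4))).exists
  set p : Par := parOf m dS sS I.B0 lP mP lQ mQ (n j) (ν j) with hp
  have hs : 0 < p.1 := parOf_pos m sS I.B0 lP lQ hdS0 hmP hmQ (n j) (ν j)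
  obtain ⟨hx1, hx2, hx3, hx4, hx5⟩ := hI.at_x0 p z hs.ne'
  have hg := hgood z hz
  have hc0 := cmp_eq (lP := lP) (lQ := lQ) hI hdS0 hmP hmQ hp z k hg.self_of_nhds
  simp only [mul_zero, hx1, add_zero, hx4, hx5] at hc0
  obtain ⟨hc1, hc2, hc3, hc4⟩ := hc0
  have hzero : (0 : ℝ) - ∑ j : Fin m, k j * (0 : ℝ) ^ ((j : ℕ) + 1) = 0 := by simp
  rw [hzero, mul_zero] at hc4
  refine ⟨n j, ν j, I.par1 (mP ^ n j)⁻¹ p z, hp1 z hz, I.par2 p k, hp2 k hk, ?_, ?_, ?_, ?_, ?_, ?_⟩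
  · rw [hc1, hIa]
  · rw [hIuS] at hc2
    exact hc2
  · rw [hIuS, hIb] at hc3
    exact hc3
  · rw [hIuS, hIb] at hc4
    rw [hc4]
    have := hg.self_of_nhds.gN3
    simp only [hx4, mul_zero, add_zero, hIa2] at this
    simpa using this
  · rw [hIuS, hIb] at hc4
    rw [hc4]
  · -- the order
    have hev : ∀ᶠ t : ℝ in 𝓝 0, (cmp lP mP lQ mQ uS S T1 T2 b (n j) (ν j)
        (fun X => I.Ph1 (I.par1 (mP ^ n j)⁻¹ p z, X)) (fun X => I.Ph2 (I.par2 p k, X)) t).2 =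
        p.1 ^ (m + 1) * (I.K (p, z, t / p.1) - I.K (p, z, 0) -
          ∑ j : Fin m, k j * (I.zt (p, z, t / p.1) - I.zt (p, z, 0)) ^ ((j : ℕ) + 1)) := by
      have ht : Tendsto (fun t : ℝ => t / p.1) (𝓝 0) (𝓝 0) := by
        have : Continuous (fun t : ℝ => t / p.1) := by fun_prop
        simpa using this.tendsto 0
      filter_upwards [ht.eventually hg] with t htg
      have hc := cmp_eq (lP := lP) (lQ := lQ) hI hdS0 hmP hmQ hp z k htg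
      have hc' := hc.2.2.2
      rw [mul_div_cancel₀ t hs.ne', hIuS, hIb] at hc'
      rw [hc', hx4, hx5, sub_zero]
      simp only [sub_zero]
    have ht : Tendsto (fun t : ℝ => t / p.1) (𝓝 0) (𝓝 0) := by
      have : Continuous (fun t : ℝ => t / p.1) := by fun_prop
      simpa using this.tendsto 0
    have hO' := hO.comp_tendsto ht
    have hO2 : (fun t : ℝ => I.K (p, z, t / p.1) - I.K (p, z, 0) -
          ∑ j : Fin m, k j * (I.zt (p, z, t / p.1) - I.zt (p, z, 0)) ^ ((j : ℕ) + 1)) =O[𝓝 0]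
          fun t : ℝ => (t / p.1) ^ (m + 2) := hO'
    refine (IsBigO.congr' (hO2.const_mul_left (p.1 ^ (m + 1))) (hev.mono fun t ht => ht.symm)
      EventuallyEq.rfl).trans ?_
    simp only [div_eq_mul_inv, mul_pow, inv_pow]
    have : (fun t : ℝ => t ^ (m + 2) * (p.1 ^ (m + 2))⁻¹) =O[𝓝 0] fun t : ℝ => t ^ (m + 2) := by
      simp_rw [mul_comm _ ((p.1 ^ (m + 2))⁻¹)]
      exact (isBigO_refl _ _).const_mul_left _
    exact this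

end Pool.Agent.Lib.H37N
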