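import Pool.Agent.Lib.H37N.Defs
import Pool.Agent.Lib.H37C.E1

/-!
# H37N, section M: definitions (charts, local representations of diffeomorphisms of the surface)
-/

open Set Filter Topology
open scoped ContDiff Manifold
open Pool.Agent.Lib.Helper37.ConjBorel Pool.Agent.Lib.H37C

namespace Pool.Agent.Lib.H37N

noncomputable section

/-- the identification of the two models of the plane -/
def LL : Euc 2 ≃L[ℝ] Pt :=
  (EuclideanSpace.equiv (Fin 2) ℝ).trans (ContinuousLinearEquiv.finTwoArrow ℝ ℝ)

/-- a self-map of `Pt`, seen on `Euc 2` -/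
def cj (ψ : Pt → Pt) (x : Euc 2) : Euc 2 := LL.symm (ψ (LL x))

variable {M : Type*} [TopologicalSpace M] [ChartedSpace (Euc 2) M]

/-- a smooth chart whose image contains the closed ball of radius `r` of `Pt` -/
structure BigC (e : OpenPartialHomeomorph M (Euc 2)) (r : ℝ) : Prop where
  mem : e ∈ IsManifold.maximalAtlas (𝓡 2) ∞ M
  big : ∀ z : Pt, ‖z‖ ≤ r → LL.symm z ∈ e.target

/-- the points at which the local representation is meaningful -/
def dom (e : OpenPartialHomeomorph M (Euc 2)) (f : M → M) : Set Pt :=
  {z | LL.symm z ∈ e.target ∧ f (e.symm (LL.symm z)) ∈ e.source}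

open Classical in
/-- the local representation of `f` in the chart `e` (a point outside `K0` where it is not defined) -/
def loc (e : OpenPartialHomeomorph M (Euc 2)) (f : M → M) (z : Pt) : Pt :=
  if z ∈ dom e f then LL (e (f (e.symm (LL.symm z)))) else (10, 10)

end

end Pool.Agent.Lib.H37N
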