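import Pool.Agent.Lib.H37N.MK9
import Pool.Agent.Lib.H37P.L00
import Pool.Agent.Lib.H37C.G2

/-!
# H37N MK10: the approximation theorem and the final theorem for surfaces
-/

open Set Filter Topology MeasureTheory
open scoped ContDiff Manifold
open Pool.Agent.Lib.Helper37.ConjBorel Pool.Agent.Lib.H37C

namespace Pool.Agent.Lib.H37N

/-- APX: there is a nonempty open set of diffeomorphisms of the surface in which maps with a periodic spot are dense. -/
theorem apx (M : Type*) [TopologicalSpace M] [ChartedSpace (Euc 2) M] [T2Space M] [IsManifold (𝓡 2) ∞ M]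
    [Nonempty M] : ∃ V : Set (DiffInf 2 M), IsOpen V ∧ V.Nonempty ∧
      ∀ U : Set (DiffInf 2 M), IsOpen U → U ⊆ V → U.Nonempty → ∃ f ∈ U, HasSpot f :=
  dense_spots (fun _ _ hU hN hne => local_spot hU hN hne) M

/-- no open dense set of diffeomorphisms of a closed surface has a Borel conjugacy relation -/
theorem no_open_dense (M : Type*) [TopologicalSpace M] [T2Space M] [CompactSpace M] [Nonempty M]
    [ChartedSpace (Euc 2) M] [IsManifold (𝓡 2) ∞ M] (S : Set (DiffInf 2 M)) (hS : IsOpen S)
    (hd : Dense S) :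
    ¬ MeasurableSet[borel (S × S)] {p : S × S | TopConj (p.1 : DiffInf 2 M) (p.2 : DiffInf 2 M)} := by
  obtain ⟨V, hV, hne, hV'⟩ := apx M
  have h1 : (V ∩ S).Nonempty := hd.inter_open_nonempty V hV hne
  obtain ⟨f, hf, hs⟩ := hV' (V ∩ S) (hV.inter hS) inter_subset_left h1
  exact (main (by norm_num) hS ⟨f, hf.2, hs⟩).2.2

end Pool.Agent.Lib.H37N
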