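import Pool.Agent.Lib.H37N.MDefs

/-!
# H37N MK3 (size M): regularity of families of small perturbations
-/

open Set Filter Topology
open scoped ContDiff Manifold
open Pool.Agent.Lib.Helper37.ConjBorel Pool.Agent.Lib.H37C

namespace Pool.Agent.Lib.H37N

/-- `RegN` is defined in `Lib/Helper37/ConjBorel/Proof.lean`. Proof. The first part: every `g s` is `C^∞`. Second part, `k ≤ R`:
`iteratedFDeriv ℝ k (g s) z = iteratedFDeriv ℝ k (fun z => g s z - z) z + iteratedFDeriv ℝ k id z` (`iteratedFDeriv_add_apply`); the first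
summand has norm at most `|s|`, which tends to `0` as `(s, z) → (0, x)`, the second is continuous in `z`; at `s = 0` the first summand
is `0`. -/
theorem regN_small {R : ℕ} {g : ℝ → Pt → Pt} (hs : ∀ s, ContDiff ℝ ∞ (g s))
    (hb : ∀ s, ∀ j ≤ R, ∀ z, ‖iteratedFDeriv ℝ j (fun z => g s z - z) z‖ ≤ |s|) (x : Pt) :
    RegN (R : ℕ∞) g 0 x := by
  refine ⟨Eventually.of_forall fun p => (hs p.1).contDiffAt, fun k hk => ?_⟩
  have hk' : k ≤ R := by exact_mod_cast hk
  have hsum : ∀ p : ℝ × Pt, iteratedFDeriv ℝ k (g p.1) p.2 =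
      iteratedFDeriv ℝ k (fun z => g p.1 z - z) p.2 + iteratedFDeriv ℝ k (fun z : Pt => z) p.2 := by
    intro p
    have h1 : ContDiffAt ℝ k (fun z => g p.1 z - z) p.2 :=
      (((hs p.1).sub contDiff_id).of_le (by exact_mod_cast le_top)).contDiffAt
    have h2 : ContDiffAt ℝ k (fun z : Pt => z) p.2 := contDiff_id.contDiffAt
    rw [← iteratedFDeriv_add_apply h1 h2]
    congr 1
    funext z
    simp
  have hfun : (fun p : ℝ × Pt => iteratedFDeriv ℝ k (g p.1) p.2) = fun p =>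
      iteratedFDeriv ℝ k (fun z => g p.1 z - z) p.2 + iteratedFDeriv ℝ k (fun z : Pt => z) p.2 :=
    funext hsum
  rw [hfun]
  refine ContinuousAt.add ?_ ?_
  · have h0 : iteratedFDeriv ℝ k (fun z => g 0 z - z) x = 0 := by
      have := hb 0 k hk' x
      rw [abs_zero] at this
      exact norm_le_zero_iff.1 this
    show Tendsto _ _ (𝓝 (iteratedFDeriv ℝ k (fun z => g 0 z - z) x))
    rw [h0]
    refine squeeze_zero_norm (a := fun p : ℝ × Pt => |p.1|) (fun p => hb p.1 k hk' p.2) ?_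
    have h1 : Continuous (fun p : ℝ × Pt => |p.1|) := by fun_prop
    have h2 := h1.tendsto ((0 : ℝ), x)
    simpa using h2
  · have h1 : Continuous (iteratedFDeriv ℝ k (fun z : Pt => z)) :=
      (contDiff_id (𝕜 := ℝ) (n := ∞)).continuous_iteratedFDeriv (by exact_mod_cast le_top)
    exact (h1.comp continuous_snd).continuousAt

theorem mk3_cj {R : ℕ} {g : ℝ → Pt → Pt} (hs : ∀ s, ContDiff ℝ ∞ (g s))
    (hb : ∀ s, ∀ j ≤ R, ∀ z, ‖iteratedFDeriv ℝ j (fun z => g s z - z) z‖ ≤ |s|) (y : Euc 2) :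
    RegN (R : ℕ∞) (fun s => cj (g s)) 0 y := by
  have h1 : RegN (R : ℕ∞) (fun _ : ℝ => (LL : Euc 2 → Pt)) 0 y :=
    regN_of_contDiffOn isOpen_univ LL.contDiff.contDiffOn 0 (mem_univ _)
  have h2 : RegN (R : ℕ∞) (fun s => g s ∘ (LL : Euc 2 → Pt)) 0 y :=
    RegN.comp (G := g) (H := fun _ : ℝ => (LL : Euc 2 → Pt)) (regN_small hs hb _) h1
  have h3 : RegN (R : ℕ∞) (fun _ : ℝ => (LL.symm : Pt → Euc 2)) 0 ((g 0 ∘ (LL : Euc 2 → Pt)) y) :=
    regN_of_contDiffOn isOpen_univ LL.symm.contDiff.contDiffOn 0 (mem_univ _)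
  exact RegN.comp (G := fun _ : ℝ => (LL.symm : Pt → Euc 2)) (H := fun s => g s ∘ (LL : Euc 2 → Pt)) h3 h2

variable {M : Type*} [TopologicalSpace M] [ChartedSpace (Euc 2) M]

/-- The family `s ↦ ext e (cj (g s)) ∘ f` is jointly continuous and regular up to order `R` at `s = 0`.
Proof. `g 0 z = z` (`hb` for `s = 0`, `j = 0`). Let `m0 = f (φ.symm x0)`. CASE 1: `m0 ∈ e.source`. Near `(0, x0)`:
`f (φ.symm x) ∈ e.source`, and `cj (g s) (e (f (φ.symm x))) ∈ e.target` (continuity of `(s, y) ↦ g s y`, from `regN_small` and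
`RegN.continuousAt`; the value at `(0, x0)` is `e m0 ∈ e.target`). The expression is `(χ ∘ e.symm ∘ LL.symm) ∘ g s ∘ (LL ∘ e ∘ f ∘ φ.symm)`:
`RegN.comp` twice with `regN_of_contDiffOn` for the two fixed maps (`contDiffOn_change`, `contDiffOn_expr`, `isOpen_expr`; `LL`
is linear), then `RegN.congr`. Continuity: composition. CASE 2: `m0 ∉ e.source`. The set `A = e.symm '' (LL.symm '' K0)` is compact
(`K0` is in the ball of radius `4 ≤ r`, `he.big`), so closed (`T2Space`), `m0 ∉ A`, and `ext e (cj (g s)) m = m` for `m ∉ A` (`g s` is the identity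
off `K0`). So near `(0, x0)` the family is the fixed map `χ ∘ f ∘ φ.symm`. Compare `jc_ext` in `H37C/E2.lean`. -/
theorem family_reg [T2Space M] [IsManifold (𝓡 2) ∞ M] {e : OpenPartialHomeomorph M (Euc 2)} {r : ℝ}
    (he : BigC e r) (hr : 4 ≤ r) {R : ℕ} {g : ℝ → Pt → Pt} (hs : ∀ s, ContDiff ℝ ∞ (g s))
    (hb : ∀ s, ∀ j ≤ R, ∀ z, ‖iteratedFDeriv ℝ j (fun z => g s z - z) z‖ ≤ |s|)
    (hK : ∀ s z, z ∉ K0 → g s z = z) (f : DiffInf 2 M) {φ χ : OpenPartialHomeomorph M (Euc 2)}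
    (hφ : φ ∈ IsManifold.maximalAtlas (𝓡 2) ∞ M) (hχ : χ ∈ IsManifold.maximalAtlas (𝓡 2) ∞ M)
    {x0 : Euc 2} (hx0 : x0 ∈ φ.target) (hfx : f (φ.symm x0) ∈ χ.source) :
    ContinuousAt (fun p : ℝ × Euc 2 => ext e (cj (g p.1)) (f (φ.symm p.2))) (0, x0) ∧
    RegN (R : ℕ∞) (fun s => χ ∘ (fun m => ext e (cj (g s)) (f m)) ∘ φ.symm) 0 x0 := by
  have hg0 : ∀ z, g 0 z = z := by
    intro z
    have h1 := hb 0 0 (Nat.zero_le _) z
    rw [norm_iteratedFDeriv_zero, abs_zero] at h1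
    exact sub_eq_zero.1 (norm_le_zero_iff.1 h1)
  have hcj0 : ∀ y, cj (g 0) y = y := by
    intro y
    show LL.symm (g 0 (LL y)) = y
    rw [hg0, ContinuousLinearEquiv.symm_apply_apply]
  have hev : ∀ {s : Set M}, IsOpen s → f (φ.symm x0) ∈ s →
      ∀ᶠ p : ℝ × Euc 2 in 𝓝 (0, x0), f (φ.symm p.2) ∈ s := by
    intro s hs h
    have h1 : ContinuousAt (fun p : ℝ × Euc 2 => f (φ.symm p.2)) (0, x0) :=
      ContinuousAt.comp (g := f) (f := fun p : ℝ × Euc 2 => φ.symm p.2) f.continuous.continuousAt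
        (ContinuousAt.comp (g := φ.symm) (f := fun p : ℝ × Euc 2 => p.2) (φ.symm.continuousAt hx0)
          continuous_snd.continuousAt)
    exact h1.eventually (hs.mem_nhds h)
  by_cases hm : f (φ.symm x0) ∈ e.source
  · have hA : RegN (R : ℕ∞) (fun _ : ℝ => (e ∘ f ∘ φ.symm : Euc 2 → Euc 2)) 0 x0 :=
      regN_of_contDiffOn (isOpen_expr f.continuous φ e) (contDiffOn_expr f.contMDiff hφ he.mem) 0
        ⟨hx0, hm⟩
    have hC : RegN (R : ℕ∞) (fun s : ℝ => cj (g s) ∘ (e ∘ f ∘ φ.symm : Euc 2 → Euc 2)) 0 x0 :=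
      RegN.comp (G := fun s => cj (g s)) (H := fun _ => (e ∘ f ∘ φ.symm : Euc 2 → Euc 2))
        (mk3_cj hs hb _) hA
    have hval : (cj (g 0) ∘ (e ∘ f ∘ φ.symm : Euc 2 → Euc 2)) x0 = e (f (φ.symm x0)) := hcj0 _
    have hB : RegN (R : ℕ∞) (fun _ : ℝ => (χ ∘ e.symm : Euc 2 → Euc 2)) 0
        ((cj (g 0) ∘ (e ∘ f ∘ φ.symm : Euc 2 → Euc 2)) x0) := by
      rw [hval]
      refine regN_of_contDiffOn (isOpen_expr (f := id) continuous_id e χ)
        (contDiffOn_change he.mem hχ) 0 ⟨e.map_source hm, ?_⟩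
      show e.symm (e (f (φ.symm x0))) ∈ χ.source
      rw [e.left_inv hm]
      exact hfx
    have hD : RegN (R : ℕ∞) (fun s : ℝ => (χ ∘ e.symm : Euc 2 → Euc 2) ∘
        (cj (g s) ∘ (e ∘ f ∘ φ.symm : Euc 2 → Euc 2))) 0 x0 :=
      RegN.comp (G := fun _ : ℝ => (χ ∘ e.symm : Euc 2 → Euc 2))
        (H := fun s : ℝ => cj (g s) ∘ (e ∘ f ∘ φ.symm : Euc 2 → Euc 2)) hB hC
    constructor
    · have h1 : ContinuousAt (fun p : ℝ × Euc 2 => e.symm (cj (g p.1) (e (f (φ.symm p.2))))) (0, x0) := by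
        refine ContinuousAt.comp (g := e.symm)
          (f := fun p : ℝ × Euc 2 => cj (g p.1) (e (f (φ.symm p.2)))) ?_ hC.continuousAt
        have h2 : cj (g (0 : ℝ)) (e (f (φ.symm x0))) = e (f (φ.symm x0)) := hcj0 _
        show ContinuousAt e.symm (cj (g (0 : ℝ)) (e (f (φ.symm x0))))
        rw [h2]
        exact e.symm.continuousAt (e.map_source hm)
      refine h1.congr ?_
      filter_upwards [hev e.open_source hm] with p hp
      exact (ext_of_mem hp).symm
    · refine hD.congr ?_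
      filter_upwards [hev e.open_source hm] with p hp
      show χ (e.symm (cj (g p.1) (e (f (φ.symm p.2))))) = χ (ext e (cj (g p.1)) (f (φ.symm p.2)))
      rw [ext_of_mem hp]
  · have hK0c : IsCompact K0 := isCompact_Icc.prod isCompact_Icc
    have hsub : LL.symm '' K0 ⊆ e.target := by
      rintro _ ⟨z, hz, rfl⟩
      refine he.big z (le_trans ?_ hr)
      obtain ⟨h1, h2⟩ := hz
      rw [mem_Icc] at h1 h2
      rw [Prod.norm_def]
      refine max_le ?_ ?_
      · rw [Real.norm_eq_abs, abs_le]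
        constructor <;> linarith
      · rw [Real.norm_eq_abs, abs_le]
        constructor <;> linarith
    have hclosed : IsClosed (e.symm '' (LL.symm '' K0)) :=
      ((hK0c.image LL.symm.continuous).image_of_continuousOn (e.continuousOn_symm.mono hsub)).isClosed
    have hnot : f (φ.symm x0) ∉ e.symm '' (LL.symm '' K0) := by
      rintro ⟨x, hx, hx2⟩
      apply hm
      rw [← hx2]
      exact e.map_target (hsub hx)
    have hoff : ∀ (s : ℝ) (m : M), m ∉ e.symm '' (LL.symm '' K0) → ext e (cj (g s)) m = m := by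
      intro s m hmA
      by_cases h : m ∈ e.source
      · rw [ext_of_mem h]
        have h1 : LL (e m) ∉ K0 := by
          intro h2
          exact hmA ⟨e m, ⟨LL (e m), h2, LL.symm_apply_apply _⟩, e.left_inv h⟩
        have h2 : cj (g s) (e m) = e m := by
          show LL.symm (g s (LL (e m))) = e m
          rw [hK s _ h1, ContinuousLinearEquiv.symm_apply_apply]
        rw [h2, e.left_inv h]
      · exact ext_of_notMem h
    have hev2 := hev hclosed.isOpen_compl hnot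
    constructor
    · have h1 : ContinuousAt (fun p : ℝ × Euc 2 => f (φ.symm p.2)) (0, x0) :=
        ContinuousAt.comp (g := f) (f := fun p : ℝ × Euc 2 => φ.symm p.2) f.continuous.continuousAt
          (ContinuousAt.comp (g := φ.symm) (f := fun p : ℝ × Euc 2 => p.2) (φ.symm.continuousAt hx0)
            continuous_snd.continuousAt)
      refine h1.congr ?_
      filter_upwards [hev2] with p hp
      exact (hoff p.1 _ hp).symm
    · have hA : RegN (R : ℕ∞) (fun _ : ℝ => (χ ∘ f ∘ φ.symm : Euc 2 → Euc 2)) 0 x0 :=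
        regN_of_contDiffOn (isOpen_expr f.continuous φ χ) (contDiffOn_expr f.contMDiff hφ hχ) 0
          ⟨hx0, hfx⟩
      refine hA.congr ?_
      filter_upwards [hev2] with p hp
      show χ (f (φ.symm p.2)) = χ (ext e (cj (g p.1)) (f (φ.symm p.2)))
      rw [hoff p.1 _ hp]

end Pool.Agent.Lib.H37N
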