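import Pool.Agent.Lib.H37N.MK4

/-!
# H37N MK5 (size M): open sets of diffeomorphisms which are stable under perturbations of bounded order
-/

open Set Filter Topology
open scoped ContDiff Manifold
open Pool.Agent.Lib.Helper37.ConjBorel Pool.Agent.Lib.H37C

namespace Pool.Agent.Lib.H37N

variable {M : Type*} [TopologicalSpace M] [ChartedSpace (Euc 2) M]

theorem mk5_mono {R R' : ℕ} {ε ε' : ℝ} {ψ : Pt → Pt} (h : Small R ε ψ) (hR : R' ≤ R)
    (hε : ε ≤ ε') : Small R' ε' ψ :=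
  ⟨h.smooth, h.supp, fun j hj z => (h.bound j (hj.trans hR) z).trans hε⟩

/-- Proof. The topology of `DiffInf 2 M` is generated by the basic sets (`cInfTopology`): there are finitely many basic sets
containing `f` whose intersection `U'` is contained in `U` (`TopologicalSpace.isTopologicalBasis_of_subbasis`, or
`TopologicalSpace.nhds_generateFrom` and finite infima of principal filters, or induction on `GenerateOpen`). `R` = the maximum of their orders `k`
(finite set). For `f1 ∈ U'` take the minimum of the `ε` of `basic_stable` for the finitely many sets (`Small.mono`-type monotonicity in `ε` is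
immediate from the definition). -/
theorem stable_nhd [T2Space M] [IsManifold (𝓡 2) ∞ M] {e : OpenPartialHomeomorph M (Euc 2)} {r : ℝ}
    (he : BigC e r) (hr : 4 ≤ r) {U : Set (DiffInf 2 M)} (hU : IsOpen U) {f : DiffInf 2 M}
    (hf : f ∈ U) : ∃ (R : ℕ) (U' : Set (DiffInf 2 M)), IsOpen U' ∧ f ∈ U' ∧ U' ⊆ U ∧
      ∀ f1 ∈ U', ∃ ε > (0 : ℝ), ∀ ψ, Small R ε ψ → ∀ f2 : DiffInf 2 M,
        (∀ z, f2 z = ext e (cj ψ) (f1 z)) → f2 ∈ U' := by
  have hU' : TopologicalSpace.GenerateOpen _ U := hU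
  induction hU' with
  | basic s hs =>
    obtain ⟨f0, φ, χ, C, k, ε0, h1, h2, h3, h4, h5, h6, rfl⟩ := id hs
    refine ⟨k, basicSet f0 φ χ C k ε0, TopologicalSpace.isOpen_generateFrom_of_mem hs, hf,
      Subset.rfl, fun f1 hf1 => ?_⟩
    exact basic_stable he hr h1 h2 h3 h4 h5 le_rfl hf1
  | univ =>
    exact ⟨0, univ, isOpen_univ, mem_univ _, Subset.rfl, fun f1 _ => ⟨1, one_pos,
      fun _ _ _ _ => mem_univ _⟩⟩
  | inter s t hs ht ih1 ih2 =>
    obtain ⟨R1, U1, ho1, hf1, hs1, hp1⟩ := ih1 hs hf.1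
    obtain ⟨R2, U2, ho2, hf2, hs2, hp2⟩ := ih2 ht hf.2
    refine ⟨max R1 R2, U1 ∩ U2, ho1.inter ho2, ⟨hf1, hf2⟩, inter_subset_inter hs1 hs2,
      fun f1 h => ?_⟩
    obtain ⟨ε1, he1, h1⟩ := hp1 f1 h.1
    obtain ⟨ε2, he2, h2⟩ := hp2 f1 h.2
    refine ⟨min ε1 ε2, lt_min he1 he2, fun ψ hψ f2 hf2 => ⟨?_, ?_⟩⟩
    · exact h1 ψ (mk5_mono hψ (le_max_left _ _) (min_le_left _ _)) f2 hf2
    · exact h2 ψ (mk5_mono hψ (le_max_right _ _) (min_le_right _ _)) f2 hf2
  | sUnion S hS ih =>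
    obtain ⟨s, hs, hfs⟩ := hf
    obtain ⟨R1, U1, ho1, hf1, hs1, hp1⟩ := ih s hs (hS s hs) hfs
    exact ⟨R1, U1, ho1, hf1, hs1.trans (subset_sUnion_of_mem hs), hp1⟩

end Pool.Agent.Lib.H37N
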