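import Pool.Agent.Lib.H37N.MK1
import Pool.Agent.Lib.H37N.MK5
import Pool.Agent.Lib.H37N.T8

/-!
# H37N MK6 (size M): local representations of perturbed diffeomorphisms
-/

open Set Filter Topology
open scoped ContDiff Manifold
open Pool.Agent.Lib.Helper37.ConjBorel Pool.Agent.Lib.H37C

namespace Pool.Agent.Lib.H37N

variable {M : Type*} [TopologicalSpace M] [ChartedSpace (Euc 2) M]

theorem mk6_norm {z : Pt} (hz : z ∈ K0) : ‖z‖ ≤ 4 := by
  obtain ⟨⟨h1, h2⟩, h3, h4⟩ := hz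
  rw [Prod.norm_def, Real.norm_eq_abs, Real.norm_eq_abs]
  exact max_le (abs_le.2 ⟨by linarith, h2⟩) (abs_le.2 ⟨by linarith, h4⟩)

theorem mk6_cj {e : OpenPartialHomeomorph M (Euc 2)} {r : ℝ} (he : BigC e r) (hr : 4 ≤ r)
    {ψ : Pt → Pt} (hψ : Small 1 (1 / 2) ψ) {x : Euc 2} (hx : x ∈ e.target) :
    cj ψ x ∈ e.target := by
  by_cases h : LL x ∈ K0
  · exact he.big _ ((mk6_norm (hψ.mem_K0 h)).trans hr)
  · have h1 : cj ψ x = x := by
      rw [cj, hψ.supp _ h, LL.symm_apply_apply]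
    rw [h1]
    exact hx

/-- Proof. `ψ` is a bijection which is the identity off `K0` and maps `K0` to `K0` (`Small.mem_K0`), and `LL.symm '' K0 ⊆ e.target` (`K0` is in the ball
of radius `4`). For `m ∈ e.source`: `cj ψ (e m) ∈ e.target`, so `ext e (cj ψ) m = e.symm (cj ψ (e m)) ∈ e.source` and
`e (ext e (cj ψ) m) = cj ψ (e m)`; for `m ∉ e.source`: `ext e (cj ψ) m = m ∉ e.source`. So the two sets `dom` agree, on `dom`:
`LL (cj ψ (e (f z'))) = ψ (LL (e (f z')))`, off `dom`: `ψ (10,10) = (10,10)`. -/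
theorem loc_ext {e : OpenPartialHomeomorph M (Euc 2)} {r : ℝ} (he : BigC e r) (hr : 4 ≤ r)
    {ψ : Pt → Pt} (hψ : Small 1 (1 / 2) ψ) (f : M → M) :
    loc e (fun m => ext e (cj ψ) (f m)) = ψ ∘ loc e f := by
  funext z
  show loc e (fun m => ext e (cj ψ) (f m)) z = ψ (loc e f z)
  by_cases h : z ∈ dom e f
  · have h2 := mk6_cj he hr hψ (e.map_source h.2)
    have h' : z ∈ dom e (fun m => ext e (cj ψ) (f m)) := by
      refine ⟨h.1, ?_⟩
      show ext e (cj ψ) (f (e.symm (LL.symm z))) ∈ e.source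
      rw [ext_of_mem h.2]
      exact e.map_target h2
    rw [loc, loc, if_pos h', if_pos h, ext_of_mem h.2, e.right_inv h2, cj,
      LL.apply_symm_apply]
  · have h' : z ∉ dom e (fun m => ext e (cj ψ) (f m)) := by
      intro hh
      apply h
      refine ⟨hh.1, ?_⟩
      by_contra hn
      have h3 : ext e (cj ψ) (f (e.symm (LL.symm z))) ∈ e.source := hh.2
      rw [ext_of_notMem hn] at h3
      exact hn h3
    rw [loc, loc, if_neg h', if_neg h, hψ.supp]
    rintro ⟨⟨_, h4⟩, _⟩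
    have h5 : (10 : ℝ) ≤ 4 := h4
    norm_num at h5

/-- Proof. Let `g = loc e f1`, `f1 ∈ U'`, `ε` from the hypothesis, `ε' = min ε (1/2)`. `ψ` with `Small (max R 1) ε' ψ` is also
`Small R ε` and `Small 1 (1/2)` (`Small.mono`, T8). `Small.exists_inverse` gives a `C^∞` inverse, so `exists_diffK` for `cj ψ` (support in
the compact set `LL.symm '' K0 ⊆ e.target`) gives `G : DiffInf 2 M` with `G z = ext e (cj ψ) z`; `f2 = f1.trans G ∈ U'`, and
`loc e f2 = ψ ∘ loc e f1` (`loc_ext`). -/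
theorem pertOpen_loc [T2Space M] [IsManifold (𝓡 2) ∞ M] {e : OpenPartialHomeomorph M (Euc 2)} {r : ℝ}
    (he : BigC e r) (hr : 4 ≤ r) {R : ℕ} {U' : Set (DiffInf 2 M)}
    (h : ∀ f1 ∈ U', ∃ ε > (0 : ℝ), ∀ ψ, Small R ε ψ → ∀ f2 : DiffInf 2 M,
      (∀ z, f2 z = ext e (cj ψ) (f1 z)) → f2 ∈ U') :
    PertOpen (max R 1) ((fun f : DiffInf 2 M => loc e f) '' U') := by
  rintro _ ⟨f1, hf1, rfl⟩
  obtain ⟨ε, hε, h1⟩ := h f1 hf1
  refine ⟨min ε (1 / 2), lt_min hε (by norm_num), fun ψ hψ => ?_⟩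
  have hψ1 : Small 1 (1 / 2) ψ := hψ.mono (le_max_right _ _) (min_le_right _ _)
  have hψR : Small R ε ψ := hψ.mono (le_max_left _ _) (min_le_left _ _)
  obtain ⟨φ, hφ, i1, i2, i3⟩ := hψ1.exists_inverse
  have hK : IsCompact (LL.symm '' K0) :=
    (isCompact_Icc.prod isCompact_Icc).image LL.symm.continuous
  have hKe : LL.symm '' K0 ⊆ e.target := by
    rintro _ ⟨z, hz, rfl⟩
    exact he.big z ((mk6_norm hz).trans hr)
  have hcd : ∀ {θ : Pt → Pt}, ContDiff ℝ ∞ θ → ContDiff ℝ ∞ (cj θ) := fun hθ =>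
    LL.symm.contDiff.comp (hθ.comp LL.contDiff)
  obtain ⟨G, hG⟩ := exists_diffK he.mem hK hKe (hcd hψ.smooth) (hcd hφ)
    (fun x => by
      show LL.symm (φ (LL (LL.symm (ψ (LL x))))) = x
      rw [LL.apply_symm_apply, i1, LL.symm_apply_apply])
    (fun x => by
      show LL.symm (ψ (LL (LL.symm (φ (LL x))))) = x
      rw [LL.apply_symm_apply, i2, LL.symm_apply_apply])
    (fun x hx => by
      have h2 : LL x ∉ K0 := fun h3 => hx ⟨LL x, h3, LL.symm_apply_apply x⟩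
      show LL.symm (ψ (LL x)) = x
      rw [hψ.supp _ h2, LL.symm_apply_apply])
  have hf2 : ∀ z, (f1.trans G) z = ext e (cj ψ) (f1 z) := fun z => hG (f1 z)
  refine ⟨f1.trans G, h1 ψ hψR (f1.trans G) hf2, ?_⟩
  show loc e (f1.trans G) = ψ ∘ loc e f1
  rw [← loc_ext he hr hψ1 f1]
  congr 1
  funext z
  exact hf2 z

/-- Proof. Let `K, W0` be as in `LocalSpot`. For `v ∈ W0`: `v ∈ Om ⊆ dom e f` (`0 < K`), so `LL.symm v ∈ e.target`. Put
`W = e.source ∩ {m | LL (e m) ∈ W0}`, open and nonempty. For `m ∈ W`, `v = LL (e m)`: by induction on `i ≤ K`,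
`f^[i] m = e.symm (LL.symm ((loc e f)^[i] v))` and `f^[i] m ∈ e.source` (for `z ∈ Om ⊆ dom e f`, `loc e f z = LL (e (f (e.symm (LL.symm z))))` and
`f (e.symm ..) ∈ e.source`). For `i = K`: `f^[K] m = e.symm (LL.symm v) = m`. -/
theorem hasSpot_of_local {e : OpenPartialHomeomorph M (Euc 2)} {f : DiffInf 2 M}
    (hd : Om ⊆ dom e f) (h : LocalSpot (loc e f)) : HasSpot f := by
  obtain ⟨K, hK, W0, hW0, ⟨v0, hv0⟩, hv⟩ := h
  refine ⟨K, hK, e.source ∩ e ⁻¹' (LL ⁻¹' W0),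
    e.isOpen_inter_preimage (hW0.preimage LL.continuous), ?_, ?_⟩
  · have h1 : v0 ∈ dom e f := hd ((hv v0 hv0).1 0 hK)
    refine ⟨e.symm (LL.symm v0), e.map_target h1.1, ?_⟩
    show LL (e (e.symm (LL.symm v0))) ∈ W0
    rw [e.right_inv h1.1, LL.apply_symm_apply]
    exact hv0
  · rintro m ⟨hm, hmW⟩
    have hmW' : LL (e m) ∈ W0 := hmW
    obtain ⟨h1, h2⟩ := hv _ hmW'
    have key : ∀ i ≤ K, f^[i] m = e.symm (LL.symm ((loc e f)^[i] (LL (e m)))) := by
      intro i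
      induction i with
      | zero =>
        intro _
        show m = e.symm (LL.symm (LL (e m)))
        rw [LL.symm_apply_apply, e.left_inv hm]
      | succ i ih =>
        intro hi
        have h3 := ih (Nat.le_of_succ_le hi)
        have h4 : (loc e f)^[i] (LL (e m)) ∈ dom e f := hd (h1 i hi)
        rw [Function.iterate_succ_apply', Function.iterate_succ_apply', h3]
        conv_rhs => rw [loc, if_pos h4]
        rw [LL.symm_apply_apply, e.left_inv h4.2]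
    rw [key K le_rfl, h2, LL.symm_apply_apply, e.left_inv hm]

end Pool.Agent.Lib.H37N
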