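import Pool.Agent.Lib.H37N.MM2
import Pool.Agent.Lib.H37N.MM4

/-!
# H37N MM6 (size M): the model diffeomorphism `F_*` (M3)
-/

open Set Filter Topology
open scoped ContDiff

namespace Pool.Agent.Lib.H37N

theorem mm6_box {F G : Pt → Pt} {S : Set Pt} {a b c d : ℝ} (hS : S ⊆ Ioo a b ×ˢ Ioo c d)
    (h : ∀ x y : ℝ, a < x → x < b → c < y → y < d → F (x, y) = G (x, y)) :
    ∀ᶠ z in 𝓝ˢ S, F z = G z := by
  have hO : IsOpen (Ioo a b ×ˢ Ioo c d : Set Pt) := isOpen_Ioo.prod isOpen_Ioo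
  have h1 : (Ioo a b ×ˢ Ioo c d : Set Pt) ∈ 𝓝ˢ S := (hO.mem_nhdsSet).2 hS
  filter_upwards [h1] with z hz
  exact h z.1 z.2 hz.1.1 hz.1.2 hz.2.1 hz.2.2

/-- `F_* = A2 ∘ Rot ∘ A1`. Proof. `A1` = `fibre_affine` (`C = 2`) for the profile with the intervals
`[-2 del, 4/5 + 2 del]` (`l = 1/2`, `c = 0`), `[xc - u0 - del, xc + u0 + del]` (`l = gam / 100`,
`c x = yc - gam / 200 - (x - xc)^2 / (20 gam)`), `[801/1000 - 2 del, 1 + 2 del]` (`l = 499/1000`, `c = 501/1000`).
`Rot` = `twist (xc, yc)` with `r0 = 3/10 gam`, `r1 = 45/100 gam`. `A2` = `IsCDiff.swap` of `fibre_affine` (`C = 2`) for the profile with the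
intervals `[-2 del, 1/2 + 2 del]` (`l = 5/4`, `c = 0`), `[yc - 27/100 gam, yc + 27/100 gam]` (`l = 50/gam`,
`c = 1/2 - 50/gam * xc`), `[501/1000 - 2 del, 1 + 2 del]` (`l = 1000/199`, `c = -801/199`).
Values: for `z` in the box `(-2 del, 4/5 + 2 del) × (-2 del, 1 + 2 del)`: `A1 z = (x, y/2)`, whose first coordinate is at distance
`≥ gam/2 - 2 del > r1` from `xc`, so `Rot` fixes it, and the height `y/2` is in `[-2 del, 1/2 + 2 del]`: `A2` gives `(5/4 x, y/2) = Aff P z`.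
For `Q` similarly. Near `FF`: `|u| < u0 + del`, `u = x - xc`, `-2 del < y < 1 + 2 del`: `A1 z = (x, yc + w)`,
`w = gam/100 (y - 1/2) - u^2 / (20 gam)`, `|w| ≤ gam/100`, `u^2 + w^2 ≤ r0^2`: `Rot` gives `(xc + w, yc - u)`, `|u| ≤ 27/100 gam`: `A2` gives
`(1/2 + 50/gam w, yc - u) = (1/2 + 1/2 (y - 1/2) - 5/(2 gam^2) u^2, yc - u) = Fold z` (`5/(2 gam^2) = dd`). The three boxes are open
neighbourhoods of `VV P`, `VV Q`, `FF`. -/
theorem model_exists : ∃ Fs : Pt → Pt, IsCDiff Fs ∧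
    (∀ i, ∀ᶠ z in 𝓝ˢ (VV i), Fs z = Aff i z) ∧ ∀ᶠ z in 𝓝ˢ FF, Fs z = Fold z := by
  obtain ⟨lam, c, hls, hcs, hlp, ⟨K, hK⟩, hval⟩ := profile
    (a := ![-2 * del, xc - u0 - del, 801 / 1000 - 2 * del])
    (b := ![4 / 5 + 2 * del, xc + u0 + del, 1 + 2 * del])
    (l := ![1 / 2, gam / 100, 499 / 1000])
    (c := ![fun _ => 0, fun x => yc - gam / 200 - (x - xc) ^ 2 / (20 * gam),
      fun _ => 501 / 1000])
    (by intro i; fin_cases i <;> norm_num [del, xc, u0])
    (by norm_num [del, xc, u0])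
    (by show xc + u0 + del < 801 / 1000 - 2 * del; norm_num [del, xc, u0])
    (by intro i; fin_cases i <;> norm_num [gam])
    (by
      intro i
      fin_cases i
      · exact contDiff_const
      · show ContDiff ℝ ∞ fun x : ℝ => yc - gam / 200 - (x - xc) ^ 2 / (20 * gam)
        fun_prop
      · exact contDiff_const)
  obtain ⟨lam', c', hls', hcs', hlp', ⟨K', hK'⟩, hval'⟩ := profile
    (a := ![-2 * del, yc - 27 / 100 * gam, 501 / 1000 - 2 * del])
    (b := ![1 / 2 + 2 * del, yc + 27 / 100 * gam, 1 + 2 * del])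
    (l := ![5 / 4, 50 / gam, 1000 / 199])
    (c := ![fun _ => 0, fun _ => 1 / 2 - 50 / gam * xc, fun _ => - 801 / 199])
    (by intro i; fin_cases i <;> norm_num [del, yc, gam])
    (by norm_num [del, yc, gam])
    (by show yc + 27 / 100 * gam < 501 / 1000 - 2 * del; norm_num [del, yc, gam])
    (by intro i; fin_cases i <;> norm_num [gam])
    (by
      intro i
      fin_cases i <;> exact contDiff_const)
  have v0 := hval 0
  have v1 := hval 1
  have v2 := hval 2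
  have w0 := hval' 0
  have w1 := hval' 1
  have w2 := hval' 2
  simp only [Matrix.cons_val_zero, Matrix.cons_val_one, Matrix.cons_val, mem_Icc] at v0 v1 v2 w0 w1 w2
  obtain ⟨A1, hA1, hA1v⟩ := fibre_affine hls hcs hlp hK 2
  obtain ⟨A2', hA2', hA2v⟩ := fibre_affine hls' hcs' hlp' hK' 2
  have hA2 := hA2'.swap
  set A2 : Pt → Pt := fun z => ((A2' (z.2, z.1)).2, (A2' (z.2, z.1)).1) with hA2def
  have hA2w : ∀ x y : ℝ, |x| ≤ 2 → A2 (x, y) = (lam' y * x + c' y, y) := by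
    intro x y hx
    simp only [hA2def]
    rw [hA2v y x hx]
  obtain ⟨R, hR, hRin, hRout⟩ := twist (xc, yc) (r0 := 3 / 10 * gam) (r1 := 45 / 100 * gam)
    (by norm_num [gam]) (by norm_num [gam])
  refine ⟨A2 ∘ R ∘ A1, hA2.comp (hR.comp hA1), ?_, ?_⟩
  · intro i
    cases i
    · refine mm6_box (a := -2 * del) (b := 4 / 5 + 2 * del) (c := -2 * del) (d := 1 + 2 * del) ?_ ?_
      · rintro ⟨x, y⟩ ⟨⟨h1, h2⟩, h3, h4⟩
        simp only [al, pw, del] at h1 h2 h3 h4
        refine ⟨⟨?_, ?_⟩, ?_, ?_⟩ <;> simp only [del] <;> linarith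
      · intro x y h1 h2 h3 h4
        obtain ⟨e1, e2⟩ := v0 x ⟨h1.le, h2.le⟩
        simp only [del] at h1 h2 h3 h4
        have hy : |y| ≤ 2 := by rw [abs_le]; constructor <;> linarith
        have hx : |x| ≤ 2 := by rw [abs_le]; constructor <;> linarith
        have s1 : A1 (x, y) = (x, 1 / 2 * y + 0) := by rw [hA1v x y hy, e1, e2]
        have s2 : R (x, 1 / 2 * y + 0) = (x, 1 / 2 * y + 0) := by
          refine hRout _ ?_
          simp only [gam, xc, yc]
          nlinarith [sq_nonneg (1 / 2 * y + 0 - 5005 / 10000 : ℝ)]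
        obtain ⟨f1, f2⟩ := w0 (1 / 2 * y + 0) ⟨by simp only [del]; linarith, by simp only [del]; linarith⟩
        show A2 (R (A1 (x, y))) = _
        rw [s1, s2, hA2w _ _ hx, f1, f2]
        simp only [Aff, al, pw, be, qw]
        refine Prod.ext ?_ ?_
        · show (5 / 4 * x + 0 : ℝ) = (x - 0) / (4 / 5)
          ring
        · show (1 / 2 * y + 0 : ℝ) = 0 + 1 / 2 * y
          ring
    · refine mm6_box (a := 801 / 1000 - 2 * del) (b := 1 + 2 * del) (c := -2 * del)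
        (d := 1 + 2 * del) ?_ ?_
      · rintro ⟨x, y⟩ ⟨⟨h1, h2⟩, h3, h4⟩
        simp only [al, pw, del] at h1 h2 h3 h4
        refine ⟨⟨?_, ?_⟩, ?_, ?_⟩ <;> simp only [del] <;> linarith
      · intro x y h1 h2 h3 h4
        obtain ⟨e1, e2⟩ := v2 x ⟨h1.le, h2.le⟩
        simp only [del] at h1 h2 h3 h4
        have hy : |y| ≤ 2 := by rw [abs_le]; constructor <;> linarith
        have hx : |x| ≤ 2 := by rw [abs_le]; constructor <;> linarith
        have s1 : A1 (x, y) = (x, 499 / 1000 * y + 501 / 1000) := by rw [hA1v x y hy, e1, e2]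
        have s2 : R (x, 499 / 1000 * y + 501 / 1000) = (x, 499 / 1000 * y + 501 / 1000) := by
          refine hRout _ ?_
          simp only [gam, xc, yc]
          nlinarith [sq_nonneg (499 / 1000 * y + 501 / 1000 - 5005 / 10000 : ℝ)]
        obtain ⟨f1, f2⟩ := w2 (499 / 1000 * y + 501 / 1000)
          ⟨by simp only [del]; linarith, by simp only [del]; linarith⟩
        show A2 (R (A1 (x, y))) = _
        rw [s1, s2, hA2w _ _ hx, f1, f2]
        simp only [Aff, al, pw, be, qw]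
        refine Prod.ext ?_ ?_
        · show (1000 / 199 * x + - 801 / 199 : ℝ) = (x - 801 / 1000) / (199 / 1000)
          ring
        · show (499 / 1000 * y + 501 / 1000 : ℝ) = 501 / 1000 + 499 / 1000 * y
          ring
  · refine mm6_box (a := xc - u0 - del) (b := xc + u0 + del) (c := -2 * del)
      (d := 1 + 2 * del) ?_ ?_
    · rintro ⟨x, y⟩ ⟨⟨h1, h2⟩, h3, h4⟩
      simp only [xc, u0, del] at h1 h2 h3 h4
      refine ⟨⟨?_, ?_⟩, ?_, ?_⟩ <;> simp only [xc, u0, del] <;> linarith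
    · intro x y h1 h2 h3 h4
      obtain ⟨e1, e2⟩ := v1 x ⟨h1.le, h2.le⟩
      simp only [xc, u0, del] at h1 h2 h3 h4
      have hy : |y| ≤ 2 := by rw [abs_le]; constructor <;> linarith
      obtain ⟨u, rfl⟩ : ∃ u, x = 8005 / 10000 + u := ⟨x - 8005 / 10000, by ring⟩
      have hu1 : -(26 / 100000) ≤ u := by linarith
      have hu2 : u ≤ 26 / 100000 := by linarith
      have husq : u ^ 2 ≤ (26 / 100000) ^ 2 := by nlinarith
      have hu0 : 0 ≤ u ^ 2 := sq_nonneg u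
      set w : ℝ := 1 / 100000 * (y - 1 / 2) - 50 * u ^ 2 with hw
      have hw1 : -(1 / 100000) ≤ w := by rw [hw]; linarith
      have hw2 : w ≤ 1 / 100000 := by rw [hw]; linarith
      have hwsq : w ^ 2 ≤ (1 / 100000) ^ 2 := by nlinarith
      have s1 : A1 (8005 / 10000 + u, y) = (8005 / 10000 + u, 5005 / 10000 + w) := by
        rw [hA1v _ y hy, e1, e2]
        refine Prod.ext rfl ?_
        simp only [hw, gam, xc, yc]
        ring
      have s2 : R (8005 / 10000 + u, 5005 / 10000 + w) = (8005 / 10000 + w, 5005 / 10000 - u) := by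
        rw [hRin]
        · refine Prod.ext ?_ ?_
          · simp only [xc, yc]; ring
          · simp only [xc, yc]; ring
        · simp only [xc, yc, gam]
          nlinarith
      obtain ⟨f1, f2⟩ := w1 (5005 / 10000 - u)
          ⟨by simp only [yc, gam]; linarith, by simp only [yc, gam]; linarith⟩
      have hx : |8005 / 10000 + w| ≤ 2 := by rw [abs_le]; constructor <;> linarith
      show A2 (R (A1 (8005 / 10000 + u, y))) = _
      rw [s1, s2, hA2w _ _ hx, f1, f2]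
      simp only [Fold, gam, xc, yc, cc, dd, hw]
      refine Prod.ext ?_ ?_
      · show (50 / (1 / 1000) * (8005 / 10000 + (1 / 100000 * (y - 1 / 2) - 50 * u ^ 2)) +
          (1 / 2 - 50 / (1 / 1000) * (8005 / 10000)) : ℝ) =
          1 / 2 + 1 / 2 * (y - 1 / 2) - 2500000 * (8005 / 10000 + u - 8005 / 10000) ^ 2
        ring
      · show (5005 / 10000 - u : ℝ) = 5005 / 10000 - (8005 / 10000 + u - 8005 / 10000)
        ring

theorem mm6_aff (i : Sy) (z : Pt) : HasFDerivAt (Aff i)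
    (((1 / pw i) • ContinuousLinearMap.fst ℝ ℝ ℝ).prod (qw i • ContinuousLinearMap.snd ℝ ℝ ℝ)) z := by
  have h1 : HasFDerivAt (fun z : Pt => z.1) (ContinuousLinearMap.fst ℝ ℝ ℝ) z := hasFDerivAt_fst
  have h2 : HasFDerivAt (fun z : Pt => z.2) (ContinuousLinearMap.snd ℝ ℝ ℝ) z := hasFDerivAt_snd
  have h3 : HasFDerivAt (fun z : Pt => (z.1 - al i) / pw i)
      ((1 / pw i) • ContinuousLinearMap.fst ℝ ℝ ℝ) z := by
    have := (h1.sub_const (al i)).const_mul (1 / pw i)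
    refine this.congr_of_eventuallyEq (Eventually.of_forall fun z => ?_)
    show (z.1 - al i) / pw i = 1 / pw i * (z.1 - al i)
    ring
  have h4 : HasFDerivAt (fun z : Pt => be i + qw i * z.2)
      (qw i • ContinuousLinearMap.snd ℝ ℝ ℝ) z := (h2.const_mul (qw i)).const_add (be i)
  exact h3.prodMk h4

theorem mm6_fold (z : Pt) : HasFDerivAt Fold
    ((cc • ContinuousLinearMap.snd ℝ ℝ ℝ -
      (dd * (2 * (z.1 - xc))) • ContinuousLinearMap.fst ℝ ℝ ℝ).prod
      (- ContinuousLinearMap.fst ℝ ℝ ℝ)) z := by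
  have h1 : HasFDerivAt (fun z : Pt => z.1) (ContinuousLinearMap.fst ℝ ℝ ℝ) z := hasFDerivAt_fst
  have h2 : HasFDerivAt (fun z : Pt => z.2) (ContinuousLinearMap.snd ℝ ℝ ℝ) z := hasFDerivAt_snd
  have h1' := h1.sub_const xc
  have h2' := h2.sub_const (1 / 2)
  have h3 : HasFDerivAt (fun z : Pt => 1 / 2 + cc * (z.2 - 1 / 2) - dd * (z.1 - xc) ^ 2)
      (cc • ContinuousLinearMap.snd ℝ ℝ ℝ -
      (dd * (2 * (z.1 - xc))) • ContinuousLinearMap.fst ℝ ℝ ℝ) z := by
    have h5 := ((h2'.const_mul cc).const_add (1 / 2)).sub ((h1'.pow 2).const_mul dd)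
    refine h5.congr_fderiv ?_
    ext <;> simp
  have h4 : HasFDerivAt (fun z : Pt => yc - (z.1 - xc)) (- ContinuousLinearMap.fst ℝ ℝ ℝ) z :=
    h1'.const_sub yc
  exact h3.prodMk h4

theorem mm6_e0 : (0 : ℝ) ≤ e0 := by norm_num [e0]

/-- Proof. `O = univ`; injective, `jac > 0` by `IsCDiff`. Near a point of `VV i` the map equals `Aff i`, whose derivative is constant
(`fderiv` of `Aff i`: `(u, v) ↦ (u / pw i, qw i * v)`); on `FF` it equals `Fold`, with `∂_y = (cc, 0)`. All differences are `0 ≤ e0`. -/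
theorem near_model {Fs : Pt → Pt} (h : IsCDiff Fs) (hV : ∀ i, ∀ᶠ z in 𝓝ˢ (VV i), Fs z = Aff i z)
    (hF : ∀ᶠ z in 𝓝ˢ FF, Fs z = Fold z) : Near Fs := by
  have hVp : ∀ i, ∀ z ∈ VV i, Fs =ᶠ[𝓝 z] Aff i := fun i z hz =>
    (eventually_nhdsSet_iff_forall.1 (hV i)) z hz
  have hFp : ∀ z ∈ FF, Fs =ᶠ[𝓝 z] Fold := fun z hz =>
    (eventually_nhdsSet_iff_forall.1 hF) z hz
  have hVd : ∀ i, ∀ z ∈ VV i, fderiv ℝ Fs z = ((1 / pw i) • ContinuousLinearMap.fst ℝ ℝ ℝ).prod
      (qw i • ContinuousLinearMap.snd ℝ ℝ ℝ) := fun i z hz => by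
    rw [(hVp i z hz).fderiv_eq, (mm6_aff i z).fderiv]
  have hFd : ∀ z ∈ FF, fderiv ℝ Fs z = (cc • ContinuousLinearMap.snd ℝ ℝ ℝ -
      (dd * (2 * (z.1 - xc))) • ContinuousLinearMap.fst ℝ ℝ ℝ).prod
      (- ContinuousLinearMap.fst ℝ ℝ ℝ) := fun z hz => by
    rw [(hFp z hz).fderiv_eq, (mm6_fold z).fderiv]
  refine ⟨⟨univ, isOpen_univ, subset_univ _, h.smooth.contDiffOn, ?_, fun z _ => h.jac_pos z⟩,
    ?_, ?_, ?_, ?_, ?_⟩
  · obtain ⟨Φi, -, h1, -⟩ := h.inv
    intro z _ z' _ hzz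
    rw [← h1 z, ← h1 z', hzz]
  · intro i z hz
    rw [(hVp i z hz).eq_of_nhds]
    simp [mm6_e0]
  · intro i z hz
    rw [hVd i z hz]
    simp [mm6_e0]
  · intro i z hz z' hz'
    rw [hVd i z hz, hVd i z' hz', sub_self, norm_zero]
    exact mul_nonneg mm6_e0 (norm_nonneg _)
  · intro z hz
    rw [(hFp z hz).eq_of_nhds]
    simp [mm6_e0]
  · intro z hz
    rw [hFd z hz]
    simp [mm6_e0]

end Pool.Agent.Lib.H37N
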