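import Pool.Agent.Lib.H37N.MK6
import Pool.Agent.Lib.H37N.MK8
import Pool.Agent.Lib.H37N.MM6

/-!
# H37N MK9 (size M): density of periodic spots in an open set of diffeomorphisms (from the local theorem)
-/

open Set Filter Topology
open scoped ContDiff Manifold
open Pool.Agent.Lib.Helper37.ConjBorel Pool.Agent.Lib.H37C

namespace Pool.Agent.Lib.H37N

theorem mk9_Om : Om ⊆ VV Sy.P ∪ VV Sy.Q ∪ FF := by
  rintro z ((hz | hz) | hz)
  · exact Or.inl (Or.inl (interior_subset hz))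
  · exact Or.inl (Or.inr (interior_subset hz))
  · exact Or.inr (interior_subset hz)

/-- Proof. `model_exists`: `Fs`, with support radius `r0`; `r = max r0 4`, `e` from `exists_bigC r`. `fs` from `exists_diffK` for `cj Fs` (support in the
compact set `LL.symm '' closedBall 0 r ⊆ e.target`). `V` from `exists_V`. Let `U ⊆ V` be open, `f ∈ U`. `stable_nhd`: `R`, `U'` with `f ∈ U' ⊆ U`;
`pertOpen_loc`: the set `{loc e f1 | f1 ∈ U'}` is `PertOpen (max R 1)`, nonempty, all its elements are `Near`. The local theorem `hL` gives `f1 ∈ U'` with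
`LocalSpot (loc e f1)`; `hasSpot_of_local` (`Om ⊆ VV P ∪ VV Q ∪ FF ⊆ dom e f1`). -/
theorem dense_spots (hL : ∀ (R : ℕ) (U : Set (Pt → Pt)), PertOpen R U → (∀ g ∈ U, Near g) →
      U.Nonempty → ∃ g ∈ U, LocalSpot g)
    (M : Type*) [TopologicalSpace M] [ChartedSpace (Euc 2) M] [T2Space M] [IsManifold (𝓡 2) ∞ M]
    [Nonempty M] : ∃ V : Set (DiffInf 2 M), IsOpen V ∧ V.Nonempty ∧
      ∀ U : Set (DiffInf 2 M), IsOpen U → U ⊆ V → U.Nonempty → ∃ f ∈ U, HasSpot f := by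
  obtain ⟨Fs, hFs, hV, hF⟩ := model_exists
  obtain ⟨r0, hr0⟩ := hFs.supp
  obtain ⟨Fi, hFi, hi1, hi2⟩ := hFs.inv
  set r := max r0 4 with hr
  obtain ⟨e, he⟩ := exists_bigC (M := M) r
  have hr4 : (4 : ℝ) ≤ r := le_max_right _ _
  have hsupp : ∀ z, r ≤ ‖z‖ → Fs z = z := fun z hz => hr0 z ((le_max_left _ _).trans hz)
  have hK : IsCompact (LL.symm '' Metric.closedBall (0 : Pt) r) :=
    (isCompact_closedBall _ _).image LL.symm.continuous
  have hKe : LL.symm '' Metric.closedBall (0 : Pt) r ⊆ e.target := by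
    rintro _ ⟨z, hz, rfl⟩
    exact he.big z (by simpa using hz)
  obtain ⟨fs, hfs⟩ := exists_diffK (n := 2) (M := M) he.mem hK hKe (ψ := cj Fs) (g := cj Fi)
    (LL.symm.contDiff.comp (hFs.smooth.comp LL.contDiff))
    (LL.symm.contDiff.comp (hFi.comp LL.contDiff))
    (fun x => by simp [cj, hi1]) (fun x => by simp [cj, hi2]) (fun x hx => by
      have h1 : r ≤ ‖LL x‖ := by
        by_contra hcon
        refine hx ⟨LL x, ?_, by simp⟩
        simpa using (not_le.mp hcon).le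
      simp [cj, hsupp _ h1])
  obtain ⟨V, hVo, hfsV, hVn⟩ := exists_V he hr4 hFs hsupp hV hF hfs
  refine ⟨V, hVo, ⟨fs, hfsV⟩, fun U hU hUV hne => ?_⟩
  obtain ⟨f, hf⟩ := hne
  obtain ⟨R, U', hU'o, hfU', hU'U, hst⟩ := stable_nhd he hr4 hU hf
  have hP := pertOpen_loc he hr4 hst
  obtain ⟨g, ⟨f1, hf1, rfl⟩, hspot⟩ := hL (max R 1) _ hP
    (by
      rintro _ ⟨f1, hf1, rfl⟩
      exact (hVn f1 (hUV (hU'U hf1))).1)
    ⟨_, f, hfU', rfl⟩
  exact ⟨f1, hU'U hf1, hasSpot_of_local (mk9_Om.trans (hVn f1 (hUV (hU'U hf1))).2) hspot⟩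

end Pool.Agent.Lib.H37N
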