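import Pool.Agent.Lib.H37N.BDefs
import Pool.Agent.Lib.H37N.T10a

/-!
# H37N MM1 (size M): compactly supported diffeomorphisms of the plane
-/

open Set Filter Topology
open scoped ContDiff

namespace Pool.Agent.Lib.H37N

/-- compactly supported `C^∞` diffeomorphisms of the plane -/
structure IsCDiff (Φ : Pt → Pt) : Prop where
  smooth : ContDiff ℝ ∞ Φ
  inv : ∃ Φi : Pt → Pt, ContDiff ℝ ∞ Φi ∧ (∀ z, Φi (Φ z) = z) ∧ ∀ z, Φ (Φi z) = z
  supp : ∃ r : ℝ, ∀ z, r ≤ ‖z‖ → Φ z = z

/-- Proof. Chain; if `‖z‖ ≥ max r r'` then `Φ z = z` and `Ψ z = z`. -/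
theorem IsCDiff.comp {Φ Ψ : Pt → Pt} (h : IsCDiff Φ) (h' : IsCDiff Ψ) : IsCDiff (Φ ∘ Ψ) := by
  obtain ⟨Φi, h1, h2, h3⟩ := h.inv
  obtain ⟨Ψi, h1', h2', h3'⟩ := h'.inv
  obtain ⟨r, hr⟩ := h.supp
  obtain ⟨r', hr'⟩ := h'.supp
  refine ⟨h.smooth.comp h'.smooth, ⟨Ψi ∘ Φi, h1'.comp h1, fun z => ?_, fun z => ?_⟩,
    ⟨max r r', fun z hz => ?_⟩⟩
  · simp only [Function.comp_apply, h2, h2']
  · simp only [Function.comp_apply, h3, h3']
  · simp only [Function.comp_apply]
    rw [hr' z (le_trans (le_max_right _ _) hz), hr z (le_trans (le_max_left _ _) hz)]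

/-- Proof. `Prod.swap` is a linear isometry and an involution. -/
theorem IsCDiff.swap {Φ : Pt → Pt} (h : IsCDiff Φ) :
    IsCDiff (fun z => ((Φ (z.2, z.1)).2, (Φ (z.2, z.1)).1)) := by
  obtain ⟨Φi, h1, h2, h3⟩ := h.inv
  obtain ⟨r, hr⟩ := h.supp
  have hs : ContDiff ℝ ∞ (fun z : Pt => ((z.2, z.1) : Pt)) := contDiff_snd.prodMk contDiff_fst
  have hs1 : ContDiff ℝ ∞ (fun z : Pt => Φ (z.2, z.1)) := h.smooth.comp hs
  have hs2 : ContDiff ℝ ∞ (fun z : Pt => Φi (z.2, z.1)) := h1.comp hs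
  refine ⟨hs1.snd.prodMk hs1.fst, ⟨fun z => ((Φi (z.2, z.1)).2, (Φi (z.2, z.1)).1),
    hs2.snd.prodMk hs2.fst, fun z => ?_, fun z => ?_⟩, ⟨r, fun z hz => ?_⟩⟩
  · simp only [Prod.mk.eta, h2]
  · simp only [Prod.mk.eta, h3]
  · have : Φ (z.2, z.1) = (z.2, z.1) := by
      apply hr
      rw [Prod.norm_def] at hz ⊢
      rwa [max_comm]
    simp only [this]

theorem mm1_lin (L : Pt →L[ℝ] Pt) (v : Pt) : L v = v.1 • L (1, 0) + v.2 • L (0, 1) := by
  have : v = v.1 • ((1 : ℝ), (0 : ℝ)) + v.2 • ((0 : ℝ), (1 : ℝ)) := by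
    ext <;> simp
  conv_lhs => rw [this]
  rw [map_add, map_smul, map_smul]

theorem mm1_bij {L : Pt →L[ℝ] Pt}
    (h : (L (1, 0)).1 * (L (0, 1)).2 - (L (1, 0)).2 * (L (0, 1)).1 ≠ 0) :
    Function.Bijective L := by
  have hinj : Function.Injective L := by
    rw [injective_iff_map_eq_zero]
    intro v hv
    rw [mm1_lin] at hv
    have e1 : v.1 * (L (1, 0)).1 + v.2 * (L (0, 1)).1 = 0 := by
      have := congrArg Prod.fst hv
      simpa using this
    have e2 : v.1 * (L (1, 0)).2 + v.2 * (L (0, 1)).2 = 0 := by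
      have := congrArg Prod.snd hv
      simpa using this
    have f1 : v.1 * ((L (1, 0)).1 * (L (0, 1)).2 - (L (1, 0)).2 * (L (0, 1)).1) = 0 := by
      linear_combination (L (0, 1)).2 * e1 - (L (0, 1)).1 * e2
    have f2 : v.2 * ((L (1, 0)).1 * (L (0, 1)).2 - (L (1, 0)).2 * (L (0, 1)).1) = 0 := by
      linear_combination (L (1, 0)).1 * e2 - (L (1, 0)).2 * e1
    have g1 : v.1 = 0 := by
      rcases mul_eq_zero.1 f1 with h1 | h1
      · exact h1
      · exact absurd h1 h
    have g2 : v.2 = 0 := by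
      rcases mul_eq_zero.1 f2 with h1 | h1
      · exact h1
      · exact absurd h1 h
    ext
    · exact g1
    · exact g2
  refine ⟨hinj, ?_⟩
  exact LinearMap.surjective_of_injective (f := (L : Pt →ₗ[ℝ] Pt)) hinj

/-- Proof. Let `Φi` be the inverse function (`Function.surjInv`). At `w = Φ z`: `inverse_fun` (T10a) for `Φ` at `z`
(`jac ≠ 0`: the derivative is bijective, `A v = v.1 • A (1,0) + v.2 • A (0,1)`) gives a `C^∞` function `q` with `Φ (q y) = y` for `y`
near `w`; so `Φi y = q y` near `w` (injectivity) and `Φi` is `C^∞` at `w`. -/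
theorem IsCDiff.of_bijective {Φ : Pt → Pt} (hs : ContDiff ℝ ∞ Φ) (hb : Function.Bijective Φ)
    (hj : ∀ z, jac Φ z ≠ 0) {r : ℝ} (hr : ∀ z, r ≤ ‖z‖ → Φ z = z) : IsCDiff Φ := by
  set Φi := Function.surjInv hb.2 with hΦi
  have h1 : ∀ z, Φ (Φi z) = z := Function.surjInv_eq hb.2
  have h2 : ∀ z, Φi (Φ z) = z := fun z => hb.1 (h1 (Φ z))
  refine ⟨hs, ⟨Φi, ?_, h2, h1⟩, ⟨r, hr⟩⟩
  rw [contDiff_iff_contDiffAt]
  intro w
  obtain ⟨g, hg, -, -, hg3⟩ := inverse_fun (f := Φ) (x₀ := Φi w)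
    (Eventually.of_forall fun x => hs.contDiffAt) (mm1_bij (hj (Φi w)))
  rw [h1] at hg3
  refine hg.contDiffAt.congr_of_eventuallyEq ?_
  filter_upwards [hg3] with y hy
  rw [← hy, h2, hy]

/-- Proof. `jac Φ` is continuous. It has no zero: `Φi ∘ Φ = id`, chain rule, the determinant of the product is `1` (or: the
derivative of `Φ` is injective, so its determinant is not zero). At a point `z` with `‖z‖ > r` the map is the identity near `z`, so
`jac Φ z = 1`. The plane is connected: `jac Φ > 0` (`IsPreconnected`, intermediate value theorem). -/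
theorem IsCDiff.jac_pos {Φ : Pt → Pt} (h : IsCDiff Φ) (z : Pt) : 0 < jac Φ z := by
  obtain ⟨Φi, h1, h2, h3⟩ := h.inv
  obtain ⟨r, hr⟩ := h.supp
  have hcd : Continuous (fderiv ℝ Φ) := h.smooth.continuous_fderiv (by simp)
  have hcont : Continuous (jac Φ) := by
    have h2 : ∀ v : Pt, Continuous (fun w => fderiv ℝ Φ w v) := fun v => hcd.clm_apply continuous_const
    unfold jac
    exact ((h2 _).fst.mul (h2 _).snd).sub ((h2 _).snd.mul (h2 _).fst)
  have hne : ∀ w, jac Φ w ≠ 0 := by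
    intro w hw
    have hd1 : DifferentiableAt ℝ Φ w := h.smooth.differentiable (by simp) w
    have hd2 : DifferentiableAt ℝ Φi (Φ w) := h1.differentiable (by simp) _
    have hcomp : fderiv ℝ (Φi ∘ Φ) w = (fderiv ℝ Φi (Φ w)).comp (fderiv ℝ Φ w) := fderiv_comp w hd2 hd1
    have hid : Φi ∘ Φ = id := funext h2
    rw [hid, fderiv_id] at hcomp
    have hinj : ∀ v : Pt, fderiv ℝ Φ w v = 0 → v = 0 := by
      intro v hv
      have := congrArg (fun L : Pt →L[ℝ] Pt => L v) hcomp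
      simp only [ContinuousLinearMap.comp_apply, hv, map_zero, ContinuousLinearMap.id_apply] at this
      exact this
    unfold jac at hw
    set a := fderiv ℝ Φ w (1, 0) with ha
    set b := fderiv ℝ Φ w (0, 1) with hb
    have k1 : fderiv ℝ Φ w (b.2, -a.2) = 0 := by
      rw [mm1_lin]
      simp only
      rw [← ha, ← hb]
      ext
      · simp only [Prod.fst_add, Prod.smul_fst, smul_eq_mul, Prod.fst_zero]; linarith
      · simp only [Prod.snd_add, Prod.smul_snd, smul_eq_mul, Prod.snd_zero]; ring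
    have k2 : fderiv ℝ Φ w (b.1, -a.1) = 0 := by
      rw [mm1_lin]
      simp only
      rw [← ha, ← hb]
      ext
      · simp only [Prod.fst_add, Prod.smul_fst, smul_eq_mul, Prod.fst_zero]; ring
      · simp only [Prod.snd_add, Prod.smul_snd, smul_eq_mul, Prod.snd_zero]; linarith
    have k3 := hinj _ k1
    have k4 := hinj _ k2
    have a2 : a.2 = 0 := by have := congrArg Prod.snd k3; simpa using this
    have a1 : a.1 = 0 := by have := congrArg Prod.snd k4; simpa using this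
    have k5 : a = 0 := by ext <;> simp [a1, a2]
    have k6 := hinj (1, 0) (by rw [← ha]; exact k5)
    have := congrArg Prod.fst k6
    simp at this
  -- a point far away
  set p : Pt := (|r| + 1, 0) with hp
  have hpn : r < ‖p‖ := by
    rw [hp, Prod.norm_def]
    refine lt_of_lt_of_le ?_ (le_max_left _ _)
    simp only
    rw [Real.norm_eq_abs, abs_of_pos (by positivity)]
    have := le_abs_self r
    linarith
  have hpj : jac Φ p = 1 := by
    have hev : Φ =ᶠ[𝓝 p] id := by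
      have : ∀ᶠ w in 𝓝 p, r < ‖w‖ := continuous_norm.continuousAt.eventually (lt_mem_nhds hpn)
      filter_upwards [this] with w hw
      exact hr w hw.le
    unfold jac
    rw [hev.fderiv_eq, fderiv_id]
    simp
  by_contra hz
  push Not at hz
  have hpre : IsPreconnected (univ : Set Pt) := isPreconnected_univ
  have himg := hpre.intermediate_value (mem_univ z) (mem_univ p) hcont.continuousOn
  have h0 : (0 : ℝ) ∈ Icc (jac Φ z) (jac Φ p) := ⟨hz, by rw [hpj]; norm_num⟩
  obtain ⟨w, -, hw⟩ := himg h0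
  exact hne w hw

end Pool.Agent.Lib.H37N
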