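import Pool.Agent.Lib.H37N.MK10

/-!
# No open dense set of diffeomorphisms of a closed surface has a Borel conjugacy relation
-/

open TopologicalSpace Set Filter Topology MeasureTheory
open scoped Manifold ContDiff
open Pool.Agent.Lib.Helper37.ConjBorel
open Pool.Agent.Lib.H37C

namespace Pool.Agent.Lib.H37N.NoOpenDenseSurface

/-- **No open dense set of diffeomorphisms of a closed surface has a Borel conjugacy relation.**

Let `M` be a (nonempty) closed smooth surface. Then for every open dense set `S` of smooth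
diffeomorphisms of `M` topological conjugacy on `S` is not Borel. More precisely, there is a nonempty
open set `V` of diffeomorphisms such that the maps with a periodic spot (some iterate is the identity
on a nonempty open set) are dense in `V`, and for every open set `S` which meets `V` topological
conjugacy on `S` is analytic, complete (every analytic subset of `2^ℕ` is the preimage of it under a
continuous map `2^ℕ → S × S`) and not Borel. -/
theorem result (M : Type*) [TopologicalSpace M] [T2Space M] [CompactSpace M] [Nonempty M]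
    [ChartedSpace (Euc 2) M] [IsManifold (𝓡 2) ∞ M] :
    (∀ S : Set (DiffInf 2 M), IsOpen S → Dense S →
      ¬ MeasurableSet[borel (S × S)]
        {p : S × S | TopConj (p.1 : DiffInf 2 M) (p.2 : DiffInf 2 M)}) ∧
    ∃ V : Set (DiffInf 2 M), IsOpen V ∧ V.Nonempty ∧
      (∀ U : Set (DiffInf 2 M), IsOpen U → U ⊆ V → U.Nonempty → ∃ f ∈ U, HasSpot f) ∧
      ∀ S : Set (DiffInf 2 M), IsOpen S → (S ∩ V).Nonempty →
        AnalyticSet {p : S × S | TopConj (p.1 : DiffInf 2 M) (p.2 : DiffInf 2 M)} ∧
        (∀ A : Set (ℕ → Bool), AnalyticSet A → ∃ F : (ℕ → Bool) → S × S, Continuous F ∧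
          ∀ x, x ∈ A ↔ TopConj ((F x).1 : DiffInf 2 M) ((F x).2 : DiffInf 2 M)) ∧
        ¬ MeasurableSet[borel (S × S)]
          {p : S × S | TopConj (p.1 : DiffInf 2 M) (p.2 : DiffInf 2 M)} := by
  obtain ⟨V, hV, hne, hV'⟩ := Pool.Agent.Lib.H37N.apx M
  have key : ∀ S : Set (DiffInf 2 M), IsOpen S → (S ∩ V).Nonempty →
        AnalyticSet {p : S × S | TopConj (p.1 : DiffInf 2 M) (p.2 : DiffInf 2 M)} ∧
        (∀ A : Set (ℕ → Bool), AnalyticSet A → ∃ F : (ℕ → Bool) → S × S, Continuous F ∧
          ∀ x, x ∈ A ↔ TopConj ((F x).1 : DiffInf 2 M) ((F x).2 : DiffInf 2 M)) ∧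
        ¬ MeasurableSet[borel (S × S)]
          {p : S × S | TopConj (p.1 : DiffInf 2 M) (p.2 : DiffInf 2 M)} := by
    intro S hS hSV
    obtain ⟨f, hf, hs⟩ := hV' (S ∩ V) (hS.inter hV) inter_subset_right hSV
    exact main (by norm_num) hS ⟨f, hf.1, hs⟩
  refine ⟨fun S hS hd => ?_, V, hV, hne, hV', key⟩
  have h1 : (V ∩ S).Nonempty := hd.inter_open_nonempty V hV hne
  rw [inter_comm] at h1
  exact (key S hS h1).2.2

end Pool.Agent.Lib.H37N.NoOpenDenseSurface
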