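import Pool.Agent.Lib.H37N.SDefs

/-! # H37N, chunk S21 (M): the numbers K_j and A_l -/

open Set Filter Topology

namespace Pool.Agent.Lib.H37N

theorem s21_th_pos (e : ℕ) : 0 < s2th e := by
  unfold s2th
  have := Real.pi_pos
  positivity

theorem s21_th_mul (e : ℕ) : ((e : ℝ) + 3) * s2th e = Real.pi := by
  unfold s2th
  have : ((e : ℝ) + 3) ≠ 0 := by positivity
  field_simp

theorem s21_th_lt (e : ℕ) : s2th e < Real.pi := by
  have h := s21_th_mul e
  have h0 := s21_th_pos e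
  have he : (0 : ℝ) ≤ e := Nat.cast_nonneg e
  nlinarith

/-- PROOF. 0 < θ ≤ π/3. -/
theorem s2_sin_pos (e : ℕ) : 0 < Real.sin (s2th e) := 
  Real.sin_pos_of_pos_of_lt_pi (s21_th_pos e) (s21_th_lt e)

theorem s2K_zero (e : ℕ) : s2K e 0 = 0 := by
  simp [s2K]

theorem s2K_one (e : ℕ) : s2K e 1 = 1 := by
  have h := (s2_sin_pos e).ne'
  simp only [s2K, one_mul]
  exact div_self h

/-- PROOF. sin ((x+1)θ) + sin ((x-1)θ) = 2 cos θ sin (xθ) (`Real.sin_add`, `Real.sin_sub`). -/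
theorem s2K_rec (e : ℕ) (x : ℝ) : s2K e (x + 1) = s2t e * s2K e x - s2K e (x - 1) := by
  have h := (s2_sin_pos e).ne'
  unfold s2K s2t
  rw [add_mul, sub_mul, one_mul, Real.sin_add, Real.sin_sub]
  field_simp
  ring

theorem s2K_neg (e : ℕ) (x : ℝ) : s2K e (-x) = -s2K e x := by
  unfold s2K
  rw [neg_mul, Real.sin_neg, neg_div]

/-- PROOF. (e+3) θ = π: sin (xθ + π) = - sin (xθ). -/
theorem s2K_half (e : ℕ) (x : ℝ) : s2K e (x + (e + 3)) = -s2K e x := by
  unfold s2K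
  rw [add_mul, s21_th_mul, Real.sin_add_pi, neg_div]

/-- PROOF. sin (2π - xθ) = - sin (xθ). -/
theorem s2K_N (e : ℕ) (x : ℝ) : s2K e (2 * (e + 3) - x) = -s2K e x := by
  unfold s2K
  rw [sub_mul, mul_assoc, s21_th_mul, Real.sin_two_pi_sub, neg_div]

/-- PROOF. 0 < lθ < π. -/
theorem s2K_pos (e : ℕ) {l : ℕ} (h0 : 0 < l) (h : l < e + 3) : 0 < s2K e l := by
  unfold s2K
  apply div_pos _ (s2_sin_pos e)
  have hl : (0 : ℝ) < l := by exact_mod_cast h0
  have hl2 : (l : ℝ) < e + 3 := by exact_mod_cast h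
  apply Real.sin_pos_of_pos_of_lt_pi (mul_pos hl (s21_th_pos e))
  calc (l : ℝ) * s2th e < (e + 3) * s2th e := mul_lt_mul_of_pos_right hl2 (s21_th_pos e)
    _ = Real.pi := s21_th_mul e

/-- PROOF. sin ((j+1)θ) sin (lθ) - sin (jθ) sin ((l+1)θ) = sin θ sin ((l-j)θ) (`Real.sin_add`, `Real.sin_sub`, sin^2 + cos^2 = 1; `ring_nf`/`nlinarith` or `linear_combination`). -/
theorem s2K_cross (e : ℕ) (j l : ℝ) :
    s2K e (j + 1) * s2K e l - s2K e j * s2K e (l + 1) = s2K e (l - j) := by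
  have h := (s2_sin_pos e).ne'
  unfold s2K
  rw [add_mul, add_mul, sub_mul, one_mul, Real.sin_add, Real.sin_add, Real.sin_sub]
  field_simp
  ring

/-- PROOF. 2 sin (θ/2) sin (kθ) = cos ((k-1/2)θ) - cos ((k+1/2)θ); telescoping (induction on n). -/
theorem s21_half_pos (e : ℕ) : 0 < Real.sin (s2th e / 2) := by
  apply Real.sin_pos_of_pos_of_lt_pi
  · have := s21_th_pos e; linarith
  · have := s21_th_lt e
    have := s21_th_pos e; linarith

theorem s2K_sum (e n : ℕ) : ∑ k ∈ Finset.range (n + 1), s2K e k =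
    (Real.cos (s2th e / 2) - Real.cos ((n + 1 / 2) * s2th e)) / (2 * Real.sin (s2th e / 2) * Real.sin (s2th e)) := by
  have h := (s2_sin_pos e).ne'
  have h2 := (s21_half_pos e).ne'
  induction n with
  | zero =>
    have : (((0 : ℕ) : ℝ) + 1 / 2) * s2th e = s2th e / 2 := by push_cast; ring
    rw [this, sub_self, zero_div]
    simp [s2K_zero]
  | succ n ih =>
    rw [Finset.sum_range_succ, ih]
    unfold s2K
    have e1 : Real.cos ((((n + 1 : ℕ) : ℝ) + 1 / 2) * s2th e) =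
        Real.cos (((n + 1 : ℕ) : ℝ) * s2th e) * Real.cos (s2th e / 2) - Real.sin (((n + 1 : ℕ) : ℝ) * s2th e) * Real.sin (s2th e / 2) := by
      rw [← Real.cos_add]; congr 1; ring
    have e2 : Real.cos (((n : ℝ) + 1 / 2) * s2th e) =
        Real.cos (((n + 1 : ℕ) : ℝ) * s2th e) * Real.cos (s2th e / 2) + Real.sin (((n + 1 : ℕ) : ℝ) * s2th e) * Real.sin (s2th e / 2) := by
      rw [← Real.cos_sub]; congr 1; push_cast; ring
    rw [e1, e2]
    field_simp
    ring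

/-- PROOF. `s2K_sum` with n = N-1-l (N - l = n + 1) and n' = N-1-l-(e+3); with L = e+3, Lθ = π: cos ((N - 1/2 - l)θ) = cos (2π - (l+1/2)θ) = cos ((l+1/2)θ) and
cos ((L - 1/2 - l)θ) = cos (π - (l+1/2)θ) = - cos ((l+1/2)θ).  The sum is cos (θ/2) / (sin (θ/2) sin θ) > 0. -/
theorem s2A_sum (e : ℕ) {l : ℕ} (h : l < e + 3) : s2A e l + s2A e (l + (e + 3)) ≠ 0 := by
  have h1 := (s2_sin_pos e)
  have h2 := (s21_half_pos e)
  have hm := s21_th_mul e
  unfold s2A
  obtain ⟨n, hn⟩ : ∃ n, e + 3 - l = n + 1 := ⟨e + 3 - l - 1, by omega⟩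
  have hn1 : 2 * (e + 3) - l = (n + (e + 3)) + 1 := by omega
  have hn2 : 2 * (e + 3) - (l + (e + 3)) = n + 1 := by omega
  rw [hn1, hn2, s2K_sum, s2K_sum]
  have hc : Real.cos ((((n + (e + 3) : ℕ) : ℝ) + 1 / 2) * s2th e) = - Real.cos (((n : ℝ) + 1 / 2) * s2th e) := by
    rw [← Real.cos_add_pi, ← hm]
    congr 1; push_cast; ring
  rw [hc]
  have h3 : 0 < Real.cos (s2th e / 2) := by
    apply Real.cos_pos_of_mem_Ioo
    constructor
    · have := s21_th_pos e; have := Real.pi_pos; linarith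
    · have := s21_th_lt e; linarith
  have : (Real.cos (s2th e / 2) - -Real.cos (((n : ℝ) + 1 / 2) * s2th e)) / (2 * Real.sin (s2th e / 2) * Real.sin (s2th e)) +
    (Real.cos (s2th e / 2) - Real.cos (((n : ℝ) + 1 / 2) * s2th e)) / (2 * Real.sin (s2th e / 2) * Real.sin (s2th e)) =
      Real.cos (s2th e / 2) / (Real.sin (s2th e / 2) * Real.sin (s2th e)) := by
    field_simp
    ring
  rw [this]
  positivity

/-- PROOF. `s2K_sum` with n = N - 1: cos ((N-1/2)θ) = cos (2π - θ/2) = cos (θ/2).  The second: shift by one, K_N = 0 = K_0. -/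
theorem s2K_sum_N (e : ℕ) : ∑ k ∈ Finset.range (2 * (e + 3)), s2K e k = 0 ∧
    ∑ k ∈ Finset.range (2 * (e + 3)), s2K e (k + 1) = 0 := by
  have hm := s21_th_mul e
  have key : ∑ k ∈ Finset.range (2 * (e + 3)), s2K e k = 0 := by
    have hn : 2 * (e + 3) = (2 * e + 5) + 1 := by ring
    rw [hn, s2K_sum]
    have : Real.cos ((((2 * e + 5 : ℕ) : ℝ) + 1 / 2) * s2th e) = Real.cos (s2th e / 2) := by
      have : (((2 * e + 5 : ℕ) : ℝ) + 1 / 2) * s2th e = 2 * Real.pi - s2th e / 2 := by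
        rw [← hm]; push_cast; ring
      rw [this, Real.cos_two_pi_sub]
    rw [this, sub_self, zero_div]
  refine ⟨key, ?_⟩
  have h1 := Finset.sum_range_succ (fun k : ℕ => s2K e k) (2 * (e + 3))
  have h2 := Finset.sum_range_succ' (fun k : ℕ => s2K e k) (2 * (e + 3))
  rw [h1, key] at h2
  have h3 : s2K e ((2 * (e + 3) : ℕ) : ℝ) = 0 := by
    have := s2K_N e 0
    rw [s2K_zero, neg_zero, sub_zero] at this
    push_cast
    exact this
  rw [h3] at h2
  simp only [Nat.cast_add, Nat.cast_one, Nat.cast_zero, s2K_zero, add_zero] at h2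
  rw [← h2]

end Pool.Agent.Lib.H37N
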