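import Pool.Agent.Lib.H37N.S21

/-! # H37N, chunk S22 (M): the model orbit and its first variation -/

open Set Filter Topology

namespace Pool.Agent.Lib.H37N

theorem s22_qpol_zero {e : ℕ} (j : ℕ) (w : ℝ) : qpol (0 : QQ e) j w = 0 := by
  unfold qpol
  split_ifs <;> simp

/-- PROOF. Induction on j with `s2K_rec` (x = j and x = j+1), `s2K_zero`, `s2K_one`, `s2K_neg` (K_(-1) = -1); qpol 0 = 0. -/
theorem morb_zero (e j : ℕ) (v : Pt) :
    morb e 0 j v = (s2K e j * v.2 - s2K e (j - 1) * v.1, s2K e (j + 1) * v.2 - s2K e j * v.1) := by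
  induction j with
  | zero =>
    simp only [morb, Nat.cast_zero, zero_sub, zero_add, s2K_neg, s2K_zero, s2K_one]
    ext <;> simp
  | succ j ih =>
    simp only [morb, ih, s22_qpol_zero, mstep]
    have h1 := s2K_rec e (j : ℝ)
    have h2 := s2K_rec e ((j : ℝ) + 1)
    have e3 : ((j : ℝ) + 1 - 1) = j := by ring
    rw [e3] at h2
    ext
    · simp only [Nat.cast_add, Nat.cast_one]
      rw [e3]
    · simp only [Nat.cast_add, Nat.cast_one]
      rw [h2, h1]
      ring

/-- PROOF. `morb_zero` and `s2K_N`: K_N = 0, K_(N-1) = -1, K_(N+1) = 1. -/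
theorem morb_zero_N (e : ℕ) (v : Pt) : morb e 0 (2 * (e + 3)) v = v := by
  rw [morb_zero]
  have h0 := s2K_N e 0
  have h1 := s2K_N e 1
  have h2 := s2K_N e (-1)
  rw [s2K_zero, neg_zero, sub_zero] at h0
  rw [s2K_one] at h1
  rw [s2K_neg, s2K_one, neg_neg, sub_neg_eq_add] at h2
  push_cast
  rw [h0, h1, h2]
  ext <;> simp

theorem qpol_smul {e : ℕ} (s : ℝ) (q : QQ e) (j : ℕ) (w : ℝ) : qpol (s • q) j w = s * qpol q j w := by
  unfold qpol
  split_ifs with h
  · rw [Finset.mul_sum]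
    apply Finset.sum_congr rfl
    intro i _
    simp only [Pi.smul_apply, smul_eq_mul]
    ring
  · simp

/-- the first variation -/
noncomputable def s2d (e : ℕ) (q : QQ e) (j : ℕ) (v : Pt) : Pt :=
  (∑ l ∈ Finset.range j, s2K e (j - 1 - l) * qpol q l (s2w e l v),
   ∑ l ∈ Finset.range j, s2K e (j - l) * qpol q l (s2w e l v))

theorem s22_qpol_diff {e : ℕ} (q : QQ e) (j : ℕ) : Differentiable ℝ (qpol q j) := by
  unfold qpol
  by_cases h : j < 2 * (e + 3)
  · simp only [h, dif_pos]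
    fun_prop
  · simp only [h, dif_neg, not_false_iff]
    fun_prop

theorem s22_morb_at_zero (e : ℕ) (q : QQ e) (j : ℕ) (v : Pt) :
    (morb e ((0 : ℝ) • q) j v).2 = s2w e j v := by
  rw [zero_smul, morb_zero]
  rfl

/-- PROOF. Induction on j.  morb (s•q) (j+1) v = mstep (s * qpol q j m(s).2) m(s), m(s) = morb (s•q) j v, m(0).2 = s2w e j v (`morb_zero`); derivative of s * qpol q j (m(s).2) at 0 is
qpol q j (m(0).2) (m is differentiable, so continuous; qpol is continuous).  So δ_(j+1) = (δ_j.2, -δ_j.1 + t δ_j.2 + qpol q j (s2w e j v)); compare with the formula: K_(j+1-1-l) = K_(j-l) and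
K_(j+1-l) = t K_(j-l) - K_(j-1-l) (`s2K_rec`), the new term l = j: K_0 = 0, K_1 = 1. -/
theorem morb_deriv (e : ℕ) (q : QQ e) (j : ℕ) (v : Pt) :
    HasDerivAt (fun s : ℝ => morb e (s • q) j v) (s2d e q j v) 0 := by
  induction j with
  | zero =>
    have : s2d e q 0 v = 0 := by
      unfold s2d; simp
    rw [this]
    exact hasDerivAt_const _ _
  | succ j ih =>
    have h1 : HasDerivAt (fun s : ℝ => (morb e (s • q) j v).1) (s2d e q j v).1 0 :=
      (ContinuousLinearMap.fst ℝ ℝ ℝ).hasFDerivAt.comp_hasDerivAt (0 : ℝ) ih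
    have h2 : HasDerivAt (fun s : ℝ => (morb e (s • q) j v).2) (s2d e q j v).2 0 :=
      (ContinuousLinearMap.snd ℝ ℝ ℝ).hasFDerivAt.comp_hasDerivAt (0 : ℝ) ih
    have h3 : HasDerivAt (fun s : ℝ => qpol q j (morb e (s • q) j v).2)
        (deriv (qpol q j) (morb e ((0 : ℝ) • q) j v).2 * (s2d e q j v).2) 0 :=
      ((s22_qpol_diff q j) _).hasDerivAt.comp (0 : ℝ) h2
    have h4 : HasDerivAt (fun s : ℝ => s * qpol q j (morb e (s • q) j v).2)
        (1 * qpol q j (morb e ((0 : ℝ) • q) j v).2 + 0 * (deriv (qpol q j) (morb e ((0 : ℝ) • q) j v).2 * (s2d e q j v).2)) 0 :=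
      (hasDerivAt_id (0 : ℝ)).mul h3
    rw [s22_morb_at_zero, one_mul, zero_mul, add_zero] at h4
    have h5 : HasDerivAt (fun s : ℝ => ((morb e (s • q) j v).2,
        -(morb e (s • q) j v).1 + s2t e * (morb e (s • q) j v).2 + s * qpol q j (morb e (s • q) j v).2))
        ((s2d e q j v).2, -(s2d e q j v).1 + s2t e * (s2d e q j v).2 + qpol q j (s2w e j v)) 0 :=
      h2.prodMk ((h1.neg.add (h2.const_mul (s2t e))).add h4)
    have h6 : s2d e q (j + 1) v = ((s2d e q j v).2, -(s2d e q j v).1 + s2t e * (s2d e q j v).2 + qpol q j (s2w e j v)) := by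
      unfold s2d
      ext
      · simp only
        rw [Finset.sum_range_succ]
        have : s2K e (((j + 1 : ℕ) : ℝ) - 1 - j) = 0 := by
          rw [← s2K_zero e]; congr 1; push_cast; ring
        rw [this, zero_mul, add_zero]
        apply Finset.sum_congr rfl
        intro l _
        congr 2
        push_cast; ring
      · simp only
        rw [Finset.sum_range_succ]
        have : s2K e (((j + 1 : ℕ) : ℝ) - j) = 1 := by
          rw [← s2K_one e]; congr 1; push_cast; ring
        rw [this, one_mul]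
        congr 1
        rw [Finset.mul_sum, ← Finset.sum_neg_distrib, ← Finset.sum_add_distrib]
        apply Finset.sum_congr rfl
        intro l _
        have h := s2K_rec e ((j : ℝ) - l)
        have e1 : ((j + 1 : ℕ) : ℝ) - l = (j : ℝ) - l + 1 := by push_cast; ring
        have e2 : (j : ℝ) - 1 - l = (j : ℝ) - l - 1 := by ring
        rw [e1, h, e2]
        ring
    rw [h6]
    have h7 : (fun s : ℝ => morb e (s • q) (j + 1) v) = (fun s : ℝ => ((morb e (s • q) j v).2,
        -(morb e (s • q) j v).1 + s2t e * (morb e (s • q) j v).2 + s * qpol q j (morb e (s • q) j v).2)) := by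
      funext s
      simp only [morb, mstep, qpol_smul]
    rw [h7]
    exact h5

/-- PROOF. `morb_deriv` for j = N; derivative v.1 δ.2 - v.2 δ.1 with K_(N-l) = -K_l, K_(N-1-l) = -K_(l+1) (`s2K_N`). -/
theorem mK_deriv (e : ℕ) (q : QQ e) (v : Pt) :
    HasDerivAt (fun s : ℝ => v.1 * (morb e (s • q) (2 * (e + 3)) v).2 - v.2 * (morb e (s • q) (2 * (e + 3)) v).1)
      (∑ l ∈ Finset.range (2 * (e + 3)), s2w e l v * qpol q l (s2w e l v)) 0 := by
  have ih := morb_deriv e q (2 * (e + 3)) v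
  have h1 : HasDerivAt (fun s : ℝ => (morb e (s • q) (2 * (e + 3)) v).1) (s2d e q (2 * (e + 3)) v).1 0 :=
    (ContinuousLinearMap.fst ℝ ℝ ℝ).hasFDerivAt.comp_hasDerivAt (0 : ℝ) ih
  have h2 : HasDerivAt (fun s : ℝ => (morb e (s • q) (2 * (e + 3)) v).2) (s2d e q (2 * (e + 3)) v).2 0 :=
    (ContinuousLinearMap.snd ℝ ℝ ℝ).hasFDerivAt.comp_hasDerivAt (0 : ℝ) ih
  have h3 := (h2.const_mul v.1).sub (h1.const_mul v.2)
  have h4 : ∑ l ∈ Finset.range (2 * (e + 3)), s2w e l v * qpol q l (s2w e l v) =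
      v.1 * (s2d e q (2 * (e + 3)) v).2 - v.2 * (s2d e q (2 * (e + 3)) v).1 := by
    unfold s2d
    simp only
    rw [Finset.mul_sum, Finset.mul_sum, ← Finset.sum_sub_distrib]
    apply Finset.sum_congr rfl
    intro l _
    have h5 := s2K_N e l
    have h6 := s2K_N e (l + 1)
    have e1 : ((2 * (e + 3) : ℕ) : ℝ) - l = 2 * ((e : ℝ) + 3) - l := by push_cast; ring
    have e2 : ((2 * (e + 3) : ℕ) : ℝ) - 1 - l = 2 * ((e : ℝ) + 3) - (l + 1) := by push_cast; ring
    rw [e1, e2, h5, h6]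
    unfold s2w
    ring
  rw [h4]
  exact h3

/-- PROOF. Sum of `morb_deriv` (second component) over j < N; exchange the sums: Σ_(l < j < N) K_(j-l) c_l = Σ_l c_l Σ_(k=1)^(N-1-l) K_k = Σ_l c_l A_l (K_0 = 0). -/
theorem mJ_deriv (e : ℕ) (q : QQ e) (v : Pt) :
    HasDerivAt (fun s : ℝ => ∑ j ∈ Finset.range (2 * (e + 3)), (morb e (s • q) j v).2)
      (∑ l ∈ Finset.range (2 * (e + 3)), s2A e l * qpol q l (s2w e l v)) 0 := by
  have h1 : HasDerivAt (fun s : ℝ => ∑ j ∈ Finset.range (2 * (e + 3)), (morb e (s • q) j v).2)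
      (∑ j ∈ Finset.range (2 * (e + 3)), (s2d e q j v).2) 0 := by
    apply HasDerivAt.fun_sum
    intro j _
    exact (ContinuousLinearMap.snd ℝ ℝ ℝ).hasFDerivAt.comp_hasDerivAt (0 : ℝ) (morb_deriv e q j v)
  have h2 : ∑ j ∈ Finset.range (2 * (e + 3)), (s2d e q j v).2 =
      ∑ l ∈ Finset.range (2 * (e + 3)), s2A e l * qpol q l (s2w e l v) := by
    unfold s2d
    simp only
    rw [Finset.sum_sigma']
    have : ∑ l ∈ Finset.range (2 * (e + 3)), s2A e l * qpol q l (s2w e l v) =
        ∑ l ∈ Finset.range (2 * (e + 3)), ∑ k ∈ Finset.range (2 * (e + 3) - l), s2K e k * qpol q l (s2w e l v) := by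
      apply Finset.sum_congr rfl
      intro l _
      unfold s2A
      rw [Finset.sum_mul]
    rw [this, Finset.sum_sigma']
    -- left: pairs (j, l), l < j < N; right: pairs (l, k), l < N, k < N - l; k = j - l
    symm
    have hz : ∀ x ∈ (Finset.range (2 * (e + 3))).sigma (fun l => Finset.range (2 * (e + 3) - l)), x.2 = 0 →
        s2K e x.2 * qpol q x.1 (s2w e x.1 v) = 0 := by
      intro x _ hx
      rw [hx]; simp [s2K_zero]
    apply Finset.sum_bij_ne_zero (fun x _ _ => (⟨x.1 + x.2, x.1⟩ : Σ _ : ℕ, ℕ))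
    · intro x hx hne
      simp only [Finset.mem_sigma, Finset.mem_range] at hx ⊢
      have : x.2 ≠ 0 := fun h0 => hne (hz x (by simpa using hx) h0)
      omega
    · intro x hx _ y hy _ hxy
      simp only [Sigma.mk.injEq, heq_eq_eq] at hxy
      obtain ⟨a, b⟩ := x
      obtain ⟨c, d⟩ := y
      simp only at hxy
      have h1 : a = c := hxy.2
      have h2 : b = d := by omega
      rw [h1, h2]
    · intro y hy _
      simp only [Finset.mem_sigma, Finset.mem_range] at hy
      refine ⟨⟨y.2, y.1 - y.2⟩, ?_, ?_, ?_⟩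
      · simp only [Finset.mem_sigma, Finset.mem_range]; omega
      · rename_i hne
        intro h0
        apply hne
        rw [← h0]
        congr 2
        rw [Nat.cast_sub hy.2.le]
      · obtain ⟨a, b⟩ := y
        simp only at hy ⊢
        congr 1
        omega
    · intro x hx _
      simp only
      congr 2
      push_cast; ring
  rw [← h2]
  exact h1

/-- PROOF. `morb_zero`, `s2K_sum_N`. -/
theorem mJ_zero (e : ℕ) (v : Pt) : ∑ j ∈ Finset.range (2 * (e + 3)), (morb e 0 j v).2 = 0 := by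
  simp only [morb_zero]
  rw [Finset.sum_sub_distrib, ← Finset.sum_mul, ← Finset.sum_mul, (s2K_sum_N e).1, (s2K_sum_N e).2]
  ring

end Pool.Agent.Lib.H37N
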