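import Pool.Agent.Lib.H37N.S21

/-! # H37N, chunk S23 (M): powers of the linear forms span, surjectivity in every degree -/

open Set Filter Topology

namespace Pool.Agent.Lib.H37N

/-- coefficient of x^a u^(n-a) in (ϖ_l)^n -/
noncomputable def s2c (e l n a : ℕ) : ℝ := n.choose a * (-s2K e l) ^ a * s2K e (l + 1) ^ (n - a)

/-- PROOF. Binomial theorem (`add_pow`, (-K_l x) + (K_(l+1) u)). -/
theorem s2w_pow (e l n : ℕ) (v : Pt) :
    s2w e l v ^ n = ∑ a ∈ Finset.range (n + 1), v.1 ^ a * v.2 ^ (n - a) * s2c e l n a := by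
  sorry

/-- Powers of linear forms span.

PROOF. For l ≤ n: l + 1 < e + 3, so K_(l+1) > 0 (`s2K_pos`); put τ_l = -K_l / K_(l+1).  The τ_l are distinct: K_(j+1) K_l = K_j K_(l+1) would give K_(l-j) = 0 (`s2K_cross`), impossible for
0 < l - j < e + 3 (`s2K_pos`).  s2c e l n a = choose n a * K_(l+1)^n * τ_l^a.  The Vandermonde matrix of τ_0, .., τ_n is invertible (`Matrix.det_vandermonde_ne_zero_iff`), so there is y with
Σ_(l ≤ n) y_l τ_l^a = c a / choose n a for a ≤ n (solve with the transpose: `Matrix.vecMul`, `Matrix.mulVec_surjective_iff_isUnit`); α_l = y_l / K_(l+1)^n for l ≤ n, α_l = 0 for l > n. -/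
theorem s2_span (e n : ℕ) (hn : n ≤ e + 1) (c : ℕ → ℝ) :
    ∃ α : ℕ → ℝ, (∀ l, n < l → α l = 0) ∧ ∀ a ≤ n, ∑ l ∈ Finset.range (e + 3), α l * s2c e l n a = c a := by
  sorry

/-- PROOF. K_(l+L) = -K_l (`s2K_half`, L = e+3): the n-th power of a form changes by (-1)^n. -/
theorem s2c_half (e l n a : ℕ) (ha : a ≤ n) : s2c e (l + (e + 3)) n a = (-1) ^ n * s2c e l n a := by
  sorry

/-- Surjectivity in degree i.

PROOF. α from `s2_span` with n = i + 1, c = cK, β from `s2_span` with n = i, c = cJ / s₀.  For l < L = e+3 choose x l and x (l+L) with x l + (-1)^(i+1) x (l+L) = α l and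
A_l x l + (-1)^i A_(l+L) x (l+L) = β l: the determinant is (-1)^i (A_(l+L) + A_l) ≠ 0 (`s2A_sum`).  Split Σ_(l < 2L) = Σ_(l < L) (term l + term l+L) (`Finset.sum_range_add` / `Finset.range_add`), `s2c_half`. -/
theorem s2_surj (e i : ℕ) (hi : i ≤ e) {s₀ : ℝ} (hs : s₀ ≠ 0) (cK cJ : ℕ → ℝ) :
    ∃ x : ℕ → ℝ, (∀ a ≤ i + 1, ∑ l ∈ Finset.range (2 * (e + 3)), x l * s2c e l (i + 1) a = cK a) ∧
      ∀ a ≤ i, s₀ * ∑ l ∈ Finset.range (2 * (e + 3)), s2A e l * x l * s2c e l i a = cJ a := by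
  sorry

end Pool.Agent.Lib.H37N
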