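import Pool.Agent.Lib.H37N.T5c
import Pool.Agent.Lib.H37N.T5d

/-! # H37N, chunk S24 (M): derivatives of Taylor coefficients with respect to parameters -/

open Set Filter Topology Asymptotics
open scoped ContDiff

namespace Pool.Agent.Lib.H37N

variable {X : Type} [NormedAddCommGroup X] [NormedSpace ℝ X]

/-- PROOF. For v near 0 differentiate the expansion along s ↦ p + s • q at s = 0 (chain rule): the derivative of the left side is Σ D, of the right side Σ x^a y^(n-a) (fderiv (c a (n-a)) p q) +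
Σ x^a y^(k+1-a) G'(v), G'(v) = fderiv (G ..) (p,v) (q,0), continuous in v.  So the polynomial with the coefficients fderiv (c a b) p q - D a b is O(‖v‖^(k+1)) (`remainder2_isBigO`);
`poly2_unique`. -/
theorem coeff_deriv {F : X × ℝ × ℝ → ℝ} {c : ℕ → ℕ → X → ℝ} (hc : ∀ a b, ContDiff ℝ ∞ (c a b)) (k : ℕ)
    {G : ℕ → ℕ → X × ℝ × ℝ → ℝ} (hG : ∀ a b, ContDiff ℝ ∞ (G a b))
    (hexp : ∀ p x y, F (p, x, y) =
      (∑ n ∈ Finset.range (k + 1), ∑ a ∈ Finset.range (n + 1), (x ^ a * y ^ (n - a)) • c a (n - a) p) +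
      ∑ a ∈ Finset.range (k + 2), (x ^ a * y ^ (k + 1 - a)) • G a (k + 1 - a) (p, x, y))
    (p q : X) (D : ℕ → ℕ → ℝ)
    (hD : ∀ᶠ v : ℝ × ℝ in 𝓝 0, HasDerivAt (fun s : ℝ => F (p + s • q, v))
      (∑ n ∈ Finset.range (k + 1), ∑ a ∈ Finset.range (n + 1), v.1 ^ a * v.2 ^ (n - a) * D a (n - a)) 0) :
    ∀ a b, a + b ≤ k → fderiv ℝ (c a b) p q = D a b := by
  sorry

/-- PROOF. At p the function F(p,·) vanishes near 0, so the polynomial is O(‖v‖^(k+1)); `remainder2_isBigO`, `poly2_unique`. -/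
theorem coeff_zero {F : X × ℝ × ℝ → ℝ} {c : ℕ → ℕ → X → ℝ} (k : ℕ)
    {G : ℕ → ℕ → X × ℝ × ℝ → ℝ} (hG : ∀ a b, ContDiff ℝ ∞ (G a b))
    (hexp : ∀ p x y, F (p, x, y) =
      (∑ n ∈ Finset.range (k + 1), ∑ a ∈ Finset.range (n + 1), (x ^ a * y ^ (n - a)) • c a (n - a) p) +
      ∑ a ∈ Finset.range (k + 2), (x ^ a * y ^ (k + 1 - a)) • G a (k + 1 - a) (p, x, y))
    (p : X) (h0 : ∀ᶠ v : ℝ × ℝ in 𝓝 0, F (p, v) = 0) : ∀ a b, a + b ≤ k → c a b p = 0 := by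
  sorry

/-- PROOF. `remainder2_isBigO` (k+1). -/
theorem isBigO_of_coeff {F : X × ℝ × ℝ → ℝ} {c : ℕ → ℕ → X → ℝ} (k : ℕ)
    {G : ℕ → ℕ → X × ℝ × ℝ → ℝ} (hG : ∀ a b, ContDiff ℝ ∞ (G a b))
    (hexp : ∀ p x y, F (p, x, y) =
      (∑ n ∈ Finset.range (k + 1), ∑ a ∈ Finset.range (n + 1), (x ^ a * y ^ (n - a)) • c a (n - a) p) +
      ∑ a ∈ Finset.range (k + 2), (x ^ a * y ^ (k + 1 - a)) • G a (k + 1 - a) (p, x, y))
    (p : X) (h0 : ∀ a b, a + b ≤ k → c a b p = 0) :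
    (fun v : ℝ × ℝ => F (p, v)) =O[𝓝 0] fun v => ‖v‖ ^ (k + 1) := by
  sorry

end Pool.Agent.Lib.H37N
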