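import Pool.Agent.Lib.H37N.S22
import Pool.Agent.Lib.H37N.B16

/-! # H37N, chunk S25 (M): the composition of the blocks -/

open Set Filter Topology Asymptotics
open scoped ContDiff

namespace Pool.Agent.Lib.H37N

variable {X : Type} [NormedAddCommGroup X] [NormedSpace ℝ X]

/-- PROOF. Induction on j. -/
theorem orb_smooth {B : ℕ → X × Pt → Pt} (hB : ∀ j, ContDiff ℝ ∞ (B j)) (j : ℕ) :
    ContDiff ℝ ∞ (fun r : X × Pt => orb B r.1 j r.2) := by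
  sorry

/-- PROOF. Induction on n: jac (orb (n+1)) = jac (B n (p,·)) (orb n v) * jac (orb n) v (`jac_comp`), exp (a+b) = exp a * exp b. -/
theorem orb_jac {B : ℕ → X × Pt → Pt} {J : ℕ → X × Pt → ℝ} (hB : ∀ j, ContDiff ℝ ∞ (B j)) {ρ : ℝ} (p : X) (n : ℕ)
    (v : Pt) (h : ∀ j < n, jac (fun w => B j (p, w)) (orb B p j v) = Real.exp (ρ * J j (p, orb B p j v))) :
    jac (orb B p n) v = Real.exp (ρ * ∑ j ∈ Finset.range n, J j (p, orb B p j v)) := by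
  sorry

/-- Comparison with the model.

PROOF. Induction on j: the set of (q,v) near (0,0) where orb B (0,q) j v = morb e q j v; morb e 0 j 0 = 0 (`morb_zero`) and (q,v) ↦ morb e q j v is continuous at (0,0) (or orb is, `orb_smooth`), so
(q, morb e q j v) is near (0,0) and hB0 applies. -/
theorem orb_eq_morb {e : ℕ} {Par : Type} [NormedAddCommGroup Par] [NormedSpace ℝ Par]
    {B : ℕ → (Par × QQ e) × Pt → Pt} (hB : ∀ j, ContDiff ℝ ∞ (B j))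
    (hB0 : ∀ j < 2 * (e + 3), ∀ᶠ r : QQ e × Pt in 𝓝 0, B j ((0, r.1), r.2) = mstep e (qpol r.1 j r.2.2) r.2) :
    ∀ j ≤ 2 * (e + 3), ∀ᶠ r : QQ e × Pt in 𝓝 0, orb B (0, r.1) j r.2 = morb e r.1 j r.2 := by
  sorry

/-- PROOF. orb B (0,0) j 0 = 0 for j ≤ N by `orb_eq_morb` (`Filter.Eventually.self_of_nhds`) and `morb_zero`; continuity. -/
theorem orb_small {e : ℕ} {Par : Type} [NormedAddCommGroup Par] [NormedSpace ℝ Par]
    {B : ℕ → (Par × QQ e) × Pt → Pt} (hB : ∀ j, ContDiff ℝ ∞ (B j))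
    (hB0 : ∀ j < 2 * (e + 3), ∀ᶠ r : QQ e × Pt in 𝓝 0, B j ((0, r.1), r.2) = mstep e (qpol r.1 j r.2.2) r.2)
    {S : Set ((Par × QQ e) × Pt)} (hS : S ∈ 𝓝 (0 : (Par × QQ e) × Pt)) :
    ∀ j ≤ 2 * (e + 3), ∀ᶠ r : (Par × QQ e) × Pt in 𝓝 0, (r.1, orb B r.1 j r.2) ∈ S := by
  sorry

end Pool.Agent.Lib.H37N
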