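import Pool.Agent.Lib.H37N.S23
import Pool.Agent.Lib.H37N.S25

/-! # H37N, chunk S26 (M): derivatives in q of the two functions K and J -/

open Set Filter Topology Asymptotics
open scoped ContDiff

namespace Pool.Agent.Lib.H37N

noncomputable section

variable {e : ℕ} {Par : Type} [NormedAddCommGroup Par] [NormedSpace ℝ Par]

/-- v ∧ R(v) -/
def FK (e : ℕ) (B : ℕ → (Par × QQ e) × Pt → Pt) (r : (Par × QQ e) × ℝ × ℝ) : ℝ :=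
  r.2.1 * (orb B r.1 (2 * (e + 3)) r.2).2 - r.2.2 * (orb B r.1 (2 * (e + 3)) r.2).1

/-- the sum of the J_j -/
def FJ (e : ℕ) (B : ℕ → (Par × QQ e) × Pt → Pt) (J : ℕ → (Par × QQ e) × Pt → ℝ) (r : (Par × QQ e) × ℝ × ℝ) : ℝ :=
  ∑ j ∈ Finset.range (2 * (e + 3)), J j (r.1, orb B r.1 j r.2)

theorem FK_smooth {B : ℕ → (Par × QQ e) × Pt → Pt} (hB : ∀ j, ContDiff ℝ ∞ (B j)) : ContDiff ℝ ∞ (FK e B) := by
  sorry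

theorem FJ_smooth {B : ℕ → (Par × QQ e) × Pt → Pt} {J : ℕ → (Par × QQ e) × Pt → ℝ}
    (hB : ∀ j, ContDiff ℝ ∞ (B j)) (hJ : ∀ j, ContDiff ℝ ∞ (J j)) : ContDiff ℝ ∞ (FJ e B J) := by
  sorry

/-- coefficient of x^a u^b in the derivative of FK -/
def DK (e : ℕ) (q : QQ e) (a b : ℕ) : ℝ :=
  if h : 1 ≤ a + b ∧ a + b - 1 < e + 1 then ∑ l : Fin (2 * (e + 3)), q l ⟨a + b - 1, h.2⟩ * s2c e l (a + b) a else 0

/-- coefficient of x^a u^b in the derivative of FJ -/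
def DJ (e : ℕ) (s₀ : ℝ) (q : QQ e) (a b : ℕ) : ℝ :=
  if h : a + b < e + 1 then s₀ * ∑ l : Fin (2 * (e + 3)), s2A e l * q l ⟨a + b, h⟩ * s2c e l (a + b) a else 0

/-- PROOF. For v near 0 and s near 0 orb B (0, s•q) N v = morb e (s•q) N v (`orb_eq_morb`), so by `mK_deriv` the derivative is Σ_l ϖ_l qpol q l ϖ_l = Σ_i Σ_l q l i ϖ_l^(i+1); `s2w_pow` with n = i+1;
the term n = 0 of the double sum is DK 0 0 = 0 (`Finset.sum_range_succ'`), the term n = i+1 is Σ_l q l i ϖ_l^(i+1). -/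
theorem FK_deriv {B : ℕ → (Par × QQ e) × Pt → Pt} (hB : ∀ j, ContDiff ℝ ∞ (B j))
    (hB0 : ∀ j < 2 * (e + 3), ∀ᶠ r : QQ e × Pt in 𝓝 0, B j ((0, r.1), r.2) = mstep e (qpol r.1 j r.2.2) r.2)
    (q : QQ e) : ∀ᶠ v : ℝ × ℝ in 𝓝 0, HasDerivAt (fun s : ℝ => FK e B ((0 : Par × QQ e) + s • ((0 : Par), q), v))
      (∑ n ∈ Finset.range (e + 2), ∑ a ∈ Finset.range (n + 1), v.1 ^ a * v.2 ^ (n - a) * DK e q a (n - a)) 0 := by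
  sorry

/-- PROOF. For v, s near 0: J j ((0,s•q), orb ..) = s₀ ((morb e (s•q) j v).2 + d j); `mJ_deriv`, `s2w_pow` with n = i. -/
theorem FJ_deriv {B : ℕ → (Par × QQ e) × Pt → Pt} {J : ℕ → (Par × QQ e) × Pt → ℝ} (hB : ∀ j, ContDiff ℝ ∞ (B j))
    (hJ : ∀ j, ContDiff ℝ ∞ (J j)) {s₀ : ℝ} {d : ℕ → ℝ}
    (hB0 : ∀ j < 2 * (e + 3), ∀ᶠ r : QQ e × Pt in 𝓝 0, B j ((0, r.1), r.2) = mstep e (qpol r.1 j r.2.2) r.2)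
    (hJ0 : ∀ j < 2 * (e + 3), ∀ᶠ r : QQ e × Pt in 𝓝 0, J j ((0, r.1), r.2) = s₀ * (r.2.2 + d j))
    (q : QQ e) : ∀ᶠ v : ℝ × ℝ in 𝓝 0, HasDerivAt (fun s : ℝ => FJ e B J ((0 : Par × QQ e) + s • ((0 : Par), q), v))
      (∑ n ∈ Finset.range (e + 1), ∑ a ∈ Finset.range (n + 1), v.1 ^ a * v.2 ^ (n - a) * DJ e s₀ q a (n - a)) 0 := by
  sorry

/-- PROOF. `orb_eq_morb`, `morb_zero_N`. -/
theorem FK_zero {B : ℕ → (Par × QQ e) × Pt → Pt} (hB : ∀ j, ContDiff ℝ ∞ (B j))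
    (hB0 : ∀ j < 2 * (e + 3), ∀ᶠ r : QQ e × Pt in 𝓝 0, B j ((0, r.1), r.2) = mstep e (qpol r.1 j r.2.2) r.2) :
    ∀ᶠ v : ℝ × ℝ in 𝓝 0, FK e B ((0 : Par × QQ e), v) = 0 := by
  sorry

/-- PROOF. `orb_eq_morb`, `mJ_zero`, Σ d j = 0. -/
theorem FJ_zero {B : ℕ → (Par × QQ e) × Pt → Pt} {J : ℕ → (Par × QQ e) × Pt → ℝ} (hB : ∀ j, ContDiff ℝ ∞ (B j))
    {s₀ : ℝ} {d : ℕ → ℝ} (hd : ∑ j ∈ Finset.range (2 * (e + 3)), d j = 0)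
    (hB0 : ∀ j < 2 * (e + 3), ∀ᶠ r : QQ e × Pt in 𝓝 0, B j ((0, r.1), r.2) = mstep e (qpol r.1 j r.2.2) r.2)
    (hJ0 : ∀ j < 2 * (e + 3), ∀ᶠ r : QQ e × Pt in 𝓝 0, J j ((0, r.1), r.2) = s₀ * (r.2.2 + d j)) :
    ∀ᶠ v : ℝ × ℝ in 𝓝 0, FJ e B J ((0 : Par × QQ e), v) = 0 := by
  sorry

/-- PROOF. For every degree i ≤ e take x = x_i from `s2_surj` with cK a = zK a (i+1-a), cJ a = zJ a (i-a); q l i = x_i l.  `Finset.sum_range` converts sums over range N to sums over Fin N. -/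
theorem DKJ_surj (e : ℕ) {s₀ : ℝ} (hs : s₀ ≠ 0) (zK zJ : ℕ → ℕ → ℝ) :
    ∃ q : QQ e, (∀ a b, 1 ≤ a + b → a + b ≤ e + 1 → DK e q a b = zK a b) ∧
      ∀ a b, a + b ≤ e → DJ e s₀ q a b = zJ a b := by
  sorry

end

end Pool.Agent.Lib.H37N
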