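import Mathlib

/-! # H37N, chunk T9 (S): open mapping with parameters -/

open Set Filter Topology Asymptotics
open scoped ContDiff

namespace Pool.Agent.Lib.H37N

variable {P Q Z : Type} [NormedAddCommGroup P] [NormedSpace ℝ P] [CompleteSpace P]
  [NormedAddCommGroup Q] [NormedSpace ℝ Q] [CompleteSpace Q] [NormedAddCommGroup Z] [NormedSpace ℝ Z] [CompleteSpace Z]

/-- T9.

PROOF. The map (p,q) ↦ (p, Φ(p,q)) has at (p₀,q₀) the strict derivative (u,v) ↦ (u, DΦ(u,v)) (`ContDiffAt.hasStrictFDerivAt`), which is surjective because the partial derivative in q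
(= DΦ ∘ inr, chain rule) is.  `HasStrictFDerivAt.map_nhds_eq_of_surj`: the image of the neighbourhood univ ×ˢ B (of (p₀,q₀)) is a neighbourhood of (p₀, Φ(p₀,q₀)). -/
theorem open_param {Φ : P × Q → Z} {p₀ : P} {q₀ : Q} (hΦ : ContDiffAt ℝ 1 Φ (p₀, q₀))
    (hs : Function.Surjective (fderiv ℝ (fun q => Φ (p₀, q)) q₀)) {B : Set Q} (hB : B ∈ 𝓝 q₀) :
    ∀ᶠ r : P × Z in 𝓝 (p₀, Φ (p₀, q₀)), ∃ q ∈ B, Φ (r.1, q) = r.2 := by
  have h1 : HasStrictFDerivAt Φ (fderiv ℝ Φ (p₀, q₀)) (p₀, q₀) :=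
    hΦ.hasStrictFDerivAt (by simp)
  have h2 : HasStrictFDerivAt (fun x : P × Q => (x.1, Φ x))
      ((ContinuousLinearMap.fst ℝ P Q).prod (fderiv ℝ Φ (p₀, q₀))) (p₀, q₀) :=
    hasStrictFDerivAt_fst.prodMk h1
  have h3 : fderiv ℝ (fun q => Φ (p₀, q)) q₀ =
      (fderiv ℝ Φ (p₀, q₀)).comp (ContinuousLinearMap.inr ℝ P Q) := by
    have h4 : HasFDerivAt (fun q : Q => (p₀, q)) (ContinuousLinearMap.inr ℝ P Q) q₀ :=
      hasFDerivAt_prodMk_right p₀ q₀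
    exact (h1.hasFDerivAt.comp q₀ h4).fderiv
  have h5 : ((ContinuousLinearMap.fst ℝ P Q).prod (fderiv ℝ Φ (p₀, q₀))).range = ⊤ := by
    rw [LinearMap.range_eq_top]
    rintro ⟨u, w⟩
    obtain ⟨v, hv⟩ := hs (w - fderiv ℝ Φ (p₀, q₀) (u, 0))
    refine ⟨(u, v), ?_⟩
    rw [h3] at hv
    have h6 : fderiv ℝ Φ (p₀, q₀) (0, v) = w - fderiv ℝ Φ (p₀, q₀) (u, 0) := hv
    have h7 : fderiv ℝ Φ (p₀, q₀) (u, v) = w := by
      have h8 : ((u, v) : P × Q) = (u, 0) + (0, v) := by simp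
      rw [h8, map_add, h6]
      abel
    exact Prod.ext rfl h7
  have h9 := h2.map_nhds_eq_of_surj h5
  have h10 : (univ ×ˢ B : Set (P × Q)) ∈ 𝓝 (p₀, q₀) := prod_mem_nhds univ_mem hB
  have h11 : (fun x : P × Q => (x.1, Φ x)) '' (univ ×ˢ B) ∈ 𝓝 (p₀, Φ (p₀, q₀)) := by
    rw [← h9]
    exact image_mem_map h10
  filter_upwards [h11] with r hr
  obtain ⟨⟨p, q⟩, ⟨-, hq⟩, rfl⟩ := hr
  exact ⟨q, hq, rfl⟩

end Pool.Agent.Lib.H37N
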