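import Pool.Agent.Lib.H37N.S24
import Pool.Agent.Lib.H37N.S26
import Pool.Agent.Lib.H37N.T9

/-! # H37N, chunk S27 (M): solving the equations by the open mapping theorem -/

open Set Filter Topology Asymptotics
open scoped ContDiff

namespace Pool.Agent.Lib.H37N

variable {e : ℕ} {Par : Type} [NormedAddCommGroup Par] [NormedSpace ℝ Par] [FiniteDimensional ℝ Par]

/-- PROOF. `taylor2` (X = Par × QQ e) for FK e B with k = e+1 (coefficients cK) and for FJ e B J with k = e (coefficients cJ).  Z = (I₁ → ℝ) × (I₂ → ℝ), I₁ = {ab : Fin (e+2) × Fin (e+2) // 1 ≤ a+b ≤ e+1},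
I₂ = {ab : Fin (e+1) × Fin (e+1) // a + b ≤ e}; Φ (p,q) = (fun ab => cK a b (p,q), fun ab => cJ a b (p,q)) is smooth, Φ (0,0) = 0 (`coeff_zero`, `FK_zero`, `FJ_zero`).
fderiv (fun q => Φ (0,q)) 0 q = (DK e q a b, DJ e s₀ q a b) (`coeff_deriv` with p = 0, direction (0,q), `FK_deriv`, `FJ_deriv`; chain rule with q ↦ (0,q)), surjective by `DKJ_surj`.
`open_param` with B = ball 0 η: for p near 0 (take the second variable 0) there is q with ‖q‖ < η, Φ (p,q) = 0.  cK 0 0 (p,q) = FK ((p,q),0,0) = 0.  `isBigO_of_coeff`. -/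
theorem AS2_solve (B : ℕ → (Par × QQ e) × Pt → Pt) (J : ℕ → (Par × QQ e) × Pt → ℝ)
    (hB : ∀ j, ContDiff ℝ ∞ (B j)) (hJ : ∀ j, ContDiff ℝ ∞ (J j)) {s₀ : ℝ} (hs : s₀ ≠ 0) (d : ℕ → ℝ)
    (hd : ∑ j ∈ Finset.range (2 * (e + 3)), d j = 0)
    (hB0 : ∀ j < 2 * (e + 3), ∀ᶠ r : QQ e × Pt in 𝓝 0, B j ((0, r.1), r.2) = mstep e (qpol r.1 j r.2.2) r.2)
    (hJ0 : ∀ j < 2 * (e + 3), ∀ᶠ r : QQ e × Pt in 𝓝 0, J j ((0, r.1), r.2) = s₀ * (r.2.2 + d j))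
    {η : ℝ} (hη : 0 < η) :
    ∀ᶠ p in 𝓝 (0 : Par), ∃ q : QQ e, ‖q‖ < η ∧
      ((fun v : ℝ × ℝ => FK e B ((p, q), v)) =O[𝓝 0] fun v => ‖v‖ ^ (e + 2)) ∧
      (fun v : ℝ × ℝ => FJ e B J ((p, q), v)) =O[𝓝 0] fun v => ‖v‖ ^ (e + 1) := by
  sorry

end Pool.Agent.Lib.H37N
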