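import Pool.Agent.Lib.H37N.BDefs
import Pool.Agent.Lib.H37N.T5b

/-! # H37N, chunk S28 (M): Lemma C -/

open Set Filter Topology Asymptotics
open scoped ContDiff

namespace Pool.Agent.Lib.H37N

/-- Integration of the Euler operator along rays.

PROOF. ‖F v + fderiv F v v‖ ≤ C ‖v‖^(k+1) for ‖v‖ < δ.  For such v the curve φ(t) = t • F (t • v), t ∈ [0,1], has the derivative F (t•v) + fderiv F (t•v) (t•v), of norm ≤ C ‖v‖^(k+1);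
mean value inequality (`norm_image_sub_le_of_norm_deriv_le_segment_01'`): ‖F v‖ = ‖φ 1 - φ 0‖ ≤ C ‖v‖^(k+1). -/
theorem euler_int {F : Pt → ℝ} (hF : ContDiff ℝ ∞ F) (k : ℕ)
    (h : (fun v => F v + fderiv ℝ F v v) =O[𝓝 0] fun v => ‖v‖ ^ (k + 1)) :
    F =O[𝓝 0] fun v => ‖v‖ ^ (k + 1) := by
  sorry

/-- One step of the induction: F = R - id.

PROOF. K(v) = v₁ F₂ - v₂ F₁ is smooth and O(‖v‖^(k+2)), so fderiv K = O(‖v‖^(k+1)) (`isBigO_fderiv`): (1) F₂ + v₁ ∂₁F₂ - v₂ ∂₁F₁ = O(‖v‖^(k+1)), (2) v₁ ∂₂F₂ - F₁ - v₂ ∂₂F₁ = O(‖v‖^(k+1)).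
hdiv: ∂₁F₁ + ∂₂F₂ = O(‖v‖^k).  Multiply by v₂ or v₁ (O(‖v‖)): (1) gives F₂ + v₁ ∂₁F₂ + v₂ ∂₂F₂ = O(‖v‖^(k+1)), (2) gives F₁ + v₁ ∂₁F₁ + v₂ ∂₂F₁ = O(‖v‖^(k+1)).  fderiv F_i v v = v₁ ∂₁F_i + v₂ ∂₂F_i.
`euler_int` for F₁ and F₂. -/
theorem s28_step {F : Pt → Pt} (hF : ContDiff ℝ ∞ F) (k : ℕ)
    (hK : (fun v : Pt => v.1 * (F v).2 - v.2 * (F v).1) =O[𝓝 0] fun v => ‖v‖ ^ (k + 2))
    (hdiv : (fun v : Pt => (fderiv ℝ F v (1, 0)).1 + (fderiv ℝ F v (0, 1)).2) =O[𝓝 0] fun v => ‖v‖ ^ k) :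
    F =O[𝓝 0] fun v => ‖v‖ ^ (k + 1) := by
  sorry

/-- The linear part.

PROOF. K(v) = v₁ R₂ - v₂ R₁ = O(‖v‖^3).  For fixed w: t (w₁ R₂(tw) - w₂ R₁(tw)) = O(t^3), so w ∧ R(tw) = O(t^2) (t ≠ 0; continuity), so w ∧ R(0) = 0 and w ∧ (fderiv R 0 w) = 0 for all w.
w = (1,0), (0,1): R(0) = 0, A₂₁ = 0, A₁₂ = 0 (A = fderiv R 0); w = (1,1): A₂₂ = A₁₁ = λ.  jac R 0 = λ^2 = 1 (hdet: jac R - 1 = O(‖v‖) at 0 is 0), and ‖A - id‖ < 1/2 at (1,0): |λ - 1| < 1/2, so λ = 1. -/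
theorem s28_base {R : Pt → Pt} (hR : ContDiff ℝ ∞ R)
    (hK : (fun v : Pt => v.1 * (R v).2 - v.2 * (R v).1) =O[𝓝 0] fun v => ‖v‖ ^ 3)
    (hdet : (fun v => jac R v - 1) =O[𝓝 0] fun v => ‖v‖ ^ 1)
    (hI : ‖fderiv ℝ R 0 - ContinuousLinearMap.id ℝ Pt‖ < 1 / 2) :
    R 0 = 0 ∧ fderiv ℝ R 0 = ContinuousLinearMap.id ℝ Pt := by
  sorry

/-- S.3, Lemma C.

PROOF. F = R - id.  By `s28_base` F 0 = 0, fderiv F 0 = 0, so F = O(‖v‖^2) (`isBigO_iff_jet` with k = 1, or Taylor).  Claim: F = O(‖v‖^(k+1)) for 1 ≤ k ≤ e, induction on k.  Step k → k+1 (k+1 ≤ e): F = O(‖v‖^(k+1)),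
fderiv F = O(‖v‖^k), K = v ∧ R = v ∧ F = O(‖v‖^(e+2)) = O(‖v‖^(k+3)), jac R = (1+∂₁F₁)(1+∂₂F₂) - ∂₁F₂ ∂₂F₁ = 1 + div F + O(‖fderiv F‖^2), so div F = O(‖v‖^e) + O(‖v‖^(2k)) = O(‖v‖^(k+1)) (k ≥ 1, e ≥ k+1).
`s28_step` with k+1: F = O(‖v‖^(k+2)). -/
theorem lemmaC {R : Pt → Pt} (hR : ContDiff ℝ ∞ R) (e : ℕ) (he : 1 ≤ e)
    (hK : (fun v : Pt => v.1 * (R v).2 - v.2 * (R v).1) =O[𝓝 0] fun v => ‖v‖ ^ (e + 2))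
    (hdet : (fun v => jac R v - 1) =O[𝓝 0] fun v => ‖v‖ ^ e)
    (hI : ‖fderiv ℝ R 0 - ContinuousLinearMap.id ℝ Pt‖ < 1 / 2) :
    (fun v => R v - v) =O[𝓝 0] fun v => ‖v‖ ^ (e + 1) := by
  sorry

end Pool.Agent.Lib.H37N
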