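import Pool.Agent.Lib.H37N.S27
import Pool.Agent.Lib.H37N.S28

/-! # H37N, chunk S29 (M): theorem AS2 -/

open Set Filter Topology Asymptotics
open scoped ContDiff

namespace Pool.Agent.Lib.H37N

/-- S.2, THEOREM AS2.

PROOF. N = 2(e+3).  (a) For (p,q) near (0,0), p ∈ G, and v near 0: jac (orb B (p,q) N) v = exp (ρ p * FJ e B J ((p,q),v)) (`orb_jac`, `orb_small` with the neighbourhoods of hdet, j < N).  Make it a product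
neighbourhood: there is δ with this for ‖p‖, ‖q‖, ‖v‖ < δ.  (b) (p,q) ↦ fderiv (orb B (p,q) N) 0 is continuous (`orb_smooth`: it is (fderiv of r ↦ orb B r.1 N r.2 at ((p,q),0)).comp inr) and at (0,0) it is id
(`orb_eq_morb`, `morb_zero_N`), so ‖.. - id‖ < 1/2 for ‖p‖, ‖q‖ < δ.  Apply `AS2_solve` with η' = min η δ: for p near 0, ‖p‖ < δ, p ∈ G there is q with ‖q‖ < η', K = O(‖v‖^(e+2)), J = O(‖v‖^(e+1)).
exp (ρ J) - 1 = O(J) as J → 0 (J(0) = 0: `IsBigO` with e+1 ≥ 1; |exp x - 1| ≤ 2|x| for |x| ≤ 1), so jac - 1 = O(‖v‖^(e+1)) = O(‖v‖^e).  `lemmaC` for R = orb B (p,q) N. -/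
theorem AS2 (e : ℕ) (he : 1 ≤ e) {Par : Type} [NormedAddCommGroup Par] [NormedSpace ℝ Par] [FiniteDimensional ℝ Par]
    (ρ : Par → ℝ) (G : Set Par) (B : ℕ → (Par × QQ e) × Pt → Pt) (J : ℕ → (Par × QQ e) × Pt → ℝ)
    (hB : ∀ j, ContDiff ℝ ∞ (B j)) (hJ : ∀ j, ContDiff ℝ ∞ (J j)) {s₀ : ℝ} (hs : s₀ ≠ 0) (d : ℕ → ℝ)
    (hd : ∑ j ∈ Finset.range (2 * (e + 3)), d j = 0)
    (hB0 : ∀ j < 2 * (e + 3), ∀ᶠ r : QQ e × Pt in 𝓝 0, B j ((0, r.1), r.2) = mstep e (qpol r.1 j r.2.2) r.2)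
    (hJ0 : ∀ j < 2 * (e + 3), ∀ᶠ r : QQ e × Pt in 𝓝 0, J j ((0, r.1), r.2) = s₀ * (r.2.2 + d j))
    (hdet : ∀ j < 2 * (e + 3), ∀ᶠ r : (Par × QQ e) × Pt in 𝓝 0, r.1.1 ∈ G →
      jac (fun v => B j (r.1, v)) r.2 = Real.exp (ρ r.1.1 * J j r))
    {η : ℝ} (hη : 0 < η) :
    ∀ᶠ p in 𝓝 (0 : Par), p ∈ G → ∃ q : QQ e, ‖q‖ < η ∧
      ((fun v => orb B (p, q) (2 * (e + 3)) v - v) =O[𝓝 0] fun v => ‖v‖ ^ (e + 1)) := by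
  sorry

end Pool.Agent.Lib.H37N
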