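import Pool.Agent.Lib.H37N.SA1

/-! # H37N, chunk SA2 (M): powers of linear forms span; the linear algebra of AS2 (S.2) -/

open Set Filter Topology Asymptotics
open scoped ContDiff

namespace Pool.Agent.Lib.H37N

theorem sa2_vander (m : ℕ) (r : ℕ → ℝ) (hr : ∀ l ≤ m, ∀ l' ≤ m, r l = r l' → l = l')
    (t : ℕ → ℝ) : ∃ β : ℕ → ℝ, ∀ a ≤ m, ∑ l ∈ Finset.range (m + 1), β l * r l ^ a = t a := by
  classical
  obtain ⟨v, hv⟩ : ∃ v : Fin (m + 1) → ℝ, v = fun l : Fin (m + 1) => r (l : ℕ) := ⟨_, rfl⟩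
  have hinj : Function.Injective v := by
    intro i j hij
    rw [hv] at hij
    exact Fin.ext (hr i (by omega) j (by omega) hij)
  have hdet : ((Matrix.vandermonde v).transpose).det ≠ 0 := by
    rw [Matrix.det_transpose]
    exact Matrix.det_vandermonde_ne_zero_iff.2 hinj
  have hu : IsUnit ((Matrix.vandermonde v).transpose).det := hdet.isUnit
  set b : Fin (m + 1) → ℝ :=
    ((Matrix.vandermonde v).transpose)⁻¹.mulVec (fun a : Fin (m + 1) => t a) with hb
  have h1 : ((Matrix.vandermonde v).transpose).mulVec b = fun a : Fin (m + 1) => t a := by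
    rw [hb, Matrix.mulVec_mulVec, Matrix.mul_nonsing_inv _ hu, Matrix.one_mulVec]
  refine ⟨fun l => if h : l < m + 1 then b ⟨l, h⟩ else 0, fun a ha => ?_⟩
  have h2 := congrFun h1 ⟨a, by omega⟩
  simp only [Matrix.mulVec, dotProduct, Matrix.transpose_apply, Matrix.vandermonde_apply] at h2
  rw [Finset.sum_range]
  rw [← h2]
  refine Finset.sum_congr rfl fun l _ => ?_
  simp only [hv, l.2, dif_pos]
  ring

/-- The m-th powers of m+1 linear forms, pairwise not proportional, span the forms of degree m.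

PROOF.  `(k_l (u + r_l x))^m = k_l^m Σ_a C(m,a) r_l^a x^a u^(m-a)` (`add_pow`, `mul_pow`).  So it suffices to find `β_l = α_l k_l^m`, `l ∈ range (m+1)` (`Fin (m+1)`), with
`Σ_l β_l r_l^a = c_a / C(m,a)` for all `a ≤ m`: the transpose of the Vandermonde matrix of `r_0, ..., r_m` is invertible (`Matrix.det_vandermonde_ne_zero_iff`,
`Matrix.det_transpose`, `Matrix.mulVec_surjective_iff_isUnit` or `Matrix.mulVec` with the inverse).  Put `α_l = β_l / k_l^m`. -/
theorem span_pow (m : ℕ) (k r : ℕ → ℝ) (hk : ∀ l ≤ m, k l ≠ 0)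
    (hr : ∀ l ≤ m, ∀ l' ≤ m, r l = r l' → l = l') (c : ℕ → ℝ) :
    ∃ α : ℕ → ℝ, ∀ x u : ℝ, ∑ l ∈ Finset.range (m + 1), α l * (k l * (u + r l * x)) ^ m =
      ∑ a ∈ Finset.range (m + 1), c a * (x ^ a * u ^ (m - a)) := by
  obtain ⟨β, hβ⟩ := sa2_vander m r hr (fun a => c a / (m.choose a))
  refine ⟨fun l => β l / k l ^ m, fun x u => ?_⟩
  have h1 : ∀ l ∈ Finset.range (m + 1), β l / k l ^ m * (k l * (u + r l * x)) ^ m =
      ∑ a ∈ Finset.range (m + 1), β l * r l ^ a * (m.choose a * (x ^ a * u ^ (m - a))) := by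
    intro l hl
    have hl' : l ≤ m := by
      have := Finset.mem_range.1 hl
      omega
    have hkl : k l ^ m ≠ 0 := pow_ne_zero _ (hk l hl')
    rw [mul_pow, ← mul_assoc, div_mul_cancel₀ _ hkl, add_comm u, add_pow, Finset.mul_sum]
    refine Finset.sum_congr rfl fun a _ => ?_
    rw [mul_pow]
    ring
  rw [Finset.sum_congr rfl h1, Finset.sum_comm]
  refine Finset.sum_congr rfl fun a ha => ?_
  have ha' : a ≤ m := by
    have := Finset.mem_range.1 ha
    omega
  rw [← Finset.sum_mul, hβ a ha']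
  have hc : (m.choose a : ℝ) ≠ 0 := by
    have := Nat.choose_pos ha'
    positivity
  field_simp

/-- PROOF.  `span_pow` with `k l = K_(l+1) > 0` and `r l = - K_l / K_(l+1)` (`sK_pos`, `sK_ratio`; `l + 1 ≤ m + 1 < n`):
`k l (u + r l x) = K_(l+1) u - K_l x = spi n (l+1) (x,u)`.  Take `α l = 0` for `l > m`. -/
theorem span_spi {n m : ℕ} (hn : 2 ≤ n) (hm : m + 1 < n) (c : ℕ → ℝ) :
    ∃ α : ℕ → ℝ, ∀ v : ℝ × ℝ, ∑ l ∈ Finset.range n, α l * spi n (l + 1) v ^ m =
      ∑ a ∈ Finset.range (m + 1), c a * (v.1 ^ a * v.2 ^ (m - a)) := by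
  have hpos : ∀ l ≤ m, 0 < sK n ((l : ℝ) + 1) := by
    intro l hl
    have := sK_pos (n := n) (i := l + 1) hn (by omega) (by omega)
    push_cast at this
    exact this
  obtain ⟨α, hα⟩ := span_pow m (fun l => sK n ((l : ℝ) + 1)) (fun l => - (sK n l / sK n ((l : ℝ) + 1)))
    (fun l hl => (hpos l hl).ne') (fun l hl l' hl' h => by
      have h' : sK n l / sK n ((l : ℝ) + 1) = sK n l' / sK n ((l' : ℝ) + 1) := neg_injective h
      exact sK_ratio hn (by omega) (by omega) h') c
  refine ⟨fun l => if l ≤ m then α l else 0, fun v => ?_⟩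
  rw [← hα v.1 v.2]
  have hz : ∀ l ∈ Finset.range n, l ∉ Finset.range (m + 1) →
      (if l ≤ m then α l else 0) * spi n (l + 1) v ^ m = 0 := by
    intro l _ hl
    have hl' : ¬ l ≤ m := by
      intro h
      exact hl (Finset.mem_range.2 (by omega))
    rw [if_neg hl', zero_mul]
  rw [← Finset.sum_subset (Finset.range_subset_range.2 (by omega)) hz]
  · refine Finset.sum_congr rfl fun l hl => ?_
    have hl' : l ≤ m := by
      have := Finset.mem_range.1 hl
      omega
    rw [if_pos hl']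
    congr 2
    have := (hpos l hl').ne'
    simp only [spi, add_sub_cancel_right]
    field_simp
    ring

/-- The linear algebra of AS2: for every degree `i` the pair (degree `i+1` form, degree `i` form) is arbitrary.

PROOF.  `span_spi` with `m = i + 1` and `c` gives `α`, with `m = i` and `c'` gives `β` (both over `l < n`).  For `l < n` let `s = (-1)^i`, `A = a_l + a_(l+n) ≠ 0` (`sa_add`, `sa_sum_pos`),
`q (l+n) = s (β_l - a_l α_l) / A`, `q l = α_l + s q (l+n)`; so `q l - s q (l+n) = α_l`, `a_l q l + s a_(l+n) q (l+n) = β_l` (`s² = 1`).  Split the sums over `range (2n) = range (n+n)` into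
`l` and `l+n` (`Finset.sum_range_add`-type lemma `Finset.sum_range_add`? else `Finset.range_add`, `Finset.sum_Ico_consecutive`), with `spi n (l+n+1) = - spi n (l+1)` (`spi_add_half`), so its
`(i+1)`-st power is `- s` times and its `i`-th power is `s` times the power of `spi n (l+1)`. -/
theorem as2_linear {n i : ℕ} (hn : 2 ≤ n) (hi : i + 2 < n) (c c' : ℕ → ℝ) :
    ∃ q : ℕ → ℝ, (∀ v : ℝ × ℝ, ∑ l ∈ Finset.range (2 * n), q l * spi n (l + 1) v ^ (i + 1) =
        ∑ a ∈ Finset.range (i + 2), c a * (v.1 ^ a * v.2 ^ (i + 1 - a))) ∧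
      ∀ v : ℝ × ℝ, ∑ l ∈ Finset.range (2 * n), sa n l * q l * spi n (l + 1) v ^ i =
        ∑ a ∈ Finset.range (i + 1), c' a * (v.1 ^ a * v.2 ^ (i - a)) := by
  obtain ⟨α, hα⟩ := span_spi (n := n) (m := i + 1) hn (by omega) c
  obtain ⟨β, hβ⟩ := span_spi (n := n) (m := i) hn (by omega) c'
  obtain ⟨A, hA⟩ : ∃ A, A = ∑ j ∈ Finset.range n, sK n j := ⟨_, rfl⟩
  have hA0 : A ≠ 0 := by
    rw [hA]
    exact (sa_sum_pos hn).ne'
  obtain ⟨s, hs⟩ : ∃ s : ℝ, s = (-1) ^ i := ⟨_, rfl⟩
  have hss : s * s = 1 := by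
    rw [hs, ← mul_pow]
    norm_num
  obtain ⟨p, hp⟩ : ∃ p : ℕ → ℝ, p = fun l => s * (β l - sa n l * α l) / A := ⟨_, rfl⟩
  refine ⟨fun l => if l < n then α l + s * p l else p (l - n), ?_, ?_⟩
  · intro v
    rw [← hα v, two_mul, Finset.sum_range_add, ← Finset.sum_add_distrib]
    refine Finset.sum_congr rfl fun l hl => ?_
    have hl' := Finset.mem_range.1 hl
    beta_reduce
    rw [if_pos hl', if_neg (by omega), Nat.add_sub_cancel_left]
    have e : spi n (((n + l : ℕ) : ℝ) + 1) v = - spi n ((l : ℝ) + 1) v := by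
      rw [← spi_add_half hn]
      congr 1
      push_cast
      ring
    rw [e, neg_pow, pow_succ (-1 : ℝ) i, ← hs]
    ring
  · intro v
    rw [← hβ v, two_mul, Finset.sum_range_add, ← Finset.sum_add_distrib]
    refine Finset.sum_congr rfl fun l hl => ?_
    have hl' := Finset.mem_range.1 hl
    beta_reduce
    rw [if_pos hl', if_neg (by omega), Nat.add_sub_cancel_left]
    have e : spi n (((n + l : ℕ) : ℝ) + 1) v = - spi n ((l : ℝ) + 1) v := by
      rw [← spi_add_half hn]
      congr 1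
      push_cast
      ring
    have h1 := sa_add hn hl'
    rw [← hA, add_comm l n] at h1
    have h2 : sa n (n + l) = A - sa n l := by linarith
    have h3 : sa n l * (α l + s * p l) + (A - sa n l) * p l * s = β l := by
      have h4 : A * p l = s * (β l - sa n l * α l) := by
        rw [hp]
        field_simp
      calc sa n l * (α l + s * p l) + (A - sa n l) * p l * s
          = sa n l * α l + s * (A * p l) := by ring
        _ = sa n l * α l + (s * s) * (β l - sa n l * α l) := by rw [h4]; ring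
        _ = β l := by rw [hss]; ring
    rw [e, neg_pow, ← hs, h2, ← h3]
    ring

end Pool.Agent.Lib.H37N
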