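import Pool.Agent.Lib.H37N.SA3

/-! # H37N, chunk SA4 (M): the functions K and Jt of AS2 (S.2) and their first variations -/

open Set Filter Topology Asymptotics
open scoped ContDiff

namespace Pool.Agent.Lib.H37N

/-- `v ∧ R(v)`, `R` the composition of the first `N` blocks -/
def Kf {P : Type} (B : ℕ → P × ℝ × ℝ → ℝ × ℝ) (N : ℕ) (r : P × ℝ × ℝ) : ℝ :=
  r.2.1 * (st B N r).2 - r.2.2 * (st B N r).1

/-- the sum of the functions `J` along the orbit -/
def Jf {P : Type} (B : ℕ → P × ℝ × ℝ → ℝ × ℝ) (J : ℕ → P × ℝ × ℝ → ℝ) (N : ℕ) (r : P × ℝ × ℝ) : ℝ :=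
  ∑ j ∈ Finset.range N, J j (r.1, st B j r)

variable {P : Type} [NormedAddCommGroup P] [NormedSpace ℝ P] {n e : ℕ} {s₀ : ℝ} {d : ℕ → ℝ}
  {B : ℕ → (P × QQ n e) × ℝ × ℝ → ℝ × ℝ} {J : ℕ → (P × QQ n e) × ℝ × ℝ → ℝ}

theorem Kf_contDiff (h : Blocks n e s₀ d B J) : ContDiff ℝ ∞ (Kf B (2 * n)) := by
  have h1 := st_contDiff h.smooth (2 * n) le_rfl
  unfold Kf
  exact ((contDiff_fst.comp contDiff_snd).mul (contDiff_snd.comp h1)).sub
    ((contDiff_snd.comp contDiff_snd).mul (contDiff_fst.comp h1))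

theorem Jf_contDiff (h : Blocks n e s₀ d B J) : ContDiff ℝ ∞ (Jf B J (2 * n)) := by
  unfold Jf
  refine ContDiff.sum fun j hj => ?_
  have hj' := Finset.mem_range.1 hj
  exact (h.smoothJ j hj').comp (contDiff_fst.prodMk (st_contDiff h.smooth j hj'.le))

/-- PROOF.  `st B (2n) ((0,0),v) = (spi n (2n) v, spi n (2n+1) v) = v` (`spi_add_half` twice, `spi_zero`, `spi_one`). -/
theorem st_full (hn : 2 ≤ n) (h : Blocks n e s₀ d B J) (v : ℝ × ℝ) : st B (2 * n) ((0, 0), v) = v := by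
  rw [st_zero hn h v (2 * n) le_rfl]
  have e1 : ((2 * n : ℕ) : ℝ) = (0 + n) + n := by push_cast; ring
  have e2 : (0 + (n : ℝ)) + n + 1 = (1 + n) + n := by ring
  rw [e1, e2, spi_add_half hn, spi_add_half hn, spi_add_half hn, spi_add_half hn, spi_zero hn,
    spi_one hn, neg_neg, neg_neg]

theorem Kf_zero (hn : 2 ≤ n) (h : Blocks n e s₀ d B J) (v : ℝ × ℝ) : Kf B (2 * n) ((0, 0), v) = 0 := by
  unfold Kf
  rw [st_full hn h v]
  ring

/-- PROOF.  `J j (0, (spi n j v, spi n (j+1) v)) = s₀ (spi n (j+1) v + d (j+1))` (`valJ`, `st_zero`); `spi_sum` and `hd`. -/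
theorem Jf_zero (hn : 2 ≤ n) (h : Blocks n e s₀ d B J) (hd : ∑ j ∈ Finset.range (2 * n), d (j + 1) = 0) (v : ℝ × ℝ) :
    Jf B J (2 * n) ((0, 0), v) = 0 := by
  unfold Jf
  have h1 : ∀ j ∈ Finset.range (2 * n), J j ((((0 : P), (0 : QQ n e)), v).1, st B j (((0 : P), (0 : QQ n e)), v)) =
      s₀ * (spi n (j + 1) v + d (j + 1)) := by
    intro j hj
    have hj' := Finset.mem_range.1 hj
    rw [st_zero hn h v j hj'.le]
    exact h.valJ j hj' 0 _ _
  rw [Finset.sum_congr rfl h1, ← Finset.mul_sum, Finset.sum_add_distrib, spi_sum hn v, hd]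
  ring

/-- PROOF.  `st_deriv` with `j = 2n`: the derivative of `v.1 * (st).2 - v.2 * (st).1` is `Σ_l c_l (v.1 K_(2n-l) - v.2 K_(2n-1-l))`, and `K_(2n-l) = - K_l`,
`K_(2n-1-l) = - K_(l+1)` (`sK_sub`): the bracket is `K_(l+1) v.2 - K_l v.1 = spi n (l+1) v`. -/
theorem Kf_deriv (hn : 2 ≤ n) (h : Blocks n e s₀ d B J) (q : QQ n e) (v : ℝ × ℝ) :
    HasDerivAt (fun τ : ℝ => Kf B (2 * n) ((0, τ • q), v))
      (∑ i ∈ Finset.range (e + 1), ∑ l ∈ Finset.range (2 * n), qx q l i * spi n (l + 1) v ^ (i + 1)) 0 := by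
  have h1 := st_deriv hn h q v (2 * n) le_rfl
  have h1s : HasDerivAt (fun τ : ℝ => (st B (2 * n) (((0 : P), τ • q), v)).2)
      (∑ l ∈ Finset.range (2 * n), (∑ i ∈ Finset.range (e + 1), qx q l i * spi n (l + 1) v ^ i) •
        ((sK n (((2 * n : ℕ) : ℝ) - 1 - l), sK n (((2 * n : ℕ) : ℝ) - l)) : ℝ × ℝ)).2 0 := h1.snd
  have h1f : HasDerivAt (fun τ : ℝ => (st B (2 * n) (((0 : P), τ • q), v)).1)
      (∑ l ∈ Finset.range (2 * n), (∑ i ∈ Finset.range (e + 1), qx q l i * spi n (l + 1) v ^ i) •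
        ((sK n (((2 * n : ℕ) : ℝ) - 1 - l), sK n (((2 * n : ℕ) : ℝ) - l)) : ℝ × ℝ)).1 0 := h1.fst
  have h2 := (h1s.const_mul v.1).sub (h1f.const_mul v.2)
  refine h2.congr_deriv ?_
  rw [Prod.snd_sum, Prod.fst_sum, Finset.mul_sum, Finset.mul_sum, ← Finset.sum_sub_distrib,
    Finset.sum_comm]
  refine Finset.sum_congr rfl fun l hl => ?_
  have e1 : sK n (((2 * n : ℕ) : ℝ) - 1 - l) = - sK n (l + 1) := by
    rw [← sK_sub hn]
    congr 1
    push_cast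
    ring
  have e2 : sK n (((2 * n : ℕ) : ℝ) - l) = - sK n l := by
    rw [← sK_sub hn]
    congr 1
    push_cast
    ring
  have e3 : spi n (l + 1) v = sK n (l + 1) * v.2 - sK n l * v.1 := by
    rw [spi, add_sub_cancel_right]
  simp only [Prod.smul_fst, Prod.smul_snd, smul_eq_mul]
  rw [e1, e2]
  have e4 : ∀ S : ℝ, v.1 * (S * -sK n l) - v.2 * (S * -sK n (l + 1)) = S * spi n (l + 1) v := by
    intro S
    rw [e3]
    ring
  rw [e4, Finset.sum_mul]
  refine Finset.sum_congr rfl fun i _ => ?_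
  rw [pow_succ]
  ring

/-- PROOF.  `J j ((0,τ•q), st_j) = s₀ ((st_j).2 + d (j+1))`, derivative `s₀ (D_j).2 = s₀ Σ_{l<j} c_l K_(j-l)` (`st_deriv`).  Sum over `j < 2n` and exchange
(`Finset.sum_sigma'` / `Finset.range_eq_Ico`, `Finset.sum_comm'`): the coefficient of `c_l` is `Σ_{l<j<2n} K_(j-l) = Σ_{i<2n-l} K_i = sa n l` (`K_0 = 0`). -/
theorem Jf_deriv (hn : 2 ≤ n) (h : Blocks n e s₀ d B J) (q : QQ n e) (v : ℝ × ℝ) :
    HasDerivAt (fun τ : ℝ => Jf B J (2 * n) ((0, τ • q), v))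
      (s₀ * ∑ i ∈ Finset.range (e + 1), ∑ l ∈ Finset.range (2 * n), sa n l * qx q l i * spi n (l + 1) v ^ i) 0 := by
  set c : ℕ → ℝ := fun l => ∑ i ∈ Finset.range (e + 1), qx q l i * spi n (l + 1) v ^ i with hc
  have h1 : ∀ j ∈ Finset.range (2 * n), HasDerivAt
      (fun τ : ℝ => J j (((((0 : P), τ • q), v) : (P × QQ n e) × ℝ × ℝ).1, st B j (((0 : P), τ • q), v)))
      (s₀ * ∑ l ∈ Finset.range j, c l * sK n ((j : ℝ) - l)) 0 := by
    intro j hj
    have hj' := Finset.mem_range.1 hj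
    have h2 := st_deriv hn h q v j hj'.le
    have h2s : HasDerivAt (fun τ : ℝ => (st B j (((0 : P), τ • q), v)).2)
      (∑ l ∈ Finset.range j, (∑ i ∈ Finset.range (e + 1), qx q l i * spi n (l + 1) v ^ i) •
        ((sK n ((j : ℝ) - 1 - l), sK n ((j : ℝ) - l)) : ℝ × ℝ)).2 0 := h2.snd
    have h3 := (h2s.add_const (d (j + 1))).const_mul s₀
    have h4 : (fun τ : ℝ => J j (((((0 : P), τ • q), v) : (P × QQ n e) × ℝ × ℝ).1, st B j (((0 : P), τ • q), v))) =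
        fun τ : ℝ => s₀ * ((st B j (((0 : P), τ • q), v)).2 + d (j + 1)) := by
      ext τ
      exact h.valJ j hj' (τ • q) _ _
    rw [h4]
    refine h3.congr_deriv ?_
    rw [Prod.snd_sum]
    rfl
  have h5 : HasDerivAt (fun τ : ℝ => Jf B J (2 * n) ((0, τ • q), v))
      (∑ j ∈ Finset.range (2 * n), (s₀ * ∑ l ∈ Finset.range j, c l * sK n ((j : ℝ) - l))) 0 := by
    unfold Jf
    exact HasDerivAt.fun_sum h1
  refine h5.congr_deriv ?_
  rw [← Finset.mul_sum]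
  congr 1
  have h6 : ∀ j ∈ Finset.range (2 * n), ∑ l ∈ Finset.range j, c l * sK n ((j : ℝ) - l) =
      ∑ l ∈ Finset.range (j + 1), c l * sK n ((j - l : ℕ) : ℝ) := by
    intro j _
    rw [Finset.sum_range_succ, Nat.sub_self, Nat.cast_zero, sK_zero, mul_zero, add_zero]
    refine Finset.sum_congr rfl fun l hl => ?_
    rw [Nat.cast_sub (Finset.mem_range.1 hl).le]
  rw [Finset.sum_congr rfl h6, Finset.sum_range_diag_flip (2 * n) (fun l i => c l * sK n (i : ℝ)),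
    Finset.sum_comm]
  refine Finset.sum_congr rfl fun l _ => ?_
  rw [← Finset.mul_sum, hc]
  simp only
  rw [Finset.sum_mul]
  refine Finset.sum_congr rfl fun i _ => ?_
  rw [sa]
  ring

end Pool.Agent.Lib.H37N
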