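import Pool.Agent.Lib.H37N.T5c
import Pool.Agent.Lib.H37N.T5d

/-! # H37N, chunk SA5 (M): derivatives of Taylor coefficients with respect to the parameters -/

open Set Filter Topology Asymptotics
open scoped ContDiff

namespace Pool.Agent.Lib.H37N

variable {P : Type} [NormedAddCommGroup P] [NormedSpace ℝ P] [FiniteDimensional ℝ P]

/-- PROOF.  Differentiate the Taylor formula along `τ ↦ p₀ + τ • w` at `τ = 0` for fixed `(x,y)`: the left side has the derivative `Σ d a b x^a y^b` by `hd`; the right side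
`Σ (D c_ab(p₀) w) x^a y^b + Σ_{a+b=k+1} x^a y^b g_ab(x,y)`, `g_ab(x,y) = fderiv (G a b) (p₀,x,y) (w,0,0)` continuous in `(x,y)`.  By uniqueness of derivatives the polynomial with the
coefficients `d a b - D c_ab(p₀) w` equals `Σ_{a+b=k+1} x^a y^b g_ab(x,y)`, which is `O(‖(x,y)‖^(k+1))` (`remainder2_isBigO`); `poly2_unique`. -/
theorem taylor_coeff_deriv {F : P × ℝ × ℝ → ℝ} {c : ℕ → ℕ → P → ℝ} (hc : ∀ a b, ContDiff ℝ ∞ (c a b)) (k : ℕ)
    {G : ℕ → ℕ → P × ℝ × ℝ → ℝ} (hG : ∀ a b, ContDiff ℝ ∞ (G a b))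
    (hT : ∀ p x y, F (p, x, y) =
      (∑ n ∈ Finset.range (k + 1), ∑ a ∈ Finset.range (n + 1), (x ^ a * y ^ (n - a)) • c a (n - a) p) +
      ∑ a ∈ Finset.range (k + 2), (x ^ a * y ^ (k + 1 - a)) • G a (k + 1 - a) (p, x, y))
    (p₀ w : P) (d : ℕ → ℕ → ℝ)
    (hd : ∀ x y : ℝ, HasDerivAt (fun τ : ℝ => F (p₀ + τ • w, x, y))
      (∑ n ∈ Finset.range (k + 1), ∑ a ∈ Finset.range (n + 1), (x ^ a * y ^ (n - a)) * d a (n - a)) 0) :
    ∀ a b, a + b ≤ k → fderiv ℝ (c a b) p₀ w = d a b := by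
  have hline : HasDerivAt (fun τ : ℝ => p₀ + τ • w) w 0 := by
    have h := ((hasDerivAt_id (0 : ℝ)).smul_const w).const_add p₀
    simpa using h
  have hcd : ∀ a b, HasDerivAt (fun τ : ℝ => c a b (p₀ + τ • w)) (fderiv ℝ (c a b) p₀ w) 0 := by
    intro a b
    have h1 : HasFDerivAt (c a b) (fderiv ℝ (c a b) p₀) (p₀ + (0 : ℝ) • w) := by
      rw [zero_smul, add_zero]
      exact (((hc a b).differentiable (by simp)) p₀).hasFDerivAt
    exact h1.comp_hasDerivAt 0 hline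
  have hGd : ∀ a b (x y : ℝ), HasDerivAt (fun τ : ℝ => G a b (p₀ + τ • w, x, y))
      (fderiv ℝ (G a b) (p₀, x, y) (w, 0)) 0 := by
    intro a b x y
    have h1 : HasFDerivAt (G a b) (fderiv ℝ (G a b) (p₀, x, y)) (p₀ + (0 : ℝ) • w, x, y) := by
      rw [zero_smul, add_zero]
      exact (((hG a b).differentiable (by simp)) _).hasFDerivAt
    have h2 : HasDerivAt (fun τ : ℝ => (p₀ + τ • w, x, y)) ((w, 0) : P × ℝ × ℝ) 0 :=
      hline.prodMk (hasDerivAt_const (0 : ℝ) ((x, y) : ℝ × ℝ))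
    exact h1.comp_hasDerivAt 0 h2
  have hsum : ∀ x y : ℝ, HasDerivAt (fun τ : ℝ => F (p₀ + τ • w, x, y))
      ((∑ n ∈ Finset.range (k + 1), ∑ a ∈ Finset.range (n + 1),
        (x ^ a * y ^ (n - a)) • fderiv ℝ (c a (n - a)) p₀ w) +
      ∑ a ∈ Finset.range (k + 2), (x ^ a * y ^ (k + 1 - a)) •
        fderiv ℝ (G a (k + 1 - a)) (p₀, x, y) (w, 0)) 0 := by
    intro x y
    simp only [hT]
    refine HasDerivAt.fun_add ?_ ?_
    · refine HasDerivAt.fun_sum fun n _ => ?_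
      refine HasDerivAt.fun_sum fun a _ => ?_
      exact (hcd a (n - a)).const_mul (x ^ a * y ^ (n - a))
    · refine HasDerivAt.fun_sum fun a _ => ?_
      exact (hGd a (k + 1 - a) x y).const_mul (x ^ a * y ^ (k + 1 - a))
  have heq : ∀ x y : ℝ, ∑ n ∈ Finset.range (k + 1), ∑ a ∈ Finset.range (n + 1),
      (x ^ a * y ^ (n - a)) • (d a (n - a) - fderiv ℝ (c a (n - a)) p₀ w) =
      ∑ a ∈ Finset.range (k + 2), (x ^ a * y ^ (k + 1 - a)) •
        fderiv ℝ (G a (k + 1 - a)) (p₀, x, y) (w, 0) := by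
    intro x y
    have h1 := (hd x y).unique (hsum x y)
    simp only [smul_sub, Finset.sum_sub_distrib]
    simp only [smul_eq_mul] at h1 ⊢
    linarith
  have hcont : ∀ a b, ContinuousAt (fun z : ℝ × ℝ => fderiv ℝ (G a b) (p₀, z) (w, 0)) 0 := by
    intro a b
    have h1 : Continuous (fderiv ℝ (G a b)) := (hG a b).continuous_fderiv (by simp)
    have h2 : Continuous (fun z : ℝ × ℝ => ((p₀, z) : P × ℝ × ℝ)) := by fun_prop
    exact ((h1.comp h2).clm_apply continuous_const).continuousAt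
  have hO := remainder2_isBigO k (fun a b (z : ℝ × ℝ) => fderiv ℝ (G a b) (p₀, z) (w, 0)) hcont
  have h2 := poly2_unique k (fun a b => d a b - fderiv ℝ (c a b) p₀ w)
    (hO.congr_left fun z => (heq z.1 z.2).symm)
  intro a b hab
  have := h2 a b hab
  linarith

/-- PROOF.  The Taylor formula at `p`, all coefficients 0: `F (p,x,y) = Σ_{a+b=k+1} x^a y^b G_ab(p,x,y)`; `remainder2_isBigO`. -/
theorem isBigO_of_coeff {F : P × ℝ × ℝ → ℝ} {c : ℕ → ℕ → P → ℝ} (k : ℕ)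
    {G : ℕ → ℕ → P × ℝ × ℝ → ℝ} (hG : ∀ a b, ContDiff ℝ ∞ (G a b)) (p : P)
    (hT : ∀ x y, F (p, x, y) =
      (∑ n ∈ Finset.range (k + 1), ∑ a ∈ Finset.range (n + 1), (x ^ a * y ^ (n - a)) • c a (n - a) p) +
      ∑ a ∈ Finset.range (k + 2), (x ^ a * y ^ (k + 1 - a)) • G a (k + 1 - a) (p, x, y))
    (h0 : ∀ a b, a + b ≤ k → c a b p = 0) :
    (fun v : ℝ × ℝ => F (p, v)) =O[𝓝 0] fun v : ℝ × ℝ => ‖v‖ ^ (k + 1) := by
  have hcont : ∀ a b, ContinuousAt (fun z : ℝ × ℝ => G a b (p, z)) 0 := by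
    intro a b
    have h2 : Continuous (fun z : ℝ × ℝ => ((p, z) : P × ℝ × ℝ)) := by fun_prop
    exact ((hG a b).continuous.comp h2).continuousAt
  have hO := remainder2_isBigO k (fun a b (z : ℝ × ℝ) => G a b (p, z)) hcont
  refine hO.congr_left fun z => ?_
  have h1 := hT z.1 z.2
  rw [Finset.sum_eq_zero, zero_add] at h1
  · exact h1.symm
  · intro n hn
    refine Finset.sum_eq_zero fun a ha => ?_
    have hn' := Finset.mem_range.1 hn
    have ha' := Finset.mem_range.1 ha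
    rw [h0 a (n - a) (by omega), smul_zero]

/-- PROOF.  If `F (p,v) = 0` for all `v` then all coefficients vanish: `poly2_unique` and `remainder2_isBigO`. -/
theorem coeff_eq_zero {F : P × ℝ × ℝ → ℝ} {c : ℕ → ℕ → P → ℝ} (k : ℕ)
    {G : ℕ → ℕ → P × ℝ × ℝ → ℝ} (hG : ∀ a b, ContDiff ℝ ∞ (G a b)) (p : P)
    (hT : ∀ x y, F (p, x, y) =
      (∑ n ∈ Finset.range (k + 1), ∑ a ∈ Finset.range (n + 1), (x ^ a * y ^ (n - a)) • c a (n - a) p) +
      ∑ a ∈ Finset.range (k + 2), (x ^ a * y ^ (k + 1 - a)) • G a (k + 1 - a) (p, x, y))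
    (h0 : ∀ v : ℝ × ℝ, F (p, v) = 0) : ∀ a b, a + b ≤ k → c a b p = 0 := by
  have hcont : ∀ a b, ContinuousAt (fun z : ℝ × ℝ => G a b (p, z)) 0 := by
    intro a b
    have h2 : Continuous (fun z : ℝ × ℝ => ((p, z) : P × ℝ × ℝ)) := by fun_prop
    exact ((hG a b).continuous.comp h2).continuousAt
  have hO := remainder2_isBigO k (fun a b (z : ℝ × ℝ) => G a b (p, z)) hcont
  refine poly2_unique k (fun a b => c a b p) (hO.neg_left.congr_left fun z => ?_)
  have h1 := hT z.1 z.2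
  rw [h0] at h1
  linarith

end Pool.Agent.Lib.H37N
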