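import Pool.Agent.Lib.H37N.SA2
import Pool.Agent.Lib.H37N.SA4
import Pool.Agent.Lib.H37N.SA5
import Pool.Agent.Lib.H37N.T9

/-! # H37N, chunk SA6 (M): solving the equations of AS2 (S.2) -/

open Set Filter Topology Asymptotics
open scoped ContDiff

namespace Pool.Agent.Lib.H37N

variable {P : Type} [NormedAddCommGroup P] [NormedSpace ℝ P] [FiniteDimensional ℝ P] {n e : ℕ} {s₀ : ℝ} {d : ℕ → ℝ}
  {B : ℕ → (P × QQ n e) × ℝ × ℝ → ℝ × ℝ} {J : ℕ → (P × QQ n e) × ℝ × ℝ → ℝ}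

/-- The space of the Taylor coefficients: for `i ≤ e` those of `K` of degree `i+1` and those of `Jt` of degree `i`. -/
abbrev ZZ (e : ℕ) : Type := (i : Fin (e + 1)) → (Fin (i.1 + 2) → ℝ) × (Fin (i.1 + 1) → ℝ)

/-- The coefficient map: `cK`, `cJ` are the coefficient functions of `taylor2` for `Kf`, `Jf`. -/
def PhiZ (n e : ℕ) (cK cJ : ℕ → ℕ → P × QQ n e → ℝ) (z : P × QQ n e) : ZZ e :=
  fun i => (fun a => cK a (i.1 + 1 - a) z, fun a => cJ a (i.1 - a) z)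

theorem PhiZ_contDiff {cK cJ : ℕ → ℕ → P × QQ n e → ℝ} (hK : ∀ a b, ContDiff ℝ ∞ (cK a b)) (hJ : ∀ a b, ContDiff ℝ ∞ (cJ a b)) :
    ContDiff ℝ ∞ (PhiZ n e cK cJ) := by
  refine contDiff_pi.2 fun i => ?_
  refine ContDiff.prodMk ?_ ?_
  · exact contDiff_pi.2 fun a => hK _ _
  · exact contDiff_pi.2 fun a => hJ _ _

omit [FiniteDimensional ℝ P] in
theorem sa6_line (q : QQ n e) (τ : ℝ) :
    ((0, 0) : P × QQ n e) + τ • ((0, q) : P × QQ n e) = (0, τ • q) := by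
  simp

omit [FiniteDimensional ℝ P] in
theorem sa6_comp {c : P × QQ n e → ℝ} (hc : ContDiff ℝ ∞ c) (q : QQ n e) :
    HasDerivAt (fun τ : ℝ => c (0, τ • q)) (fderiv ℝ c (0, 0) (0, q)) 0 := by
  have h1 : HasDerivAt (fun τ : ℝ => ((0, τ • q) : P × QQ n e)) (0, q) 0 := by
    have h2 : HasDerivAt (fun τ : ℝ => τ • q) q 0 := by
      have := (hasDerivAt_id (0 : ℝ)).smul_const q
      simpa using this
    exact (hasDerivAt_const (0 : ℝ) (0 : P)).prodMk h2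
  have h3 : HasFDerivAt c (fderiv ℝ c (0, 0)) ((0, (0 : ℝ) • q) : P × QQ n e) := by
    rw [zero_smul]
    exact (hc.differentiable (by simp) _).hasFDerivAt
  exact h3.comp_hasDerivAt (0 : ℝ) h1

/-- Surjectivity of the partial derivative.  PROOF.  Let a target `ζ` be given.  For `i ≤ e` apply `as2_linear` (`i + 2 < n` since `n = e + 3`) with
`c a = (ζ i).1 a` (0 outside the range) and `c' a = (ζ i).2 a / s₀` to get `q^i : ℕ → ℝ`; by `qx_surj` there is `q` with `qx q l i = q^i l` (`l < 2n`, `i < e+1`).  By `Kf_deriv` the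
derivative of `τ ↦ Kf ((0,τ•q),(x,y))` at 0 is `Σ_{i ≤ e} Σ_{a ≤ i+1} c a x^a y^(i+1-a)`, a polynomial of degree `≤ e+1` without constant term: of the form in `taylor_coeff_deriv` with `k = e+1`,
`d a b = ` (if `a + b = 0` then 0 else `(ζ (a+b-1)).1 a`) (`Finset.sum_range_succ'`), so `fderiv (cK a b) (0,0) (0,q) = (ζ i).1 a` for `a + b = i+1`.  The same for `Jf_deriv`, `k = e`.
The derivative of `q ↦ PhiZ (0,q)` at 0 in direction `q` has the components `fderiv (cK a b) (0,0) (0,q)` and `fderiv (cJ a b) (0,0) (0,q)` (`fderiv_pi`-type lemmas, or `HasFDerivAt`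
with `hasFDerivAt_pi`, and the chain rule with `q ↦ (0,q)`). -/
theorem PhiZ_surj (hn : n = e + 3) (h : Blocks n e s₀ d B J) (hs : s₀ ≠ 0)
    {cK cJ : ℕ → ℕ → P × QQ n e → ℝ} (hK : ∀ a b, ContDiff ℝ ∞ (cK a b)) (hJ : ∀ a b, ContDiff ℝ ∞ (cJ a b))
    {GK GJ : ℕ → ℕ → (P × QQ n e) × ℝ × ℝ → ℝ} (hGK : ∀ a b, ContDiff ℝ ∞ (GK a b)) (hGJ : ∀ a b, ContDiff ℝ ∞ (GJ a b))
    (hTK : ∀ z x y, Kf B (2 * n) (z, x, y) =
      (∑ m ∈ Finset.range (e + 1 + 1), ∑ a ∈ Finset.range (m + 1), (x ^ a * y ^ (m - a)) • cK a (m - a) z) +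
      ∑ a ∈ Finset.range (e + 1 + 2), (x ^ a * y ^ (e + 1 + 1 - a)) • GK a (e + 1 + 1 - a) (z, x, y))
    (hTJ : ∀ z x y, Jf B J (2 * n) (z, x, y) =
      (∑ m ∈ Finset.range (e + 1), ∑ a ∈ Finset.range (m + 1), (x ^ a * y ^ (m - a)) • cJ a (m - a) z) +
      ∑ a ∈ Finset.range (e + 2), (x ^ a * y ^ (e + 1 - a)) • GJ a (e + 1 - a) (z, x, y)) :
    Function.Surjective (fderiv ℝ (fun q : QQ n e => PhiZ n e cK cJ ((0 : P), q)) 0) := by
  intro ζ
  have hn2 : 2 ≤ n := by omega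
  obtain ⟨cc, hcc⟩ : ∃ cc : ℕ → ℕ → ℝ, cc = fun i a => if h : i < e + 1 then
    (if h2 : a < i + 2 then (ζ ⟨i, h⟩).1 ⟨a, h2⟩ else 0) else 0 := ⟨_, rfl⟩
  obtain ⟨cj, hcj⟩ : ∃ cj : ℕ → ℕ → ℝ, cj = fun i a => if h : i < e + 1 then
    (if h2 : a < i + 1 then (ζ ⟨i, h⟩).2 ⟨a, h2⟩ / s₀ else 0) else 0 := ⟨_, rfl⟩
  have hex : ∀ i : ℕ, ∃ q : ℕ → ℝ, i < e + 1 →
      (∀ v : ℝ × ℝ, ∑ l ∈ Finset.range (2 * n), q l * spi n (l + 1) v ^ (i + 1) =
        ∑ a ∈ Finset.range (i + 2), cc i a * (v.1 ^ a * v.2 ^ (i + 1 - a))) ∧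
      ∀ v : ℝ × ℝ, ∑ l ∈ Finset.range (2 * n), sa n l * q l * spi n (l + 1) v ^ i =
        ∑ a ∈ Finset.range (i + 1), cj i a * (v.1 ^ a * v.2 ^ (i - a)) := by
    intro i
    by_cases hi : i < e + 1
    · obtain ⟨q, hq⟩ := as2_linear (n := n) (i := i) hn2 (by omega) (cc i) (cj i)
      exact ⟨q, fun _ => hq⟩
    · exact ⟨0, fun h => absurd h hi⟩
  choose Q hQ using hex
  obtain ⟨q, hq⟩ := qx_surj (n := n) (e := e) (fun j i => Q i j)
  refine ⟨q, ?_⟩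
  obtain ⟨dK, hdK⟩ : ∃ dK : ℕ → ℕ → ℝ, dK = fun a b => if a + b = 0 then 0 else cc (a + b - 1) a :=
    ⟨_, rfl⟩
  obtain ⟨dJ, hdJ⟩ : ∃ dJ : ℕ → ℕ → ℝ, dJ = fun a b => s₀ * cj (a + b) a := ⟨_, rfl⟩
  have kK : ∀ a b, a + b ≤ e + 1 → fderiv ℝ (cK a b) (0, 0) (0, q) = dK a b := by
    refine taylor_coeff_deriv hK (e + 1) hGK hTK (0, 0) (0, q) dK ?_
    intro x y
    have h1 := Kf_deriv hn2 h q (x, y)
    have e1 : (fun τ : ℝ => Kf B (2 * n) (((0, 0) : P × QQ n e) + τ • ((0, q) : P × QQ n e), x, y)) =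
        fun τ : ℝ => Kf B (2 * n) ((0, τ • q), (x, y)) := by
      funext τ
      rw [sa6_line]
    rw [e1]
    convert h1 using 1
    rw [Finset.sum_range_succ']
    have e0 : ∑ a ∈ Finset.range (0 + 1), (x ^ a * y ^ (0 - a)) * dK a (0 - a) = 0 := by
      rw [Finset.sum_range_one, hdK]
      simp
    rw [e0, add_zero]
    refine Finset.sum_congr rfl fun m hm => ?_
    have hm' := Finset.mem_range.1 hm
    have h2 : ∑ l ∈ Finset.range (2 * n), qx q l m * spi n (l + 1) (x, y) ^ (m + 1) =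
        ∑ l ∈ Finset.range (2 * n), Q m l * spi n (l + 1) (x, y) ^ (m + 1) := by
      refine Finset.sum_congr rfl fun l hl => ?_
      rw [hq l (Finset.mem_range.1 hl) m hm']
    rw [h2, (hQ m hm').1 (x, y)]
    refine Finset.sum_congr rfl fun a ha => ?_
    have ha' := Finset.mem_range.1 ha
    rw [hdK]
    beta_reduce
    rw [if_neg (by omega), show a + (m + 1 - a) - 1 = m by omega]
    ring
  have kJ : ∀ a b, a + b ≤ e → fderiv ℝ (cJ a b) (0, 0) (0, q) = dJ a b := by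
    refine taylor_coeff_deriv hJ e hGJ hTJ (0, 0) (0, q) dJ ?_
    intro x y
    have h1 := Jf_deriv hn2 h q (x, y)
    have e1 : (fun τ : ℝ => Jf B J (2 * n) (((0, 0) : P × QQ n e) + τ • ((0, q) : P × QQ n e), x, y)) =
        fun τ : ℝ => Jf B J (2 * n) ((0, τ • q), (x, y)) := by
      funext τ
      rw [sa6_line]
    rw [e1]
    convert h1 using 1
    rw [Finset.mul_sum]
    refine Finset.sum_congr rfl fun m hm => ?_
    have hm' := Finset.mem_range.1 hm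
    have h2 : ∑ l ∈ Finset.range (2 * n), sa n l * qx q l m * spi n (l + 1) (x, y) ^ m =
        ∑ l ∈ Finset.range (2 * n), sa n l * Q m l * spi n (l + 1) (x, y) ^ m := by
      refine Finset.sum_congr rfl fun l hl => ?_
      rw [hq l (Finset.mem_range.1 hl) m hm']
    rw [h2, (hQ m hm').2 (x, y), Finset.mul_sum]
    refine Finset.sum_congr rfl fun a ha => ?_
    have ha' := Finset.mem_range.1 ha
    rw [hdJ]
    beta_reduce
    rw [show a + (m - a) = m by omega]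
    ring
  have hΦ : ContDiff ℝ ∞ (fun q : QQ n e => PhiZ n e cK cJ ((0 : P), q)) :=
    (PhiZ_contDiff hK hJ).comp (contDiff_const.prodMk contDiff_id)
  have hline : HasDerivAt (fun τ : ℝ => PhiZ n e cK cJ ((0 : P), τ • q))
      (fderiv ℝ (fun q : QQ n e => PhiZ n e cK cJ ((0 : P), q)) 0 q) 0 := by
    have h2 : HasDerivAt (fun τ : ℝ => τ • q) q 0 := by
      have := (hasDerivAt_id (0 : ℝ)).smul_const q
      simpa using this
    have h3 : HasFDerivAt (fun q : QQ n e => PhiZ n e cK cJ ((0 : P), q))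
        (fderiv ℝ (fun q : QQ n e => PhiZ n e cK cJ ((0 : P), q)) 0) ((0 : ℝ) • q) := by
      rw [zero_smul]
      exact (hΦ.differentiable (by simp) _).hasFDerivAt
    exact h3.comp_hasDerivAt (0 : ℝ) h2
  refine hline.unique ?_
  refine hasDerivAt_pi.2 fun i => ?_
  have g1 : HasDerivAt (fun τ : ℝ => fun a : Fin (i.1 + 2) => cK a (i.1 + 1 - a) ((0 : P), τ • q))
      (ζ i).1 0 := by
    refine hasDerivAt_pi.2 fun a => ?_
    have h1 := sa6_comp (hK a (i.1 + 1 - a)) q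
    rw [kK a (i.1 + 1 - a) (by omega), hdK] at h1
    beta_reduce at h1
    rw [if_neg (by omega), show (a : ℕ) + (i.1 + 1 - a) - 1 = i.1 by omega, hcc] at h1
    beta_reduce at h1
    rw [dif_pos i.2, dif_pos a.2] at h1
    exact h1
  have g2 : HasDerivAt (fun τ : ℝ => fun a : Fin (i.1 + 1) => cJ a (i.1 - a) ((0 : P), τ • q))
      (ζ i).2 0 := by
    refine hasDerivAt_pi.2 fun a => ?_
    have h1 := sa6_comp (hJ a (i.1 - a)) q
    rw [kJ a (i.1 - a) (by omega), hdJ] at h1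
    beta_reduce at h1
    rw [show (a : ℕ) + (i.1 - a) = i.1 by omega, hcj] at h1
    beta_reduce at h1
    rw [dif_pos i.2, dif_pos a.2, mul_div_cancel₀ _ hs] at h1
    exact h1
  exact g1.prodMk g2

/-- PROOF.  `taylor2` for `Kf B (2n)` (coefficients `cK`, remainder for `k = e+1`) and for `Jf B J (2n)` (`cJ`, `k = e`).  `PhiZ (0,0) = 0`: `coeff_eq_zero` with `Kf_zero`, `Jf_zero`.
`open_param` (T9) with `B = V`: for `r = (p, 0)` near `(0,0)` there is `q ∈ V` with `PhiZ (p,q) = 0`.  So `cK a b (p,q) = 0` for `1 ≤ a+b ≤ e+1`, and `cK 0 0 (p,q) = Kf ((p,q),0,0) = 0`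
(`taylor2`, definition of `Kf`), `cJ a b (p,q) = 0` for `a+b ≤ e`; `isBigO_of_coeff`. -/
theorem as2_solve (hn : n = e + 3) (h : Blocks n e s₀ d B J) (hs : s₀ ≠ 0)
    (hd : ∑ j ∈ Finset.range (2 * n), d (j + 1) = 0) {V : Set (QQ n e)} (hV : V ∈ 𝓝 0) :
    ∀ᶠ p : P in 𝓝 0, ∃ q ∈ V,
      ((fun v : ℝ × ℝ => Kf B (2 * n) ((p, q), v)) =O[𝓝 0] fun v : ℝ × ℝ => ‖v‖ ^ (e + 2)) ∧
      (fun v : ℝ × ℝ => Jf B J (2 * n) ((p, q), v)) =O[𝓝 0] fun v : ℝ × ℝ => ‖v‖ ^ (e + 1) := by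
  have hn2 : 2 ≤ n := by omega
  obtain ⟨cK, hcK, hK0, -, -, hK⟩ := taylor2 (Kf_contDiff h)
  obtain ⟨cJ, hcJ, -, -, -, hJ⟩ := taylor2 (Jf_contDiff h)
  obtain ⟨GK, hGK, hTK⟩ := hK (e + 1)
  obtain ⟨GJ, hGJ, hTJ⟩ := hJ e
  have hsurj := PhiZ_surj hn h hs hcK hcJ hGK hGJ hTK hTJ
  have zK : ∀ a b, a + b ≤ e + 1 → cK a b ((0 : P), (0 : QQ n e)) = 0 :=
    coeff_eq_zero (e + 1) hGK (0, 0) (hTK (0, 0)) (Kf_zero hn2 h)
  have zJ : ∀ a b, a + b ≤ e → cJ a b ((0 : P), (0 : QQ n e)) = 0 :=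
    coeff_eq_zero e hGJ (0, 0) (hTJ (0, 0)) (Jf_zero hn2 h hd)
  have hzero : PhiZ n e cK cJ ((0 : P), (0 : QQ n e)) = 0 := by
    funext i
    refine Prod.ext ?_ ?_
    · funext a
      exact zK a (i.1 + 1 - a) (by omega)
    · funext a
      exact zJ a (i.1 - a) (by omega)
  have hev := open_param (Φ := PhiZ n e cK cJ) (p₀ := (0 : P)) (q₀ := (0 : QQ n e))
    ((PhiZ_contDiff hcK hcJ).of_le (by simp)).contDiffAt hsurj hV
  rw [hzero] at hev
  have ht : Tendsto (fun p : P => (p, (0 : ZZ e))) (𝓝 0) (𝓝 ((0 : P), (0 : ZZ e))) :=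
    (continuous_id.prodMk continuous_const).tendsto 0
  filter_upwards [ht.eventually hev] with p hp
  obtain ⟨q, hq, hqe⟩ := hp
  refine ⟨q, hq, ?_, ?_⟩
  · refine isBigO_of_coeff (e + 1) hGK (p, q) (hTK (p, q)) ?_
    intro a b hab
    by_cases h0 : a + b = 0
    · have ha : a = 0 := by omega
      have hb : b = 0 := by omega
      subst ha hb
      rw [hK0]
      simp [Kf]
    · have h1 := congrArg Prod.fst (congrFun hqe ⟨a + b - 1, by omega⟩)
      have h2 := congrFun h1 ⟨a, by simp only; omega⟩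
      have h3 : cK a (a + b - 1 + 1 - a) (p, q) = 0 := h2
      rwa [show a + b - 1 + 1 - a = b by omega] at h3
  · refine isBigO_of_coeff e hGJ (p, q) (hTJ (p, q)) ?_
    intro a b hab
    have h1 := congrArg Prod.snd (congrFun hqe ⟨a + b, by omega⟩)
    have h2 := congrFun h1 ⟨a, by simp only; omega⟩
    have h3 : cJ a (a + b - a) (p, q) = 0 := h2
    rwa [show a + b - a = b by omega] at h3

end Pool.Agent.Lib.H37N
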