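import Pool.Agent.Lib.H37N.SA7
import Pool.Agent.Lib.H37N.T3

/-! # H37N, chunk SA8: AS2 (S.2) with local hypotheses -/

open Set Filter Topology Asymptotics
open scoped ContDiff

namespace Pool.Agent.Lib.H37N

variable {P : Type} [NormedAddCommGroup P] [NormedSpace ℝ P] [FiniteDimensional ℝ P] {n e : ℕ} {s₀ : ℝ} {d : ℕ → ℝ}
  {B : ℕ → (P × QQ n e) × ℝ × ℝ → ℝ × ℝ} {J : ℕ → (P × QQ n e) × ℝ × ℝ → ℝ}

/-- the model block of AS2 -/
noncomputable def sMo (n e j : ℕ) (r : QQ n e × ℝ × ℝ) : ℝ × ℝ :=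
  (r.2.2, -r.2.1 + 2 * Real.cos (sth n) * r.2.2 + ∑ i ∈ Finset.range (e + 1), qx r.1 j i * r.2.2 ^ i)

theorem contDiff_qx (n e j i : ℕ) : ContDiff ℝ ∞ (fun q : QQ n e => qx q j i) := by
  by_cases h : j < 2 * n ∧ i < e + 1
  · have : (fun q : QQ n e => qx q j i) = fun q => q ⟨j, h.1⟩ ⟨i, h.2⟩ := by
      funext q
      simp [qx, h]
    rw [this]
    exact (contDiff_apply_apply ℝ ℝ (⟨j, h.1⟩ : Fin (2 * n)) (⟨i, h.2⟩ : Fin (e + 1)))
  · have : (fun q : QQ n e => qx q j i) = fun _ => 0 := by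
      funext q
      simp only [qx, dif_neg h]
    rw [this]
    exact contDiff_const

theorem contDiff_sMo (n e j : ℕ) : ContDiff ℝ ∞ (sMo n e j) := by
  unfold sMo
  have h1 : ContDiff ℝ ∞ fun r : QQ n e × ℝ × ℝ => r.2.2 := contDiff_snd.comp contDiff_snd
  have h2 : ContDiff ℝ ∞ fun r : QQ n e × ℝ × ℝ => r.2.1 := contDiff_fst.comp contDiff_snd
  refine h1.prodMk ((h2.neg.add (contDiff_const.mul h1)).add ?_)
  refine ContDiff.sum fun i _ => ?_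
  exact ((contDiff_qx n e j i).comp contDiff_fst).mul (h1.pow i)

/-- S.2, THEOREM AS2 with local hypotheses: the formulas at the parameter `p = 0` are only required near `(q,v) = 0`. -/
theorem as2_local (he : 1 ≤ e) (hn : n = e + 3) (hB : ∀ j < 2 * n, ContDiff ℝ ∞ (B j))
    (hJ : ∀ j < 2 * n, ContDiff ℝ ∞ (J j))
    (hB0 : ∀ j < 2 * n, ∀ᶠ r : QQ n e × ℝ × ℝ in 𝓝 0, B j ((0, r.1), r.2) =
      (r.2.2, -r.2.1 + 2 * Real.cos (sth n) * r.2.2 + ∑ i ∈ Finset.range (e + 1), qx r.1 j i * r.2.2 ^ i))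
    (hJ0 : ∀ j < 2 * n, ∀ᶠ r : QQ n e × ℝ × ℝ in 𝓝 0, J j ((0, r.1), r.2) = s₀ * (r.2.2 + d (j + 1)))
    (hs : s₀ ≠ 0)
    (hd : ∑ j ∈ Finset.range (2 * n), d (j + 1) = 0) {ρ : P → ℝ}
    (hdet : ∀ j < 2 * n, ∀ᶠ r : (P × QQ n e) × ℝ × ℝ in 𝓝 0, ρ r.1.1 ≠ 0 →
      jac (fun v => B j (r.1, v)) r.2 = Real.exp (ρ r.1.1 * J j r))
    {V : Set (QQ n e)} (hV : V ∈ 𝓝 0) :
    ∀ᶠ p : P in 𝓝 0, ρ p ≠ 0 → ∃ q ∈ V, (fun v : ℝ × ℝ => st B (2 * n) ((p, q), v) - v) =O[𝓝 0] fun v : ℝ × ℝ => ‖v‖ ^ (e + 1) := by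
  have hn2 : 2 ≤ n := by omega
  -- the cut-off function
  have hev : ∀ᶠ r : QQ n e × ℝ × ℝ in 𝓝 0, ∀ j ∈ Finset.range (2 * n),
      B j ((0, r.1), r.2) = sMo n e j r ∧ J j ((0, r.1), r.2) = s₀ * (r.2.2 + d (j + 1)) := by
    refine (Filter.eventually_all_finset _).2 fun j hj => ?_
    rw [Finset.mem_range] at hj
    exact (hB0 j hj).and (hJ0 j hj)
  obtain ⟨O, hO, hOo, h0O⟩ := _root_.eventually_nhds_iff.1 hev
  obtain ⟨χ, hχ, -, hts, -, h1⟩ := exists_cutoff (isCompact_singleton (x := (0 : QQ n e × ℝ × ℝ))) hOo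
    (singleton_subset_iff.2 h0O)
  rw [nhdsSet_singleton] at h1
  have hχO : ∀ r, χ r ≠ 0 → r ∈ O := fun r hr => hts (subset_tsupport _ hr)
  -- the modified blocks
  let B' : ℕ → (P × QQ n e) × ℝ × ℝ → ℝ × ℝ := fun j r =>
    sMo n e j (r.1.2, r.2) + χ (r.1.2, r.2) • (B j r - sMo n e j (r.1.2, r.2))
  let J' : ℕ → (P × QQ n e) × ℝ × ℝ → ℝ := fun j r =>
    s₀ * (r.2.2 + d (j + 1)) + χ (r.1.2, r.2) * (J j r - s₀ * (r.2.2 + d (j + 1)))
  have hpr : ContDiff ℝ ∞ fun r : (P × QQ n e) × ℝ × ℝ => (r.1.2, r.2) :=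
    (contDiff_snd.comp contDiff_fst).prodMk contDiff_snd
  have hB' : ∀ j < 2 * n, ContDiff ℝ ∞ (B' j) := fun j hj =>
    ((contDiff_sMo n e j).comp hpr).add ((hχ.comp hpr).smul ((hB j hj).sub ((contDiff_sMo n e j).comp hpr)))
  have hlin : ∀ j, ContDiff ℝ ∞ fun r : (P × QQ n e) × ℝ × ℝ => s₀ * (r.2.2 + d (j + 1)) := fun j =>
    contDiff_const.mul ((contDiff_snd.comp contDiff_snd).add contDiff_const)
  have hJ' : ∀ j < 2 * n, ContDiff ℝ ∞ (J' j) := fun j hj =>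
    (hlin j).add ((hχ.comp hpr).mul ((hJ j hj).sub (hlin j)))
  have hbl : Blocks n e s₀ d B' J' := by
    refine ⟨hB', hJ', fun j hj q x u => ?_, fun j hj q x u => ?_⟩
    · show sMo n e j (q, (x, u)) + χ (q, (x, u)) • (B j ((0, q), (x, u)) - sMo n e j (q, (x, u))) = _
      have : χ (q, (x, u)) • (B j ((0, q), (x, u)) - sMo n e j (q, (x, u))) = 0 := by
        by_cases hc : χ (q, (x, u)) = 0
        · rw [hc, zero_smul]
        · have := (hO (q, (x, u)) (hχO _ hc) j (Finset.mem_range.2 hj)).1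
          rw [this, sub_self, smul_zero]
      rw [this, add_zero]
      rfl
    · show s₀ * (u + d (j + 1)) + χ (q, (x, u)) * (J j ((0, q), (x, u)) - s₀ * (u + d (j + 1))) = _
      have : χ (q, (x, u)) * (J j ((0, q), (x, u)) - s₀ * (u + d (j + 1))) = 0 := by
        by_cases hc : χ (q, (x, u)) = 0
        · rw [hc, zero_mul]
        · have := (hO (q, (x, u)) (hχO _ hc) j (Finset.mem_range.2 hj)).2
          rw [this, sub_self, mul_zero]
      rw [this, add_zero]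
  -- near `0` the blocks are not modified
  have hpr0 : Tendsto (fun r : (P × QQ n e) × ℝ × ℝ => (r.1.2, r.2)) (𝓝 0) (𝓝 0) := by
    exact hpr.continuous.tendsto (0 : (P × QQ n e) × ℝ × ℝ)
  have hχ1 : ∀ᶠ r : (P × QQ n e) × ℝ × ℝ in 𝓝 0, χ (r.1.2, r.2) = 1 := hpr0.eventually h1
  have hχ2 : ∀ᶠ r : (P × QQ n e) × ℝ × ℝ in 𝓝 0, ∀ᶠ s in 𝓝 r, χ (s.1.2, s.2) = 1 := eventually_eventually_nhds.2 hχ1
  have heq : ∀ r : (P × QQ n e) × ℝ × ℝ, χ (r.1.2, r.2) = 1 → ∀ j, B' j r = B j r ∧ J' j r = J j r := by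
    intro r hr j
    constructor
    · show sMo n e j (r.1.2, r.2) + χ (r.1.2, r.2) • (B j r - sMo n e j (r.1.2, r.2)) = _
      rw [hr, one_smul, add_sub_cancel]
    · show s₀ * (r.2.2 + d (j + 1)) + χ (r.1.2, r.2) * (J j r - s₀ * (r.2.2 + d (j + 1))) = _
      rw [hr, one_mul, add_sub_cancel]
  have hdet' : ∀ j < 2 * n, ∀ᶠ r : (P × QQ n e) × ℝ × ℝ in 𝓝 ((0, 0), 0), ρ r.1.1 ≠ 0 →
      jac (fun v => B' j (r.1, v)) r.2 = Real.exp (ρ r.1.1 * J' j r) := by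
    intro j hj
    have h00 : (((0, 0), 0) : (P × QQ n e) × ℝ × ℝ) = 0 := rfl
    rw [h00]
    filter_upwards [hdet j hj, hχ2] with r hr hr2 hρ
    have e1 : (fun v => B' j (r.1, v)) =ᶠ[𝓝 r.2] fun v => B j (r.1, v) := by
      have hc : Tendsto (fun v : ℝ × ℝ => (r.1, v)) (𝓝 r.2) (𝓝 r) :=
        (continuous_const.prodMk continuous_id).tendsto r.2
      filter_upwards [hc.eventually hr2] with v hv
      exact (heq _ hv j).1
    rw [(heq r hr2.self_of_nhds j).2, ← hr hρ]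
    unfold jac
    rw [e1.fderiv_eq]
  -- the states agree near `0`
  have hst0 : ∀ j < 2 * n, st B' j (((0, 0) : P × QQ n e), (0 : ℝ × ℝ)) = 0 := by
    intro j hj
    rw [st_zero hn2 hbl 0 j hj.le]
    simp [spi]
  have hstc : ∀ j ≤ 2 * n, ContDiff ℝ ∞ (st B' j) := st_contDiff (N := 2 * n) hB'
  have hst : ∀ j ≤ 2 * n, ∀ᶠ r : (P × QQ n e) × ℝ × ℝ in 𝓝 0, st B j r = st B' j r := by
    intro j
    induction j with
    | zero => exact fun _ => Eventually.of_forall fun r => rfl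
    | succ j ih =>
      intro hj
      have hc : Tendsto (fun r : (P × QQ n e) × ℝ × ℝ => (r.1, st B' j r)) (𝓝 0) (𝓝 0) := by
        have := (continuous_fst.prodMk (hstc j (by omega)).continuous).tendsto (0 : (P × QQ n e) × ℝ × ℝ)
        have h0 : st B' j (0 : (P × QQ n e) × ℝ × ℝ) = 0 := hst0 j (by omega)
        rw [h0] at this
        exact this
      filter_upwards [ih (by omega), hc.eventually hχ1] with r hr hr1
      show B j (r.1, st B j r) = B' j (r.1, st B' j r)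
      rw [hr, (heq _ hr1 j).1]
  have hev3 := (hst (2 * n) le_rfl)
  have h00 : (0 : (P × QQ n e) × ℝ × ℝ) = (((0, 0) : P × QQ n e), (0 : ℝ × ℝ)) := rfl
  rw [h00] at hev3
  obtain ⟨pa, hpa, pb, hpb, hpp⟩ := Filter.eventually_prod_iff.1
    ((nhds_prod_eq (x := (0 : P)) (y := (0 : QQ n e))) ▸ hev3.curry_nhds)
  filter_upwards [hpa, as2 he hn hbl hs hd hdet' (Filter.inter_mem hV hpb)] with p hp hq hρ
  obtain ⟨q, ⟨hqV, hqb⟩, hO⟩ := hq hρ
  refine ⟨q, hqV, IsBigO.congr' hO ?_ EventuallyEq.rfl⟩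
  filter_upwards [hpp hp hqb] with v hv
  rw [hv]

end Pool.Agent.Lib.H37N
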