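import Pool.Agent.Lib.H37N.T5a
import Pool.Agent.Lib.H37N.BDefs

/-! # H37N, chunk SC1 (M): Lemma C (S.3), the three steps.  Jacobian of plane maps. -/

open Set Filter Topology Asymptotics
open scoped ContDiff

namespace Pool.Agent.Lib.H37N

theorem sc1_vec {W : Type} [NormedAddCommGroup W] [NormedSpace ℝ W] (L : ℝ × ℝ →L[ℝ] W) (w : ℝ × ℝ) :
    L w = w.1 • L (1, 0) + w.2 • L (0, 1) := by
  have h : w = w.1 • ((1 : ℝ), (0 : ℝ)) + w.2 • ((0 : ℝ), (1 : ℝ)) := by ext <;> simp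
  conv_lhs => rw [h]
  rw [map_add, map_smul, map_smul]

/-- (The same statement is `jac_comp` in B16; here to be independent of it.)
PROOF.  Chain rule `fderiv_comp`, `v = v.1 • (1,0) + v.2 • (0,1)` for the vectors `fderiv g v (1,0)`, `fderiv g v (0,1)`; `ring`. -/
theorem sc_jac_comp {f g : ℝ × ℝ → ℝ × ℝ} {v : ℝ × ℝ} (hf : DifferentiableAt ℝ f (g v)) (hg : DifferentiableAt ℝ g v) :
    jac (fun w => f (g w)) v = jac f (g v) * jac g v := by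
  unfold jac
  have h' : fderiv ℝ (fun w => f (g w)) v = (fderiv ℝ f (g v)).comp (fderiv ℝ g v) := fderiv_comp v hf hg
  rw [h']
  simp only [ContinuousLinearMap.comp_apply]
  rw [sc1_vec (fderiv ℝ f (g v)) (fderiv ℝ g v (1, 0)), sc1_vec (fderiv ℝ f (g v)) (fderiv ℝ g v (0, 1))]
  simp only [Prod.fst_add, Prod.snd_add, Prod.smul_fst, Prod.smul_snd, smul_eq_mul]
  ring

/-- PROOF.  Let `|u v + Du(v) v| ≤ C ‖v‖^k` for `‖v‖ < δ`.  For such `v` put `g t = t * u (t • v)` on `[0,1]`: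
`g' t = u (t • v) + (fderiv u (t • v)) (t • v)` (product and chain rule, `t * L v = L (t • v)`), so `|g' t| ≤ C ‖t • v‖^k ≤ C ‖v‖^k`; `g 0 = 0`, `g 1 = u v`;
mean value inequality `norm_image_sub_le_of_norm_deriv_le_segment_01'`. -/
theorem sc_radial {u : ℝ × ℝ → ℝ} (hu : ContDiff ℝ ∞ u) (k : ℕ)
    (h : (fun v => u v + fderiv ℝ u v v) =O[𝓝 0] fun v : ℝ × ℝ => ‖v‖ ^ k) :
    u =O[𝓝 0] fun v : ℝ × ℝ => ‖v‖ ^ k := by
  obtain ⟨C, hC0, hC⟩ := h.exists_pos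
  obtain ⟨δ, hδ, hball⟩ := Metric.eventually_nhds_iff.mp hC.bound
  refine IsBigO.of_bound C (Metric.eventually_nhds_iff.mpr ⟨δ, hδ, fun v hv => ?_⟩)
  have hd : Differentiable ℝ u := hu.differentiable (by simp)
  have hder : ∀ t : ℝ, HasDerivAt (fun t : ℝ => t * u (t • v)) (u (t • v) + fderiv ℝ u (t • v) (t • v)) t := by
    intro t
    have h1 : HasDerivAt (fun t : ℝ => t • v) v t := by
      simpa using (hasDerivAt_id t).smul_const v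
    have h2 : HasDerivAt (fun t : ℝ => u (t • v)) (fderiv ℝ u (t • v) v) t :=
      (hd (t • v)).hasFDerivAt.comp_hasDerivAt t h1
    have h3 := (hasDerivAt_id' t).mul h2
    have e : u (t • v) + fderiv ℝ u (t • v) (t • v) = 1 * u (t • v) + t * fderiv ℝ u (t • v) v := by
      rw [map_smul, smul_eq_mul, one_mul]
    rw [e]
    exact h3
  have hb : ∀ t ∈ Ico (0 : ℝ) 1, ‖u (t • v) + fderiv ℝ u (t • v) (t • v)‖ ≤ C * ‖v‖ ^ k := by
    intro t ht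
    have h1 : ‖t • v‖ ≤ ‖v‖ := by
      rw [norm_smul, Real.norm_of_nonneg ht.1]
      nlinarith [norm_nonneg v, ht.2]
    have h2 : dist (t • v) 0 < δ := by
      rw [dist_zero_right] at *
      linarith
    have h3 := hball h2
    rw [norm_pow, norm_norm] at h3
    exact h3.trans (mul_le_mul_of_nonneg_left (pow_le_pow_left₀ (norm_nonneg _) h1 _) hC0.le)
  have h4 := norm_image_sub_le_of_norm_deriv_le_segment_01' (f := fun t : ℝ => t * u (t • v))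
    (fun t _ => (hder t).hasDerivWithinAt) hb
  simpa using h4

theorem sc1_fst {u : ℝ × ℝ → ℝ × ℝ} {v : ℝ × ℝ} (hu : DifferentiableAt ℝ u v) (w : ℝ × ℝ) :
    fderiv ℝ (fun v => (u v).1) v w = (fderiv ℝ u v w).1 := by
  have h := (hasFDerivAt_fst (𝕜 := ℝ) (p := u v)).comp v hu.hasFDerivAt
  have h2 : HasFDerivAt (fun v => (u v).1) ((ContinuousLinearMap.fst ℝ ℝ ℝ).comp (fderiv ℝ u v)) v := h
  rw [h2.fderiv]
  rfl

theorem sc1_snd {u : ℝ × ℝ → ℝ × ℝ} {v : ℝ × ℝ} (hu : DifferentiableAt ℝ u v) (w : ℝ × ℝ) :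
    fderiv ℝ (fun v => (u v).2) v w = (fderiv ℝ u v w).2 := by
  have h := (hasFDerivAt_snd (𝕜 := ℝ) (p := u v)).comp v hu.hasFDerivAt
  have h2 : HasFDerivAt (fun v => (u v).2) ((ContinuousLinearMap.snd ℝ ℝ ℝ).comp (fderiv ℝ u v)) v := h
  rw [h2.fderiv]
  rfl

theorem sc1_K {u : ℝ × ℝ → ℝ × ℝ} {v : ℝ × ℝ} (hu : DifferentiableAt ℝ u v) (w : ℝ × ℝ) :
    fderiv ℝ (fun v : ℝ × ℝ => v.1 * (u v).2 - v.2 * (u v).1) v w =
      (v.1 * (fderiv ℝ u v w).2 + w.1 * (u v).2) - (v.2 * (fderiv ℝ u v w).1 + w.2 * (u v).1) := by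
  have h1 : HasFDerivAt (fun v => (u v).1) ((ContinuousLinearMap.fst ℝ ℝ ℝ).comp (fderiv ℝ u v)) v :=
    (hasFDerivAt_fst (𝕜 := ℝ) (p := u v)).comp v hu.hasFDerivAt
  have h2 : HasFDerivAt (fun v => (u v).2) ((ContinuousLinearMap.snd ℝ ℝ ℝ).comp (fderiv ℝ u v)) v :=
    (hasFDerivAt_snd (𝕜 := ℝ) (p := u v)).comp v hu.hasFDerivAt
  have h3 := ((hasFDerivAt_fst (𝕜 := ℝ) (p := v)).mul h2).sub ((hasFDerivAt_snd (𝕜 := ℝ) (p := v)).mul h1)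
  have h4 : HasFDerivAt (fun v : ℝ × ℝ => v.1 * (u v).2 - v.2 * (u v).1) _ v := h3
  rw [h4.fderiv]
  simp
  ring

theorem sc1_smooth {u : ℝ × ℝ → ℝ × ℝ} (hu : ContDiff ℝ ∞ u) :
    ContDiff ℝ ∞ (fun v : ℝ × ℝ => v.1 * (u v).2 - v.2 * (u v).1) :=
  (contDiff_fst.mul (contDiff_snd.comp hu)).sub (contDiff_snd.mul (contDiff_fst.comp hu))

theorem sc1_app {W : Type} [NormedAddCommGroup W] [NormedSpace ℝ W] {L : ℝ × ℝ → (ℝ × ℝ →L[ℝ] W)} {k : ℕ}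
    (h : L =O[𝓝 0] fun v : ℝ × ℝ => ‖v‖ ^ k) (w : ℝ × ℝ) :
    (fun v => L v w) =O[𝓝 0] fun v : ℝ × ℝ => ‖v‖ ^ k := by
  refine (IsBigO.of_bound ‖w‖ (Eventually.of_forall fun v => ?_)).trans h
  rw [mul_comm]
  exact (L v).le_opNorm w

theorem sc1_f {L : ℝ × ℝ → ℝ × ℝ} {k : ℕ} (h : L =O[𝓝 0] fun v : ℝ × ℝ => ‖v‖ ^ k) :
    (fun v => (L v).1) =O[𝓝 0] fun v : ℝ × ℝ => ‖v‖ ^ k :=
  (IsBigO.of_bound 1 (Eventually.of_forall fun v => by rw [one_mul]; exact norm_fst_le _)).trans h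

theorem sc1_s {L : ℝ × ℝ → ℝ × ℝ} {k : ℕ} (h : L =O[𝓝 0] fun v : ℝ × ℝ => ‖v‖ ^ k) :
    (fun v => (L v).2) =O[𝓝 0] fun v : ℝ × ℝ => ‖v‖ ^ k :=
  (IsBigO.of_bound 1 (Eventually.of_forall fun v => by rw [one_mul]; exact norm_snd_le _)).trans h

theorem sc1_mul {f g : ℝ × ℝ → ℝ} {j k l : ℕ} (h : l ≤ j + k) (hf : f =O[𝓝 0] fun v : ℝ × ℝ => ‖v‖ ^ j)
    (hg : g =O[𝓝 0] fun v : ℝ × ℝ => ‖v‖ ^ k) : (fun v => f v * g v) =O[𝓝 0] fun v : ℝ × ℝ => ‖v‖ ^ l := by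
  have h1 := hf.mul hg
  refine h1.trans ?_
  refine IsBigO.of_bound 1 ?_
  filter_upwards [Metric.ball_mem_nhds (0 : ℝ × ℝ) one_pos] with v hv
  rw [← pow_add, one_mul, norm_pow, norm_pow, norm_norm]
  rw [Metric.mem_ball, dist_zero_right] at hv
  exact pow_le_pow_of_le_one (norm_nonneg _) hv.le h

theorem sc1_x : (fun v : ℝ × ℝ => v.1) =O[𝓝 0] fun v : ℝ × ℝ => ‖v‖ ^ 1 :=
  IsBigO.of_bound 1 (Eventually.of_forall fun v => by
    rw [one_mul, norm_pow, norm_norm, pow_one]; exact norm_fst_le _)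

theorem sc1_y : (fun v : ℝ × ℝ => v.2) =O[𝓝 0] fun v : ℝ × ℝ => ‖v‖ ^ 1 :=
  IsBigO.of_bound 1 (Eventually.of_forall fun v => by
    rw [one_mul, norm_pow, norm_norm, pow_one]; exact norm_snd_le _)

/-- One step.  PROOF.  Write `u = (u₁, u₂)` (smooth), `a = ∂ₓu₁`, `b = ∂_y u₁`, `c = ∂ₓu₂`, `d' = ∂_y u₂` (values of `fderiv u v` at `(1,0)`, `(0,1)`); all are `O(‖v‖^(d-1))` by
`isBigO_fderiv` (with `k = d - 1`).  `jac (v + u) - 1 = (a + d') + (a d' - b c)`, the second bracket is `O(‖v‖^(2d-2))`, so `O(‖v‖^d)` (`2 ≤ d`); so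
`a + d' = O(‖v‖^d)` (*).  Let `K v = v.1 u₂ - v.2 u₁ = O(‖v‖^(d+2))`; by `isBigO_fderiv` `DK = O(‖v‖^(d+1))`, and
`DK(v)(1,0) = u₂ + v.1 c - v.2 a`, `DK(v)(0,1) = - u₁ + v.1 d' - v.2 b`.  With (*) multiplied by `v.2` and by `v.1` (each `O(‖v‖)`):
`u₂ + v.1 c + v.2 d' = O(‖v‖^(d+1))`, `u₁ + v.1 a + v.2 b = O(‖v‖^(d+1))`, that is `u_i + fderiv u_i v v = O(‖v‖^(d+1))` (`v = v.1 • (1,0) + v.2 • (0,1)`).
`sc_radial`; `IsBigO.prod_left`. -/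
theorem sc_step {u : ℝ × ℝ → ℝ × ℝ} (hu : ContDiff ℝ ∞ u) (d : ℕ) (hd : 2 ≤ d)
    (h : u =O[𝓝 0] fun v : ℝ × ℝ => ‖v‖ ^ d)
    (hK : (fun v : ℝ × ℝ => v.1 * (u v).2 - v.2 * (u v).1) =O[𝓝 0] fun v : ℝ × ℝ => ‖v‖ ^ (d + 2))
    (hJ : (fun v => jac (fun w => w + u w) v - 1) =O[𝓝 0] fun v : ℝ × ℝ => ‖v‖ ^ d) :
    u =O[𝓝 0] fun v : ℝ × ℝ => ‖v‖ ^ (d + 1) := by
  have hud : Differentiable ℝ u := hu.differentiable (by simp)
  obtain ⟨k, rfl⟩ : ∃ k, d = k + 1 := ⟨d - 1, by omega⟩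
  have hD : fderiv ℝ u =O[𝓝 0] fun v : ℝ × ℝ => ‖v‖ ^ k := by
    have := isBigO_fderiv hu 0 k (by simpa using h)
    simpa using this
  have ha := sc1_f (sc1_app hD (1, 0))
  have hc := sc1_s (sc1_app hD (1, 0))
  have hb := sc1_f (sc1_app hD (0, 1))
  have hd' := sc1_s (sc1_app hD (0, 1))
  have hjac : ∀ v, jac (fun w => w + u w) v - 1 =
      ((fderiv ℝ u v (1, 0)).1 + (fderiv ℝ u v (0, 1)).2) +
      ((fderiv ℝ u v (1, 0)).1 * (fderiv ℝ u v (0, 1)).2 - (fderiv ℝ u v (1, 0)).2 * (fderiv ℝ u v (0, 1)).1) := by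
    intro v
    have h1 : HasFDerivAt (fun w => w + u w) (ContinuousLinearMap.id ℝ (ℝ × ℝ) + fderiv ℝ u v) v :=
      (hasFDerivAt_id v).add (hud v).hasFDerivAt
    unfold jac
    rw [h1.fderiv]
    simp
    ring
  have htr : (fun v => (fderiv ℝ u v (1, 0)).1 + (fderiv ℝ u v (0, 1)).2) =O[𝓝 0]
      fun v : ℝ × ℝ => ‖v‖ ^ (k + 1) := by
    have h1 := hJ.sub ((sc1_mul (l := k + 1) (by omega) ha hd').sub (sc1_mul (l := k + 1) (by omega) hc hb))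
    refine h1.congr_left fun v => ?_
    rw [hjac v]
    ring
  have hDK : fderiv ℝ (fun v : ℝ × ℝ => v.1 * (u v).2 - v.2 * (u v).1) =O[𝓝 0]
      fun v : ℝ × ℝ => ‖v‖ ^ (k + 1 + 1) := by
    have := isBigO_fderiv (sc1_smooth hu) 0 (k + 1 + 1) (by simpa using hK)
    simpa using this
  have hu1 : ContDiff ℝ ∞ (fun v => (u v).1) := contDiff_fst.comp hu
  have hu2 : ContDiff ℝ ∞ (fun v => (u v).2) := contDiff_snd.comp hu
  have e2 : (fun v => (u v).2) =O[𝓝 0] fun v : ℝ × ℝ => ‖v‖ ^ (k + 1 + 1) := by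
    apply sc_radial hu2
    have h1 := (sc1_app hDK (1, 0)).add (sc1_mul (l := k + 1 + 1) (by omega) sc1_y htr)
    refine h1.congr_left fun v => ?_
    rw [sc1_K (hud v), sc1_snd (hud v) v, sc1_vec (fderiv ℝ u v) v]
    simp only [Prod.snd_add, Prod.smul_snd, smul_eq_mul]
    ring
  have e1 : (fun v => (u v).1) =O[𝓝 0] fun v : ℝ × ℝ => ‖v‖ ^ (k + 1 + 1) := by
    apply sc_radial hu1
    have h1 := (sc1_mul (l := k + 1 + 1) (by omega) sc1_x htr).sub (sc1_app hDK (0, 1))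
    refine h1.congr_left fun v => ?_
    rw [sc1_K (hud v), sc1_fst (hud v) v, sc1_vec (fderiv ℝ u v) v]
    simp only [Prod.fst_add, Prod.smul_fst, smul_eq_mul]
    ring
  exact (e1.prod_left e2)

/-- The linear part.  PROOF.  `K v = v.1 R₂ - v.2 R₁ = O(‖v‖^3)`.  Along `(x,0)`: `x R₂(x,0) = O(|x|^3)`, so `R₂(0) = 0` (continuity); along `(0,y)`: `R₁(0) = 0`.
`DK = O(‖v‖^2)` by `isBigO_fderiv`; `DK(v)(1,0) = R₂ + v.1 ∂ₓR₂ - v.2 ∂ₓR₁`, `DK(v)(0,1) = - R₁ + v.1 ∂_yR₂ - v.2 ∂_yR₁`.  Put `v = (t,0)`, divide by `t`, `t → 0`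
(`(R (t,0)).2 / t → ∂ₓR₂(0)`): `2 ∂ₓR₂(0) = 0` and `- ∂ₓR₁(0) + ∂_yR₂(0) = 0`; `v = (0,t)`: `- 2 ∂_yR₁(0) = 0`.  So `DR(0) = a • id`, `jac R 0 = a² = 1`,
`|a - 1| ≤ ‖DR(0) - id‖ < 1/2` (apply to `(1,0)`), so `a = 1`.  So `u = R - id` has `u 0 = 0`, `Du(0) = 0`, hence `Du = O(‖v‖)` (`Du` is `C^1`), and `u = O(‖v‖^2)` by
`isBigO_of_fderiv` (k = 1). -/
theorem sc_base {R : ℝ × ℝ → ℝ × ℝ} (hR : ContDiff ℝ ∞ R)
    (hK : (fun v : ℝ × ℝ => v.1 * (R v).2 - v.2 * (R v).1) =O[𝓝 0] fun v : ℝ × ℝ => ‖v‖ ^ 3)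
    (hJ : jac R 0 = 1) (hD : ‖fderiv ℝ R 0 - ContinuousLinearMap.id ℝ (ℝ × ℝ)‖ < 1 / 2) :
    (fun v => R v - v) =O[𝓝 0] fun v : ℝ × ℝ => ‖v‖ ^ 2 := by
  have hRd : Differentiable ℝ R := hR.differentiable (by simp)
  have hDK : fderiv ℝ (fun v : ℝ × ℝ => v.1 * (R v).2 - v.2 * (R v).1) =O[𝓝 0]
      fun v : ℝ × ℝ => ‖v‖ ^ 2 := by
    have := isBigO_fderiv (sc1_smooth hR) 0 2 (by simpa using hK)
    simpa using this
  have hDR : ∀ w, DifferentiableAt ℝ (fun v => fderiv ℝ R v w) 0 := by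
    intro w
    have h1 : ContDiff ℝ 1 (fderiv ℝ R) := hR.fderiv_right (by norm_cast)
    exact ((h1.differentiable (by simp)).clm_apply (differentiable_const w)) 0
  have key : ∀ w w' : ℝ × ℝ, w'.1 * (fderiv ℝ R 0 w).2 + w.1 * (fderiv ℝ R 0 w').2 -
      (w'.2 * (fderiv ℝ R 0 w).1 + w.2 * (fderiv ℝ R 0 w').1) = 0 := by
    intro w w'
    have h1 : HasFDerivAt (fun v => fderiv ℝ (fun v : ℝ × ℝ => v.1 * (R v).2 - v.2 * (R v).1) v w)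
        (0 : ℝ × ℝ →L[ℝ] ℝ) 0 := by
      have h2 := sc1_app hDK w
      have h2' : (fun v => fderiv ℝ (fun v : ℝ × ℝ => v.1 * (R v).2 - v.2 * (R v).1) v w) =O[𝓝 (0 : ℝ × ℝ)]
          fun v => ‖v - 0‖ ^ 2 := by simpa using h2
      exact h2'.hasFDerivAt (by norm_num)
    have h3 : HasFDerivAt (fun v => (R v).1) ((ContinuousLinearMap.fst ℝ ℝ ℝ).comp (fderiv ℝ R 0)) 0 :=
      (hasFDerivAt_fst (𝕜 := ℝ) (p := R 0)).comp 0 (hRd 0).hasFDerivAt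
    have h4 : HasFDerivAt (fun v => (R v).2) ((ContinuousLinearMap.snd ℝ ℝ ℝ).comp (fderiv ℝ R 0)) 0 :=
      (hasFDerivAt_snd (𝕜 := ℝ) (p := R 0)).comp 0 (hRd 0).hasFDerivAt
    have h5 : HasFDerivAt (fun v => (fderiv ℝ R v w).1)
        ((ContinuousLinearMap.fst ℝ ℝ ℝ).comp (fderiv ℝ (fun v => fderiv ℝ R v w) 0)) 0 :=
      (hasFDerivAt_fst (𝕜 := ℝ) (p := fderiv ℝ R 0 w)).comp 0 (hDR w).hasFDerivAt
    have h6 : HasFDerivAt (fun v => (fderiv ℝ R v w).2)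
        ((ContinuousLinearMap.snd ℝ ℝ ℝ).comp (fderiv ℝ (fun v => fderiv ℝ R v w) 0)) 0 :=
      (hasFDerivAt_snd (𝕜 := ℝ) (p := fderiv ℝ R 0 w)).comp 0 (hDR w).hasFDerivAt
    have h7 := (((hasFDerivAt_fst (𝕜 := ℝ) (p := (0 : ℝ × ℝ))).mul h6).add (h4.const_mul w.1)).sub
      (((hasFDerivAt_snd (𝕜 := ℝ) (p := (0 : ℝ × ℝ))).mul h5).add (h3.const_mul w.2))
    have h8 := h7.congr_of_eventuallyEq
      (f₁ := fun v => fderiv ℝ (fun v : ℝ × ℝ => v.1 * (R v).2 - v.2 * (R v).1) v w)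
      (Eventually.of_forall fun v => sc1_K (hRd v) w)
    have h9 := congrArg (fun L : ℝ × ℝ →L[ℝ] ℝ => L w') (h8.unique h1)
    simp at h9
    linarith
  have k1 := key (1, 0) (1, 0)
  have k2 := key (0, 1) (0, 1)
  have k3 := key (1, 0) (0, 1)
  simp only [one_mul, zero_mul, zero_add, add_zero] at k1 k2 k3
  have z1 : (fderiv ℝ R 0 (1, 0)).2 = 0 := by linarith
  have z2 : (fderiv ℝ R 0 (0, 1)).1 = 0 := by linarith
  have z3 : (fderiv ℝ R 0 (0, 1)).2 = (fderiv ℝ R 0 (1, 0)).1 := by linarith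
  have z4 : |(fderiv ℝ R 0 (1, 0)).1 - 1| < 1 / 2 := by
    have h1 := (fderiv ℝ R 0 - ContinuousLinearMap.id ℝ (ℝ × ℝ)).le_opNorm (1, 0)
    have h2 : ‖((1 : ℝ), (0 : ℝ))‖ = 1 := by simp [Prod.norm_def]
    rw [h2, mul_one] at h1
    have h3 := norm_fst_le ((fderiv ℝ R 0 - ContinuousLinearMap.id ℝ (ℝ × ℝ)) (1, 0))
    simp only [sub_apply, ContinuousLinearMap.id_apply, Prod.fst_sub,
      Real.norm_eq_abs] at h1 h3
    linarith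
  have z5 : (fderiv ℝ R 0 (1, 0)).1 = 1 := by
    unfold jac at hJ
    rw [z1, z3] at hJ
    have h1 := abs_lt.1 z4
    nlinarith [h1.1, h1.2]
  have hid : fderiv ℝ R 0 = ContinuousLinearMap.id ℝ (ℝ × ℝ) := by
    refine ContinuousLinearMap.ext fun w => ?_
    rw [sc1_vec (fderiv ℝ R 0) w]
    ext
    · simp [z5, z2]
    · simp [z1, z3, z5]
  have hR0 : R 0 = 0 := by
    have h1 : ∀ w : ℝ × ℝ, w.1 * (R 0).2 - w.2 * (R 0).1 = 0 := by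
      intro w
      have h2 := sc1_app hDK w
      have h3 : fderiv ℝ (fun v : ℝ × ℝ => v.1 * (R v).2 - v.2 * (R v).1) 0 w = 0 :=
        IsBigO.eq_zero_of_norm_pow (n := 2) (x₀ := (0 : ℝ × ℝ))
          (f := fun v => fderiv ℝ (fun v : ℝ × ℝ => v.1 * (R v).2 - v.2 * (R v).1) v w)
          (by simpa using h2) (by norm_num)
      rw [sc1_K (hRd 0)] at h3
      simpa using h3
    have h2 := h1 (1, 0)
    have h3 := h1 (0, 1)
    simp only [one_mul, zero_mul, sub_zero, zero_sub, neg_eq_zero] at h2 h3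
    exact Prod.ext h3 h2
  have hu : ContDiff ℝ ∞ (fun v => R v - v) := hR.sub contDiff_id
  have hDu : fderiv ℝ (fun v => R v - v) 0 = 0 := by
    have h1 : HasFDerivAt (fun v => R v - v) (fderiv ℝ R 0 - ContinuousLinearMap.id ℝ (ℝ × ℝ)) 0 :=
      (hRd 0).hasFDerivAt.sub (hasFDerivAt_id 0)
    rw [h1.fderiv, hid, sub_self]
  have h1 : fderiv ℝ (fun v => R v - v) =O[𝓝 0] fun v => ‖v - 0‖ ^ 1 := by
    have h2 : ContDiff ℝ 1 (fderiv ℝ (fun v => R v - v)) := hu.fderiv_right (by norm_cast)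
    have h3 := ((h2.differentiable (by simp)) 0).isBigO_sub
    rw [hDu] at h3
    simp only [sub_zero] at h3 ⊢
    simpa using h3.norm_right
  have h2 := isBigO_of_fderiv hu 0 1 (by simp [hR0]) h1
  simpa using h2

end Pool.Agent.Lib.H37N
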