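import Pool.Agent.Lib.H37N.BDefs

/-!
# H37N, section S: definitions for theorem AS2
-/

open Set Filter Topology
open scoped ContDiff

namespace Pool.Agent.Lib.H37N

noncomputable section

/-- the angle `θ = 2π/N`, `N = 2(e+3)` -/
def s2th (e : ℕ) : ℝ := Real.pi / (e + 3)

/-- the trace `t = 2 cos θ` -/
def s2t (e : ℕ) : ℝ := 2 * Real.cos (s2th e)

/-- `K_x = sin (x θ) / sin θ` -/
def s2K (e : ℕ) (x : ℝ) : ℝ := Real.sin (x * s2th e) / Real.sin (s2th e)

/-- the linear form `ϖ_l`, the second component of `M^l v`, `M = [[0,1],[-1,t]]` -/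
def s2w (e l : ℕ) (v : Pt) : ℝ := s2K e (l + 1) * v.2 - s2K e l * v.1

/-- the constants `A_l` -/
def s2A (e l : ℕ) : ℝ := ∑ k ∈ Finset.range (2 * (e + 3) - l), s2K e k

/-- coefficients of the polynomials `q_j` -/
abbrev QQ (e : ℕ) := Fin (2 * (e + 3)) → Fin (e + 1) → ℝ

/-- the polynomial `q_j` -/
def qpol {e : ℕ} (q : QQ e) (j : ℕ) (w : ℝ) : ℝ :=
  if h : j < 2 * (e + 3) then ∑ i : Fin (e + 1), q ⟨j, h⟩ i * w ^ (i : ℕ) else 0

/-- the map `(x,u) ↦ (u, -x + t u + w)` -/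
def mstep (e : ℕ) (w : ℝ) (v : Pt) : Pt := (v.2, -v.1 + s2t e * v.2 + w)

/-- successive points -/
def orb {X : Type} (B : ℕ → X × Pt → Pt) (p : X) : ℕ → Pt → Pt
  | 0, v => v
  | j + 1, v => B j (p, orb B p j v)

/-- successive points of the model -/
def morb (e : ℕ) (q : QQ e) : ℕ → Pt → Pt
  | 0, v => v
  | j + 1, v => mstep e (qpol q j (morb e q j v).2) (morb e q j v)

end

end Pool.Agent.Lib.H37N
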