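import Mathlib

/-! # H37N, chunk T1 (done): smoothness of integrals with parameters -/

open Set Filter Topology Asymptotics
open scoped ContDiff

namespace Pool.Agent.Lib.H37N

theorem t1_hasFDerivAt {P W : Type} [NormedAddCommGroup P] [NormedSpace ℝ P] [FiniteDimensional ℝ P]
    [NormedAddCommGroup W] [NormedSpace ℝ W] [CompleteSpace W] (f : ℝ × P → W) (hf : ContDiff ℝ 1 f) (a b : ℝ) (z₀ : P) :
    HasFDerivAt (fun z : P => ∫ t in a..b, f (t, z))
      (∫ t in a..b, (fderiv ℝ f (t, z₀)).comp (ContinuousLinearMap.inr ℝ ℝ P)) z₀ := by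
  have hprop : ProperSpace P := FiniteDimensional.proper ℝ P
  have hdf : Continuous (fun p : ℝ × P =>
      (fderiv ℝ f p).comp (ContinuousLinearMap.inr ℝ ℝ P)) := by
    have h1 : Continuous (fderiv ℝ f) := hf.continuous_fderiv (by simp)
    exact h1.clm_comp continuous_const
  have hc : IsCompact (uIcc a b ×ˢ Metric.closedBall z₀ 1) :=
    isCompact_uIcc.prod (isCompact_closedBall z₀ 1)
  obtain ⟨C, hC⟩ := hc.exists_bound_of_continuousOn hdf.continuousOn
  refine intervalIntegral.hasFDerivAt_integral_of_dominated_of_fderiv_le (𝕜 := ℝ)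
    (s := Metric.closedBall z₀ 1) (bound := fun _ => C)
    (F := fun z t => f (t, z)) (F' := fun z t => (fderiv ℝ f (t, z)).comp
      (ContinuousLinearMap.inr ℝ ℝ P)) ?_ ?_ ?_ ?_ ?_ ?_ ?_
  · exact Metric.closedBall_mem_nhds z₀ one_pos
  · refine Eventually.of_forall fun z => ?_
    have : Continuous (fun t : ℝ => f (t, z)) := hf.continuous.comp (by fun_prop)
    exact this.aestronglyMeasurable
  · have : Continuous (fun t : ℝ => f (t, z₀)) := hf.continuous.comp (by fun_prop)
    exact this.intervalIntegrable _ _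
  · have : Continuous (fun t : ℝ => (fderiv ℝ f (t, z₀)).comp
      (ContinuousLinearMap.inr ℝ ℝ P)) := hdf.comp (by fun_prop)
    exact this.aestronglyMeasurable
  · refine Eventually.of_forall fun t ht z hz => ?_
    apply hC
    exact ⟨uIoc_subset_uIcc ht, hz⟩
  · exact continuous_const.intervalIntegrable _ _
  · refine Eventually.of_forall fun t ht z hz => ?_
    have h1 : HasFDerivAt f (fderiv ℝ f (t, z)) (t, z) :=
      (hf.differentiable (by simp) _).hasFDerivAt
    have h2 : HasFDerivAt (fun z : P => (t, z)) (ContinuousLinearMap.inr ℝ ℝ P) z :=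
      hasFDerivAt_prodMk_right t z
    exact h1.comp z h2

theorem t1_nat {P W : Type} [NormedAddCommGroup P] [NormedSpace ℝ P] [FiniteDimensional ℝ P]
    [NormedAddCommGroup W] [NormedSpace ℝ W] [CompleteSpace W] (a b : ℝ) (n : ℕ) (f : ℝ × P → W) (hf : ContDiff ℝ n f) :
    ContDiff ℝ n (fun z : P => ∫ t in a..b, f (t, z)) := by
  induction n generalizing f with
  | zero =>
    have : Continuous (fun z : P => ∫ t in a..b, f (t, z)) := by
      apply intervalIntegral.continuous_parametric_intervalIntegral_of_continuous'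
      have := hf.continuous
      simp only [Function.uncurry_def]
      fun_prop
    exact_mod_cast contDiff_zero.2 this
  | succ n ih =>
    push_cast at hf ⊢
    have hf1 : ContDiff ℝ 1 f := hf.of_le (by simp)
    rw [contDiff_succ_iff_fderiv_apply]
    refine ⟨fun z => (t1_hasFDerivAt f hf1 a b z).differentiableAt, by simp, ?_⟩
    intro v
    have hcong : (fun z : P => fderiv ℝ (fun z : P => ∫ t in a..b, f (t, z)) z v)
        = fun z : P => ∫ t in a..b, (fderiv ℝ f (t, z)) (0, v) := by
      funext z
      rw [(t1_hasFDerivAt f hf1 a b z).fderiv]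
      rw [ContinuousLinearMap.intervalIntegral_apply]
      · simp
      · have hdf : Continuous (fun p : ℝ × P =>
            (fderiv ℝ f p).comp (ContinuousLinearMap.inr ℝ ℝ P)) := by
          have h1 : Continuous (fderiv ℝ f) := hf1.continuous_fderiv (by simp)
          exact h1.clm_comp continuous_const
        have : Continuous (fun t : ℝ => (fderiv ℝ f (t, z)).comp
          (ContinuousLinearMap.inr ℝ ℝ P)) := hdf.comp (by fun_prop)
        exact this.intervalIntegrable _ _
    rw [hcong]
    exact ih (fun p => fderiv ℝ f p (0, v))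
      ((hf.fderiv_right (m := n) le_rfl).clm_apply contDiff_const)

/-- T1: integrals of smooth functions are smooth functions of the parameters -/
theorem par_int {P W : Type} [NormedAddCommGroup P] [NormedSpace ℝ P] [FiniteDimensional ℝ P]
    [NormedAddCommGroup W] [NormedSpace ℝ W] [CompleteSpace W] {F : P × ℝ → W} (hF : ContDiff ℝ ∞ F) (a b : ℝ) :
    ContDiff ℝ ∞ (fun p : P => ∫ u in a..b, F (p, u)) := by
  rw [contDiff_infty]
  intro n
  refine t1_nat a b n (fun q : ℝ × P => F (q.2, q.1)) ?_
  exact (contDiff_infty.1 hF n).comp (contDiff_snd.prodMk contDiff_fst)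

/-- T1, scaled form -/
theorem par_scale {P E W : Type} [NormedAddCommGroup P] [NormedSpace ℝ P] [FiniteDimensional ℝ P]
    [NormedAddCommGroup E] [NormedSpace ℝ E] [FiniteDimensional ℝ E]
    [NormedAddCommGroup W] [NormedSpace ℝ W] [CompleteSpace W] {F : P × E → W} (hF : ContDiff ℝ ∞ F) :
    ContDiff ℝ ∞ (fun q : P × E => ∫ u in (0 : ℝ)..1, F (q.1, u • q.2)) := by
  refine par_int (P := P × E) (F := fun r : (P × E) × ℝ => F (r.1.1, r.2 • r.1.2)) ?_ 0 1
  exact hF.comp ((contDiff_fst.comp contDiff_fst).prodMk (contDiff_snd.smul (contDiff_snd.comp contDiff_fst)))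

end Pool.Agent.Lib.H37N
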