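import Pool.Agent.Lib.H37N.T2b

/-! # H37N, chunk T5a (M): O-calculus: f = O(|v|^(k+1)) and the derivatives -/

open Set Filter Topology Asymptotics
open scoped ContDiff

namespace Pool.Agent.Lib.H37N

variable {P E W : Type} [NormedAddCommGroup P] [NormedSpace ℝ P] [FiniteDimensional ℝ P]
  [NormedAddCommGroup E] [NormedSpace ℝ E] [FiniteDimensional ℝ E]
  [NormedAddCommGroup W] [NormedSpace ℝ W] [CompleteSpace W]

/-- T5. The derivative of a smooth function which is O(|v|^(k+1)) is O(|v|^k).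

PROOF. k = 0: the derivative is continuous, so bounded near x₀.  General k: the function (v,t) ↦ f(x₀ + t • v) on E × ℝ is smooth and for fixed v it is O(t^(k+1)) at
t = 0 (composition of the hypothesis with t ↦ x₀ + t • v), so by `hadamard_pow` f(x₀ + t•v) = t^(k+1) • g(v,t), g smooth.  Differentiate in v, in the direction
w: t • fderiv f (x₀ + t•v) w = t^(k+1) • D_v g(v,t) w, so for t ≠ 0: fderiv f (x₀+t•v) = t^k • D_v g(v,t) (D_v g = (fderiv g).comp inl, continuous, bounded by C on the compact set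
closedBall 0 1 ×ˢ Icc 0 1).  For x near x₀, x ≠ x₀, put t = ‖x - x₀‖, v = t⁻¹ • (x - x₀).  At x = x₀ (k ≥ 1): fderiv f x₀ = 0 because f = o(x - x₀) and f x₀ = 0
(or by continuity).  (E is proper: `FiniteDimensional.proper`.) -/
theorem isBigO_fderiv {f : E → W} (hf : ContDiff ℝ ∞ f) (x₀ : E) (k : ℕ)
    (h : f =O[𝓝 x₀] fun x => ‖x - x₀‖ ^ (k + 1)) : fderiv ℝ f =O[𝓝 x₀] fun x => ‖x - x₀‖ ^ k := by
  have hprop : ProperSpace E := FiniteDimensional.proper ℝ E
  have hF : ContDiff ℝ ∞ (fun p : E × ℝ => f (x₀ + p.2 • p.1)) :=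
    hf.comp (contDiff_const.add (contDiff_snd.smul contDiff_fst))
  obtain ⟨g, hg, hfg⟩ := hadamard_pow (F := fun p : E × ℝ => f (x₀ + p.2 • p.1)) hF (k + 1) (by
    intro v
    have ht : Tendsto (fun t : ℝ => x₀ + t • v) (𝓝 0) (𝓝 x₀) := by
      have hc : Continuous (fun t : ℝ => x₀ + t • v) := by fun_prop
      have := hc.tendsto 0
      simpa using this
    have h1 := h.comp_tendsto ht
    refine (h1.congr_left fun t => rfl).trans ?_
    refine IsBigO.of_bound (‖v‖ ^ (k + 1)) (Eventually.of_forall fun t => ?_)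
    simp only [Function.comp_apply, add_sub_cancel_left, norm_smul, norm_pow, norm_norm, mul_pow,
      norm_mul]
    rw [mul_comm])
  have hgd : Differentiable ℝ g := hg.differentiable (by simp)
  have hfd : Differentiable ℝ f := hf.differentiable (by simp)
  -- the derivative
  have hder : ∀ (v : E) (t : ℝ), t ≠ 0 →
      fderiv ℝ f (x₀ + t • v) = t ^ k • (fderiv ℝ g (v, t)).comp (ContinuousLinearMap.inl ℝ E ℝ) := by
    intro v t ht
    have e1 : HasFDerivAt (fun v : E => f (x₀ + t • v))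
        ((fderiv ℝ f (x₀ + t • v)).comp (t • ContinuousLinearMap.id ℝ E)) v := by
      have h2 : HasFDerivAt (fun v : E => x₀ + t • v) (t • ContinuousLinearMap.id ℝ E) v :=
        ((hasFDerivAt_id v).const_smul t).const_add x₀
      exact (hfd (x₀ + t • v)).hasFDerivAt.comp v h2
    have e2 : HasFDerivAt (fun v : E => t ^ (k + 1) • g (v, t))
        (t ^ (k + 1) • (fderiv ℝ g (v, t)).comp (ContinuousLinearMap.inl ℝ E ℝ)) v := by
      have h3 : HasFDerivAt (fun v : E => (v, t)) (ContinuousLinearMap.inl ℝ E ℝ) v :=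
        hasFDerivAt_prodMk_left v t
      exact ((hgd (v, t)).hasFDerivAt.comp v h3).const_smul _
    have e3 : (fun v : E => f (x₀ + t • v)) = fun v : E => t ^ (k + 1) • g (v, t) := by
      funext v'
      exact hfg v' t
    rw [e3] at e1
    have e4 := e1.unique e2
    ext w
    have e5 := congrArg (fun L : E →L[ℝ] W => L w) e4
    simp only [ContinuousLinearMap.comp_apply, ContinuousLinearMap.smul_apply,
      ContinuousLinearMap.id_apply, map_smul] at e5 ⊢
    have e6 : t • (fderiv ℝ f (x₀ + t • v)) w =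
        t • (t ^ k • (fderiv ℝ g (v, t)) ((ContinuousLinearMap.inl ℝ E ℝ) w)) := by
      rw [e5, smul_smul, pow_succ' t k]
    exact smul_right_injective W ht e6
  have hcont : Continuous fun p : E × ℝ =>
      (fderiv ℝ g p).comp (ContinuousLinearMap.inl ℝ E ℝ) :=
    (hg.continuous_fderiv (by simp)).clm_comp continuous_const
  obtain ⟨C, hC⟩ := ((isCompact_closedBall (0 : E) 1).prod (isCompact_Icc (a := (0 : ℝ))
    (b := 1))).exists_bound_of_continuousOn hcont.continuousOn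
  have hmain : ∀ x : E, x ≠ x₀ → ‖x - x₀‖ ≤ 1 → ‖fderiv ℝ f x‖ ≤ C * ‖x - x₀‖ ^ k := by
    intro x hx h1
    have hpos : 0 < ‖x - x₀‖ := norm_pos_iff.mpr (sub_ne_zero.mpr hx)
    have e : x = x₀ + ‖x - x₀‖ • (‖x - x₀‖⁻¹ • (x - x₀)) := by
      rw [smul_smul, mul_inv_cancel₀ hpos.ne', one_smul]; abel
    have hd := hder (‖x - x₀‖⁻¹ • (x - x₀)) ‖x - x₀‖ hpos.ne'
    rw [← e] at hd
    rw [hd, norm_smul, norm_pow, norm_norm, mul_comm]
    refine mul_le_mul_of_nonneg_right (hC (‖x - x₀‖⁻¹ • (x - x₀), ‖x - x₀‖) ?_) (by positivity)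
    refine ⟨?_, ?_⟩
    · rw [mem_closedBall_zero_iff, norm_smul, norm_inv, norm_norm, inv_mul_cancel₀ hpos.ne']
    · exact ⟨hpos.le, h1⟩
  have hball : ∀ᶠ x in 𝓝 x₀, ‖x - x₀‖ ≤ 1 := by
    have : Tendsto (fun x : E => ‖x - x₀‖) (𝓝 x₀) (𝓝 0) := by
      have hc : Continuous fun x : E => ‖x - x₀‖ := by fun_prop
      simpa using hc.tendsto x₀
    exact this.eventually (eventually_le_nhds one_pos)
  rcases Nat.eq_zero_or_pos k with rfl | hk
  · refine IsBigO.of_bound (max C ‖fderiv ℝ f x₀‖) (hball.mono fun x hx => ?_)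
    simp only [pow_zero, norm_one, mul_one]
    by_cases hxx : x = x₀
    · rw [hxx]; exact le_max_right _ _
    · have := hmain x hxx hx
      simp only [pow_zero, mul_one] at this
      exact this.trans (le_max_left _ _)
  · refine IsBigO.of_bound C (hball.mono fun x hx => ?_)
    rw [norm_pow, norm_norm]
    by_cases hxx : x = x₀
    · have h0 : fderiv ℝ f x₀ = 0 := (h.hasFDerivAt (by omega)).fderiv
      rw [hxx, h0, norm_zero, sub_self, norm_zero, zero_pow hk.ne', mul_zero]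
    · exact hmain x hxx hx

omit [CompleteSpace W] in
/-- The converse.

PROOF. ‖fderiv f y‖ ≤ C ‖y - x₀‖^k for ‖y - x₀‖ < δ.  Mean value inequality on the convex set closedBall x₀ ‖x - x₀‖
(`Convex.norm_image_sub_le_of_norm_fderiv_le`): ‖f x - f x₀‖ ≤ C ‖x-x₀‖^k ‖x-x₀‖. -/
theorem isBigO_of_fderiv {f : E → W} (hf : ContDiff ℝ ∞ f) (x₀ : E) (k : ℕ) (h0 : f x₀ = 0)
    (h : fderiv ℝ f =O[𝓝 x₀] fun x => ‖x - x₀‖ ^ k) : f =O[𝓝 x₀] fun x => ‖x - x₀‖ ^ (k + 1) := by
  obtain ⟨C, hC⟩ := h.bound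
  obtain ⟨δ, hδ, hball⟩ := Metric.eventually_nhds_iff.mp hC
  refine IsBigO.of_bound C ?_
  refine Metric.eventually_nhds_iff.mpr ⟨δ, hδ, fun x hx => ?_⟩
  have hfd : Differentiable ℝ f := hf.differentiable (by simp)
  have hC0 : 0 ≤ C ∨ C < 0 := le_or_gt 0 C
  have key : ∀ y ∈ Metric.closedBall x₀ ‖x - x₀‖, ‖fderiv ℝ f y‖ ≤ |C| * ‖x - x₀‖ ^ k := by
    intro y hy
    have hy' : dist y x₀ ≤ ‖x - x₀‖ := hy
    have h1 : dist y x₀ < δ := by
      rw [← dist_eq_norm] at hy'
      exact hy'.trans_lt hx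
    have h2 := hball h1
    rw [norm_pow, norm_norm, ← dist_eq_norm y x₀] at h2
    refine h2.trans ?_
    refine mul_le_mul (le_abs_self C) (pow_le_pow_left₀ dist_nonneg hy' k) (by positivity)
      (abs_nonneg C)
  have hconv : Convex ℝ (Metric.closedBall x₀ ‖x - x₀‖) := convex_closedBall _ _
  have hm := hconv.norm_image_sub_le_of_norm_fderiv_le (𝕜 := ℝ) (f := f)
    (fun y _ => hfd y) key (Metric.mem_closedBall_self (norm_nonneg _))
    (show x ∈ Metric.closedBall x₀ ‖x - x₀‖ by rw [Metric.mem_closedBall, dist_eq_norm])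
  rw [h0, sub_zero] at hm
  rw [norm_pow, norm_norm]
  rcases hC0 with hC0 | hC0
  · rw [abs_of_nonneg hC0] at hm
    calc ‖f x‖ ≤ C * ‖x - x₀‖ ^ k * ‖x - x₀‖ := hm
      _ = C * ‖x - x₀‖ ^ (k + 1) := by ring
  · -- `C < 0`: then the ball bound forces everything to vanish
    by_cases hxx : x = x₀
    · rw [hxx, h0]; simp
    · exfalso
      have h2 := hball hx
      have hpos : 0 < ‖x - x₀‖ := norm_pos_iff.mpr (sub_ne_zero.mpr hxx)
      rw [norm_pow, norm_norm] at h2
      have h3 : 0 < ‖x - x₀‖ ^ k := by positivity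
      have h4 := norm_nonneg (fderiv ℝ f x)
      nlinarith

end Pool.Agent.Lib.H37N
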